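import Pool.Agent.NPH.StD

/-!
# NPH: a pushdown automaton on binary codewords (module BPD, MP_5e85fc_lc, helper54)

The simulating automaton guesses the scanned symbols and the transition, and executes it in `3 m`
small steps: in the small step `j` the head `i` checks `chk` and moves by `act`.
-/

set_option autoImplicit false

namespace Pool.Agent.NPH

open Pool.Agent.Heads Relation

namespace BPD

variable {α : Type}

/-! ### Tapes -/

theorem tape_cases (w : List α) (p : ℕ) :
    (p = 0 ∧ tape w p = Sym.left) ∨
    (∃ (q : ℕ) (c : α), p = q + 1 ∧ w[q]? = some c ∧ tape w p = Sym.letter c) ∨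
    (w.length + 1 ≤ p ∧ tape w p = Sym.right) := by
  cases p with
  | zero => exact Or.inl ⟨rfl, rfl⟩
  | succ q =>
    right
    rcases h : w[q]? with _ | c
    · right
      refine ⟨Nat.succ_le_succ (List.getElem?_eq_none_iff.1 h), ?_⟩
      show (match w[q]? with | some a => Sym.letter a | none => Sym.right) = _
      rw [h]
    · left
      refine ⟨q, c, rfl, h, ?_⟩
      show (match w[q]? with | some a => Sym.letter a | none => Sym.right) = _
      rw [h]

theorem tape_letter (w : List α) (q : ℕ) (c : α) (h : w[q]? = some c) :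
    tape w (q + 1) = Sym.letter c := by
  show (match w[q]? with | some a => Sym.letter a | none => Sym.right) = _
  rw [h]

theorem flat_len {m : ℕ} {enc : α → List (Fin 2)} (hlen : ∀ c, (enc c).length = m)
    (w : List α) : (w.flatMap enc).length = w.length * m := by
  induction w with
  | nil => simp
  | cons a w ih =>
    rw [List.flatMap_cons, List.length_append, ih, hlen, List.length_cons]
    ring

theorem flat_get {m : ℕ} {enc : α → List (Fin 2)} (hlen : ∀ c, (enc c).length = m) :
    ∀ (w : List α) (q j : ℕ) (c : α), w[q]? = some c → j < m →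
      (w.flatMap enc)[q * m + j]? = (enc c)[j]? := by
  intro w
  induction w with
  | nil =>
    intro q j c h _
    simp at h
  | cons a w ih =>
    intro q j c h hj
    cases q with
    | zero =>
      rw [List.getElem?_cons_zero, Option.some.injEq] at h
      subst h
      rw [List.flatMap_cons, zero_mul, zero_add, List.getElem?_append_left (by rw [hlen]; exact hj)]
    | succ q =>
      rw [List.getElem?_cons_succ] at h
      rw [List.flatMap_cons, List.getElem?_append_right (by rw [hlen, add_mul]; omega), hlen,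
        ← ih q j c h hj]
      congr 1
      rw [add_mul, one_mul]
      omega

/-- the position of a head -/
def ph (m : ℕ) : ℕ → ℕ
  | 0 => 0
  | p + 1 => 1 + p * m

theorem tape_flat {m : ℕ} {enc : α → List (Fin 2)} (hlen : ∀ c, (enc c).length = m)
    (w : List α) (q j : ℕ) (c : α) (h : w[q]? = some c) (hj : j < m) :
    tape (w.flatMap enc) (1 + q * m + j) = Sym.letter ((enc c).getD j 0) := by
  have h1 := flat_get hlen w q j c h hj
  have h2 : (enc c)[j]? = some ((enc c).getD j 0) := by
    rw [List.getD_eq_getElem?_getD, List.getElem?_eq_getElem (by rw [hlen]; exact hj)]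
    rfl
  rw [h2] at h1
  have h3 : 1 + q * m + j = (q * m + j) + 1 := by omega
  rw [h3]
  exact tape_letter _ _ _ h1

/-! ### Programs of the heads -/

/-- the position of a head after `j` small steps with the moves `f 0, f 1, …` -/
def pa (N : ℕ) (f : ℕ → Dir) (p₀ : ℕ) : ℕ → ℕ
  | 0 => p₀
  | j + 1 => move N (pa N f p₀ j) (f j)

theorem pa_S {N : ℕ} {f : ℕ → Dir} {p₀ a b : ℕ} (hab : a ≤ b)
    (h : ∀ j, a ≤ j → j < b → f j = Dir.S) : pa N f p₀ b = pa N f p₀ a := by
  induction b, hab using Nat.le_induction with
  | base => rfl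
  | succ b hab ih =>
    rw [pa, h b hab (Nat.lt_succ_self b), ih fun j h1 h2 => h j h1 (by omega)]
    rfl

theorem pa_L {N : ℕ} {f : ℕ → Dir} {p₀ a b : ℕ} (hab : a ≤ b)
    (h : ∀ j, a ≤ j → j < b → f j = Dir.L) : pa N f p₀ b = pa N f p₀ a - (b - a) := by
  induction b, hab using Nat.le_induction with
  | base => rw [Nat.sub_self, Nat.sub_zero]
  | succ b hab ih =>
    rw [pa, h b hab (Nat.lt_succ_self b), ih fun j h1 h2 => h j h1 (by omega)]
    show pa N f p₀ a - (b - a) - 1 = _
    omega

theorem pa_R {N : ℕ} {f : ℕ → Dir} {p₀ a b : ℕ} (hab : a ≤ b)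
    (h : ∀ j, a ≤ j → j < b → f j = Dir.R) (hN : pa N f p₀ a + (b - a) ≤ N) :
    pa N f p₀ b = pa N f p₀ a + (b - a) := by
  induction b, hab using Nat.le_induction with
  | base => rw [Nat.sub_self, Nat.add_zero]
  | succ b hab ih =>
    rw [pa, h b hab (Nat.lt_succ_self b), ih (fun j h1 h2 => h j h1 (by omega)) (by omega)]
    show min (pa N f p₀ a + (b - a) + 1) N = _
    omega

/-- the moves of a head with the symbol `s` and the direction `d` -/
def act (m : ℕ) : Sym α → Dir → ℕ → Dir
  | Sym.left, Dir.R, j => if j = 0 then Dir.R else Dir.S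
  | Sym.left, _, _ => Dir.S
  | Sym.right, Dir.L, j => if j < m then Dir.S else if j < 2 * m then Dir.L else Dir.S
  | Sym.right, _, _ => Dir.S
  | Sym.letter _, Dir.R, j => if j < m then Dir.R else Dir.S
  | Sym.letter _, Dir.S, j => if j < m then Dir.R else if j < 2 * m then Dir.L else Dir.S
  | Sym.letter _, Dir.L, j => if j < m then Dir.R else Dir.L

/-- the checks of a head with the symbol `s` -/
def chk (m : ℕ) (enc : α → List (Fin 2)) : Sym α → ℕ → Sym (Fin 2) → Prop
  | Sym.left, j, s => j = 0 → s = Sym.left
  | Sym.right, j, s => j = 0 → s = Sym.right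
  | Sym.letter c, j, s => j < m → s = Sym.letter ((enc c).getD j 0)

theorem act_letter (m : ℕ) (c : α) (d : Dir) (j : ℕ) (h : j < m) :
    act m (Sym.letter c) d j = Dir.R := by
  cases d <;> simp [act, h]

section Head

variable {m : ℕ} {enc : α → List (Fin 2)} (hm : 1 ≤ m) (hlen : ∀ c, (enc c).length = m)

include hlen in
/-- the position of a head on a letter in the first `m` small steps -/
theorem pa_letter (w : List α) (q : ℕ) (c c' : α) (h : w[q]? = some c') (d : Dir) (j : ℕ)
    (hj : j ≤ m) : pa ((w.flatMap enc).length + 1) (act m (Sym.letter c) d) (1 + q * m) j =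
      1 + q * m + j := by
  have h1 : q < w.length := by
    by_contra hc
    rw [List.getElem?_eq_none (not_lt.1 hc)] at h
    exact Option.some_ne_none _ h.symm
  have h2 : (q + 1) * m ≤ w.length * m := Nat.mul_le_mul_right m h1
  rw [add_mul, one_mul] at h2
  have h3 := pa_R (N := (w.flatMap enc).length + 1) (f := act m (Sym.letter c) d)
    (p₀ := 1 + q * m) (Nat.zero_le j) (fun i _ hi => act_letter m c d i (by omega))
    (by
      show 1 + q * m + (j - 0) ≤ _
      rw [flat_len hlen]
      omega)
  rw [h3]
  show 1 + q * m + (j - 0) = _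
  omega

include hm hlen in
/-- the checks determine the symbol -/
theorem sound (hinj : Function.Injective enc) (w : List α) (p : ℕ) (s : Sym α)
    (d : Dir) (h : ∀ j < 3 * m, chk m enc s j (tape (w.flatMap enc)
      (pa ((w.flatMap enc).length + 1) (act m s d) (ph m p) j))) : tape w p = s := by
  have h0 := h 0 (by omega)
  have e0 : pa ((w.flatMap enc).length + 1) (act m s d) (ph m p) 0 = ph m p := rfl
  rw [e0] at h0
  cases s with
  | left =>
    have h1 : tape (w.flatMap enc) (ph m p) = Sym.left := h0 rfl
    rcases tape_cases (w.flatMap enc) (ph m p) with ⟨h2, -⟩ | ⟨q, c, -, -, h2⟩ | ⟨-, h2⟩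
    · cases p with
      | zero => rfl
      | succ p =>
        exfalso
        have : 1 + p * m = 0 := h2
        omega
    · rw [h1] at h2
      exact Sym.noConfusion rfl (heq_of_eq h2)
    · rw [h1] at h2
      exact Sym.noConfusion rfl (heq_of_eq h2)
  | right =>
    have h1 : tape (w.flatMap enc) (ph m p) = Sym.right := h0 rfl
    rcases tape_cases (w.flatMap enc) (ph m p) with ⟨-, h2⟩ | ⟨q, c, -, -, h2⟩ | ⟨h2, -⟩
    · rw [h1] at h2
      exact Sym.noConfusion rfl (heq_of_eq h2)
    · rw [h1] at h2
      exact Sym.noConfusion rfl (heq_of_eq h2)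
    · rw [flat_len hlen] at h2
      cases p with
      | zero =>
        exfalso
        have : w.length * m + 1 ≤ 0 := h2
        omega
      | succ p =>
        have h3 : w.length * m + 1 ≤ 1 + p * m := h2
        have h4 : w.length ≤ p := Nat.le_of_mul_le_mul_right (by omega : w.length * m ≤ p * m) hm
        rcases tape_cases w (p + 1) with ⟨h5, -⟩ | ⟨q, c, h5, h6, -⟩ | ⟨-, h5⟩
        · omega
        · exfalso
          rw [List.getElem?_eq_none (by omega)] at h6
          exact Option.some_ne_none _ h6.symm
        · exact h5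
  | letter c =>
    have h1 : tape (w.flatMap enc) (ph m p) = Sym.letter ((enc c).getD 0 0) := h0 (by omega)
    cases p with
    | zero =>
      exfalso
      have h2 : tape (w.flatMap enc) (ph m 0) = Sym.left := rfl
      rw [h1] at h2
      exact Sym.noConfusion rfl (heq_of_eq h2)
    | succ q =>
      rcases tape_cases w (q + 1) with ⟨h5, -⟩ | ⟨q', c', h5, h6, h7⟩ | ⟨h5, -⟩
      · omega
      · have hq : q' = q := by omega
        subst hq
        rw [h7]
        congr 1
        apply hinj
        apply List.ext_getElem (by rw [hlen, hlen])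
        intro j hj hj'
        have hj2 : j < m := by
          rw [hlen] at hj
          exact hj
        have h8 := h j (by omega)
        have e1 : ph m (q' + 1) = 1 + q' * m := rfl
        rw [e1, pa_letter hlen w q' c c' h6 d j hj2.le, tape_flat hlen w q' j c' h6 hj2] at h8
        have h9 : Sym.letter ((enc c').getD j 0) = Sym.letter ((enc c).getD j 0) := h8 hj2
        have h10 : (enc c').getD j 0 = (enc c).getD j 0 := by
          injection h9
        rw [List.getD_eq_getElem _ _ hj, List.getD_eq_getElem _ _ hj'] at h10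
        exact h10
      · exfalso
        have h8 : (w.flatMap enc).length + 1 ≤ ph m (q + 1) := by
          rw [flat_len hlen]
          show w.length * m + 1 ≤ 1 + q * m
          have : w.length * m ≤ q * m := Nat.mul_le_mul_right m (by omega)
          omega
        rcases tape_cases (w.flatMap enc) (ph m (q + 1)) with ⟨h9, -⟩ | ⟨r, c', h9, h10, -⟩ | ⟨-, h9⟩
        · omega
        · rw [List.getElem?_eq_none (by omega)] at h10
          exact Option.some_ne_none _ h10.symm
        · rw [h1] at h9
          exact Sym.noConfusion rfl (heq_of_eq h9)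

include hm hlen in
/-- the right symbol passes all checks, and the head makes the move -/
theorem complete (w : List α) (p : ℕ) (hp : p ≤ w.length + 1) (d : Dir) :
    (∀ j < 3 * m, chk m enc (tape w p) j (tape (w.flatMap enc)
      (pa ((w.flatMap enc).length + 1) (act m (tape w p) d) (ph m p) j))) ∧
    pa ((w.flatMap enc).length + 1) (act m (tape w p) d) (ph m p) (3 * m) =
      ph m (move (w.length + 1) p d) := by
  rcases tape_cases w p with ⟨h1, h2⟩ | ⟨q, c, h1, h2, h3⟩ | ⟨h1, h2⟩
  · subst h1
    rw [h2]
    refine ⟨fun j _ hj => ?_, ?_⟩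
    · subst hj
      rfl
    · cases d with
      | L =>
        rw [pa_S (f := act m Sym.left Dir.L) (a := 0) (Nat.zero_le _) fun j _ _ => rfl]
        rfl
      | S =>
        rw [pa_S (f := act m Sym.left Dir.S) (a := 0) (Nat.zero_le _) fun j _ _ => rfl]
        rfl
      | R =>
        rw [pa_S (a := 1) (by omega) fun j hj _ => by
          show (if j = 0 then Dir.R else Dir.S) = Dir.S
          rw [if_neg (by omega)]]
        show min (0 + 1) ((w.flatMap enc).length + 1) = ph m (min (0 + 1) (w.length + 1))
        rw [Nat.min_eq_left (by omega), Nat.min_eq_left (by omega)]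
        show 0 + 1 = 1 + 0 * m
        omega
  · subst h1
    rw [h3]
    have hq : q < w.length := by
      by_contra hc
      rw [List.getElem?_eq_none (not_lt.1 hc)] at h2
      exact Option.some_ne_none _ h2.symm
    have e1 : ph m (q + 1) = 1 + q * m := rfl
    rw [e1]
    refine ⟨fun j _ hj => ?_, ?_⟩
    · rw [pa_letter hlen w q c c h2 d j hj.le, tape_flat hlen w q j c h2 hj]
    · have h4 := pa_letter hlen w q c c h2 d m le_rfl
      cases d with
      | L =>
        rw [pa_L (a := m) (by omega) (fun j hj _ => by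
          show (if j < m then Dir.R else Dir.L) = Dir.L
          rw [if_neg (by omega)]), h4]
        show 1 + q * m + m - (3 * m - m) = ph m (q + 1 - 1)
        rw [Nat.add_sub_cancel]
        cases q with
        | zero =>
          show 1 + 0 * m + m - (3 * m - m) = 0
          omega
        | succ q =>
          show 1 + (q + 1) * m + m - (3 * m - m) = 1 + q * m
          rw [add_mul]
          omega
      | S =>
        rw [pa_S (a := 2 * m) (by omega) (fun j hj _ => by
          show (if j < m then Dir.R else if j < 2 * m then Dir.L else Dir.S) = Dir.S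
          rw [if_neg (by omega), if_neg (by omega)]),
          pa_L (a := m) (by omega) (fun j hj hj' => by
          show (if j < m then Dir.R else if j < 2 * m then Dir.L else Dir.S) = Dir.L
          rw [if_neg (by omega), if_pos hj']), h4]
        show 1 + q * m + m - (2 * m - m) = 1 + q * m
        omega
      | R =>
        rw [pa_S (a := m) (by omega) (fun j hj _ => by
          show (if j < m then Dir.R else Dir.S) = Dir.S
          rw [if_neg (by omega)]), h4]
        show 1 + q * m + m = ph m (min (q + 1 + 1) (w.length + 1))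
        rw [Nat.min_eq_left (by omega)]
        show 1 + q * m + m = 1 + (q + 1) * m
        ring
  · have hp' : p = w.length + 1 := by omega
    subst hp'
    rw [h2]
    have e1 : ph m (w.length + 1) = 1 + w.length * m := rfl
    rw [e1]
    refine ⟨fun j _ hj => ?_, ?_⟩
    · subst hj
      show tape (w.flatMap enc) (1 + w.length * m) = Sym.right
      rcases tape_cases (w.flatMap enc) (1 + w.length * m) with ⟨h9, -⟩ | ⟨r, c', h9, h10, -⟩ |
        ⟨-, h9⟩
      · omega
      · exfalso
        rw [List.getElem?_eq_none (by rw [flat_len hlen]; omega)] at h10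
        exact Option.some_ne_none _ h10.symm
      · exact h9
    · cases d with
      | L =>
        rw [pa_S (a := 2 * m) (by omega) (fun j hj _ => by
          show (if j < m then Dir.S else if j < 2 * m then Dir.L else Dir.S) = Dir.S
          rw [if_neg (by omega), if_neg (by omega)]),
          pa_L (a := m) (by omega) (fun j hj hj' => by
          show (if j < m then Dir.S else if j < 2 * m then Dir.L else Dir.S) = Dir.L
          rw [if_neg (by omega), if_pos hj']),
          pa_S (a := 0) (Nat.zero_le _) (fun j _ hj' => by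
          show (if j < m then Dir.S else if j < 2 * m then Dir.L else Dir.S) = Dir.S
          rw [if_pos hj'])]
        show 1 + w.length * m - (2 * m - m) = ph m (w.length + 1 - 1)
        rw [Nat.add_sub_cancel]
        cases hl : w.length with
        | zero =>
          show 1 + 0 * m - (2 * m - m) = 0
          omega
        | succ n =>
          show 1 + (n + 1) * m - (2 * m - m) = 1 + n * m
          rw [add_mul]
          omega
      | S =>
        rw [pa_S (f := act m Sym.right Dir.S) (a := 0) (Nat.zero_le _) fun j _ _ => rfl]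
        rfl
      | R =>
        rw [pa_S (f := act m Sym.right Dir.R) (a := 0) (Nat.zero_le _) fun j _ _ => rfl]
        show 1 + w.length * m = ph m (min (w.length + 1 + 1) (w.length + 1))
        rw [Nat.min_eq_right (by omega)]
        rfl

end Head

/-! ### The automaton -/

instance finSym [Finite α] : Finite (Sym α) := by
  refine Finite.of_injective (β := Option (Option α)) (fun s => match s with
    | Sym.left => none
    | Sym.right => some none
    | Sym.letter c => some (some c)) ?_
  intro s t h
  cases s <;> cases t <;> simp_all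

instance finDir : Finite Dir := by
  refine Finite.of_injective (β := Fin 3) (fun d => match d with
    | Dir.L => 0
    | Dir.S => 1
    | Dir.R => 2) ?_
  intro s t h
  cases s <;> cases t <;> simp_all

/-- the states -/
abbrev QQ (Q α : Type) (k m : ℕ) : Type :=
  Q ⊕ (Q × (Fin k → Sym α) × (Fin k → Dir) × Fin (3 * m))

/-- the state after the small step `j` -/
def nx {Q : Type} {k : ℕ} (m : ℕ) (q : Q) (σ : Fin k → Sym α) (d : Fin k → Dir) (j : ℕ) :
    QQ Q α k m :=
  if h : j + 1 < 3 * m then Sum.inr (q, σ, d, ⟨j + 1, h⟩) else Sum.inl q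

/-- the transitions -/
def dl {k : ℕ} (m : ℕ) (enc : α → List (Fin 2)) (M : PDA α k) :
    QQ M.Q α k m → (Fin k → Sym (Fin 2)) → Option M.Γ →
      Set (QQ M.Q α k m × (Fin k → Dir) × Op M.Γ)
  | Sum.inl q, x, g => {t | ∃ σ : Fin k → Sym α, ∃ r ∈ M.δ q σ g,
      (∀ i, chk m enc (σ i) 0 (x i)) ∧
        t = (nx m r.1 σ r.2.1 0, (fun i => act m (σ i) (r.2.1 i) 0), r.2.2)}
  | Sum.inr (q, σ, d, j), x, _ => {t | (∀ i, chk m enc (σ i) j (x i)) ∧
        t = (nx m q σ d j, (fun i => act m (σ i) (d i) j), Op.none)}

/-- the simulating automaton -/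
def sim [Finite α] {k : ℕ} (m : ℕ) (enc : α → List (Fin 2)) (M : PDA α k) : PDA (Fin 2) k where
  Q := QQ M.Q α k m
  Γ := M.Γ
  finQ := by
    have := M.finQ
    infer_instance
  finΓ := M.finΓ
  start := Sum.inl M.start
  accept := {s | ∃ q ∈ M.accept, s = Sum.inl q}
  δ := dl m enc M

section Main

variable [Finite α] {k m : ℕ} {enc : α → List (Fin 2)} (hm : 1 ≤ m)
  (hlen : ∀ c, (enc c).length = m) (M : PDA α k)

/-- configurations of the simulating automaton on the codeword that occur -/
def Inv (m : ℕ) (enc : α → List (Fin 2)) (M : PDA α k) (w : List α)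
    (c : Cfg (QQ M.Q α k m) (Fin k → ℕ) M.Γ) : Prop :=
  (∃ (t : ℕ) (e : Cfg M.Q (Fin k → ℕ) M.Γ), M.Reach w t e ∧ (∀ i, e.pos i ≤ w.length + 1) ∧
    c = ⟨Sum.inl e.state, fun i => ph m (e.pos i), e.stack⟩) ∨
  ∃ (t : ℕ) (e : Cfg M.Q (Fin k → ℕ) M.Γ) (σ : Fin k → Sym α) (j : ℕ) (hj : j < 3 * m),
    M.Reach w t e ∧ (∀ i, e.pos i ≤ w.length + 1) ∧ ∃ r ∈ M.δ e.state σ e.stack.head?,
      (∀ i, ∀ j' < j, chk m enc (σ i) j' (tape (w.flatMap enc)
        (pa ((w.flatMap enc).length + 1) (act m (σ i) (r.2.1 i)) (ph m (e.pos i)) j'))) ∧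
      c = ⟨Sum.inr (r.1, σ, r.2.1, ⟨j, hj⟩), fun i =>
        pa ((w.flatMap enc).length + 1) (act m (σ i) (r.2.1 i)) (ph m (e.pos i)) j,
          r.2.2.apply e.stack⟩

omit [Finite α] in
theorem move_le (N p : ℕ) (d : Dir) (h : p ≤ N) : move N p d ≤ N := by
  cases d with
  | L => exact (Nat.sub_le p 1).trans h
  | S => exact h
  | R => exact Nat.min_le_right _ _

include hm hlen in
omit [Finite α] in
theorem nxt (hinj : Function.Injective enc) (w : List α) (t : ℕ)
    (e : Cfg M.Q (Fin k → ℕ) M.Γ) (σ : Fin k → Sym α)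
    (j : ℕ) (hj : j < 3 * m) (h1 : M.Reach w t e) (h2 : ∀ i, e.pos i ≤ w.length + 1)
    (r : M.Q × (Fin k → Dir) × Op M.Γ) (hr : r ∈ M.δ e.state σ e.stack.head?)
    (h3 : ∀ i, ∀ j' < j + 1, chk m enc (σ i) j' (tape (w.flatMap enc)
        (pa ((w.flatMap enc).length + 1) (act m (σ i) (r.2.1 i)) (ph m (e.pos i)) j'))) :
    Inv m enc M w ⟨nx m r.1 σ r.2.1 j, fun i =>
        pa ((w.flatMap enc).length + 1) (act m (σ i) (r.2.1 i)) (ph m (e.pos i)) (j + 1),
          r.2.2.apply e.stack⟩ := by
  by_cases hj' : j + 1 < 3 * m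
  · right
    refine ⟨t, e, σ, j + 1, hj', h1, h2, r, hr, h3, ?_⟩
    unfold nx
    rw [dif_pos hj']
  · left
    have e3 : j + 1 = 3 * m := by omega
    rw [e3] at h3
    have hσ : (fun i => tape w (e.pos i)) = σ := funext fun i =>
      sound hm hlen hinj w (e.pos i) (σ i) (r.2.1 i) (h3 i)
    refine ⟨t + 1, ⟨r.1, fun i => move (w.length + 1) (e.pos i) (r.2.1 i), r.2.2.apply e.stack⟩,
      PDA.Reach.succ h1 ⟨r, ?_, rfl⟩, fun i => move_le _ _ _ (h2 i), ?_⟩
    · rw [hσ]
      exact hr
    · unfold nx
      rw [dif_neg hj', e3]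
      congr 1
      funext i
      have := (complete hm hlen w (e.pos i) (h2 i) (r.2.1 i)).2
      rw [← hσ]
      exact this

include hm hlen in
theorem inv_of_reach (hinj : Function.Injective enc) (w : List α) (t : ℕ)
    (c : Cfg (sim m enc M).Q (Fin k → ℕ) (sim m enc M).Γ)
    (h : (sim m enc M).Reach (w.flatMap enc) t c) : Inv m enc M w c := by
  induction h with
  | zero =>
    left
    exact ⟨0, M.init, PDA.Reach.zero, fun i => Nat.zero_le _, rfl⟩
  | succ _ hs ih =>
    obtain ⟨u, hu, rfl⟩ := hs
    rcases ih with ⟨t, e, h1, h2, rfl⟩ | ⟨t, e, σ, j, hj, h1, h2, r, hr, h3, rfl⟩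
    · obtain ⟨σ, r, hr, hc, rfl⟩ := hu
      exact nxt hm hlen M hinj w t e σ 0 (by omega) h1 h2 r hr (fun i j' hj' => by
        have : j' = 0 := by omega
        subst this
        exact hc i)
    · obtain ⟨hc, rfl⟩ := hu
      exact nxt hm hlen M hinj w t e σ j hj h1 h2 r hr (fun i j' hj' => by
        rcases Nat.lt_succ_iff_lt_or_eq.1 hj' with h | h
        · exact h3 i j' h
        · subst h
          exact hc i)

include hm hlen in
theorem reach_of (w : List α) (t : ℕ) (e : Cfg M.Q (Fin k → ℕ) M.Γ) (h : M.Reach w t e) :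
    (∀ i, e.pos i ≤ w.length + 1) ∧ ∃ t', (sim m enc M).Reach (w.flatMap enc) t'
      ⟨Sum.inl e.state, fun i => ph m (e.pos i), e.stack⟩ := by
  induction h with
  | zero => exact ⟨fun i => Nat.zero_le _, 0, PDA.Reach.zero⟩
  | @succ t e e' _ hs ih =>
    obtain ⟨h2, t', ht'⟩ := ih
    obtain ⟨r, hr, rfl⟩ := hs
    refine ⟨fun i => move_le _ _ _ (h2 i), ?_⟩
    have hk := fun i => complete hm hlen w (e.pos i) (h2 i) (r.2.1 i)
    have key : ∀ j < 3 * m, ∃ t', (sim m enc M).Reach (w.flatMap enc) t'
        ⟨nx m r.1 (fun i => tape w (e.pos i)) r.2.1 j, fun i =>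
          pa ((w.flatMap enc).length + 1) (act m (tape w (e.pos i)) (r.2.1 i))
            (ph m (e.pos i)) (j + 1), r.2.2.apply e.stack⟩ := by
      intro j
      induction j with
      | zero =>
        intro _
        refine ⟨t' + 1, PDA.Reach.succ ht' ⟨_, ⟨fun i => tape w (e.pos i), r, hr, fun i => ?_,
          rfl⟩, rfl⟩⟩
        exact (hk i).1 0 (by omega)
      | succ j ih =>
        intro hj
        obtain ⟨t'', ht''⟩ := ih (by omega)
        have e1 : nx m r.1 (fun i => tape w (e.pos i)) r.2.1 j =
            Sum.inr (r.1, (fun i => tape w (e.pos i)), r.2.1, ⟨j + 1, hj⟩) := by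
          unfold nx
          rw [dif_pos hj]
        rw [e1] at ht''
        refine ⟨t'' + 1, PDA.Reach.succ ht'' ⟨_, ⟨fun i => ?_, rfl⟩, rfl⟩⟩
        exact (hk i).1 (j + 1) hj
    obtain ⟨t'', ht''⟩ := key (3 * m - 1) (by omega)
    refine ⟨t'', ?_⟩
    have e1 : nx m r.1 (fun i => tape w (e.pos i)) r.2.1 (3 * m - 1) = Sum.inl r.1 := by
      unfold nx
      rw [dif_neg (by omega)]
    have e2 : 3 * m - 1 + 1 = 3 * m := by omega
    rw [e1, e2] at ht''
    have e3 : (fun i => pa ((w.flatMap enc).length + 1) (act m (tape w (e.pos i)) (r.2.1 i))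
        (ph m (e.pos i)) (3 * m)) = fun i => ph m (move (w.length + 1) (e.pos i) (r.2.1 i)) :=
      funext fun i => (hk i).2
    rw [e3] at ht''
    exact ht''

end Main

end BPD

theorem t_BPD : BPD_Stmt := by
  intro α _ m enc hm hlen hinj k M
  refine ⟨BPD.sim m enc M, fun w => ?_⟩
  constructor
  · rintro ⟨t, c, h1, q, hq, h2⟩
    rcases BPD.inv_of_reach hm hlen M hinj w t c h1 with ⟨t', e, h3, -, rfl⟩ |
      ⟨t', e, σ, j, hj, h3, -, r, -, -, rfl⟩
    · have h4 : e.state = q := Sum.inl_injective h2
      exact ⟨t', e, h3, by rw [h4]; exact hq⟩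
    · exact (Sum.inr_ne_inl h2).elim
  · rintro ⟨t, e, h1, h2⟩
    obtain ⟨-, t', h3⟩ := BPD.reach_of hm hlen M w t e h1
    exact ⟨t', _, h3, e.state, h2, rfl⟩

end Pool.Agent.NPH
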