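import Pool.Agent.NPH.StU

/-! # Project NPH, module SWP (helper62): sweeps by letters -/

set_option autoImplicit false

namespace Pool.Agent.NPH

open Pool.Agent.Heads Relation

theorem t_SWP : SWP_Stmt := by
  intro Q A B sw N
  induction N with
  | zero =>
    intro u v q q'
    rw [List.ofFn_zero]
    constructor
    · rintro ⟨h1, h2⟩
      exact ⟨Fin.elim0, fun _ => q, by rw [h2, List.ofFn_zero], rfl, h1, fun k => k.elim0⟩
    · rintro ⟨w, p, h1, h2, h3, -⟩
      refine ⟨?_, by rw [h1, List.ofFn_zero]⟩
      rw [← h2, ← h3]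
      rfl
  | succ N ih =>
    intro u v q q'
    rw [List.ofFn_succ]
    constructor
    · rintro ⟨p1, b, v', h1, h2, h3⟩
      obtain ⟨w', p', h4, h5, h6, h7⟩ := (ih _ _ _ _).1 h3
      refine ⟨Fin.cons b w', Fin.cons q p', ?_, rfl, ?_, ?_⟩
      · rw [h2, h4, List.ofFn_succ]
        rfl
      · rw [← h6]
        rfl
      · intro k
        refine Fin.cases ?_ (fun j => ?_) k
        · change (p' 0, b) ∈ sw q (u 0)
          rw [h5]
          exact h1
        · have h8 := h7 j
          rw [← Fin.succ_castSucc]
          exact h8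
    · rintro ⟨w, p, h1, h2, h3, h4⟩
      refine ⟨p (Fin.succ 0), w 0, List.ofFn fun i => w i.succ, ?_, ?_, ?_⟩
      · have h5 := h4 0
        rw [← h2]
        exact h5
      · rw [h1, List.ofFn_succ]
      · refine (ih _ _ _ _).2 ⟨fun i => w i.succ, fun i => p i.succ, rfl, rfl, ?_, fun j => ?_⟩
        · rw [← h3]
          rfl
        · have h6 := h4 j.succ
          rw [← Fin.succ_castSucc] at h6
          exact h6

end Pool.Agent.NPH
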