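import Pool.Agent.NPH.StS

/-!
# NPH, module TOPS: the assembly of T1 for sensing heads, binary alphabet (helper31)
-/

set_option autoImplicit false

namespace Pool.Agent.NPH

open Pool.Agent.Heads Relation

namespace TOPS

/-- the codeword of the letter `c`: one `1`, at the place `e c` -/
def enc {α : Type} {a : ℕ} (e : α ≃ Fin a) (c : α) : List (Fin 2) :=
  List.ofFn fun i : Fin (a + 1) => if (i : ℕ) = (e c : ℕ) then (1 : Fin 2) else 0

lemma length_enc {α : Type} {a : ℕ} (e : α ≃ Fin a) (c : α) : (enc e c).length = a + 1 := by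
  simp [enc]

lemma enc_injective {α : Type} {a : ℕ} (e : α ≃ Fin a) : Function.Injective (enc e) := by
  intro c c' h
  have h1 : (fun i : Fin (a + 1) => if (i : ℕ) = (e c : ℕ) then (1 : Fin 2) else 0) =
      fun i : Fin (a + 1) => if (i : ℕ) = (e c' : ℕ) then (1 : Fin 2) else 0 :=
    List.ofFn_injective h
  have h2 := congrFun h1 (e c).castSucc
  simp only [Fin.val_castSucc, if_true] at h2
  by_contra hne
  rw [if_neg (fun h3 => hne (e.injective (Fin.ext h3)))] at h2
  exact absurd h2 (by decide)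

end TOPS

open TOPS in
/-- module TOPS -/
theorem t_TOPS : TOPS_Stmt := by
  intro hCOL hP hF hU hL hM hH k hk
  by_contra hcon
  push Not at hcon
  have H : ∀ (α : Type) [Finite α] (M : PDA α k), ∃ A : SFA α (2 * k), A.lang = M.lang := by
    intro α _ M
    obtain ⟨a, ⟨e⟩⟩ := Finite.exists_equiv_fin α
    obtain ⟨M', hM'⟩ := hP α (a + 1) (enc e) (by omega) (length_enc e) (enc_injective e) k M
    obtain ⟨A', hA'⟩ := hcon M'
    obtain ⟨A, hA⟩ := hF α (a + 1) (enc e) (by omega) (length_enc e) (2 * k) A'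
    refine ⟨A, Set.ext fun w => ?_⟩
    rw [hA w, hA', hM' w]
  obtain ⟨S₀, h⟩ := hCOL hU hL hM k hk H
  obtain ⟨Λ, hΛ, S', L, h1, h2⟩ := hH (2 * k) S₀ (by omega)
  exact h2 (h Λ S' L h1)

end Pool.Agent.NPH
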