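import Pool.Agent.NPH.StU

/-!
# UDF: the universal predicate is in the class
-/

set_option autoImplicit false

namespace Pool.Agent.NPH

open Pool.Agent.Heads Relation

namespace UDF

/-- definable predicates without numbers are in the class -/
theorem cc_of_dn (hC : Calc) {Γ : Type} {P : PP Γ Empty} (h : Dn P) :
    Cc (fun n a => P n a Empty.elim) := by
  have h1 := hC.map (Γ × (Empty → Bool)) Γ (fun x => (x, Empty.elim)) _ h
  refine cast (congrArg Cc ?_) h1
  funext n a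
  refine propext ⟨?_, fun h => ⟨Empty.elim, ⟨fun j => j.elim, ?_⟩, h⟩⟩
  · rintro ⟨v, -, h⟩
    have e : v = Empty.elim := funext fun j => j.elim
    rw [e] at h
    exact h
  · funext i j
    exact j.elim

/-- an entry of the table, for a pair of equal states -/
theorem bit {Γ J : Type} [Finite J] (hD : DC) {ω l : ℕ} {X : Set (Option Lam)}
    (hb : Dn (Bit ω l X)) (g : Γ → Option Lam) (j : J) :
    Dn (fun n (w : Fin (n + 1) → Γ) (v : J → ℕ) =>
      Bit ω l X n (fun i => g (w i)) ![v j, v j]) := by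
  have h := hD.map (Option Lam) Γ (Fin 2) J g (fun _ => j) _ hb
  refine h.congr fun n a v _ => ?_
  have e : v ∘ (fun _ : Fin 2 => j) = ![v j, v j] := by
    funext i
    fin_cases i <;> rfl
  show Bit ω l X n (g ∘ a) (v ∘ fun _ => j) ↔ _
  rw [e]
  exact Iff.rfl

section

variable {r S ω : ℕ} (e : Lab r S → ℕ)

/-- initial configurations -/
theorem uin (hL : LCL_Stmt) (hC : Calc) (hD : DC) (hA : ARI_Stmt)
    (hb : ∀ (l : ℕ) (X : Set (Option Lam)), Dn (Bit ω l X)) : Dn (UIn ω e) := by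
  obtain ⟨-, -, h0, -, -, hw⟩ := hA hL hC hD (Option Lam × Fin S)
  refine hD.and _ _ (fun n _ v => ∀ j, v j = 0) _ ?_ ?_
  · exact hD.andf _ (Nu r) (Nu r) (fun j n _ v => v j = 0) fun j =>
      hD.map _ _ (Fin 1) (Nu r) id (fun _ => j) _ (h0 0)
  · refine hD.orf _ (Nu r) (Fin S) (fun b n (w : Fin (n + 1) → Option Lam × Fin S) v =>
      (∀ i, (w i).2 = b) ∧
      Bit ω (e (Sum.inr (Sum.inr (Sum.inr b)))) onL n (fun i => (w i).1)
        ![v (Sum.inl 0), v (Sum.inl 0)]) fun b => ?_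
    refine hD.and _ _ (fun n (w : Fin (n + 1) → Option Lam × Fin S) _ => ∀ i, (w i).2 = b) _
      ?_ ?_
    · exact hw (Nu r) (fun n (w : Fin (n + 1) → Option Lam × Fin S) => ∀ i, (w i).2 = b)
        (hC.loc _ _ (hL.2.2.1 _ {x : Option Lam × Fin S | x.2 = b}))
    · exact bit hD (hb _ _) Prod.fst (Sum.inl 0)

/-- accepting configurations -/
theorem uac (hL : LCL_Stmt) (hC : Calc) (hD : DC) (hA : ARI_Stmt)
    (hb : ∀ (l : ℕ) (X : Set (Option Lam)), Dn (Bit ω l X)) : Dn (UAc ω e) := by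
  obtain ⟨-, -, h0, -, -, -⟩ := hA hL hC hD (Option Lam × Fin S)
  refine hD.and _ _ (fun n _ v => v (Sum.inl 1) = 0) _ ?_ ?_
  · exact hD.map _ _ (Fin 1) (Nu r) id (fun _ => Sum.inl 1) _ (h0 0)
  · exact bit hD (hb _ _) Prod.fst (Sum.inl 0)

end

end UDF

open UDF in
theorem t_UDF : UDF_Stmt := by
  intro hL hC hD hA hB hS hAdd hMul hU r S ω e hω
  have hb : ∀ (l : ℕ) (X : Set (Option Lam)), Dn (Bit ω l X) := fun l X =>
    hB hL hC hD hA hAdd hMul _ ω l X hω
  have h1 := uin e hL hC hD hA hb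
  have h2 := uac e hL hC hD hA hb
  have h3 := hD.tc (Option Lam) (Fin S) Empty (Nu r) _
    (hU hL hC hD hA hB hS hAdd hMul r S ω e hω).2.2
  have m1 := hD.map _ (Option Lam × (Fin S × Fin S)) _ (Empty ⊕ (Nu r ⊕ Nu r))
    (fun x => (x.1, x.2.1)) (fun j => Sum.inr (Sum.inl j)) _ h1
  have m2 := hD.map _ (Option Lam × (Fin S × Fin S)) _ (Empty ⊕ (Nu r ⊕ Nu r))
    (fun x => (x.1, x.2.2)) (fun j => Sum.inr (Sum.inr j)) _ h2
  have m := hD.and _ _ _ _ m1 (hD.and _ _ _ _ h3 m2)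
  have m3 := hD.exw (Option Lam) (Fin S × Fin S) _ _ m
  have m4 := hD.exn (Option Lam) Empty (Nu r ⊕ Nu r) _ m3
  have m5 := cc_of_dn hC m4
  refine cast (congrArg Cc ?_) m5
  funext n a
  refine propext ⟨?_, ?_⟩
  · rintro ⟨u, hu, b, p1, p2, p3⟩
    exact ⟨(fun i => (b i).1, u ∘ Sum.inl), (fun i => (b i).2, u ∘ Sum.inr), fun j => hu _,
      fun j => hu _, p1, p2, p3⟩
  · rintro ⟨c, c', hc, hc', p1, p2, p3⟩
    refine ⟨Sum.elim c.2 c'.2, ?_, fun i => (c.1 i, c'.1 i), p1, p2, p3⟩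
    rintro (j | j)
    · exact hc j
    · exact hc' j

end Pool.Agent.NPH
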