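import Pool.Agent.NPH.StS

/-!
# Project NPH, part S: acceptance with head `0` on the left endmarker, sensing heads
-/

set_option autoImplicit false

namespace Pool.Agent.NPH

open Pool.Agent.Heads Relation

namespace ACCS

variable {α : Type} {D : ℕ}

/-- The transitions of the new automaton. -/
def dl (A : SFA α (D + 1)) (q : A.Q ⊕ Bool) (s : Fin (D + 1) → Sym α)
    (z : Fin (D + 1) → Fin (D + 1) → Bool) : Set ((A.Q ⊕ Bool) × (Fin (D + 1) → Dir)) :=
  match q with
  | Sum.inl q => {t | (∃ t' ∈ A.δ q s z, t = (Sum.inl t'.1, t'.2)) ∨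
      (q ∈ A.accept ∧ t = (Sum.inr false, fun _ => Dir.S))}
  | Sum.inr false => {t | (s 0 = Sym.left ∧ t = (Sum.inr true, fun _ => Dir.S)) ∨
      (s 0 ≠ Sym.left ∧ t = (Sum.inr false, fun i => if i = 0 then Dir.L else Dir.S))}
  | Sum.inr true => ∅

/-- The new automaton. -/
def nw (A : SFA α (D + 1)) : SFA α (D + 1) where
  Q := A.Q ⊕ Bool
  finQ := by
    have := A.finQ
    infer_instance
  start := Sum.inl A.start
  accept := {Sum.inr true}
  δ := dl A

theorem tape_left (w : List α) (p : ℕ) (h : tape w p = Sym.left) : p = 0 := by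
  cases p with
  | zero => rfl
  | succ p =>
    exfalso
    change (match w[p]? with
      | some a => Sym.letter a
      | none => Sym.right) = Sym.left at h
    split at h <;> cases h

/-- from the rewinding state the new automaton reaches the accepting state -/
theorem rew (A : SFA α (D + 1)) (w : List α) : ∀ (n : ℕ) (pos : Fin (D + 1) → ℕ), pos 0 = n →
    ∃ pos' : Fin (D + 1) → ℕ,
      ReflTransGen ((nw A).Step w) (Sum.inr false, pos) (Sum.inr true, pos') := by
  intro n
  induction n with
  | zero =>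
    intro pos hpos
    refine ⟨pos, ReflTransGen.single ⟨(Sum.inr true, fun _ => Dir.S), Or.inl ⟨?_, rfl⟩, rfl⟩⟩
    change tape w (pos 0) = Sym.left
    rw [hpos]
    rfl
  | succ n ih =>
    intro pos hpos
    obtain ⟨pos', h⟩ := ih (fun i => move (w.length + 1) (pos i)
      (if i = 0 then Dir.L else Dir.S)) (by
        rw [if_pos rfl, hpos]
        rfl)
    refine ⟨pos', ReflTransGen.head ⟨(Sum.inr false, fun i => if i = 0 then Dir.L else Dir.S),
      Or.inr ⟨?_, rfl⟩, rfl⟩ h⟩
    change tape w (pos 0) ≠ Sym.left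
    intro hc
    have := tape_left w _ hc
    omega

/-- the invariant of the reachable configurations -/
def Inv (A : SFA α (D + 1)) (w : List α) (c : (nw A).Q × (Fin (D + 1) → ℕ)) : Prop :=
  (∀ q : A.Q, c.1 = Sum.inl q → ReflTransGen (A.Step w) (A.start, fun _ => 0) (q, c.2)) ∧
  (∀ b : Bool, c.1 = Sum.inr b → w ∈ A.lang ∧ (b = true → c.2 0 = 0))

theorem inv (A : SFA α (D + 1)) (w : List α) (c : (nw A).Q × (Fin (D + 1) → ℕ))
    (h : ReflTransGen ((nw A).Step w) ((nw A).start, fun _ => 0) c) : Inv A w c := by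
  induction h with
  | refl =>
    refine ⟨?_, ?_⟩
    · intro q hq
      have hq' : A.start = q := Sum.inl.inj hq
      rw [← hq']
    · intro b hb
      exact absurd hb (by rintro ⟨⟩)
  | @tail c c' _ hstep ih =>
    obtain ⟨q, pos⟩ := c
    obtain ⟨t, ht, rfl⟩ := hstep
    obtain ⟨i1, i2⟩ := ih
    rcases q with q | b
    · rcases ht with ⟨t', ht', rfl⟩ | ⟨hacc, rfl⟩
      · refine ⟨?_, ?_⟩
        · intro q' hq'
          have e : t'.1 = q' := Sum.inl.inj hq'
          rw [← e]
          exact ReflTransGen.tail (i1 q rfl) ⟨t', ht', rfl⟩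
        · intro b hb
          exact absurd hb (by rintro ⟨⟩)
      · refine ⟨?_, ?_⟩
        · intro q' hq'
          exact absurd hq' (by rintro ⟨⟩)
        · intro b hb
          have e : false = b := Sum.inr.inj hb
          refine ⟨⟨(q, pos), i1 q rfl, hacc⟩, ?_⟩
          intro hb'
          rw [← e] at hb'
          exact absurd hb' (by decide)
    · cases b with
      | false =>
        obtain ⟨j1, -⟩ := i2 false rfl
        rcases ht with ⟨hs, rfl⟩ | ⟨hs, rfl⟩
        · refine ⟨?_, ?_⟩
          · intro q' hq'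
            exact absurd hq' (by rintro ⟨⟩)
          · intro b hb
            refine ⟨j1, fun _ => ?_⟩
            exact tape_left w _ hs
        · refine ⟨?_, ?_⟩
          · intro q' hq'
            exact absurd hq' (by rintro ⟨⟩)
          · intro b hb
            have e : false = b := Sum.inr.inj hb
            refine ⟨j1, ?_⟩
            intro hb'
            rw [← e] at hb'
            exact absurd hb' (by decide)
      | true => exact absurd ht (by rintro ⟨⟩)

/-- runs of the old automaton -/
theorem old (A : SFA α (D + 1)) (w : List α) (c : A.Q × (Fin (D + 1) → ℕ))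
    (h : ReflTransGen (A.Step w) (A.start, fun _ => 0) c) :
    ReflTransGen ((nw A).Step w) ((nw A).start, fun _ => 0) (Sum.inl c.1, c.2) := by
  induction h with
  | refl => exact ReflTransGen.refl
  | tail _ hstep ih =>
    obtain ⟨t, ht, rfl⟩ := hstep
    exact ReflTransGen.tail ih ⟨(Sum.inl t.1, t.2), Or.inl ⟨t, ht, rfl⟩, rfl⟩

end ACCS

theorem t_ACCS : ACCS_Stmt := by
  intro α D A
  refine ⟨ACCS.nw A, ?_, ?_⟩
  · ext w
    constructor
    · rintro ⟨c, hc, hacc⟩
      have h1 : c.1 = Sum.inr true := hacc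
      exact ((ACCS.inv A w c hc).2 true h1).1
    · rintro ⟨c, hc, hacc⟩
      have h1 := ACCS.old A w c hc
      obtain ⟨pos', h2⟩ := ACCS.rew A w (c.2 0) c.2 rfl
      refine ⟨(Sum.inr true, pos'), (h1.tail ?_).trans h2, rfl⟩
      exact ⟨(Sum.inr false, fun _ => Dir.S), Or.inr ⟨hacc, rfl⟩, rfl⟩
  · intro w c hc hacc
    have h1 : c.1 = Sum.inr true := hacc
    exact ((ACCS.inv A w c hc).2 true h1).2 rfl

end Pool.Agent.NPH
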