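import Pool.Agent.NPH.StB

/-!
# Project NPH: closure properties of the relations that are checked digit by digit
-/

set_option autoImplicit false

namespace Pool.Agent.NPH

namespace MAUC

/-- deterministic automata -/
def RecD {A : Type} (P : List A → Prop) : Prop :=
  ∃ (Q : Type) (_ : Finite Q) (s : Q) (F : Set Q) (f : Q → A → Q), ∀ v, P v ↔ v.foldl f s ∈ F

theorem runs_set {Q A : Type} (δ : Q → A → Set Q) (v : List A) : ∀ (S : Set Q) (r : Q),
    r ∈ v.foldl (fun (S : Set Q) a => {p | ∃ q ∈ S, p ∈ δ q a}) S ↔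
      ∃ q ∈ S, Runs δ q v r := by
  induction v with
  | nil =>
    intro S r
    constructor
    · intro h
      exact ⟨r, h, rfl⟩
    · rintro ⟨q, hq, h⟩
      have h1 : q = r := h
      rw [← h1]
      exact hq
  | cons a u ih =>
    intro S r
    rw [List.foldl_cons, ih]
    constructor
    · rintro ⟨p, ⟨q, hq, hp⟩, h⟩
      exact ⟨q, hq, p, hp, h⟩
    · rintro ⟨q, hq, p, hp, h⟩
      exact ⟨p, ⟨q, hq, hp⟩, h⟩

theorem recD {A : Type} {P : List A → Prop} (h : Rec P) : RecD P := by
  obtain ⟨Q, hQ, s, F, δ, h⟩ := h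
  refine ⟨Set Q, inferInstance, {s}, {S | ∃ q ∈ S, q ∈ F},
    fun (S : Set Q) a => {p | ∃ q ∈ S, p ∈ δ q a}, fun v => ?_⟩
  rw [h v]
  constructor
  · rintro ⟨q, hq, hr⟩
    exact ⟨q, (runs_set δ v {s} q).2 ⟨s, rfl, hr⟩, hq⟩
  · rintro ⟨q, hq, hF⟩
    obtain ⟨q', hq', hr⟩ := (runs_set δ v {s} q).1 hq
    rw [Set.mem_singleton_iff.1 hq'] at hr
    exact ⟨q, hF, hr⟩

theorem runs_det {Q A : Type} (f : Q → A → Q) (v : List A) : ∀ q r : Q,
    Runs (fun q a => ({f q a} : Set Q)) q v r ↔ v.foldl f q = r := by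
  induction v with
  | nil =>
    intro q r
    exact Iff.rfl
  | cons a u ih =>
    intro q r
    rw [List.foldl_cons, ← ih]
    constructor
    · rintro ⟨p, hp, h⟩
      rw [Set.mem_singleton_iff.1 hp] at h
      exact h
    · intro h
      exact ⟨_, rfl, h⟩

theorem rec_of {A : Type} {P : List A → Prop} (h : RecD P) : Rec P := by
  obtain ⟨Q, hQ, s, F, f, h⟩ := h
  refine ⟨Q, hQ, s, F, fun q a => {f q a}, fun v => ?_⟩
  rw [h v]
  constructor
  · intro h1
    exact ⟨_, h1, (runs_det f v _ _).2 rfl⟩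
  · rintro ⟨q, hq, hr⟩
    rw [(runs_det f v _ _).1 hr]
    exact hq

theorem foldl_pair {Q Q' A : Type} (f : Q → A → Q) (f' : Q' → A → Q') (v : List A) :
    ∀ (q : Q) (q' : Q'), v.foldl (fun (p : Q × Q') a => (f p.1 a, f' p.2 a)) (q, q') =
      (v.foldl f q, v.foldl f' q') := by
  induction v with
  | nil =>
    intro q q'
    rfl
  | cons a u ih =>
    intro q q'
    rw [List.foldl_cons, List.foldl_cons, List.foldl_cons, ih]

theorem rec_and {A : Type} {P P' : List A → Prop} (h : Rec P) (h' : Rec P') :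
    Rec (fun v => P v ∧ P' v) := by
  obtain ⟨Q, hQ, s, F, f, h⟩ := recD h
  obtain ⟨Q', hQ', s', F', f', h'⟩ := recD h'
  refine rec_of ⟨Q × Q', inferInstance, (s, s'), {p | p.1 ∈ F ∧ p.2 ∈ F'},
    fun p a => (f p.1 a, f' p.2 a), fun v => ?_⟩
  rw [foldl_pair]
  exact and_congr (h v) (h' v)

theorem rec_or {A : Type} {P P' : List A → Prop} (h : Rec P) (h' : Rec P') :
    Rec (fun v => P v ∨ P' v) := by
  obtain ⟨Q, hQ, s, F, f, h⟩ := recD h
  obtain ⟨Q', hQ', s', F', f', h'⟩ := recD h'
  refine rec_of ⟨Q × Q', inferInstance, (s, s'), {p | p.1 ∈ F ∨ p.2 ∈ F'},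
    fun p a => (f p.1 a, f' p.2 a), fun v => ?_⟩
  rw [foldl_pair]
  exact or_congr (h v) (h' v)

theorem rec_map {A B : Type} (g : B → A) {P : List A → Prop} (h : Rec P) :
    Rec (fun v : List B => P (v.map g)) := by
  obtain ⟨Q, hQ, s, F, f, h⟩ := recD h
  refine rec_of ⟨Q, hQ, s, F, fun q b => f q (g b), fun v => ?_⟩
  have h1 := h (v.map g)
  rw [List.foldl_map] at h1
  exact h1

theorem runs_hid {Q A B C : Type} (f : Q → C → Q) (g : A → B → C) (v : List A) : ∀ q r : Q,
    Runs (fun q a => {p | ∃ b : B, p = f q (g a b)}) q v r ↔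
      ∃ e : List B, e.length = v.length ∧ (List.zipWith g v e).foldl f q = r := by
  induction v with
  | nil =>
    intro q r
    constructor
    · intro h
      exact ⟨[], rfl, h⟩
    · rintro ⟨e, he, h⟩
      rw [List.length_nil, List.length_eq_zero_iff] at he
      subst he
      exact h
  | cons a u ih =>
    intro q r
    constructor
    · rintro ⟨p, ⟨b, rfl⟩, h⟩
      obtain ⟨e, he, h1⟩ := (ih _ _).1 h
      refine ⟨b :: e, by rw [List.length_cons, List.length_cons, he], ?_⟩
      rw [List.zipWith_cons_cons, List.foldl_cons]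
      exact h1
    · rintro ⟨e, he, h⟩
      cases e with
      | nil => simp at he
      | cons b e =>
        rw [List.zipWith_cons_cons, List.foldl_cons] at h
        rw [List.length_cons, List.length_cons] at he
        exact ⟨_, ⟨b, rfl⟩, (ih _ _).2 ⟨e, by omega, h⟩⟩

theorem rec_hid {A B C : Type} (g : A → B → C) {P : List C → Prop} (h : Rec P) :
    Rec (fun v : List A => ∃ e : List B, e.length = v.length ∧ P (List.zipWith g v e)) := by
  obtain ⟨Q, hQ, s, F, f, h⟩ := recD h
  refine ⟨Q, hQ, s, F, fun q a => {p | ∃ b : B, p = f q (g a b)}, fun v => ?_⟩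
  constructor
  · rintro ⟨e, he, hP⟩
    exact ⟨_, (h _).1 hP, (runs_hid f g v _ _).2 ⟨e, he, rfl⟩⟩
  · rintro ⟨q, hq, hr⟩
    obtain ⟨e, he, h1⟩ := (runs_hid f g v _ _).1 hr
    refine ⟨e, he, (h _).2 ?_⟩
    rw [h1]
    exact hq

theorem dval_nil {ι : Type} (β : ℕ) (i : ι) : dval β ([] : List (ι → Fin β)) i = 0 := rfl

theorem dval_cons {ι : Type} (β : ℕ) (d : ι → Fin β) (v : List (ι → Fin β)) (i : ι) :
    dval β (d :: v) i = (d i : ℕ) + β * dval β v i := by
  unfold dval
  rw [List.map_cons, Nat.ofDigits_cons]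

theorem dval_map {ι ι' : Type} (β : ℕ) (f : ι → ι') (v : List (ι' → Fin β)) :
    dval β (v.map fun d => d ∘ f) = dval β v ∘ f := by
  funext i
  unfold dval
  rw [List.map_map]
  rfl

theorem dval_zip {ι κ : Type} (β : ℕ) : ∀ (v : List (ι → Fin β)) (e : List (κ → Fin β)),
    e.length = v.length → dval β (List.zipWith (fun d d' => Sum.elim d d') v e) =
      Sum.elim (dval β v) (dval β e)
  | [], e, h => by
    rw [List.length_nil, List.length_eq_zero_iff] at h
    subst h
    funext i
    rcases i with i | i <;> rfl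
  | d :: v, [], h => by simp at h
  | d :: v, d' :: e, h => by
    have ih := dval_zip β v e (by simpa using h)
    funext i
    rw [List.zipWith_cons_cons, dval_cons, ih]
    rcases i with i | i
    · exact (dval_cons β d v i).symm
    · exact (dval_cons β d' e i).symm

theorem dval_lt {κ : Type} (β : ℕ) (hβ : 2 ≤ β) (e : List (κ → Fin β)) (t : κ) :
    dval β e t < β ^ e.length := by
  unfold dval
  have h := Nat.ofDigits_lt_base_pow_length (b := β) (l := e.map fun d => (d t : ℕ)) (by omega)
    (by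
      intro x hx
      obtain ⟨d, _, rfl⟩ := List.mem_map.1 hx
      exact (d t).isLt)
  rwa [List.length_map] at h

theorem dval_surj {κ : Type} (β : ℕ) (hβ : 2 ≤ β) : ∀ (L : ℕ) (w : κ → ℕ), (∀ t, w t < β ^ L) →
    ∃ e : List (κ → Fin β), e.length = L ∧ dval β e = w
  | 0, w, h => ⟨[], rfl, by
      funext t
      have := h t
      rw [pow_zero] at this
      rw [dval_nil]
      omega⟩
  | L + 1, w, h => by
    have hβ0 : 0 < β := by omega
    obtain ⟨e, he, h1⟩ := dval_surj β hβ L (fun t => w t / β) (fun t => by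
      rw [Nat.div_lt_iff_lt_mul hβ0, ← pow_succ]
      exact h t)
    refine ⟨(fun t => ⟨w t % β, Nat.mod_lt _ hβ0⟩) :: e, by rw [List.length_cons, he], ?_⟩
    funext t
    rw [dval_cons, h1]
    exact Nat.mod_add_div (w t) β

end MAUC

open MAUC in
theorem t_AUC : AUC_Stmt := by
  intro β hβ ι
  refine ⟨fun P P' h h' => rec_and h h', fun P P' h h' => rec_or h h', ?_, ?_, ?_, ?_⟩
  · refine ⟨Unit, inferInstance, (), ∅, fun _ _ => ∅, fun v => ?_⟩
    constructor
    · exact fun h => h.elim
    · rintro ⟨q, hq, _⟩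
      exact hq.elim
  · refine rec_of ⟨Unit, inferInstance, (), Set.univ, fun _ _ => (), fun v => ?_⟩
    exact ⟨fun _ => Set.mem_univ _, fun _ => trivial⟩
  · intro ι' f P h
    have h1 := rec_map (fun d : ι' → Fin β => d ∘ f) h
    have h2 : (fun v : List (ι' → Fin β) => P (v.map fun d => d ∘ f).length
        (dval β (v.map fun d => d ∘ f))) =
        fun v : List (ι' → Fin β) => P v.length (dval β v ∘ f) := by
      funext v
      rw [dval_map, List.length_map]
    rw [h2] at h1
    exact h1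
  · intro κ _ P h
    have h1 := rec_hid (fun (d : ι → Fin β) (d' : κ → Fin β) => Sum.elim d d') h
    have h2 : (fun v : List (ι → Fin β) => ∃ e : List (κ → Fin β), e.length = v.length ∧
        P (List.zipWith (fun d d' => Sum.elim d d') v e).length
          (dval β (List.zipWith (fun d d' => Sum.elim d d') v e))) =
        fun v : List (ι → Fin β) => ∃ w : κ → ℕ, (∀ t, w t < β ^ v.length) ∧
          P v.length (Sum.elim (dval β v) w) := by
      funext v
      refine propext ⟨?_, ?_⟩
      · rintro ⟨e, he, hP⟩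
        refine ⟨dval β e, fun t => ?_, ?_⟩
        · rw [← he]
          exact dval_lt β hβ e t
        · rw [dval_zip β v e he, List.length_zipWith, he, min_self] at hP
          exact hP
      · rintro ⟨w, hw, hP⟩
        obtain ⟨e, he, rfl⟩ := dval_surj β hβ v.length w hw
        refine ⟨e, he, ?_⟩
        rw [dval_zip β v e he, List.length_zipWith, he, min_self]
        exact hP
    rw [h2] at h1
    exact h1

end Pool.Agent.NPH
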