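import Pool.Agent.NPH.StB

/-!
# Project NPH: finite conjunctions and disjunctions
-/

set_option autoImplicit false

namespace Pool.Agent.NPH

theorem t_AUF : AUF_Stmt := by
  classical
  intro hC β hβ ι κ _ P hP
  obtain ⟨hand, hor, hF, hT, _, _⟩ := hC β hβ ι
  have hfin : Fintype κ := Fintype.ofFinite κ
  have key : ∀ s : Finset κ, Au β ι (fun L X => ∀ t ∈ s, P t L X) ∧
      Au β ι (fun L X => ∃ t ∈ s, P t L X) := by
    intro s
    induction s using Finset.induction_on with
    | empty =>
      refine ⟨?_, ?_⟩
      · have h : (fun (L : ℕ) (X : ι → ℕ) => ∀ t ∈ (∅ : Finset κ), P t L X) =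
            fun _ _ => True := by
          funext L X
          simp
        rw [h]
        exact hT
      · have h : (fun (L : ℕ) (X : ι → ℕ) => ∃ t ∈ (∅ : Finset κ), P t L X) =
            fun _ _ => False := by
          funext L X
          simp
        rw [h]
        exact hF
    | insert a s _ ih =>
      refine ⟨?_, ?_⟩
      · have h : (fun (L : ℕ) (X : ι → ℕ) => ∀ t ∈ insert a s, P t L X) =
            fun L X => P a L X ∧ ∀ t ∈ s, P t L X := by
          funext L X
          simp only [Finset.forall_mem_insert]
        rw [h]
        exact hand _ _ (hP a) ih.1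
      · have h : (fun (L : ℕ) (X : ι → ℕ) => ∃ t ∈ insert a s, P t L X) =
            fun L X => P a L X ∨ ∃ t ∈ s, P t L X := by
          funext L X
          simp only [Finset.exists_mem_insert]
        rw [h]
        exact hor _ _ (hP a) ih.2
  obtain ⟨h1, h2⟩ := key Finset.univ
  simp only [Finset.mem_univ, true_and, forall_const] at h1 h2
  exact ⟨h1, h2⟩

end Pool.Agent.NPH
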