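import Pool.Agent.NPH.StB

/-! # NPH, GLO: acceptance by chains of links (helper64) -/

set_option autoImplicit false

namespace Pool.Agent.NPH

open Pool.Agent.Heads Relation

namespace GLOx

theorem lsym_in {Λ : Type} (M : ℕ) (s : Sym Λ) (P : ℤ) (h1 : 1 ≤ P) (h2 : P ≤ (M : ℤ) - 1) :
    lsym M s P = Sym.letter none := by
  unfold lsym
  rw [if_neg (by omega), if_neg (by omega), if_neg (by omega)]

open Classical in
theorem lmv_in {Λ : Type} (M : ℕ) (s : Sym Λ) (P : ℤ) (d : Dir) (h1 : 1 ≤ P)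
    (h2 : P ≤ (M : ℤ) - 1) (h3 : 1 ≤ P + dz d) (h4 : P + dz d ≤ (M : ℤ) - 1) :
    lmv M s P d = (Dir.S, P + dz d) := by
  cases d with
  | L =>
    have h5 : dz Dir.L = -1 := rfl
    rw [h5] at h3 h4 ⊢
    show (if P = -1 then (Dir.S, P) else if P = 0 then
      (if s = Sym.left then (Dir.S, -1) else (Dir.L, (M : ℤ) - 1)) else (Dir.S, P - 1)) = _
    rw [if_neg (by omega), if_neg (by omega)]
    rfl
  | S =>
    have h5 : dz Dir.S = 0 := rfl
    rw [h5, add_zero]
    rfl
  | R =>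
    have h5 : dz Dir.R = 1 := rfl
    rw [h5] at h3 h4 ⊢
    show (if P = M then (Dir.S, P) else if P = M - 1 then
      (if s = Sym.right then (Dir.S, (M : ℤ)) else (Dir.R, 0)) else (Dir.S, P + 1)) = _
    rw [if_neg (by omega), if_neg (by omega)]

open Classical in
/-- One head: if the offset before or after a move is far from the ends, the move is blind. -/
theorem head_blind {Λ : Type} (M : ℕ) (s : Sym Λ) (P : ℤ) (d : Dir) (B : ℤ) (hB : 1 ≤ B)
    (h : (B < P ∧ P < (M : ℤ) - B) ∨ (B < (lmv M s P d).2 ∧ (lmv M s P d).2 < (M : ℤ) - B)) :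
    lmv M s P d = (Dir.S, P + dz d) ∧ (B ≤ P ∧ P ≤ (M : ℤ) - B) ∧
      (B ≤ P + dz d ∧ P + dz d ≤ (M : ℤ) - B) := by
  rcases h with ⟨h1, h2⟩ | ⟨h1, h2⟩
  · have h3 : -1 ≤ dz d ∧ dz d ≤ 1 := by
      cases d <;> simp [dz]
    refine ⟨lmv_in M s P d (by omega) (by omega) (by omega) (by omega), ⟨by omega, by omega⟩,
      by omega, by omega⟩
  · cases d with
    | L =>
      have h5 : dz Dir.L = -1 := rfl
      by_cases hp : P = -1
      · exfalso
        have : (lmv M s P Dir.L).2 = P := by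
          show (if P = -1 then (Dir.S, P) else if P = 0 then
            (if s = Sym.left then (Dir.S, -1) else (Dir.L, (M : ℤ) - 1)) else (Dir.S, P - 1)).2 = _
          rw [if_pos hp]
        omega
      · by_cases hp0 : P = 0
        · exfalso
          have : (lmv M s P Dir.L).2 = -1 ∨ (lmv M s P Dir.L).2 = (M : ℤ) - 1 := by
            show (if P = -1 then (Dir.S, P) else if P = 0 then
              (if s = Sym.left then (Dir.S, -1) else (Dir.L, (M : ℤ) - 1)) else (Dir.S, P - 1)).2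
                = _ ∨ (if P = -1 then (Dir.S, P) else if P = 0 then
              (if s = Sym.left then (Dir.S, -1) else (Dir.L, (M : ℤ) - 1)) else (Dir.S, P - 1)).2
                = _
            rw [if_neg hp, if_pos hp0]
            by_cases hs : s = Sym.left
            · rw [if_pos hs]
              exact Or.inl rfl
            · rw [if_neg hs]
              exact Or.inr rfl
          omega
        · have h6 : lmv M s P Dir.L = (Dir.S, P - 1) := by
            show (if P = -1 then (Dir.S, P) else if P = 0 then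
              (if s = Sym.left then (Dir.S, -1) else (Dir.L, (M : ℤ) - 1)) else (Dir.S, P - 1)) = _
            rw [if_neg hp, if_neg hp0]
          rw [h6] at h1 h2 ⊢
          simp only at h1 h2
          rw [h5]
          exact ⟨rfl, ⟨by omega, by omega⟩, by omega, by omega⟩
    | S =>
      have h5 : dz Dir.S = 0 := rfl
      have h6 : lmv M s P Dir.S = (Dir.S, P) := rfl
      rw [h6] at h1 h2 ⊢
      simp only at h1 h2
      rw [h5, add_zero]
      exact ⟨rfl, ⟨by omega, by omega⟩, by omega, by omega⟩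
    | R =>
      have h5 : dz Dir.R = 1 := rfl
      by_cases hp : P = M
      · exfalso
        have : (lmv M s P Dir.R).2 = P := by
          show (if P = M then (Dir.S, P) else if P = M - 1 then
            (if s = Sym.right then (Dir.S, (M : ℤ)) else (Dir.R, 0)) else (Dir.S, P + 1)).2 = _
          rw [if_pos hp]
        omega
      · by_cases hp0 : P = M - 1
        · exfalso
          have : (lmv M s P Dir.R).2 = M ∨ (lmv M s P Dir.R).2 = 0 := by
            show (if P = M then (Dir.S, P) else if P = M - 1 then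
              (if s = Sym.right then (Dir.S, (M : ℤ)) else (Dir.R, 0)) else (Dir.S, P + 1)).2
                = _ ∨ (if P = M then (Dir.S, P) else if P = M - 1 then
              (if s = Sym.right then (Dir.S, (M : ℤ)) else (Dir.R, 0)) else (Dir.S, P + 1)).2
                = _
            rw [if_neg hp, if_pos hp0]
            by_cases hs : s = Sym.right
            · rw [if_pos hs]
              exact Or.inl rfl
            · rw [if_neg hs]
              exact Or.inr rfl
          omega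
        · have h6 : lmv M s P Dir.R = (Dir.S, P + 1) := by
            show (if P = M then (Dir.S, P) else if P = M - 1 then
              (if s = Sym.right then (Dir.S, (M : ℤ)) else (Dir.R, 0)) else (Dir.S, P + 1)) = _
            rw [if_neg hp, if_neg hp0]
          rw [h6] at h1 h2 ⊢
          simp only at h1 h2
          rw [h5]
          exact ⟨rfl, ⟨by omega, by omega⟩, by omega, by omega⟩

variable {Λ : Type} {D : ℕ} (A : FA (Option (Sym Λ)) D)

/-- The configuration of the automaton. -/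
def real (M : ℕ) (c : FC A) : A.Q × (Fin D → ℕ) := (c.1, fun i => ps M (c.2.1 i) (c.2.2 i))

/-- Valid configurations. -/
def VC (M : ℕ) (x : List Λ) (c : FC A) : Prop := ∀ i, VP M (x.length + 1) (c.2.1 i) (c.2.2 i)

theorem tape_real (hH : HMV_Stmt) (M : ℕ) (hM : 2 ≤ M) (x : List Λ) (c : FC A)
    (hc : VC A M x c) : (fun i => tape (pad M x) ((real A M c).2 i)) =
      fun i => lsym M (tape x (c.2.1 i)) (c.2.2 i) := by
  funext i
  exact ((hH Λ M hM x).1 _ _ (hc i)).1

theorem sl_step (hH : HMV_Stmt) (M : ℕ) (hM : 2 ≤ M) (x : List Λ) (c c' : FC A)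
    (hc : VC A M x c) (h : SL A M x c c') :
    A.Step (pad M x) (real A M c) (real A M c') ∧ VC A M x c' := by
  obtain ⟨t, ht, h1, h2, h3⟩ := h
  have hh := (hH Λ M hM x).1
  constructor
  · refine ⟨t, ?_, ?_⟩
    · rw [tape_real A hH M hM x c hc]
      exact ht
    · apply Prod.ext
      · exact h1
      · funext i
        change ps M (c'.2.1 i) (c'.2.2 i) = move _ (ps M (c.2.1 i) (c.2.2 i)) (t.2 i)
        rw [((hh _ _ (hc i)).2 (t.2 i)).1, h2 i, h3 i]
  · intro i
    have h4 := ((hh _ _ (hc i)).2 (t.2 i)).2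
    rw [h2 i, h3 i]
    exact h4

theorem step_sl (hH : HMV_Stmt) (M : ℕ) (hM : 2 ≤ M) (x : List Λ) (c : FC A)
    (hc : VC A M x c) (r : A.Q × (Fin D → ℕ)) (h : A.Step (pad M x) (real A M c) r) :
    ∃ c' : FC A, SL A M x c c' ∧ real A M c' = r := by
  obtain ⟨t, ht, h1⟩ := h
  have hh := (hH Λ M hM x).1
  rw [tape_real A hH M hM x c hc] at ht
  refine ⟨(t.1, fun i => move (x.length + 1) (c.2.1 i)
      (lmv M (tape x (c.2.1 i)) (c.2.2 i) (t.2 i)).1,
    fun i => (lmv M (tape x (c.2.1 i)) (c.2.2 i) (t.2 i)).2),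
    ⟨t, ht, rfl, fun i => rfl, fun i => rfl⟩, ?_⟩
  rw [h1]
  apply Prod.ext
  · rfl
  · funext i
    exact ((hh _ _ (hc i)).2 (t.2 i)).1.symm

theorem unit1 : Unit1 (Bl A) := by
  rintro v v' d ⟨t, -, -, h⟩ i
  rw [h i]
  cases t.2 i <;> simp [dz]

theorem edge_sl (M : ℕ) (x : List Λ) (j : Fin D → ℕ) (a b : A.Q × (Fin D → ℤ))
    (h : ItE (Bl A) a b) (ha : Bx 1 M a.2) (hb : Bx 1 M b.2) :
    SL A M x (a.1, j, a.2) (b.1, j, b.2) := by
  obtain ⟨t, ht, h1, h2⟩ := h
  have h3 : ∀ i, b.2 i = a.2 i + dz (t.2 i) := by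
    intro i
    have := h2 i
    simp only [Pi.sub_apply] at this
    omega
  have h4 : ∀ i, lmv M (tape x (j i)) (a.2 i) (t.2 i) = (Dir.S, a.2 i + dz (t.2 i)) := by
    intro i
    have h5 := ha i
    have h6 := hb i
    rw [h3 i] at h6
    push_cast at h5 h6
    exact lmv_in M _ _ _ h5.1 h5.2 h6.1 h6.2
  refine ⟨t, ?_, h1.symm, ?_, ?_⟩
  · have h5 : (fun i => lsym M (tape x (j i)) (a.2 i)) = fun _ => Sym.letter none := by
      funext i
      have h5 := ha i
      push_cast at h5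
      exact lsym_in M _ _ h5.1 h5.2
    change t ∈ A.δ a.1 (fun i => lsym M (tape x (j i)) (a.2 i))
    rw [h5]
    exact ht
  · intro i
    change j i = move (x.length + 1) (j i) (lmv M (tape x (j i)) (a.2 i) (t.2 i)).1
    rw [h4 i]
    rfl
  · intro i
    change b.2 i = (lmv M (tape x (j i)) (a.2 i) (t.2 i)).2
    rw [h4 i]
    exact h3 i

theorem blind (M : ℕ) (x : List Λ) (b b' : FC A) (h : SL A M x b b')
    (hs : ¬ Stor A M b.2.2 ∨ ¬ Stor A M b'.2.2) :
    ItE (Bl A) (b.1, b.2.2) (b'.1, b'.2.2) ∧ b'.2.1 = b.2.1 ∧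
      Bx (Nat.card A.Q + 1) M b.2.2 ∧ Bx (Nat.card A.Q + 1) M b'.2.2 := by
  obtain ⟨t, ht, h1, h2, h3⟩ := h
  have key : ∀ i, lmv M (tape x (b.2.1 i)) (b.2.2 i) (t.2 i) = (Dir.S, b.2.2 i + dz (t.2 i)) ∧
      (2 * (Nat.card A.Q : ℤ) + 1 ≤ b.2.2 i ∧ b.2.2 i ≤ (M : ℤ) - (2 * (Nat.card A.Q : ℤ) + 1)) ∧
      (2 * (Nat.card A.Q : ℤ) + 1 ≤ b.2.2 i + dz (t.2 i) ∧
        b.2.2 i + dz (t.2 i) ≤ (M : ℤ) - (2 * (Nat.card A.Q : ℤ) + 1)) := by
    intro i
    apply head_blind M (tape x (b.2.1 i)) (b.2.2 i) (t.2 i) (2 * (Nat.card A.Q : ℤ) + 1) (by omega)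
    rcases hs with hs | hs
    · left
      unfold Stor at hs
      push Not at hs
      exact ⟨by linarith [(hs i).1], by linarith [(hs i).2]⟩
    · right
      unfold Stor at hs
      push Not at hs
      rw [← h3 i]
      exact ⟨by linarith [(hs i).1], by linarith [(hs i).2]⟩
  have h4 : ∀ i, b'.2.2 i = b.2.2 i + dz (t.2 i) := by
    intro i
    rw [h3 i, (key i).1]
  refine ⟨⟨t, ?_, h1.symm, ?_⟩, ?_, ?_, ?_⟩
  · have h5 : (fun i => lsym M (tape x (b.2.1 i)) (b.2.2 i)) = fun _ => Sym.letter none := by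
      funext i
      have h6 := (key i).2.1
      exact lsym_in M _ _ (by omega) (by omega)
    rw [h5] at ht
    exact ht
  · intro i
    change b'.2.2 i - b.2.2 i = dz (t.2 i)
    rw [h4 i]
    ring
  · funext i
    rw [h2 i, (key i).1]
    rfl
  · intro i
    have h6 := (key i).2.1
    push_cast
    exact ⟨by omega, by omega⟩
  · intro i
    have h6 := (key i).2.2
    rw [h4 i]
    push_cast
    exact ⟨by omega, by omega⟩

theorem vp_le {M Z j : ℕ} {P : ℤ} (h : VP M Z j P) : j ≤ Z := by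
  rcases h with h | h | h
  · exact h.2.2
  · omega
  · omega

/-- Soundness: a link between configurations leads to a computation. -/
theorem link_sound (hH : HMV_Stmt) (hS : SND_Stmt) (M m : ℕ) (hM : 2 ≤ M) (x : List Λ)
    (c c' : FC A) (hc : VC A M x c) (h : LK A M m x c c') :
    ReflTransGen (A.Step (pad M x)) (real A M c) (real A M c') ∧ VC A M x c' := by
  obtain ⟨-, -, h | ⟨hz, hp⟩⟩ := h
  · obtain ⟨h1, h2⟩ := sl_step A hH M hM x c c' hc h
    exact ⟨ReflTransGen.single h1, h2⟩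
  · have h1 := hS A.Q D (Bl A) (unit1 A) (Nat.card A.Q) M m _ _ hp
    have h2 : ∀ u : A.Q × (Fin D → ℤ), ReflTransGen (fun a b => ItE (Bl A) a b ∧ Bx 1 M a.2 ∧
        Bx 1 M b.2) (c.1, c.2.2) u →
        ReflTransGen (A.Step (pad M x)) (real A M c) (real A M (u.1, c.2.1, u.2)) ∧
          VC A M x (u.1, c.2.1, u.2) := by
      intro u hu
      induction hu with
      | refl => exact ⟨ReflTransGen.refl, hc⟩
      | tail _ h3 ih =>
        obtain ⟨h4, h5, h6⟩ := h3
        obtain ⟨h7, h8⟩ := sl_step A hH M hM x _ _ ih.2 (edge_sl A M x c.2.1 _ _ h4 h5 h6)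
        exact ⟨ih.1.tail h7, h8⟩
    obtain ⟨h3, h4⟩ := h2 _ h1
    have h5 : c' = (c'.1, c.2.1, c'.2.2) := by
      rw [← hz]
    rw [h5]
    exact ⟨h3, h4⟩

/-- Completeness. -/
theorem complete (m₀ : ℕ) (M : ℕ) (x : List Λ)
    (hSTR : ∀ (c c' : A.Q × (Fin D → ℤ)), Bx (Nat.card A.Q + 1) M c.2 →
      ReflTransGen (fun a b => ItE (Bl A) a b ∧ Bx (Nat.card A.Q + 1) M b.2) c c' →
      ReflTransGen (fun a b => Piece (Bl A) (Nat.card A.Q) M (Nat.card A.Q + 1) m₀ a b ∧
        ((∃ i, b.2 i < 2 * Nat.card A.Q + 1 ∨ (M : ℤ) - (2 * Nat.card A.Q + 1) < b.2 i) ∨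
          b = c')) c c')
    (a b : FC A) (ha : Stor A M a.2.2) (h : ReflTransGen (SL A M x) a b) :
    ∃ d : FC A, ReflTransGen (LK A M m₀ x) a d ∧ Stor A M d.2.2 ∧
      (b = d ∨ (¬ Stor A M b.2.2 ∧ b.2.1 = d.2.1 ∧ Bx (Nat.card A.Q + 1) M d.2.2 ∧
        ReflTransGen (fun u v => ItE (Bl A) u v ∧ Bx (Nat.card A.Q + 1) M v.2)
          (d.1, d.2.2) (b.1, b.2.2))) := by
  induction h with
  | refl => exact ⟨a, ReflTransGen.refl, ha, Or.inl rfl⟩
  | @tail b b' _ hbb ih =>
    obtain ⟨d, h1, h2, h3⟩ := ih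
    by_cases hb' : Stor A M b'.2.2
    · refine ⟨b', ?_, hb', Or.inl rfl⟩
      rcases h3 with rfl | ⟨h4, h5, h6, h7⟩
      · exact h1.tail ⟨h2, hb', Or.inl hbb⟩
      · obtain ⟨e1, e2, e3, e4⟩ := blind A M x b b' hbb (Or.inl h4)
        have h8 := hSTR (d.1, d.2.2) (b'.1, b'.2.2) h6 (h7.tail ⟨e1, e4⟩)
        have h9 : ∀ u : A.Q × (Fin D → ℤ), ReflTransGen (fun a b =>
            Piece (Bl A) (Nat.card A.Q) M (Nat.card A.Q + 1) m₀ a b ∧
            ((∃ i, b.2 i < 2 * Nat.card A.Q + 1 ∨ (M : ℤ) - (2 * Nat.card A.Q + 1) < b.2 i) ∨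
              b = (b'.1, b'.2.2))) (d.1, d.2.2) u →
            ReflTransGen (LK A M m₀ x) d (u.1, d.2.1, u.2) ∧ Stor A M u.2 := by
          intro u hu
          induction hu with
          | refl => exact ⟨ReflTransGen.refl, h2⟩
          | @tail v w _ hp ih2 =>
            obtain ⟨hp1, hp2⟩ := hp
            have hs : Stor A M w.2 := by
              rcases hp2 with ⟨i, hi⟩ | hp2
              · refine ⟨i, ?_⟩
                rcases hi with hi | hi
                · exact Or.inl hi.le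
                · exact Or.inr hi.le
              · rw [hp2]
                exact hb'
            exact ⟨ih2.1.tail ⟨ih2.2, hs, Or.inr ⟨rfl, hp1⟩⟩, hs⟩
        have h10 := (h9 _ h8).1
        have h11 : b' = (b'.1, d.2.1, b'.2.2) := by
          rw [← h5, ← e2]
        rw [h11]
        exact h1.trans h10
    · refine ⟨d, h1, h2, Or.inr ?_⟩
      obtain ⟨e1, e2, e3, e4⟩ := blind A M x b b' hbb (Or.inr hb')
      rcases h3 with rfl | ⟨h4, h5, h6, h7⟩
      · exact ⟨hb', e2, e3, ReflTransGen.single ⟨e1, e4⟩⟩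
      · exact ⟨hb', e2.trans h5, h6, h7.tail ⟨e1, e4⟩⟩

end GLOx

open GLOx in
theorem t_GLO : GLO_Stmt := by
  intro hH hT hS Λ D A hacc
  have : Finite A.Q := A.finQ
  obtain ⟨m₀, hm⟩ := hT A.Q (D + 1) (Bl A) (unit1 A)
  refine ⟨m₀, ?_⟩
  intro M hM x
  have h0 : VC A M x (A.start, fun _ => 0, fun _ => -1) := by
    intro i
    exact Or.inr (Or.inl ⟨rfl, rfl⟩)
  have hr : real A M (A.start, fun _ => 0, fun _ => -1) = (A.start, fun _ => 0) := by
    apply Prod.ext
    · rfl
    · funext i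
      simp [real, ps]
  have hs : Stor A M (fun _ => -1) := ⟨0, Or.inl (by
    change (-1 : ℤ) ≤ 2 * (Nat.card A.Q : ℤ) + 1
    omega)⟩
  have snd : ∀ c : FC A, ReflTransGen (LK A M m₀ x) (A.start, fun _ => 0, fun _ => -1) c →
      ReflTransGen (A.Step (pad M x)) (A.start, fun _ => 0) (real A M c) ∧ VC A M x c := by
    intro c hc
    induction hc with
    | refl =>
      rw [hr]
      exact ⟨ReflTransGen.refl, h0⟩
    | tail _ h1 ih =>
      obtain ⟨h2, h3⟩ := link_sound A hH hS M m₀ hM x _ _ ih.2 h1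
      exact ⟨ih.1.trans h2, h3⟩
  refine ⟨⟨?_, ?_⟩, fun c hc => (snd c hc).2⟩
  · rintro ⟨r, hr1, hr2⟩
    have h1 : ∀ r : A.Q × (Fin (D + 1) → ℕ), ReflTransGen (A.Step (pad M x))
        (A.start, fun _ => 0) r → ∃ c : FC A, ReflTransGen (SL A M x)
          (A.start, fun _ => 0, fun _ => -1) c ∧ real A M c = r ∧ VC A M x c := by
      intro r hr3
      induction hr3 with
      | refl => exact ⟨_, ReflTransGen.refl, hr, h0⟩
      | tail _ h2 ih =>
        obtain ⟨c, h3, h4, h5⟩ := ih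
        rw [← h4] at h2
        obtain ⟨c', h6, h7⟩ := step_sl A hH M hM x c h5 _ h2
        exact ⟨c', h3.tail h6, h7, (sl_step A hH M hM x c c' h5 h6).2⟩
    obtain ⟨c, hc1, hc2, hc3⟩ := h1 r hr1
    have h2 : r.2 0 = 0 := hacc _ _ hr1 hr2
    rw [← hc2] at h2
    have h3 : ps M (c.2.1 0) (c.2.2 0) = ps M 0 (-1) := by
      rw [show ps M 0 (-1) = 0 from by simp [ps]]
      exact h2
    have h4 := (hH Λ M hM x).2 _ _ _ _ (hc3 0) (Or.inr (Or.inl ⟨rfl, rfl⟩)) h3
    have h5 : Stor A M c.2.2 := ⟨0, Or.inl (by rw [h4.2]; omega)⟩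
    obtain ⟨d, h6, h7, h8⟩ := complete A m₀ M x (hm M) _ c hs hc1
    rcases h8 with rfl | h8
    · refine ⟨c, h6, ?_⟩
      rw [← hc2] at hr2
      exact hr2
    · exact absurd h5 h8.1
  · rintro ⟨c, hc1, hc2⟩
    exact ⟨real A M c, (snd c hc1).1, hc2⟩

end Pool.Agent.NPH
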