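import Pool.Agent.NPH.StS
import Pool.Agent.NPH.GLO

/-! # NPH, GLOS: acceptance by chains of links, for sensing heads (helper61) -/

set_option autoImplicit false

namespace Pool.Agent.NPH

open Pool.Agent.Heads Relation

namespace GLOSx

theorem dz_abs (d : Dir) : -1 ≤ dz d ∧ dz d ≤ 1 := by
  cases d <;> simp [dz]

variable {Λ : Type} {D : ℕ} (A : SFA (Option (Sym Λ)) D)

/-- The configuration of the automaton. -/
def real (M : ℕ) (c : FCS A) : A.Q × (Fin D → ℕ) := (c.1, fun i => ps M (c.2.1 i) (c.2.2 i))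

/-- Valid configurations. -/
def VC (M : ℕ) (x : List Λ) (c : FCS A) : Prop := ∀ i, VP M (x.length + 1) (c.2.1 i) (c.2.2 i)

theorem tape_real (hH : HMV_Stmt) (M : ℕ) (hM : 2 ≤ M) (x : List Λ) (c : FCS A)
    (hc : VC A M x c) : (fun i => tape (pad M x) ((real A M c).2 i)) =
      fun i => lsym M (tape x (c.2.1 i)) (c.2.2 i) := by
  funext i
  exact ((hH Λ M hM x).1 _ _ (hc i)).1

theorem coin_real (hH : HMV_Stmt) (M : ℕ) (hM : 2 ≤ M) (x : List Λ) (c : FCS A)
    (hc : VC A M x c) : (fun i j => decide ((real A M c).2 i = (real A M c).2 j)) =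
      fun i j => decide (c.2.1 i = c.2.1 j ∧ c.2.2 i = c.2.2 j) := by
  funext i j
  rw [decide_eq_decide]
  constructor
  · intro h
    exact (hH Λ M hM x).2 _ _ _ _ (hc i) (hc j) h
  · rintro ⟨h1, h2⟩
    change ps M (c.2.1 i) (c.2.2 i) = ps M (c.2.1 j) (c.2.2 j)
    rw [h1, h2]

theorem sl_step (hH : HMV_Stmt) (M : ℕ) (hM : 2 ≤ M) (x : List Λ) (c c' : FCS A)
    (hc : VC A M x c) (h : SLS A M x c c') :
    A.Step (pad M x) (real A M c) (real A M c') ∧ VC A M x c' := by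
  obtain ⟨t, ht, h1, h2, h3⟩ := h
  have hh := (hH Λ M hM x).1
  constructor
  · refine ⟨t, ?_, ?_⟩
    · rw [tape_real A hH M hM x c hc, coin_real A hH M hM x c hc]
      exact ht
    · apply Prod.ext
      · exact h1
      · funext i
        change ps M (c'.2.1 i) (c'.2.2 i) = move _ (ps M (c.2.1 i) (c.2.2 i)) (t.2 i)
        rw [((hh _ _ (hc i)).2 (t.2 i)).1, h2 i, h3 i]
  · intro i
    have h4 := ((hh _ _ (hc i)).2 (t.2 i)).2
    rw [h2 i, h3 i]
    exact h4

theorem step_sl (hH : HMV_Stmt) (M : ℕ) (hM : 2 ≤ M) (x : List Λ) (c : FCS A)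
    (hc : VC A M x c) (r : A.Q × (Fin D → ℕ)) (h : A.Step (pad M x) (real A M c) r) :
    ∃ c' : FCS A, SLS A M x c c' ∧ real A M c' = r := by
  obtain ⟨t, ht, h1⟩ := h
  have hh := (hH Λ M hM x).1
  rw [tape_real A hH M hM x c hc, coin_real A hH M hM x c hc] at ht
  refine ⟨(t.1, fun i => move (x.length + 1) (c.2.1 i)
      (lmv M (tape x (c.2.1 i)) (c.2.2 i) (t.2 i)).1,
    fun i => (lmv M (tape x (c.2.1 i)) (c.2.2 i) (t.2 i)).2),
    ⟨t, ht, rfl, fun i => rfl, fun i => rfl⟩, ?_⟩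
  rw [h1]
  apply Prod.ext
  · rfl
  · funext i
    exact ((hh _ _ (hc i)).2 (t.2 i)).1.symm

theorem unit1 : Unit1 (BlS A) := by
  rintro v v' d ⟨t, -, -, h⟩ i
  rw [h i]
  cases t.2 i <;> simp [dz]

/-- Different offsets: no two heads are on the same cell. -/
theorem coin_diff (j : Fin D → ℕ) (P : Fin D → ℤ) (h : ∀ a b, a ≠ b → P a ≠ P b) :
    (fun a b => decide (j a = j b ∧ P a = P b)) = fun a b => decide (a = b) := by
  funext a b
  rw [decide_eq_decide]
  constructor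
  · rintro ⟨-, h1⟩
    by_contra h2
    exact h a b h2 h1
  · rintro rfl
    exact ⟨rfl, rfl⟩

theorem edge_sl (M : ℕ) (x : List Λ) (j : Fin D → ℕ) (o : Fin D → Fin D → Prop)
    (ho : ∀ i j, i ≠ j → o i j ∨ o j i) (a b : A.Q × (Fin D → ℤ))
    (h : ItE (BlS A) a b) (ha : SBx 1 M o a.2) (hb : SBx 1 M o b.2) :
    SLS A M x (a.1, j, a.2) (b.1, j, b.2) := by
  obtain ⟨t, ht, h1, h2⟩ := h
  have h3 : ∀ i, b.2 i = a.2 i + dz (t.2 i) := by
    intro i
    have := h2 i
    simp only [Pi.sub_apply] at this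
    omega
  have h4 : ∀ i, lmv M (tape x (j i)) (a.2 i) (t.2 i) = (Dir.S, a.2 i + dz (t.2 i)) := by
    intro i
    have h5 := ha.1 i
    have h6 := hb.1 i
    rw [h3 i] at h6
    push_cast at h5 h6
    exact GLOx.lmv_in M _ _ _ h5.1 h5.2 h6.1 h6.2
  refine ⟨t, ?_, h1.symm, ?_, ?_⟩
  · have h5 : (fun i => lsym M (tape x (j i)) (a.2 i)) = fun _ => Sym.letter none := by
      funext i
      have h5 := ha.1 i
      push_cast at h5
      exact GLOx.lsym_in M _ _ h5.1 h5.2
    have h6 : (fun i k => decide (j i = j k ∧ a.2 i = a.2 k)) = fun i k => decide (i = k) := by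
      apply coin_diff
      intro i k hik he
      rcases ho i k hik with h7 | h7
      · have := ha.2 i k h7
        push_cast at this
        omega
      · have := ha.2 k i h7
        push_cast at this
        omega
    change t ∈ A.δ a.1 (fun i => lsym M (tape x (j i)) (a.2 i))
      (fun i k => decide (j i = j k ∧ a.2 i = a.2 k))
    rw [h5, h6]
    exact ht
  · intro i
    change j i = move (x.length + 1) (j i) (lmv M (tape x (j i)) (a.2 i) (t.2 i)).1
    rw [h4 i]
    rfl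
  · intro i
    change b.2 i = (lmv M (tape x (j i)) (a.2 i) (t.2 i)).2
    rw [h4 i]
    exact h3 i

theorem not_stor {M : ℕ} {P : Fin D → ℤ} (h : ¬ StorS A M P) :
    (∀ i, 4 * (Nat.card A.Q : ℤ) + 1 < P i ∧ P i < (M : ℤ) - (4 * (Nat.card A.Q : ℤ) + 1)) ∧
      ∀ i j, i ≠ j → 4 * (Nat.card A.Q : ℤ) + 1 < |P i - P j| := by
  unfold StorS at h
  push Not at h
  exact ⟨fun i => h.1 i, fun i j hij => h.2 i j hij⟩

theorem blind (M : ℕ) (x : List Λ) (b b' : FCS A) (h : SLS A M x b b')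
    (hs : ¬ StorS A M b.2.2 ∨ ¬ StorS A M b'.2.2) :
    ItE (BlS A) (b.1, b.2.2) (b'.1, b'.2.2) ∧ b'.2.1 = b.2.1 ∧
      (∀ i, |b'.2.2 i - b.2.2 i| ≤ 1) ∧
      (∀ i, 4 * (Nat.card A.Q : ℤ) + 1 ≤ b.2.2 i ∧
        b.2.2 i ≤ (M : ℤ) - (4 * (Nat.card A.Q : ℤ) + 1)) ∧
      (∀ i, 4 * (Nat.card A.Q : ℤ) + 1 ≤ b'.2.2 i ∧
        b'.2.2 i ≤ (M : ℤ) - (4 * (Nat.card A.Q : ℤ) + 1)) := by
  obtain ⟨t, ht, h1, h2, h3⟩ := h
  have hn : 1 ≤ (Nat.card A.Q : ℤ) := by
    have : Finite A.Q := A.finQ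
    have : Nonempty A.Q := ⟨A.start⟩
    exact_mod_cast Nat.card_pos (α := A.Q)
  have key : ∀ i, lmv M (tape x (b.2.1 i)) (b.2.2 i) (t.2 i) = (Dir.S, b.2.2 i + dz (t.2 i)) ∧
      (4 * (Nat.card A.Q : ℤ) + 1 ≤ b.2.2 i ∧ b.2.2 i ≤ (M : ℤ) - (4 * (Nat.card A.Q : ℤ) + 1)) ∧
      (4 * (Nat.card A.Q : ℤ) + 1 ≤ b.2.2 i + dz (t.2 i) ∧
        b.2.2 i + dz (t.2 i) ≤ (M : ℤ) - (4 * (Nat.card A.Q : ℤ) + 1)) := by
    intro i
    apply GLOx.head_blind M (tape x (b.2.1 i)) (b.2.2 i) (t.2 i) (4 * (Nat.card A.Q : ℤ) + 1)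
      (by omega)
    rcases hs with hs | hs
    · left
      exact (not_stor A hs).1 i
    · right
      rw [← h3 i]
      exact (not_stor A hs).1 i
  have h4 : ∀ i, b'.2.2 i = b.2.2 i + dz (t.2 i) := by
    intro i
    rw [h3 i, (key i).1]
  have hd : ∀ i j, i ≠ j → b.2.2 i ≠ b.2.2 j := by
    intro i j hij he
    rcases hs with hs | hs
    · have h5 := (not_stor A hs).2 i j hij
      rw [he, sub_self, abs_zero] at h5
      omega
    · have h5 := (not_stor A hs).2 i j hij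
      rw [h4 i, h4 j, he] at h5
      have h6 := dz_abs (t.2 i)
      have h7 := dz_abs (t.2 j)
      rcases abs_cases (b.2.2 j + dz (t.2 i) - (b.2.2 j + dz (t.2 j))) with h8 | h8 <;> omega
  refine ⟨⟨t, ?_, h1.symm, ?_⟩, ?_, ?_, ?_, ?_⟩
  · have h5 : (fun i => lsym M (tape x (b.2.1 i)) (b.2.2 i)) = fun _ => Sym.letter none := by
      funext i
      have h6 := (key i).2.1
      exact GLOx.lsym_in M _ _ (by omega) (by omega)
    have h6 : (fun i j => decide (b.2.1 i = b.2.1 j ∧ b.2.2 i = b.2.2 j)) =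
        fun i j => decide (i = j) := coin_diff _ _ hd
    rw [h5, h6] at ht
    exact ht
  · intro i
    change b'.2.2 i - b.2.2 i = dz (t.2 i)
    rw [h4 i]
    ring
  · funext i
    rw [h2 i, (key i).1]
    rfl
  · intro i
    have h6 := dz_abs (t.2 i)
    rw [h4 i, add_sub_cancel_left]
    exact abs_le.2 h6
  · intro i
    exact (key i).2.1
  · intro i
    have h6 := (key i).2.2
    rw [h4 i]
    exact h6

/-- Neighbours of a configuration that is not stored: the order is the same and the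
configuration is in the box. -/
theorem near_box (M : ℕ) (P Q : Fin D → ℤ) (o : Fin D → Fin D → Prop)
    (ho : ∀ i j, o i j ↔ P i < P j) (hP : ¬ StorS A M P) (hd : ∀ i, |Q i - P i| ≤ 1)
    (hQ : ∀ i, 4 * (Nat.card A.Q : ℤ) + 1 ≤ Q i ∧ Q i ≤ (M : ℤ) - (4 * (Nat.card A.Q : ℤ) + 1)) :
    SBx (2 * Nat.card A.Q + 1) M o Q ∧ (∀ i j, o i j ↔ Q i < Q j) := by
  have hn : 1 ≤ (Nat.card A.Q : ℤ) := by
    have : Finite A.Q := A.finQ
    have : Nonempty A.Q := ⟨A.start⟩
    exact_mod_cast Nat.card_pos (α := A.Q)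
  have h1 := (not_stor A hP).2
  have h2 : ∀ i j, o i j → Q i + 4 * (Nat.card A.Q : ℤ) ≤ Q j := by
    intro i j hij
    have h3 := (ho i j).1 hij
    have h4 : i ≠ j := by
      rintro rfl
      exact lt_irrefl _ h3
    have h5 := h1 i j h4
    rw [abs_sub_comm, abs_of_pos (by omega)] at h5
    have h6 := abs_le.1 (hd i)
    have h7 := abs_le.1 (hd j)
    omega
  refine ⟨⟨?_, ?_⟩, ?_⟩
  · intro i
    have := hQ i
    push_cast
    omega
  · intro i j hij
    have := h2 i j hij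
    push_cast
    omega
  · intro i j
    constructor
    · intro hij
      have := h2 i j hij
      omega
    · intro hij
      by_contra h3
      have h4 : i ≠ j := by
        rintro rfl
        exact lt_irrefl _ hij
      have h5 : ¬ P i < P j := fun h => h3 ((ho i j).2 h)
      have h6 := h1 i j h4
      have h7 : P j < P i := by
        rcases lt_trichotomy (P i) (P j) with h | h | h
        · exact absurd h h5
        · rw [h, sub_self, abs_zero] at h6
          omega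
        · exact h
      have h8 := h2 j i ((ho j i).2 h7)
      omega

/-- Soundness: a link between configurations leads to a computation. -/
theorem link_sound (hH : HMV_Stmt) (hS : SNDS_Stmt) (M m : ℕ) (hM : 2 ≤ M) (x : List Λ)
    (c c' : FCS A) (hc : VC A M x c) (h : LKS A M m x c c') :
    ReflTransGen (A.Step (pad M x)) (real A M c) (real A M c') ∧ VC A M x c' := by
  obtain ⟨-, -, h | ⟨hz, o, ho, hp⟩⟩ := h
  · obtain ⟨h1, h2⟩ := sl_step A hH M hM x c c' hc h
    exact ⟨ReflTransGen.single h1, h2⟩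
  · have h1 := hS A.Q D (BlS A) (unit1 A) (Nat.card A.Q) M m o _ _ hp
    have h2 : ∀ u : A.Q × (Fin D → ℤ), ReflTransGen (fun a b => ItE (BlS A) a b ∧
        SBx 1 M o a.2 ∧ SBx 1 M o b.2) (c.1, c.2.2) u →
        ReflTransGen (A.Step (pad M x)) (real A M c) (real A M (u.1, c.2.1, u.2)) ∧
          VC A M x (u.1, c.2.1, u.2) := by
      intro u hu
      induction hu with
      | refl => exact ⟨ReflTransGen.refl, hc⟩
      | tail _ h3 ih =>
        obtain ⟨h4, h5, h6⟩ := h3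
        obtain ⟨h7, h8⟩ := sl_step A hH M hM x _ _ ih.2 (edge_sl A M x c.2.1 o ho _ _ h4 h5 h6)
        exact ⟨ih.1.tail h7, h8⟩
    obtain ⟨h3, h4⟩ := h2 _ h1
    have h5 : c' = (c'.1, c.2.1, c'.2.2) := by
      rw [← hz]
    rw [h5]
    exact ⟨h3, h4⟩

/-- Completeness. -/
theorem complete (m₀ : ℕ) (M : ℕ) (x : List Λ)
    (hSTR : ∀ (o : Fin D → Fin D → Prop) (c c' : A.Q × (Fin D → ℤ)),
      SBx (2 * Nat.card A.Q + 1) M o c.2 →
      ReflTransGen (fun a b => ItE (BlS A) a b ∧ SBx (2 * Nat.card A.Q + 1) M o b.2) c c' →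
      ReflTransGen (fun a b => PieceS (BlS A) (Nat.card A.Q) M (2 * Nat.card A.Q + 1) m₀ o a b ∧
        ((∃ i, b.2 i < 4 * Nat.card A.Q + 1 ∨ (M : ℤ) - (4 * Nat.card A.Q + 1) < b.2 i) ∨
          (∃ i j, o i j ∧ b.2 j - b.2 i < 4 * Nat.card A.Q + 1) ∨ b = c')) c c')
    (a b : FCS A) (ha : StorS A M a.2.2) (h : ReflTransGen (SLS A M x) a b) :
    ∃ d : FCS A, ReflTransGen (LKS A M m₀ x) a d ∧ StorS A M d.2.2 ∧
      (b = d ∨ (¬ StorS A M b.2.2 ∧ b.2.1 = d.2.1 ∧ ∃ o : Fin D → Fin D → Prop,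
        (∀ i j, o i j ↔ b.2.2 i < b.2.2 j) ∧ SBx (2 * Nat.card A.Q + 1) M o d.2.2 ∧
        ReflTransGen (fun u v => ItE (BlS A) u v ∧ SBx (2 * Nat.card A.Q + 1) M o v.2)
          (d.1, d.2.2) (b.1, b.2.2))) := by
  induction h with
  | refl => exact ⟨a, ReflTransGen.refl, ha, Or.inl rfl⟩
  | @tail b b' _ hbb ih =>
    obtain ⟨d, h1, h2, h3⟩ := ih
    by_cases hb' : StorS A M b'.2.2
    · refine ⟨b', ?_, hb', Or.inl rfl⟩
      rcases h3 with rfl | ⟨h4, h5, o, ho, h6, h7⟩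
      · exact h1.tail ⟨h2, hb', Or.inl hbb⟩
      · obtain ⟨e1, e2, e3, e4, e5⟩ := blind A M x b b' hbb (Or.inl h4)
        obtain ⟨f1, f2⟩ := near_box A M b.2.2 b'.2.2 o ho h4 e3 e5
        have ht : ∀ i j, i ≠ j → o i j ∨ o j i := by
          intro i j hij
          have h8 := (not_stor A h4).2 i j hij
          rcases lt_trichotomy (b.2.2 i) (b.2.2 j) with h | h | h
          · exact Or.inl ((ho i j).2 h)
          · exfalso
            rw [h, sub_self, abs_zero] at h8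
            omega
          · exact Or.inr ((ho j i).2 h)
        have h8 := hSTR o (d.1, d.2.2) (b'.1, b'.2.2) h6 (h7.tail ⟨e1, f1⟩)
        have h9 : ∀ u : A.Q × (Fin D → ℤ), ReflTransGen (fun a b =>
            PieceS (BlS A) (Nat.card A.Q) M (2 * Nat.card A.Q + 1) m₀ o a b ∧
            ((∃ i, b.2 i < 4 * Nat.card A.Q + 1 ∨ (M : ℤ) - (4 * Nat.card A.Q + 1) < b.2 i) ∨
              (∃ i j, o i j ∧ b.2 j - b.2 i < 4 * Nat.card A.Q + 1) ∨
              b = (b'.1, b'.2.2))) (d.1, d.2.2) u →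
            ReflTransGen (LKS A M m₀ x) d (u.1, d.2.1, u.2) ∧ StorS A M u.2 := by
          intro u hu
          induction hu with
          | refl => exact ⟨ReflTransGen.refl, h2⟩
          | @tail v w _ hp ih2 =>
            obtain ⟨hp1, hp2⟩ := hp
            have hs : StorS A M w.2 := by
              rcases hp2 with ⟨i, hi⟩ | ⟨i, j, hij, hi⟩ | hp2
              · left
                refine ⟨i, ?_⟩
                rcases hi with hi | hi
                · exact Or.inl hi.le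
                · exact Or.inr hi.le
              · right
                have hw : SBx (2 * Nat.card A.Q + 1) M o w.2 := by
                  obtain ⟨l, s, -, -, hl, hbx, -⟩ := hp1
                  rw [← hl]
                  exact hbx l le_rfl
                have h10 := hw.2 i j hij
                push_cast at h10
                refine ⟨i, j, ?_, ?_⟩
                · rintro rfl
                  exact lt_irrefl _ ((ho i i).1 hij)
                · rw [abs_sub_comm, abs_of_pos (by omega)]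
                  exact hi.le
              · rw [hp2]
                exact hb'
            exact ⟨ih2.1.tail ⟨ih2.2, hs, Or.inr ⟨rfl, o, ht, hp1⟩⟩, hs⟩
        have h10 := (h9 _ h8).1
        have h11 : b' = (b'.1, d.2.1, b'.2.2) := by
          rw [← h5, ← e2]
        rw [h11]
        exact h1.trans h10
    · refine ⟨d, h1, h2, Or.inr ?_⟩
      obtain ⟨e1, e2, e3, e4, e5⟩ := blind A M x b b' hbb (Or.inr hb')
      rcases h3 with rfl | ⟨h4, h5, o, ho, h6, h7⟩
      · obtain ⟨f1, f2⟩ := near_box A M b'.2.2 b.2.2 (fun i j => b'.2.2 i < b'.2.2 j)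
          (fun i j => Iff.rfl) hb' (fun i => by rw [abs_sub_comm]; exact e3 i) e4
        obtain ⟨g1, g2⟩ := near_box A M b'.2.2 b'.2.2 (fun i j => b'.2.2 i < b'.2.2 j)
          (fun i j => Iff.rfl) hb' (fun i => by simp) e5
        exact ⟨hb', e2, _, fun i j => Iff.rfl, f1, ReflTransGen.single ⟨e1, g1⟩⟩
      · obtain ⟨f1, f2⟩ := near_box A M b.2.2 b'.2.2 o ho h4 e3 e5
        exact ⟨hb', e2.trans h5, o, f2, h6, h7.tail ⟨e1, f1⟩⟩

end GLOSx

open GLOSx in
theorem t_GLOS : GLOS_Stmt := by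
  intro hH hT hS Λ D A hacc
  have : Finite A.Q := A.finQ
  obtain ⟨m₀, hm⟩ := hT A.Q (D + 1) (BlS A) (unit1 A)
  refine ⟨m₀, ?_⟩
  intro M hM x
  have h0 : VC A M x (A.start, fun _ => 0, fun _ => -1) := by
    intro i
    exact Or.inr (Or.inl ⟨rfl, rfl⟩)
  have hr : real A M (A.start, fun _ => 0, fun _ => -1) = (A.start, fun _ => 0) := by
    apply Prod.ext
    · rfl
    · funext i
      simp [real, ps]
  have hs : StorS A M (fun _ => -1) := Or.inl ⟨0, Or.inl (by
    change (-1 : ℤ) ≤ 4 * (Nat.card A.Q : ℤ) + 1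
    omega)⟩
  have snd : ∀ c : FCS A, ReflTransGen (LKS A M m₀ x) (A.start, fun _ => 0, fun _ => -1) c →
      ReflTransGen (A.Step (pad M x)) (A.start, fun _ => 0) (real A M c) ∧ VC A M x c := by
    intro c hc
    induction hc with
    | refl =>
      rw [hr]
      exact ⟨ReflTransGen.refl, h0⟩
    | tail _ h1 ih =>
      obtain ⟨h2, h3⟩ := link_sound A hH hS M m₀ hM x _ _ ih.2 h1
      exact ⟨ih.1.trans h2, h3⟩
  refine ⟨⟨?_, ?_⟩, fun c hc => (snd c hc).2⟩
  · rintro ⟨r, hr1, hr2⟩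
    have h1 : ∀ r : A.Q × (Fin (D + 1) → ℕ), ReflTransGen (A.Step (pad M x))
        (A.start, fun _ => 0) r → ∃ c : FCS A, ReflTransGen (SLS A M x)
          (A.start, fun _ => 0, fun _ => -1) c ∧ real A M c = r ∧ VC A M x c := by
      intro r hr3
      induction hr3 with
      | refl => exact ⟨_, ReflTransGen.refl, hr, h0⟩
      | tail _ h2 ih =>
        obtain ⟨c, h3, h4, h5⟩ := ih
        rw [← h4] at h2
        obtain ⟨c', h6, h7⟩ := step_sl A hH M hM x c h5 _ h2
        exact ⟨c', h3.tail h6, h7, (sl_step A hH M hM x c c' h5 h6).2⟩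
    obtain ⟨c, hc1, hc2, hc3⟩ := h1 r hr1
    have h2 : r.2 0 = 0 := hacc _ _ hr1 hr2
    rw [← hc2] at h2
    have h3 : ps M (c.2.1 0) (c.2.2 0) = ps M 0 (-1) := by
      rw [show ps M 0 (-1) = 0 from by simp [ps]]
      exact h2
    have h4 := (hH Λ M hM x).2 _ _ _ _ (hc3 0) (Or.inr (Or.inl ⟨rfl, rfl⟩)) h3
    have h5 : StorS A M c.2.2 := Or.inl ⟨0, Or.inl (by rw [h4.2]; omega)⟩
    obtain ⟨d, h6, h7, h8⟩ := complete A m₀ M x (fun o c c' => hm M o c c') _ c hs hc1
    rcases h8 with rfl | h8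
    · refine ⟨c, h6, ?_⟩
      rw [← hc2] at hr2
      exact hr2
    · exact absurd h5 h8.1
  · rintro ⟨c, hc1, hc2⟩
    exact ⟨real A M c, (snd c hc1).1, hc2⟩

end Pool.Agent.NPH
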