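import Pool.Agent.NPH.StB

/-!
# NPH, module HMV: one head on the padded word
-/

set_option autoImplicit false

namespace Pool.Agent.NPH

open Pool.Agent.Heads Relation

namespace HMVx

variable {Λ : Type}

lemma blk_length (M : ℕ) (hM : 1 ≤ M) (s : Sym Λ) :
    (some s :: List.replicate (M - 1) (none : Option (Sym Λ))).length = M := by
  rw [List.length_cons, List.length_replicate]
  omega

lemma blk_get (M r : ℕ) (hr : r < M) (s : Sym Λ) :
    (some s :: List.replicate (M - 1) (none : Option (Sym Λ)))[r]? =
      some (if r = 0 then some s else none) := by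
  cases r with
  | zero => rfl
  | succ r =>
    rw [List.getElem?_cons_succ, List.getElem?_replicate, if_pos (by omega), if_neg (by omega)]

lemma fm_length (M : ℕ) (hM : 1 ≤ M) (l : List (Sym Λ)) :
    (l.flatMap fun s => some s :: List.replicate (M - 1) (none : Option (Sym Λ))).length =
      l.length * M := by
  induction l with
  | nil => simp
  | cons a l ih =>
    rw [List.flatMap_cons, List.length_append, ih, blk_length M hM, List.length_cons]
    ring

lemma fm_get (M : ℕ) (hM : 1 ≤ M) (l : List (Sym Λ)) (j r : ℕ) (hr : r < M) (s : Sym Λ)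
    (hs : l[j]? = some s) :
    (l.flatMap fun s => some s :: List.replicate (M - 1) (none : Option (Sym Λ)))[j * M + r]? =
      some (if r = 0 then some s else none) := by
  induction l generalizing j with
  | nil => simp at hs
  | cons a l ih =>
    rw [List.flatMap_cons]
    cases j with
    | zero =>
      rw [List.getElem?_cons_zero, Option.some.injEq] at hs
      rw [hs, zero_mul, zero_add, List.getElem?_append_left (by rw [blk_length M hM]; exact hr)]
      exact blk_get M r hr s
    | succ j =>
      rw [List.getElem?_cons_succ] at hs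
      have h1 : (j + 1) * M + r = M + (j * M + r) := by ring
      rw [List.getElem?_append_right (by rw [blk_length M hM, h1]; omega), blk_length M hM, h1,
        Nat.add_sub_cancel_left]
      exact ih j hs

lemma tape_some {α : Type} {w : List α} {p : ℕ} {a : α} (h : w[p]? = some a) :
    tape w (p + 1) = Sym.letter a := by
  simp only [tape, h]

lemma tape_none {α : Type} {w : List α} {p : ℕ} (h : w[p]? = none) :
    tape w (p + 1) = Sym.right := by
  simp only [tape, h]

lemma brk_get (x : List Λ) (j : ℕ) (hj : j ≤ x.length + 1) : (brk x)[j]? = some (tape x j) := by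
  unfold brk
  cases j with
  | zero => rfl
  | succ j =>
    rw [List.getElem?_cons_succ]
    by_cases h : j < x.length
    · rw [List.getElem?_append_left (by rw [List.length_map]; exact h), List.getElem?_map,
        List.getElem?_eq_getElem h, tape_some (List.getElem?_eq_getElem h)]
      rfl
    · have h1 : j = x.length := by omega
      rw [h1, List.getElem?_append_right (by rw [List.length_map]), List.length_map,
        Nat.sub_self, tape_none (List.getElem?_eq_none le_rfl)]
      rfl

lemma pad_length (M : ℕ) (hM : 1 ≤ M) (x : List Λ) :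
    (pad M x).length = (x.length + 2) * M := by
  unfold pad
  rw [fm_length M hM]
  unfold brk
  rw [List.length_cons, List.length_append, List.length_map, List.length_singleton]

lemma pad_get (M : ℕ) (hM : 1 ≤ M) (x : List Λ) (j r : ℕ) (hj : j ≤ x.length + 1) (hr : r < M) :
    (pad M x)[j * M + r]? = some (if r = 0 then some (tape x j) else none) :=
  fm_get M hM _ j r hr _ (brk_get x j hj)

lemma tape_left (x : List Λ) (j : ℕ) : tape x j = Sym.left ↔ j = 0 := by
  cases j with
  | zero => exact ⟨fun _ => rfl, fun _ => rfl⟩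
  | succ j =>
    refine ⟨fun h => ?_, fun h => absurd h (Nat.succ_ne_zero j)⟩
    cases hx : x[j]? with
    | some a => rw [tape_some hx] at h; exact absurd h (by simp)
    | none => rw [tape_none hx] at h; exact absurd h (by simp)

lemma tape_right (x : List Λ) (j : ℕ) (hj : j ≤ x.length + 1) :
    tape x j = Sym.right ↔ j = x.length + 1 := by
  cases j with
  | zero => exact ⟨fun h => absurd h (by simp [tape]), fun h => by omega⟩
  | succ j =>
    constructor
    · intro h
      by_contra hc
      have h1 : j < x.length := by omega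
      rw [tape_some (List.getElem?_eq_getElem h1)] at h
      exact absurd h (by simp)
    · intro h
      exact tape_none (List.getElem?_eq_none (by omega))

lemma sym_eq (M : ℕ) (hM : 2 ≤ M) (x : List Λ) (j : ℕ) (P : ℤ) (hV : VP M (x.length + 1) j P) :
    tape (pad M x) (ps M j P) = lsym M (tape x j) P := by
  have hc : (0 : ℤ) ≤ (j : ℤ) * M := by positivity
  rcases hV with ⟨h0, h1, h2⟩ | ⟨h1, h2⟩ | ⟨h1, h2⟩
  · obtain ⟨r, rfl⟩ := Int.eq_ofNat_of_zero_le h0
    have hr : r < M := by exact_mod_cast h1
    have hp : ps M j (r : ℤ) = (j * M + r) + 1 := by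
      unfold ps
      have h3 : (1 + (j : ℤ) * M + (r : ℤ)) = ((j * M + r + 1 : ℕ) : ℤ) := by
        push_cast
        ring
      rw [h3, Int.toNat_natCast]
    rw [hp, tape_some (pad_get M (by omega) x j r h2 hr)]
    unfold lsym
    rw [if_neg (show ¬ ((r : ℤ) = -1) by omega), if_neg (show ¬ ((r : ℤ) = M) by omega)]
    by_cases h4 : r = 0
    · rw [if_pos h4, if_pos (show (r : ℤ) = 0 by omega)]
    · rw [if_neg h4, if_neg (show ¬ ((r : ℤ) = 0) by omega)]
  · have hp : ps M j P = 0 := by
      unfold ps
      rw [h1, h2]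
      simp
    rw [hp]
    unfold lsym
    rw [if_pos h1]
    rfl
  · have hp : ps M j P = (x.length + 2) * M + 1 := by
      unfold ps
      rw [h1, h2]
      have h3 : (1 + ((x.length + 1 : ℕ) : ℤ) * M + (M : ℤ)) =
          (((x.length + 2) * M + 1 : ℕ) : ℤ) := by
        push_cast
        ring
      rw [h3, Int.toNat_natCast]
    rw [hp, tape_none (List.getElem?_eq_none (by rw [pad_length M (by omega)]))]
    unfold lsym
    rw [if_neg (by omega), if_pos h1]

/-- the integer behind `ps` -/
lemma ps_nat {M Z j : ℕ} {P : ℤ} (hV : VP M Z j P) :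
    ((ps M j P : ℕ) : ℤ) = 1 + (j : ℤ) * M + P := by
  have hc : (0 : ℤ) ≤ (j : ℤ) * M := by positivity
  unfold ps
  apply Int.toNat_of_nonneg
  rcases hV with ⟨h0, h1, h2⟩ | ⟨h1, h2⟩ | ⟨h1, h2⟩
  · omega
  · omega
  · omega

lemma inj (M Z : ℕ) (j j' : ℕ) (P P' : ℤ) (hV : VP M Z j P) (hV' : VP M Z j' P')
    (h : ps M j P = ps M j' P') : j = j' ∧ P = P' := by
  have h1 := ps_nat hV
  have h2 := ps_nat hV'
  rw [h, h2] at h1
  have hc : (0 : ℤ) ≤ (j : ℤ) * M := by positivity
  have hc' : (0 : ℤ) ≤ (j' : ℤ) * M := by positivity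
  have hlt : ∀ a b : ℕ, a < b → (a : ℤ) * M + M ≤ (b : ℤ) * M := by
    intro a b hab
    have h3 : ((a : ℤ) + 1) * M ≤ (b : ℤ) * M := by
      apply mul_le_mul_of_nonneg_right _ (Int.natCast_nonneg M)
      exact_mod_cast hab
    linarith
  have hle : ∀ a b : ℕ, a ≤ b → (a : ℤ) * M ≤ (b : ℤ) * M := by
    intro a b hab
    apply mul_le_mul_of_nonneg_right _ (Int.natCast_nonneg M)
    exact_mod_cast hab
  rcases hV with ⟨a0, a1, a2⟩ | ⟨a1, a2⟩ | ⟨a1, a2⟩ <;>
    rcases hV' with ⟨b0, b1, b2⟩ | ⟨b1, b2⟩ | ⟨b1, b2⟩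
  · rcases lt_trichotomy j j' with h3 | h3 | h3
    · have h4 := hlt j j' h3
      omega
    · refine ⟨h3, ?_⟩
      rw [h3] at h1
      omega
    · have h4 := hlt j' j h3
      omega
  · have e : (j' : ℤ) * M = 0 := by rw [b2, Nat.cast_zero, zero_mul]
    omega
  · have h4 := hle j Z a2
    rw [b2] at h1
    omega
  · have e : (j : ℤ) * M = 0 := by rw [a2, Nat.cast_zero, zero_mul]
    omega
  · exact ⟨by omega, by omega⟩
  · have e : (j : ℤ) * M = 0 := by rw [a2, Nat.cast_zero, zero_mul]
    omega
  · have h4 := hle j' Z b2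
    rw [a2] at h1
    omega
  · have e : (j' : ℤ) * M = 0 := by rw [b2, Nat.cast_zero, zero_mul]
    omega
  · exact ⟨by omega, by omega⟩

lemma move_eq (M : ℕ) (hM : 2 ≤ M) (x : List Λ) (j : ℕ) (P : ℤ)
    (hV : VP M (x.length + 1) j P) (d : Dir) :
    move ((pad M x).length + 1) (ps M j P) d =
        ps M (move (x.length + 1) j (lmv M (tape x j) P d).1) (lmv M (tape x j) P d).2 ∧
      VP M (x.length + 1) (move (x.length + 1) j (lmv M (tape x j) P d).1)
        (lmv M (tape x j) P d).2 := by
  obtain ⟨Z, hZ⟩ : ∃ Z, Z = x.length + 1 := ⟨_, rfl⟩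
  have hlen : (pad M x).length + 1 = (Z + 1) * M + 1 := by
    rw [pad_length M (by omega), hZ]
  have hN : (((Z + 1) * M + 1 : ℕ) : ℤ) = (Z : ℤ) * M + M + 1 := by
    push_cast
    ring
  rw [hlen, ← hZ]
  rw [← hZ] at hV
  have hp := ps_nat hV
  have hc : (0 : ℤ) ≤ (j : ℤ) * M := by positivity
  have hjZ : j ≤ Z := by
    rcases hV with ⟨_, _, h2⟩ | ⟨_, h2⟩ | ⟨_, h2⟩ <;> omega
  have hjZ' : (j : ℤ) * M ≤ (Z : ℤ) * M := by
    apply mul_le_mul_of_nonneg_right _ (Int.natCast_nonneg M)
    exact_mod_cast hjZ
  have hb : -1 ≤ P ∧ P ≤ M := by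
    rcases hV with ⟨_, _, _⟩ | ⟨_, _⟩ | ⟨_, _⟩ <;> omega
  -- reduction of the first claim to integers
  have red : ∀ (m : ℕ) (j' : ℕ) (P' : ℤ), VP M Z j' P' → (m : ℤ) = 1 + (j' : ℤ) * M + P' →
      m = ps M j' P' ∧ VP M Z j' P' := by
    intro m j' P' h1 h2
    have h3 := ps_nat h1
    exact ⟨by omega, h1⟩
  cases d with
  | S =>
    simp only [lmv, move]
    exact ⟨trivial, hV⟩
  | L =>
    simp only [lmv]
    by_cases h1 : P = -1
    · rw [if_pos h1]
      simp only [move]
      have h2 : j = 0 := by
        rcases hV with ⟨_, _, _⟩ | ⟨_, h2⟩ | ⟨_, _⟩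
        · omega
        · exact h2
        · omega
      refine red _ _ _ hV ?_
      rw [h2] at hp ⊢
      omega
    rw [if_neg h1]
    by_cases h2 : P = 0
    · rw [if_pos h2]
      by_cases h3 : tape x j = Sym.left
      · rw [if_pos h3]
        simp only [move]
        have h4 := (tape_left x j).1 h3
        refine red _ _ _ (Or.inr (Or.inl ⟨rfl, h4⟩)) ?_
        omega
      · rw [if_neg h3]
        simp only [move]
        have h4 : j ≠ 0 := fun h => h3 ((tape_left x j).2 h)
        obtain ⟨i, rfl⟩ : ∃ i, j = i + 1 := ⟨j - 1, by omega⟩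
        have h5 : ((i + 1 : ℕ) : ℤ) * M = (i : ℤ) * M + M := by
          push_cast
          ring
        have hi : (0 : ℤ) ≤ (i : ℤ) * M := by positivity
        refine red _ _ _ (Or.inl ⟨by omega, by omega, by omega⟩) ?_
        rw [Nat.add_sub_cancel]
        omega
    · rw [if_neg h2]
      simp only [move]
      refine red _ _ _ (Or.inl ⟨by omega, by omega, hjZ⟩) ?_
      omega
  | R =>
    simp only [lmv]
    by_cases h1 : P = M
    · rw [if_pos h1]
      simp only [move]
      have h2 : j = Z := by
        rcases hV with ⟨_, _, _⟩ | ⟨_, _⟩ | ⟨_, h2⟩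
        · omega
        · omega
        · exact h2
      refine red _ _ _ hV ?_
      rw [h2] at hp ⊢
      omega
    rw [if_neg h1]
    by_cases h2 : P = (M : ℤ) - 1
    · rw [if_pos h2]
      by_cases h3 : tape x j = Sym.right
      · rw [if_pos h3]
        simp only [move]
        have h4 := (tape_right x j (by omega)).1 h3
        refine red _ _ _ (Or.inr (Or.inr ⟨rfl, by omega⟩)) ?_
        have h5 : j = Z := by omega
        rw [h5] at hp ⊢
        omega
      · rw [if_neg h3]
        simp only [move]
        have h4 : j ≠ Z := fun h => h3 ((tape_right x j (by omega)).2 (by omega))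
        have h6 : min (j + 1) Z = j + 1 := by omega
        have h7 : ((j : ℤ) + 1) * M ≤ (Z : ℤ) * M := by
          apply mul_le_mul_of_nonneg_right _ (Int.natCast_nonneg M)
          exact_mod_cast (show j + 1 ≤ Z by omega)
        have h5 : ((j : ℤ) + 1) * M = (j : ℤ) * M + M := by ring
        have h8 : ((j + 1 : ℕ) : ℤ) * M = (j : ℤ) * M + M := by
          push_cast
          ring
        rw [h6]
        refine red _ _ _ (Or.inl ⟨by omega, by omega, by omega⟩) ?_
        omega
    · rw [if_neg h2]
      simp only [move]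
      refine red _ _ _ (Or.inl ⟨by omega, by omega, hjZ⟩) ?_
      omega

end HMVx

theorem t_HMV : HMV_Stmt := by
  intro Λ M hM x
  exact ⟨fun j P hV => ⟨HMVx.sym_eq M hM x j P hV, HMVx.move_eq M hM x j P hV⟩,
    fun j j' P P' hV hV' h => HMVx.inj M _ j j' P P' hV hV' h⟩

end Pool.Agent.NPH
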