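import Pool.Agent.NPH.StS

/-!
# Project NPH, module LOWS: `LOWERS` from the link system
-/

set_option autoImplicit false

namespace Pool.Agent.NPH

open Pool.Agent.Heads Relation

theorem t_LOWS : LOWS_Stmt := by
  intro hACC hLSY hLWE hGLO hLWR Λ _ D β hD hβ A
  obtain ⟨D, rfl⟩ : ∃ D', D = D' + 1 := ⟨D - 1, by omega⟩
  obtain ⟨A', hA', hacc⟩ := hACC _ D A
  obtain ⟨m, hm⟩ := hGLO Λ D A' hacc
  obtain ⟨h1, h2⟩ := hLWR Λ D β hβ A'
  have h3 := hLWE Λ D β hβ A' m h1 (h2 m) hm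
  have h4 := hLSY Λ (D + 1) (2 ^ (D + 1) * β ^ D) (Fin D → Fin β)
    (lowSysS A' β m (by omega) h1 (h2 m)) (by simp [Nat.card_eq_fintype_card])
  rw [h3, hA'] at h4
  simpa using h4

end Pool.Agent.NPH
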