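import Pool.Agent.NPH.StB

/-!
# Project NPH, module LSY: link systems are machines
-/

set_option autoImplicit false

namespace Pool.Agent.NPH

open Pool.Agent.Heads Relation

namespace MLSY

section

variable {Λ : Type} {r S : ℕ} {W : Type} (T : LSys Λ r W) (Qh : T.H → Type)
  (st : ∀ h, Qh h) (F : ∀ h, Set (Qh h)) (δ : ∀ h, Qh h → W × W → Set (Qh h)) (e : W → Fin S)

/-- The sweep. -/
def sw : T.N ⊕ (Σ h, Qh h) → Fin S → Set ((T.N ⊕ Σ h, Qh h) × Fin S)
  | Sum.inl n, a => {p | ∃ (h : T.H) (w w' : W) (q' : Qh h), T.src h = n ∧ a = e w ∧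
      q' ∈ δ h (st h) (w, w') ∧ p = (Sum.inr ⟨h, q'⟩, e w')}
  | Sum.inr z, a => {p | ∃ (w w' : W) (q' : Qh z.1), a = e w ∧ q' ∈ δ z.1 z.2 (w, w') ∧
      p = (Sum.inr ⟨z.1, q'⟩, e w')}

/-- The step of the heads. -/
def hd : T.N ⊕ (Σ h, Qh h) → (Fin r → Sym Λ) → Set ((T.N ⊕ Σ h, Qh h) × (Fin r → Dir))
  | Sum.inl _, _ => ∅
  | Sum.inr z, a => {t | z.2 ∈ F z.1 ∧ a ∈ T.rd z.1 ∧ t = (Sum.inl (T.tgt z.1), T.mv z.1)}

theorem sweep_of_runs (h : T.H) : ∀ (u v : List W) (q q' : Qh h), u.length = v.length →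
    Runs (δ h) q (u.zip v) q' →
    Sweep (sw T Qh st δ e) (Sum.inr ⟨h, q⟩) (u.map e) (Sum.inr ⟨h, q'⟩) (v.map e)
  | [], [], q, q', _, hr => by
    have hr' : q = q' := hr
    subst hr'
    exact ⟨rfl, rfl⟩
  | [], b :: v, q, q', hl, _ => by simp at hl
  | a :: u, [], q, q', hl, _ => by simp at hl
  | a :: u, b :: v, q, q', hl, hr => by
    obtain ⟨p, hp, hr'⟩ := hr
    have hl' : u.length = v.length := by simpa using hl
    exact ⟨Sum.inr ⟨h, p⟩, e b, v.map e, ⟨a, b, p, rfl, hp, rfl⟩, rfl,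
      sweep_of_runs h u v p q' hl' hr'⟩

variable {e}

theorem runs_of_sweep (he : Function.Injective e) (h : T.H) : ∀ (u : List W) (q : Qh h)
    (p : T.N ⊕ Σ h, Qh h) (v : List (Fin S)),
    Sweep (sw T Qh st δ e) (Sum.inr ⟨h, q⟩) (u.map e) p v →
    ∃ (q' : Qh h) (v₀ : List W), v = v₀.map e ∧ v₀.length = u.length ∧ p = Sum.inr ⟨h, q'⟩ ∧
      Runs (δ h) q (u.zip v₀) q'
  | [], q, p, v, hs => by
    obtain ⟨h1, h2⟩ := hs
    exact ⟨q, [], h2, rfl, h1.symm, rfl⟩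
  | a :: u, q, p, v, hs => by
    obtain ⟨p₁, b, v', hp, hv, hs'⟩ := hs
    obtain ⟨w, w', q₁, h1, h2, h3⟩ := hp
    have h4 : a = w := he h1
    subst h4
    have h5 : p₁ = Sum.inr ⟨h, q₁⟩ := congrArg Prod.fst h3
    have h6 : b = e w' := congrArg Prod.snd h3
    subst h5
    subst h6
    obtain ⟨q', v₀, h7, h8, h9, h10⟩ := runs_of_sweep he h u q₁ p v' hs'
    refine ⟨q', w' :: v₀, ?_, ?_, h9, ?_⟩
    · rw [hv, h7]
      rfl
    · simp [h8]
    · exact ⟨q₁, h2, h10⟩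

theorem sweep_inl (he : Function.Injective e) (n : T.N) (u : List W) (hu : u ≠ [])
    (p : T.N ⊕ Σ h, Qh h) (v : List (Fin S)) :
    Sweep (sw T Qh st δ e) (Sum.inl n) (u.map e) p v ↔
    ∃ (h : T.H) (q' : Qh h) (v₀ : List W), T.src h = n ∧ v = v₀.map e ∧ v₀.length = u.length ∧
      p = Sum.inr ⟨h, q'⟩ ∧ Runs (δ h) (st h) (u.zip v₀) q' := by
  obtain ⟨a, u', rfl⟩ : ∃ a u', u = a :: u' := by
    cases u with
    | nil => exact absurd rfl hu
    | cons a u' => exact ⟨a, u', rfl⟩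
  constructor
  · rintro ⟨p₁, b, v', hp, hv, hs'⟩
    obtain ⟨h, w, w', q₁, h0, h1, h2, h3⟩ := hp
    have h4 : a = w := he h1
    subst h4
    have h5 : p₁ = Sum.inr ⟨h, q₁⟩ := congrArg Prod.fst h3
    have h6 : b = e w' := congrArg Prod.snd h3
    subst h5
    subst h6
    obtain ⟨q', v₀, h7, h8, h9, h10⟩ := runs_of_sweep T Qh st δ he h u' q₁ p v' hs'
    refine ⟨h, q', w' :: v₀, h0, ?_, ?_, h9, ?_⟩
    · rw [hv, h7]
      rfl
    · simp [h8]
    · exact ⟨q₁, h2, h10⟩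
  · rintro ⟨h, q', v₀, h0, hv, hl, hp, hr⟩
    cases v₀ with
    | nil => simp at hl
    | cons b v₁ =>
      obtain ⟨q₁, h2, h10⟩ := hr
      have hl' : u'.length = v₁.length := by
        have : v₁.length + 1 = u'.length + 1 := by simpa using hl
        omega
      subst hp
      exact ⟨Sum.inr ⟨h, q₁⟩, e b, v₁.map e, ⟨h, a, b, q₁, h0, rfl, h2, rfl⟩, hv,
        sweep_of_runs T Qh st δ e h u' v₁ q₁ q' hl' h10⟩

end

/-- The machine. -/
def mach {Λ : Type} {r S : ℕ} {W : Type} (T : LSys Λ r W) (Qh : T.H → Type)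
    (fQ : ∀ h, Finite (Qh h)) (st : ∀ h, Qh h) (F : ∀ h, Set (Qh h))
    (δ : ∀ h, Qh h → W × W → Set (Qh h)) (e : W → Fin S) : RM Λ r S where
  Q := T.N ⊕ Σ h, Qh h
  finQ := by
    have := T.finN
    have := T.finH
    infer_instance
  start := Sum.inl T.start
  accept := {q | ∃ n ∈ T.accept, q = Sum.inl n}
  blank := e T.blank
  sw := sw T Qh st δ e
  hd := hd T Qh F

/-- The configuration of the machine. -/
def enc {Λ : Type} {r S : ℕ} {W : Type} (T : LSys Λ r W) (Qh : T.H → Type) (e : W → Fin S)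
    (c : T.N × (Fin r → ℕ) × List W) : (T.N ⊕ Σ h, Qh h) × (Fin r → ℕ) × List (Fin S) :=
  (Sum.inl c.1, c.2.1, c.2.2.map e)

theorem round_iff {Λ : Type} {r S : ℕ} {W : Type} (T : LSys Λ r W) (Qh : T.H → Type)
    (fQ : ∀ h, Finite (Qh h)) (st : ∀ h, Qh h) (F : ∀ h, Set (Qh h))
    (δ : ∀ h, Qh h → W × W → Set (Qh h)) (hδ : ∀ h v, T.rel h v ↔ ∃ q ∈ F h, Runs (δ h) (st h) v q)
    (e : W → Fin S) (he : Function.Injective e) (x : List Λ) (c : T.N × (Fin r → ℕ) × List W)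
    (hc : c.2.2 ≠ []) (d : (mach T Qh fQ st F δ e).Conf) :
    (mach T Qh fQ st F δ e).Round x (enc T Qh e c) d ↔
      ∃ c', d = enc T Qh e c' ∧ T.Link x c c' := by
  constructor
  · rintro ⟨p, hs, t, ht, hd1, hd2⟩
    obtain ⟨h, q', v₀, h0, hv, hl, hp, hr⟩ :=
      (sweep_inl T Qh st δ he c.1 c.2.2 hc p d.2.2).mp hs
    subst hp
    obtain ⟨h1, h2, h3⟩ := ht
    refine ⟨(T.tgt h, fun i => move (x.length + 1) (c.2.1 i) (T.mv h i), v₀), ?_,
      h, h0, rfl, h2, rfl, hl, (hδ h _).mpr ⟨q', h1, hr⟩⟩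
    have h4 : t.1 = Sum.inl (T.tgt h) := congrArg Prod.fst h3
    have h5 : t.2 = T.mv h := congrArg Prod.snd h3
    refine Prod.ext ?_ (Prod.ext ?_ ?_)
    · rw [hd1, h4]
      rfl
    · rw [hd2, h5]
      rfl
    · exact hv
  · rintro ⟨c', rfl, h, h0, h1, h2, h3, h4, h5⟩
    obtain ⟨q', hq', hr⟩ := (hδ h _).mp h5
    refine ⟨Sum.inr ⟨h, q'⟩, ?_, (Sum.inl (T.tgt h), T.mv h), ⟨hq', h2, rfl⟩, ?_, ?_⟩
    · exact (sweep_inl T Qh st δ he c.1 c.2.2 hc _ _).mpr ⟨h, q', c'.2.2, h0, rfl, h4, rfl, hr⟩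
    · change (Sum.inl c'.1 : T.N ⊕ Σ h, Qh h) = Sum.inl (T.tgt h)
      rw [h1]
    · exact h3

theorem lang_eq {Λ : Type} {r S : ℕ} {W : Type} (T : LSys Λ r W) (Qh : T.H → Type)
    (fQ : ∀ h, Finite (Qh h)) (st : ∀ h, Qh h) (F : ∀ h, Set (Qh h))
    (δ : ∀ h, Qh h → W × W → Set (Qh h)) (hδ : ∀ h v, T.rel h v ↔ ∃ q ∈ F h, Runs (δ h) (st h) v q)
    (e : W → Fin S) (he : Function.Injective e) :
    (mach T Qh fQ st F δ e).lang = T.lang := by
  ext x
  have hinit : (mach T Qh fQ st F δ e).init x =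
      enc T Qh e (T.start, fun _ => 0, List.replicate (x.length + 1) T.blank) := by
    unfold RM.init enc
    rw [List.map_replicate]
    rfl
  constructor
  · rintro ⟨d, hd, hacc⟩
    rw [hinit] at hd
    have key : ∃ c, d = enc T Qh e c ∧ ReflTransGen (T.Link x)
        (T.start, fun _ => 0, List.replicate (x.length + 1) T.blank) c ∧ c.2.2 ≠ [] := by
      clear hacc
      induction hd with
      | refl =>
        refine ⟨_, rfl, ReflTransGen.refl, ?_⟩
        intro h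
        have := congrArg List.length h
        simp at this
      | tail _ hstep ih =>
        obtain ⟨c, hdc, hrc, hne⟩ := ih
        subst hdc
        obtain ⟨c', hd', hl⟩ := (round_iff T Qh fQ st F δ hδ e he x c hne _).mp hstep
        refine ⟨c', hd', hrc.tail hl, ?_⟩
        obtain ⟨h, _, _, _, _, h4, _⟩ := hl
        intro h5
        rw [h5] at h4
        exact hne (List.length_eq_zero_iff.mp h4.symm)
    obtain ⟨c, hdc, hrc, _⟩ := key
    refine ⟨c, hrc, ?_⟩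
    obtain ⟨n, hn, hdn⟩ := hacc
    rw [hdc] at hdn
    have : c.1 = n := Sum.inl.inj hdn
    rw [this]
    exact hn
  · rintro ⟨c, hc, hacc⟩
    have key : ReflTransGen ((mach T Qh fQ st F δ e).Round x)
        (enc T Qh e (T.start, fun _ => 0, List.replicate (x.length + 1) T.blank))
        (enc T Qh e c) ∧ c.2.2 ≠ [] := by
      clear hacc
      induction hc with
      | refl =>
        refine ⟨ReflTransGen.refl, ?_⟩
        intro h
        have := congrArg List.length h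
        simp at this
      | tail _ hstep ih =>
        refine ⟨ih.1.tail ((round_iff T Qh fQ st F δ hδ e he x _ ih.2 _).mpr ⟨_, rfl, hstep⟩), ?_⟩
        obtain ⟨h, _, _, _, _, h4, _⟩ := hstep
        intro h5
        rw [h5] at h4
        exact ih.2 (List.length_eq_zero_iff.mp h4.symm)
    refine ⟨enc T Qh e c, ?_, ⟨c.1, hacc, rfl⟩⟩
    rw [hinit]
    exact key.1

end MLSY

/-- LSY: link systems are machines. -/
theorem t_LSY : LSY_Stmt := by
  intro Λ r S W _ T hS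
  have hrec := T.hrel
  choose Qh fQ st F δ hδ using hrec
  obtain ⟨e, he⟩ : ∃ e : W → Fin S, Function.Injective e :=
    ⟨fun w => Fin.castLE hS (Finite.equivFin W w), by
      intro a b hab
      exact (Finite.equivFin W).injective (Fin.castLE_injective hS hab)⟩
  exact ⟨MLSY.mach T Qh fQ st F δ e, MLSY.lang_eq T Qh fQ st F δ hδ e he⟩

end Pool.Agent.NPH
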