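import Pool.Agent.NPH.StS
import Pool.Agent.NPH.AUC
import Pool.Agent.NPH.LSY

/-!
# Project NPH, module LSYS: link systems with sensing reading heads are machines

The position `p ≤ |x| + 1` of a reading head is stored in the memory in unary: the cells `0, …, p - 1` have
the mark of the head. All moves are shifts of the marks.
-/

set_option autoImplicit false

namespace Pool.Agent.NPH

open Pool.Agent.Heads Relation

namespace MLSYS

/-! ### Recognisable sets -/

theorem rec_all {A : Type} {ι : Type} [Finite ι] {P : ι → List A → Prop} (h : ∀ i, Rec (P i)) :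
    Rec (fun v => ∀ i, P i v) := by
  have h' := fun i => MAUC.recD (h i)
  choose Q hQ s F f hf using h'
  have hfin : Finite (∀ i, Q i) := inferInstance
  refine MAUC.rec_of ⟨∀ i, Q i, hfin, s, {q | ∀ i, q i ∈ F i}, fun q a i => f i (q i) a,
    fun v => ?_⟩
  have key : ∀ (v : List A) (q : ∀ i, Q i),
      v.foldl (fun (q : ∀ i, Q i) a i => f i (q i) a) q = fun i => v.foldl (f i) (q i) := by
    intro v
    induction v with
    | nil =>
      intro q
      rfl
    | cons a v ih =>
      intro q
      rw [List.foldl_cons, ih]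
      rfl
  rw [key]
  exact forall_congr' fun i => hf i v

theorem rec_mem {A : Type} (p : A → Prop) : Rec (fun v : List A => ∀ a ∈ v, p a) := by
  refine ⟨Unit, inferInstance, (), Set.univ, fun _ a => {_q | p a}, fun v => ?_⟩
  induction v with
  | nil =>
    constructor
    · intro _
      exact ⟨(), trivial, rfl⟩
    · intro _ a ha
      exact absurd ha List.not_mem_nil
  | cons a v ih =>
    beta_reduce at ih ⊢
    rw [List.forall_mem_cons, ih]
    constructor
    · rintro ⟨h1, q, _, h2⟩
      exact ⟨q, trivial, (), h1, h2⟩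
    · rintro ⟨q, _, p', h1, h2⟩
      exact ⟨h1, q, trivial, h2⟩

theorem rec_not {A : Type} {P : List A → Prop} (h : Rec P) : Rec (fun v => ¬ P v) := by
  obtain ⟨Q, hQ, s, F, f, h⟩ := MAUC.recD h
  exact MAUC.rec_of ⟨Q, hQ, s, Fᶜ, f, fun v => not_congr (h v)⟩

theorem rec_iff {A : Type} (b : Bool) {P : List A → Prop} (h : Rec P) :
    Rec (fun v => (b = true ↔ P v)) := by
  cases b with
  | true =>
    have e : (fun v : List A => (true = true ↔ P v)) = P := by
      funext v
      simp
    rw [e]
    exact h
  | false =>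
    have e : (fun v : List A => (false = true ↔ P v)) = fun v => ¬ P v := by
      funext v
      simp
    rw [e]
    exact rec_not h

/-! ### Thresholds and their moves -/

/-- the word of length `L` with `p` marks at the beginning -/
def thr : ℕ → ℕ → List Bool
  | 0, _ => []
  | L + 1, p => decide (0 < p) :: thr L (p - 1)

/-- shift to the right; `c` comes in -/
def shR : Bool → List (Bool × Bool) → Prop
  | _, [] => True
  | c, a :: v => a.2 = c ∧ shR a.1 v

/-- shift to the left; `false` comes in -/
def shL : Bool → List (Bool × Bool) → Prop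
  | c, [] => c = false
  | c, a :: v => a.1 = c ∧ shL a.2 v

/-- the moves of the marks -/
def mvR : Dir → List (Bool × Bool) → Prop
  | Dir.L, v => shL true v ∨ shL false v
  | Dir.S, v => ∀ a ∈ v, a.1 = a.2
  | Dir.R, v => shR true v

theorem rec_shR (c : Bool) : Rec (shR c) := by
  have key : ∀ (v : List (Bool × Bool)) (c : Bool), shR c v ↔
      ∃ q ∈ (Set.univ : Set Bool), Runs (fun (c : Bool) (a : Bool × Bool) =>
        ({q | a.2 = c ∧ q = a.1} : Set Bool)) c v q := by
    intro v
    induction v with
    | nil =>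
      intro c
      exact ⟨fun _ => ⟨c, trivial, rfl⟩, fun _ => trivial⟩
    | cons a v ih =>
      intro c
      constructor
      · rintro ⟨h1, h2⟩
        obtain ⟨q, _, hq⟩ := (ih _).1 h2
        exact ⟨q, trivial, a.1, ⟨h1, rfl⟩, hq⟩
      · rintro ⟨q, _, p, ⟨h1, h2⟩, hq⟩
        subst h2
        exact ⟨h1, (ih _).2 ⟨q, trivial, hq⟩⟩
  exact ⟨Bool, inferInstance, c, Set.univ, _, fun v => key v c⟩

theorem rec_shL (c : Bool) : Rec (shL c) := by
  have key : ∀ (v : List (Bool × Bool)) (c : Bool), shL c v ↔
      ∃ q ∈ ({false} : Set Bool), Runs (fun (c : Bool) (a : Bool × Bool) =>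
        ({q | a.1 = c ∧ q = a.2} : Set Bool)) c v q := by
    intro v
    induction v with
    | nil =>
      intro c
      constructor
      · intro h
        have h1 : c = false := h
        exact ⟨false, rfl, h1⟩
      · rintro ⟨q, hq, h⟩
        have h1 : c = q := h
        have h2 : q = false := hq
        exact h1.trans h2
    | cons a v ih =>
      intro c
      constructor
      · rintro ⟨h1, h2⟩
        obtain ⟨q, h3, hq⟩ := (ih _).1 h2
        exact ⟨q, h3, a.2, ⟨h1, rfl⟩, hq⟩
      · rintro ⟨q, h3, p, ⟨h1, h2⟩, hq⟩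
        subst h2
        exact ⟨h1, (ih _).2 ⟨q, h3, hq⟩⟩
  exact ⟨Bool, inferInstance, c, {false}, _, fun v => key v c⟩

theorem rec_mvR (d : Dir) : Rec (mvR d) := by
  cases d with
  | L => exact MAUC.rec_or (rec_shL true) (rec_shL false)
  | S => exact rec_mem _
  | R => exact rec_shR true

theorem thr_length : ∀ (L p : ℕ), (thr L p).length = L
  | 0, _ => rfl
  | L + 1, p => by
    rw [thr, List.length_cons, thr_length L]

theorem thr_inj : ∀ (L p q : ℕ), p ≤ L → q ≤ L → thr L p = thr L q → p = q
  | 0, p, q, hp, hq, _ => by omega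
  | L + 1, p, q, hp, hq, h => by
    rw [thr, thr, List.cons.injEq, decide_eq_decide] at h
    have h1 := thr_inj L (p - 1) (q - 1) (by omega) (by omega) h.2
    have h2 := h.1
    omega

theorem thr_min : ∀ (L p : ℕ), thr L (min p L) = thr L p
  | 0, _ => rfl
  | L + 1, p => by
    rw [thr, thr]
    have h1 : (0 < min p (L + 1)) ↔ 0 < p := by omega
    have h2 : min p (L + 1) - 1 = min (p - 1) L := by omega
    rw [h2, thr_min L]
    simp only [h1]

theorem shR_zero : ∀ (L : ℕ) (v : List (Bool × Bool)), v.map Prod.fst = thr L 0 →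
    (shR false v ↔ v.map Prod.snd = thr L 0)
  | 0, v, h => by
    have h1 : v = [] := List.map_eq_nil_iff.1 h
    subst h1
    exact ⟨fun _ => rfl, fun _ => trivial⟩
  | L + 1, [], h => by
    simp [thr] at h
  | L + 1, a :: v, h => by
    rw [thr, List.map_cons, List.cons.injEq] at h
    obtain ⟨h1, h2⟩ := h
    have h3 : a.1 = false := by simpa using h1
    rw [thr, List.map_cons, List.cons.injEq]
    have h4 := shR_zero L v h2
    have e : shR false (a :: v) ↔ a.2 = false ∧ shR a.1 v := Iff.rfl
    rw [e, h3, h4]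
    simp

theorem shR_thr : ∀ (L p : ℕ) (v : List (Bool × Bool)), v.map Prod.fst = thr L p →
    (shR true v ↔ v.map Prod.snd = thr L (p + 1))
  | 0, p, v, h => by
    have h1 : v = [] := List.map_eq_nil_iff.1 h
    subst h1
    exact ⟨fun _ => rfl, fun _ => trivial⟩
  | L + 1, p, [], h => by
    simp [thr] at h
  | L + 1, p, a :: v, h => by
    rw [thr, List.map_cons, List.cons.injEq] at h
    obtain ⟨h1, h2⟩ := h
    rw [thr, List.map_cons, List.cons.injEq]
    have e : shR true (a :: v) ↔ a.2 = true ∧ shR a.1 v := Iff.rfl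
    rw [e]
    have h5 : decide (0 < p + 1) = true := by simp
    rw [h5]
    refine and_congr_right fun _ => ?_
    have h6 : p + 1 - 1 = p := rfl
    rw [h6, h1]
    rcases Nat.eq_zero_or_pos p with h3 | h3
    · subst h3
      exact shR_zero L v h2
    · have h4 := shR_thr L (p - 1) v h2
      have h7 : p - 1 + 1 = p := by omega
      rw [h7] at h4
      have h8 : decide (0 < p) = true := decide_eq_true h3
      rw [h8]
      exact h4

theorem shL_thr : ∀ (L p : ℕ) (c : Bool) (v : List (Bool × Bool)), p ≤ L →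
    v.map Prod.fst = thr L p →
    (shL c v ↔ c = decide (0 < p) ∧ v.map Prod.snd = thr L (p - 1))
  | 0, p, c, v, hp, h => by
    have h1 : v = [] := List.map_eq_nil_iff.1 h
    subst h1
    have h2 : p = 0 := by omega
    subst h2
    have e : shL c [] ↔ c = false := Iff.rfl
    rw [e]
    simp [thr]
  | L + 1, p, c, [], hp, h => by
    simp [thr] at h
  | L + 1, p, c, a :: v, hp, h => by
    rw [thr, List.map_cons, List.cons.injEq] at h
    obtain ⟨h1, h2⟩ := h
    have e : shL c (a :: v) ↔ a.1 = c ∧ shL a.2 v := Iff.rfl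
    have h3 := shL_thr L (p - 1) a.2 v (by omega) h2
    rw [e, h3, h1, thr, List.map_cons, List.cons.injEq]
    constructor
    · rintro ⟨a1, a2, a3⟩
      exact ⟨a1.symm, a2, a3⟩
    · rintro ⟨a1, a2, a3⟩
      exact ⟨a1.symm, a2, a3⟩

theorem mvR_thr {L p : ℕ} (d : Dir) {v : List (Bool × Bool)} (hp : p ≤ L)
    (h : v.map Prod.fst = thr L p) : mvR d v ↔ v.map Prod.snd = thr L (move L p d) := by
  cases d with
  | L =>
    have e : mvR Dir.L v ↔ shL true v ∨ shL false v := Iff.rfl
    rw [e, shL_thr L p true v hp h, shL_thr L p false v hp h]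
    change _ ↔ v.map Prod.snd = thr L (p - 1)
    rcases Nat.eq_zero_or_pos p with h3 | h3
    · subst h3
      simp
    · simp [h3]
  | S =>
    change (∀ a ∈ v, a.1 = a.2) ↔ v.map Prod.snd = thr L p
    rw [← h, List.map_inj_left]
    exact forall₂_congr fun a _ => eq_comm
  | R =>
    change shR true v ↔ v.map Prod.snd = thr L (min (p + 1) L)
    rw [thr_min]
    exact shR_thr L p v h

/-! ### Memory words with marks -/

section

variable {r : ℕ} {W : Type}

/-- the memory word with the marks -/
def encM : (Fin r → ℕ) → List W → List (W × (Fin r → Bool))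
  | _, [] => []
  | p, w :: u => (w, fun i => decide (0 < p i)) :: encM (fun i => p i - 1) u

theorem encM_fst : ∀ (p : Fin r → ℕ) (u : List W), (encM p u).map Prod.fst = u
  | _, [] => rfl
  | p, w :: u => by
    rw [encM, List.map_cons, encM_fst _ u]

theorem encM_mark (i : Fin r) : ∀ (p : Fin r → ℕ) (u : List W),
    (encM p u).map (fun a => a.2 i) = thr u.length (p i)
  | _, [] => rfl
  | p, w :: u => by
    rw [encM, List.map_cons, encM_mark i _ u, List.length_cons, thr]

theorem encM_length (p : Fin r → ℕ) (u : List W) : (encM p u).length = u.length := by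
  rw [← List.length_map (f := Prod.fst), encM_fst]

theorem eq_encM : ∀ (m : List (W × (Fin r → Bool))) (p : Fin r → ℕ),
    (∀ i, m.map (fun a => a.2 i) = thr m.length (p i)) → m = encM p (m.map Prod.fst)
  | [], _, _ => rfl
  | a :: m, p, h => by
    have h1 : ∀ i, a.2 i = decide (0 < p i) ∧ m.map (fun a => a.2 i) = thr m.length (p i - 1) := by
      intro i
      have h2 := h i
      rw [List.map_cons, List.length_cons, thr, List.cons.injEq] at h2
      exact h2
    have h3 := eq_encM m (fun i => p i - 1) fun i => (h1 i).2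
    rw [List.map_cons, encM, ← h3]
    congr 1
    exact Prod.ext rfl (funext fun i => (h1 i).1)

theorem encM_replicate (w : W) : ∀ L : ℕ,
    encM (fun _ : Fin r => 0) (List.replicate L w) = List.replicate L (w, fun _ => false)
  | 0 => rfl
  | L + 1 => by
    rw [List.replicate_succ, List.replicate_succ, encM]
    have h1 := encM_replicate w L
    exact congrArg₂ List.cons (Prod.ext rfl (funext fun _ => rfl)) h1

end

/-! ### The link system without sensing -/

section

variable {Λ : Type} [Finite Λ] {r : ℕ} {W : Type} (T : LSysS Λ r W)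

/-- the relation between the memory words with marks -/
def rl (h : T.H × ((Fin r → Sym Λ) × (Fin r → Fin r → Bool)))
    (v : List ((W × (Fin r → Bool)) × (W × (Fin r → Bool)))) : Prop :=
  T.rel h.1 (v.map (Prod.map Prod.fst Prod.fst)) ∧
    (∀ ij : Fin r × Fin r, (h.2.2 ij.1 ij.2 = true ↔
      ∀ a ∈ v.map Prod.fst, a.2 ij.1 = a.2 ij.2)) ∧
    ∀ i, mvR (T.mv h.1 i) (v.map (Prod.map (fun a => a.2 i) (fun a => a.2 i)))

omit [Finite Λ] in
theorem rec_rl (h : T.H × ((Fin r → Sym Λ) × (Fin r → Fin r → Bool))) : Rec (rl T h) := by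
  refine MAUC.rec_and (MAUC.rec_map _ (T.hrel h.1)) (MAUC.rec_and (rec_all fun ij => ?_)
    (rec_all fun i => MAUC.rec_map _ (rec_mvR _)))
  exact rec_iff _ (MAUC.rec_map Prod.fst (rec_mem fun a : W × (Fin r → Bool) =>
    a.2 ij.1 = a.2 ij.2))

theorem finSym : Finite (Sym Λ) :=
  Finite.of_surjective
    (fun i : Option (Option Λ) => match i with
      | none => Sym.left
      | some none => Sym.right
      | some (some a) => Sym.letter a)
    (by rintro (_ | a | _); exacts [⟨none, rfl⟩, ⟨some (some a), rfl⟩, ⟨some none, rfl⟩])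

/-- the link system without sensing -/
def sys : LSys Λ r (W × (Fin r → Bool)) where
  N := T.N
  H := T.H × ((Fin r → Sym Λ) × (Fin r → Fin r → Bool))
  finN := T.finN
  finH := by
    have := T.finH
    have h4 : Finite (Sym Λ) := finSym
    infer_instance
  start := T.start
  accept := T.accept
  blank := (T.blank, fun _ => false)
  src := fun h => T.src h.1
  tgt := fun h => T.tgt h.1
  rd := fun h => {s | s = h.2.1 ∧ h.2 ∈ T.rd h.1}
  mv := fun h => T.mv h.1
  rel := rl T
  hrel := rec_rl T

/-- the configuration with marks -/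
def en (c : T.N × (Fin r → ℕ) × List W) : T.N × (Fin r → ℕ) × List (W × (Fin r → Bool)) :=
  (c.1, c.2.1, encM c.2.1 c.2.2)

/-- valid configurations -/
def Val (x : List Λ) (c : T.N × (Fin r → ℕ) × List W) : Prop :=
  c.2.2.length = x.length + 1 ∧ ∀ i, c.2.1 i ≤ x.length + 1

theorem move_le (N p : ℕ) (hp : p ≤ N) (d : Dir) : move N p d ≤ N := by
  cases d with
  | L => exact (Nat.sub_le _ _).trans hp
  | S => exact hp
  | R => exact min_le_right _ _

omit [Finite Λ] in
theorem val_link {x : List Λ} {c c' : T.N × (Fin r → ℕ) × List W} (hc : Val T x c)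
    (h : T.Link x c c') : Val T x c' := by
  obtain ⟨h, _, _, _, h3, h4, _⟩ := h
  refine ⟨h4.trans hc.1, fun i => ?_⟩
  rw [h3]
  exact move_le _ _ (hc.2 i) _

omit [Finite Λ] in
/-- the relation in terms of configurations -/
theorem rl_iff {x : List Λ} {c : T.N × (Fin r → ℕ) × List W} (hc : Val T x c)
    (h : T.H × ((Fin r → Sym Λ) × (Fin r → Fin r → Bool)))
    (m : List (W × (Fin r → Bool))) (hm : m.length = x.length + 1) :
    rl T h ((encM c.2.1 c.2.2).zip m) ↔
      T.rel h.1 (c.2.2.zip (m.map Prod.fst)) ∧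
        h.2.2 = (fun i j => decide (c.2.1 i = c.2.1 j)) ∧
        m = encM (fun i => move (x.length + 1) (c.2.1 i) (T.mv h.1 i)) (m.map Prod.fst) := by
  obtain ⟨hl, hp⟩ := hc
  have hle : (encM c.2.1 c.2.2).length = m.length := by rw [encM_length, hl, hm]
  have e1 : ((encM c.2.1 c.2.2).zip m).map (Prod.map Prod.fst Prod.fst)
      = c.2.2.zip (m.map Prod.fst) := by
    rw [← List.zip_map, encM_fst]
  have e2 : ((encM c.2.1 c.2.2).zip m).map Prod.fst = encM c.2.1 c.2.2 :=
    List.map_fst_zip hle.le
  have e3 : ∀ i, (((encM c.2.1 c.2.2).zip m).map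
      (Prod.map (fun a => a.2 i) (fun a => a.2 i))).map Prod.fst
        = thr (x.length + 1) (c.2.1 i) := by
    intro i
    rw [← List.zip_map, List.map_fst_zip (by rw [List.length_map, List.length_map, hle]),
      encM_mark, hl]
  have e4 : ∀ i, (((encM c.2.1 c.2.2).zip m).map
      (Prod.map (fun a => a.2 i) (fun a => a.2 i))).map Prod.snd = m.map (fun a => a.2 i) := by
    intro i
    rw [← List.zip_map, List.map_snd_zip (by rw [List.length_map, List.length_map, hle])]
  unfold rl
  rw [e1, e2]
  refine and_congr_right fun _ => and_congr ?_ ?_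
  · have e5 : ∀ i j : Fin r, (∀ a ∈ encM c.2.1 c.2.2, a.2 i = a.2 j) ↔ c.2.1 i = c.2.1 j := by
      intro i j
      rw [← List.map_inj_left, encM_mark, encM_mark, hl]
      exact ⟨thr_inj _ _ _ (hp i) (hp j), fun h => by rw [h]⟩
    constructor
    · intro h1
      funext i j
      have h2 := h1 (i, j)
      rw [e5] at h2
      rw [Bool.eq_iff_iff, decide_eq_true_iff]
      exact h2
    · rintro h1 ⟨i, j⟩
      rw [e5, h1, decide_eq_true_iff]
  · constructor
    · intro h1
      refine eq_encM m _ fun i => ?_
      have h2 := (mvR_thr _ (hp i) (e3 i)).1 (h1 i)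
      rw [e4] at h2
      rw [h2, hm]
    · intro h1 i
      rw [mvR_thr _ (hp i) (e3 i), e4]
      have h2 := encM_mark i (fun i => move (x.length + 1) (c.2.1 i) (T.mv h.1 i))
        (m.map Prod.fst)
      rw [← h1, List.length_map, hm] at h2
      exact h2

theorem link_iff {x : List Λ} {c : T.N × (Fin r → ℕ) × List W} (hc : Val T x c)
    (d : T.N × (Fin r → ℕ) × List (W × (Fin r → Bool))) :
    (sys T).Link x (en T c) d ↔ ∃ c', d = en T c' ∧ T.Link x c c' := by
  constructor
  · rintro ⟨h, h1, h2, h3, h4, h5, h6⟩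
    obtain ⟨h7, h8⟩ := h3
    have h5' : d.2.2.length = x.length + 1 := by
      have h9 : d.2.2.length = (encM c.2.1 c.2.2).length := h5
      rw [h9, encM_length, hc.1]
    obtain ⟨h9, h10, h11⟩ := (rl_iff T hc h d.2.2 h5').1 h6
    refine ⟨(d.1, d.2.1, d.2.2.map Prod.fst), ?_, h.1, h1, h2, ?_, h4, ?_, h9⟩
    · refine Prod.ext rfl (Prod.ext rfl ?_)
      have h12 : d.2.1 = fun i => move (x.length + 1) (c.2.1 i) (T.mv h.1 i) := h4
      change d.2.2 = encM d.2.1 (d.2.2.map Prod.fst)
      rw [h12]
      exact h11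
    · have h12 : h.2 = ((fun i => tape x (c.2.1 i)), fun i j => decide (c.2.1 i = c.2.1 j)) :=
        Prod.ext h7.symm h10
      rw [← h12]
      exact h8
    · change (d.2.2.map Prod.fst).length = c.2.2.length
      rw [List.length_map, h5', hc.1]
  · rintro ⟨c', rfl, hlink⟩
    have hc' := val_link T hc hlink
    obtain ⟨h, h1, h2, h3, h4, h5, h6⟩ := hlink
    refine ⟨(h, ((fun i => tape x (c.2.1 i)), fun i j => decide (c.2.1 i = c.2.1 j))), h1, h2,
      ⟨rfl, h3⟩, h4, ?_, ?_⟩
    · change (encM c'.2.1 c'.2.2).length = (encM c.2.1 c.2.2).length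
      rw [encM_length, encM_length]
      exact h5
    · have h7 : (encM c'.2.1 c'.2.2).length = x.length + 1 := by rw [encM_length, hc'.1]
      refine (rl_iff T hc _ (encM c'.2.1 c'.2.2) h7).2 ⟨?_, rfl, ?_⟩
      · rw [encM_fst]
        exact h6
      · rw [encM_fst]
        change encM c'.2.1 c'.2.2
          = encM (fun i => move (x.length + 1) (c.2.1 i) (T.mv h i)) c'.2.2
        rw [← h4]

theorem lang_eq : (sys T).lang = T.lang := by
  ext x
  have hinit : ((sys T).start, (fun _ => 0 : Fin r → ℕ), List.replicate (x.length + 1) (sys T).blank)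
      = en T (T.start, fun _ => 0, List.replicate (x.length + 1) T.blank) := by
    refine Prod.ext rfl (Prod.ext rfl ?_)
    exact (encM_replicate T.blank (x.length + 1)).symm
  have hval : Val T x (T.start, fun _ => 0, List.replicate (x.length + 1) T.blank) :=
    ⟨List.length_replicate, fun i => Nat.zero_le _⟩
  constructor
  · rintro ⟨d, hd, hacc⟩
    rw [hinit] at hd
    have key : ∃ c, d = en T c ∧ ReflTransGen (T.Link x)
        (T.start, fun _ => 0, List.replicate (x.length + 1) T.blank) c ∧ Val T x c := by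
      clear hacc
      induction hd with
      | refl => exact ⟨_, rfl, ReflTransGen.refl, hval⟩
      | tail _ hstep ih =>
        obtain ⟨c, hdc, hrc, hv⟩ := ih
        subst hdc
        obtain ⟨c', hd', hl⟩ := (link_iff T hv _).1 hstep
        exact ⟨c', hd', hrc.tail hl, val_link T hv hl⟩
    obtain ⟨c, hdc, hrc, _⟩ := key
    refine ⟨c, hrc, ?_⟩
    rw [hdc] at hacc
    exact hacc
  · rintro ⟨c, hc, hacc⟩
    have key : ReflTransGen ((sys T).Link x)
        (en T (T.start, fun _ => 0, List.replicate (x.length + 1) T.blank)) (en T c) ∧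
        Val T x c := by
      clear hacc
      induction hc with
      | refl => exact ⟨ReflTransGen.refl, hval⟩
      | tail _ hstep ih =>
        exact ⟨ih.1.tail ((link_iff T ih.2 _).2 ⟨_, rfl, hstep⟩), val_link T ih.2 hstep⟩
    refine ⟨en T c, ?_, hacc⟩
    rw [hinit]
    exact key.1

end

end MLSYS

/-- LSYS: link systems with sensing reading heads are machines. -/
theorem t_LSYS : LSYS_Stmt := by
  intro Λ _ r S W _ T hS
  have h1 : Nat.card (W × (Fin r → Bool)) ≤ S := by
    rw [Nat.card_prod, Nat.card_fun, Nat.card_eq_fintype_card (α := Bool), Nat.card_fin,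
      Fintype.card_bool, mul_comm]
    exact hS
  obtain ⟨M, hM⟩ := t_LSY Λ r S (W × (Fin r → Bool)) (MLSYS.sys T) h1
  exact ⟨M, hM.trans (MLSYS.lang_eq T)⟩

end Pool.Agent.NPH
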