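import Pool.Agent.NPH.StS

/-!
# The relations of the link system are recognisable, sensing heads (module LWRS)
-/

set_option autoImplicit false

namespace Pool.Agent.NPH

open Pool.Agent.Heads Relation

namespace LWRS

/-- runs along a map of letters -/
lemma runs_map {Q A B : Type} (δ : Q → B → Set Q) (g : A → B) :
    ∀ (v : List A) (q q' : Q), Runs δ q (v.map g) q' ↔ Runs (fun q a => δ q (g a)) q v q'
  | [], _, _ => Iff.rfl
  | a :: u, q, q' => by
    simp only [List.map_cons, Runs, runs_map δ g u]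

/-- recognisable sets are transported by maps of letters -/
lemma rec_map {A B : Type} (g : A → B) {P : List B → Prop} (h : Rec P) :
    Rec (fun v : List A => P (v.map g)) := by
  obtain ⟨Q, hQ, s, F, δ, h⟩ := h
  refine ⟨Q, hQ, s, F, fun q a => δ q (g a), fun v => ?_⟩
  simp only [h, runs_map]

lemma rec_congr {A : Type} {P P' : List A → Prop} (h : ∀ v, P v ↔ P' v) (hP : Rec P) : Rec P' := by
  have h1 : P = P' := funext fun v => propext (h v)
  rwa [← h1]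

lemma rec_false {A : Type} : Rec (fun _ : List A => False) :=
  ⟨Unit, inferInstance, (), ∅, fun _ _ => ∅, fun v => by simp⟩

lemma au_congr {β : ℕ} {ι : Type} {P P' : ℕ → (ι → ℕ) → Prop} (h : ∀ L X, P L X ↔ P' L X)
    (hP : Au β ι P) : Au β ι P' := rec_congr (fun v => h v.length (dval β v)) hP

/-- conjunction with a constant -/
lemma au_const {β : ℕ} {ι : Type} (c : Prop) {P : ℕ → (ι → ℕ) → Prop} (hP : Au β ι P) :
    Au β ι (fun L X => c ∧ P L X) := by
  by_cases hc : c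
  · exact au_congr (fun L X => ⟨fun h => ⟨hc, h⟩, fun h => h.2⟩) hP
  · exact rec_congr (fun v => ⟨fun h => h.elim, fun h => hc h.1⟩) rec_false

/-- one variable -/
lemma au_one (h1 : AUL_Stmt) (β : ℕ) (hβ : 2 ≤ β) (ι : Type) [Fintype ι] (i : ι) (g h : ℤ) :
    Au β ι (fun L X => (X i : ℤ) + g = h * (β : ℤ) ^ L) := by
  classical
  refine au_congr (fun L X => ?_) (h1 β hβ ι (fun j => if j = i then 1 else 0) g h)
  simp

/-- two variables -/
lemma au_two (h1 : AUL_Stmt) (β : ℕ) (hβ : 2 ≤ β) (ι : Type) [Fintype ι] (i j : ι) (g : ℤ) :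
    Au β ι (fun _ X => (X i : ℤ) - (X j : ℤ) + g = 0) := by
  classical
  refine au_congr (fun L X => ?_) (h1 β hβ ι
    (fun t => (if t = i then 1 else 0) - (if t = j then 1 else 0)) g 0)
  simp [sub_mul, Finset.sum_sub_distrib]

/-- the condition on the hidden number -/
def side {D : ℕ} (fl : Fin (D + 1) → Fin 3) (i₀ : Fin (D + 1)) (kd : Fin 4) (j₀ : Fin (D + 1))
    (ds β L : ℕ) (X : Fin (D + 1) → ℕ) : Prop :=
  (fl i₀ ≠ 0 ∧ X i₀ = 0) ∨ (fl i₀ = 0 ∧ kd = 0 ∧ X i₀ = ds) ∨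
    (fl i₀ = 0 ∧ kd = 1 ∧ X i₀ + ds = β ^ L) ∨
    (fl i₀ = 0 ∧ fl j₀ = 0 ∧ j₀ ≠ i₀ ∧ kd = 2 ∧ X i₀ = X j₀ + ds) ∨
    (fl i₀ = 0 ∧ fl j₀ = 0 ∧ j₀ ≠ i₀ ∧ kd = 3 ∧ X i₀ + ds = X j₀)

/-- the condition on the hidden number is recognisable -/
lemma au_side (h1 : AUL_Stmt) (h2 : AUC_Stmt) (β : ℕ) (hβ : 2 ≤ β) {D : ℕ}
    (fl : Fin (D + 1) → Fin 3) (i₀ : Fin (D + 1)) (kd : Fin 4) (j₀ : Fin (D + 1)) (ds : ℕ) :
    Au β (Fin (D + 1)) (fun L X => side fl i₀ kd j₀ ds β L X) := by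
  obtain ⟨_, hor, _, _, _, _⟩ := h2 β hβ (Fin (D + 1))
  have e1 : Au β (Fin (D + 1)) (fun _ X => X i₀ = 0) :=
    au_congr (fun L X => by constructor <;> intro h <;> omega) (au_one h1 β hβ _ i₀ 0 0)
  have e2 : Au β (Fin (D + 1)) (fun _ X => X i₀ = ds) :=
    au_congr (fun L X => by constructor <;> intro h <;> omega)
      (au_one h1 β hβ _ i₀ (-(ds : ℤ)) 0)
  have e3 : Au β (Fin (D + 1)) (fun L X => X i₀ + ds = β ^ L) :=
    au_congr (fun L X => by rw [one_mul]; exact_mod_cast Iff.rfl)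
      (au_one h1 β hβ _ i₀ (ds : ℤ) 1)
  have e4 : Au β (Fin (D + 1)) (fun _ X => X i₀ = X j₀ + ds) :=
    au_congr (fun L X => by constructor <;> intro h <;> omega)
      (au_two h1 β hβ _ i₀ j₀ (-(ds : ℤ)))
  have e5 : Au β (Fin (D + 1)) (fun _ X => X i₀ + ds = X j₀) :=
    au_congr (fun L X => by constructor <;> intro h <;> omega)
      (au_two h1 β hβ _ i₀ j₀ (ds : ℤ))
  exact hor _ _ (au_const _ e1) (hor _ _ (au_const _ (au_const _ e2))
    (hor _ _ (au_const _ (au_const _ e3))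
      (hor _ _ (au_const _ (au_const _ (au_const _ (au_const _ e4))))
        (au_const _ (au_const _ (au_const _ (au_const _ e5)))))))

/-- the numbers of a word of pairs, first component -/
lemma dval_inl {D β : ℕ} (v : List ((Fin D → Fin β) × (Fin D → Fin β))) (t : Fin D) :
    dval β (v.map fun p => Sum.elim p.1 p.2) (Sum.inl t) = dval β (v.map Prod.fst) t := by
  simp only [dval, List.map_map]
  rfl

/-- the numbers of a word of pairs, second component -/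
lemma dval_inr {D β : ℕ} (v : List ((Fin D → Fin β) × (Fin D → Fin β))) (t : Fin D) :
    dval β (v.map fun p => Sum.elim p.1 p.2) (Sum.inr t) = dval β (v.map Prod.snd) t := by
  simp only [dval, List.map_map]
  rfl

/-- hiding the two numbers that are not in the memory -/
lemma rec_join0 (h2 : AUC_Stmt) (β : ℕ) (hβ : 2 ≤ β) {D : ℕ} (i₀ i₁ : Fin (D + 1))
    (P : ℕ → (Fin (D + 1) ⊕ Fin (D + 1) → ℕ) → Prop) (hP : Au β (Fin (D + 1) ⊕ Fin (D + 1)) P) :
    Rec (fun v : List ((Fin D → Fin β) × (Fin D → Fin β)) =>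
      ∃ X X' : Fin (D + 1) → ℕ,
        ((∀ t : Fin D, X (i₀.succAbove t) = dval β (v.map Prod.fst) t) ∧ X i₀ < β ^ v.length) ∧
        ((∀ t : Fin D, X' (i₁.succAbove t) = dval β (v.map Prod.snd) t) ∧ X' i₁ < β ^ v.length) ∧
        P v.length (Sum.elim X X')) := by
  let f : Fin (D + 1) ⊕ Fin (D + 1) → (Fin D ⊕ Fin D) ⊕ Bool :=
    Sum.elim (i₀.insertNth (Sum.inr false) (fun t => Sum.inl (Sum.inl t)))
      (i₁.insertNth (Sum.inr true) (fun t => Sum.inl (Sum.inr t)))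
  obtain ⟨_, _, _, _, hmap, _⟩ := h2 β hβ (Fin (D + 1) ⊕ Fin (D + 1))
  obtain ⟨_, _, _, _, _, hex⟩ := h2 β hβ (Fin D ⊕ Fin D)
  have hQ := hex Bool _ (hmap _ f P hP)
  refine rec_congr (fun v => ?_) (rec_map (fun p : (Fin D → Fin β) × (Fin D → Fin β) =>
    (Sum.elim p.1 p.2 : Fin D ⊕ Fin D → Fin β)) hQ)
  simp only [List.length_map]
  constructor
  · rintro ⟨w, hw, hP'⟩
    have e1 : (fun i => Sum.elim (dval β (v.map fun p => Sum.elim p.1 p.2)) w (f (Sum.inl i)))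
        = i₀.insertNth (w false) (dval β (v.map Prod.fst)) := by
      funext i
      rcases Fin.eq_self_or_eq_succAbove i₀ i with rfl | ⟨t, rfl⟩
      · simp [f]
      · simp [f, dval_inl]
    have e2 : (fun i => Sum.elim (dval β (v.map fun p => Sum.elim p.1 p.2)) w (f (Sum.inr i)))
        = i₁.insertNth (w true) (dval β (v.map Prod.snd)) := by
      funext i
      rcases Fin.eq_self_or_eq_succAbove i₁ i with rfl | ⟨t, rfl⟩
      · simp [f]
      · simp [f, dval_inr]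
    refine ⟨i₀.insertNth (w false) (dval β (v.map Prod.fst)),
      i₁.insertNth (w true) (dval β (v.map Prod.snd)), ⟨fun t => ?_, ?_⟩,
      ⟨fun t => ?_, ?_⟩, ?_⟩
    · rw [Fin.insertNth_apply_succAbove]
    · rw [Fin.insertNth_apply_same]
      exact hw false
    · rw [Fin.insertNth_apply_succAbove]
    · rw [Fin.insertNth_apply_same]
      exact hw true
    · rw [← e1, ← e2]
      have e3 : Sum.elim (fun i => Sum.elim (dval β (v.map fun p => Sum.elim p.1 p.2)) w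
            (f (Sum.inl i)))
          (fun i => Sum.elim (dval β (v.map fun p => Sum.elim p.1 p.2)) w (f (Sum.inr i)))
          = (Sum.elim (dval β (v.map fun p => Sum.elim p.1 p.2)) w) ∘ f := by
        funext i
        cases i <;> rfl
      rw [e3]
      exact hP'
  · rintro ⟨X, X', ⟨ha, hb⟩, ⟨ha', hb'⟩, hP'⟩
    refine ⟨fun b => if b then X' i₁ else X i₀, ?_, ?_⟩
    · rintro (_ | _)
      · simpa using hb
      · simpa using hb'
    · have e3 : (Sum.elim (dval β (v.map fun p => Sum.elim p.1 p.2))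
          (fun b => if b then X' i₁ else X i₀)) ∘ f = Sum.elim X X' := by
        funext i
        rcases i with i | i
        · rcases Fin.eq_self_or_eq_succAbove i₀ i with rfl | ⟨t, rfl⟩
          · simp [f]
          · simp [f, dval_inl, ha]
        · rcases Fin.eq_self_or_eq_succAbove i₁ i with rfl | ⟨t, rfl⟩
          · simp [f]
          · simp [f, dval_inr, ha']
      rw [e3]
      exact hP'

/-- **the main lemma** -/
lemma rec_join (h1 : AUL_Stmt) (h2 : AUC_Stmt) (β : ℕ) (hβ : 2 ≤ β) {Λ : Type} {D : ℕ}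
    (A : SFA (Option (Sym Λ)) (D + 1)) (ν ν' : NdS A)
    (P : ℕ → (Fin (D + 1) ⊕ Fin (D + 1) → ℕ) → Prop) (hP : Au β (Fin (D + 1) ⊕ Fin (D + 1)) P) :
    Rec (fun v : List ((Fin D → Fin β) × (Fin D → Fin β)) =>
      ∃ X X' : Fin (D + 1) → ℕ, DecS A β ν (v.map Prod.fst) X ∧ DecS A β ν' (v.map Prod.snd) X' ∧
        P v.length (Sum.elim X X')) := by
  obtain ⟨hand, _, _, _, _, _⟩ := h2 β hβ (Fin (D + 1) ⊕ Fin (D + 1))
  obtain ⟨_, _, _, _, hmap, _⟩ := h2 β hβ (Fin (D + 1))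
  have hs := hmap (Fin (D + 1) ⊕ Fin (D + 1)) Sum.inl _
    (au_side h1 h2 β hβ ν.2.1 ν.2.2.1 ν.2.2.2.1 ν.2.2.2.2.1 (ν.2.2.2.2.2 : ℕ))
  have hs' := hmap (Fin (D + 1) ⊕ Fin (D + 1)) Sum.inr _
    (au_side h1 h2 β hβ ν'.2.1 ν'.2.2.1 ν'.2.2.2.1 ν'.2.2.2.2.1 (ν'.2.2.2.2.2 : ℕ))
  refine rec_congr (fun v => ?_) (rec_join0 h2 β hβ ν.2.2.1 ν'.2.2.1 _
    (hand _ _ hs (hand _ _ hs' hP)))
  constructor
  · rintro ⟨X, X', ⟨ha, hb⟩, ⟨ha', hb'⟩, hc, hc', hP'⟩
    refine ⟨X, X', ⟨ha, ?_, ?_⟩, ⟨ha', ?_, ?_⟩, hP'⟩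
    · rw [List.length_map]
      exact hb
    · rw [List.length_map]
      exact hc
    · rw [List.length_map]
      exact hb'
    · rw [List.length_map]
      exact hc'
  · rintro ⟨X, X', ⟨ha, hb, hc⟩, ⟨ha', hb', hc'⟩, hP'⟩
    rw [List.length_map] at hb hc hb' hc'
    exact ⟨X, X', ⟨ha, hb⟩, ⟨ha', hb'⟩, hc, hc', hP'⟩

end LWRS

open LWRS in
/-- LWRS: the relations of the link system are recognisable. -/
theorem t_LWRS : LWRS_Stmt := by
  intro h1 h2 h3 hPC hST Λ _ D β hβ A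
  refine ⟨fun ν ν' s z m => ?_, fun m₀ ν ν' => ?_⟩
  · exact rec_join h1 h2 β hβ A ν ν' _ (hST β hβ Λ (D + 1) A ν.1 ν'.1 ν.2.1 ν'.2.1 s z m)
  · by_cases h : (∀ i, ν.2.1 i = 0) ∧ (∀ i, ν'.2.1 i = 0)
    · have := A.finQ
      have hU : Unit1 (BlS A) := by
        rintro q q' d ⟨t, _, _, ht⟩ i
        rw [ht i]
        cases t.2 i <;> simp [dz]
      have hO := (h3 h2 β hβ (Fin (D + 1) ⊕ Fin (D + 1)) (Fin (D + 1) → Fin (D + 1) → Prop) _
        (fun o => au_const (∀ i j, i ≠ j → o i j ∨ o j i)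
          (hPC β hβ A.Q (D + 1) (BlS A) hU (Nat.card A.Q) m₀ o ν.1 ν'.1))).2
      refine rec_congr (fun v => ?_) (rec_join h1 h2 β hβ A ν ν' _ hO)
      simp only [RPieceS, Sum.elim_inl, Sum.elim_inr]
      exact ⟨fun h' => ⟨h.1, h.2, h'⟩, fun h' => h'.2.2⟩
    · exact rec_congr (fun v => ⟨fun h' => h'.elim, fun h' => h ⟨h'.1, h'.2.1⟩⟩) rec_false

end Pool.Agent.NPH
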