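import Pool.Agent.NPH.StS

/-!
# SNDS: pieces are walks inside (sensing heads)
-/

set_option autoImplicit false

namespace Pool.Agent.NPH

open Pool.Agent.Heads Relation

namespace SNDS

variable {V : Type} {D : ℕ} {E : V → V → (Fin D → ℤ) → Prop} {o : Fin D → Fin D → Prop}

lemma sbx_mono {lo lo' M : ℕ} (h : lo' ≤ lo) {X : Fin D → ℤ} (hX : SBx lo M o X) :
    SBx lo' M o X := by
  refine ⟨fun i => ?_, fun i j hij => ?_⟩
  · obtain ⟨h1, h2⟩ := hX.1 i
    constructor <;> omega
  · have h1 := hX.2 i j hij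
    omega

lemma sbx_add {lo M : ℕ} {X d : Fin D → ℤ} (hd : ∀ i, |d i| ≤ 1) (hX : SBx (lo + 2) M o X) :
    SBx lo M o (X + d) := by
  refine ⟨fun i => ?_, fun i j hij => ?_⟩
  · obtain ⟨h1, h2⟩ := hX.1 i
    obtain ⟨h3, h4⟩ := abs_le.1 (hd i)
    rw [Pi.add_apply]
    push_cast at h1 h2
    constructor <;> omega
  · have h1 := hX.2 i j hij
    obtain ⟨h3, h4⟩ := abs_le.1 (hd i)
    obtain ⟨h5, h6⟩ := abs_le.1 (hd j)
    rw [Pi.add_apply, Pi.add_apply]
    push_cast at h1
    omega

/-- a walk of `l` edges from a point of the inner box -/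
lemma walk (hE : Unit1 E) (M : ℕ) {l : ℕ} {v v' : V} {c : Fin D → ℤ} (h : Wk E l v v' c) :
    ∀ X : Fin D → ℤ, SBx (2 * l + 1) M o X →
      ReflTransGen (fun a b => ItE E a b ∧ SBx 1 M o a.2 ∧ SBx 1 M o b.2) (v, X) (v', X + c) := by
  induction h with
  | nil v =>
    intro X _
    rw [add_zero]
  | @cons l v v' v'' d c he _ ih =>
    intro X hX
    have h1 : SBx (2 * l + 1) M o (X + d) := sbx_add (hE _ _ _ he) (sbx_mono (by omega) hX)
    have h2 := ih (X + d) h1
    rw [add_assoc] at h2
    refine ReflTransGen.head ⟨?_, ?_, ?_⟩ h2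
    · show E v v' (X + d - X)
      rw [add_sub_cancel_left]
      exact he
    · exact sbx_mono (by omega) hX
    · exact sbx_mono (by omega) h1

/-- the box is convex -/
lemma convex {lo M n t : ℕ} {X d : Fin D → ℤ} (ht : t ≤ n) (h0 : SBx lo M o X)
    (h1 : SBx lo M o (X + n • d)) : SBx lo M o (X + t • d) := by
  have htn : (t : ℤ) ≤ n := by exact_mod_cast ht
  have ht0 : (0 : ℤ) ≤ t := Int.natCast_nonneg t
  refine ⟨fun i => ?_, fun i j hij => ?_⟩
  · obtain ⟨a1, a2⟩ := h0.1 i
    obtain ⟨b1, b2⟩ := h1.1 i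
    have e1 : (X + n • d) i = X i + n * d i := by simp
    have e2 : (X + t • d) i = X i + t * d i := by simp
    rw [e1] at b1 b2
    rw [e2]
    rcases le_total 0 (d i) with hd | hd
    · have c1 : 0 ≤ (t : ℤ) * d i := mul_nonneg ht0 hd
      have c2 : (t : ℤ) * d i ≤ n * d i := mul_le_mul_of_nonneg_right htn hd
      constructor <;> omega
    · have c1 : (t : ℤ) * d i ≤ 0 := mul_nonpos_of_nonneg_of_nonpos ht0 hd
      have c2 : (n : ℤ) * d i ≤ t * d i := mul_le_mul_of_nonpos_right htn hd
      constructor <;> omega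
  · have a1 := h0.2 i j hij
    have b1 := h1.2 i j hij
    have e1 : ∀ (m : ℕ) (i : Fin D), (X + m • d) i = X i + m * d i := by
      intro m i
      simp
    rw [e1, e1] at b1
    rw [e1, e1]
    have f1 : (n : ℤ) * (d j - d i) = n * d j - n * d i := by ring
    have f2 : (t : ℤ) * (d j - d i) = t * d j - t * d i := by ring
    rcases le_total 0 (d j - d i) with hd | hd
    · have c1 : 0 ≤ (t : ℤ) * (d j - d i) := mul_nonneg ht0 hd
      omega
    · have c2 : (n : ℤ) * (d j - d i) ≤ t * (d j - d i) := mul_le_mul_of_nonpos_right htn hd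
      omega

/-- a power of a closed walk -/
lemma power (hE : Unit1 E) {N M l n : ℕ} (hl : l ≤ N) {v : V} {X d : Fin D → ℤ}
    (hw : Wk E l v v d) (h0 : SBx (2 * N + 1) M o X) (h1 : SBx (2 * N + 1) M o (X + n • d)) :
    ∀ t ≤ n, ReflTransGen (fun a b => ItE E a b ∧ SBx 1 M o a.2 ∧ SBx 1 M o b.2) (v, X)
      (v, X + t • d) := by
  intro t
  induction t with
  | zero =>
    intro _
    rw [zero_smul, add_zero]
  | succ t ih =>
    intro ht
    have h2 := ih (by omega)
    have h3 : SBx (2 * l + 1) M o (X + t • d) :=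
      sbx_mono (by omega) (convex (by omega) h0 h1)
    have h4 := walk hE M hw (X + t • d) h3
    have e : X + t • d + d = X + (t + 1) • d := by
      rw [succ_nsmul, add_assoc]
    rw [e] at h4
    exact h2.trans h4

end SNDS

theorem t_SNDS : SNDS_Stmt := by
  intro V D E hE N M m o c c' h
  obtain ⟨l, s, _, h0, hl, hbx, hst⟩ := h
  have key : ∀ t ≤ l,
      ReflTransGen (fun a b => ItE E a b ∧ SBx 1 M o a.2 ∧ SBx 1 M o b.2) c (s t) := by
    intro t
    induction t with
    | zero =>
      intro _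
      rw [h0]
    | succ t ih =>
      intro ht
      refine (ih (by omega)).trans ?_
      have b1 := hbx t (by omega)
      have b2 := hbx (t + 1) ht
      rcases hst t (by omega) with h1 | h1
      · exact ReflTransGen.single ⟨h1, SNDS.sbx_mono (by omega) b1, SNDS.sbx_mono (by omega) b2⟩
      · obtain ⟨e1, k, n, d, _, hk, hw, _, _, _, e2⟩ := h1
        rw [e2] at b2
        have h2 := SNDS.power hE hk hw b1 b2 n le_rfl
        have e3 : s (t + 1) = ((s t).1, (s t).2 + n • d) := Prod.ext e1 e2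
        rw [e3]
        exact h2
  have := key l le_rfl
  rwa [hl] at this

end Pool.Agent.NPH
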