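import Pool.Agent.NPH.StB

set_option autoImplicit false

namespace Pool.Agent.NPH

open Pool.Agent.Heads Relation

namespace STPx

/-- Linear forms. -/
structure Fm (ι : Type) where
  a : ι → ℤ
  g : ℤ
  h : ℤ

variable {ι : Type} [Fintype ι]

/-- The value of a form. -/
def Fm.ev (F : Fm ι) (M : ℤ) (X : ι → ℕ) : ℤ := ∑ i, F.a i * (X i : ℤ) + F.g + F.h * M

/-- Add a constant. -/
def Fm.add (F : Fm ι) (c : ℤ) : Fm ι := ⟨F.a, F.g + c, F.h⟩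

/-- `c + h M`. -/
def cst (c h : ℤ) : Fm ι := ⟨0, c, h⟩

lemma ev_add (F : Fm ι) (c M : ℤ) (X : ι → ℕ) : (F.add c).ev M X = F.ev M X + c := by
  unfold Fm.ev Fm.add
  ring

lemma ev_cst (c h M : ℤ) (X : ι → ℕ) : (cst c h : Fm ι).ev M X = c + h * M := by
  simp [Fm.ev, cst]

lemma au_eq (hL : AUL_Stmt) {β : ℕ} (hβ : 2 ≤ β) (F G : Fm ι) :
    Au β ι (fun L X => F.ev ((β : ℤ) ^ L) X = G.ev ((β : ℤ) ^ L) X) := by
  have h := hL β hβ ι (fun i => F.a i - G.a i) (F.g - G.g) (G.h - F.h)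
  have e : (fun (L : ℕ) (X : ι → ℕ) => ∑ i, (F.a i - G.a i) * (X i : ℤ) + (F.g - G.g) =
      (G.h - F.h) * (β : ℤ) ^ L) =
      (fun L X => F.ev ((β : ℤ) ^ L) X = G.ev ((β : ℤ) ^ L) X) := by
    funext L X
    apply propext
    simp only [Fm.ev, sub_mul, Finset.sum_sub_distrib]
    constructor <;> intro h <;> linarith
  rw [e] at h
  exact h

omit [Fintype ι] in
lemma dval_lt {β : ℕ} (hβ : 2 ≤ β) (v : List (ι → Fin β)) (i : ι) :
    dval β v i < β ^ v.length := by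
  unfold dval
  have h := Nat.ofDigits_lt_base_pow_length (b := β) (l := v.map fun d => (d i : ℕ)) (by omega)
    (by
      intro x hx
      rw [List.mem_map] at hx
      obtain ⟨d, _, rfl⟩ := hx
      exact (d i).2)
  rwa [List.length_map] at h

omit [Fintype ι] in
lemma au_congr {β : ℕ} (hβ : 2 ≤ β) {P P' : ℕ → (ι → ℕ) → Prop}
    (h : ∀ L X, (∀ i, X i < β ^ L) → (P' L X ↔ P L X)) (hP : Au β ι P) : Au β ι P' := by
  unfold Au at *
  have e : (fun v : List (ι → Fin β) => P' v.length (dval β v)) =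
      (fun v : List (ι → Fin β) => P v.length (dval β v)) := by
    funext v
    exact propext (h _ _ fun i => dval_lt hβ v i)
  rw [e]
  exact hP

omit [Fintype ι] in
lemma au_const (hC : AUC_Stmt) {β : ℕ} (hβ : 2 ≤ β) (c : Prop) : Au β ι (fun _ _ => c) := by
  obtain ⟨-, -, h3, h4, -, -⟩ := hC β hβ ι
  by_cases hc : c
  · have e : (fun (_ : ℕ) (_ : ι → ℕ) => c) = fun _ _ => True := by simp [hc]
    rw [e]
    exact h4
  · have e : (fun (_ : ℕ) (_ : ι → ℕ) => c) = fun _ _ => False := by simp [hc]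
    rw [e]
    exact h3

lemma au_mid (hL : AUL_Stmt) (hC : AUC_Stmt) {β : ℕ} (hβ : 2 ≤ β) (F : Fm ι) :
    Au β ι (fun L X => 1 ≤ F.ev ((β : ℤ) ^ L) X ∧ F.ev ((β : ℤ) ^ L) X + 2 ≤ (β : ℤ) ^ L) := by
  obtain ⟨-, -, -, -, -, h6⟩ := hC β hβ ι
  obtain ⟨h1, -, -, -, -, -⟩ := hC β hβ (ι ⊕ Fin 2)
  have a1 := au_eq (ι := ι ⊕ Fin 2) hL hβ ⟨Sum.elim F.a 0, F.g, F.h⟩
    ⟨Sum.elim 0 (Pi.single 0 1), 1, 0⟩
  have a2 := au_eq (ι := ι ⊕ Fin 2) hL hβ ⟨Sum.elim F.a (Pi.single 1 1), F.g + 2, F.h⟩ (cst 0 1)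
  have a3 := h6 (Fin 2) _ (h1 _ _ a1 a2)
  refine au_congr hβ (fun L X _ => ?_) a3
  have e1 : ∀ w : Fin 2 → ℕ, (⟨Sum.elim F.a 0, F.g, F.h⟩ : Fm (ι ⊕ Fin 2)).ev ((β : ℤ) ^ L)
      (Sum.elim X w) = F.ev ((β : ℤ) ^ L) X := by
    intro w
    simp [Fm.ev, Fintype.sum_sum_type]
  have e2 : ∀ w : Fin 2 → ℕ, (⟨Sum.elim 0 (Pi.single 0 1), 1, 0⟩ : Fm (ι ⊕ Fin 2)).ev ((β : ℤ) ^ L)
      (Sum.elim X w) = w 0 + 1 := by
    intro w
    simp [Fm.ev, Fintype.sum_sum_type, Fin.sum_univ_two]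
  have e3 : ∀ w : Fin 2 → ℕ, (⟨Sum.elim F.a (Pi.single 1 1), F.g + 2, F.h⟩ :
      Fm (ι ⊕ Fin 2)).ev ((β : ℤ) ^ L) (Sum.elim X w) = F.ev ((β : ℤ) ^ L) X + 2 + w 1 := by
    intro w
    simp [Fm.ev, Fintype.sum_sum_type, Fin.sum_univ_two]
    ring
  simp only [e1, e2, e3, ev_cst]
  constructor
  · rintro ⟨g1, g2⟩
    refine ⟨![(F.ev ((β : ℤ) ^ L) X - 1).toNat, ((β : ℤ) ^ L - 2 - F.ev ((β : ℤ) ^ L) X).toNat],
      ?_, ?_, ?_⟩
    · intro t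
      have g3 : ((β ^ L : ℕ) : ℤ) = (β : ℤ) ^ L := by push_cast; rfl
      fin_cases t
      · simp
        omega
      · simp
        omega
    · simp
      omega
    · simp
      omega
  · rintro ⟨w, -, g2, g3⟩
    omega

/-- The table. -/
lemma au_tab (hL : AUL_Stmt) (hC : AUC_Stmt) {β : ℕ} (hβ : 2 ≤ β) (F F' R0 R1 R2 R3 R4 : Fm ι)
    (C0 C1 C2 C3 C4 : Prop) :
    Au β ι (fun L X =>
      (F.ev ((β : ℤ) ^ L) X = (cst (-1) 0 : Fm ι).ev ((β : ℤ) ^ L) X ∧ (C0 ∧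
        F'.ev ((β : ℤ) ^ L) X = R0.ev ((β : ℤ) ^ L) X)) ∨
      ((F.ev ((β : ℤ) ^ L) X = (cst 0 0 : Fm ι).ev ((β : ℤ) ^ L) X ∧ (C1 ∧
        F'.ev ((β : ℤ) ^ L) X = R1.ev ((β : ℤ) ^ L) X)) ∨
      (((1 ≤ F.ev ((β : ℤ) ^ L) X ∧ F.ev ((β : ℤ) ^ L) X + 2 ≤ (β : ℤ) ^ L) ∧ (C2 ∧
        F'.ev ((β : ℤ) ^ L) X = R2.ev ((β : ℤ) ^ L) X)) ∨
      ((F.ev ((β : ℤ) ^ L) X = (cst (-1) 1 : Fm ι).ev ((β : ℤ) ^ L) X ∧ (C3 ∧
        F'.ev ((β : ℤ) ^ L) X = R3.ev ((β : ℤ) ^ L) X)) ∨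
      (F.ev ((β : ℤ) ^ L) X = (cst 0 1 : Fm ι).ev ((β : ℤ) ^ L) X ∧ (C4 ∧
        F'.ev ((β : ℤ) ^ L) X = R4.ev ((β : ℤ) ^ L) X)))))) := by
  obtain ⟨h1, h2, -, -, -, -⟩ := hC β hβ ι
  exact h2 _ _ (h1 _ _ (au_eq hL hβ _ _) (h1 _ _ (au_const hC hβ C0) (au_eq hL hβ _ _)))
    (h2 _ _ (h1 _ _ (au_eq hL hβ _ _) (h1 _ _ (au_const hC hβ C1) (au_eq hL hβ _ _)))
    (h2 _ _ (h1 _ _ (au_mid hL hC hβ _) (h1 _ _ (au_const hC hβ C2) (au_eq hL hβ _ _)))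
    (h2 _ _ (h1 _ _ (au_eq hL hβ _ _) (h1 _ _ (au_const hC hβ C3) (au_eq hL hβ _ _)))
    (h1 _ _ (au_eq hL hβ _ _) (h1 _ _ (au_const hC hβ C4) (au_eq hL hβ _ _))))))

/-- Valid offsets. -/
lemma valid_pv {M : ℕ} (hM : 2 ≤ M) (f : Fin 3) {X : ℕ} (hX : X < M) :
    pv M f X = -1 ∨ pv M f X = 0 ∨ (1 ≤ pv M f X ∧ pv M f X + 2 ≤ M) ∨ pv M f X = -1 + 1 * M ∨
      pv M f X = 0 + 1 * M := by
  unfold pv
  split_ifs
  · omega
  · omega
  · omega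

/-- Five exclusive cases. -/
lemma cases5 {M P P' r0 r1 r2 r3 r4 : ℤ} (hM : 2 ≤ M) {C0 C1 C2 C3 C4 : Prop} (T : Prop)
    (hv : P = -1 ∨ P = 0 ∨ (1 ≤ P ∧ P + 2 ≤ M) ∨ P = -1 + 1 * M ∨ P = 0 + 1 * M)
    (h0 : P = -1 → (T ↔ C0 ∧ P' = r0)) (h1 : P = 0 → (T ↔ C1 ∧ P' = r1))
    (h2 : 1 ≤ P → P + 2 ≤ M → (T ↔ C2 ∧ P' = r2)) (h3 : P = M - 1 → (T ↔ C3 ∧ P' = r3))
    (h4 : P = M → (T ↔ C4 ∧ P' = r4)) :
    T ↔ (P = -1 + 0 * M ∧ (C0 ∧ P' = r0)) ∨ ((P = 0 + 0 * M ∧ (C1 ∧ P' = r1)) ∨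
      (((1 ≤ P ∧ P + 2 ≤ M) ∧ (C2 ∧ P' = r2)) ∨ ((P = -1 + 1 * M ∧ (C3 ∧ P' = r3)) ∨
        (P = 0 + 1 * M ∧ (C4 ∧ P' = r4))))) := by
  constructor
  · intro hT
    rcases hv with h | h | h | h | h
    · exact Or.inl ⟨by omega, (h0 h).1 hT⟩
    · exact Or.inr (Or.inl ⟨by omega, (h1 h).1 hT⟩)
    · exact Or.inr (Or.inr (Or.inl ⟨h, (h2 h.1 h.2).1 hT⟩))
    · exact Or.inr (Or.inr (Or.inr (Or.inl ⟨h, (h3 (by omega)).1 hT⟩)))
    · exact Or.inr (Or.inr (Or.inr (Or.inr ⟨h, (h4 (by omega)).1 hT⟩)))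
  · rintro (⟨h, g⟩ | ⟨h, g⟩ | ⟨h, g⟩ | ⟨h, g⟩ | ⟨h, g⟩)
    · exact (h0 (by omega)).2 g
    · exact (h1 (by omega)).2 g
    · exact (h2 h.1 h.2).2 g
    · exact (h3 (by omega)).2 g
    · exact (h4 (by omega)).2 g

open Classical in
/-- One head. -/
lemma au_head (hL : AUL_Stmt) (hC : AUC_Stmt) {β : ℕ} (hβ : 2 ≤ β) {Λ : Type} (s : Sym Λ)
    (y : Sym (Option (Sym Λ))) (m d : Dir) (F F' : Fm ι) : ∃ T : ℕ → (ι → ℕ) → Prop, Au β ι T ∧
    ∀ (L : ℕ) (X : ι → ℕ) (P P' : ℤ), 2 ≤ β ^ L → F.ev ((β : ℤ) ^ L) X = P →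
      F'.ev ((β : ℤ) ^ L) X = P' →
      (P = -1 ∨ P = 0 ∨ (1 ≤ P ∧ P + 2 ≤ (β ^ L : ℕ)) ∨ P = -1 + 1 * (β ^ L : ℕ) ∨
        P = 0 + 1 * (β ^ L : ℕ)) →
      ((lsym (β ^ L) s P = y ∧ (m, P') = lmv (β ^ L) s P d) ↔ T L X) := by
  have eM : ∀ L : ℕ, ((β ^ L : ℕ) : ℤ) = (β : ℤ) ^ L := fun L => by push_cast; rfl
  cases d with
  | S =>
    refine ⟨_, au_tab hL hC hβ F F' F F F F F (Sym.left = y ∧ m = Dir.S)
      (Sym.letter (some s) = y ∧ m = Dir.S) (Sym.letter none = y ∧ m = Dir.S)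
      (Sym.letter none = y ∧ m = Dir.S) (Sym.right = y ∧ m = Dir.S), ?_⟩
    intro L X P P' hM hP hP' hv
    rw [ev_cst, ev_cst, ev_cst, ev_cst, hP, hP', ← eM]
    have hM' : (2 : ℤ) ≤ ((β ^ L : ℕ) : ℤ) := by exact_mod_cast hM
    refine cases5 hM' _ hv ?_ ?_ ?_ ?_ ?_
    · intro h
      simp only [lsym, lmv, Prod.mk.injEq]
      rw [if_pos h]
      tauto
    · intro h
      simp only [lsym, lmv, Prod.mk.injEq]
      rw [if_neg (by omega), if_neg (by omega), if_pos h]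
      tauto
    · intro h h'
      simp only [lsym, lmv, Prod.mk.injEq]
      rw [if_neg (by omega), if_neg (by omega), if_neg (by omega)]
      tauto
    · intro h
      simp only [lsym, lmv, Prod.mk.injEq]
      rw [if_neg (by omega), if_neg (by omega), if_neg (by omega)]
      tauto
    · intro h
      simp only [lsym, lmv, Prod.mk.injEq]
      rw [if_neg (by omega), if_pos h]
      tauto
  | L =>
    refine ⟨_, au_tab hL hC hβ F F' F (if s = Sym.left then cst (-1) 0 else cst (-1) 1)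
      (F.add (-1)) (F.add (-1)) (F.add (-1)) (Sym.left = y ∧ m = Dir.S)
      (Sym.letter (some s) = y ∧ m = if s = Sym.left then Dir.S else Dir.L)
      (Sym.letter none = y ∧ m = Dir.S)
      (Sym.letter none = y ∧ m = Dir.S) (Sym.right = y ∧ m = Dir.S), ?_⟩
    intro L X P P' hM hP hP' hv
    rw [ev_cst, ev_cst, ev_cst, ev_cst, ev_add, hP, hP', ← eM]
    have hM' : (2 : ℤ) ≤ ((β ^ L : ℕ) : ℤ) := by exact_mod_cast hM
    refine cases5 hM' _ hv ?_ ?_ ?_ ?_ ?_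
    · intro h
      simp only [lsym, lmv, if_pos h, Prod.mk.injEq]
      tauto
    · intro h
      have h1 : ¬ P = -1 := by omega
      have h2 : ¬ P = ((β ^ L : ℕ) : ℤ) := by omega
      simp only [lsym, lmv, if_neg h1, if_neg h2, if_pos h]
      by_cases hs : s = Sym.left
      · simp only [if_pos hs, Prod.mk.injEq, ev_cst]
        constructor
        · rintro ⟨g1, g2, g3⟩
          exact ⟨⟨g1, g2⟩, by omega⟩
        · rintro ⟨⟨g1, g2⟩, g3⟩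
          exact ⟨g1, g2, by omega⟩
      · simp only [if_neg hs, Prod.mk.injEq, ev_cst]
        constructor
        · rintro ⟨g1, g2, g3⟩
          exact ⟨⟨g1, g2⟩, by omega⟩
        · rintro ⟨⟨g1, g2⟩, g3⟩
          exact ⟨g1, g2, by omega⟩
    · intro h h'
      have h1 : ¬ P = -1 := by omega
      have h2 : ¬ P = ((β ^ L : ℕ) : ℤ) := by omega
      have h3 : ¬ P = 0 := by omega
      simp only [lsym, lmv, if_neg h1, if_neg h2, if_neg h3, Prod.mk.injEq]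
      constructor
      · rintro ⟨g1, g2, g3⟩
        exact ⟨⟨g1, g2⟩, by omega⟩
      · rintro ⟨⟨g1, g2⟩, g3⟩
        exact ⟨g1, g2, by omega⟩
    · intro h
      have h1 : ¬ P = -1 := by omega
      have h2 : ¬ P = ((β ^ L : ℕ) : ℤ) := by omega
      have h3 : ¬ P = 0 := by omega
      simp only [lsym, lmv, if_neg h1, if_neg h2, if_neg h3, Prod.mk.injEq]
      constructor
      · rintro ⟨g1, g2, g3⟩
        exact ⟨⟨g1, g2⟩, by omega⟩
      · rintro ⟨⟨g1, g2⟩, g3⟩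
        exact ⟨g1, g2, by omega⟩
    · intro h
      have h1 : ¬ P = -1 := by omega
      have h3 : ¬ P = 0 := by omega
      simp only [lsym, lmv, if_neg h1, if_pos h, if_neg h3, Prod.mk.injEq]
      constructor
      · rintro ⟨g1, g2, g3⟩
        exact ⟨⟨g1, g2⟩, by omega⟩
      · rintro ⟨⟨g1, g2⟩, g3⟩
        exact ⟨g1, g2, by omega⟩
  | R =>
    refine ⟨_, au_tab hL hC hβ F F' (F.add 1) (F.add 1) (F.add 1)
      (if s = Sym.right then cst 0 1 else cst 0 0) F (Sym.left = y ∧ m = Dir.S)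
      (Sym.letter (some s) = y ∧ m = Dir.S)
      (Sym.letter none = y ∧ m = Dir.S)
      (Sym.letter none = y ∧ m = if s = Sym.right then Dir.S else Dir.R)
      (Sym.right = y ∧ m = Dir.S), ?_⟩
    intro L X P P' hM hP hP' hv
    rw [ev_cst, ev_cst, ev_cst, ev_cst, ev_add, hP, hP', ← eM]
    have hM' : (2 : ℤ) ≤ ((β ^ L : ℕ) : ℤ) := by exact_mod_cast hM
    refine cases5 hM' _ hv ?_ ?_ ?_ ?_ ?_
    · intro h
      have h2 : ¬ P = ((β ^ L : ℕ) : ℤ) := by omega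
      have h3 : ¬ P = ((β ^ L : ℕ) : ℤ) - 1 := by omega
      simp only [lsym, lmv, if_pos h, if_neg h2, if_neg h3, Prod.mk.injEq]
      tauto
    · intro h
      have h1 : ¬ P = -1 := by omega
      have h2 : ¬ P = ((β ^ L : ℕ) : ℤ) := by omega
      have h3 : ¬ P = ((β ^ L : ℕ) : ℤ) - 1 := by omega
      simp only [lsym, lmv, if_neg h1, if_neg h2, if_pos h, if_neg h3, Prod.mk.injEq]
      tauto
    · intro h h'
      have h1 : ¬ P = -1 := by omega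
      have h2 : ¬ P = ((β ^ L : ℕ) : ℤ) := by omega
      have h3 : ¬ P = ((β ^ L : ℕ) : ℤ) - 1 := by omega
      have h4 : ¬ P = 0 := by omega
      simp only [lsym, lmv, if_neg h1, if_neg h2, if_neg h3, if_neg h4, Prod.mk.injEq]
      tauto
    · intro h
      have h1 : ¬ P = -1 := by omega
      have h2 : ¬ P = ((β ^ L : ℕ) : ℤ) := by omega
      have h4 : ¬ P = 0 := by omega
      simp only [lsym, lmv, if_neg h1, if_neg h2, if_neg h4, if_pos h]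
      by_cases hs : s = Sym.right
      · simp only [if_pos hs, Prod.mk.injEq, ev_cst]
        constructor
        · rintro ⟨g1, g2, g3⟩
          exact ⟨⟨g1, g2⟩, by omega⟩
        · rintro ⟨⟨g1, g2⟩, g3⟩
          exact ⟨g1, g2, by omega⟩
      · simp only [if_neg hs, Prod.mk.injEq, ev_cst]
        constructor
        · rintro ⟨g1, g2, g3⟩
          exact ⟨⟨g1, g2⟩, by omega⟩
        · rintro ⟨⟨g1, g2⟩, g3⟩
          exact ⟨g1, g2, by omega⟩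
    · intro h
      have h1 : ¬ P = -1 := by omega
      simp only [lsym, lmv, if_neg h1, if_pos h, Prod.mk.injEq]
      tauto

/-- The form of a head. -/
def fp [DecidableEq ι] (f : Fin 3) (i : ι) : Fm ι :=
  if f = 0 then ⟨Pi.single i 1, 0, 0⟩ else if f = 1 then cst (-1) 0 else cst 0 1

lemma ev_fp [DecidableEq ι] (f : Fin 3) (i : ι) (M : ℕ) (X : ι → ℕ) :
    (fp f i).ev (M : ℤ) X = pv M f (X i) := by
  unfold fp pv
  split_ifs
  · simp [Fm.ev, Pi.single_apply]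
  · rw [ev_cst]
    ring
  · rw [ev_cst]
    ring

lemma au_one (hL : AUL_Stmt) (hC : AUC_Stmt) {β : ℕ} (hβ : 2 ≤ β) :
    Au β ι (fun L _ => 1 ≤ L) := by
  obtain ⟨-, -, -, -, -, h6⟩ := hC β hβ ι
  have a1 := au_eq (ι := ι ⊕ Unit) hL hβ ⟨Sum.elim 0 (fun _ => 1), 0, 0⟩ (cst 1 0)
  refine au_congr hβ (fun L X _ => ?_) (h6 Unit _ a1)
  have e1 : ∀ w : Unit → ℕ, (⟨Sum.elim 0 (fun _ => 1), 0, 0⟩ : Fm (ι ⊕ Unit)).ev ((β : ℤ) ^ L)
      (Sum.elim X w) = w () := by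
    intro w
    simp [Fm.ev, Fintype.sum_sum_type]
  simp only [e1, ev_cst]
  constructor
  · intro h
    refine ⟨fun _ => 1, fun _ => ?_, by simp⟩
    exact Nat.one_lt_pow (by omega) (by omega)
  · rintro ⟨w, h1, h2⟩
    rcases Nat.eq_zero_or_pos L with rfl | h
    · have h3 := h1 ()
      rw [pow_zero] at h3
      have h4 : w () = 0 := by omega
      rw [h4] at h2
      norm_num at h2
    · exact h

lemma finSym (α : Type) [Finite α] : Finite (Sym α) :=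
  Finite.of_surjective
    (fun i : Option (Option α) => match i with
      | none => Sym.left
      | some none => Sym.right
      | some (some a) => Sym.letter a)
    (by rintro (_ | a | _); exacts [⟨none, rfl⟩, ⟨some (some a), rfl⟩, ⟨some none, rfl⟩])

lemma finDir : Finite Dir :=
  Finite.of_surjective
    (fun i : Fin 3 => if i = 0 then Dir.L else if i = 1 then Dir.S else Dir.R)
    (by rintro (_ | _ | _); exacts [⟨0, rfl⟩, ⟨1, rfl⟩, ⟨2, rfl⟩])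

end STPx

open STPx

theorem t_STP : STP_Stmt := by
  classical
  intro hL hC hF β hβ Λ _ D A q q' f f' s m
  have := finDir
  have := finSym Λ
  have := finSym (Option (Sym Λ))
  obtain ⟨hand, -, -, -, -, -⟩ := hC β hβ (Fin D ⊕ Fin D)
  have key := fun (y : Sym (Option (Sym Λ))) (d : Dir) (i : Fin D) =>
    au_head hL hC hβ (s i) y (m i) d (fp (f i) (Sum.inl i : Fin D ⊕ Fin D)) (fp (f' i) (Sum.inr i))
  choose T hT1 hT2 using key
  have h1 := (hF hC β hβ (Fin D ⊕ Fin D)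
    {yd : (Fin D → Sym (Option (Sym Λ))) × (Fin D → Dir) // (q', yd.2) ∈ A.δ q yd.1}
    (fun t L X => ∀ i : Fin D, T (t.1.1 i) (t.1.2 i) i L X)
    (fun t => (hF hC β hβ (Fin D ⊕ Fin D) (Fin D)
      (fun i L X => T (t.1.1 i) (t.1.2 i) i L X) (fun i => hT1 _ _ _)).1)).2
  refine au_congr hβ (fun L X hX => ?_) (hand _ _ (au_one hL hC hβ) h1)
  refine and_congr_right fun hL1 => ?_
  have hM : 2 ≤ β ^ L := hβ.trans (Nat.le_self_pow (by omega) β)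
  have eM : ((β ^ L : ℕ) : ℤ) = (β : ℤ) ^ L := by push_cast; rfl
  have hone : ∀ (y : Sym (Option (Sym Λ))) (d : Dir) (i : Fin D),
      ((lsym (β ^ L) (s i) (pv (β ^ L) (f i) (X (Sum.inl i))) = y ∧
        (m i, pv (β ^ L) (f' i) (X (Sum.inr i))) =
          lmv (β ^ L) (s i) (pv (β ^ L) (f i) (X (Sum.inl i))) d) ↔ T y d i L X) := by
    intro y d i
    refine hT2 y d i L X _ _ hM ?_ ?_ (valid_pv hM (f i) (hX _))
    · rw [← eM]
      exact ev_fp _ _ _ _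
    · rw [← eM]
      exact ev_fp _ _ _ _
  constructor
  · rintro ⟨t, ht, hq, hi⟩
    refine ⟨⟨(fun i => lsym (β ^ L) (s i) (pv (β ^ L) (f i) (X (Sum.inl i))), t.2), ?_⟩, ?_⟩
    · rw [hq]
      exact ht
    · intro i
      exact (hone _ _ i).1 ⟨rfl, hi i⟩
  · rintro ⟨⟨⟨y, d⟩, hyd⟩, hi⟩
    have hy : (fun i => lsym (β ^ L) (s i) (pv (β ^ L) (f i) (X (Sum.inl i)))) = y := by
      funext i
      exact ((hone _ _ i).2 (hi i)).1
    refine ⟨(q', d), ?_, rfl, fun i => ((hone _ _ i).2 (hi i)).2⟩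
    rw [hy]
    exact hyd

end Pool.Agent.NPH
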