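import Pool.Agent.NPH.StS
import Pool.Agent.NPH.STP

set_option autoImplicit false

namespace Pool.Agent.NPH

open Pool.Agent.Heads Relation

namespace STPSx

open STPx

/-- Equality of two offsets. -/
lemma pv_eq {M : ℕ} (f f' : Fin 3) {X Y : ℕ} (hX : X < M) (hY : Y < M) :
    pv M f X = pv M f' Y ↔ (f = f' ∧ (f = 0 → X = Y)) := by
  unfold pv
  fin_cases f <;> fin_cases f' <;> simp <;> omega

lemma au_lt {ι : Type} [Fintype ι] [DecidableEq ι] (hL : AUL_Stmt) (hC : AUC_Stmt) {β : ℕ}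
    (hβ : 2 ≤ β) (i j : ι) : Au β ι (fun _ X => X i < X j) := by
  obtain ⟨-, -, -, -, -, h6⟩ := hC β hβ ι
  have a1 := au_eq (ι := ι ⊕ Unit) hL hβ ⟨Sum.elim (Pi.single i 1) (fun _ => 1), 1, 0⟩
    ⟨Sum.elim (Pi.single j 1) 0, 0, 0⟩
  refine au_congr hβ (fun L X hX => ?_) (h6 Unit _ a1)
  have e1 : ∀ w : Unit → ℕ, (⟨Sum.elim (Pi.single i 1) (fun _ => 1), 1, 0⟩ :
      Fm (ι ⊕ Unit)).ev ((β : ℤ) ^ L) (Sum.elim X w) = X i + w () + 1 := by
    intro w
    simp [Fm.ev, Fintype.sum_sum_type, Pi.single_apply]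
  have e2 : ∀ w : Unit → ℕ, (⟨Sum.elim (Pi.single j 1) 0, 0, 0⟩ :
      Fm (ι ⊕ Unit)).ev ((β : ℤ) ^ L) (Sum.elim X w) = X j := by
    intro w
    simp [Fm.ev, Fintype.sum_sum_type, Pi.single_apply]
  simp only [e1, e2]
  constructor
  · intro h
    refine ⟨fun _ => X j - X i - 1, fun _ => ?_, ?_⟩
    · have h1 := hX j
      show X j - X i - 1 < β ^ L
      omega
    · show (X i : ℤ) + ((X j - X i - 1 : ℕ) : ℤ) + 1 = (X j : ℤ)
      omega
  · rintro ⟨w, -, h2⟩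
    omega

lemma au_coin {D : ℕ} (hL : AUL_Stmt) (hC : AUC_Stmt) {β : ℕ} (hβ : 2 ≤ β) (b : Bool)
    (f f' : Fin 3) (i j : Fin D) (c : Bool) : ∃ U : ℕ → (Fin D ⊕ Fin D → ℕ) → Prop,
      Au β (Fin D ⊕ Fin D) U ∧ ∀ L X, (∀ k, X k < β ^ L) →
        ((decide (b = true ∧ pv (β ^ L) f (X (Sum.inl i)) = pv (β ^ L) f' (X (Sum.inl j))) = c) ↔
          U L X) := by
  classical
  obtain ⟨-, hor, -, -, -, -⟩ := hC β hβ (Fin D ⊕ Fin D)
  by_cases hK : b = true ∧ f = f'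
  · by_cases h0 : f = 0
    · cases c with
      | true =>
        refine ⟨_, au_eq hL hβ ⟨Pi.single (Sum.inl i) 1, 0, 0⟩ ⟨Pi.single (Sum.inl j) 1, 0, 0⟩, ?_⟩
        intro L X hX
        have e1 : ∀ k : Fin D, (⟨Pi.single (Sum.inl k) 1, 0, 0⟩ : Fm (Fin D ⊕ Fin D)).ev
            ((β : ℤ) ^ L) X = X (Sum.inl k) := by
          intro k
          simp [Fm.ev, Pi.single_apply]
        rw [e1, e1, decide_eq_true_iff, pv_eq f f' (hX _) (hX _)]
        constructor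
        · rintro ⟨-, -, h2⟩
          exact_mod_cast h2 h0
        · intro h2
          exact ⟨hK.1, hK.2, fun _ => by exact_mod_cast h2⟩
      | false =>
        refine ⟨_, hor _ _ (au_lt hL hC hβ (Sum.inl i) (Sum.inl j))
          (au_lt hL hC hβ (Sum.inl j) (Sum.inl i)), ?_⟩
        intro L X hX
        rw [decide_eq_false_iff_not, pv_eq f f' (hX _) (hX _)]
        constructor
        · intro h2
          have h3 : X (Sum.inl i) ≠ X (Sum.inl j) := fun h3 => h2 ⟨hK.1, hK.2, fun _ => h3⟩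
          omega
        · rintro h2 ⟨-, -, h3⟩
          have h4 := h3 h0
          omega
    · refine ⟨_, au_const hC hβ (true = c), ?_⟩
      intro L X hX
      have h1 : decide (b = true ∧ pv (β ^ L) f (X (Sum.inl i)) =
          pv (β ^ L) f' (X (Sum.inl j))) = true := by
        rw [decide_eq_true_iff, pv_eq f f' (hX _) (hX _)]
        exact ⟨hK.1, hK.2, fun h => absurd h h0⟩
      rw [h1]
  · refine ⟨_, au_const hC hβ (false = c), ?_⟩
    intro L X hX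
    have h1 : decide (b = true ∧ pv (β ^ L) f (X (Sum.inl i)) =
        pv (β ^ L) f' (X (Sum.inl j))) = false := by
      rw [decide_eq_false_iff_not, pv_eq f f' (hX _) (hX _)]
      rintro ⟨h2, h3, -⟩
      exact hK ⟨h2, h3⟩
    rw [h1]

end STPSx

open STPx STPSx

theorem t_STPS : STPS_Stmt := by
  classical
  intro hL hC hF β hβ Λ _ D A q q' f f' s z m
  have := finDir
  have := finSym Λ
  have := finSym (Option (Sym Λ))
  obtain ⟨hand, -, -, -, -, -⟩ := hC β hβ (Fin D ⊕ Fin D)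
  have key := fun (y : Sym (Option (Sym Λ))) (d : Dir) (i : Fin D) =>
    au_head hL hC hβ (s i) y (m i) d (fp (f i) (Sum.inl i : Fin D ⊕ Fin D)) (fp (f' i) (Sum.inr i))
  choose T hT1 hT2 using key
  have keyc := fun (c : Bool) (ij : Fin D × Fin D) =>
    au_coin hL hC hβ (z ij.1 ij.2) (f ij.1) (f ij.2) ij.1 ij.2 c
  choose U hU1 hU2 using keyc
  have h1 := (hF hC β hβ (Fin D ⊕ Fin D)
    {yd : ((Fin D → Sym (Option (Sym Λ))) × (Fin D → Fin D → Bool)) × (Fin D → Dir) //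
      (q', yd.2) ∈ A.δ q yd.1.1 yd.1.2}
    (fun t L X => (∀ i : Fin D, T (t.1.1.1 i) (t.1.2 i) i L X) ∧
      ∀ ij : Fin D × Fin D, U (t.1.1.2 ij.1 ij.2) ij L X)
    (fun t => hand _ _ (hF hC β hβ (Fin D ⊕ Fin D) (Fin D)
      (fun i L X => T (t.1.1.1 i) (t.1.2 i) i L X) (fun i => hT1 _ _ _)).1
      (hF hC β hβ (Fin D ⊕ Fin D) (Fin D × Fin D)
      (fun ij L X => U (t.1.1.2 ij.1 ij.2) ij L X) (fun i => hU1 _ _)).1)).2
  refine au_congr hβ (fun L X hX => ?_) (hand _ _ (au_one hL hC hβ) h1)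
  refine and_congr_right fun hL1 => ?_
  have hM : 2 ≤ β ^ L := hβ.trans (Nat.le_self_pow (by omega) β)
  have eM : ((β ^ L : ℕ) : ℤ) = (β : ℤ) ^ L := by push_cast; rfl
  have hone : ∀ (y : Sym (Option (Sym Λ))) (d : Dir) (i : Fin D),
      ((lsym (β ^ L) (s i) (pv (β ^ L) (f i) (X (Sum.inl i))) = y ∧
        (m i, pv (β ^ L) (f' i) (X (Sum.inr i))) =
          lmv (β ^ L) (s i) (pv (β ^ L) (f i) (X (Sum.inl i))) d) ↔ T y d i L X) := by
    intro y d i
    refine hT2 y d i L X _ _ hM ?_ ?_ (valid_pv hM (f i) (hX _))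
    · rw [← eM]
      exact ev_fp _ _ _ _
    · rw [← eM]
      exact ev_fp _ _ _ _
  constructor
  · rintro ⟨t, ht, hq, hi⟩
    refine ⟨⟨((fun i => lsym (β ^ L) (s i) (pv (β ^ L) (f i) (X (Sum.inl i))),
      fun i j => decide (z i j = true ∧
        pv (β ^ L) (f i) (X (Sum.inl i)) = pv (β ^ L) (f j) (X (Sum.inl j)))), t.2), ?_⟩, ?_, ?_⟩
    · rw [hq]
      exact ht
    · intro i
      exact (hone _ _ i).1 ⟨rfl, hi i⟩
    · intro ij
      exact (hU2 _ ij L X hX).1 rfl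
  · rintro ⟨⟨⟨⟨y, c⟩, d⟩, hyd⟩, hi, hij⟩
    have hy : (fun i => lsym (β ^ L) (s i) (pv (β ^ L) (f i) (X (Sum.inl i)))) = y := by
      funext i
      exact ((hone _ _ i).2 (hi i)).1
    have hc : (fun i j => decide (z i j = true ∧
        pv (β ^ L) (f i) (X (Sum.inl i)) = pv (β ^ L) (f j) (X (Sum.inl j)))) = c := by
      funext i j
      exact (hU2 _ (i, j) L X hX).2 (hij (i, j))
    refine ⟨(q', d), ?_, rfl, fun i => ((hone _ _ i).2 (hi i)).2⟩
    rw [hy, hc]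
    exact hyd

end Pool.Agent.NPH
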