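import Pool.Agent.NPH.StB

/-!
# Project NPH, module STR (helper61): walks in a box as chains of pieces

A walk is represented by a list of items (edges and powers of closed walks) such that all vertices
are in the box. A representation which minimises (2 * number of edges + number of powers, sum of the
index times the exponent over the powers) has few items between two vertices near the boundary.
-/

set_option autoImplicit false

namespace Pool.Agent.NPH

open Pool.Agent.Heads Relation

namespace STRx

variable {V : Type} {D : ℕ}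

/-- Items: an edge to `v'` with displacement `d`, or the power `n` of a closed walk at `v` with
displacement `d`. -/
inductive Itm (V : Type) (D : ℕ) : Type
  | e (v' : V) (d : Fin D → ℤ)
  | p (v : V) (d : Fin D → ℤ) (n : ℕ)

/-- the next vertex -/
def nxt (c : V × (Fin D → ℤ)) : Itm V D → V × (Fin D → ℤ)
  | .e v' d => (v', c.2 + d)
  | .p _ d n => (c.1, c.2 + n • d)

/-- the last vertex -/
def fin (c : V × (Fin D → ℤ)) (L : List (Itm V D)) : V × (Fin D → ℤ) := L.foldl nxt c

/-- the item is possible at the vertex `c` -/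
def ok (E : V → V → (Fin D → ℤ) → Prop) (N : ℕ) (c : V × (Fin D → ℤ)) : Itm V D → Prop
  | .e v' d => E c.1 v' d
  | .p v d n => c.1 = v ∧ d ≠ 0 ∧ 1 ≤ n ∧ ∃ l, 1 ≤ l ∧ l ≤ N ∧ Wk E l v v d

/-- the list is possible at `c`, and all later vertices satisfy `Q` -/
def val (E : V → V → (Fin D → ℤ) → Prop) (N : ℕ) (Q : (Fin D → ℤ) → Prop) :
    V × (Fin D → ℤ) → List (Itm V D) → Prop
  | _, [] => True
  | c, it :: L => ok E N c it ∧ Q (nxt c it).2 ∧ val E N Q (nxt c it) L

/-- cost of an item -/
def cst : Itm V D → ℕ
  | .e _ _ => 2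
  | .p _ _ _ => 1

/-- exponent of an item -/
def ex : Itm V D → ℕ
  | .e _ _ => 0
  | .p _ _ n => n

/-- total cost -/
def cost (L : List (Itm V D)) : ℕ := (L.map cst).sum

/-- sum of the exponents -/
def tot (L : List (Itm V D)) : ℕ := (L.map ex).sum

/-- the sum of index times exponent -/
def wt : List (Itm V D) → ℕ
  | [] => 0
  | _ :: L => wt L + tot L

/-- the item is an edge -/
def isE : Itm V D → Prop
  | .e _ _ => True
  | .p _ _ _ => False

/-! ### simple facts on lists -/

theorem fin_nil (c : V × (Fin D → ℤ)) : fin c [] = c := rfl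

theorem fin_cons (c : V × (Fin D → ℤ)) (it : Itm V D) (L : List (Itm V D)) :
    fin c (it :: L) = fin (nxt c it) L := rfl

theorem fin_append (c : V × (Fin D → ℤ)) (A B : List (Itm V D)) :
    fin c (A ++ B) = fin (fin c A) B := List.foldl_append

theorem val_append (E : V → V → (Fin D → ℤ) → Prop) (N : ℕ) (Q : (Fin D → ℤ) → Prop)
    (A B : List (Itm V D)) (c : V × (Fin D → ℤ)) :
    val E N Q c (A ++ B) ↔ val E N Q c A ∧ val E N Q (fin c A) B := by
  induction A generalizing c with
  | nil => simp [val, fin]
  | cons it A ih =>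
    rw [List.cons_append]
    show (ok E N c it ∧ Q (nxt c it).2 ∧ val E N Q (nxt c it) (A ++ B)) ↔
      (ok E N c it ∧ Q (nxt c it).2 ∧ val E N Q (nxt c it) A) ∧ val E N Q (fin (nxt c it) A) B
    rw [ih]
    tauto

theorem cost_append (A B : List (Itm V D)) : cost (A ++ B) = cost A + cost B := by
  simp [cost]

theorem cost_cons (a : Itm V D) (B : List (Itm V D)) : cost (a :: B) = cst a + cost B := by
  simp [cost]

theorem tot_append (A B : List (Itm V D)) : tot (A ++ B) = tot A + tot B := by
  simp [tot]

theorem tot_cons (a : Itm V D) (B : List (Itm V D)) : tot (a :: B) = ex a + tot B := by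
  simp [tot]

theorem wt_cons (a : Itm V D) (B : List (Itm V D)) : wt (a :: B) = wt B + tot B := rfl

theorem wt_append (A B : List (Itm V D)) : wt (A ++ B) = wt A + wt B + A.length * tot B := by
  induction A with
  | nil => simp [wt]
  | cons a A ih =>
    rw [List.cons_append, wt_cons, wt_cons, ih, tot_append, List.length_cons]
    ring

theorem cost_edges (T : List (Itm V D)) (h : ∀ a ∈ T, isE a) : cost T = 2 * T.length := by
  induction T with
  | nil => rfl
  | cons a T ih =>
    rw [cost_cons, ih fun b hb => h b (List.mem_cons_of_mem _ hb), List.length_cons]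
    have h1 := h a List.mem_cons_self
    cases a with
    | e v' d =>
      show 2 + _ = _
      ring
    | p v d n => exact absurd h1 (by simp [isE])

/-! ### walks -/

theorem wk_one {E : V → V → (Fin D → ℤ) → Prop} {l : ℕ} {v v' : V} {c : Fin D → ℤ}
    (h : Wk E l v v' c) (h1 : Unit1 E) (i : Fin D) : |c i| ≤ l := by
  induction h with
  | nil v => simp
  | cons he _ ih =>
    have h2 := h1 _ _ _ he i
    rename_i l v v' v'' d c hw
    show |d i + c i| ≤ ((l + 1 : ℕ) : ℤ)
    have h4 := abs_add_le (d i) (c i)
    push_cast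
    linarith

theorem wk_of_edges {E : V → V → (Fin D → ℤ) → Prop} {N : ℕ} {Q : (Fin D → ℤ) → Prop}
    (T : List (Itm V D)) (c : V × (Fin D → ℤ)) (hv : val E N Q c T) (h : ∀ a ∈ T, isE a) :
    Wk E T.length c.1 (fin c T).1 ((fin c T).2 - c.2) := by
  induction T generalizing c with
  | nil =>
    show Wk E 0 c.1 c.1 (c.2 - c.2)
    rw [sub_self]
    exact Wk.nil c.1
  | cons a T ih =>
    have h1 := h a List.mem_cons_self
    cases a with
    | p v d n => exact absurd h1 (by simp [isE])
    | e v' d =>
      obtain ⟨h2, -, h3⟩ := hv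
      have h4 := ih _ h3 fun b hb => h b (List.mem_cons_of_mem _ hb)
      have h5 := Wk.cons (E := E) (v := c.1) (v' := v') (d := d) h2 h4
      rw [List.length_cons, fin_cons]
      have h6 : (fin (nxt c (Itm.e v' d)) T).2 - c.2 =
          d + ((fin (nxt c (Itm.e v' d)) T).2 - (nxt c (Itm.e v' d)).2) := by
        show _ = d + (_ - (c.2 + d))
        abel
      rw [h6]
      exact h5

/-! ### moving a power -/

theorem ok_shift {E : V → V → (Fin D → ℤ) → Prop} {N : ℕ} {c : V × (Fin D → ℤ)} (d : Fin D → ℤ)
    {it : Itm V D} (h : ok E N c it) : ok E N (c.1, c.2 + d) it := by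
  cases it with
  | e v' d' => exact h
  | p v d' n => exact h

theorem nxt_shift (c : V × (Fin D → ℤ)) (d : Fin D → ℤ) (it : Itm V D) :
    nxt (c.1, c.2 + d) it = ((nxt c it).1, (nxt c it).2 + d) := by
  cases it with
  | e v' d' => exact Prod.ext rfl (by show c.2 + d + d' = c.2 + d' + d; abel)
  | p v d' n => exact Prod.ext rfl (by show c.2 + d + n • d' = c.2 + n • d' + d; abel)

theorem val_shift {E : V → V → (Fin D → ℤ) → Prop} {N : ℕ} {Q R : (Fin D → ℤ) → Prop}
    (d : Fin D → ℤ) (hQR : ∀ X, R X → Q (X + d)) (L : List (Itm V D)) (c : V × (Fin D → ℤ))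
    (h : val E N R c L) : val E N Q (c.1, c.2 + d) L ∧
      fin (c.1, c.2 + d) L = ((fin c L).1, (fin c L).2 + d) := by
  induction L generalizing c with
  | nil => exact ⟨trivial, rfl⟩
  | cons it L ih =>
    obtain ⟨h1, h2, h3⟩ := h
    obtain ⟨h4, h5⟩ := ih _ h3
    rw [fin_cons, fin_cons, nxt_shift, h5]
    refine ⟨⟨ok_shift d h1, ?_, ?_⟩, rfl⟩
    · rw [nxt_shift]
      exact hQR _ h2
    · rw [nxt_shift]
      exact h4

/-- better representations -/
def Better (L' L : List (Itm V D)) : Prop :=
  cost L' < cost L ∨ (cost L' = cost L ∧ wt L' < wt L)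

theorem exch {E : V → V → (Fin D → ℤ) → Prop} {N : ℕ} {Q R : (Fin D → ℤ) → Prop}
    {c : V × (Fin D → ℤ)} {A S B : List (Itm V D)} {v : V} {d : Fin D → ℤ} {n n' : ℕ}
    (hQR : ∀ X, R X → Q (X + d))
    (h : val E N Q c (A ++ .p v d n :: (S ++ .p v d n' :: B)))
    (h0 : R (nxt (fin c A) (.p v d n)).2) (hS : val E N R (nxt (fin c A) (.p v d n)) S) :
    ∃ L', val E N Q c L' ∧ fin c L' = fin c (A ++ .p v d n :: (S ++ .p v d n' :: B)) ∧
      Better L' (A ++ .p v d n :: (S ++ .p v d n' :: B)) := by
  rw [val_append] at h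
  obtain ⟨hA, hok, hQ0, h⟩ := h
  rw [val_append] at h
  obtain ⟨-, hok', hQ', hB⟩ := h
  set a := fin c A with ha
  set b := nxt a (.p v d n) with hb
  have hn1 : nxt a (.p v d (n + 1)) = (b.1, b.2 + d) := by
    refine Prod.ext rfl ?_
    show a.2 + (n + 1) • d = a.2 + n • d + d
    rw [add_smul, one_smul, add_assoc]
  obtain ⟨k1, k2⟩ := val_shift d hQR S b hS
  obtain ⟨o1, o2, o3, o4⟩ := hok
  obtain ⟨p1, p2, p3, p4⟩ := hok'
  obtain ⟨k, rfl⟩ : ∃ k, n' = k + 1 := ⟨n' - 1, by omega⟩
  rcases Nat.eq_zero_or_pos k with hk | hk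
  · subst hk
    refine ⟨A ++ .p v d (n + 1) :: (S ++ B), ?_, ?_, Or.inl ?_⟩
    · rw [val_append]
      refine ⟨hA, ⟨o1, o2, by omega, o4⟩, ?_, ?_⟩
      · show Q (nxt a (.p v d (n + 1))).2
        rw [hn1]
        exact hQR _ h0
      · show val E N Q (nxt a (.p v d (n + 1))) (S ++ B)
        rw [hn1, val_append]
        refine ⟨k1, ?_⟩
        rw [k2]
        have h5 : nxt (fin b S) (.p v d (0 + 1)) = ((fin b S).1, (fin b S).2 + d) := by
          refine Prod.ext rfl ?_
          show (fin b S).2 + (0 + 1) • d = _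
          rw [zero_add, one_smul]
        rw [h5] at hB
        exact hB
    · rw [fin_append, fin_append, fin_cons, fin_cons, fin_append, fin_append, fin_cons, ← ha, hn1,
        k2, ← hb]
      have h5 : nxt (fin b S) (.p v d (0 + 1)) = ((fin b S).1, (fin b S).2 + d) := by
        refine Prod.ext rfl ?_
        show (fin b S).2 + (0 + 1) • d = _
        rw [zero_add, one_smul]
      rw [h5]
    · simp only [cost_append, cost_cons, cst]
      omega
  · refine ⟨A ++ .p v d (n + 1) :: (S ++ .p v d k :: B), ?_, ?_, Or.inr ⟨?_, ?_⟩⟩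
    · rw [val_append]
      refine ⟨hA, ⟨o1, o2, by omega, o4⟩, ?_, ?_⟩
      · show Q (nxt a (.p v d (n + 1))).2
        rw [hn1]
        exact hQR _ h0
      · show val E N Q (nxt a (.p v d (n + 1))) (S ++ .p v d k :: B)
        rw [hn1, val_append]
        refine ⟨k1, ?_⟩
        rw [k2]
        have h5 : nxt ((fin b S).1, (fin b S).2 + d) (.p v d k) =
            nxt (fin b S) (.p v d (k + 1)) := by
          refine Prod.ext rfl ?_
          show (fin b S).2 + d + k • d = (fin b S).2 + (k + 1) • d
          rw [add_smul, one_smul]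
          abel
        refine ⟨⟨p1, p2, hk, p4⟩, ?_, ?_⟩
        · rw [h5]
          exact hQ'
        · rw [h5]
          exact hB
    · rw [fin_append, fin_append, fin_cons, fin_cons, fin_append, fin_append, fin_cons, fin_cons,
        ← ha, hn1, k2, ← hb]
      have h5 : nxt ((fin b S).1, (fin b S).2 + d) (.p v d k) =
          nxt (fin b S) (.p v d (k + 1)) := by
        refine Prod.ext rfl ?_
        show (fin b S).2 + d + k • d = (fin b S).2 + (k + 1) • d
        rw [add_smul, one_smul]
        abel
      rw [h5]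
    · simp only [cost_append, cost_cons, cst]
    · simp only [wt_append, wt_cons, tot_append, tot_cons, ex]
      have h6 : S.length * (k + 1 + tot B) = S.length * (k + tot B) + S.length := by ring
      rw [h6]
      have h7 : A.length * (n + 1 + (tot S + (k + tot B))) =
          A.length * (n + (tot S + (k + 1 + tot B))) := by ring
      rw [h7]
      omega

/-! ### runs of edges -/

theorem val_last {E : V → V → (Fin D → ℤ) → Prop} {N : ℕ} {Q : (Fin D → ℤ) → Prop}
    (L : List (Itm V D)) (c : V × (Fin D → ℤ)) (h : val E N Q c L) (hL : L ≠ []) :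
    Q (fin c L).2 := by
  induction L generalizing c with
  | nil => exact absurd rfl hL
  | cons it L ih =>
    obtain ⟨-, h2, h3⟩ := h
    by_cases h4 : L = []
    · subst h4
      exact h2
    · exact ih _ h3 h4

theorem run [Finite V] {E : V → V → (Fin D → ℤ) → Prop} {Q : (Fin D → ℤ) → Prop}
    {c : V × (Fin D → ℤ)} {A T B : List (Itm V D)} (hE : ∀ a ∈ T, isE a)
    (hT : Nat.card V ≤ T.length) (h : val E (Nat.card V) Q c (A ++ (T ++ B))) :
    ∃ L', val E (Nat.card V) Q c L' ∧ fin c L' = fin c (A ++ (T ++ B)) ∧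
      Better L' (A ++ (T ++ B)) := by
  classical
  have := Fintype.ofFinite V
  obtain ⟨i, j, hij, hj, hs⟩ : ∃ i j : ℕ, i < j ∧ j ≤ Nat.card V ∧
      (fin (fin c A) (T.take i)).1 = (fin (fin c A) (T.take j)).1 := by
    obtain ⟨x, y, hxy, he⟩ := Fintype.exists_ne_map_eq_of_card_lt
      (fun k : Fin (Nat.card V + 1) => (fin (fin c A) (T.take k)).1)
      (by rw [Fintype.card_fin, Nat.card_eq_fintype_card]; exact Nat.lt_succ_self _)
    have hx := x.2
    have hy := y.2
    rcases lt_or_gt_of_ne (fun h => hxy (Fin.ext h) : (x : ℕ) ≠ y) with h1 | h1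
    · exact ⟨x, y, h1, by omega, he⟩
    · exact ⟨y, x, h1, by omega, he.symm⟩
  set T1 := T.take i with hT1
  set T2 := (T.drop i).take (j - i) with hT2
  set T3 := T.drop j with hT3
  have e1 : T.take j = T1 ++ T2 := by
    rw [hT1, hT2]
    have h1 : j = i + (j - i) := by omega
    conv_lhs => rw [h1]
    exact List.take_add
  have e2 : T = T1 ++ (T2 ++ T3) := by
    rw [← List.append_assoc, ← e1, hT3, List.take_append_drop]
  have hl2 : T2.length = j - i := by
    rw [hT2, List.length_take, List.length_drop]
    omega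
  have hE2 : ∀ a ∈ T2, isE a := fun a ha => hE a (by
    rw [e2]
    exact List.mem_append_right _ (List.mem_append_left _ ha))
  have hne : T2 ≠ [] := by
    intro h0
    rw [h0] at hl2
    simp at hl2
    omega
  rw [e1] at hs
  clear_value T1 T2 T3
  subst e2
  have h' := h
  rw [val_append, List.append_assoc, List.append_assoc, val_append, val_append] at h'
  obtain ⟨hA, h1, h2, h3⟩ := h'
  rw [fin_append] at hs
  set b := fin (fin c A) T1 with hb
  have hw := wk_of_edges T2 b h2 hE2
  have hq := val_last T2 b h2 hne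
  rw [← hs, hl2] at hw
  have hc2 := cost_edges T2 hE2
  by_cases hd : (fin b T2).2 - b.2 = 0
  · have hbb : fin b T2 = b := Prod.ext hs.symm (sub_eq_zero.1 hd)
    rw [hbb] at h3
    refine ⟨A ++ (T1 ++ (T3 ++ B)), ?_, ?_, Or.inl ?_⟩
    · rw [val_append, val_append]
      exact ⟨hA, h1, h3⟩
    · rw [fin_append, fin_append, fin_append c, List.append_assoc, List.append_assoc, fin_append _ T1,
        fin_append _ T2, ← hb, hbb]
    · simp only [cost_append]
      omega
  · have hn : nxt b (.p b.1 ((fin b T2).2 - b.2) 1) = fin b T2 := by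
      refine Prod.ext hs ?_
      show b.2 + 1 • ((fin b T2).2 - b.2) = _
      rw [one_smul]
      abel
    refine ⟨A ++ (T1 ++ (.p b.1 ((fin b T2).2 - b.2) 1 :: (T3 ++ B))), ?_, ?_, Or.inl ?_⟩
    · rw [val_append, val_append]
      refine ⟨hA, h1, ⟨rfl, hd, le_rfl, j - i, by omega, by omega, hw⟩, ?_, ?_⟩
      · rw [← hb, hn]
        exact hq
      · rw [← hb, hn]
        exact h3
    · rw [fin_append, fin_append, fin_cons, ← hb, hn, fin_append c, List.append_assoc,
        List.append_assoc, fin_append _ T1, fin_append _ T2, ← hb]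
    · simp only [cost_append, cost_cons, cst]
      omega

/-! ### counting -/

/-- the closed walk of a power -/
def pw : Itm V D → Option (V × (Fin D → ℤ))
  | .e _ _ => none
  | .p v d _ => some (v, d)

theorem pw_p (v : V) (d : Fin D → ℤ) (n : ℕ) : pw (Itm.p v d n) = some (v, d) := rfl

theorem first (S : List (Itm V D)) : (∀ a ∈ S, isE a) ∨
    ∃ T v d n S', S = T ++ .p v d n :: S' ∧ ∀ a ∈ T, isE a := by
  induction S with
  | nil => exact Or.inl (by simp)
  | cons a S ih =>
    cases a with
    | p v d n => exact Or.inr ⟨[], v, d, n, S, rfl, by simp⟩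
    | e v' d' =>
      rcases ih with h | ⟨T, v, d, n, S', h1, h2⟩
      · left
        intro b hb
        rcases List.mem_cons.1 hb with h3 | h3
        · rw [h3]
          trivial
        · exact h b h3
      · right
        refine ⟨.e v' d' :: T, v, d, n, S', by rw [h1]; rfl, fun b hb => ?_⟩
        rcases List.mem_cons.1 hb with h3 | h3
        · rw [h3]
          trivial
        · exact h2 b h3

theorem pw_edges (T : List (Itm V D)) (h : ∀ a ∈ T, isE a) : T.filterMap pw = [] := by
  rw [List.filterMap_eq_nil_iff]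
  intro a ha
  have h1 := h a ha
  cases a with
  | e v' d => rfl
  | p v d n => exact absurd h1 (by simp [isE])

theorem count (N : ℕ) : ∀ (F : ℕ) (S : List (Itm V D)),
    (∀ A T B, S = A ++ (T ++ B) → (∀ a ∈ T, isE a) → T.length < N) →
    (S.filterMap pw).length ≤ F → S.length ≤ (F + 1) * N := by
  intro F
  induction F with
  | zero =>
    intro S h1 h2
    rcases first S with h | ⟨T, v, d, n, S', h3, h4⟩
    · have := h1 [] S [] (by simp) h
      omega
    · rw [h3, List.filterMap_append, List.filterMap_cons_some (pw_p v d n), List.length_append,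
        List.length_cons] at h2
      omega
  | succ F ih =>
    intro S h1 h2
    rcases first S with h | ⟨T, v, d, n, S', h3, h4⟩
    · have := h1 [] S [] (by simp) h
      nlinarith
    · have h5 := h1 [] T (.p v d n :: S') h3 h4
      have h6 : S'.length ≤ (F + 1) * N := by
        refine ih S' (fun A T' B h7 h8 => h1 (T ++ .p v d n :: A) T' B ?_ h8) ?_
        · rw [h3, h7, List.append_assoc, List.cons_append]
        · rw [h3, List.filterMap_append, pw_edges T h4, List.nil_append,
            List.filterMap_cons_some (pw_p v d n), List.length_cons] at h2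
          omega
      rw [h3, List.length_append, List.length_cons]
      have h7 : (F + 1 + 1) * N = (F + 1) * N + N := by ring
      omega

/-! ### minimal representations -/

theorem exists_min {E : V → V → (Fin D → ℤ) → Prop} {N : ℕ} {Q : (Fin D → ℤ) → Prop}
    {c c' : V × (Fin D → ℤ)} {L0 : List (Itm V D)} (h0 : val E N Q c L0 ∧ fin c L0 = c') :
    ∃ L, (val E N Q c L ∧ fin c L = c') ∧
      ∀ L', val E N Q c L' → fin c L' = c' → ¬ Better L' L := by
  classical
  have h1 : ∃ k, ∃ L : List (Itm V D), (val E N Q c L ∧ fin c L = c') ∧ cost L = k :=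
    ⟨_, L0, h0, rfl⟩
  obtain ⟨L1, hL1, hk1⟩ := Nat.find_spec h1
  have h2 : ∃ w, ∃ L : List (Itm V D), ((val E N Q c L ∧ fin c L = c') ∧ cost L = Nat.find h1) ∧
      wt L = w := ⟨_, L1, ⟨hL1, hk1⟩, rfl⟩
  obtain ⟨L, ⟨hL, hk⟩, hw⟩ := Nat.find_spec h2
  refine ⟨L, hL, fun L' h3 h4 h5 => ?_⟩
  rcases h5 with h5 | ⟨h5, h6⟩
  · exact Nat.find_min h1 (by rw [← hk]; exact h5) ⟨L', ⟨h3, h4⟩, rfl⟩
  · exact Nat.find_min h2 (by rw [← hw]; exact h6) ⟨L', ⟨⟨h3, h4⟩, by rw [h5, hk]⟩, rfl⟩

/-- the vertices strictly inside the list satisfy `R` -/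
def inn (R : (Fin D → ℤ) → Prop) (c : V × (Fin D → ℤ)) (S : List (Itm V D)) : Prop :=
  ∀ S' T, S = S' ++ T → S' ≠ [] → T ≠ [] → R (fin c S').2

theorem val_of {E : V → V → (Fin D → ℤ) → Prop} {N : ℕ} {Q R : (Fin D → ℤ) → Prop}
    (S : List (Itm V D)) (b : V × (Fin D → ℤ)) (h : val E N Q b S)
    (hR : ∀ S' T, S = S' ++ T → S' ≠ [] → R (fin b S').2) : val E N R b S := by
  induction S generalizing b with
  | nil => trivial
  | cons it S ih =>
    obtain ⟨h1, -, h3⟩ := h
    refine ⟨h1, hR [it] S rfl (by simp), ih _ h3 fun S' T h4 _ => ?_⟩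
    exact hR (it :: S') T (by rw [h4]; rfl) (by simp)

theorem mem_ok {E : V → V → (Fin D → ℤ) → Prop} {N : ℕ} {Q : (Fin D → ℤ) → Prop}
    (S : List (Itm V D)) (b : V × (Fin D → ℤ)) (h : val E N Q b S) {v : V} {d : Fin D → ℤ} {n : ℕ}
    (hm : Itm.p v d n ∈ S) : ∃ l, 1 ≤ l ∧ l ≤ N ∧ Wk E l v v d := by
  induction S generalizing b with
  | nil => exact absurd hm (by simp)
  | cons it S ih =>
    obtain ⟨h1, -, h3⟩ := h
    rcases List.mem_cons.1 hm with h4 | h4
    · rw [← h4] at h1
      exact h1.2.2.2
    · exact ih _ h3 h4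

/-- the number of the possible closed walks -/
noncomputable def FF (V : Type) (D : ℕ) : ℕ :=
  {x : V × (Fin D → ℤ) | ∀ i, |x.2 i| ≤ (Nat.card V : ℤ)}.ncard

theorem fin_FF (V : Type) [Finite V] (D : ℕ) :
    {x : V × (Fin D → ℤ) | ∀ i, |x.2 i| ≤ (Nat.card V : ℤ)}.Finite := by
  refine (Set.finite_univ.prod (Set.finite_Icc (fun _ : Fin D => -(Nat.card V : ℤ))
    (fun _ => (Nat.card V : ℤ)))).subset ?_
  rintro ⟨v, d⟩ h
  exact ⟨trivial, fun i => (abs_le.1 (h i)).1, fun i => (abs_le.1 (h i)).2⟩

theorem short [Finite V] {E : V → V → (Fin D → ℤ) → Prop} (hU : Unit1 E) {M : ℕ}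
    {c c' : V × (Fin D → ℤ)} {A S B : List (Itm V D)}
    (hv : val E (Nat.card V) (Bx (Nat.card V + 1) M) c (A ++ (S ++ B)))
    (hf : fin c (A ++ (S ++ B)) = c')
    (hmin : ∀ L', val E (Nat.card V) (Bx (Nat.card V + 1) M) c L' → fin c L' = c' →
      ¬ Better L' (A ++ (S ++ B)))
    (hin : inn (Bx (2 * Nat.card V + 1) M) (fin c A) S) :
    S.length ≤ (FF V D + 1) * Nat.card V := by
  classical
  refine count (Nat.card V) (FF V D) S ?_ ?_
  · intro A' T B' h1 h2
    by_contra h3
    rw [not_lt] at h3
    have e : A ++ (S ++ B) = (A ++ A') ++ (T ++ (B' ++ B)) := by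
      rw [h1]
      simp only [List.append_assoc]
    rw [e] at hv hf hmin
    obtain ⟨L', k1, k2, k3⟩ := run h2 h3 hv
    exact hmin L' k1 (k2.trans hf) k3
  · have hvS : val E (Nat.card V) (Bx (Nat.card V + 1) M) (fin c A) S := by
      rw [val_append, val_append] at hv
      exact hv.2.1
    have hnd : (S.filterMap pw).Nodup := by
      rw [List.Nodup, List.pairwise_filterMap, List.pairwise_iff_forall_sublist]
      intro a b hab x hx y hy hxy
      subst hxy
      obtain ⟨r1, r2, h1, h2, h3⟩ := List.cons_sublist_iff.1 hab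
      obtain ⟨s, t, rfl⟩ := List.append_of_mem h2
      obtain ⟨s', t', rfl⟩ := List.append_of_mem (List.singleton_sublist.1 h3)
      cases a with
      | e v' d => exact absurd hx (by simp [pw])
      | p v d n =>
        cases b with
        | e v' d => exact absurd hy (by simp [pw])
        | p v2 d2 n' =>
          have h4 : (v, d) = x := Option.some.inj hx
          have h5 : (v2, d2) = x := Option.some.inj hy
          rw [← h4] at h5
          obtain ⟨rfl, rfl⟩ := Prod.mk.inj h5
          have hS : S = s ++ .p v2 d2 n :: ((t ++ s') ++ .p v2 d2 n' :: t') := by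
            rw [h1]
            simp
          have e : A ++ (S ++ B) =
              (A ++ s) ++ .p v2 d2 n :: ((t ++ s') ++ .p v2 d2 n' :: (t' ++ B)) := by
            rw [hS]
            simp
          obtain ⟨l, -, hl, hw⟩ := mem_ok S _ hvS (v := v2) (d := d2) (n := n) (by
            rw [hS]
            simp)
          have hQR : ∀ X, Bx (2 * Nat.card V + 1) M X → Bx (Nat.card V + 1) M (X + d2) := by
            intro X hX i
            have h6 := wk_one hw hU i
            have h7 := hX i
            have h8 := abs_le.1 h6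
            have h9 : (l : ℤ) ≤ (Nat.card V : ℤ) := by exact_mod_cast hl
            push_cast at h7 ⊢
            show _ ≤ X i + d2 i ∧ X i + d2 i ≤ _
            constructor <;> linarith [h7.1, h7.2, h8.1, h8.2]
          rw [e] at hv hf hmin
          have h0 : Bx (2 * Nat.card V + 1) M (nxt (fin c (A ++ s)) (.p v2 d2 n)).2 := by
            have := hin (s ++ [.p v2 d2 n]) ((t ++ s') ++ .p v2 d2 n' :: t') (by rw [hS]; simp)
              (by simp) (by simp)
            rw [fin_append] at this
            rw [fin_append]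
            exact this
          have hmid : val E (Nat.card V) (Bx (2 * Nat.card V + 1) M)
              (nxt (fin c (A ++ s)) (.p v2 d2 n)) (t ++ s') := by
            refine val_of (Q := Bx (Nat.card V + 1) M) _ _ ?_ ?_
            · have h6 := hv
              rw [val_append] at h6
              obtain ⟨-, -, -, h7⟩ := h6
              rw [val_append] at h7
              exact h7.1
            · intro S' T h6 _
              have := hin (s ++ .p v2 d2 n :: S') (T ++ .p v2 d2 n' :: t') (by rw [hS, h6]; simp)
                (by simp) (by simp)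
              rw [fin_append] at this
              rw [fin_append c]
              exact this
          obtain ⟨L', k1, k2, k3⟩ := exch hQR hv h0 hmid
          exact hmin L' k1 (k2.trans hf) k3
    rw [← List.toFinset_card_of_nodup hnd, FF, ← Set.ncard_coe_finset]
    refine Set.ncard_le_ncard ?_ (fin_FF V D)
    intro x hx
    rw [Finset.mem_coe, List.mem_toFinset, List.mem_filterMap] at hx
    obtain ⟨a, ha, hax⟩ := hx
    cases a with
    | e v' d => exact absurd hax (by simp [pw])
    | p v d n =>
      obtain ⟨l, -, hl, hw⟩ := mem_ok S _ hvS ha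
      have h4 : (v, d) = x := Option.some.inj hax
      rw [← h4]
      intro i
      have h6 := wk_one hw hU i
      have h9 : (l : ℤ) ≤ (Nat.card V : ℤ) := by exact_mod_cast hl
      exact h6.trans h9

/-! ### pieces -/

theorem item_of {E : V → V → (Fin D → ℤ) → Prop} {N M lo : ℕ} (hlo : 1 ≤ lo)
    {a : V × (Fin D → ℤ)} {it : Itm V D} (h : ok E N a it) (h1 : Bx lo M a.2)
    (h2 : Bx lo M (nxt a it).2) : ItE E a (nxt a it) ∨ ItP E N M a (nxt a it) := by
  cases it with
  | e v' d =>
    left
    show E a.1 v' (a.2 + d - a.2)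
    rw [add_sub_cancel_left]
    exact h
  | p v d n =>
    right
    obtain ⟨rfl, hd, hn, l, hl1, hlN, hw⟩ := h
    refine ⟨rfl, l, n, d, hl1, hlN, hw, hd, hn, ?_, rfl⟩
    obtain ⟨i, hi⟩ := Function.ne_iff.1 hd
    have h3 := h1 i
    have h4 : (lo : ℤ) ≤ a.2 i + n * d i ∧ a.2 i + n * d i ≤ (M : ℤ) - lo := by
      have h5 := h2 i
      have h6 : (nxt a (.p a.1 d n)).2 i = a.2 i + n * d i := by
        show (a.2 + n • d) i = _
        rw [Pi.add_apply, Pi.smul_apply, nsmul_eq_mul]
      rw [h6] at h5
      exact h5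
    have h7 : (1 : ℤ) ≤ lo := by exact_mod_cast hlo
    have h8 : (0 : ℤ) ≤ n := Int.natCast_nonneg n
    have h9 : (n : ℤ) < M := by
      rcases lt_or_gt_of_ne hi with h10 | h10
      · have h11 : d i ≤ -1 := by
          have : d i < 0 := h10
          omega
        nlinarith [h3.1, h3.2, h4.1, h4.2]
      · have h11 : 1 ≤ d i := by
          have : 0 < d i := h10
          omega
        nlinarith [h3.1, h3.2, h4.1, h4.2]
    exact_mod_cast h9

theorem piece_of {E : V → V → (Fin D → ℤ) → Prop} {N M lo : ℕ} (hlo : 1 ≤ lo)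
    (S : List (Itm V D)) (a : V × (Fin D → ℤ)) (ha : Bx lo M a.2) (hv : val E N (Bx lo M) a S)
    (m : ℕ) (hm : S.length ≤ m) : Piece E N M lo m a (fin a S) := by
  induction S generalizing a m with
  | nil => exact ⟨0, fun _ => a, Nat.zero_le _, rfl, rfl, fun t _ => ha, fun t ht => absurd ht (by omega)⟩
  | cons it S ih =>
    obtain ⟨h1, h2, h3⟩ := hv
    rw [List.length_cons] at hm
    obtain ⟨l, s, hl, s0, sl, hb, hs⟩ := ih _ h2 h3 (m - 1) (by omega)
    refine ⟨l + 1, fun t => Nat.casesOn t a s, by omega, rfl, sl, fun t ht => ?_, fun t ht => ?_⟩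
    · cases t with
      | zero => exact ha
      | succ t => exact hb t (by omega)
    · cases t with
      | zero =>
        show ItE E a (s 0) ∨ ItP E N M a (s 0)
        rw [s0]
        exact item_of hlo h1 ha h2
      | succ t => exact hs t (by omega)

theorem split (R : (Fin D → ℤ) → Prop) (L : List (Itm V D)) (a : V × (Fin D → ℤ)) (hL : L ≠ []) :
    ∃ S B, L = S ++ B ∧ S ≠ [] ∧ inn R a S ∧ (B = [] ∨ ¬ R (fin a S).2) := by
  classical
  induction L generalizing a with
  | nil => exact absurd rfl hL
  | cons it L ih =>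
    by_cases h : R (nxt a it).2
    · by_cases h1 : L = []
      · refine ⟨[it], [], by rw [h1]; rfl, by simp, ?_, Or.inl rfl⟩
        intro S' T h2 h3 h4
        have h5 := congrArg List.length h2
        rw [List.length_append] at h5
        have h6 := List.length_pos_iff.2 h3
        have h7 := List.length_pos_iff.2 h4
        simp at h5
        omega
      · obtain ⟨S, B, h2, h3, h4, h5⟩ := ih (nxt a it) h1
        refine ⟨it :: S, B, by rw [h2]; rfl, by simp, ?_, h5⟩
        intro S' T h6 h7 h8
        cases S' with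
        | nil => exact absurd rfl h7
        | cons b S' =>
          rw [List.cons_append] at h6
          obtain ⟨rfl, h9⟩ := List.cons.inj h6
          by_cases h10 : S' = []
          · rw [h10]
            exact h
          · exact h4 S' T h9 h10 h8
    · refine ⟨[it], L, rfl, by simp, ?_, Or.inr h⟩
      intro S' T h2 h3 h4
      have h5 := congrArg List.length h2
      rw [List.length_append] at h5
      have h6 := List.length_pos_iff.2 h3
      have h7 := List.length_pos_iff.2 h4
      simp at h5
      omega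

theorem exists_list {E : V → V → (Fin D → ℤ) → Prop} {N : ℕ} {Q : (Fin D → ℤ) → Prop}
    {c c' : V × (Fin D → ℤ)} (h : ReflTransGen (fun a b => ItE E a b ∧ Q b.2) c c') :
    ∃ L : List (Itm V D), val E N Q c L ∧ fin c L = c' := by
  induction h with
  | refl => exact ⟨[], trivial, rfl⟩
  | tail _ h1 ih =>
    rename_i b b' _
    obtain ⟨L, h2, h3⟩ := ih
    have h4 : nxt b (.e b'.1 (b'.2 - b.2)) = b' := by
      refine Prod.ext rfl ?_
      show b.2 + (b'.2 - b.2) = b'.2
      abel
    refine ⟨L ++ [.e b'.1 (b'.2 - b.2)], ?_, ?_⟩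
    · rw [val_append, h3]
      refine ⟨h2, h1.1, ?_, trivial⟩
      rw [h4]
      exact h1.2
    · rw [fin_append, h3, fin_cons, h4]
      rfl

end STRx

open STRx in
theorem t_STR : STR_Stmt := by
  classical
  intro V _ D E hU
  refine ⟨(FF V D + 1) * Nat.card V, fun M c c' hc h => ?_⟩
  obtain ⟨L0, h0⟩ := exists_list (N := Nat.card V) h
  obtain ⟨L, ⟨hv, hf⟩, hmin⟩ := exists_min h0
  have key : ∀ (k : ℕ) (A T : List (Itm V D)), L = A ++ T → T.length ≤ k →
      Bx (Nat.card V + 1) M (fin c A).2 →
      ReflTransGen (fun a b => Piece E (Nat.card V) M (Nat.card V + 1) ((FF V D + 1) * Nat.card V)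
        a b ∧ ((∃ i, b.2 i < 2 * Nat.card V + 1 ∨ (M : ℤ) - (2 * Nat.card V + 1) < b.2 i) ∨
          b = c')) (fin c A) c' := by
    intro k
    induction k with
    | zero =>
      intro A T hL hT _
      have h1 : T = [] := List.length_eq_zero_iff.1 (by omega)
      rw [h1, List.append_nil] at hL
      rw [← hL, hf]
    | succ k ih =>
      intro A T hL hT hA
      by_cases h1 : T = []
      · rw [h1, List.append_nil] at hL
        rw [← hL, hf]
      · obtain ⟨S, B, h2, h3, h4, h5⟩ := split (Bx (2 * Nat.card V + 1) M) T (fin c A) h1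
        subst h2
        have hv' := hv
        rw [hL, val_append, val_append] at hv'
        obtain ⟨-, hvS, -⟩ := hv'
        have hlen : S.length ≤ (FF V D + 1) * Nat.card V := by
          refine short hU (c' := c') (A := A) (B := B) ?_ ?_ ?_ h4
          · rw [← hL]
            exact hv
          · rw [← hL]
            exact hf
          · rw [← hL]
            exact hmin
        have hp := piece_of (by omega) S (fin c A) hA hvS _ hlen
        have hAS : fin (fin c A) S = fin c (A ++ S) := (fin_append c A S).symm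
        have hbx := val_last S _ hvS h3
        rw [hAS] at hp hbx h5
        refine ReflTransGen.head ⟨hp, ?_⟩ (ih (A ++ S) B (by rw [hL, List.append_assoc]) ?_ hbx)
        · rcases h5 with h5 | h5
          · right
            rw [h5, List.append_nil] at hL
            rw [← hL, hf]
          · left
            by_contra h6
            apply h5
            intro i
            rw [not_exists] at h6
            have h7 := h6 i
            rw [not_or, not_lt, not_lt] at h7
            push_cast
            exact h7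
        · rw [List.length_append] at hT
          have h6 := List.length_pos_iff.2 h3
          omega
  exact key L.length [] L rfl le_rfl hc

end Pool.Agent.NPH
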