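import Pool.Agent.NPH.StS
import Pool.Agent.NPH.STR

/-!
# Project NPH, module STRS (helper68): walks in a box, with an order of the coordinates

As `STR` (helper61); the box is also bounded by `X i + lo ≤ X j` for `o i j`.
-/

set_option autoImplicit false

namespace Pool.Agent.NPH

open Pool.Agent.Heads Relation

namespace STRSx

open STRx

variable {V : Type} {D : ℕ}

/-- a minimal representation has few items between two vertices that do not satisfy `R` -/
theorem short [Finite V] {E : V → V → (Fin D → ℤ) → Prop} (hU : Unit1 E)
    {Q R : (Fin D → ℤ) → Prop}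
    (hQR : ∀ d : Fin D → ℤ, (∀ i, |d i| ≤ (Nat.card V : ℤ)) → ∀ X, R X → Q (X + d))
    {c c' : V × (Fin D → ℤ)} {A S B : List (Itm V D)}
    (hv : val E (Nat.card V) Q c (A ++ (S ++ B)))
    (hf : fin c (A ++ (S ++ B)) = c')
    (hmin : ∀ L', val E (Nat.card V) Q c L' → fin c L' = c' → ¬ Better L' (A ++ (S ++ B)))
    (hin : inn R (fin c A) S) :
    S.length ≤ (FF V D + 1) * Nat.card V := by
  classical
  refine count (Nat.card V) (FF V D) S ?_ ?_
  · intro A' T B' h1 h2
    by_contra h3
    rw [not_lt] at h3
    have e : A ++ (S ++ B) = (A ++ A') ++ (T ++ (B' ++ B)) := by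
      rw [h1]
      simp only [List.append_assoc]
    rw [e] at hv hf hmin
    obtain ⟨L', k1, k2, k3⟩ := run h2 h3 hv
    exact hmin L' k1 (k2.trans hf) k3
  · have hvS : val E (Nat.card V) Q (fin c A) S := by
      rw [val_append, val_append] at hv
      exact hv.2.1
    have hwk : ∀ {v : V} {d : Fin D → ℤ} {n : ℕ}, Itm.p v d n ∈ S →
        ∀ i, |d i| ≤ (Nat.card V : ℤ) := by
      intro v d n hm i
      obtain ⟨l, -, hl, hw⟩ := mem_ok S _ hvS hm
      exact (wk_one hw hU i).trans (by exact_mod_cast hl)
    have hnd : (S.filterMap pw).Nodup := by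
      rw [List.Nodup, List.pairwise_filterMap, List.pairwise_iff_forall_sublist]
      intro a b hab x hx y hy hxy
      subst hxy
      obtain ⟨r1, r2, h1, h2, h3⟩ := List.cons_sublist_iff.1 hab
      obtain ⟨s, t, rfl⟩ := List.append_of_mem h2
      obtain ⟨s', t', rfl⟩ := List.append_of_mem (List.singleton_sublist.1 h3)
      cases a with
      | e v' d => exact absurd hx (by simp [pw])
      | p v d n =>
        cases b with
        | e v' d => exact absurd hy (by simp [pw])
        | p v2 d2 n' =>
          have h4 : (v, d) = x := Option.some.inj hx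
          have h5 : (v2, d2) = x := Option.some.inj hy
          rw [← h4] at h5
          obtain ⟨rfl, rfl⟩ := Prod.mk.inj h5
          have hS : S = s ++ .p v2 d2 n :: ((t ++ s') ++ .p v2 d2 n' :: t') := by
            rw [h1]
            simp
          have e : A ++ (S ++ B) =
              (A ++ s) ++ .p v2 d2 n :: ((t ++ s') ++ .p v2 d2 n' :: (t' ++ B)) := by
            rw [hS]
            simp
          have hQR' : ∀ X, R X → Q (X + d2) := hQR d2 (hwk (v := v2) (n := n) (by
            rw [hS]
            simp))
          rw [e] at hv hf hmin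
          have h0 : R (nxt (fin c (A ++ s)) (.p v2 d2 n)).2 := by
            have := hin (s ++ [.p v2 d2 n]) ((t ++ s') ++ .p v2 d2 n' :: t') (by rw [hS]; simp)
              (by simp) (by simp)
            rw [fin_append] at this
            rw [fin_append]
            exact this
          have hmid : val E (Nat.card V) R (nxt (fin c (A ++ s)) (.p v2 d2 n)) (t ++ s') := by
            refine val_of (Q := Q) _ _ ?_ ?_
            · have h6 := hv
              rw [val_append] at h6
              obtain ⟨-, -, -, h7⟩ := h6
              rw [val_append] at h7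
              exact h7.1
            · intro S' T h6 _
              have := hin (s ++ .p v2 d2 n :: S') (T ++ .p v2 d2 n' :: t') (by rw [hS, h6]; simp)
                (by simp) (by simp)
              rw [fin_append] at this
              rw [fin_append c]
              exact this
          obtain ⟨L', k1, k2, k3⟩ := exch hQR' hv h0 hmid
          exact hmin L' k1 (k2.trans hf) k3
    rw [← List.toFinset_card_of_nodup hnd, FF, ← Set.ncard_coe_finset]
    refine Set.ncard_le_ncard ?_ (fin_FF V D)
    intro x hx
    rw [Finset.mem_coe, List.mem_toFinset, List.mem_filterMap] at hx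
    obtain ⟨a, ha, hax⟩ := hx
    cases a with
    | e v' d => exact absurd hax (by simp [pw])
    | p v d n =>
      have h4 : (v, d) = x := Option.some.inj hax
      rw [← h4]
      exact hwk ha

theorem piece_of {E : V → V → (Fin D → ℤ) → Prop} {N M lo : ℕ} (hlo : 1 ≤ lo)
    {o : Fin D → Fin D → Prop} (S : List (Itm V D)) (a : V × (Fin D → ℤ)) (ha : SBx lo M o a.2)
    (hv : val E N (SBx lo M o) a S) (m : ℕ) (hm : S.length ≤ m) :
    PieceS E N M lo m o a (fin a S) := by
  induction S generalizing a m with
  | nil => exact ⟨0, fun _ => a, Nat.zero_le _, rfl, rfl, fun t _ => ha, fun t ht => absurd ht (by omega)⟩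
  | cons it S ih =>
    obtain ⟨h1, h2, h3⟩ := hv
    rw [List.length_cons] at hm
    obtain ⟨l, s, hl, s0, sl, hb, hs⟩ := ih _ h2 h3 (m - 1) (by omega)
    refine ⟨l + 1, fun t => Nat.casesOn t a s, by omega, rfl, sl, fun t ht => ?_, fun t ht => ?_⟩
    · cases t with
      | zero => exact ha
      | succ t => exact hb t (by omega)
    · cases t with
      | zero =>
        show ItE E a (s 0) ∨ ItP E N M a (s 0)
        rw [s0]
        exact item_of hlo h1 ha.1 h2.1
      | succ t => exact hs t (by omega)

/-- a vertex that is not near stays in the box -/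
theorem stay {N M : ℕ} {o : Fin D → Fin D → Prop} (d : Fin D → ℤ) (hd : ∀ i, |d i| ≤ (N : ℤ))
    (X : Fin D → ℤ) (hX : SBx (4 * N + 1) M o X) : SBx (2 * N + 1) M o (X + d) := by
  have h1 : ∀ i, -(N : ℤ) ≤ d i ∧ d i ≤ N := fun i => abs_le.1 (hd i)
  constructor
  · intro i
    have h2 := hX.1 i
    have h3 := h1 i
    push_cast at h2 ⊢
    show _ ≤ X i + d i ∧ X i + d i ≤ _
    constructor <;> linarith [h2.1, h2.2, h3.1, h3.2]
  · intro i j hij
    have h2 := hX.2 i j hij
    have h3 := h1 i
    have h4 := h1 j
    push_cast at h2 ⊢
    show X i + d i + _ ≤ X j + d j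
    linarith [h3.1, h3.2, h4.1, h4.2]

end STRSx

open STRx in
theorem t_STRS : STRS_Stmt := by
  classical
  intro V _ D E hU
  refine ⟨(FF V D + 1) * Nat.card V, fun M o c c' hc h => ?_⟩
  obtain ⟨L0, h0⟩ := exists_list (N := Nat.card V) h
  obtain ⟨L, ⟨hv, hf⟩, hmin⟩ := exists_min h0
  have key : ∀ (k : ℕ) (A T : List (Itm V D)), L = A ++ T → T.length ≤ k →
      SBx (2 * Nat.card V + 1) M o (fin c A).2 →
      ReflTransGen (fun a b => PieceS E (Nat.card V) M (2 * Nat.card V + 1)
        ((FF V D + 1) * Nat.card V) o a b ∧
        ((∃ i, b.2 i < 4 * Nat.card V + 1 ∨ (M : ℤ) - (4 * Nat.card V + 1) < b.2 i) ∨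
          (∃ i j, o i j ∧ b.2 j - b.2 i < 4 * Nat.card V + 1) ∨ b = c')) (fin c A) c' := by
    intro k
    induction k with
    | zero =>
      intro A T hL hT _
      have h1 : T = [] := List.length_eq_zero_iff.1 (by omega)
      rw [h1, List.append_nil] at hL
      rw [← hL, hf]
    | succ k ih =>
      intro A T hL hT hA
      by_cases h1 : T = []
      · rw [h1, List.append_nil] at hL
        rw [← hL, hf]
      · obtain ⟨S, B, h2, h3, h4, h5⟩ := split (SBx (4 * Nat.card V + 1) M o) T (fin c A) h1
        subst h2
        have hv' := hv
        rw [hL, val_append, val_append] at hv'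
        obtain ⟨-, hvS, -⟩ := hv'
        have hlen : S.length ≤ (FF V D + 1) * Nat.card V := by
          refine STRSx.short hU (c' := c') (A := A) (B := B) STRSx.stay ?_ ?_ ?_ h4
          · rw [← hL]
            exact hv
          · rw [← hL]
            exact hf
          · rw [← hL]
            exact hmin
        have hp := STRSx.piece_of (by omega) S (fin c A) hA hvS _ hlen
        have hAS : fin (fin c A) S = fin c (A ++ S) := (fin_append c A S).symm
        have hbx := val_last S _ hvS h3
        rw [hAS] at hp hbx h5
        refine ReflTransGen.head ⟨hp, ?_⟩ (ih (A ++ S) B (by rw [hL, List.append_assoc]) ?_ hbx)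
        · rcases h5 with h5 | h5
          · right
            right
            rw [h5, List.append_nil] at hL
            rw [← hL, hf]
          · by_contra h6
            rw [not_or, not_or] at h6
            obtain ⟨h6, h7, -⟩ := h6
            apply h5
            constructor
            · intro i
              rw [not_exists] at h6
              have h8 := h6 i
              rw [not_or, not_lt, not_lt] at h8
              push_cast
              exact h8
            · intro i j hij
              by_contra h8
              rw [not_le] at h8
              refine h7 ⟨i, j, hij, ?_⟩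
              push_cast at h8
              linarith
        · rw [List.length_append] at hT
          have h6 := List.length_pos_iff.2 h3
          omega
  exact key L.length [] L rfl le_rfl hc

end Pool.Agent.NPH
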