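import Pool.Agent.NPH.AUL
import Pool.Agent.NPH.AUC
import Pool.Agent.NPH.AUF
import Pool.Agent.NPH.HMV
import Pool.Agent.NPH.STRS
import Pool.Agent.NPH.SNDS
import Pool.Agent.NPH.PCAS
import Pool.Agent.NPH.ACCS
import Pool.Agent.NPH.GLOS
import Pool.Agent.NPH.STPS
import Pool.Agent.NPH.LSYS
import Pool.Agent.NPH.LWRS
import Pool.Agent.NPH.LWES
import Pool.Agent.NPH.LOWS

/-! Project NPH: assembly of the lower part for sensing heads. -/

set_option autoImplicit false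

namespace Pool.Agent.NPH

theorem lowers : LOWERS_Stmt :=
  t_LOWS t_ACCS t_LSYS t_LWES (t_GLOS t_HMV t_STRS t_SNDS)
    (t_LWRS t_AUL t_AUC t_AUF (t_PCAS t_AUL t_AUC t_AUF) (t_STPS t_AUL t_AUC t_AUF))

end Pool.Agent.NPH
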