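import Pool.Agent.NPH.StD

/-!
# Project NPH: BFA, a finite automaton on binary codewords, simulated on the words

A head of `A'` on cell `1 + (p - 1) m + o`, `o < m`, is represented by a head on cell `p` and the
number `o`; cell `0` by cell `0` with any number `o`.
-/

set_option autoImplicit false

namespace Pool.Agent.NPH

open Pool.Agent.Heads Relation

namespace BFA

variable {α : Type}

/-- The letters of the coded word. -/
theorem getElem_flatMap (m : ℕ) (enc : α → List (Fin 2)) (henc : ∀ c, (enc c).length = m)
    (o : ℕ) (ho : o < m) (w : List α) : ∀ i : ℕ,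
      (w.flatMap enc)[i * m + o]? = (w[i]?).map (fun c => (enc c).getD o 0) := by
  induction w with
  | nil => intro i; simp
  | cons a w ih =>
    intro i
    rw [List.flatMap_cons]
    cases i with
    | zero =>
      rw [Nat.zero_mul, Nat.zero_add, List.getElem?_append_left (by rw [henc]; exact ho)]
      have h : o < (enc a).length := by rw [henc]; exact ho
      rw [List.getElem?_cons_zero, Option.map_some, List.getD_eq_getElem?_getD,
        List.getElem?_eq_getElem h]
      rfl
    | succ i =>
      have h1 : (i + 1) * m + o = (enc a).length + (i * m + o) := by rw [henc]; ring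
      rw [h1, List.getElem?_append_right (Nat.le_add_right _ _), Nat.add_sub_cancel_left, ih i,
        List.getElem?_cons_succ]

theorem length_flatMap (m : ℕ) (enc : α → List (Fin 2)) (henc : ∀ c, (enc c).length = m)
    (w : List α) : (w.flatMap enc).length = w.length * m := by
  induction w with
  | nil => simp
  | cons a w ih =>
    rw [List.flatMap_cons, List.length_append, ih, henc, List.length_cons]
    ring

/-- The bit scanned by the simulated head. -/
def bsym {m : ℕ} (enc : α → List (Fin 2)) (o : Fin m) : Sym α → Sym (Fin 2)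
  | Sym.left => Sym.left
  | Sym.letter c => Sym.letter ((enc c).getD o.1 0)
  | Sym.right => Sym.right

/-- The cell of the simulated head. -/
def pos {m : ℕ} : ℕ → Fin m → ℕ
  | 0, _ => 0
  | p + 1, o => p * m + o.1 + 1

/-- The new number and the move. -/
def act {m : ℕ} (hm : 1 ≤ m) (o : Fin m) : Sym α → Dir → Fin m × Dir
  | _, Dir.S => (o, Dir.S)
  | Sym.left, Dir.L => (o, Dir.S)
  | Sym.left, Dir.R => (⟨0, hm⟩, Dir.R)
  | Sym.letter _, Dir.L =>
      if 0 < o.1 then (⟨o.1 - 1, lt_of_le_of_lt (Nat.sub_le _ _) o.2⟩, Dir.S)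
      else (⟨m - 1, Nat.sub_lt hm one_pos⟩, Dir.L)
  | Sym.letter _, Dir.R =>
      if h : o.1 + 1 < m then (⟨o.1 + 1, h⟩, Dir.S) else (⟨0, hm⟩, Dir.R)
  | Sym.right, Dir.L => (⟨m - 1, Nat.sub_lt hm one_pos⟩, Dir.L)
  | Sym.right, Dir.R => (o, Dir.S)

theorem tape_eq (m : ℕ) (enc : α → List (Fin 2)) (henc : ∀ c, (enc c).length = m) (w : List α)
    (p : ℕ) (o : Fin m) : tape (w.flatMap enc) (pos p o) = bsym enc o (tape w p) := by
  cases p with
  | zero => rfl
  | succ p =>
    show tape (w.flatMap enc) (p * m + o.1 + 1) = bsym enc o (tape w (p + 1))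
    unfold tape
    simp only
    rw [getElem_flatMap m enc henc o.1 o.2 w p]
    cases w[p]? with
    | none => rfl
    | some c => rfl

/-- The positions that occur. -/
def Inv {m : ℕ} (L : ℕ) (p : ℕ) (o : Fin m) : Prop := p ≤ L + 1 ∧ (p = L + 1 → o.1 = 0)

theorem move_eq {m : ℕ} (hm : 1 ≤ m) (w : List α) (p : ℕ) (o : Fin m) (d : Dir)
    (hI : Inv w.length p o) :
    pos (move (w.length + 1) p (act hm o (tape w p) d).2) (act hm o (tape w p) d).1 =
      move (w.length * m + 1) (pos p o) d ∧
    Inv w.length (move (w.length + 1) p (act hm o (tape w p) d).2)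
      (act hm o (tape w p) d).1 := by
  obtain ⟨h1, h2⟩ := hI
  cases p with
  | zero =>
    have ht : tape w 0 = Sym.left := rfl
    rw [ht]
    cases d with
    | L => exact ⟨rfl, Nat.zero_le _, fun h => absurd h (by show ¬ 0 = w.length + 1; omega)⟩
    | S => exact ⟨rfl, Nat.zero_le _, fun h => absurd h (by show ¬ 0 = w.length + 1; omega)⟩
    | R =>
      have e1 : move (w.length + 1) 0 Dir.R = 1 := by
        show min (0 + 1) (w.length + 1) = 1
        omega
      have e2 : move (w.length * m + 1) (pos 0 o) Dir.R = 1 := by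
        show min (0 + 1) (w.length * m + 1) = 1
        omega
      rw [e2]
      show pos (move (w.length + 1) 0 Dir.R) (⟨0, hm⟩ : Fin m) = 1 ∧
        Inv w.length (move (w.length + 1) 0 Dir.R) (⟨0, hm⟩ : Fin m)
      rw [e1]
      refine ⟨?_, by omega, fun _ => rfl⟩
      show 0 * m + 0 + 1 = 1
      omega
  | succ i =>
    by_cases hi : i < w.length
    · have ht : tape w (i + 1) = Sym.letter w[i] := by
        unfold tape
        simp only
        rw [List.getElem?_eq_getElem hi]
      rw [ht]
      have hle : (i + 1) * m ≤ w.length * m := Nat.mul_le_mul_right m hi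
      have hle' : i * m + m ≤ w.length * m := by
        rw [add_mul, one_mul] at hle
        exact hle
      have ho := o.2
      cases d with
      | S => exact ⟨rfl, h1, h2⟩
      | L =>
        by_cases h0 : 0 < o.1
        · have ha : act hm o (Sym.letter w[i]) Dir.L =
              (⟨o.1 - 1, lt_of_le_of_lt (Nat.sub_le _ _) o.2⟩, Dir.S) := by
            show (if 0 < o.1 then _ else _) = _
            rw [if_pos h0]
          rw [ha]
          refine ⟨?_, h1, fun h => ?_⟩
          · show i * m + (o.1 - 1) + 1 = i * m + o.1 + 1 - 1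
            omega
          · exact absurd h (by show ¬ i + 1 = w.length + 1; omega)
        · have ha : act hm o (Sym.letter w[i]) Dir.L =
              (⟨m - 1, Nat.sub_lt hm one_pos⟩, Dir.L) := by
            show (if 0 < o.1 then _ else _) = _
            rw [if_neg h0]
          rw [ha]
          refine ⟨?_, ?_, fun h => ?_⟩
          · show pos i (⟨m - 1, Nat.sub_lt hm one_pos⟩ : Fin m) = i * m + o.1 + 1 - 1
            cases i with
            | zero =>
              show 0 = 0 * m + o.1 + 1 - 1
              omega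
            | succ i =>
              show i * m + (m - 1) + 1 = (i + 1) * m + o.1 + 1 - 1
              rw [add_mul, one_mul]
              omega
          · show i + 1 - 1 ≤ w.length + 1
            omega
          · exact absurd h (by show ¬ i + 1 - 1 = w.length + 1; omega)
      | R =>
        by_cases h0 : o.1 + 1 < m
        · have ha : act hm o (Sym.letter w[i]) Dir.R = (⟨o.1 + 1, h0⟩, Dir.S) := by
            show (if h : o.1 + 1 < m then _ else _) = _
            rw [dif_pos h0]
          rw [ha]
          refine ⟨?_, h1, fun h => ?_⟩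
          · show i * m + (o.1 + 1) + 1 = min (i * m + o.1 + 1 + 1) (w.length * m + 1)
            omega
          · exact absurd h (by show ¬ i + 1 = w.length + 1; omega)
        · have ha : act hm o (Sym.letter w[i]) Dir.R = (⟨0, hm⟩, Dir.R) := by
            show (if h : o.1 + 1 < m then _ else _) = _
            rw [dif_neg h0]
          rw [ha]
          have e1 : move (w.length + 1) (i + 1) Dir.R = i + 1 + 1 := by
            show min (i + 1 + 1) (w.length + 1) = i + 1 + 1
            omega
          show pos (move (w.length + 1) (i + 1) Dir.R) (⟨0, hm⟩ : Fin m) = _ ∧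
            Inv w.length (move (w.length + 1) (i + 1) Dir.R) (⟨0, hm⟩ : Fin m)
          rw [e1]
          refine ⟨?_, by omega, fun _ => rfl⟩
          show (i + 1) * m + 0 + 1 = min (i * m + o.1 + 1 + 1) (w.length * m + 1)
          rw [add_mul, one_mul]
          omega
    · have hiL : i = w.length := by omega
      subst hiL
      have ho : o.1 = 0 := h2 rfl
      have ht : tape w (w.length + 1) = Sym.right := by
        unfold tape
        simp only
        rw [List.getElem?_eq_none le_rfl]
      rw [ht]
      cases d with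
      | S => exact ⟨rfl, h1, h2⟩
      | L =>
        refine ⟨?_, ?_, fun h => ?_⟩
        · show pos w.length (⟨m - 1, Nat.sub_lt hm one_pos⟩ : Fin m) =
            w.length * m + o.1 + 1 - 1
          rw [ho]
          cases w.length with
          | zero =>
            show 0 = 0 * m + 0 + 1 - 1
            omega
          | succ i =>
            show i * m + (m - 1) + 1 = (i + 1) * m + 0 + 1 - 1
            rw [add_mul, one_mul]
            omega
        · show w.length + 1 - 1 ≤ w.length + 1
          omega
        · exact absurd h (by show ¬ w.length + 1 - 1 = w.length + 1; omega)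
      | R =>
        refine ⟨?_, h1, h2⟩
        show w.length * m + o.1 + 1 = min (w.length * m + o.1 + 1 + 1) (w.length * m + 1)
        omega

variable {k : ℕ}

/-- The simulating automaton. -/
def sim {m : ℕ} (hm : 1 ≤ m) (enc : α → List (Fin 2)) (A' : FA (Fin 2) k) : FA α k where
  Q := A'.Q × (Fin k → Fin m)
  finQ := by
    have := A'.finQ
    infer_instance
  start := (A'.start, fun _ => ⟨0, hm⟩)
  accept := {x | x.1 ∈ A'.accept}
  δ := fun x s => {t | ∃ t' ∈ A'.δ x.1 (fun i => bsym enc (x.2 i) (s i)),
    t.1 = (t'.1, fun i => (act hm (x.2 i) (s i) (t'.2 i)).1) ∧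
    t.2 = fun i => (act hm (x.2 i) (s i) (t'.2 i)).2}

/-- The configuration of `A'`. -/
def im {m : ℕ} (hm : 1 ≤ m) (enc : α → List (Fin 2)) (A' : FA (Fin 2) k)
    (c : (sim hm enc A').Q × (Fin k → ℕ)) : A'.Q × (Fin k → ℕ) :=
  (c.1.1, fun i => pos (c.2 i) (c.1.2 i))

theorem step_iff {m : ℕ} (hm : 1 ≤ m) (enc : α → List (Fin 2)) (henc : ∀ c, (enc c).length = m)
    (A' : FA (Fin 2) k) (w : List α) (c : (sim hm enc A').Q × (Fin k → ℕ))
    (hI : ∀ i, Inv w.length (c.2 i) (c.1.2 i)) :
    (∀ d, (sim hm enc A').Step w c d → (∀ i, Inv w.length (d.2 i) (d.1.2 i)) ∧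
      A'.Step (w.flatMap enc) (im hm enc A' c) (im hm enc A' d)) ∧
    ∀ d', A'.Step (w.flatMap enc) (im hm enc A' c) d' → ∃ d, (sim hm enc A').Step w c d ∧
      im hm enc A' d = d' := by
  have hs : (fun i => tape (w.flatMap enc) ((im hm enc A' c).2 i)) =
      fun i => bsym enc (c.1.2 i) (tape w (c.2 i)) := by
    funext i
    exact tape_eq m enc henc w (c.2 i) (c.1.2 i)
  have hmv : ∀ (i : Fin k) (d : Dir), _ := fun i d =>
    move_eq hm w (c.2 i) (c.1.2 i) d (hI i)
  have hlen := length_flatMap m enc henc w
  constructor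
  · rintro d ⟨t, ⟨t', ht', h1, h2⟩, rfl⟩
    constructor
    · intro i
      show Inv w.length (move (w.length + 1) (c.2 i) (t.2 i)) (t.1.2 i)
      rw [h1, h2]
      exact (hmv i (t'.2 i)).2
    · refine ⟨t', ?_, ?_⟩
      · rw [hs]
        exact ht'
      · show (t.1.1, fun i => pos (move (w.length + 1) (c.2 i) (t.2 i)) (t.1.2 i)) = _
        rw [h1, h2, hlen]
        refine Prod.ext rfl ?_
        funext i
        exact (hmv i (t'.2 i)).1
  · rintro d' ⟨t', ht', rfl⟩
    rw [hs] at ht'
    refine ⟨_, ⟨((t'.1, fun i => (act hm (c.1.2 i) (tape w (c.2 i)) (t'.2 i)).1),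
      fun i => (act hm (c.1.2 i) (tape w (c.2 i)) (t'.2 i)).2), ⟨t', ht', rfl, rfl⟩, rfl⟩, ?_⟩
    rw [hlen]
    refine Prod.ext rfl ?_
    funext i
    exact (hmv i (t'.2 i)).1

end BFA

open BFA in
theorem t_BFA : BFA_Stmt := by
  intro α _ m enc hm henc k A'
  refine ⟨sim hm enc A', fun w => ?_⟩
  have hI0 : ∀ i : Fin k, Inv w.length 0 ((sim hm enc A').start.2 i) := fun i =>
    ⟨Nat.zero_le _, fun h => absurd h (by omega)⟩
  have h0 : im hm enc A' ((sim hm enc A').start, fun _ => 0) = (A'.start, fun _ => 0) := rfl
  constructor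
  · rintro ⟨c, hc, ha⟩
    have key : (∀ i, Inv w.length (c.2 i) (c.1.2 i)) ∧
        ReflTransGen (A'.Step (w.flatMap enc)) (A'.start, fun _ => 0) (im hm enc A' c) := by
      clear ha
      induction hc with
      | refl => exact ⟨hI0, .refl⟩
      | tail _ h2 ih =>
        obtain ⟨h3, h4⟩ := (step_iff hm enc henc A' w _ ih.1).1 _ h2
        exact ⟨h3, ih.2.tail h4⟩
    exact ⟨_, key.2, ha⟩
  · rintro ⟨c', hc, ha⟩
    have key : ∃ c, im hm enc A' c = c' ∧ (∀ i, Inv w.length (c.2 i) (c.1.2 i)) ∧
        ReflTransGen ((sim hm enc A').Step w) ((sim hm enc A').start, fun _ => 0) c := by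
      clear ha
      induction hc with
      | refl => exact ⟨_, h0, hI0, .refl⟩
      | tail _ h2 ih =>
        obtain ⟨c, rfl, h3, h4⟩ := ih
        obtain ⟨d, hd, rfl⟩ := (step_iff hm enc henc A' w c h3).2 _ h2
        exact ⟨d, rfl, ((step_iff hm enc henc A' w c h3).1 d hd).1, h4.tail hd⟩
    obtain ⟨c, rfl, _, h4⟩ := key
    exact ⟨c, h4, ha⟩

end Pool.Agent.NPH
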