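import Pool.Agent.NPH.StS
import Pool.Agent.NPH.BFA

/-!
# Project NPH: BFAS, a sensing automaton on binary codewords, simulated on the words

A head of `A'` on cell `1 + (p - 1) m + o`, `o < m`, is represented by a head on cell `p` and the
number `o`; cell `0` by cell `0` with any number `o` (see `BFA`). Two simulated heads are on the same cell
iff the heads are on the same cell and this is the left endmarker or the numbers are equal.
-/

set_option autoImplicit false

namespace Pool.Agent.NPH

open Pool.Agent.Heads Relation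

namespace BFAS

open BFA (length_flatMap bsym pos act tape_eq Inv move_eq)

variable {α : Type} {k : ℕ}

/-- The left endmarker. -/
def isL : Sym α → Bool
  | Sym.left => true
  | Sym.letter _ => false
  | Sym.right => false

theorem isL_succ (w : List α) (p : ℕ) : isL (tape w (p + 1)) = false := by
  unfold tape
  simp only
  cases w[p]? with
  | none => rfl
  | some c => rfl

/-- What the simulated heads sense. -/
def sen {m : ℕ} (o : Fin k → Fin m) (s : Fin k → Sym α) (e : Fin k → Fin k → Bool)
    (i j : Fin k) : Bool := e i j && (isL (s i) || decide (o i = o j))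

theorem pos_inj {m p p' : ℕ} (o o' : Fin m) (h : pos (p + 1) o = pos (p' + 1) o') :
    p = p' ∧ o = o' := by
  have h1 : p * m + o.1 + 1 = p' * m + o'.1 + 1 := h
  have ho := o.2
  have ho' := o'.2
  have hp : p = p' := by
    rcases lt_trichotomy p p' with hlt | heq | hgt
    · exfalso
      have : (p + 1) * m ≤ p' * m := Nat.mul_le_mul_right m hlt
      rw [add_mul, one_mul] at this
      omega
    · exact heq
    · exfalso
      have : (p' + 1) * m ≤ p * m := Nat.mul_le_mul_right m hgt
      rw [add_mul, one_mul] at this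
      omega
  subst hp
  exact ⟨rfl, Fin.ext (by omega)⟩

theorem sen_eq {m : ℕ} (w : List α) (p : Fin k → ℕ) (o : Fin k → Fin m) :
    (fun i j => decide (pos (p i) (o i) = pos (p j) (o j))) =
      sen o (fun i => tape w (p i)) (fun i j => decide (p i = p j)) := by
  funext i j
  unfold sen
  have key : ∀ (a b : ℕ) (u v : Fin m), decide (pos a u = pos b v) =
      (decide (a = b) && (isL (tape w a) || decide (u = v))) := by
    intro a b u v
    cases a with
    | zero =>
      cases b with
      | zero =>
        show decide (0 = 0) = (decide (0 = 0) && (true || decide (u = v)))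
        simp
      | succ b =>
        have h1 : ¬ pos 0 u = pos (b + 1) v := by
          show ¬ 0 = b * m + v.1 + 1
          omega
        rw [decide_eq_false h1, decide_eq_false (show ¬ 0 = b + 1 by omega), Bool.false_and]
    | succ a =>
      cases b with
      | zero =>
        have h1 : ¬ pos (a + 1) u = pos 0 v := by
          show ¬ a * m + u.1 + 1 = 0
          omega
        rw [decide_eq_false h1, decide_eq_false (show ¬ a + 1 = 0 by omega), Bool.false_and]
      | succ b =>
        rw [isL_succ, Bool.false_or]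
        by_cases h : pos (a + 1) u = pos (b + 1) v
        · obtain ⟨h1, h2⟩ := pos_inj u v h
          rw [decide_eq_true h, decide_eq_true (show a + 1 = b + 1 by omega), decide_eq_true h2]
          rfl
        · rw [decide_eq_false h]
          by_cases hab : a + 1 = b + 1
          · have huv : ¬ u = v := by
              intro huv
              apply h
              rw [hab, huv]
            rw [decide_eq_false huv, Bool.and_false]
          · rw [decide_eq_false hab, Bool.false_and]
  exact key (p i) (p j) (o i) (o j)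

/-- The simulating automaton. -/
def sim {m : ℕ} (hm : 1 ≤ m) (enc : α → List (Fin 2)) (A' : SFA (Fin 2) k) : SFA α k where
  Q := A'.Q × (Fin k → Fin m)
  finQ := by
    have := A'.finQ
    infer_instance
  start := (A'.start, fun _ => ⟨0, hm⟩)
  accept := {x | x.1 ∈ A'.accept}
  δ := fun x s e => {t | ∃ t' ∈ A'.δ x.1 (fun i => bsym enc (x.2 i) (s i)) (sen x.2 s e),
    t.1 = (t'.1, fun i => (act hm (x.2 i) (s i) (t'.2 i)).1) ∧
    t.2 = fun i => (act hm (x.2 i) (s i) (t'.2 i)).2}

/-- The configuration of `A'`. -/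
def im {m : ℕ} (hm : 1 ≤ m) (enc : α → List (Fin 2)) (A' : SFA (Fin 2) k)
    (c : (sim hm enc A').Q × (Fin k → ℕ)) : A'.Q × (Fin k → ℕ) :=
  (c.1.1, fun i => pos (c.2 i) (c.1.2 i))

theorem step_iff {m : ℕ} (hm : 1 ≤ m) (enc : α → List (Fin 2)) (henc : ∀ c, (enc c).length = m)
    (A' : SFA (Fin 2) k) (w : List α) (c : (sim hm enc A').Q × (Fin k → ℕ))
    (hI : ∀ i, Inv w.length (c.2 i) (c.1.2 i)) :
    (∀ d, (sim hm enc A').Step w c d → (∀ i, Inv w.length (d.2 i) (d.1.2 i)) ∧
      A'.Step (w.flatMap enc) (im hm enc A' c) (im hm enc A' d)) ∧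
    ∀ d', A'.Step (w.flatMap enc) (im hm enc A' c) d' → ∃ d, (sim hm enc A').Step w c d ∧
      im hm enc A' d = d' := by
  have hs : (fun i => tape (w.flatMap enc) ((im hm enc A' c).2 i)) =
      fun i => bsym enc (c.1.2 i) (tape w (c.2 i)) := by
    funext i
    exact tape_eq m enc henc w (c.2 i) (c.1.2 i)
  have he : (fun i j => decide ((im hm enc A' c).2 i = (im hm enc A' c).2 j)) =
      sen c.1.2 (fun i => tape w (c.2 i)) (fun i j => decide (c.2 i = c.2 j)) :=
    sen_eq w c.2 c.1.2
  have hmv : ∀ (i : Fin k) (d : Dir), _ := fun i d =>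
    move_eq hm w (c.2 i) (c.1.2 i) d (hI i)
  have hlen := length_flatMap m enc henc w
  constructor
  · rintro d ⟨t, ⟨t', ht', h1, h2⟩, rfl⟩
    constructor
    · intro i
      show Inv w.length (move (w.length + 1) (c.2 i) (t.2 i)) (t.1.2 i)
      rw [h1, h2]
      exact (hmv i (t'.2 i)).2
    · refine ⟨t', ?_, ?_⟩
      · rw [hs, he]
        exact ht'
      · show (t.1.1, fun i => pos (move (w.length + 1) (c.2 i) (t.2 i)) (t.1.2 i)) = _
        rw [h1, h2, hlen]
        refine Prod.ext rfl ?_
        funext i
        exact (hmv i (t'.2 i)).1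
  · rintro d' ⟨t', ht', rfl⟩
    rw [hs, he] at ht'
    refine ⟨_, ⟨((t'.1, fun i => (act hm (c.1.2 i) (tape w (c.2 i)) (t'.2 i)).1),
      fun i => (act hm (c.1.2 i) (tape w (c.2 i)) (t'.2 i)).2), ⟨t', ht', rfl, rfl⟩, rfl⟩, ?_⟩
    rw [hlen]
    refine Prod.ext rfl ?_
    funext i
    exact (hmv i (t'.2 i)).1

end BFAS

open BFAS in
open BFA (Inv) in
theorem t_BFAS : BFAS_Stmt := by
  intro α _ m enc hm henc k A'
  refine ⟨sim hm enc A', fun w => ?_⟩
  have hI0 : ∀ i : Fin k, Inv w.length 0 ((sim hm enc A').start.2 i) := fun i =>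
    ⟨Nat.zero_le _, fun h => absurd h (by omega)⟩
  have h0 : im hm enc A' ((sim hm enc A').start, fun _ => 0) = (A'.start, fun _ => 0) := rfl
  constructor
  · rintro ⟨c, hc, ha⟩
    have key : (∀ i, Inv w.length (c.2 i) (c.1.2 i)) ∧
        ReflTransGen (A'.Step (w.flatMap enc)) (A'.start, fun _ => 0) (im hm enc A' c) := by
      clear ha
      induction hc with
      | refl => exact ⟨hI0, .refl⟩
      | tail _ h2 ih =>
        obtain ⟨h3, h4⟩ := (step_iff hm enc henc A' w _ ih.1).1 _ h2
        exact ⟨h3, ih.2.tail h4⟩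
    exact ⟨_, key.2, ha⟩
  · rintro ⟨c', hc, ha⟩
    have key : ∃ c, im hm enc A' c = c' ∧ (∀ i, Inv w.length (c.2 i) (c.1.2 i)) ∧
        ReflTransGen ((sim hm enc A').Step w) ((sim hm enc A').start, fun _ => 0) c := by
      clear ha
      induction hc with
      | refl => exact ⟨_, h0, hI0, .refl⟩
      | tail _ h2 ih =>
        obtain ⟨c, rfl, h3, h4⟩ := ih
        obtain ⟨d, hd, rfl⟩ := (step_iff hm enc henc A' w c h3).2 _ h2
        exact ⟨d, rfl, ((step_iff hm enc henc A' w c h3).1 d hd).1, h4.tail hd⟩
    obtain ⟨c, rfl, _, h4⟩ := key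
    exact ⟨c, h4, ha⟩

end Pool.Agent.NPH
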