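import Pool.Agent.NPH.StD

/-!
# Project NPH, module BIN: T1 over the binary alphabet
-/

set_option autoImplicit false

namespace Pool.Agent.NPH

open Pool.Agent.Heads Relation

namespace BIN

/-- the codeword of the letter `c`: one `1`, at the place `c` -/
def enc (a : ℕ) (c : Fin a) : List (Fin 2) :=
  List.ofFn fun i : Fin (a + 1) => if (i : ℕ) = (c : ℕ) then (1 : Fin 2) else 0

lemma length_enc (a : ℕ) (c : Fin a) : (enc a c).length = a + 1 := by
  simp [enc]

lemma enc_injective (a : ℕ) : Function.Injective (enc a) := by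
  intro c c' h
  have h1 : (fun i : Fin (a + 1) => if (i : ℕ) = (c : ℕ) then (1 : Fin 2) else 0) =
      fun i : Fin (a + 1) => if (i : ℕ) = (c' : ℕ) then (1 : Fin 2) else 0 :=
    List.ofFn_injective h
  have h2 := congrFun h1 c.castSucc
  simp only [Fin.val_castSucc, if_true] at h2
  by_contra hne
  rw [if_neg (fun h3 => hne (Fin.ext h3))] at h2
  exact absurd h2 (by decide)

end BIN

open BIN in
/-- module BIN -/
theorem t_BIN : BIN_Stmt := by
  intro hP hF hT k hk
  obtain ⟨a, M, hM⟩ := hT k hk
  obtain ⟨M', hM'⟩ := hP (Fin a) (a + 1) (enc a) (by omega) (length_enc a) (enc_injective a) k M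
  refine ⟨M', fun A' hA' => ?_⟩
  obtain ⟨A, hA⟩ := hF (Fin a) (a + 1) (enc a) (by omega) (length_enc a) (2 * k) A'
  refine hM A (Set.ext fun w => ?_)
  rw [hA w, hA', hM' w]

end Pool.Agent.NPH
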