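import Pool.Agent.NPH.St0

/-!
# NPH_COL (helper49): the collapse
-/

set_option autoImplicit false

namespace Pool.Agent.NPH

open Pool.Agent.Heads Relation

namespace COLAux

/-- Bernoulli's inequality -/
lemma bern (i n : ℕ) : (i + 1) ^ n * (i + 1) ≤ i ^ n * (i + 1) + (i + 1) ^ n * n := by
  induction n with
  | zero => simp
  | succ n ih =>
    have h1 : (i + 1) ^ (n + 1) * (i + 1) =
        i * ((i + 1) ^ n * (i + 1)) + (i + 1) ^ n * (i + 1) := by ring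
    have h2 : i * ((i + 1) ^ n * (i + 1)) ≤ i * (i ^ n * (i + 1) + (i + 1) ^ n * n) :=
      Nat.mul_le_mul_left _ ih
    have h3 : i * (i ^ n * (i + 1) + (i + 1) ^ n * n) + (i + 1) ^ n * (i + 1) + (i + 1) ^ n * n =
        i ^ (n + 1) * (i + 1) + (i + 1) ^ (n + 1) * (n + 1) := by ring
    rw [h1, ← h3]
    have h4 : 0 ≤ (i + 1) ^ n * n := Nat.zero_le _
    omega

lemma bern2 {i n : ℕ} (h : 2 * n ≤ i + 1) : (i + 1) ^ n ≤ 2 * i ^ n := by
  have h1 := bern i n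
  have h2 : (i + 1) ^ n * (2 * n) ≤ (i + 1) ^ n * (i + 1) := Nat.mul_le_mul_left _ h
  have h3 : (i + 1) ^ n * (i + 1) ≤ (2 * i ^ n) * (i + 1) := by
    have e1 : (i + 1) ^ n * (2 * n) = 2 * ((i + 1) ^ n * n) := by ring
    have e2 : (2 * i ^ n) * (i + 1) = 2 * (i ^ n * (i + 1)) := by ring
    omega
  exact Nat.le_of_mul_le_mul_right h3 (Nat.succ_pos i)

lemma numbers {k S : ℕ} (hk : 1 ≤ k) (hS : (8 * k + 2) ^ (2 * k) < S) :
    ∃ j : ℕ, 1 ≤ j ∧ 4 * S ≤ (2 * j) ^ (2 * k) ∧ (2 * j) ^ (2 * k - 1) < S := by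
  classical
  have hex : ∃ j : ℕ, 4 * S ≤ (2 * j) ^ (2 * k) := by
    refine ⟨2 * S, ?_⟩
    calc 4 * S = 2 * (2 * S) := by ring
      _ ≤ (2 * (2 * S)) ^ (2 * k) := Nat.le_self_pow (by omega) _
  obtain ⟨j, hj, hmin⟩ : ∃ j : ℕ, 4 * S ≤ (2 * j) ^ (2 * k) ∧
      ∀ i, i < j → ¬ 4 * S ≤ (2 * i) ^ (2 * k) :=
    ⟨Nat.find hex, Nat.find_spec hex, fun i hi => Nat.find_min hex hi⟩
  have hbig : 4 * k + 2 ≤ j := by
    by_contra hlt
    have h1 : (2 * j) ^ (2 * k) ≤ (8 * k + 2) ^ (2 * k) := Nat.pow_le_pow_left (by omega) _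
    omega
  obtain ⟨i, rfl⟩ : ∃ i, j = i + 1 := ⟨j - 1, by omega⟩
  have hi := hmin i (Nat.lt_succ_self i)
  refine ⟨i + 1, by omega, hj, ?_⟩
  obtain ⟨n, hn⟩ : ∃ n, 2 * k = n + 1 := ⟨2 * k - 1, by omega⟩
  rw [hn] at hi ⊢
  rw [Nat.add_sub_cancel]
  have h1 : (i + 1) ^ n ≤ 2 * i ^ n := bern2 (by omega)
  have h2 : 4 * (2 * (i + 1)) ^ n ≤ (2 * i) ^ (n + 1) := by
    calc 4 * (2 * (i + 1)) ^ n = 4 * 2 ^ n * (i + 1) ^ n := by rw [mul_pow]; ring
      _ ≤ 4 * 2 ^ n * (2 * i ^ n) := Nat.mul_le_mul_left _ h1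
      _ = (2 * 2 ^ n * i ^ n) * 4 := by ring
      _ ≤ (2 * 2 ^ n * i ^ n) * i := Nat.mul_le_mul_left _ (by omega)
      _ = (2 * i) ^ (n + 1) := by rw [mul_pow]; ring
  omega

end COLAux

theorem t_COL : COL_Stmt := by
  intro hU hL hM k hk H
  have step : ∀ (Λ : Type) [Finite Λ] (S β : ℕ) (L : Set (List Λ)), 2 ≤ β → Even β →
      4 * S ≤ β ^ (2 * k) → InT Λ (2 * k) S L → InT Λ (2 * k) (β ^ (2 * k - 1)) L := by
    intro Λ _ S β L hβ he h4 hT
    obtain ⟨M, hMx⟩ := hU Λ k β S hk he h4 L hT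
    have h5 : Finite (Sym Λ) := Finite.of_surjective
      (fun o : Option (Option Λ) => match o with
        | none => Sym.left
        | some none => Sym.right
        | some (some a) => Sym.letter a)
      (by
        rintro (_ | a | _)
        · exact ⟨none, rfl⟩
        · exact ⟨some (some a), rfl⟩
        · exact ⟨some none, rfl⟩)
    obtain ⟨A, hA⟩ := H (Option (Sym Λ)) M
    have h6 := hL Λ (2 * k) β (by omega) hβ A
    have h7 : {x | pad (β ^ (x.length + 1)) x ∈ A.lang} = L := by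
      ext x
      change pad (β ^ (x.length + 1)) x ∈ A.lang ↔ x ∈ L
      rw [hA]
      exact hMx x
    rwa [h7] at h6
  refine ⟨(8 * k + 2) ^ (2 * k), ?_⟩
  intro Λ _ S
  induction S using Nat.strong_induction_on with
  | _ S ih =>
    intro L hT
    rcases Nat.lt_or_ge ((8 * k + 2) ^ (2 * k)) S with hS | hS
    · obtain ⟨j, h1, h2, h3⟩ := COLAux.numbers hk hS
      exact ih _ h3 L (step Λ S (2 * j) L (by omega) (even_two_mul j) h2 hT)
    · exact hM Λ (2 * k) S _ L hS hT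

end Pool.Agent.NPH
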