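import Pool.Agent.NPH.St0

/-!
# Project NPH: MON, more letters
-/

set_option autoImplicit false

namespace Pool.Agent.NPH

open Pool.Agent.Heads Relation

namespace MON

variable {Λ : Type} {r S S' : ℕ}

/-- The machine over the larger memory alphabet. -/
def big (h : S ≤ S') (T : RM Λ r S) : RM Λ r S' where
  Q := T.Q
  finQ := T.finQ
  start := T.start
  accept := T.accept
  blank := Fin.castLE h T.blank
  sw := fun q a => {x | ∃ a0 b0, Fin.castLE h a0 = a ∧ (x.1, b0) ∈ T.sw q a0 ∧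
    Fin.castLE h b0 = x.2}
  hd := T.hd

/-- The embedding of the configurations. -/
def emb (h : S ≤ S') (T : RM Λ r S) (c : T.Conf) : (big h T).Conf :=
  (c.1, c.2.1, c.2.2.map (Fin.castLE h))

theorem sweep_iff (h : S ≤ S') (T : RM Λ r S) (q' : T.Q) (u : List (Fin S)) :
    ∀ (q : T.Q) (v' : List (Fin S')),
      Sweep (big h T).sw q (u.map (Fin.castLE h)) q' v' ↔
        ∃ v, v' = v.map (Fin.castLE h) ∧ Sweep T.sw q u q' v := by
  induction u with
  | nil =>
    intro q v'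
    constructor
    · rintro ⟨h1, h2⟩
      exact ⟨[], by rw [h2]; rfl, h1, rfl⟩
    · rintro ⟨v, rfl, h1, h2⟩
      exact ⟨h1, by rw [h2]; rfl⟩
  | cons a u ih =>
    intro q v'
    constructor
    · rintro ⟨p, b, w, ⟨a0, b0, ha, hb, hb2⟩, rfl, h2⟩
      obtain ⟨v, rfl, hv⟩ := (ih p w).1 h2
      have ha' : a0 = a := Fin.castLE_injective h ha
      subst ha'
      have hb2' : Fin.castLE h b0 = b := hb2
      refine ⟨b0 :: v, ?_, p, b0, v, hb, rfl, hv⟩
      rw [List.map_cons, hb2']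
    · rintro ⟨v, rfl, p, b0, v0, hb, rfl, hv⟩
      refine ⟨p, Fin.castLE h b0, v0.map (Fin.castLE h), ⟨a, b0, rfl, hb, rfl⟩, rfl, ?_⟩
      exact (ih p _).2 ⟨v0, rfl, hv⟩

theorem round_iff (h : S ≤ S') (T : RM Λ r S) (x : List Λ) (c : T.Conf) (c' : (big h T).Conf) :
    (big h T).Round x (emb h T c) c' ↔ ∃ d, c' = emb h T d ∧ T.Round x c d := by
  constructor
  · rintro ⟨p, h1, t, ht, h2, h3⟩
    obtain ⟨v, hv, hs⟩ := (sweep_iff h T p c.2.2 c.1 c'.2.2).1 h1
    refine ⟨(c'.1, c'.2.1, v), ?_, p, hs, t, ht, h2, h3⟩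
    unfold emb
    rw [← hv]
  · rintro ⟨d, rfl, p, hs, t, ht, h2, h3⟩
    exact ⟨p, (sweep_iff h T p c.2.2 c.1 _).2 ⟨d.2.2, rfl, hs⟩, t, ht, h2, h3⟩

theorem reach_iff (h : S ≤ S') (T : RM Λ r S) (x : List Λ) (c : T.Conf) (c' : (big h T).Conf) :
    ReflTransGen ((big h T).Round x) (emb h T c) c' ↔
      ∃ d, c' = emb h T d ∧ ReflTransGen (T.Round x) c d := by
  constructor
  · intro hr
    induction hr with
    | refl => exact ⟨c, rfl, .refl⟩
    | tail _ h2 ih =>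
      obtain ⟨d, rfl, hd⟩ := ih
      obtain ⟨d', rfl, hd'⟩ := (round_iff h T x d _).1 h2
      exact ⟨d', rfl, hd.tail hd'⟩
  · rintro ⟨d, rfl, hd⟩
    induction hd with
    | refl => exact .refl
    | tail _ h2 ih => exact ih.tail ((round_iff h T x _ _).2 ⟨_, rfl, h2⟩)

theorem init_eq (h : S ≤ S') (T : RM Λ r S) (x : List Λ) :
    (big h T).init x = emb h T (T.init x) := by
  unfold RM.init emb
  rw [List.map_replicate]
  rfl

end MON

open MON in
theorem t_MON : MONO_Stmt := by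
  rintro Λ r S S' L h ⟨T, rfl⟩
  refine ⟨big h T, ?_⟩
  ext x
  constructor
  · rintro ⟨c', hc, ha⟩
    rw [init_eq] at hc
    obtain ⟨d, rfl, hd⟩ := (reach_iff h T x _ _).1 hc
    exact ⟨d, hd, ha⟩
  · rintro ⟨d, hd, ha⟩
    refine ⟨emb h T d, ?_, ha⟩
    rw [init_eq]
    exact (reach_iff h T x _ _).2 ⟨d, rfl, hd⟩

end Pool.Agent.NPH
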