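import Pool.Agent.NPH.St0

/-!
# Project NPH: the assembly of T1 from the main statements
-/

set_option autoImplicit false

namespace Pool.Agent.NPH

open Pool.Agent.Heads Relation

/-- **TOP**: the assembly. -/
theorem t_TOP : TOP_Stmt := by
  intro hCOL hU hL hM hH hT k hk
  by_contra hcon
  push Not at hcon
  have H : ∀ (α : Type) [Finite α] (M : PDA α k), ∃ A : FA α (2 * k), A.lang = M.lang := by
    intro α _ M
    obtain ⟨a, ⟨e⟩⟩ := Finite.exists_equiv_fin α
    obtain ⟨M', hM'⟩ := (hT α (Fin a) e k).1 M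
    obtain ⟨A', hA'⟩ := hcon a M'
    obtain ⟨A, hA⟩ := (hT α (Fin a) e (2 * k)).2 A'
    refine ⟨A, ?_⟩
    rw [hA, hA', hM']
    ext w
    constructor
    · rintro ⟨w', hw', h⟩
      rw [List.map_injective_iff.2 e.injective h] at hw'
      exact hw'
    · intro h
      exact ⟨w, h, rfl⟩
  obtain ⟨S₀, h⟩ := hCOL hU hL hM k hk H
  obtain ⟨Λ, hΛ, S', L, h1, h2⟩ := hH (2 * k) S₀ (by omega)
  exact h2 (h Λ S' L h1)

end Pool.Agent.NPH
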