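import Pool.Agent.NPH.St0

/-!
# Project NPH, module TRP: transport along a bijection of the alphabets
-/

set_option autoImplicit false

namespace Pool.Agent.NPH

open Pool.Agent.Heads Relation

namespace TRPx

variable {α β : Type} {k : ℕ}

/-- the image of a symbol -/
def sm (f : α → β) : Sym α → Sym β
  | Sym.left => Sym.left
  | Sym.letter a => Sym.letter (f a)
  | Sym.right => Sym.right

theorem tape_map (f : α → β) (w : List α) (p : ℕ) : tape (w.map f) p = sm f (tape w p) := by
  cases p with
  | zero => rfl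
  | succ p =>
    simp only [tape, List.getElem?_map]
    cases w[p]? <;> rfl

/-- inverse image of a pushdown automaton -/
def pull (f : α → β) (M : PDA β k) : PDA α k where
  Q := M.Q
  Γ := M.Γ
  finQ := M.finQ
  finΓ := M.finΓ
  start := M.start
  accept := M.accept
  δ := fun q x g => M.δ q (fun i => sm f (x i)) g

theorem step_pull (f : α → β) (M : PDA β k) (w : List α) (c c' : Cfg M.Q (Fin k → ℕ) M.Γ) :
    (pull f M).Step w c c' ↔ M.Step (w.map f) c c' := by
  unfold PDA.Step
  simp only [tape_map, List.length_map]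
  exact Iff.rfl

theorem reach_pull₁ (f : α → β) (M : PDA β k) (w : List α) (t : ℕ)
    (c : Cfg (pull f M).Q (Fin k → ℕ) (pull f M).Γ) (h : (pull f M).Reach w t c) :
    PDA.Reach M (w.map f) t c := by
  refine PDA.Reach.rec (M := pull f M) (w := w)
    (motive := fun t c _ => PDA.Reach M (w.map f) t c) ?_ ?_ h
  · exact PDA.Reach.zero (M := M)
  · intro t c c' _ h2 ih
    exact PDA.Reach.succ (M := M) ih ((step_pull f M w _ _).1 h2)

theorem reach_pull₂ (f : α → β) (M : PDA β k) (w : List α) (t : ℕ)
    (c : Cfg M.Q (Fin k → ℕ) M.Γ) (h : M.Reach (w.map f) t c) :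
    PDA.Reach (pull f M) w t c := by
  refine PDA.Reach.rec (M := M) (w := w.map f)
    (motive := fun t c _ => PDA.Reach (pull f M) w t c) ?_ ?_ h
  · exact PDA.Reach.zero (M := pull f M)
  · intro t c c' _ h2 ih
    exact PDA.Reach.succ (M := pull f M) ih ((step_pull f M w _ _).2 h2)

theorem lang_pull (f : α → β) (M : PDA β k) : (pull f M).lang = {w | w.map f ∈ M.lang} := by
  ext w
  constructor
  · rintro ⟨t, c, h1, h2⟩
    exact ⟨t, c, reach_pull₁ f M w t c h1, h2⟩
  · rintro ⟨t, c, h1, h2⟩
    exact ⟨t, c, reach_pull₂ f M w t c h1, h2⟩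

/-- inverse image of a finite automaton -/
def pullF (f : α → β) (M : FA β k) : FA α k where
  Q := M.Q
  finQ := M.finQ
  start := M.start
  accept := M.accept
  δ := fun q x => M.δ q (fun i => sm f (x i))

theorem step_pullF (f : α → β) (M : FA β k) (w : List α) :
    (pullF f M).Step w = M.Step (w.map f) := by
  funext c c'
  apply propext
  unfold FA.Step
  simp only [tape_map, List.length_map]
  exact Iff.rfl

theorem lang_pullF (f : α → β) (M : FA β k) : (pullF f M).lang = {w | w.map f ∈ M.lang} := by
  ext w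
  constructor
  · rintro ⟨c, h1, h2⟩
    rw [step_pullF] at h1
    exact ⟨c, h1, h2⟩
  · rintro ⟨c, h1, h2⟩
    refine ⟨c, ?_, h2⟩
    rw [step_pullF]
    exact h1

end TRPx

open TRPx in
theorem t_TRP : TRP_Stmt := by
  intro α α' e k
  refine ⟨fun M => ⟨pull e.symm M, ?_⟩, fun A => ⟨pullF e A, lang_pullF e A⟩⟩
  rw [lang_pull]
  ext w
  constructor
  · intro h
    exact ⟨w.map e.symm, h, by simp⟩
  · rintro ⟨u, hu, rfl⟩
    change (u.map e).map e.symm ∈ M.lang
    have h1 : (u.map e).map e.symm = u := by simp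
    rw [h1]
    exact hu

end Pool.Agent.NPH
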