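import Pool.Agent.NPH.BPD
import Pool.Agent.NPH.BFA
import Pool.Agent.NPH.BIN
import Pool.Agent.NPH.MON
import Pool.Agent.NPH.COL
import Pool.Agent.NPH.COLS
import Pool.Agent.NPH.TRP
import Pool.Agent.NPH.TOP
import Pool.Agent.NPH.TOPS
import Pool.Agent.NPH.BFAS

/-! Project NPH: final assembly, from the three main parts. -/

set_option autoImplicit false

namespace Pool.Agent.NPH

theorem t1_of (hU : UPPER_Stmt) (hL : LOWER_Stmt) (hH : HIER_Stmt) : T1_Stmt :=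
  t_TOP t_COL hU hL t_MON hH t_TRP

theorem t1b_of (hU : UPPER_Stmt) (hL : LOWER_Stmt) (hH : HIER_Stmt) : T1B_Stmt :=
  t_BIN t_BPD t_BFA (t1_of hU hL hH)

theorem t1s_of (hU : UPPER_Stmt) (hL : LOWERS_Stmt) (hH : HIER_Stmt) : T1S_Stmt :=
  t_TOPS t_COLS t_BPD t_BFAS hU hL t_MON hH

end Pool.Agent.NPH
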