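import Pool.Agent.NPH.StA

/-!
# Project NPH, module ACT (helper90): the actions are computed by one-head programs
-/

set_option autoImplicit false

namespace Pool.Agent.NPH

open Pool.Agent.Heads Relation

namespace ACT

/-- the cells of the pairs in the range are on the tape -/
theorem cel_le {M j P n : ℕ} (hj : j ≤ n + 1) (hP : P < M) : cel M j P ≤ (n + 2) * M + 1 := by
  have h1 : j * M ≤ (n + 1) * M := Nat.mul_le_mul_right M hj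
  have h2 : (n + 2) * M = (n + 1) * M + M := by ring
  unfold cel
  omega

/-- a step of a reading head -/
theorem case_hd (h3 : RDM_Stmt) (h4 : MVM_Stmt) (Λ H : Type) (β : ℕ) (a : Sym Λ) (d : Dir) :
    ∃ τ : Rl1 (Option (Sym Λ)) (Bool ⊕ H), Real1 τ ∧ ∀ (M : ℕ) (x : List Λ) (y : ℕ × ℕ)
      (s : List (Bool ⊕ H)) (c' : ℕ × List (Bool ⊕ H)), 1 ≤ M → β ∣ M → Inr M x y → Cln s →
      (τ (pad M x) (cel M y.1 y.2, s) c' ↔
        ∃ y', AcR β M x (Ac.hd a d) y y' ∧ c' = (cel M y'.1 y'.2, s)) := by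
  obtain ⟨τ₁, r₁, e₁⟩ := h3 Λ H a
  obtain ⟨τ₂, r₂, e₂⟩ := h4 Λ H d
  refine ⟨_, r₁.seq r₂, ?_⟩
  intro M x y s c' hM _ hy hs
  obtain ⟨hj, hP⟩ := hy
  constructor
  · rintro ⟨c₁, t₁, t₂⟩
    obtain ⟨ha, rfl⟩ := (e₁ M x y.1 y.2 s c₁ hM hj hP hs).1 t₁
    have t₃ := (e₂ M x y.1 y.2 s c' hM hj hP hs).1 t₂
    exact ⟨(move (x.length + 1) y.1 d, y.2), ⟨ha, rfl⟩, t₃⟩
  · rintro ⟨y', ⟨ha, rfl⟩, rfl⟩
    exact ⟨(cel M y.1 y.2, s), (e₁ M x y.1 y.2 s _ hM hj hP hs).2 ⟨ha, rfl⟩,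
      (e₂ M x y.1 y.2 s _ hM hj hP hs).2 rfl⟩

/-- a step of the register -/
theorem case_rr (h1 : PAD_Stmt) (h2 : POP_Stmt) (h5 : RRL_Stmt) (h6 : RRR_Stmt) (Λ H : Type)
    (β σ σ' : ℕ) (hβ : 1 ≤ β) (hσ : σ < β) (hσ' : σ' < β) :
    ∃ τ : Rl1 (Option (Sym Λ)) (Bool ⊕ H), Real1 τ ∧ ∀ (M : ℕ) (x : List Λ) (y : ℕ × ℕ)
      (s : List (Bool ⊕ H)) (c' : ℕ × List (Bool ⊕ H)), 1 ≤ M → β ∣ M → Inr M x y → Cln s →
      (τ (pad M x) (cel M y.1 y.2, s) c' ↔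
        ∃ y', AcR β M x (Ac.rr σ σ') y y' ∧ c' = (cel M y'.1 y'.2, s)) := by
  obtain ⟨τ₁, r₁, e₁⟩ := h5 Λ H β σ hσ
  obtain ⟨τ₂, r₂, e₂⟩ := h6 Λ H β σ' hβ
  obtain ⟨τ₃, r₃, e₃⟩ := h2 (Option (Sym Λ)) H
  refine ⟨_, r₁.seq (r₂.seq r₃), ?_⟩
  intro M x y s c' hM hβM hy hs
  have hlen := (h1 Λ M x hM).1
  have key : ∀ q : ℕ, y.2 / β = q → y.2 % β = σ →
      (τ₃ (pad M x) (cel M y.1 0, (List.replicate (σ' * (M / β)) true).map Sum.inl ++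
        ((List.replicate q false).map Sum.inl ++ s)) c' ↔
        c' = (cel M y.1 (q + σ' * (M / β)), s)) := by
    intro q hq hmod
    have hin : Inr M x (y.1, y.2 / β + σ' * (M / β)) :=
      AcR.inr (a := Ac.rr σ σ') ⟨hmod, rfl⟩ ⟨hσ, hσ'⟩ hβM hy
    obtain ⟨hj, hP⟩ := hin
    rw [hq] at hP
    have hle := cel_le (M := M) (P := q + σ' * (M / β)) hj hP
    have hl : (List.replicate (σ' * (M / β)) true ++ List.replicate q false).length =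
        σ' * (M / β) + q := by
      rw [List.length_append, List.length_replicate, List.length_replicate]
    have hc : cel M y.1 0 + (σ' * (M / β) + q) = cel M y.1 (q + σ' * (M / β)) := by
      unfold cel
      omega
    have h7 := e₃ (pad M x) (cel M y.1 0)
      (List.replicate (σ' * (M / β)) true ++ List.replicate q false) s c' hs
      (by rw [hl, hc, hlen]; exact hle)
    rw [List.map_append, List.append_assoc, hl, hc] at h7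
    exact h7
  obtain ⟨hj, hP⟩ := hy
  constructor
  · rintro ⟨c₁, t₁, c₂, t₂, t₃⟩
    obtain ⟨hmod, rfl⟩ := (e₁ M x y.1 y.2 s c₁ hM hj hP).1 t₁
    have h8 := (e₂ M x y.1 ((List.replicate (y.2 / β) false).map Sum.inl ++ s) c₂ hM hβM hj).1 t₂
    subst h8
    exact ⟨(y.1, y.2 / β + σ' * (M / β)), ⟨hmod, rfl⟩, (key _ rfl hmod).1 t₃⟩
  · rintro ⟨y', ⟨hmod, rfl⟩, h8⟩
    exact ⟨_, (e₁ M x y.1 y.2 s _ hM hj hP).2 ⟨hmod, rfl⟩, _,
      (e₂ M x y.1 _ _ hM hβM hj).2 rfl, (key _ rfl hmod).2 h8⟩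

end ACT

theorem t_ACT (h1 : PAD_Stmt) (h2 : POP_Stmt) (h3 : RDM_Stmt) (h4 : MVM_Stmt) (h5 : RRL_Stmt)
    (h6 : RRR_Stmt) : ACT_Stmt := by
  intro Λ H β a hβ ha
  cases a with
  | rr σ σ' => exact ACT.case_rr h1 h2 h5 h6 Λ H β σ σ' hβ ha.1 ha.2
  | hd a d => exact ACT.case_hd h3 h4 Λ H β a d

end Pool.Agent.NPH
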