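import Pool.Agent.NPH.StA

/-!
# NPH, module CNV: the converse of a program
-/

set_option autoImplicit false

namespace Pool.Agent.NPH

open Pool.Agent.Heads Relation

namespace CNV

variable {α Γ : Type}

lemma tape_some {w : List α} {p : ℕ} {a : α} (h : w[p]? = some a) :
    tape w (p + 1) = Sym.letter a := by
  simp only [tape, h]

lemma tape_none {w : List α} {p : ℕ} (h : w[p]? = none) : tape w (p + 1) = Sym.right := by
  simp only [tape, h]

lemma tape_left (w : List α) (j : ℕ) : tape w j = Sym.left ↔ j = 0 := by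
  cases j with
  | zero => exact ⟨fun _ => rfl, fun _ => rfl⟩
  | succ j =>
    refine ⟨fun h => ?_, fun h => absurd h (Nat.succ_ne_zero j)⟩
    cases hx : w[j]? with
    | some a => rw [tape_some hx] at h; exact absurd h (by simp)
    | none => rw [tape_none hx] at h; exact absurd h (by simp)

lemma tape_right (w : List α) (j : ℕ) (hj : j ≤ w.length + 1) :
    tape w j = Sym.right ↔ j = w.length + 1 := by
  cases j with
  | zero => exact ⟨fun h => absurd h (by simp [tape]), fun h => by omega⟩
  | succ j =>
    constructor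
    · intro h
      by_contra hc
      have h1 : j < w.length := by omega
      rw [tape_some (List.getElem?_eq_getElem h1)] at h
      exact absurd h (by simp)
    · intro h
      exact tape_none (List.getElem?_eq_none (by omega))

/-- The guard of the backward move of a head. -/
def hg (d : Dir) (e : Bool) (s : Sym α) : Prop :=
  match d, e with
  | Dir.S, _ => True
  | Dir.L, true => s ≠ Sym.right
  | Dir.L, false => s = Sym.left
  | Dir.R, true => s ≠ Sym.left
  | Dir.R, false => s = Sym.right

/-- The backward move of a head. -/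
def dd (d : Dir) (e : Bool) : Dir :=
  match d, e with
  | Dir.S, _ => Dir.S
  | Dir.L, true => Dir.R
  | Dir.L, false => Dir.S
  | Dir.R, true => Dir.L
  | Dir.R, false => Dir.S

/-- The guard of the backward stack operation. -/
def sg (o : Op Γ) (g : Option Γ) (top : Option Γ) : Prop :=
  match o, g with
  | Op.none, _ => True
  | Op.push γ, _ => top = some γ
  | Op.pop, none => top = none
  | Op.pop, some _ => True

/-- The backward stack operation. -/
def so (o : Op Γ) (g : Option Γ) : Op Γ :=
  match o, g with
  | Op.none, _ => Op.none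
  | Op.push _, _ => Op.pop
  | Op.pop, none => Op.none
  | Op.pop, some γ => Op.push γ

lemma head_iff (w : List α) (p p' : ℕ) (hp' : p' ≤ w.length + 1) (d : Dir) :
    (∃ e : Bool, hg d e (tape w p') ∧ p = move (w.length + 1) p' (dd d e)) ↔
      p ≤ w.length + 1 ∧ p' = move (w.length + 1) p d := by
  have hl := tape_left w p'
  have hr := tape_right w p' hp'
  rw [Bool.exists_bool]
  cases d with
  | S =>
    simp only [hg, dd, move, true_and, or_self]
    omega
  | L =>
    simp only [hg, dd, move, hl, hr, ne_eq]
    omega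
  | R =>
    simp only [hg, dd, move, hl, hr, ne_eq]
    omega

lemma stack_iff (o : Op Γ) (s s' : List Γ) :
    (∃ g : Option Γ, sg o g s'.head? ∧ s = (so o g).apply s') ↔ s' = o.apply s := by
  cases o with
  | none =>
    constructor
    · rintro ⟨g, -, h⟩
      exact h.symm
    · intro h
      exact ⟨none, trivial, h.symm⟩
  | push γ =>
    constructor
    · rintro ⟨g, h1, h2⟩
      cases s' with
      | nil => exact absurd h1 (by simp [sg])
      | cons a t =>
        have h3 : some a = some γ := h1
        have h4 : s = t := h2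
        rw [Option.some.injEq] at h3
        rw [h3, h4]
        rfl
    · intro h
      refine ⟨none, ?_, ?_⟩
      · rw [h]
        rfl
      · rw [h]
        rfl
  | pop =>
    constructor
    · rintro ⟨g, h1, h2⟩
      cases g with
      | none =>
        cases s' with
        | nil =>
          have h3 : s = [] := h2
          rw [h3]
          rfl
        | cons a t => exact absurd h1 (by simp [sg])
      | some γ =>
        have h3 : s = γ :: s' := h2
        rw [h3]
        rfl
    · intro h
      cases s with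
      | nil =>
        have h3 : s' = [] := h
        rw [h3]
        exact ⟨none, rfl, rfl⟩
      | cons a t =>
        have h3 : s' = t := h
        rw [h3]
        exact ⟨some a, trivial, rfl⟩

end CNV

open CNV in
theorem t_CNV (h1 : UNI_Stmt) : CNV_Stmt := by
  intro α k Γ _ ρ hρ
  induction hρ with
  | act G d o =>
    have hU := (h1 α k Γ).1 ((Fin k → Bool) × Option Γ)
      (fun i w c c' => ∃ c₁ : Cf k Γ,
        (Val w c ∧ ((∀ j, hg (d j) (i.1 j) (tape w (c.1 j))) ∧ sg o i.2 c.2.head?) ∧
          c₁ = (fun j => move (w.length + 1) (c.1 j) (dd (d j) (i.1 j)),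
            (so o i.2).apply c.2)) ∧
        (Val w c₁ ∧ G (fun j => tape w (c₁.1 j)) c₁.2.head? ∧
          c' = (fun j => move (w.length + 1) (c₁.1 j) Dir.S, (Op.none : Op Γ).apply c₁.2)))
      (fun i => Real.seq
        (Real.act (fun s g => (∀ j, hg (d j) (i.1 j) (s j)) ∧ sg o i.2 g)
          (fun j => dd (d j) (i.1 j)) (so o i.2))
        (Real.act G (fun _ => Dir.S) Op.none))
    have key : (fun (w : List α) (c c' : Cf k Γ) => Val w c' ∧
        G (fun i => tape w (c'.1 i)) c'.2.head? ∧
        c = (fun i => move (w.length + 1) (c'.1 i) (d i), o.apply c'.2)) =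
        (fun (w : List α) (c c' : Cf k Γ) => ∃ i : (Fin k → Bool) × Option Γ, ∃ c₁ : Cf k Γ,
        (Val w c ∧ ((∀ j, hg (d j) (i.1 j) (tape w (c.1 j))) ∧ sg o i.2 c.2.head?) ∧
          c₁ = (fun j => move (w.length + 1) (c.1 j) (dd (d j) (i.1 j)),
            (so o i.2).apply c.2)) ∧
        (Val w c₁ ∧ G (fun j => tape w (c₁.1 j)) c₁.2.head? ∧
          c' = (fun j => move (w.length + 1) (c₁.1 j) Dir.S, (Op.none : Op Γ).apply c₁.2))) := by
      funext w c c'
      apply propext
      constructor
      · rintro ⟨hv, hG, hc⟩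
        have hc1 : ∀ j, c.1 j = move (w.length + 1) (c'.1 j) (d j) := by
          intro j
          rw [hc]
        have hc2 : c.2 = o.apply c'.2 := by rw [hc]
        have hvc : Val w c := fun j => by
          rw [hc1]
          exact move_le _ _ _ (hv j)
        have hh : ∀ j, ∃ e : Bool, hg (d j) e (tape w (c.1 j)) ∧
            c'.1 j = move (w.length + 1) (c.1 j) (dd (d j) e) := fun j =>
          (head_iff w (c'.1 j) (c.1 j) (hvc j) (d j)).2 ⟨hv j, hc1 j⟩
        choose ε hε using hh
        obtain ⟨g, hg1, hg2⟩ := (stack_iff o c'.2 c.2).2 hc2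
        refine ⟨(ε, g), c', ⟨hvc, ⟨fun j => (hε j).1, hg1⟩, ?_⟩, hv, hG, rfl⟩
        exact Prod.ext (funext fun j => (hε j).2) hg2
      · rintro ⟨⟨ε, g⟩, c₁, ⟨hvc, ⟨hg1, hg2⟩, hc₁⟩, hv, hG, hc'⟩
        have h3 : c' = c₁ := hc'
        rw [h3]
        have h4 : ∀ j, c₁.1 j ≤ w.length + 1 ∧
            c.1 j = move (w.length + 1) (c₁.1 j) (d j) := fun j =>
          (head_iff w (c₁.1 j) (c.1 j) (hvc j) (d j)).1 ⟨ε j, hg1 j, by rw [hc₁]⟩
        have h5 : c.2 = o.apply c₁.2 := (stack_iff o c₁.2 c.2).1 ⟨g, hg2, by rw [hc₁]⟩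
        exact ⟨hv, hG, Prod.ext (funext fun j => (h4 j).2) h5⟩
    rw [key]
    exact hU
  | @seq ρ σ _ _ ih1 ih2 =>
    have key : (fun (w : List α) (c c' : Cf k Γ) => ∃ c₁, ρ w c' c₁ ∧ σ w c₁ c) =
        (fun (w : List α) (c c' : Cf k Γ) => ∃ c₁, σ w c₁ c ∧ ρ w c' c₁) := by
      funext w c c'
      apply propext
      exact ⟨fun ⟨c₁, h2, h3⟩ => ⟨c₁, h3, h2⟩, fun ⟨c₁, h2, h3⟩ => ⟨c₁, h3, h2⟩⟩
    rw [key]
    exact Real.seq ih2 ih1
  | alt _ _ ih1 ih2 => exact Real.alt ih1 ih2
  | @star ρ _ ih =>
    have key : (fun (w : List α) (c c' : Cf k Γ) => ReflTransGen (ρ w) c' c) =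
        (fun (w : List α) => ReflTransGen (fun c c' : Cf k Γ => ρ w c' c)) := by
      funext w c c'
      apply propext
      exact Relation.reflTransGen_swap.symm
    rw [key]
    exact Real.star ih

end Pool.Agent.NPH
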