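import Pool.Agent.NPH.StA

/-!
# Project NPH, module DGT: the rotating word and its registers
-/

set_option autoImplicit false

namespace Pool.Agent.NPH

open Pool.Agent.Heads Relation

namespace DGT

/-- the register number `i` of a marked memory word -/
def reg {S r : ℕ} (β : ℕ) (e : Fin S × Bool → Fin r → ℕ) (i : Fin r) (W : List (Fin S × Bool)) : ℕ :=
  Nat.ofDigits β (W.map fun b => e b i)

variable {S r : ℕ} {β : ℕ} {e : Fin S × Bool → Fin r → ℕ}

lemma reg_cons (i : Fin r) (b : Fin S × Bool) (u : List (Fin S × Bool)) :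
    reg β e i (b :: u) = e b i + β * reg β e i u := by
  simp [reg, Nat.ofDigits_cons]

lemma reg_snoc (i : Fin r) (b : Fin S × Bool) (u : List (Fin S × Bool)) :
    reg β e i (u ++ [b]) = reg β e i u + β ^ u.length * e b i := by
  simp [reg, Nat.ofDigits_append]

lemma reg_zero (i : Fin r) (b : Fin S) (hb : e (b, false) i = 0) (m : ℕ) :
    reg β e i ((List.replicate m b).map fun a => (a, false)) = 0 := by
  induction m with
  | zero => simp [reg]
  | succ m ih =>
    rw [List.replicate_succ, List.map_cons, reg_cons, ih, hb]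
    simp

/-- the effect of a rotation on the registers -/
lemma rot (hβ : 1 ≤ β) (he : ∀ b i, e b i < β) (i : Fin r) (b b' : Fin S × Bool)
    (u : List (Fin S × Bool)) {m : ℕ} (hm : u.length = m) :
    reg β e i (b :: u) % β = e b i ∧
      reg β e i (u ++ [b']) = reg β e i (b :: u) / β + e b' i * (β ^ (m + 1) / β) := by
  have hβ' : 0 < β := hβ
  rw [reg_cons, reg_snoc, hm]
  refine ⟨?_, ?_⟩
  · rw [Nat.add_mul_mod_self_left, Nat.mod_eq_of_lt (he b i)]
  · rw [Nat.add_mul_div_left _ _ hβ', Nat.div_eq_of_lt (he b i), zero_add, pow_succ,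
      Nat.mul_div_cancel _ hβ', Nat.mul_comm (e b' i)]

section Step

variable {Λ Q : Type} {x : List Λ} {W : List (Fin S × Bool)} {pos : Fin r → ℕ}

/-- one letter, from the word to the registers -/
lemma step_fwd (hβ : 1 ≤ β) (he : ∀ b i, e b i < β) (hW : W.length = x.length + 1)
    (η : Ev Λ Q r S) (y' : List (Fin S × Bool) × (Fin r → ℕ)) (h : EvA x η (W, pos) y') :
    y'.1.length = x.length + 1 ∧ ∀ i, AcR β (β ^ (x.length + 1)) x (evAc e η i)
      (pos i, reg β e i W) (y'.2 i, reg β e i y'.1) := by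
  cases η with
  | sw μ p a p' a' =>
    obtain ⟨u, hu, rfl⟩ := h
    have hu' : W = (a, μ) :: u := hu
    subst hu'
    have hlen : u.length = x.length := by simpa using hW
    refine ⟨by simp [hlen], fun i => ?_⟩
    obtain ⟨h1, h2⟩ := rot hβ he i (a, μ) (a', μ) u hlen
    exact ⟨h1, Prod.ext rfl h2⟩
  | hd p s p' d =>
    obtain ⟨h1, rfl⟩ := h
    exact ⟨hW, fun i => ⟨h1 i, rfl⟩⟩
  | ck p a =>
    obtain ⟨u, hu, rfl⟩ := h
    have hu' : W = (a, true) :: u := hu
    subst hu'
    have hlen : u.length = x.length := by simpa using hW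
    refine ⟨by simp [hlen], fun i => ?_⟩
    obtain ⟨h1, h2⟩ := rot hβ he i (a, true) (a, true) u hlen
    exact ⟨h1, Prod.ext rfl h2⟩

/-- one letter, from the registers to the word -/
lemma step_bwd (hβ : 1 ≤ β) (he : ∀ b i, e b i < β)
    (hinj : ∀ b b', (∀ i, e b i = e b' i) → b = b') (hW : W.length = x.length + 1)
    (η : Ev Λ Q r S) (y : Fin r → ℕ × ℕ)
    (h : ∀ i, AcR β (β ^ (x.length + 1)) x (evAc e η i) (pos i, reg β e i W) (y i)) :
    ∃ y' : List (Fin S × Bool) × (Fin r → ℕ), EvA x η (W, pos) y' := by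
  obtain ⟨b, u, rfl⟩ : ∃ b u, W = b :: u := by
    cases W with
    | nil => simp at hW
    | cons b u => exact ⟨b, u, rfl⟩
  have hlen : u.length = x.length := by simpa using hW
  cases η with
  | sw μ p a p' a' =>
    have hb : b = (a, μ) := by
      apply hinj
      intro i
      rw [← (rot hβ he i b b u hlen).1]
      exact (h i).1
    subst hb
    exact ⟨_, u, rfl, rfl⟩
  | hd p s p' d =>
    exact ⟨_, fun i => (h i).1, rfl⟩
  | ck p a =>
    have hb : b = (a, true) := by
      apply hinj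
      intro i
      rw [← (rot hβ he i b b u hlen).1]
      exact (h i).1
    subst hb
    exact ⟨_, u, rfl, rfl⟩

/-- the actions are functions -/
lemma acR_unique {a : Ac Λ} {M : ℕ} {y y₁ y₂ : ℕ × ℕ} (h₁ : AcR β M x a y y₁)
    (h₂ : AcR β M x a y y₂) : y₁ = y₂ := by
  cases a with
  | rr σ σ' => rw [h₁.2, h₂.2]
  | hd a d => rw [h₁.2, h₂.2]

/-- runs of actions are functions -/
lemma run_unique {f : Ev Λ Q r S → Ac Λ} {M : ℕ} {y₀ : ℕ × ℕ} (h : List (Ev Λ Q r S)) :
    ∀ y₁ y₂ : ℕ × ℕ, Run (fun η => AcR β M x (f η)) y₀ h y₁ →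
      Run (fun η => AcR β M x (f η)) y₀ h y₂ → y₁ = y₂ := by
  induction h with
  | nil => intro y₁ y₂ h₁ h₂; exact h₁.trans h₂.symm
  | cons η l ih =>
    rintro y₁ y₂ ⟨z₁, h₁, h₁'⟩ ⟨z₂, h₂, h₂'⟩
    have := ih z₁ z₂ h₁ h₂
    subst this
    exact acR_unique h₁' h₂'

end Step

end DGT

open DGT in
/-- module DGT -/
theorem t_DGT : DGT_Stmt := by
  intro Λ r S β T e hβ he hinj hbl x h
  have hinit : ∀ i, reg β e i (mrk (List.replicate (x.length + 1) T.blank)) = e (T.blank, true) i := by
    intro i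
    rw [List.replicate_succ, mrk, reg_cons, reg_zero i T.blank (hbl i)]
    simp
  have hlen0 : (mrk (List.replicate (x.length + 1) T.blank)).length = x.length + 1 := by
    rw [List.replicate_succ, mrk]
    simp
  have fwd : ∀ (h : List (Ev Λ T.Q r S)) (y : List (Fin S × Bool) × (Fin r → ℕ)),
      Run (EvA x) (mrk (List.replicate (x.length + 1) T.blank), fun _ => 0) h y →
      y.1.length = x.length + 1 ∧ ∀ i, Run (fun η => AcR β (β ^ (x.length + 1)) x (evAc e η i))
        (0, e (T.blank, true) i) h (y.2 i, reg β e i y.1) := by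
    intro h
    induction h with
    | nil =>
      intro y hy
      have hy' : y = (mrk (List.replicate (x.length + 1) T.blank), fun _ => 0) := hy
      subst hy'
      exact ⟨hlen0, fun i => Prod.ext rfl (hinit i)⟩
    | cons η l ih =>
      rintro y ⟨y', hy', hstep⟩
      obtain ⟨h1, h2⟩ := ih y' hy'
      obtain ⟨h3, h4⟩ := step_fwd hβ he h1 η y (pos := y'.2) hstep
      exact ⟨h3, fun i => ⟨_, h2 i, h4 i⟩⟩
  have bwd : ∀ (h : List (Ev Λ T.Q r S)),
      (∀ i, ∃ y, Run (fun η => AcR β (β ^ (x.length + 1)) x (evAc e η i))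
        (0, e (T.blank, true) i) h y) →
      ∃ y, Run (EvA x) (mrk (List.replicate (x.length + 1) T.blank), fun _ => 0) h y := by
    intro h
    induction h with
    | nil => intro _; exact ⟨_, rfl⟩
    | cons η l ih =>
      intro hr
      obtain ⟨y', hy'⟩ := ih (fun i => by
        obtain ⟨y, z, hz, -⟩ := hr i
        exact ⟨z, hz⟩)
      obtain ⟨h1, h2⟩ := fwd l y' hy'
      have h3 : ∀ i, ∃ y, AcR β (β ^ (x.length + 1)) x (evAc e η i) (y'.2 i, reg β e i y'.1) y := by
        intro i
        obtain ⟨y, z, hz, hz'⟩ := hr i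
        have := run_unique l _ _ hz (h2 i)
        subst this
        exact ⟨y, hz'⟩
      choose y hy using h3
      obtain ⟨y'', hy''⟩ := step_bwd hβ he hinj h1 η y hy (pos := y'.2)
      exact ⟨y'', y', hy', hy''⟩
  exact ⟨fun ⟨y, hy⟩ i => ⟨_, (fwd h y hy).2 i⟩, bwd h⟩

end Pool.Agent.NPH
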