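import Pool.Agent.NPH.StA

/-!
# Module NPH_ENC: the digits
-/

set_option autoImplicit false

namespace Pool.Agent.NPH

theorem t_ENC : ENC_Stmt := by
  classical
  intro r β S b h
  have hS : 1 ≤ S := Nat.one_le_of_lt b.2
  have hβ : 0 < β := by
    rcases Nat.eq_zero_or_pos β with h0 | h0
    · exfalso
      rw [h0] at h
      have h1 : (0 : ℕ) ^ r ≤ 1 := by
        rcases Nat.eq_zero_or_pos r with hr | hr
        · rw [hr, pow_zero]
        · rw [Nat.zero_pow hr]
          exact Nat.zero_le 1
      omega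
    · exact h0
  obtain ⟨f⟩ : Nonempty (Fin S × Bool ↪ (Fin r → Fin β)) := by
    refine Function.Embedding.nonempty_of_card_le ?_
    rw [Fintype.card_prod, Fintype.card_fin, Fintype.card_bool, Fintype.card_fun,
      Fintype.card_fin, Fintype.card_fin]
    omega
  obtain ⟨z, hz⟩ : ∃ z : Fin r → Fin β, ∀ i, (z i : ℕ) = 0 := ⟨fun _ => ⟨0, hβ⟩, fun _ => rfl⟩
  refine ⟨fun c i => (Equiv.swap (f (b, false)) z (f c) i : ℕ), fun c i => Fin.is_lt _, ?_, ?_⟩
  · intro c c' hc
    have h1 : Equiv.swap (f (b, false)) z (f c) = Equiv.swap (f (b, false)) z (f c') :=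
      funext fun i => Fin.ext (hc i)
    exact f.injective ((Equiv.swap (f (b, false)) z).injective h1)
  · intro i
    change (Equiv.swap (f (b, false)) z (f (b, false)) i : ℕ) = 0
    rw [Equiv.swap_apply_left]
    exact hz i

end Pool.Agent.NPH
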