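import Pool.Agent.NPH.StA

/-!
# Project NPH, module FAL: union of programs
-/

set_option autoImplicit false

namespace Pool.Agent.NPH

open Pool.Agent.Heads Relation

namespace FAL

variable {α : Type} {k : ℕ} {Γ : Type}

/-- the instruction that changes nothing and goes to the state `q` -/
def idle {Q : Type} (q : Q) : Q × (Fin k → Dir) × Op Γ := (q, fun _ => Dir.S, Op.none)

/-- the union of two programs -/
def un (P P' : Frag α k Γ) : Frag α k Γ where
  Q := (P.Q ⊕ P'.Q) ⊕ Bool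
  finQ := by
    have := P.finQ
    have := P'.finQ
    infer_instance
  s := Sum.inr false
  f := Sum.inr true
  δ := fun q x g => match q with
    | Sum.inl (Sum.inl q) =>
      {t | (∃ u ∈ P.δ q x g, t = (Sum.inl (Sum.inl u.1), u.2)) ∨ (q = P.f ∧ t = idle (Sum.inr true))}
    | Sum.inl (Sum.inr q) =>
      {t | (∃ u ∈ P'.δ q x g, t = (Sum.inl (Sum.inr u.1), u.2)) ∨ (q = P'.f ∧ t = idle (Sum.inr true))}
    | Sum.inr false =>
      {t | t = idle (Sum.inl (Sum.inl P.s)) ∨ t = idle (Sum.inl (Sum.inr P'.s))}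
    | Sum.inr true => ∅

variable {P P' : Frag α k Γ} {w : List α}

/-- the effect of an instruction that changes nothing -/
lemma idle_eq {Q : Type} (q : Q) (c : Cf k Γ) :
    (((idle (k := k) (Γ := Γ) q).1, fun i => move (w.length + 1) (c.1 i) ((idle (k := k) (Γ := Γ) q).2.1 i),
      (idle (k := k) (Γ := Γ) q).2.2.apply c.2) : Q × Cf k Γ) = (q, c) := rfl

lemma not_step_true {c : Cf k Γ} {y : (un P P').Q × Cf k Γ} :
    ¬ (un P P').Step w (Sum.inr true, c) y := by
  rintro ⟨t, ht, -⟩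
  exact ht

lemma eq_of_true {c : Cf k Γ} {y : (un P P').Q × Cf k Γ}
    (h : ReflTransGen ((un P P').Step w) (Sum.inr true, c) y) : y = (Sum.inr true, c) := by
  rcases ReflTransGen.cases_head h with h | ⟨z, hz, -⟩
  · exact h.symm
  · exact absurd hz not_step_true

/-- the steps of the first program -/
lemma step_left {q : P.Q} {c : Cf k Γ} {y : (un P P').Q × Cf k Γ} :
    (un P P').Step w (Sum.inl (Sum.inl q), c) y ↔
      (∃ y' : P.Q × Cf k Γ, P.Step w (q, c) y' ∧ y = (Sum.inl (Sum.inl y'.1), y'.2)) ∨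
        (q = P.f ∧ y = (Sum.inr true, c)) := by
  constructor
  · rintro ⟨t, ht, rfl⟩
    rcases ht with ⟨u, hu, rfl⟩ | ⟨hq, rfl⟩
    · exact Or.inl ⟨_, ⟨u, hu, rfl⟩, rfl⟩
    · exact Or.inr ⟨hq, rfl⟩
  · rintro (⟨y', ⟨u, hu, rfl⟩, rfl⟩ | ⟨hq, rfl⟩)
    · exact ⟨(Sum.inl (Sum.inl u.1), u.2), Or.inl ⟨u, hu, rfl⟩, rfl⟩
    · exact ⟨idle (Sum.inr true), Or.inr ⟨hq, rfl⟩, rfl⟩

/-- the steps of the second program -/
lemma step_right {q : P'.Q} {c : Cf k Γ} {y : (un P P').Q × Cf k Γ} :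
    (un P P').Step w (Sum.inl (Sum.inr q), c) y ↔
      (∃ y' : P'.Q × Cf k Γ, P'.Step w (q, c) y' ∧ y = (Sum.inl (Sum.inr y'.1), y'.2)) ∨
        (q = P'.f ∧ y = (Sum.inr true, c)) := by
  constructor
  · rintro ⟨t, ht, rfl⟩
    rcases ht with ⟨u, hu, rfl⟩ | ⟨hq, rfl⟩
    · exact Or.inl ⟨_, ⟨u, hu, rfl⟩, rfl⟩
    · exact Or.inr ⟨hq, rfl⟩
  · rintro (⟨y', ⟨u, hu, rfl⟩, rfl⟩ | ⟨hq, rfl⟩)
    · exact ⟨(Sum.inl (Sum.inr u.1), u.2), Or.inl ⟨u, hu, rfl⟩, rfl⟩
    · exact ⟨idle (Sum.inr true), Or.inr ⟨hq, rfl⟩, rfl⟩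

/-- the steps from the initial state -/
lemma step_start {c : Cf k Γ} {y : (un P P').Q × Cf k Γ} :
    (un P P').Step w (Sum.inr false, c) y ↔
      y = (Sum.inl (Sum.inl P.s), c) ∨ y = (Sum.inl (Sum.inr P'.s), c) := by
  constructor
  · rintro ⟨t, ht, rfl⟩
    rcases ht with rfl | rfl
    · exact Or.inl rfl
    · exact Or.inr rfl
  · rintro (rfl | rfl)
    · exact ⟨idle (Sum.inl (Sum.inl P.s)), Or.inl rfl, rfl⟩
    · exact ⟨idle (Sum.inl (Sum.inr P'.s)), Or.inr rfl, rfl⟩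

lemma run_left {x : (un P P').Q × Cf k Γ} {c' : Cf k Γ}
    (h : ReflTransGen ((un P P').Step w) x (Sum.inr true, c')) :
    ∀ (q : P.Q) (c : Cf k Γ), x = (Sum.inl (Sum.inl q), c) →
      ReflTransGen (P.Step w) (q, c) (P.f, c') := by
  induction h using ReflTransGen.head_induction_on with
  | refl =>
    intro q c h
    have h1 := congrArg Prod.fst h
    cases h1
  | head h1 h2 ih =>
    intro q c h
    subst h
    rcases step_left.1 h1 with ⟨y', hy', rfl⟩ | ⟨rfl, rfl⟩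
    · exact ReflTransGen.head hy' (ih _ _ rfl)
    · have h3 := eq_of_true h2
      have h4 : c' = c := congrArg Prod.snd h3
      rw [h4]

lemma run_right {x : (un P P').Q × Cf k Γ} {c' : Cf k Γ}
    (h : ReflTransGen ((un P P').Step w) x (Sum.inr true, c')) :
    ∀ (q : P'.Q) (c : Cf k Γ), x = (Sum.inl (Sum.inr q), c) →
      ReflTransGen (P'.Step w) (q, c) (P'.f, c') := by
  induction h using ReflTransGen.head_induction_on with
  | refl =>
    intro q c h
    have h1 := congrArg Prod.fst h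
    cases h1
  | head h1 h2 ih =>
    intro q c h
    subst h
    rcases step_right.1 h1 with ⟨y', hy', rfl⟩ | ⟨rfl, rfl⟩
    · exact ReflTransGen.head hy' (ih _ _ rfl)
    · have h3 := eq_of_true h2
      have h4 : c' = c := congrArg Prod.snd h3
      rw [h4]

lemma lift_left {a b : P.Q × Cf k Γ} (h : ReflTransGen (P.Step w) a b) :
    ReflTransGen ((un P P').Step w) ((Sum.inl (Sum.inl a.1), a.2) : (un P P').Q × Cf k Γ)
      (Sum.inl (Sum.inl b.1), b.2) :=
  ReflTransGen.lift (fun p : P.Q × Cf k Γ => ((Sum.inl (Sum.inl p.1), p.2) : (un P P').Q × Cf k Γ))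
    (fun _ b hab => step_left.2 (Or.inl ⟨b, hab, rfl⟩)) _ _ h

lemma lift_right {a b : P'.Q × Cf k Γ} (h : ReflTransGen (P'.Step w) a b) :
    ReflTransGen ((un P P').Step w) ((Sum.inl (Sum.inr a.1), a.2) : (un P P').Q × Cf k Γ)
      (Sum.inl (Sum.inr b.1), b.2) :=
  ReflTransGen.lift (fun p : P'.Q × Cf k Γ => ((Sum.inl (Sum.inr p.1), p.2) : (un P P').Q × Cf k Γ))
    (fun _ b hab => step_right.2 (Or.inl ⟨b, hab, rfl⟩)) _ _ h

end FAL

open FAL in
/-- module FAL -/
theorem t_FAL : FAL_Stmt := by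
  intro α k Γ P P'
  refine ⟨un P P', fun w c c' => ⟨fun h => ?_, fun h => ?_⟩⟩
  · rcases ReflTransGen.cases_head h with h | ⟨z, hz, hz'⟩
    · have h1 := congrArg Prod.fst h
      cases h1
    · rcases step_start.1 hz with rfl | rfl
      · exact Or.inl (run_left hz' _ _ rfl)
      · exact Or.inr (run_right hz' _ _ rfl)
  · rcases h with h | h
    · exact ReflTransGen.head (step_start.2 (Or.inl rfl))
        (ReflTransGen.tail (lift_left h) (step_left.2 (Or.inr ⟨rfl, rfl⟩)))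
    · exact ReflTransGen.head (step_start.2 (Or.inr rfl))
        (ReflTransGen.tail (lift_right h) (step_right.2 (Or.inr ⟨rfl, rfl⟩)))

end Pool.Agent.NPH
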