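import Pool.Agent.NPH.StA

/-!
# Project NPH, part A, module FIN: the finite types (helper9)
-/

set_option autoImplicit false

namespace Pool.Agent.NPH

open Pool.Agent.Heads Relation

namespace FIN

/-- symbols as options of options -/
def symCode {α : Type} : Sym α → Option (Option α)
  | Sym.left => none
  | Sym.right => some none
  | Sym.letter a => some (some a)

theorem symCode_inj {α : Type} : Function.Injective (symCode (α := α)) := by
  intro s t h
  cases s <;> cases t <;> simp_all [symCode]

theorem finSym (α : Type) [Finite α] : Finite (Sym α) := Finite.of_injective _ symCode_inj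

/-- directions as numbers -/
def dirCode : Dir → Fin 3
  | Dir.L => 0
  | Dir.S => 1
  | Dir.R => 2

theorem dirCode_inj : Function.Injective dirCode := by
  intro s t h
  cases s <;> cases t <;> simp_all [dirCode]

theorem finDir : Finite Dir := Finite.of_injective _ dirCode_inj

/-- letters of histories in a sum of products -/
def evCode {Λ Q : Type} {r S : ℕ} : Ev Λ Q r S →
    (Bool × Q × Fin S × Q × Fin S) ⊕ ((Q × (Fin r → Sym Λ) × Q × (Fin r → Dir)) ⊕ (Q × Fin S))
  | .sw μ p a p' a' => Sum.inl (μ, p, a, p', a')
  | .hd p s p' d => Sum.inr (Sum.inl (p, s, p', d))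
  | .ck p a => Sum.inr (Sum.inr (p, a))

theorem evCode_inj {Λ Q : Type} {r S : ℕ} :
    Function.Injective (evCode (Λ := Λ) (Q := Q) (r := r) (S := S)) := by
  intro s t h
  cases s <;> cases t <;> simp_all [evCode]

end FIN

theorem t_FIN : FIN_Stmt := by
  refine ⟨fun α _ => FIN.finSym α, FIN.finDir, ?_⟩
  intro Λ Q _ _ r S
  have := FIN.finSym Λ
  have := FIN.finDir
  exact Finite.of_injective _ FIN.evCode_inj

end Pool.Agent.NPH
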