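import Pool.Agent.NPH.StA

/-!
# FSQ: composition of programs
-/

set_option autoImplicit false

namespace Pool.Agent.NPH

open Pool.Agent.Heads Relation

namespace FSQ

variable {α : Type} {k : ℕ} {Γ : Type}

/-- The transitions: those of the two programs, and one from the final state of the first program to
the initial state of the second one that changes nothing. -/
def tr (P P' : Frag α k Γ) : P.Q ⊕ P'.Q → (Fin k → Sym α) → Option Γ →
    Set ((P.Q ⊕ P'.Q) × (Fin k → Dir) × Op Γ)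
  | Sum.inl q, s, g => {t | (∃ t' ∈ P.δ q s g, t = (Sum.inl t'.1, t'.2)) ∨
      (q = P.f ∧ t = (Sum.inr P'.s, (fun _ => Dir.S), Op.none))}
  | Sum.inr q, s, g => {t | ∃ t' ∈ P'.δ q s g, t = (Sum.inr t'.1, t'.2)}

/-- The composition. -/
def cmp (P P' : Frag α k Γ) : Frag α k Γ where
  Q := P.Q ⊕ P'.Q
  finQ := by
    have h1 := P.finQ
    have h2 := P'.finQ
    infer_instance
  s := Sum.inl P.s
  f := Sum.inr P'.f
  δ := tr P P'

variable (P P' : Frag α k Γ) (w : List α)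

/-- The embedding of the first program. -/
def el (x : P.Q × Cf k Γ) : (cmp P P').Q × Cf k Γ := ((Sum.inl x.1 : P.Q ⊕ P'.Q), x.2)

/-- The embedding of the second program. -/
def er (x : P'.Q × Cf k Γ) : (cmp P P').Q × Cf k Γ := ((Sum.inr x.1 : P.Q ⊕ P'.Q), x.2)

lemma step_l (x y : P.Q × Cf k Γ) (h : P.Step w x y) :
    (cmp P P').Step w (el P P' x) (el P P' y) := by
  obtain ⟨t, ht, rfl⟩ := h
  exact ⟨(Sum.inl t.1, t.2), Or.inl ⟨t, ht, rfl⟩, rfl⟩

lemma step_r (x y : P'.Q × Cf k Γ) (h : P'.Step w x y) :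
    (cmp P P').Step w (er P P' x) (er P P' y) := by
  obtain ⟨t, ht, rfl⟩ := h
  exact ⟨(Sum.inr t.1, t.2), ⟨t, ht, rfl⟩, rfl⟩

lemma step_m (c : Cf k Γ) :
    (cmp P P').Step w (el P P' (P.f, c)) (er P P' (P'.s, c)) :=
  ⟨(Sum.inr P'.s, (fun _ => Dir.S), Op.none), Or.inr ⟨rfl, rfl⟩, rfl⟩

lemma of_step_l (x : P.Q × Cf k Γ) (y : (cmp P P').Q × Cf k Γ)
    (h : (cmp P P').Step w (el P P' x) y) :
    (∃ z, y = el P P' z ∧ P.Step w x z) ∨ (x.1 = P.f ∧ y = er P P' (P'.s, x.2)) := by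
  obtain ⟨t, ht, rfl⟩ := h
  rcases ht with ⟨t', ht', rfl⟩ | ⟨hf, rfl⟩
  · exact Or.inl ⟨(t'.1, fun i => move (w.length + 1) (x.2.1 i) (t'.2.1 i),
      t'.2.2.apply x.2.2), rfl, t', ht', rfl⟩
  · exact Or.inr ⟨hf, rfl⟩

lemma of_step_r (x : P'.Q × Cf k Γ) (y : (cmp P P').Q × Cf k Γ)
    (h : (cmp P P').Step w (er P P' x) y) : ∃ z, y = er P P' z ∧ P'.Step w x z := by
  obtain ⟨t, ht, rfl⟩ := h
  obtain ⟨t', ht', rfl⟩ := ht
  exact ⟨(t'.1, fun i => move (w.length + 1) (x.2.1 i) (t'.2.1 i),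
      t'.2.2.apply x.2.2), rfl, t', ht', rfl⟩

/-- The meaning of a configuration from which the end is reached. -/
def Mng (c' : Cf k Γ) : (P.Q ⊕ P'.Q) × Cf k Γ → Prop
  | (Sum.inl q, c) => ∃ c₁, ReflTransGen (P.Step w) (q, c) (P.f, c₁) ∧
      ReflTransGen (P'.Step w) (P'.s, c₁) (P'.f, c')
  | (Sum.inr q, c) => ReflTransGen (P'.Step w) (q, c) (P'.f, c')

lemma mng (c' : Cf k Γ) (x : (cmp P P').Q × Cf k Γ)
    (h : ReflTransGen ((cmp P P').Step w) x (er P P' (P'.f, c'))) : Mng P P' w c' x := by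
  induction h using ReflTransGen.head_induction_on with
  | refl => exact ReflTransGen.refl
  | @head a b hab hb ih =>
    clear hb
    obtain ⟨q | q, c⟩ := a
    · rcases of_step_l P P' w (q, c) b hab with ⟨z, rfl, hz⟩ | ⟨hq, rfl⟩
      · obtain ⟨c₁, h1, h2⟩ := ih
        exact ⟨c₁, ReflTransGen.head hz h1, h2⟩
      · have hq' : q = P.f := hq
        subst hq'
        exact ⟨c, ReflTransGen.refl, ih⟩
    · obtain ⟨z, rfl, hz⟩ := of_step_r P P' w (q, c) b hab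
      exact ReflTransGen.head hz ih

end FSQ

/-- **FSQ.** -/
theorem t_FSQ : FSQ_Stmt := by
  intro α k Γ P P'
  refine ⟨FSQ.cmp P P', fun w c c' => ⟨fun h => ?_, ?_⟩⟩
  · exact FSQ.mng P P' w c' _ h
  · rintro ⟨c₁, h1, h2⟩
    have g1 : ReflTransGen ((FSQ.cmp P P').Step w) (FSQ.el P P' (P.s, c))
        (FSQ.el P P' (P.f, c₁)) :=
      ReflTransGen.lift (FSQ.el P P') (fun x y h => FSQ.step_l P P' w x y h) _ _ h1
    have g2 : ReflTransGen ((FSQ.cmp P P').Step w) (FSQ.er P P' (P'.s, c₁))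
        (FSQ.er P P' (P'.f, c')) :=
      ReflTransGen.lift (FSQ.er P P') (fun x y h => FSQ.step_r P P' w x y h) _ _ h2
    exact g1.trans (ReflTransGen.head (FSQ.step_m P P' w c₁) g2)

end Pool.Agent.NPH
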