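import Pool.Agent.NPH.StA

/-! # NPH, FST: the star of a program (helper64) -/

set_option autoImplicit false

namespace Pool.Agent.NPH

open Pool.Agent.Heads Relation

namespace FST

variable {α : Type} {k : ℕ} {Γ : Type} (P : Frag α k Γ)

/-- The program for the star. -/
def st : Frag α k Γ where
  Q := Option P.Q
  finQ := by
    have := P.finQ
    infer_instance
  s := none
  f := none
  δ := fun q x g => {t | (q = none ∧ t = (some P.s, fun _ => Dir.S, Op.none)) ∨
    (∃ q', q = some q' ∧ ∃ t' ∈ P.δ q' x g, t = (some t'.1, t'.2)) ∨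
    (q = some P.f ∧ t = (none, fun _ => Dir.S, Op.none))}

theorem step_iff (w : List α) (a b : Option P.Q × Cf k Γ) : (st P).Step w a b ↔
    (a.1 = none ∧ b = (some P.s, a.2)) ∨
    (∃ q q' : P.Q, ∃ c : Cf k Γ, a.1 = some q ∧ b = (some q', c) ∧ P.Step w (q, a.2) (q', c)) ∨
    (a.1 = some P.f ∧ b = (none, a.2)) := by
  obtain ⟨a1, a2, a3⟩ := a
  constructor
  · rintro ⟨t, ht, rfl⟩
    rcases ht with ⟨h1, h2⟩ | ⟨q, h1, t', h2, h3⟩ | ⟨h1, h2⟩
    · left
      subst h2
      exact ⟨h1, rfl⟩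
    · right; left
      subst h3
      exact ⟨q, t'.1, _, h1, rfl, t', h2, rfl⟩
    · right; right
      subst h2
      exact ⟨h1, rfl⟩
  · rintro (⟨h1, rfl⟩ | ⟨q, q', c, h1, rfl, t, ht, h2⟩ | ⟨h1, rfl⟩)
    · exact ⟨(some P.s, fun _ => Dir.S, Op.none), Or.inl ⟨h1, rfl⟩, rfl⟩
    · refine ⟨(some t.1, t.2), Or.inr (Or.inl ⟨q, h1, t, ht, rfl⟩), ?_⟩
      have h3 := congrArg Prod.fst h2
      have h4 := congrArg Prod.snd h2
      change q' = t.1 at h3
      change c = _ at h4
      rw [h3, h4]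
      rfl
    · exact ⟨(none, fun _ => Dir.S, Op.none), Or.inr (Or.inr ⟨h1, rfl⟩), rfl⟩

/-- What remains to be done. -/
def Rest (w : List α) (c' : Cf k Γ) (a : Option P.Q × Cf k Γ) : Prop :=
  (a.1 = none → ReflTransGen (P.rel w) a.2 c') ∧
  ∀ q, a.1 = some q → ∃ c₁, ReflTransGen (P.Step w) (q, a.2) (P.f, c₁) ∧
    ReflTransGen (P.rel w) c₁ c'

theorem rest_of (w : List α) (c' : Cf k Γ) (a : Option P.Q × Cf k Γ)
    (h : ReflTransGen ((st P).Step w) a (none, c')) : Rest P w c' a := by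
  induction h using ReflTransGen.head_induction_on with
  | refl => exact ⟨fun _ => ReflTransGen.refl, fun q hq => by simp at hq⟩
  | @head a b hab _ ih =>
    rcases (step_iff P w a b).1 hab with ⟨h1, rfl⟩ | ⟨q, q', c, h1, rfl, h2⟩ | ⟨h1, rfl⟩
    · refine ⟨fun _ => ?_, fun q hq => ?_⟩
      · obtain ⟨c₁, h2, h3⟩ := ih.2 P.s rfl
        exact ReflTransGen.head h2 h3
      · rw [h1] at hq
        simp at hq
    · refine ⟨fun h => ?_, fun r hr => ?_⟩
      · rw [h1] at h
        simp at h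
      · rw [h1] at hr
        obtain rfl : q = r := Option.some.inj hr
        obtain ⟨c₁, h3, h4⟩ := ih.2 q' rfl
        exact ⟨c₁, ReflTransGen.head h2 h3, h4⟩
    · refine ⟨fun h => ?_, fun r hr => ?_⟩
      · rw [h1] at h
        simp at h
      · rw [h1] at hr
        obtain rfl : P.f = r := Option.some.inj hr
        exact ⟨a.2, ReflTransGen.refl, ih.1 rfl⟩

theorem loop (w : List α) (c c' : Cf k Γ) (h : P.rel w c c') :
    ReflTransGen ((st P).Step w) (none, c) (none, c') := by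
  have h1 : (st P).Step w (none, c) (some P.s, c) := (step_iff P w _ _).2 (Or.inl ⟨rfl, rfl⟩)
  have h2 : (st P).Step w (some P.f, c') (none, c') :=
    (step_iff P w _ _).2 (Or.inr (Or.inr ⟨rfl, rfl⟩))
  have h4 : ∀ x : P.Q × Cf k Γ, ReflTransGen (P.Step w) (P.s, c) x →
      ReflTransGen ((st P).Step w) (some P.s, c) (some x.1, x.2) := by
    intro x hx
    induction hx with
    | refl => exact ReflTransGen.refl
    | @tail a b _ hab ih =>
      exact ih.tail ((step_iff P w _ _).2 (Or.inr (Or.inl ⟨a.1, b.1, b.2, rfl, rfl, hab⟩)))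
  have h3 : ReflTransGen ((st P).Step w) (some P.s, c) (some P.f, c') := h4 (P.f, c') h
  exact ReflTransGen.head h1 (h3.tail h2)

end FST

open FST in
theorem t_FST : FST_Stmt := by
  intro α k Γ P
  refine ⟨st P, fun w c c' => ⟨fun h => ?_, fun h => ?_⟩⟩
  · exact (rest_of P w c' (none, c) h).1 rfl
  · change ReflTransGen ((st P).Step w) (none, c) (none, c')
    induction h with
    | refl => exact ReflTransGen.refl
    | tail _ h1 ih => exact ih.trans (loop P w _ _ h1)

end Pool.Agent.NPH
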