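import Pool.Agent.NPH.StA

set_option autoImplicit false

namespace Pool.Agent.NPH

open Pool.Agent.Heads Relation

namespace GOL

variable {Λ H : Type}

/-- One step to the left on a blank. -/
def a1 (o : Op (Bool ⊕ H)) : Rl1 (Option (Sym Λ)) (Bool ⊕ H) := fun w c c' =>
  c.1 ≤ w.length + 1 ∧ (fun (s : Sym (Option (Sym Λ))) (_ : Option (Bool ⊕ H)) =>
    s = Sym.letter none) (tape w c.1) c.2.head? ∧
    c' = (move (w.length + 1) c.1 Dir.L, o.apply c.2)

/-- The test of a letter. -/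
def a2 : Rl1 (Option (Sym Λ)) (Bool ⊕ H) := fun w c c' =>
  c.1 ≤ w.length + 1 ∧ (fun (s : Sym (Option (Sym Λ))) (_ : Option (Bool ⊕ H)) =>
    ∃ a, s = Sym.letter (some a)) (tape w c.1) c.2.head? ∧
    c' = (move (w.length + 1) c.1 Dir.S, Op.none.apply c.2)

theorem real (o : Op (Bool ⊕ H)) :
    Real1 (fun (w : List (Option (Sym Λ))) c c' => ∃ c₁, ReflTransGen (a1 o w) c c₁ ∧ a2 w c₁ c') :=
  Real1.seq (Real1.star (Real1.act (fun s _ => s = Sym.letter none) Dir.L o))
    (Real1.act (fun s _ => ∃ a, s = Sym.letter (some a)) Dir.S Op.none)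

theorem cel_le (h1 : PAD_Stmt) {M : ℕ} {x : List Λ} {j P : ℕ} (hM : 1 ≤ M)
    (hj : j ≤ x.length + 1) (hP : P < M) : cel M j P ≤ (pad M x).length + 1 := by
  obtain ⟨e, -, -⟩ := h1 Λ M x hM
  rw [e]
  unfold cel
  have h2 : j * M ≤ (x.length + 1) * M := Nat.mul_le_mul_right M hj
  have h3 : (x.length + 2) * M = (x.length + 1) * M + M := by ring
  omega

theorem a1_iff (h1 : PAD_Stmt) (o : Op (Bool ⊕ H)) {M : ℕ} {x : List Λ} {j P : ℕ} (hM : 1 ≤ M)
    (hj : j ≤ x.length + 1) (hP : P < M) (s : List (Bool ⊕ H)) (c' : ℕ × List (Bool ⊕ H)) :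
    a1 o (pad M x) (cel M j P, s) c' ↔ 0 < P ∧ c' = (cel M j (P - 1), o.apply s) := by
  obtain ⟨-, e, -⟩ := h1 Λ M x hM
  have e1 := e j P hj hP
  unfold a1
  dsimp only
  rw [e1]
  constructor
  · rintro ⟨-, h2, h3⟩
    have hP0 : 0 < P := by
      by_contra hcon
      have : P = 0 := by omega
      rw [if_pos this] at h2
      simp at h2
    refine ⟨hP0, ?_⟩
    rw [h3]
    congr 1
    simp only [move, cel]
    omega
  · rintro ⟨h2, h3⟩
    refine ⟨cel_le h1 hM hj hP, ?_, ?_⟩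
    · rw [if_neg (by omega)]
    · rw [h3]
      congr 1
      simp only [move, cel]
      omega

theorem star_iff (h1 : PAD_Stmt) (o : Op (Bool ⊕ H)) {M : ℕ} {x : List Λ} {j P : ℕ} (hM : 1 ≤ M)
    (hj : j ≤ x.length + 1) (hP : P < M) (s : List (Bool ⊕ H)) (c : ℕ × List (Bool ⊕ H)) :
    ReflTransGen (a1 o (pad M x)) (cel M j P, s) c ↔
      ∃ t ≤ P, c = (cel M j (P - t), o.apply^[t] s) := by
  constructor
  · intro h
    induction h with
    | refl => exact ⟨0, Nat.zero_le _, rfl⟩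
    | tail _ h3 ih =>
      obtain ⟨t, ht, rfl⟩ := ih
      obtain ⟨h4, h5⟩ := (a1_iff h1 o hM hj (by omega) _ _).1 h3
      refine ⟨t + 1, by omega, ?_⟩
      rw [h5, Function.iterate_succ_apply']
      congr 1
  · rintro ⟨t, ht, rfl⟩
    induction t with
    | zero => exact ReflTransGen.refl
    | succ t ih =>
      refine (ih (by omega)).tail ?_
      rw [a1_iff h1 o hM hj (by omega)]
      refine ⟨by omega, ?_⟩
      rw [Function.iterate_succ_apply']
      congr 1

theorem main (h1 : PAD_Stmt) (o : Op (Bool ⊕ H)) {M : ℕ} {x : List Λ} {j P : ℕ} (hM : 1 ≤ M)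
    (hj : j ≤ x.length + 1) (hP : P < M) (s : List (Bool ⊕ H)) (c' : ℕ × List (Bool ⊕ H)) :
    (∃ c₁, ReflTransGen (a1 o (pad M x)) (cel M j P, s) c₁ ∧ a2 (pad M x) c₁ c') ↔
      c' = (cel M j 0, o.apply^[P] s) := by
  obtain ⟨-, e, -⟩ := h1 Λ M x hM
  constructor
  · rintro ⟨c₁, h2, h3⟩
    obtain ⟨t, ht, rfl⟩ := (star_iff h1 o hM hj hP _ _).1 h2
    obtain ⟨-, ⟨a, h4⟩, h5⟩ := h3
    have e1 := e j (P - t) hj (by omega)
    dsimp only at h4
    rw [e1] at h4
    have hPt : P - t = 0 := by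
      by_contra hcon
      rw [if_neg hcon] at h4
      simp at h4
    have : t = P := by omega
    subst this
    rw [h5, hPt]
    rfl
  · intro h2
    refine ⟨(cel M j 0, o.apply^[P] s), ?_, ?_⟩
    · rw [star_iff h1 o hM hj hP]
      exact ⟨P, le_rfl, by rw [Nat.sub_self]⟩
    · refine ⟨cel_le h1 hM hj (by omega), ⟨tape x j, ?_⟩, ?_⟩
      · have e1 := e j 0 hj (by omega)
        rw [if_pos rfl] at e1
        exact e1
      · rw [h2]
        rfl

theorem iter_push (b : Bool) (P : ℕ) (s : List (Bool ⊕ H)) :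
    (Op.push (Sum.inl b) : Op (Bool ⊕ H)).apply^[P] s =
      (List.replicate P b).map Sum.inl ++ s := by
  induction P with
  | zero => rfl
  | succ P ih =>
    rw [Function.iterate_succ_apply', ih, List.replicate_succ, List.map_cons]
    rfl

theorem iter_none (P : ℕ) (s : List (Bool ⊕ H)) :
    (Op.none : Op (Bool ⊕ H)).apply^[P] s = s := by
  induction P with
  | zero => rfl
  | succ P ih =>
    rw [Function.iterate_succ_apply', ih]
    rfl

end GOL

open GOL in
theorem t_GOL (h1 : PAD_Stmt) : GOL_Stmt := by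
  intro Λ H
  refine ⟨⟨_, GOL.real (Op.push (Sum.inl false)), ?_⟩, ⟨_, GOL.real Op.none, ?_⟩⟩
  · intro M x j P s c' hM hj hP
    rw [GOL.main h1 _ hM hj hP, GOL.iter_push]
  · intro M x j P s c' hM hj hP
    rw [GOL.main h1 _ hM hj hP, GOL.iter_none]

end Pool.Agent.NPH
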