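import Pool.Agent.NPH.StA

/-!
Project NPH, module HDS: the actions of all heads, one after the other.
-/

set_option autoImplicit false

namespace Pool.Agent.NPH

open Pool.Agent.Heads Relation

namespace HDS

theorem cel_le (M : ℕ) (n : ℕ) (y : ℕ × ℕ) (h1 : y.1 ≤ n + 1) (h2 : y.2 < M) :
    cel M y.1 y.2 ≤ (n + 2) * M + 1 := by
  unfold cel
  have h3 : y.1 * M ≤ (n + 1) * M := Nat.mul_le_mul_right M h1
  have h4 : (n + 2) * M = (n + 1) * M + M := by ring
  omega

theorem val_cel {Λ H : Type} (h1 : PAD_Stmt) {k : ℕ} (M : ℕ) (x : List Λ) (hM : 1 ≤ M)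
    (y : Fin k → ℕ × ℕ) (s : List (Bool ⊕ H)) (hy : ∀ i, Inr M x (y i)) :
    Val (Γ := Bool ⊕ H) (pad M x) (fun i => cel M (y i).1 (y i).2, s) := by
  intro i
  rw [(h1 Λ M x hM).1]
  exact cel_le M x.length (y i) (hy i).1 (hy i).2

theorem main (h1 : PAD_Stmt) (h2 : LIF_Stmt) (h3 : ACT_Stmt) (Λ H : Type) (k β : ℕ)
    (a : Fin k → Ac Λ) (hβ : 1 ≤ β) (ha : ∀ i, (a i).ok β) : ∀ m, m ≤ k →
    ∃ ρ : Rl (Option (Sym Λ)) k (Bool ⊕ H), Real ρ ∧ ∀ (M : ℕ) (x : List Λ)
      (y : Fin k → ℕ × ℕ) (s : List (Bool ⊕ H)) (c' : Cf k (Bool ⊕ H)), 1 ≤ M → β ∣ M →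
      (∀ i, Inr M x (y i)) → Cln s →
      (ρ (pad M x) (fun i => cel M (y i).1 (y i).2, s) c' ↔
        ∃ y' : Fin k → ℕ × ℕ, (∀ i : Fin k, (i : ℕ) < m → AcR β M x (a i) (y i) (y' i)) ∧
          (∀ i : Fin k, m ≤ (i : ℕ) → y' i = y i) ∧
          c' = (fun i => cel M (y' i).1 (y' i).2, s)) := by
  intro m
  induction m with
  | zero =>
    intro _
    refine ⟨_, Real.act (fun _ _ => True) (fun _ => Dir.S) Op.none, ?_⟩
    intro M x y s c' hM hd hy hs
    constructor
    · rintro ⟨-, -, rfl⟩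
      exact ⟨y, fun i hi => absurd hi (by omega), fun i _ => rfl, rfl⟩
    · rintro ⟨y', -, h5, rfl⟩
      have h6 : y' = y := funext fun i => h5 i (Nat.zero_le _)
      rw [h6]
      exact ⟨val_cel h1 M x hM y s hy, trivial, rfl⟩
  | succ m ih =>
    intro hm
    obtain ⟨ρ, hρ, hρ'⟩ := ih (by omega)
    let i0 : Fin k := ⟨m, by omega⟩
    obtain ⟨τ, hτ, hτ'⟩ := h3 Λ H β (a i0) hβ (ha i0)
    obtain ⟨σ, hσ, hσ'⟩ := h2 (Option (Sym Λ)) k (Bool ⊕ H) τ hτ i0
    refine ⟨_, Real.seq hρ hσ, ?_⟩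
    intro M x y s c' hM hd hy hs
    -- ranges after the first part
    have hrange : ∀ y1 : Fin k → ℕ × ℕ, (∀ i : Fin k, (i : ℕ) < m → AcR β M x (a i) (y i) (y1 i)) →
        (∀ i : Fin k, m ≤ (i : ℕ) → y1 i = y i) → ∀ i, Inr M x (y1 i) := by
      intro y1 h4 h5 i
      by_cases hi : (i : ℕ) < m
      · exact AcR.inr (h4 i hi) (ha i) hd (hy i)
      · rw [h5 i (by omega)]; exact hy i
    constructor
    · rintro ⟨c1, hc1, hc2⟩
      obtain ⟨y1, h4, h5, rfl⟩ := (hρ' M x y s c1 hM hd hy hs).1 hc1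
      have hr := hrange y1 h4 h5
      obtain ⟨h6, h7⟩ := (hσ' _ _ c' (val_cel h1 M x hM y1 s hr)).1 hc2
      obtain ⟨z, hz, hz'⟩ := (hτ' M x (y1 i0) s _ hM hd (hr i0) hs).1 h6
      refine ⟨Function.update y1 i0 z, ?_, ?_, ?_⟩
      · intro i hi
        by_cases hii : i = i0
        · subst hii
          rw [Function.update_self]
          rwa [h5 i0 (le_refl m)] at hz
        · rw [Function.update_of_ne hii]
          refine h4 i ?_
          have : (i : ℕ) ≠ m := fun h => hii (Fin.ext h)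
          omega
      · intro i hi
        have hii : i ≠ i0 := by
          intro h
          have : (i : ℕ) = m := congrArg Fin.val h
          omega
        rw [Function.update_of_ne hii]
        exact h5 i (by omega)
      · have e1 : c'.1 i0 = cel M z.1 z.2 := congrArg Prod.fst hz'
        have e2 : c'.2 = s := congrArg Prod.snd hz'
        refine Prod.ext ?_ e2
        funext j
        by_cases hj : j = i0
        · subst hj
          rw [e1]
          simp
        · rw [h7 j hj]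
          simp [Function.update_of_ne hj]
    · rintro ⟨y', h4, h5, rfl⟩
      have hA : ∀ i : Fin k, (i : ℕ) < m → AcR β M x (a i) (y i) (Function.update y' i0 (y i0) i) := by
        intro i hi
        have hii : i ≠ i0 := by
          intro h
          have : (i : ℕ) = m := congrArg Fin.val h
          omega
        rw [Function.update_of_ne hii]
        exact h4 i (by omega)
      have hB : ∀ i : Fin k, m ≤ (i : ℕ) → Function.update y' i0 (y i0) i = y i := by
        intro i hi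
        by_cases hii : i = i0
        · subst hii
          rw [Function.update_self]
        · rw [Function.update_of_ne hii]
          refine h5 i ?_
          have : (i : ℕ) ≠ m := fun h => hii (Fin.ext h)
          omega
      have hr := hrange _ hA hB
      refine ⟨(fun i => cel M (Function.update y' i0 (y i0) i).1
        (Function.update y' i0 (y i0) i).2, s), (hρ' M x y s _ hM hd hy hs).2 ⟨_, hA, hB, rfl⟩, ?_⟩
      refine (hσ' _ _ _ (val_cel h1 M x hM _ s hr)).2 ⟨?_, ?_⟩
      · refine (hτ' M x _ s _ hM hd (hr i0) hs).2 ⟨y' i0, ?_, rfl⟩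
        rw [Function.update_self]
        exact h4 i0 (by show m < m + 1; omega)
      · intro j hj
        simp [Function.update_of_ne hj]

end HDS

theorem t_HDS (h1 : PAD_Stmt) (h2 : LIF_Stmt) (h3 : ACT_Stmt) : HDS_Stmt := by
  intro Λ H k β a hβ ha
  obtain ⟨ρ, hρ, hρ'⟩ := HDS.main h1 h2 h3 Λ H k β a hβ ha k le_rfl
  refine ⟨ρ, hρ, ?_⟩
  intro M x y s c' hM hd hy hs
  rw [hρ' M x y s c' hM hd hy hs]
  constructor
  · rintro ⟨y', h4, -, h6⟩
    exact ⟨y', fun i => h4 i i.2, h6⟩
  · rintro ⟨y', h4, h6⟩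
    exact ⟨y', fun i _ => h4 i, fun i hi => absurd i.2 (by omega), h6⟩

end Pool.Agent.NPH
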