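import Pool.Agent.NPH.StA

/-!
# Project NPH, part A, module HIA (helper33): machines have histories
-/

set_option autoImplicit false

namespace Pool.Agent.NPH

open Pool.Agent.Heads Relation

namespace HIA

theorem sweep_len {Q A B : Type} (sw : Q → A → Set (Q × B)) : ∀ (u : List A) (q q' : Q)
    (v : List B), Sweep sw q u q' v → v.length = u.length := by
  intro u
  induction u with
  | nil =>
    intro q q' v h
    rw [h.2]
    rfl
  | cons a u ih =>
    intro q q' v h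
    obtain ⟨p, b, v', -, rfl, h2⟩ := h
    rw [List.length_cons, List.length_cons, ih p q' v' h2]

variable {Λ : Type} {r S : ℕ}

theorem mrk_append (v : List (Fin S)) (hv : v ≠ []) (b : Fin S) :
    mrk v ++ [(b, false)] = mrk (v ++ [b]) := by
  cases v with
  | nil => exact absurd rfl hv
  | cons a u =>
    show ((a, true) :: u.map fun b => (b, false)) ++ [(b, false)] =
      (a, true) :: (u ++ [b]).map fun b => (b, false)
    rw [List.map_append]
    rfl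

/-- the rest of a sweep -/
theorem rest (T : RM Λ r S) (x : List Λ) (y₀ : List (Fin S × Bool) × (Fin r → ℕ))
    (pos : Fin r → ℕ) : ∀ (u : List (Fin S)) (q p' : T.Q) (v₁ v₂ : List (Fin S))
    (h : List (Ev Λ T.Q r S)), v₁ ≠ [] → Chn (EvC T) h → (∃ μ p a a' l, h = .sw μ p a q a' :: l) →
    Run (EvA x) y₀ h ((u.map fun b => (b, false)) ++ mrk v₁, pos) → Sweep T.sw q u p' v₂ →
    ∃ h', Chn (EvC T) h' ∧ (∃ μ p a a' l, h' = .sw μ p a p' a' :: l) ∧
      Run (EvA x) y₀ h' (mrk (v₁ ++ v₂), pos) := by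
  intro u
  induction u with
  | nil =>
    intro q p' v₁ v₂ h _ hC hh hR hS
    obtain ⟨rfl, rfl⟩ := hS
    rw [List.append_nil]
    exact ⟨h, hC, hh, hR⟩
  | cons a u ih =>
    intro q p' v₁ v₂ h hv hC hh hR hS
    obtain ⟨p1, b, v', h1, rfl, h2⟩ := hS
    have hCh : EvC T h.head? (.sw false q a p1 b) := by
      obtain ⟨μ, p, c, c', l, rfl⟩ := hh
      exact ⟨h1, rfl, rfl⟩
    obtain ⟨h', k1, k2, k3⟩ := ih p1 p' (v₁ ++ [b]) v' (.sw false q a p1 b :: h) (by simp)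
      ⟨hCh, hC⟩ ⟨false, q, a, b, h, rfl⟩
      ⟨_, hR, (u.map fun b => (b, false)) ++ mrk v₁, rfl, by
        rw [← mrk_append v₁ hv, List.append_assoc]⟩ h2
    refine ⟨h', k1, k2, ?_⟩
    rw [List.append_assoc] at k3
    exact k3

/-- one sweep -/
theorem one (T : RM Λ r S) (x : List Λ) (y₀ : List (Fin S × Bool) × (Fin r → ℕ))
    (pos : Fin r → ℕ) (u : List (Fin S)) (p p' : T.Q) (v : List (Fin S))
    (h : List (Ev Λ T.Q r S)) (hu : u ≠ []) (hC : Chn (EvC T) h) (hB : Beg T h p)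
    (hR : Run (EvA x) y₀ h (mrk u, pos)) (hS : Sweep T.sw p u p' v) :
    ∃ h', Chn (EvC T) h' ∧ (∃ μ p a a' l, h' = .sw μ p a p' a' :: l) ∧
      Run (EvA x) y₀ h' (mrk v, pos) := by
  cases u with
  | nil => exact absurd rfl hu
  | cons a u =>
    obtain ⟨p1, b, v', h1, rfl, h2⟩ := hS
    have hCh : EvC T h.head? (.sw true p a p1 b) := by
      rcases hB with ⟨rfl, rfl⟩ | ⟨q, s, d, l, rfl⟩
      · exact ⟨h1, rfl, rfl⟩
      · exact ⟨h1, rfl, rfl⟩
    exact rest T x y₀ pos u p1 p' [b] v' (.sw true p a p1 b :: h) (by simp) ⟨hCh, hC⟩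
      ⟨true, p, a, b, h, rfl⟩ ⟨_, hR, u.map fun b => (b, false), rfl, rfl⟩ h2

/-- the rounds -/
theorem rounds (T : RM Λ r S) (x : List Λ) (c : T.Conf)
    (hc : ReflTransGen (T.Round x) (T.init x) c) :
    c.2.2.length = x.length + 1 ∧ ∃ h : List (Ev Λ T.Q r S), Chn (EvC T) h ∧ Beg T h c.1 ∧
      Run (EvA x) (mrk (List.replicate (x.length + 1) T.blank), fun _ => 0) h
        (mrk c.2.2, c.2.1) := by
  induction hc with
  | refl =>
    refine ⟨by simp [RM.init], [], trivial, Or.inl ⟨rfl, rfl⟩, rfl⟩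
  | @tail b c _ hbc ih =>
    obtain ⟨hl, h, h1, h2, h3⟩ := ih
    obtain ⟨p, hS, t, ht, e1, e2⟩ := hbc
    have hne : b.2.2 ≠ [] := by
      intro h0
      rw [h0] at hl
      simp at hl
    obtain ⟨h', k1, ⟨μ, q, a, a', l, rfl⟩, k3⟩ := one T x _ b.2.1 b.2.2 b.1 p c.2.2 h hne h1 h2 h3 hS
    refine ⟨(sweep_len _ _ _ _ _ hS).trans hl,
      .hd p (fun i => tape x (b.2.1 i)) t.1 t.2 :: .sw μ q a p a' :: l, ⟨⟨ht, rfl⟩, k1⟩,
      Or.inr ⟨p, fun i => tape x (b.2.1 i), t.2, .sw μ q a p a' :: l, by rw [e1]⟩,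
      ⟨_, k3, fun _ => rfl, by rw [e2]⟩⟩

end HIA

/-- HIA: machines have histories. -/
theorem t_HIA : HIA_Stmt := by
  intro Λ r S T x hx
  obtain ⟨c, hc, hacc⟩ := hx
  obtain ⟨hl, h, h1, h2, h3⟩ := HIA.rounds T x c hc
  obtain ⟨a, u, hau⟩ : ∃ a u, c.2.2 = a :: u := by
    cases hcc : c.2.2 with
    | nil =>
      rw [hcc] at hl
      simp at hl
    | cons a u => exact ⟨a, u, rfl⟩
  rw [hau] at h3
  have hCh : EvC T h.head? (.ck c.1 a) := by
    rcases h2 with ⟨rfl, h4⟩ | ⟨q, s, d, l, rfl⟩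
    · exact h4
    · exact rfl
  exact ⟨.ck c.1 a :: h, ⟨hCh, h1⟩, ⟨c.1, hacc, a, h, rfl⟩, _, _, h3,
    u.map fun b => (b, false), rfl, rfl⟩

end Pool.Agent.NPH
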