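import Pool.Agent.NPH.StA

/-!
# Project NPH, module HIB: histories come from machines
-/

set_option autoImplicit false

namespace Pool.Agent.NPH

open Pool.Agent.Heads Relation

namespace HIB

/-- sweeps can be extended at the end -/
theorem sweep_snoc {Q A B : Type} (sw : Q → A → Set (Q × B)) (a : A) (b : B) (q' q'' : Q)
    (h : (q'', b) ∈ sw q' a) : ∀ (u : List A) (q : Q) (v : List B), Sweep sw q u q' v →
      Sweep sw q (u ++ [a]) q'' (v ++ [b]) := by
  intro u
  induction u with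
  | nil =>
    rintro q v ⟨rfl, rfl⟩
    exact ⟨q'', b, [], h, rfl, rfl, rfl⟩
  | cons c u ih =>
    rintro q v ⟨p, d, v', h1, rfl, h2⟩
    exact ⟨p, d, v' ++ [b], h1, rfl, ih p v' h2⟩

theorem mrk_snoc {S : ℕ} (v : List (Fin S)) (hv : v ≠ []) (a : Fin S) :
    mrk (v ++ [a]) = mrk v ++ [(a, false)] := by
  cases v with
  | nil => exact absurd rfl hv
  | cons b v => simp [mrk]

variable {Λ : Type} {r S : ℕ} (T : RM Λ r S) (x : List Λ)

/-- reached configurations -/
def Rch (p : T.Q) (pos : Fin r → ℕ) (v : List (Fin S)) : Prop :=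
  ReflTransGen (T.Round x) (T.init x) (p, pos, v)

/-- at the beginning of a round -/
def InvB (p : T.Q) (y : List (Fin S × Bool) × (Fin r → ℕ)) : Prop :=
  (∃ v, y.1 = mrk v ∧ Rch T x p y.2 v) ∨ ∃ b u, y.1 = (b, false) :: u

/-- in the middle of a sweep -/
def InvS (q : T.Q) (y : List (Fin S × Bool) × (Fin r → ℕ)) : Prop :=
  ∃ (p₀ : T.Q) (u₁ u₂ v₁ : List (Fin S)), v₁ ≠ [] ∧ Rch T x p₀ y.2 (u₁ ++ u₂) ∧
    Sweep T.sw p₀ u₁ q v₁ ∧ y.1 = (u₂.map fun b => (b, false)) ++ mrk v₁

/-- the first letter of a sweep -/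
theorem step_true {p p' : T.Q} {a a' : Fin S} {y' y : List (Fin S × Bool) × (Fin r → ℕ)}
    (hs : (p', a') ∈ T.sw p a) (hi : InvB T x p y')
    (hy : ∃ u, y'.1 = (a, true) :: u ∧ y = (u ++ [(a', true)], y'.2)) : InvS T x p' y := by
  obtain ⟨u, hu, rfl⟩ := hy
  rcases hi with ⟨v, hv, hR⟩ | ⟨b, u', hb⟩
  · rw [hu] at hv
    cases v with
    | nil => exact absurd hv (List.cons_ne_nil _ _)
    | cons c v =>
      have h1 : ((a, true) : Fin S × Bool) :: u = (c, true) :: v.map fun b => (b, false) := hv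
      injection h1 with h2 h3
      have h4 : a = c := congrArg Prod.fst h2
      subst h4
      subst h3
      exact ⟨p, [a], v, [a'], List.cons_ne_nil _ _, hR, ⟨p', a', [], hs, rfl, rfl, rfl⟩, rfl⟩
  · rw [hu] at hb
    injection hb with h2 _
    exact absurd (congrArg Prod.snd h2) Bool.noConfusion

/-- the other letters of a sweep -/
theorem step_false {p p' : T.Q} {a a' : Fin S} {y' y : List (Fin S × Bool) × (Fin r → ℕ)}
    (hs : (p', a') ∈ T.sw p a) (hi : InvS T x p y')
    (hy : ∃ u, y'.1 = (a, false) :: u ∧ y = (u ++ [(a', false)], y'.2)) : InvS T x p' y := by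
  obtain ⟨u, hu, rfl⟩ := hy
  obtain ⟨p₀, u₁, u₂, v₁, hv₁, hR, hw, he⟩ := hi
  rw [hu] at he
  cases u₂ with
  | nil =>
    cases v₁ with
    | nil => exact absurd rfl hv₁
    | cons c v =>
      have h1 : ((a, false) : Fin S × Bool) :: u = (c, true) :: v.map fun b => (b, false) := he
      injection h1 with h2 _
      exact absurd (congrArg Prod.snd h2) Bool.noConfusion
  | cons c u₂ =>
    have h1 : ((a, false) : Fin S × Bool) :: u =
      (c, false) :: ((u₂.map fun b => (b, false)) ++ mrk v₁) := he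
    injection h1 with h2 h3
    have h4 : a = c := congrArg Prod.fst h2
    subst h4
    subst h3
    refine ⟨p₀, u₁ ++ [a], u₂, v₁ ++ [a'], by simp, ?_,
      sweep_snoc T.sw a a' p p' hs u₁ p₀ v₁ hw, ?_⟩
    · have h5 : u₁ ++ [a] ++ u₂ = u₁ ++ a :: u₂ := by simp
      rw [h5]
      exact hR
    · rw [mrk_snoc v₁ hv₁, ← List.append_assoc]

/-- a step of the reading heads -/
theorem step_hd {p p' : T.Q} {s : Fin r → Sym Λ} {d : Fin r → Dir}
    {y' y : List (Fin S × Bool) × (Fin r → ℕ)}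
    (hs : (p', d) ∈ T.hd p s) (hi : InvS T x p y')
    (hy : (∀ i, tape x (y'.2 i) = s i) ∧
      y = (y'.1, fun i => move (x.length + 1) (y'.2 i) (d i))) : InvB T x p' y := by
  obtain ⟨ht, rfl⟩ := hy
  obtain ⟨p₀, u₁, u₂, v₁, hv₁, hR, hw, he⟩ := hi
  cases u₂ with
  | nil =>
    left
    refine ⟨v₁, he, ?_⟩
    rw [List.append_nil] at hR
    have h1 : (fun i => tape x (y'.2 i)) = s := funext ht
    exact ReflTransGen.tail hR ⟨p, hw, (p', d), by
      show (p', d) ∈ T.hd p (fun i => tape x (y'.2 i))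
      rw [h1]
      exact hs, rfl, rfl⟩
  | cons c u₂ =>
    right
    exact ⟨c, (u₂.map fun b => (b, false)) ++ mrk v₁, he⟩

/-- the invariant -/
theorem inv : ∀ (h : List (Ev Λ T.Q r S)) (y : List (Fin S × Bool) × (Fin r → ℕ)),
    Chn (EvC T) h →
    Run (EvA x) (mrk (List.replicate (x.length + 1) T.blank), fun _ => 0) h y →
    (∀ p, Beg T h p → InvB T x p y) ∧
    (∀ μ p a q a' l, h = .sw μ p a q a' :: l → InvS T x q y) := by
  intro h
  induction h with
  | nil =>
    intro y _ hy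
    have hy' : y = (mrk (List.replicate (x.length + 1) T.blank), fun _ => 0) := hy
    refine ⟨fun p hp => ?_, fun μ p a q a' l hl => absurd hl.symm (List.cons_ne_nil _ _)⟩
    rcases hp with ⟨-, rfl⟩ | ⟨q, s, d, l, hl⟩
    · left
      rw [hy']
      exact ⟨_, rfl, ReflTransGen.refl⟩
    · exact absurd hl.symm (List.cons_ne_nil _ _)
  | cons η l ih =>
    rintro y ⟨hC, hl⟩ ⟨y', hR, hA⟩
    have ih' := ih y' hl hR
    cases η with
    | sw μ p a p' a' =>
      refine ⟨fun q hq => ?_, fun μ₁ p₁ a₁ q₁ a₁' l₁ h1 => ?_⟩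
      · rcases hq with ⟨h1, -⟩ | ⟨_, _, _, _, h1⟩
        · exact absurd h1 (List.cons_ne_nil _ _)
        · injection h1 with h2 _
          cases h2
      · injection h1 with h2 _
        injection h2 with _ _ _ h3 _
        rw [← h3]
        cases l with
        | nil =>
          have hC' : (p', a') ∈ T.sw p a ∧ μ = true ∧ p = T.start := hC
          obtain ⟨h4, rfl, rfl⟩ := hC'
          exact step_true T x h4 (ih'.1 _ (Or.inl ⟨rfl, rfl⟩)) hA
        | cons o l' =>
          cases o with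
          | sw μ₂ p₂ a₂ q₂ a₂' =>
            have hC' : (p', a') ∈ T.sw p a ∧ μ = false ∧ p = q₂ := hC
            obtain ⟨h4, rfl, rfl⟩ := hC'
            exact step_false T x h4 (ih'.2 _ _ _ _ _ _ rfl) hA
          | hd p₂ s₂ q₂ d₂ =>
            have hC' : (p', a') ∈ T.sw p a ∧ μ = true ∧ p = q₂ := hC
            obtain ⟨h4, rfl, rfl⟩ := hC'
            exact step_true T x h4 (ih'.1 _ (Or.inr ⟨_, _, _, _, rfl⟩)) hA
          | ck p₂ a₂ => exact hC.elim
    | hd p s p' d =>
      refine ⟨fun q hq => ?_, fun μ₁ p₁ a₁ q₁ a₁' l₁ h1 => ?_⟩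
      · rcases hq with ⟨h1, -⟩ | ⟨_, _, _, _, h1⟩
        · exact absurd h1 (List.cons_ne_nil _ _)
        · injection h1 with h2 _
          injection h2 with _ _ h3 _
          rw [← h3]
          cases l with
          | nil => exact hC.elim
          | cons o l' =>
            cases o with
            | sw μ₂ p₂ a₂ q₂ a₂' =>
              have hC' : (p', d) ∈ T.hd p s ∧ p = q₂ := hC
              obtain ⟨h4, rfl⟩ := hC'
              exact step_hd T x h4 (ih'.2 _ _ _ _ _ _ rfl) hA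
            | hd p₂ s₂ q₂ d₂ => exact hC.elim
            | ck p₂ a₂ => exact hC.elim
      · injection h1 with h2 _
        cases h2
    | ck p a =>
      refine ⟨fun q hq => ?_, fun μ₁ p₁ a₁ q₁ a₁' l₁ h1 => ?_⟩
      · rcases hq with ⟨h1, -⟩ | ⟨_, _, _, _, h1⟩
        · exact absurd h1 (List.cons_ne_nil _ _)
        · injection h1 with h2 _
          cases h2
      · injection h1 with h2 _
        cases h2

end HIB

open HIB in
theorem t_HIB : HIB_Stmt := by
  rintro Λ r S T x h hC ⟨p, hp, a, l, rfl⟩ ⟨y, y', hR, hA⟩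
  obtain ⟨u, hu, -⟩ : ∃ u, y'.1 = (a, true) :: u ∧ y = (u ++ [(a, true)], y'.2) := hA
  have hb : Beg T l p := by
    cases l with
    | nil =>
      have h1 : p = T.start := hC.1
      exact Or.inl ⟨rfl, h1⟩
    | cons o l' =>
      cases o with
      | sw μ₂ p₂ a₂ q₂ a₂' => exact hC.1.elim
      | hd p₂ s₂ q₂ d₂ =>
        have h1 : p = q₂ := hC.1
        rw [h1]
        exact Or.inr ⟨_, _, _, _, rfl⟩
      | ck p₂ a₂ => exact hC.1.elim
  rcases (inv T x l y' hC.2 hR).1 p hb with ⟨v, -, h1⟩ | ⟨b, u', h1⟩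
  · exact ⟨_, h1, hp⟩
  · rw [hu] at h1
    injection h1 with h2 _
    exact absurd (congrArg Prod.snd h2) Bool.noConfusion

end Pool.Agent.NPH
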