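import Pool.Agent.NPH.StA

/-!
# NPH_INI (helper49): moving the heads to given cells
-/

set_option autoImplicit false

namespace Pool.Agent.NPH

open Pool.Agent.Heads Relation

namespace INI

lemma move_step {N m a : ℕ} (ha : a ≤ N) :
    move N (min m a) (if m < a then Dir.R else Dir.S) = min (m + 1) a := by
  split_ifs with h
  · simp only [move]
    omega
  · simp only [move]
    omega

lemma aux (α : Type) (k : ℕ) (Γ : Type) (q : Fin k → ℕ) (m : ℕ) :
    ∃ ρ : Rl α k Γ, Real ρ ∧ ∀ w s c', (∀ i, q i ≤ w.length + 1) →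
      (ρ w (fun _ => 0, s) c' ↔ c' = (fun i => min m (q i), s)) := by
  induction m with
  | zero =>
    refine ⟨_, Real.act (fun _ _ => True) (fun _ => Dir.S) Op.none, fun w s c' _ => ?_⟩
    constructor
    · rintro ⟨-, -, rfl⟩
      refine Prod.ext ?_ rfl
      funext i
      simp only [move]
      omega
    · rintro rfl
      refine ⟨fun i => Nat.zero_le _, trivial, ?_⟩
      refine Prod.ext ?_ rfl
      funext i
      simp only [move]
      omega
  | succ m ih =>
    obtain ⟨ρ, hρ, h⟩ := ih
    refine ⟨_, Real.seq hρ (Real.act (fun _ _ => True)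
      (fun i => if m < q i then Dir.R else Dir.S) Op.none), fun w s c' hq => ?_⟩
    constructor
    · rintro ⟨c₁, h1, -, -, rfl⟩
      have h2 := (h w s c₁ hq).1 h1
      subst h2
      refine Prod.ext ?_ rfl
      funext i
      exact move_step (hq i)
    · rintro rfl
      refine ⟨_, (h w s _ hq).2 rfl, fun i => (min_le_right _ _).trans (hq i), trivial, ?_⟩
      refine Prod.ext ?_ rfl
      funext i
      exact (move_step (hq i)).symm

end INI

theorem t_INI : INI_Stmt := by
  intro α k Γ q
  obtain ⟨ρ, hρ, h⟩ := INI.aux α k Γ q (Finset.univ.sup q)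
  refine ⟨ρ, hρ, fun w s c' hq => ?_⟩
  have h1 : (fun i => min (Finset.univ.sup q) (q i)) = q := by
    funext i
    exact min_eq_right (Finset.le_sup (f := q) (Finset.mem_univ i))
  rw [h w s c' hq, h1]

end Pool.Agent.NPH
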