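import Pool.Agent.NPH.StA

/-!
# NPH, module LIF (helper70): a one-head program for head `i`
-/

set_option autoImplicit false

namespace Pool.Agent.NPH

open Pool.Agent.Heads Relation

namespace LIF

/-- two configurations which agree in head `i`, in the stack, and in the other heads -/
theorem cf_ext {k : ℕ} {Γ : Type} {i : Fin k} {c c' : Cf k Γ} (h1 : c'.1 i = c.1 i)
    (h2 : c'.2 = c.2) (h3 : ∀ j, j ≠ i → c'.1 j = c.1 j) : c' = c := by
  refine Prod.ext (funext fun j => ?_) h2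
  by_cases h : j = i
  · rw [h]
    exact h1
  · exact h3 j h

/-- the configuration with head `i` on the cell `y.1` and the stack `y.2` -/
def up {k : ℕ} {Γ : Type} (i : Fin k) (c : Cf k Γ) (y : ℕ × List Γ) : Cf k Γ :=
  (Function.update c.1 i y.1, y.2)

theorem up_self {k : ℕ} {Γ : Type} (i : Fin k) (c : Cf k Γ) (y : ℕ × List Γ) :
    ((up i c y).1 i, (up i c y).2) = y := by
  unfold up
  simp

theorem up_ne {k : ℕ} {Γ : Type} {i j : Fin k} (c : Cf k Γ) (y : ℕ × List Γ) (h : j ≠ i) :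
    (up i c y).1 j = c.1 j := by
  unfold up
  simp [h]

end LIF

open LIF in
theorem t_LIF : LIF_Stmt := by
  intro α k Γ τ hτ i
  induction hτ with
  | act G d o =>
    refine ⟨_, Real.act (fun s g => G (s i) g) (fun j => if j = i then d else Dir.S) o, ?_⟩
    intro w c c' hv
    constructor
    · rintro ⟨-, h2, rfl⟩
      refine ⟨⟨hv i, h2, ?_⟩, fun j hj => ?_⟩
      · simp
      · simp [hj, move]
    · rintro ⟨⟨-, h2, h3⟩, h4⟩
      rw [Prod.mk.injEq] at h3
      refine ⟨hv, h2, cf_ext (i := i) ?_ h3.2 fun j hj => ?_⟩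
      · rw [h3.1]
        simp
      · rw [h4 j hj]
        simp [hj, move]
  | @seq τ₁ τ₂ h₁ h₂ ih₁ ih₂ =>
    obtain ⟨ρ₁, r₁, e₁⟩ := ih₁
    obtain ⟨ρ₂, r₂, e₂⟩ := ih₂
    refine ⟨_, Real.seq r₁ r₂, ?_⟩
    intro w c c' hv
    constructor
    · rintro ⟨c₁, a₁, a₂⟩
      have hv₁ := r₁.val w c c₁ a₁ hv
      obtain ⟨b₁, b₂⟩ := (e₁ w c c₁ hv).1 a₁
      obtain ⟨b₃, b₄⟩ := (e₂ w c₁ c' hv₁).1 a₂
      exact ⟨⟨_, b₁, b₃⟩, fun j hj => (b₄ j hj).trans (b₂ j hj)⟩
    · rintro ⟨⟨y, a₁, a₂⟩, a₃⟩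
      have b₁ : ρ₁ w c (up i c y) := (e₁ w c _ hv).2 ⟨by rw [up_self]; exact a₁,
        fun j hj => up_ne c y hj⟩
      have hv₁ := r₁.val w c _ b₁ hv
      refine ⟨up i c y, b₁, (e₂ w _ c' hv₁).2 ⟨by rw [up_self]; exact a₂, fun j hj => ?_⟩⟩
      rw [up_ne c y hj]
      exact a₃ j hj
  | @alt τ₁ τ₂ h₁ h₂ ih₁ ih₂ =>
    obtain ⟨ρ₁, r₁, e₁⟩ := ih₁
    obtain ⟨ρ₂, r₂, e₂⟩ := ih₂
    refine ⟨_, Real.alt r₁ r₂, ?_⟩
    intro w c c' hv
    beta_reduce
    rw [e₁ w c c' hv, e₂ w c c' hv]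
    tauto
  | @star τ₁ h₁ ih₁ =>
    obtain ⟨ρ₁, r₁, e₁⟩ := ih₁
    refine ⟨_, Real.star r₁, ?_⟩
    intro w c c' hv
    constructor
    · intro h
      induction h with
      | refl => exact ⟨ReflTransGen.refl, fun j _ => rfl⟩
      | @tail c₁ c₂ a₁ a₂ ih =>
        have hv₁ := (Real.star r₁).val w c c₁ a₁ hv
        obtain ⟨b₁, b₂⟩ := (e₁ w c₁ c₂ hv₁).1 a₂
        exact ⟨ih.1.tail b₁, fun j hj => (b₂ j hj).trans (ih.2 j hj)⟩
    · rintro ⟨h, h3⟩
      have key : ∀ b, ReflTransGen (τ₁ w) (c.1 i, c.2) b → ReflTransGen (ρ₁ w) c (up i c b) := by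
        intro b hb
        induction hb with
        | refl =>
          have e : up i c (c.1 i, c.2) = c := by
            unfold up
            simp
          rw [e]
        | @tail b₁ b₂ _ a₂ ih =>
          have hv₁ := (Real.star r₁).val w c _ ih hv
          refine ih.tail ((e₁ w _ _ hv₁).2 ⟨?_, fun j hj => ?_⟩)
          · rw [up_self, up_self]
            exact a₂
          · rw [up_ne c b₂ hj, up_ne c b₁ hj]
      have h4 := key _ h
      have e : up i c (c'.1 i, c'.2) = c' := by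
        refine (cf_ext (i := i) ?_ ?_ fun j hj => ?_).symm
        · unfold up
          simp
        · rfl
        · rw [up_ne c _ hj]
          exact h3 j hj
      rw [e] at h4
      exact h4

end Pool.Agent.NPH
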