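import Pool.Agent.NPH.StA

/-!
# From programs to pushdown automata (module LNG)
-/

set_option autoImplicit false

namespace Pool.Agent.NPH

open Pool.Agent.Heads Relation

namespace LNG

/-- every relation of a program expression is computed by a finite program -/
lemma prog {α : Type} {k : ℕ} {Γ : Type} (h1 : FSQ_Stmt) (h2 : FAL_Stmt) (h3 : FST_Stmt)
    {ρ : Rl α k Γ} (h : Real ρ) :
    ∃ P : Frag α k Γ, ∀ w c c', Val w c → (ρ w c c' ↔ P.rel w c c') := by
  induction h with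
  | act G d o =>
    let P : Frag α k Γ := ⟨Bool, inferInstance, false, true,
      fun q s g => {t | q = false ∧ G s g ∧ t = (true, d, o)}⟩
    refine ⟨P, fun w c c' hv => ?_⟩
    constructor
    · rintro ⟨_, hG, rfl⟩
      exact ReflTransGen.single ⟨(true, d, o), ⟨rfl, hG, rfl⟩, rfl⟩
    · intro h
      rcases ReflTransGen.cases_head h with h | ⟨c1, hs, ht⟩
      · exact absurd (congrArg Prod.fst h) (by simp [P])
      · obtain ⟨t, ⟨_, hG, rfl⟩, rfl⟩ := hs
        rcases ReflTransGen.cases_head ht with h | ⟨c2, hs', _⟩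
        · exact ⟨hv, hG, (congrArg Prod.snd h).symm⟩
        · obtain ⟨t, ⟨h, _⟩, _⟩ := hs'
          exact absurd h (by simp)
  | seq h h' ih ih' =>
    obtain ⟨P, hP⟩ := ih
    obtain ⟨P', hP'⟩ := ih'
    obtain ⟨P'', hP''⟩ := h1 α k Γ P P'
    refine ⟨P'', fun w c c' hv => ?_⟩
    rw [hP'']
    constructor
    · rintro ⟨c₁, ha, hb⟩
      exact ⟨c₁, (hP w c c₁ hv).1 ha, (hP' w c₁ c' (h.val w c c₁ ha hv)).1 hb⟩
    · rintro ⟨c₁, ha, hb⟩
      have ha' := (hP w c c₁ hv).2 ha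
      exact ⟨c₁, ha', (hP' w c₁ c' (h.val w c c₁ ha' hv)).2 hb⟩
  | alt h h' ih ih' =>
    obtain ⟨P, hP⟩ := ih
    obtain ⟨P', hP'⟩ := ih'
    obtain ⟨P'', hP''⟩ := h2 α k Γ P P'
    refine ⟨P'', fun w c c' hv => ?_⟩
    rw [hP'', ← hP w c c' hv, ← hP' w c c' hv]
  | @star ρ h ih =>
    obtain ⟨P, hP⟩ := ih
    obtain ⟨P'', hP''⟩ := h3 α k Γ P
    refine ⟨P'', fun w c c' hv => ?_⟩
    rw [hP'']
    constructor
    · intro hr
      induction hr with
      | refl => exact ReflTransGen.refl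
      | @tail b d hb hd ihd =>
        exact ihd.tail ((hP w b d ((Real.star h).val w c b hb hv)).1 hd)
    · intro hr
      induction hr with
      | refl => exact ReflTransGen.refl
      | @tail b d hb hd ihd =>
        exact ReflTransGen.tail ihd ((hP w b d ((Real.star h).val w c b ihd hv)).2 hd)

/-- the pushdown automaton of a program -/
def aut {α : Type} {k : ℕ} {Γ : Type} [Finite Γ] (P : Frag α k Γ) : PDA α k :=
  ⟨P.Q, Γ, P.finQ, inferInstance, P.s, {P.f}, P.δ⟩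

lemma reach_rt {α : Type} {k : ℕ} {Γ : Type} [Finite Γ] (P : Frag α k Γ) (w : List α) (t : ℕ)
    (c : Cfg (aut P).Q (Fin k → ℕ) (aut P).Γ) (h : (aut P).Reach w t c) :
    ReflTransGen (P.Step w) (P.s, (fun _ => 0, [])) (c.state, (c.pos, c.stack)) := by
  induction h with
  | zero => exact ReflTransGen.refl
  | succ _ hs ih =>
    obtain ⟨t, ht, rfl⟩ := hs
    exact ih.tail ⟨t, ht, rfl⟩

lemma rt_reach {α : Type} {k : ℕ} {Γ : Type} [Finite Γ] (P : Frag α k Γ) (w : List α)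
    (c : P.Q × Cf k Γ) (h : ReflTransGen (P.Step w) (P.s, (fun _ => 0, [])) c) :
    ∃ t, (aut P).Reach w t ⟨c.1, c.2.1, c.2.2⟩ := by
  induction h with
  | refl => exact ⟨0, PDA.Reach.zero⟩
  | tail _ hs ih =>
    obtain ⟨n, hn⟩ := ih
    obtain ⟨t, ht, rfl⟩ := hs
    exact ⟨n + 1, PDA.Reach.succ hn ⟨t, ht, rfl⟩⟩

end LNG

open LNG in
/-- LNG: programs give languages of pushdown automata. -/
theorem t_LNG (h1 : FSQ_Stmt) (h2 : FAL_Stmt) (h3 : FST_Stmt) : LNG_Stmt := by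
  intro α k Γ _ ρ hρ
  obtain ⟨P, hP⟩ := prog h1 h2 h3 hρ
  refine ⟨aut P, fun w => ?_⟩
  have hv : Val w ((fun _ => 0, []) : Cf k Γ) := fun _ => Nat.zero_le _
  constructor
  · rintro ⟨t, c, hr, hc⟩
    refine ⟨(c.pos, c.stack), (hP w _ _ hv).2 ?_⟩
    have h := reach_rt P w t c hr
    have hc' : c.state = P.f := hc
    rw [hc'] at h
    exact h
  · rintro ⟨c', hc'⟩
    obtain ⟨t, ht⟩ := rt_reach P w _ ((hP w _ _ hv).1 hc')
    exact ⟨t, _, ht, rfl⟩

end Pool.Agent.NPH
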