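import Pool.Agent.NPH.StA

/-!
# Project NPH, module MVM: a step of the reading head
-/

set_option autoImplicit false

namespace Pool.Agent.NPH

open Pool.Agent.Heads Relation

namespace MVM

theorem tape_left {Λ : Type} (x : List Λ) (j : ℕ) : tape x j = Sym.left ↔ j = 0 := by
  cases j with
  | zero => simp [tape]
  | succ p =>
    simp only [tape]
    cases x[p]? <;> simp

theorem tape_right {Λ : Type} (x : List Λ) (j : ℕ) (hj : j ≤ x.length + 1) :
    tape x j = Sym.right ↔ j = x.length + 1 := by
  cases j with
  | zero => simp [tape]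
  | succ p =>
    simp only [tape]
    by_cases hp : p < x.length
    · rw [List.getElem?_eq_getElem hp]
      simp only [reduceCtorEq, false_iff]
      omega
    · rw [List.getElem?_eq_none (by omega)]
      simp only [true_iff]
      omega

section

variable {α Γ : Type}

/-- action -/
def A (G : Sym α → Prop) (d : Dir) : Rl1 α Γ := fun w c c' =>
  c.1 ≤ w.length + 1 ∧ (fun (a : Sym α) (_ : Option Γ) => G a) (tape w c.1) c.2.head? ∧
    c' = (move (w.length + 1) c.1 d, (Op.none : Op Γ).apply c.2)

/-- composition -/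
def Sq (ρ σ : Rl1 α Γ) : Rl1 α Γ := fun w c c' => ∃ c₁, ρ w c c₁ ∧ σ w c₁ c'

/-- union -/
def Al (ρ σ : Rl1 α Γ) : Rl1 α Γ := fun w c c' => ρ w c c' ∨ σ w c c'

/-- star -/
def Sr (ρ : Rl1 α Γ) : Rl1 α Γ := fun w => ReflTransGen (ρ w)

theorem rA (G : Sym α → Prop) (d : Dir) : Real1 (A G d : Rl1 α Γ) :=
  Real1.act (fun (a : Sym α) (_ : Option Γ) => G a) d Op.none

theorem rSq {ρ σ : Rl1 α Γ} (h1 : Real1 ρ) (h2 : Real1 σ) : Real1 (Sq ρ σ) := Real1.seq h1 h2

theorem rAl {ρ σ : Rl1 α Γ} (h1 : Real1 ρ) (h2 : Real1 σ) : Real1 (Al ρ σ) := Real1.alt h1 h2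

theorem rSr {ρ : Rl1 α Γ} (h1 : Real1 ρ) : Real1 (Sr ρ) := Real1.star h1

theorem A_iff {G : Sym α → Prop} {d : Dir} {w : List α} {c c' : ℕ × List Γ}
    (h1 : c.1 ≤ w.length + 1) (h2 : G (tape w c.1)) :
    (A G d : Rl1 α Γ) w c c' ↔ c' = (move (w.length + 1) c.1 d, c.2) := by
  constructor
  · intro h
    exact h.2.2
  · intro h
    exact ⟨h1, h2, h⟩

theorem A_not {G : Sym α → Prop} {d : Dir} {w : List α} {c c' : ℕ × List Γ}
    (h2 : ¬ G (tape w c.1)) : ¬ (A G d : Rl1 α Γ) w c c' := fun h => h2 h.2.1

theorem Sq_iff {ρ σ : Rl1 α Γ} {w : List α} {c d c' : ℕ × List Γ}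
    (h : ∀ c₁, ρ w c c₁ ↔ c₁ = d) : Sq ρ σ w c c' ↔ σ w d c' := by
  constructor
  · rintro ⟨c₁, h1, h2⟩
    rw [(h c₁).mp h1] at h2
    exact h2
  · intro h2
    exact ⟨d, (h d).mpr rfl, h2⟩

theorem Sq_not {ρ σ : Rl1 α Γ} {w : List α} {c c' : ℕ × List Γ}
    (h : ∀ c₁, ¬ ρ w c c₁) : ¬ Sq ρ σ w c c' := by
  rintro ⟨c₁, h1, -⟩
  exact h c₁ h1

end

/-- some letter, different from `b` -/
def Oth {Λ : Type} (b : Sym Λ) (a : Sym (Option (Sym Λ))) : Prop :=
  ∃ e : Sym Λ, e ≠ b ∧ a = Sym.letter (some e)

/-- blank -/
def Bla {Λ : Type} (a : Sym (Option (Sym Λ))) : Prop := a = Sym.letter none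

/-- not blank -/
def Mrk {Λ : Type} (a : Sym (Option (Sym Λ))) : Prop := ∃ e : Sym Λ, a = Sym.letter (some e)

/-- the symbol of `b` -/
def Is {Λ : Type} (b : Sym Λ) (a : Sym (Option (Sym Λ))) : Prop := a = Sym.letter (some b)

theorem cel_le (h1 : PAD_Stmt) {Λ : Type} (M : ℕ) (x : List Λ) (hM : 1 ≤ M) {j P : ℕ}
    (hj : j ≤ x.length + 1) (hP : P ≤ M) : cel M j P ≤ (pad M x).length + 1 := by
  rw [(h1 Λ M x hM).1]
  have h2 : j * M ≤ (x.length + 1) * M := Nat.mul_le_mul_right M hj
  have h3 : (x.length + 2) * M = (x.length + 1) * M + M := by ring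
  unfold cel
  omega

/-- walking to the next letter -/
theorem walk (h1 : PAD_Stmt) {Λ Γ : Type} (M : ℕ) (x : List Λ) (hM : 1 ≤ M) (j : ℕ)
    (hj : j ≤ x.length) (s : List Γ) (c' : ℕ × List Γ) : ∀ (n Q : ℕ), 1 ≤ Q → Q + n = M →
    (Sq (Sr (A Bla Dir.R)) (A Mrk Dir.S) (pad M x) (cel M j Q, s) c' ↔
      c' = (cel M (j + 1) 0, s))
  | 0, Q, h2, h3 => by
    have hQ : Q = M := by omega
    subst hQ
    have hc : cel Q j Q = cel Q (j + 1) 0 := by
      unfold cel
      ring
    rw [hc]
    have ht : tape (pad Q x) (cel Q (j + 1) 0) = Sym.letter (some (tape x (j + 1))) := by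
      rw [(h1 Λ Q x hM).2.1 (j + 1) 0 (by omega) (by omega), if_pos rfl]
    have hle : cel Q (j + 1) 0 ≤ (pad Q x).length + 1 := cel_le h1 Q x hM (by omega) (by omega)
    have hs : ∀ c₁, (Sr (A Bla Dir.R) : Rl1 (Option (Sym Λ)) Γ) (pad Q x)
        (cel Q (j + 1) 0, s) c₁ ↔ c₁ = (cel Q (j + 1) 0, s) := by
      intro c₁
      constructor
      · intro h
        rcases ReflTransGen.cases_head h with h | ⟨c₂, h4, -⟩
        · exact h.symm
        · exfalso
          refine A_not ?_ h4
          intro h5
          change tape (pad Q x) (cel Q (j + 1) 0) = _ at h5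
          rw [ht] at h5
          simp at h5
      · rintro rfl
        exact ReflTransGen.refl
    rw [Sq_iff hs, A_iff hle ⟨_, ht⟩]
    rfl
  | n + 1, Q, h2, h3 => by
    have ih := walk h1 M x hM j hj s c' n (Q + 1) (by omega) (by omega)
    have ht : tape (pad M x) (cel M j Q) = Sym.letter none := by
      rw [(h1 Λ M x hM).2.1 j Q (by omega) (by omega), if_neg (by omega)]
    have hle : cel M j (Q + 1) ≤ (pad M x).length + 1 := cel_le h1 M x hM (by omega) (by omega)
    have hle' : cel M j Q ≤ (pad M x).length + 1 := cel_le h1 M x hM (by omega) (by omega)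
    have hmv : move ((pad M x).length + 1) (cel M j Q) Dir.R = cel M j (Q + 1) := by
      have : cel M j (Q + 1) = cel M j Q + 1 := by
        unfold cel
        ring
      simp only [move]
      omega
    rw [← ih]
    constructor
    · rintro ⟨c₁, h4, h5⟩
      rcases ReflTransGen.cases_head h4 with h | ⟨c₂, h6, h7⟩
      · exfalso
        subst h
        refine A_not ?_ h5
        rintro ⟨e, he⟩
        change tape (pad M x) (cel M j Q) = _ at he
        rw [ht] at he
        simp at he
      · have h8 : c₂ = (cel M j (Q + 1), s) := by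
          have := (A_iff (G := Bla) (d := Dir.R) (w := pad M x) (c := (cel M j Q, s)) (c' := c₂)
            hle' ht).mp h6
          rw [this]
          exact Prod.ext hmv rfl
        subst h8
        exact ⟨c₁, h7, h5⟩
    · rintro ⟨c₁, h4, h5⟩
      refine ⟨c₁, ReflTransGen.head ?_ h4, h5⟩
      refine (A_iff (G := Bla) (d := Dir.R) (w := pad M x) (c := (cel M j Q, s)) hle' ht).mpr ?_
      exact Prod.ext hmv.symm rfl

end MVM

open MVM in
/-- MVM: a step of the reading head. -/
theorem t_MVM (h1 : PAD_Stmt) (h2 : POP_Stmt) (h3 : GOL_Stmt) : MVM_Stmt := by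
  intro Λ H d
  obtain ⟨τ₃, hr3, hτ3⟩ := h2 (Option (Sym Λ)) H
  obtain ⟨⟨τ₁, hr1, hτ1⟩, ⟨τ₂, hr2, hτ2⟩⟩ := h3 Λ H
  -- the last part
  have hpop : ∀ (M : ℕ) (x : List Λ) (j P : ℕ) (s : List (Bool ⊕ H)) (c' : ℕ × List (Bool ⊕ H)),
      1 ≤ M → j ≤ x.length + 1 → P < M → Cln s →
      (τ₃ (pad M x) (cel M j 0, (List.replicate P false).map Sum.inl ++ s) c' ↔
        c' = (cel M j P, s)) := by
    intro M x j P s c' hM hj hP hs
    have hc : cel M j 0 + (List.replicate P false).length = cel M j P := by
      rw [List.length_replicate]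
      unfold cel
      ring
    rw [hτ3 (pad M x) (cel M j 0) (List.replicate P false) s c' hs, hc]
    rw [hc]
    exact cel_le h1 M x hM hj hP.le
  cases d with
  | S =>
    refine ⟨A (fun _ => True) Dir.S, rA _ _, ?_⟩
    intro M x j P s c' hM hj hP hs
    rw [A_iff (cel_le h1 M x hM hj hP.le) trivial]
    rfl
  | R =>
    refine ⟨Sq τ₁ (Sq (Al (A (Is Sym.right) Dir.S)
      (Sq (A (Oth Sym.right) Dir.R) (Sq (Sr (A Bla Dir.R)) (A Mrk Dir.S)))) τ₃),
      rSq hr1 (rSq (rAl (rA _ _) (rSq (rA _ _) (rSq (rSr (rA _ _)) (rA _ _)))) hr3), ?_⟩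
    intro M x j P s c' hM hj hP hs
    rw [Sq_iff (fun c₁ => hτ1 M x j P s c₁ hM hj hP)]
    have ht : tape (pad M x) (cel M j 0) = Sym.letter (some (tape x j)) := by
      rw [(h1 Λ M x hM).2.1 j 0 hj (by omega), if_pos rfl]
    have hle : cel M j 0 ≤ (pad M x).length + 1 := cel_le h1 M x hM hj (by omega)
    by_cases hj2 : j = x.length + 1
    · have hright : tape x j = Sym.right := (tape_right x j hj).mpr hj2
      have hmid : ∀ c₁, Al (A (Is Sym.right) Dir.S)
          (Sq (A (Oth Sym.right) Dir.R) (Sq (Sr (A Bla Dir.R)) (A Mrk Dir.S))) (pad M x)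
          (cel M j 0, (List.replicate P false).map Sum.inl ++ s) c₁ ↔
          c₁ = (cel M j 0, (List.replicate P false).map Sum.inl ++ s) := by
        intro c₁
        constructor
        · rintro (h | h)
          · rw [A_iff hle (show Is Sym.right (tape (pad M x) (cel M j 0)) by
              rw [ht, hright]; rfl)] at h
            exact h
          · exfalso
            refine Sq_not (fun c₂ => A_not ?_) h
            rintro ⟨e, he, he2⟩
            change tape (pad M x) (cel M j 0) = _ at he2
            rw [ht, hright] at he2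
            simp at he2
            exact he he2.symm
        · intro h
          left
          rw [A_iff hle (show Is Sym.right (tape (pad M x) (cel M j 0)) by
            rw [ht, hright]; rfl)]
          exact h
      rw [Sq_iff hmid, hpop M x j P s c' hM hj hP hs]
      have : move (x.length + 1) j Dir.R = j := by
        simp only [move]
        omega
      rw [this]
    · have hright : tape x j ≠ Sym.right := fun h => hj2 ((tape_right x j hj).mp h)
      have hmid : ∀ c₁, Al (A (Is Sym.right) Dir.S)
          (Sq (A (Oth Sym.right) Dir.R) (Sq (Sr (A Bla Dir.R)) (A Mrk Dir.S))) (pad M x)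
          (cel M j 0, (List.replicate P false).map Sum.inl ++ s) c₁ ↔
          c₁ = (cel M (j + 1) 0, (List.replicate P false).map Sum.inl ++ s) := by
        intro c₁
        have hmv : move ((pad M x).length + 1) (cel M j 0) Dir.R = cel M j 1 := by
          have h4 : cel M j 1 = cel M j 0 + 1 := by
            unfold cel
            ring
          have h5 : cel M j 1 ≤ (pad M x).length + 1 := cel_le h1 M x hM hj hM
          simp only [move]
          omega
        have hB : ∀ c₂, (A (Oth Sym.right) Dir.R : Rl1 (Option (Sym Λ)) (Bool ⊕ H)) (pad M x)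
            (cel M j 0, (List.replicate P false).map Sum.inl ++ s) c₂ ↔
            c₂ = (cel M j 1, (List.replicate P false).map Sum.inl ++ s) := by
          intro c₂
          rw [A_iff hle ⟨tape x j, hright, ht⟩, hmv]
        have hC := walk h1 M x hM j (by omega)
          ((List.replicate P false).map Sum.inl ++ s : List (Bool ⊕ H)) c₁ (M - 1) 1 le_rfl
          (by omega)
        constructor
        · rintro (h | h)
          · exfalso
            refine A_not ?_ h
            intro h5
            change tape (pad M x) (cel M j 0) = _ at h5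
            rw [ht] at h5
            simp at h5
            exact hright h5
          · rw [Sq_iff hB, hC] at h
            exact h
        · intro h
          right
          rw [Sq_iff hB, hC]
          exact h
      rw [Sq_iff hmid, hpop M x (j + 1) P s c' hM (by omega) hP hs]
      have : move (x.length + 1) j Dir.R = j + 1 := by
        simp only [move]
        omega
      rw [this]
  | L =>
    refine ⟨Sq τ₁ (Sq (Al (A (Is Sym.left) Dir.S) (Sq (A (Oth Sym.left) Dir.L) τ₂)) τ₃),
      rSq hr1 (rSq (rAl (rA _ _) (rSq (rA _ _) hr2)) hr3), ?_⟩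
    intro M x j P s c' hM hj hP hs
    rw [Sq_iff (fun c₁ => hτ1 M x j P s c₁ hM hj hP)]
    have ht : tape (pad M x) (cel M j 0) = Sym.letter (some (tape x j)) := by
      rw [(h1 Λ M x hM).2.1 j 0 hj (by omega), if_pos rfl]
    have hle : cel M j 0 ≤ (pad M x).length + 1 := cel_le h1 M x hM hj (by omega)
    by_cases hj2 : j = 0
    · have hleft : tape x j = Sym.left := (tape_left x j).mpr hj2
      have hmid : ∀ c₁, Al (A (Is Sym.left) Dir.S) (Sq (A (Oth Sym.left) Dir.L) τ₂) (pad M x)
          (cel M j 0, (List.replicate P false).map Sum.inl ++ s) c₁ ↔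
          c₁ = (cel M j 0, (List.replicate P false).map Sum.inl ++ s) := by
        intro c₁
        constructor
        · rintro (h | h)
          · rw [A_iff hle (show Is Sym.left (tape (pad M x) (cel M j 0)) by
              rw [ht, hleft]; rfl)] at h
            exact h
          · exfalso
            refine Sq_not (fun c₂ => A_not ?_) h
            rintro ⟨e, he, he2⟩
            change tape (pad M x) (cel M j 0) = _ at he2
            rw [ht, hleft] at he2
            simp at he2
            exact he he2.symm
        · intro h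
          left
          rw [A_iff hle (show Is Sym.left (tape (pad M x) (cel M j 0)) by
            rw [ht, hleft]; rfl)]
          exact h
      rw [Sq_iff hmid, hpop M x j P s c' hM hj hP hs]
      have : move (x.length + 1) j Dir.L = j := by
        simp only [move]
        omega
      rw [this]
    · have hleft : tape x j ≠ Sym.left := fun h => hj2 ((tape_left x j).mp h)
      obtain ⟨i, rfl⟩ : ∃ i, j = i + 1 := ⟨j - 1, by omega⟩
      have hmid : ∀ c₁, Al (A (Is Sym.left) Dir.S) (Sq (A (Oth Sym.left) Dir.L) τ₂) (pad M x)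
          (cel M (i + 1) 0, (List.replicate P false).map Sum.inl ++ s) c₁ ↔
          c₁ = (cel M i 0, (List.replicate P false).map Sum.inl ++ s) := by
        intro c₁
        have hmv : move ((pad M x).length + 1) (cel M (i + 1) 0) Dir.L = cel M i (M - 1) := by
          simp only [move]
          unfold cel
          have : (i + 1) * M = i * M + M := by ring
          omega
        have hB : ∀ c₂, (A (Oth Sym.left) Dir.L : Rl1 (Option (Sym Λ)) (Bool ⊕ H)) (pad M x)
            (cel M (i + 1) 0, (List.replicate P false).map Sum.inl ++ s) c₂ ↔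
            c₂ = (cel M i (M - 1), (List.replicate P false).map Sum.inl ++ s) := by
          intro c₂
          rw [A_iff hle ⟨tape x (i + 1), hleft, ht⟩, hmv]
        have hC := hτ2 M x i (M - 1)
          ((List.replicate P false).map Sum.inl ++ s : List (Bool ⊕ H)) c₁ hM (by omega)
          (by omega)
        constructor
        · rintro (h | h)
          · exfalso
            refine A_not ?_ h
            intro h5
            change tape (pad M x) (cel M (i + 1) 0) = _ at h5
            rw [ht] at h5
            simp at h5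
            exact hleft h5
          · rw [Sq_iff hB, hC] at h
            exact h
        · intro h
          right
          rw [Sq_iff hB, hC]
          exact h
      rw [Sq_iff hmid, hpop M x i P s c' hM (by omega) hP hs]
      have : move (x.length + 1) (i + 1) Dir.L = i := by
        simp only [move]
        omega
      rw [this]

end Pool.Agent.NPH
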