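import Pool.Agent.NPH.StA

/-!
# The padded word
-/

set_option autoImplicit false

namespace Pool.Agent.NPH

open Pool.Agent.Heads

namespace PAD

lemma tape_some {α : Type} (w : List α) (p : ℕ) (a : α) (h : w[p]? = some a) :
    tape w (p + 1) = Sym.letter a := by
  have h1 : tape w (p + 1) = (match w[p]? with
    | some a => Sym.letter a
    | none => Sym.right) := rfl
  rw [h1, h]

lemma tape_none {α : Type} (w : List α) (p : ℕ) (h : w[p]? = none) :
    tape w (p + 1) = Sym.right := by
  have h1 : tape w (p + 1) = (match w[p]? with
    | some a => Sym.letter a
    | none => Sym.right) := rfl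
  rw [h1, h]

/-- The blocks. -/
def bl {B : Type} (M : ℕ) (l : List B) : List (Option B) :=
  l.flatMap fun s => some s :: List.replicate (M - 1) none

lemma bl_cons {B : Type} (M : ℕ) (a : B) (l : List B) :
    bl M (a :: l) = (some a :: List.replicate (M - 1) none) ++ bl M l := rfl

lemma length_bl {B : Type} (M : ℕ) (hM : 1 ≤ M) (l : List B) : (bl M l).length = l.length * M := by
  induction l with
  | nil => simp [bl]
  | cons a l ih =>
    rw [bl_cons, List.length_append, ih, List.length_cons, List.length_replicate, List.length_cons,
      Nat.sub_add_cancel hM]
    ring

lemma get_bl {B : Type} (M : ℕ) (hM : 1 ≤ M) (l : List B) : ∀ (j P : ℕ) (b : B), P < M →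
    l[j]? = some b → (bl M l)[j * M + P]? = some (if P = 0 then some b else none) := by
  induction l with
  | nil =>
    intro j P b _ h
    simp at h
  | cons a l ih =>
    intro j P b hP h
    have hlen : (some a :: List.replicate (M - 1) (none : Option B)).length = M := by
      rw [List.length_cons, List.length_replicate, Nat.sub_add_cancel hM]
    rw [bl_cons]
    cases j with
    | zero =>
      rw [List.getElem?_cons_zero] at h
      rw [List.getElem?_append_left (by rw [hlen]; omega), zero_mul, zero_add]
      cases P with
      | zero =>
        rw [List.getElem?_cons_zero, if_pos rfl, h]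
      | succ P =>
        rw [List.getElem?_cons_succ, if_neg (by omega), List.getElem?_replicate,
          if_pos (by omega)]
    | succ j =>
      rw [List.getElem?_cons_succ] at h
      have hle : M ≤ (j + 1) * M + P := by nlinarith
      rw [List.getElem?_append_right (by rw [hlen]; exact hle), hlen]
      have hidx : (j + 1) * M + P - M = j * M + P := by
        have : (j + 1) * M + P = j * M + P + M := by ring
        omega
      rw [hidx]
      exact ih j P b hP h

lemma get_brk {Λ : Type} (x : List Λ) (j : ℕ) (hj : j ≤ x.length + 1) :
    (brk x)[j]? = some (tape x j) := by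
  unfold brk
  cases j with
  | zero => rfl
  | succ i =>
    rw [List.getElem?_cons_succ]
    rcases Nat.lt_or_ge i x.length with hi | hi
    · rw [List.getElem?_append_left (by rw [List.length_map]; exact hi), List.getElem?_map]
      rw [tape_some x i x[i] (List.getElem?_eq_getElem hi), List.getElem?_eq_getElem hi]
      rfl
    · have hi' : i = x.length := by omega
      rw [List.getElem?_append_right (by rw [List.length_map]; exact hi), List.length_map, hi',
        Nat.sub_self, tape_none x x.length (List.getElem?_eq_none (le_refl _))]
      rfl

end PAD

open PAD in
/-- `PAD`: the padded word. -/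
theorem t_PAD : PAD_Stmt := by
  intro Λ M x hM
  have hpad : pad M x = bl M (brk x) := rfl
  have hbrk : (brk x).length = x.length + 2 := by
    unfold brk
    rw [List.length_cons, List.length_append, List.length_map, List.length_singleton]
  have hlen : (pad M x).length = (x.length + 2) * M := by
    rw [hpad, length_bl M hM, hbrk]
  refine ⟨hlen, ?_, ?_⟩
  · intro j P hj hP
    have h1 : (pad M x)[j * M + P]? = some (if P = 0 then some (tape x j) else none) := by
      rw [hpad]
      exact get_bl M hM (brk x) j P (tape x j) hP (get_brk x j hj)
    have h2 : cel M j P = (j * M + P) + 1 := by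
      unfold cel
      ring
    rw [h2, tape_some _ _ _ h1]
  · have h2 : cel M (x.length + 2) 0 = (x.length + 2) * M + 1 := by
      unfold cel
      ring
    rw [h2, tape_none _ _ (List.getElem?_eq_none (by rw [hlen]))]

end Pool.Agent.NPH
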