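import Pool.Agent.NPH.StA

/-!
# Project NPH, module PAS: one pass
-/

set_option autoImplicit false

namespace Pool.Agent.NPH

open Pool.Agent.Heads Relation

namespace PAS

variable {Λ H : Type} {k β : ℕ}

/-- the guard -/
def Gd (C : Option H → H → Prop) (η : H) (o : Option (Bool ⊕ H)) : Prop :=
  ∃ o' : Option H, o = o'.map Sum.inr ∧ C o' η

theorem gd_map {C : Option H → H → Prop} {η : H} {h : List H} :
    Gd C η (h.map (Sum.inr : H → Bool ⊕ H)).head? ↔ C h.head? η := by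
  unfold Gd
  rw [List.head?_map]
  constructor
  · rintro ⟨o', h1, h2⟩
    have h3 : h.head? = o' := Option.map_injective Sum.inr_injective h1
    rw [h3]
    exact h2
  · intro h1
    exact ⟨_, rfl, h1⟩

/-- one round -/
def Rnd (C : Option H → H → Prop) (η : H) (ρ : Rl (Option (Sym Λ)) k (Bool ⊕ H)) :
    Rl (Option (Sym Λ)) k (Bool ⊕ H) := fun w c c' => ∃ c₁, (Val w c ∧ Gd C η c.2.head? ∧
      c₁ = (fun i => move (w.length + 1) (c.1 i) Dir.S, (Op.push (Sum.inr η)).apply c.2)) ∧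
      ρ w c₁ c'

theorem real_rnd (C : Option H → H → Prop) (η : H) {ρ : Rl (Option (Sym Λ)) k (Bool ⊕ H)}
    (hρ : Real ρ) : Real (Rnd C η ρ) :=
  Real.seq (Real.act (fun _ o => Gd C η o) (fun _ => Dir.S) (Op.push (Sum.inr η))) hρ

theorem cel_le (h1 : PAD_Stmt) {M : ℕ} {x : List Λ} (hM : 1 ≤ M) {y : ℕ × ℕ} (hy : Inr M x y) :
    cel M y.1 y.2 ≤ (pad M x).length + 1 := by
  rw [(h1 Λ M x hM).1]
  obtain ⟨h2, h3⟩ := hy
  unfold cel
  have h4 : (y.1 + 1) * M ≤ (x.length + 2) * M := Nat.mul_le_mul_right M (by omega)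
  have h5 : (y.1 + 1) * M = y.1 * M + M := by ring
  omega

/-- The configuration. -/
def cf (M : ℕ) (y : Fin k → ℕ × ℕ) (h : List H) : Cf k (Bool ⊕ H) :=
  (fun i => cel M (y i).1 (y i).2, h.map Sum.inr)

theorem rnd_iff (h1 : PAD_Stmt) {C : Option H → H → Prop} {a : Fin k → Ac Λ} {η : H}
    {ρ : Rl (Option (Sym Λ)) k (Bool ⊕ H)}
    (hρ : ∀ (M : ℕ) (x : List Λ) (y : Fin k → ℕ × ℕ) (s : List (Bool ⊕ H))
      (c' : Cf k (Bool ⊕ H)), 1 ≤ M → β ∣ M → (∀ i, Inr M x (y i)) → Cln s →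
      (ρ (pad M x) (fun i => cel M (y i).1 (y i).2, s) c' ↔
        ∃ y' : Fin k → ℕ × ℕ, (∀ i, AcR β M x (a i) (y i) (y' i)) ∧
          c' = (fun i => cel M (y' i).1 (y' i).2, s)))
    {M : ℕ} {x : List Λ} {y : Fin k → ℕ × ℕ} {h : List H} {c' : Cf k (Bool ⊕ H)} (hM : 1 ≤ M)
    (hd : β ∣ M) (hy : ∀ i, Inr M x (y i)) :
    Rnd C η ρ (pad M x) (cf M y h) c' ↔ C h.head? η ∧ ∃ y' : Fin k → ℕ × ℕ,
      (∀ i, AcR β M x (a i) (y i) (y' i)) ∧ c' = cf M y' (η :: h) := by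
  have hv : Val (pad M x) (cf M y h) := fun i => cel_le h1 hM (hy i)
  have hcl : Cln ((η :: h).map (Sum.inr : H → Bool ⊕ H)) := by
    intro b e
    rw [List.map_cons, List.head?_cons, Option.some.injEq] at e
    exact absurd e (by simp)
  have key := hρ M x y ((η :: h).map Sum.inr) c' hM hd hy hcl
  constructor
  · rintro ⟨c₁, ⟨-, h2, rfl⟩, h3⟩
    exact ⟨gd_map.1 h2, key.1 h3⟩
  · rintro ⟨h2, h3⟩
    exact ⟨_, ⟨hv, gd_map.2 h2, rfl⟩, key.2 h3⟩

end PAS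

theorem t_PAS (h1 : PAD_Stmt) (h2 : UNI_Stmt) (h3 : INI_Stmt) (h4 : HDS_Stmt) : PAS_Stmt := by
  intro Λ H _ k β C a P₀ hβ hok hP
  obtain ⟨ρ₀, hρ₀, h0⟩ := h3 (Option (Sym Λ)) k (Bool ⊕ H) (fun i => 1 + P₀ i)
  have h5 := fun η => h4 Λ H k β (a η) hβ (hok η)
  choose ρ hρ hρ' using h5
  have hU := (h2 (Option (Sym Λ)) k (Bool ⊕ H)).1 H (fun η => PAS.Rnd C η (ρ η))
    (fun η => PAS.real_rnd C η (hρ η))
  refine ⟨_, Real.seq hρ₀ (Real.star hU), ?_⟩
  intro M x c' hM hd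
  have hβM : β ≤ M := Nat.le_of_dvd hM hd
  have hstart : ∀ i, Inr M x ((fun i => (0, P₀ i) : Fin k → ℕ × ℕ) i) := fun i =>
    ⟨Nat.zero_le _, lt_of_lt_of_le (hP i) hβM⟩
  have hq : ((fun i => 1 + P₀ i, []) : Cf k (Bool ⊕ H)) = PAS.cf M (fun i => (0, P₀ i)) [] := by
    unfold PAS.cf cel
    rw [List.map_nil]
    refine Prod.ext (funext fun i => ?_) rfl
    dsimp only
    omega
  have hle : ∀ i, (fun i => 1 + P₀ i) i ≤ (pad M x).length + 1 := by
    intro i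
    have h6 := PAS.cel_le h1 hM (hstart i)
    have h7 : cel M ((fun i => (0, P₀ i) : Fin k → ℕ × ℕ) i).1
        ((fun i => (0, P₀ i) : Fin k → ℕ × ℕ) i).2 = 1 + P₀ i := by
      unfold cel
      dsimp only
      omega
    rw [h7] at h6
    exact h6
  have hround : ∀ (y : Fin k → ℕ × ℕ) (h : List H) (c' : Cf k (Bool ⊕ H)),
      (∀ i, Inr M x (y i)) → ((∃ η, PAS.Rnd C η (ρ η) (pad M x) (PAS.cf M y h) c') ↔
        ∃ η, C h.head? η ∧ ∃ y' : Fin k → ℕ × ℕ,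
          (∀ i, AcR β M x (a η i) (y i) (y' i)) ∧ c' = PAS.cf M y' (η :: h)) := fun y h c' hy =>
    exists_congr fun η => PAS.rnd_iff h1 (hρ' η) hM hd hy
  constructor
  · rintro ⟨c₁, h6, h7⟩
    rw [h0 _ _ _ hle] at h6
    subst h6
    rw [hq] at h7
    have key : ∀ c', ReflTransGen (fun c c' => ∃ η, PAS.Rnd C η (ρ η) (pad M x) c c')
        (PAS.cf M (fun i => (0, P₀ i)) []) c' → ∃ (h : List H) (y : Fin k → ℕ × ℕ), Chn C h ∧
        (∀ i, Run (fun η => AcR β M x (a η i)) (0, P₀ i) h (y i)) ∧ (∀ i, Inr M x (y i)) ∧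
        c' = PAS.cf M y h := by
      intro c' hc
      induction hc with
      | refl => exact ⟨[], fun i => (0, P₀ i), trivial, fun i => rfl, hstart, rfl⟩
      | tail _ hs ih =>
        obtain ⟨h, y, e1, e2, e3, rfl⟩ := ih
        obtain ⟨η, e4, y', e5, rfl⟩ := (hround y h _ e3).1 hs
        exact ⟨η :: h, y', ⟨e4, e1⟩, fun i => ⟨y i, e2 i, e5 i⟩,
          fun i => (e5 i).inr (hok η i) hd (e3 i), rfl⟩
    obtain ⟨h, y, e1, e2, -, e4⟩ := key c' h7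
    exact ⟨h, y, e1, e2, e4⟩
  · rintro ⟨h, y, e1, e2, rfl⟩
    refine ⟨(fun i => 1 + P₀ i, []), (h0 _ _ _ hle).2 rfl, ?_⟩
    rw [hq]
    have key : ∀ (h : List H) (y : Fin k → ℕ × ℕ), Chn C h →
        (∀ i, Run (fun η => AcR β M x (a η i)) (0, P₀ i) h (y i)) → (∀ i, Inr M x (y i)) ∧
        ReflTransGen (fun c c' => ∃ η, PAS.Rnd C η (ρ η) (pad M x) c c')
          (PAS.cf M (fun i => (0, P₀ i)) []) (PAS.cf M y h) := by
      intro h
      induction h with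
      | nil =>
        intro y _ e2
        have e3 : y = fun i => (0, P₀ i) := funext fun i => e2 i
        subst e3
        exact ⟨hstart, ReflTransGen.refl⟩
      | cons η h ih =>
        intro y e1 e2
        choose y' e3 e4 using e2
        obtain ⟨e5, e6⟩ := ih y' e1.2 e3
        exact ⟨fun i => (e4 i).inr (hok η i) hd (e5 i),
          e6.tail ((hround y' h _ e5).2 ⟨η, e1.1, y, e4, rfl⟩)⟩
    exact (key h y e1 e2).2

end Pool.Agent.NPH
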