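import Pool.Agent.NPH.StA

/-!
# Project NPH, module POP: move right one cell for each scratch symbol
-/

set_option autoImplicit false

namespace Pool.Agent.NPH

open Pool.Agent.Heads Relation

namespace POP

variable {α H : Type}

/-- the top is a scratch symbol -/
def Top (g : Option (Bool ⊕ H)) : Prop := ∃ b : Bool, g = some (Sum.inl b)

/-- remove a scratch symbol and move right -/
def ra : Rl1 α (Bool ⊕ H) := fun w c c' => c.1 ≤ w.length + 1 ∧ Top c.2.head? ∧
  c' = (move (w.length + 1) c.1 Dir.R, Op.pop.apply c.2)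

/-- the final test -/
def rb : Rl1 α (Bool ⊕ H) := fun w c c' => c.1 ≤ w.length + 1 ∧ ¬ Top c.2.head? ∧
  c' = (move (w.length + 1) c.1 Dir.S, Op.none.apply c.2)

theorem real_ra : Real1 (ra : Rl1 α (Bool ⊕ H)) := Real1.act (fun _ g => Top g) Dir.R Op.pop

theorem real_rb : Real1 (rb : Rl1 α (Bool ⊕ H)) := Real1.act (fun _ g => ¬ Top g) Dir.S Op.none

theorem not_top {s : List (Bool ⊕ H)} (hs : Cln s) : ¬ Top s.head? := by
  rintro ⟨b, hb⟩
  exact hs b hb

theorem move_R {N p : ℕ} (h : p + 1 ≤ N) : move N p Dir.R = p + 1 := by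
  simp only [move]
  omega

theorem star_to {w : List α} {s : List (Bool ⊕ H)} (hs : Cln s) (l : List Bool) :
    ∀ (p : ℕ) (c' : ℕ × List (Bool ⊕ H)), p + l.length ≤ w.length + 1 →
      ReflTransGen (ra w) (p, l.map Sum.inl ++ s) c' →
      ∃ t ≤ l.length, c' = (p + t, (l.drop t).map Sum.inl ++ s) := by
  induction l with
  | nil =>
    intro p c' _ h
    rcases ReflTransGen.cases_head h with h1 | ⟨c1, h1, -⟩
    · exact ⟨0, le_rfl, h1.symm⟩
    · exact absurd h1.2.1 (not_top hs)
  | cons b l ih =>
    intro p c' hp h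
    rcases ReflTransGen.cases_head h with h1 | ⟨c1, h1, h2⟩
    · exact ⟨0, Nat.zero_le _, h1.symm⟩
    · obtain ⟨-, -, h3⟩ := h1
      rw [List.length_cons] at hp
      have h4 : c1 = (p + 1, l.map Sum.inl ++ s) := by
        rw [h3]
        have h5 : move (w.length + 1) p Dir.R = p + 1 := move_R (by omega)
        simp only [h5, List.map_cons, List.cons_append, Op.apply, List.tail_cons]
      rw [h4] at h2
      obtain ⟨t, ht, h6⟩ := ih (p + 1) c' (by omega) h2
      refine ⟨t + 1, ?_, ?_⟩
      · rw [List.length_cons]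
        omega
      · rw [h6, List.drop_succ_cons]
        congr 1
        omega

theorem star_of {w : List α} {s : List (Bool ⊕ H)} (l : List Bool) :
    ∀ p : ℕ, p + l.length ≤ w.length + 1 →
      ReflTransGen (ra w) (p, l.map Sum.inl ++ s) (p + l.length, s) := by
  induction l with
  | nil =>
    intro p _
    exact ReflTransGen.refl
  | cons b l ih =>
    intro p hp
    rw [List.length_cons] at hp
    refine ReflTransGen.head (b := (p + 1, l.map Sum.inl ++ s)) ⟨?_, ⟨b, rfl⟩, ?_⟩ ?_
    · show p ≤ w.length + 1
      omega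
    · have h5 : move (w.length + 1) p Dir.R = p + 1 := move_R (by omega)
      simp only [h5, List.map_cons, List.cons_append, Op.apply, List.tail_cons]
    · have h6 := ih (p + 1) (by omega)
      have h7 : p + 1 + l.length = p + (b :: l).length := by
        rw [List.length_cons]
        omega
      rw [← h7]
      exact h6

end POP

open POP in
theorem t_POP : POP_Stmt := by
  intro α H
  refine ⟨_, Real1.seq (Real1.star real_ra) real_rb, ?_⟩
  intro w p l s c' hs hp
  constructor
  · rintro ⟨c1, h1, h2⟩
    obtain ⟨t, ht, rfl⟩ := star_to hs l p c1 hp h1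
    obtain ⟨-, h3, h4⟩ := h2
    have h5 : l.drop t = [] := by
      rcases h6 : l.drop t with _ | ⟨b, l'⟩
      · rfl
      · exfalso
        apply h3
        refine ⟨b, ?_⟩
        simp only [h6, List.map_cons, List.cons_append, List.head?_cons]
    have h7 : l.length ≤ t := List.drop_eq_nil_iff.mp h5
    have h8 : t = l.length := le_antisymm ht h7
    subst h8
    rw [h4]
    simp only [h5, move, Op.apply, List.map_nil, List.nil_append]
  · rintro rfl
    refine ⟨(p + l.length, s), star_of l p hp, hp, not_top hs, ?_⟩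
    simp only [move, Op.apply]

end Pool.Agent.NPH
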