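import Pool.Agent.NPH.StA

/-!
# RDM: read the letter
-/

set_option autoImplicit false

namespace Pool.Agent.NPH

open Pool.Agent.Heads Relation

theorem RDM.cel_le {Λ : Type} (h1 : PAD_Stmt) {M : ℕ} {x : List Λ} {j P : ℕ} (hM : 1 ≤ M)
    (hj : j ≤ x.length + 1) (hP : P < M) : cel M j P ≤ (pad M x).length + 1 := by
  rw [(h1 Λ M x hM).1]
  unfold cel
  have : j * M ≤ (x.length + 1) * M := Nat.mul_le_mul_right M hj
  have e : (x.length + 2) * M = (x.length + 1) * M + M := by ring
  omega

theorem t_RDM (h1 : PAD_Stmt) (h2 : POP_Stmt) (h3 : GOL_Stmt) : RDM_Stmt := by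
  intro Λ H a
  obtain ⟨⟨τ₁, r1, g1⟩, -⟩ := h3 Λ H
  obtain ⟨τ₃, r3, g3⟩ := h2 (Option (Sym Λ)) H
  refine ⟨_, Real1.seq r1 (Real1.seq
    (Real1.act (fun s _ => s = Sym.letter (some a)) Dir.S Op.none) r3), ?_⟩
  intro M x j P s c' hM hj hP hs
  have hle := RDM.cel_le (x := x) h1 hM hj hP
  have hle0 := RDM.cel_le (x := x) h1 hM hj (show 0 < M by omega)
  have ht : tape (pad M x) (cel M j 0) = Sym.letter (some (tape x j)) := by
    have := (h1 Λ M x hM).2.1 j 0 hj (by omega)
    simpa using this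
  have hcel : cel M j 0 + (List.replicate P false).length = cel M j P := by
    simp [cel]
  have key : ∀ c'' : ℕ × List (Bool ⊕ H),
      τ₃ (pad M x) (cel M j 0, (List.replicate P false).map Sum.inl ++ s) c'' ↔
        c'' = (cel M j P, s) := by
    intro c''
    have := g3 (pad M x) (cel M j 0) (List.replicate P false) s c'' hs (by rw [hcel]; exact hle)
    rw [hcel] at this
    exact this
  constructor
  · rintro ⟨c₁, hc1, c₂, ⟨-, hG, hc2⟩, hc3⟩
    rw [g1 M x j P s c₁ hM hj hP] at hc1
    subst hc1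
    dsimp only at hG hc2
    rw [ht] at hG
    have ha : tape x j = a := by
      injection hG with h
      injection h
    refine ⟨ha, ?_⟩
    have hc2' : c₂ = (cel M j 0, (List.replicate P false).map Sum.inl ++ s) := by
      rw [hc2]; rfl
    rw [hc2', key] at hc3
    exact hc3
  · rintro ⟨ha, hc⟩
    refine ⟨(cel M j 0, (List.replicate P false).map Sum.inl ++ s),
      (g1 M x j P s _ hM hj hP).2 rfl,
      (cel M j 0, (List.replicate P false).map Sum.inl ++ s), ⟨hle0, ?_, rfl⟩, (key _).2 hc⟩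
    dsimp only
    rw [ht, ha]

end Pool.Agent.NPH
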