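import Pool.Agent.NPH.StA

/-! NPH, module RRR: write `σ' * (M / β)` scratch symbols. -/

set_option autoImplicit false

namespace Pool.Agent.NPH

open Pool.Agent.Heads Relation

namespace RRR

section Gen

variable {α Γ : Type}

/-- The relation of one action. -/
def A (G : Sym α → Option Γ → Prop) (d : Dir) (o : Op Γ) : Rl1 α Γ := fun w c c' =>
  c.1 ≤ w.length + 1 ∧ G (tape w c.1) c.2.head? ∧ c' = (move (w.length + 1) c.1 d, o.apply c.2)

/-- Composition. -/
def Sq (ρ σ : Rl1 α Γ) : Rl1 α Γ := fun w c c' => ∃ c₁, ρ w c c₁ ∧ σ w c₁ c'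

/-- Star. -/
def St (ρ : Rl1 α Γ) : Rl1 α Γ := fun w => ReflTransGen (ρ w)

theorem rA (G : Sym α → Option Γ → Prop) (d : Dir) (o : Op Γ) : Real1 (A G d o) :=
  Real1.act G d o

theorem rSq {ρ σ : Rl1 α Γ} (h : Real1 ρ) (h' : Real1 σ) : Real1 (Sq ρ σ) := Real1.seq h h'

theorem rSt {ρ : Rl1 α Γ} (h : Real1 ρ) : Real1 (St ρ) := Real1.star h

/-- Composition with a relation with exactly one result. -/
theorem Sq_iff {ρ σ : Rl1 α Γ} {w : List α} {c c₁ c' : ℕ × List Γ}
    (h : ∀ d, ρ w c d ↔ d = c₁) : Sq ρ σ w c c' ↔ σ w c₁ c' := by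
  constructor
  · rintro ⟨d, h1, h2⟩
    rw [(h d).1 h1] at h2
    exact h2
  · intro h2
    exact ⟨c₁, (h c₁).2 rfl, h2⟩

/-- An action whose guard is satisfied. -/
theorem A_iff {G : Sym α → Option Γ → Prop} {d : Dir} {o : Op Γ} {w : List α} {p : ℕ}
    {s : List Γ} (hp : p ≤ w.length + 1) (hG : G (tape w p) s.head?) (c' : ℕ × List Γ) :
    A G d o w (p, s) c' ↔ c' = (move (w.length + 1) p d, o.apply s) :=
  ⟨fun h => h.2.2, fun h => ⟨hp, hG, h⟩⟩

/-- Push `n` symbols. -/
def PN (g : Γ) : ℕ → Rl1 α Γ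
  | 0 => A (fun _ _ => True) Dir.S Op.none
  | n + 1 => Sq (A (fun _ _ => True) Dir.S (Op.push g)) (PN g n)

theorem rPN (g : Γ) : ∀ n, Real1 (PN (α := α) g n)
  | 0 => rA _ _ _
  | n + 1 => rSq (rA _ _ _) (rPN g n)

theorem PN_iff (g : Γ) (w : List α) (p : ℕ) (hp : p ≤ w.length + 1) : ∀ (n : ℕ) (s : List Γ)
    (c' : ℕ × List Γ), PN g n w (p, s) c' ↔ c' = (p, List.replicate n g ++ s)
  | 0, s, c' => by
    rw [PN, A_iff hp trivial]
    rfl
  | n + 1, s, c' => by
    rw [PN, Sq_iff (A_iff hp trivial)]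
    rw [show (move (w.length + 1) p Dir.S, (Op.push g).apply s) = (p, g :: s) from rfl,
      PN_iff g w p hp n, List.replicate_succ', List.append_assoc]
    rfl

end Gen

section Bl

variable {Λ Γ : Type}

/-- Move right over `n` blanks. -/
def RN : ℕ → Rl1 (Option (Sym Λ)) Γ
  | 0 => A (fun _ _ => True) Dir.S Op.none
  | n + 1 => Sq (A (fun s _ => s = Sym.letter none) Dir.R Op.none) (RN n)

theorem rRN : ∀ n, Real1 (RN (Λ := Λ) (Γ := Γ) n)
  | 0 => rA _ _ _
  | n + 1 => rSq (rA _ _ _) (rRN n)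

theorem RN_iff (w : List (Option (Sym Λ))) (s : List Γ) : ∀ (n p : ℕ) (c' : ℕ × List Γ),
    p + n ≤ w.length + 1 → (∀ t < n, tape w (p + t) = Sym.letter none) →
    (RN n w (p, s) c' ↔ c' = (p + n, s))
  | 0, p, c', hp, _ => by
    rw [RN, A_iff (by omega) trivial]
    rfl
  | n + 1, p, c', hp, ht => by
    have h0 := ht 0 (by omega)
    rw [RN, Sq_iff (A_iff (by omega) h0)]
    have h1 : (move (w.length + 1) p Dir.R, Op.none.apply s) = (p + 1, s) := by
      simp only [move, Op.apply]
      rw [min_eq_left (by omega)]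
    rw [h1, RN_iff w s n (p + 1) c' (by omega) ?_]
    · rw [show p + 1 + n = p + (n + 1) by omega]
    · intro t ht'
      have := ht (t + 1) (by omega)
      rwa [show p + (t + 1) = p + 1 + t by omega] at this

end Bl

end RRR

open RRR in
theorem t_RRR (h1 : PAD_Stmt) (h2 : GOL_Stmt) : RRR_Stmt := by
  intro Λ H β σ' hβ
  obtain ⟨-, τ, hτ, hg⟩ := h2 Λ H
  let B : Rl1 (Option (Sym Λ)) (Bool ⊕ H) := Sq (A (fun _ _ => True) Dir.R Op.none)
    (Sq (RN (β - 1)) (PN (Sum.inl true) σ'))
  let C : Rl1 (Option (Sym Λ)) (Bool ⊕ H) := Sq (A (fun s _ => s = Sym.letter none) Dir.S Op.none) B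
  have rB : Real1 B := rSq (rA _ _ _) (rSq (rRN _) (rPN _ _))
  have rC : Real1 C := rSq (rA _ _ _) rB
  refine ⟨Sq B (Sq (St C) (Sq (A (fun s _ => s ≠ Sym.letter none) Dir.S Op.none)
    (Sq (A (fun _ _ => True) Dir.L Op.none) τ))),
    rSq rB (rSq (rSt rC) (rSq (rA _ _ _) (rSq (rA _ _ _) hτ))), ?_⟩
  intro M x j s c' hM hβM hj
  obtain ⟨m, rfl⟩ := hβM
  have hm : 1 ≤ m := by
    rcases Nat.eq_zero_or_pos m with h | h
    · subst h
      omega
    · exact h
  have hdiv : β * m / β = m := Nat.mul_div_cancel_left m (by omega)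
  obtain ⟨hl, ht, hr⟩ := h1 Λ (β * m) x hM
  rw [hdiv, List.map_replicate]
  -- the length of the tape
  have hN : ∀ Q, Q ≤ β * m → cel (β * m) j Q ≤ (pad (β * m) x).length + 1 := by
    intro Q hQ
    rw [hl, cel]
    have : (j + 1) * (β * m) ≤ (x.length + 2) * (β * m) := Nat.mul_le_mul_right _ (by omega)
    have h3 : (j + 1) * (β * m) = j * (β * m) + β * m := by ring
    omega
  -- blanks
  have hb : ∀ Q, 0 < Q → Q < β * m →
      tape (pad (β * m) x) (cel (β * m) j Q) = Sym.letter none := by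
    intro Q h3 h4
    rw [ht j Q hj h4, if_neg (by omega)]
  -- the end of the block is not blank
  have he : tape (pad (β * m) x) (cel (β * m) j (β * m)) ≠ Sym.letter none := by
    have h3 : cel (β * m) j (β * m) = cel (β * m) (j + 1) 0 := by
      rw [cel, cel]
      ring
    rw [h3]
    rcases Nat.lt_or_ge (j + 1) (x.length + 2) with h4 | h4
    · rw [ht (j + 1) 0 (by omega) (by omega), if_pos rfl]
      intro h5
      have := Sym.letter.inj h5
      exact Option.some_ne_none _ this
    · have h5 : j + 1 = x.length + 2 := by omega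
      rw [h5, hr]
      intro h6
      cases h6
  -- the block program
  have hB : ∀ (Q : ℕ) (s' : List (Bool ⊕ H)) (c' : ℕ × List (Bool ⊕ H)), Q + β ≤ β * m →
      (B (pad (β * m) x) (cel (β * m) j Q, s') c' ↔
        c' = (cel (β * m) j (Q + β), List.replicate σ' (Sum.inl true) ++ s')) := by
    intro Q s' c' hQ
    have h3 := hN (Q + β) hQ
    have h4 : cel (β * m) j (Q + β) = cel (β * m) j Q + 1 + (β - 1) := by
      simp only [cel]
      omega
    show Sq _ _ _ _ _ ↔ _
    rw [Sq_iff (A_iff (by omega) trivial)]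
    have h5 : (move ((pad (β * m) x).length + 1) (cel (β * m) j Q) Dir.R, Op.none.apply s') =
        (cel (β * m) j Q + 1, s') := by
      simp only [move, Op.apply]
      rw [min_eq_left (by omega)]
    rw [h5, Sq_iff (fun d => RN_iff _ _ _ _ d (by omega) ?_)]
    · rw [PN_iff _ _ _ (by omega), h4]
    · intro t ht'
      have h6 : cel (β * m) j Q + 1 + t = cel (β * m) j (Q + 1 + t) := by
        simp only [cel]
        omega
      rw [h6]
      exact hb _ (by omega) (by omega)
  -- the configurations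
  let f : ℕ → ℕ × List (Bool ⊕ H) := fun t =>
    (cel (β * m) j (β * (t + 1)), List.replicate (σ' * (t + 1)) (Sum.inl true) ++ s)
  have hle : ∀ t, t < m → β * (t + 1) ≤ β * m := fun t ht' => Nat.mul_le_mul_left _ ht'
  have hC : ∀ t c', t < m → (C (pad (β * m) x) (f t) c' ↔ t + 1 < m ∧ c' = f (t + 1)) := by
    intro t c' ht'
    by_cases h3 : t + 1 < m
    · have h4 : β * (t + 1) < β * m := Nat.mul_lt_mul_of_pos_left h3 (by omega)
      have h5 := hb (β * (t + 1)) (by positivity) h4
      have h6 : β * (t + 1) + β ≤ β * m := by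
        have := hle (t + 1) h3
        rwa [show β * (t + 1 + 1) = β * (t + 1) + β by ring] at this
      show Sq _ _ _ _ _ ↔ _
      rw [Sq_iff (A_iff (hN _ (hle t ht')) h5)]
      rw [show (move ((pad (β * m) x).length + 1) (cel (β * m) j (β * (t + 1))) Dir.S,
        Op.none.apply (List.replicate (σ' * (t + 1)) (Sum.inl true) ++ s)) =
        (cel (β * m) j (β * (t + 1)), List.replicate (σ' * (t + 1)) (Sum.inl true) ++ s) from rfl,
        hB _ _ _ h6]
      simp only [h3, true_and, f]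
      rw [← List.append_assoc, ← List.replicate_add,
        show β * (t + 1) + β = β * (t + 1 + 1) by ring,
        show σ' + σ' * (t + 1) = σ' * (t + 1 + 1) by ring]
    · have h4 : t + 1 = m := by omega
      constructor
      · rintro ⟨c₁, ⟨-, h5, -⟩, -⟩
        exfalso
        change tape (pad (β * m) x) (cel (β * m) j (β * (t + 1))) = _ at h5
        rw [h4] at h5
        exact he h5
      · rintro ⟨h5, -⟩
        exact absurd h5 h3
  have hS : ∀ c', St C (pad (β * m) x) (f 0) c' ↔ ∃ t < m, c' = f t := by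
    intro c'
    constructor
    · intro h
      change ReflTransGen (C (pad (β * m) x)) (f 0) c' at h
      induction h with
      | refl => exact ⟨0, by omega, rfl⟩
      | tail _ h4 ih =>
        obtain ⟨t, ht', rfl⟩ := ih
        obtain ⟨h5, h6⟩ := (hC t _ ht').1 h4
        exact ⟨t + 1, h5, h6⟩
    · rintro ⟨t, ht', rfl⟩
      induction t with
      | zero => exact ReflTransGen.refl
      | succ t ih => exact (ih (by omega)).tail ((hC t _ (by omega)).2 ⟨ht', rfl⟩)
  -- the whole program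
  rw [Sq_iff (c₁ := f 0) (fun d => ?_)]
  · constructor
    · rintro ⟨c₁, h3, c₂, h4, c₃, h5, h6⟩
      obtain ⟨t, ht', rfl⟩ := (hS c₁).1 h3
      obtain ⟨-, h7, rfl⟩ := h4
      have h8 : t + 1 = m := by
        by_contra h9
        have h10 : β * (t + 1) < β * m := Nat.mul_lt_mul_of_pos_left (by omega) (by omega)
        exact h7 (hb (β * (t + 1)) (by positivity) h10)
      obtain ⟨-, -, rfl⟩ := h5
      change τ (pad (β * m) x) (cel (β * m) j (β * (t + 1)) - 1,
        List.replicate (σ' * (t + 1)) (Sum.inl true) ++ s) c' at h6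
      rw [h8] at h6
      have h9 : cel (β * m) j (β * m) - 1 = cel (β * m) j (β * m - 1) := by
        simp only [cel]
        omega
      rw [h9] at h6
      exact (hg (β * m) x j (β * m - 1) _ c' hM hj (by omega)).1 h6
    · rintro rfl
      obtain ⟨t, rfl⟩ : ∃ t, m = t + 1 := ⟨m - 1, by omega⟩
      refine ⟨f t, (hS _).2 ⟨t, by omega, rfl⟩, f t, ⟨hN _ le_rfl, he, rfl⟩,
        (cel (β * (t + 1)) j (β * (t + 1)) - 1,
          List.replicate (σ' * (t + 1)) (Sum.inl true) ++ s), ⟨hN _ le_rfl, trivial, rfl⟩, ?_⟩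
      have h9 : cel (β * (t + 1)) j (β * (t + 1)) - 1 =
          cel (β * (t + 1)) j (β * (t + 1) - 1) := by
        simp only [cel]
        omega
      rw [h9]
      exact (hg (β * (t + 1)) x j (β * (t + 1) - 1) _ _ hM hj (by omega)).2 rfl
  · rw [hB 0 s d (by simpa using hle 0 hm)]
    simp only [f]
    rw [show 0 + β = β * (0 + 1) by ring, show σ' * (0 + 1) = σ' by ring]

end Pool.Agent.NPH
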