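import Pool.Agent.NPH.StA

/-!
# Project NPH, module TWO: two passes
-/

set_option autoImplicit false

namespace Pool.Agent.NPH

open Pool.Agent.Heads Relation

namespace TWO

/-- the first half of the indices -/
def i1 {k : ℕ} (i : Fin k) : Fin (2 * k) := ⟨i.val, by have := i.isLt; omega⟩

/-- the second half of the indices -/
def i2 {k : ℕ} (i : Fin k) : Fin (2 * k) := ⟨k + i.val, by have := i.isLt; omega⟩

lemma split {k : ℕ} {p : Fin (2 * k) → Prop} (h1 : ∀ i : Fin k, p (i1 i))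
    (h2 : ∀ i : Fin k, p (i2 i)) (i : Fin (2 * k)) : p i := by
  by_cases h : i.val < k
  · exact h1 ⟨i.val, h⟩
  · have h3 := h2 ⟨i.val - k, by have := i.isLt; omega⟩
    have e : (i2 ⟨i.val - k, by have := i.isLt; omega⟩ : Fin (2 * k)) = i := by
      apply Fin.ext
      simp only [i2]
      omega
    rwa [e] at h3

lemma tape_left {α : Type} (w : List α) (p : ℕ) (h : tape w p = Sym.left) : p = 0 := by
  rcases p with _ | p
  · rfl
  · exfalso
    simp only [tape] at h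
    split at h <;> cases h

lemma val0 {α : Type} {k : ℕ} {Γ : Type} (w : List α) :
    Val w ((fun _ => 0, []) : Cf k Γ) := fun _ => Nat.zero_le _

end TWO

open TWO in
/-- **TWO** -/
theorem t_TWO (h1 : LNG_Stmt) (h2 : UNI_Stmt) (h3 : CNV_Stmt) (h4 : PAS_Stmt) : TWO_Stmt := by
  intro Λ H _ k β C E a P₀ hβ hok hP
  obtain ⟨ρ, hρ, hρ'⟩ := h4 Λ H k β C (fun η i => a η (i1 i)) (fun i => P₀ (i1 i)) hβ
    (fun η i => hok η _) (fun i => hP _)
  obtain ⟨σ, hσ, hσ'⟩ := h4 Λ H k β C (fun η i => a η (i2 i)) (fun i => P₀ (i2 i)) hβ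
    (fun η i => hok η _) (fun i => hP _)
  obtain ⟨-, τ, hτ, hτ'⟩ := h2 (Option (Sym Λ)) k (Bool ⊕ H)
  have hσc := h3 (Option (Sym Λ)) k (Bool ⊕ H) σ hσ
  have hR := Real.seq hρ (Real.seq
    (Real.act (fun _ g => ∃ η ∈ E, g = some (Sum.inr η)) (fun _ => Dir.S) Op.none)
    (Real.seq hτ (Real.seq hσc
      (Real.act (fun s g => (∀ i, s i = Sym.left) ∧ g = none) (fun _ => Dir.S) Op.none))))
  obtain ⟨A, hA⟩ := h1 (Option (Sym Λ)) k (Bool ⊕ H) _ hR
  refine ⟨A, fun M x hM hβM => ?_⟩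
  rw [hA]
  constructor
  · rintro ⟨c', c₁, g1, c₂, ⟨g2, ⟨η, hη, g3⟩, rfl⟩, c₃, g4, c₄, g5, g6, ⟨g7, g8⟩, -⟩
    obtain ⟨h, y, hC, hy, rfl⟩ := (hρ' M x c₁ hM hβM).1 g1
    have e0 : c₄ = (fun _ => 0, []) := by
      refine Prod.ext (funext fun i => tape_left _ _ (g7 i)) ?_
      exact List.head?_eq_none_iff.1 g8
    rw [e0] at g5
    obtain ⟨h', y', hC', hy', rfl⟩ := (hσ' M x c₃ hM hβM).1 g5
    have g9 := ((hτ' _ _ _ g2).1 g4).2
    have e1 : h' = h := List.map_injective_iff.2 Sum.inr_injective g9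
    subst e1
    refine ⟨h', hC, ⟨η, hη, ?_⟩, ?_⟩
    · simp only [List.head?_map, Option.map_eq_some_iff, Sum.inr.injEq] at g3
      obtain ⟨b, hb, rfl⟩ := g3
      exact hb
    · exact split (p := fun i => ∃ y, Run (fun η => AcR β M x (a η i)) (0, P₀ i) h' y)
        (fun i => ⟨_, hy i⟩) (fun i => ⟨_, hy' i⟩)
  · rintro ⟨h, hC, ⟨η, hη, hh⟩, hr⟩
    choose y hy using hr
    have g1 := (hρ' M x (fun i => cel M (y (i1 i)).1 (y (i1 i)).2, h.map Sum.inr) hM hβM).2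
      ⟨h, fun i => y (i1 i), hC, fun i => hy (i1 i), rfl⟩
    have g5 := (hσ' M x (fun i => cel M (y (i2 i)).1 (y (i2 i)).2, h.map Sum.inr) hM hβM).2
      ⟨h, fun i => y (i2 i), hC, fun i => hy (i2 i), rfl⟩
    have v1 := Real.val hρ _ _ _ g1 (val0 _)
    have v2 := Real.val hσ _ _ _ g5 (val0 _)
    refine ⟨_, _, g1, _, ⟨v1, ⟨η, hη, ?_⟩, rfl⟩, _, (hτ' _ _ _ v1).2 ⟨v2, rfl⟩, _, g5, val0 _,
      ⟨fun i => rfl, rfl⟩, rfl⟩
    simp only [List.head?_map, hh, Option.map_some]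

end Pool.Agent.NPH
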