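import Pool.Agent.NPH.StA

/-!
# Project NPH: UNI, finite unions, and moving all heads anywhere
-/

set_option autoImplicit false

namespace Pool.Agent.NPH

open Pool.Agent.Heads Relation

namespace UNI

variable {α : Type} {k : ℕ} {Γ : Type}

theorem real_congr {ρ σ : Rl α k Γ} (h : ∀ w c c', ρ w c c' ↔ σ w c c') (hρ : Real ρ) :
    Real σ := by
  have e : ρ = σ := by
    funext w c c'
    exact propext (h w c c')
  rw [← e]
  exact hρ

theorem real_union (ι : Type) [Finite ι] : ∀ ρ : ι → Rl α k Γ, (∀ i, Real (ρ i)) →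
    Real (fun w c c' => ∃ i, ρ i w c c') := by
  refine Finite.induction_empty_option
    (P := fun ι => ∀ ρ : ι → Rl α k Γ, (∀ i, Real (ρ i)) →
      Real (fun w c c' => ∃ i, ρ i w c c')) ?_ ?_ ?_ ι
  · intro ι ι' e h ρ hρ
    refine real_congr ?_ (h (fun i => ρ (e i)) (fun i => hρ _))
    intro w c c'
    constructor
    · rintro ⟨i, hi⟩
      exact ⟨e i, hi⟩
    · rintro ⟨j, hj⟩
      exact ⟨e.symm j, by rw [e.apply_symm_apply]; exact hj⟩
  · intro ρ _
    refine real_congr ?_ (Real.act (fun _ _ => False) (fun _ => Dir.S) Op.none)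
    intro w c c'
    constructor
    · rintro ⟨_, h, _⟩
      exact h.elim
    · rintro ⟨i, _⟩
      exact i.elim
  · intro ι _ h ρ hρ
    refine real_congr ?_ (Real.alt (hρ none) (h (fun i => ρ (some i)) (fun i => hρ _)))
    intro w c c'
    constructor
    · rintro (h1 | ⟨i, hi⟩)
      · exact ⟨none, h1⟩
      · exact ⟨some i, hi⟩
    · rintro ⟨i, hi⟩
      cases i with
      | none => exact Or.inl hi
      | some i => exact Or.inr ⟨i, hi⟩

theorem finite_dir : Finite Dir := by
  refine Finite.of_injective (β := Fin 3)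
    (fun d => match d with | Dir.L => 0 | Dir.S => 1 | Dir.R => 2) ?_
  intro d d' h
  cases d <;> cases d' <;> first | rfl | exact absurd h (by decide)

/-- One move of all heads. -/
def one (w : List α) (c c' : Cf k Γ) : Prop :=
  ∃ d : Fin k → Dir, Val w c ∧ True ∧
    c' = (fun i => move (w.length + 1) (c.1 i) (d i), (Op.none : Op Γ).apply c.2)

theorem real_one : Real (fun w => ReflTransGen (one (α := α) (k := k) (Γ := Γ) w)) := by
  apply Real.star
  have := finite_dir
  exact real_union (Fin k → Dir) (fun d w c c' => Val w c ∧ True ∧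
    c' = (fun i => move (w.length + 1) (c.1 i) (d i), (Op.none : Op Γ).apply c.2))
    (fun d => Real.act (fun _ _ => True) d Op.none)

theorem reach (w : List α) (c' : Cf k Γ) (hc' : Val w c') : ∀ (n : ℕ) (c : Cf k Γ), Val w c →
    c'.2 = c.2 → (∀ i, c.1 i ≤ c'.1 i + n ∧ c'.1 i ≤ c.1 i + n) →
    ReflTransGen (one w) c c' := by
  intro n
  induction n with
  | zero =>
    intro c _ h2 h3
    have e : c = c' := by
      refine Prod.ext ?_ h2.symm
      funext i
      have := h3 i
      omega
    rw [e]
  | succ n ih =>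
    intro c hc h2 h3
    let d : Fin k → Dir := fun i =>
      if c.1 i < c'.1 i then Dir.R else if c'.1 i < c.1 i then Dir.L else Dir.S
    have hstep : one w c (fun i => move (w.length + 1) (c.1 i) (d i), c.2) :=
      ⟨d, hc, trivial, rfl⟩
    refine ReflTransGen.head hstep (ih _ (fun i => move_le _ _ _ (hc i)) h2 fun i => ?_)
    have h4 := h3 i
    have h5 : c'.1 i ≤ w.length + 1 := hc' i
    show move (w.length + 1) (c.1 i) (d i) ≤ c'.1 i + n ∧
      c'.1 i ≤ move (w.length + 1) (c.1 i) (d i) + n
    by_cases h6 : c.1 i < c'.1 i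
    · have hd : d i = Dir.R := if_pos h6
      rw [hd]
      show min (c.1 i + 1) (w.length + 1) ≤ c'.1 i + n ∧
        c'.1 i ≤ min (c.1 i + 1) (w.length + 1) + n
      omega
    · by_cases h7 : c'.1 i < c.1 i
      · have hd : d i = Dir.L := by
          show (if c.1 i < c'.1 i then _ else _) = _
          rw [if_neg h6, if_pos h7]
        rw [hd]
        show c.1 i - 1 ≤ c'.1 i + n ∧ c'.1 i ≤ c.1 i - 1 + n
        omega
      · have hd : d i = Dir.S := by
          show (if c.1 i < c'.1 i then _ else _) = _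
          rw [if_neg h6, if_neg h7]
        rw [hd]
        show c.1 i ≤ c'.1 i + n ∧ c'.1 i ≤ c.1 i + n
        omega

end UNI

open UNI in
theorem t_UNI : UNI_Stmt := by
  intro α k Γ
  refine ⟨fun ι _ ρ hρ => real_union ι ρ hρ, fun w => ReflTransGen (one w), real_one, ?_⟩
  intro w c c' hc
  constructor
  · intro h
    refine ⟨real_one.val w c c' h hc, ?_⟩
    induction h with
    | refl => rfl
    | tail _ h2 ih =>
      obtain ⟨d, _, _, rfl⟩ := h2
      exact ih
  · rintro ⟨h1, h2⟩
    refine reach w c' h1 (w.length + 1) c hc h2 fun i => ?_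
    have h3 := hc i
    have h4 := h1 i
    omega

end Pool.Agent.NPH
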