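import Pool.Agent.NPH.UPA
import Pool.Agent.NPH.FIN
import Pool.Agent.NPH.TWO
import Pool.Agent.NPH.LNG
import Pool.Agent.NPH.FSQ
import Pool.Agent.NPH.FAL
import Pool.Agent.NPH.FST
import Pool.Agent.NPH.UNI
import Pool.Agent.NPH.CNV
import Pool.Agent.NPH.PAS
import Pool.Agent.NPH.PAD
import Pool.Agent.NPH.INI
import Pool.Agent.NPH.HDS
import Pool.Agent.NPH.LIF
import Pool.Agent.NPH.ACT
import Pool.Agent.NPH.POP
import Pool.Agent.NPH.RDM
import Pool.Agent.NPH.MVM
import Pool.Agent.NPH.RRL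
import Pool.Agent.NPH.RRR
import Pool.Agent.NPH.GOL
import Pool.Agent.NPH.HIA
import Pool.Agent.NPH.HIB
import Pool.Agent.NPH.DGT
import Pool.Agent.NPH.ENC

/-!
# Project NPH, assembly of part A
-/

set_option autoImplicit false

namespace Pool.Agent.NPH

/-- UPPER. -/
theorem upper : UPPER_Stmt :=
  have pad := t_PAD
  have gol := t_GOL pad
  have rdm := t_RDM pad t_POP gol
  have mvm := t_MVM pad t_POP gol
  have act := t_ACT pad t_POP rdm mvm (t_RRL pad) (t_RRR pad gol)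
  have hds := t_HDS pad t_LIF act
  have pas := t_PAS pad t_UNI t_INI hds
  have lng := t_LNG t_FSQ t_FAL t_FST
  have two := t_TWO lng t_UNI (t_CNV t_UNI) pas
  t_UPA t_FIN two t_HIA t_HIB t_DGT t_ENC

end Pool.Agent.NPH
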