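import Pool.Agent.NPH.AsC
import Pool.Agent.NPH.AsS
import Pool.Agent.NPH.AsT
import Pool.Agent.NPH.AsmA

/-!
# Project NPH: theorem T1
-/

set_option autoImplicit false

namespace Pool.Agent.NPH

/-- T1 for sensing heads. -/
theorem t1s : T1S_Stmt := t1s_of upper lowers hier

end Pool.Agent.NPH
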