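import Pool.Agent.NPH.St0

/-!
# Project NPH, part A: pushdown automata contain the machines (UPPER)

Every statement `X_Stmt` of this file is a module: `theorem t_X (h : Y_Stmt) … : X_Stmt` in
`Pool/Agent/NPH/X.lean`, namespace `Pool.Agent.NPH`, auxiliary lemmas in the namespace
`Pool.Agent.NPH.X`. The hypotheses are listed in the doc string.

## Plan

`Real`: the relations between configurations (head positions, stack) that are computed by finite
programs; they are closed under composition, union, star, and CONVERSE. A pushdown automaton with `k` heads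
simulates a machine with `2 k` reading heads in two passes. The first pass writes a history on the
stack and simulates the first `k` reading heads: head `i` on the cell `cel M j P` stands for the
position `j` of the reading head and for a register `P < M = β ^ (|x| + 1)`, the digits number `i` of the
memory word. The second pass is the converse of a pass of the same kind for the other `k` reading
heads (and the other `k` digits of the letters of the memory word); it removes the history from the
stack.

Histories are lists whose head is the LAST letter, like the stack.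
-/

set_option autoImplicit false

namespace Pool.Agent.NPH

open Pool.Agent.Heads Relation

/-! ## 1. Programs -/

/-- Head positions and stack. -/
abbrev Cf (k : ℕ) (Γ : Type) : Type := (Fin k → ℕ) × List Γ

/-- Relations between head positions and stacks that depend on the input word. -/
abbrev Rl (α : Type) (k : ℕ) (Γ : Type) : Type := List α → Cf k Γ → Cf k Γ → Prop

/-- All heads are on the tape. -/
def Val {α : Type} {k : ℕ} {Γ : Type} (w : List α) (c : Cf k Γ) : Prop :=
  ∀ i, c.1 i ≤ w.length + 1

/-- Relations computed by programs: a guarded action, composition, union, star. -/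
inductive Real {α : Type} {k : ℕ} {Γ : Type} : Rl α k Γ → Prop
  | act (G : (Fin k → Sym α) → Option Γ → Prop) (d : Fin k → Dir) (o : Op Γ) :
      Real (fun w c c' => Val w c ∧ G (fun i => tape w (c.1 i)) c.2.head? ∧
        c' = (fun i => move (w.length + 1) (c.1 i) (d i), o.apply c.2))
  | seq {ρ σ : Rl α k Γ} : Real ρ → Real σ → Real (fun w c c' => ∃ c₁, ρ w c c₁ ∧ σ w c₁ c')
  | alt {ρ σ : Rl α k Γ} : Real ρ → Real σ → Real (fun w c c' => ρ w c c' ∨ σ w c c')
  | star {ρ : Rl α k Γ} : Real ρ → Real (fun w => ReflTransGen (ρ w))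

theorem move_le (N p : ℕ) (d : Dir) (h : p ≤ N) : move N p d ≤ N := by
  cases d <;> simp only [move] <;> omega

/-- Programs keep the heads on the tape. -/
theorem Real.val {α : Type} {k : ℕ} {Γ : Type} {ρ : Rl α k Γ} (h : Real ρ) :
    ∀ w c c', ρ w c c' → Val w c → Val w c' := by
  induction h with
  | act G d o =>
    rintro w c c' ⟨h1, -, rfl⟩ -
    exact fun i => move_le _ _ _ (h1 i)
  | seq _ _ ih1 ih2 =>
    rintro w c c' ⟨c₁, h1, h2⟩ hv
    exact ih2 w c₁ c' h2 (ih1 w c c₁ h1 hv)
  | alt _ _ ih1 ih2 =>
    rintro w c c' (h1 | h1) hv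
    · exact ih1 w c c' h1 hv
    · exact ih2 w c c' h1 hv
  | star _ ih =>
    intro w c c' h hv
    induction h with
    | refl => exact hv
    | tail _ h2 ih' => exact ih w _ _ h2 ih'

/-- A finite program with an initial and a final state. -/
structure Frag (α : Type) (k : ℕ) (Γ : Type) where
  Q : Type
  finQ : Finite Q
  s : Q
  f : Q
  δ : Q → (Fin k → Sym α) → Option Γ → Set (Q × (Fin k → Dir) × Op Γ)

/-- One step of a program. -/
def Frag.Step {α : Type} {k : ℕ} {Γ : Type} (P : Frag α k Γ) (w : List α)
    (c c' : P.Q × Cf k Γ) : Prop :=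
  ∃ t ∈ P.δ c.1 (fun i => tape w (c.2.1 i)) c.2.2.head?,
    c' = (t.1, fun i => move (w.length + 1) (c.2.1 i) (t.2.1 i), t.2.2.apply c.2.2)

/-- The relation computed by a program. -/
def Frag.rel {α : Type} {k : ℕ} {Γ : Type} (P : Frag α k Γ) : Rl α k Γ := fun w c c' =>
  ReflTransGen (P.Step w) (P.s, c) (P.f, c')

/-- FSQ (100 lines): composition of programs. No hypotheses.

Proof. States `Q ⊕ Q'`, initial `inl s`, final `inr f'`; the steps of the two programs, and from `inl f` to
`inr s'` a step that changes nothing (all heads `Dir.S`, `Op.none`). A run from an `inl` state to an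
`inr` state consists of a run of the first program to `f`, this step, and a run of the second program:
induction on the run, from the front: the runs from `(inl q, c)` to `(inr f', c')` are those with
`∃ c₁, ReflTransGen P.Step (q, c) (f, c₁) ∧ P'.rel w c₁ c'`. -/
def FSQ_Stmt : Prop := ∀ (α : Type) (k : ℕ) (Γ : Type) (P P' : Frag α k Γ),
  ∃ P'' : Frag α k Γ, ∀ w c c', P''.rel w c c' ↔ ∃ c₁, P.rel w c c₁ ∧ P'.rel w c₁ c'

/-- FAL (100 lines): union of programs. No hypotheses.

Proof. States `(Q ⊕ Q') ⊕ Bool`, initial `inr false`, final `inr true`; steps that change nothing from the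
initial state to the two initial states, and from the two final states to the final state; no step
from `inr true`. As in `FSQ`. -/
def FAL_Stmt : Prop := ∀ (α : Type) (k : ℕ) (Γ : Type) (P P' : Frag α k Γ),
  ∃ P'' : Frag α k Γ, ∀ w c c', P''.rel w c c' ↔ P.rel w c c' ∨ P'.rel w c c'

/-- FST (100 lines): star. No hypotheses.

Proof. States `Option Q`, `none` is the initial and the final state; steps that change nothing from
`none` to `some s` and from `some f` to `none`. A run from `(some q, c)` to `(none, c')`: induction from the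
front: `∃ c₁, ReflTransGen P.Step (q, c) (f, c₁) ∧ ReflTransGen (P.rel w) c₁ c'`; a run from `(none, c)` to
`(none, c')`: `ReflTransGen (P.rel w) c c'`. -/
def FST_Stmt : Prop := ∀ (α : Type) (k : ℕ) (Γ : Type) (P : Frag α k Γ),
  ∃ P'' : Frag α k Γ, ∀ w c c', P''.rel w c c' ↔ ReflTransGen (P.rel w) c c'

/-- LNG (100 lines): languages. Hypotheses `FSQ_Stmt`, `FAL_Stmt`, `FST_Stmt`.

Proof. For `Real ρ` there is a program `P` such that `ρ w c c' ↔ P.rel w c c'` for all `c` with `Val w c`:
induction. `act`: states `Bool`, initial `false`, final `true`, one transition `(true, d, o)` from `false` if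
`G`, none from `true`. `seq`, `star`: `Val` of the intermediate configurations by `Real.val`. The automaton
has the states, the initial state and the transitions of `P`, and accepts in the state `P.f`
(`Reach` versus `ReflTransGen`: two inductions). -/
def LNG_Stmt : Prop := ∀ (α : Type) (k : ℕ) (Γ : Type) [Finite Γ] (ρ : Rl α k Γ), Real ρ →
  ∃ A : PDA α k, ∀ w, w ∈ A.lang ↔ ∃ c', ρ w (fun _ => 0, []) c'

/-- UNI (90 lines): finite unions, and moving all heads anywhere. No hypotheses.

Proof. (1) `Finite.induction_empty_option`: an empty union is `act` with a guard that is always false;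
`Option ι`: `alt`; transport along a bijection. (2) star of the union over all `d : Fin k → Dir` (finite:
`Dir` has three elements) of `act (fun _ _ => True) d Op.none`. From `c` with `Val w c` every `c'` with
`Val w c'` and the same stack is reached: induction on the sum of the distances of the positions, moving
all heads that are not yet there one cell in the right direction; conversely `Real.val`, and the stack
does not change. -/
def UNI_Stmt : Prop := ∀ (α : Type) (k : ℕ) (Γ : Type),
  (∀ (ι : Type) [Finite ι] (ρ : ι → Rl α k Γ), (∀ i, Real (ρ i)) →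
    Real (fun w c c' => ∃ i, ρ i w c c')) ∧
  ∃ ρ : Rl α k Γ, Real ρ ∧ ∀ w c c', Val w c → (ρ w c c' ↔ Val w c' ∧ c'.2 = c.2)

/-- CNV (150 lines): the converse of a program. Hypothesis `UNI_Stmt`.

Proof. Induction on `Real ρ`. `seq`: composition of the converses in the other order. `alt` clear.
`star`: `Relation.reflTransGen_swap`. `act G d o`: from `c'` one goes back to `c` in two actions. The first one
is chosen among finitely many (`UNI`): for each head a choice `ε i : Bool`, and a choice `g : Option Γ`.
Let `N = |w| + 1`, `p ≤ N` the old position, `p'` the new one. `d i = S`: `p = p'`, head stays. `d i = L`: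
`ε i = true`: the head sees a symbol different from `⊣` (so `p' < N`) and moves right, `p = p' + 1`;
`ε i = false`: it sees `⊢` and stays, `p = p' = 0`. `d i = R`: `ε i = true`: it sees a symbol different from
`⊢` and moves left, `p = p' - 1`; `ε i = false`: it sees `⊣` and stays (`p = p' = N`). Stack: `o = none`:
`Op.none`. `o = push γ`: guard: the top is `γ`; `Op.pop`. `o = pop`: `g = none`: guard: the stack is empty,
`Op.none`; `g = some γ`: `Op.push γ`. The second action has the guard `G` and changes nothing. The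
composition relates `c'` to `c` iff `Val w c`, `G` holds at `c` and `c' = (moves, o.apply c.2)`. (Useful: for
`p ≤ N`: `tape w p = ⊢ ↔ p = 0`, `tape w p = ⊣ ↔ p = N`.) -/
def CNV_Stmt : Prop := ∀ (α : Type) (k : ℕ) (Γ : Type) [Finite Γ] (ρ : Rl α k Γ), Real ρ →
  Real (fun w c c' => ρ w c' c)

/-- One-head relations. -/
abbrev Rl1 (α Γ : Type) : Type := List α → ℕ × List Γ → ℕ × List Γ → Prop

/-- One-head programs. -/
inductive Real1 {α Γ : Type} : Rl1 α Γ → Prop
  | act (G : Sym α → Option Γ → Prop) (d : Dir) (o : Op Γ) :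
      Real1 (fun w c c' => c.1 ≤ w.length + 1 ∧ G (tape w c.1) c.2.head? ∧
        c' = (move (w.length + 1) c.1 d, o.apply c.2))
  | seq {ρ σ : Rl1 α Γ} : Real1 ρ → Real1 σ → Real1 (fun w c c' => ∃ c₁, ρ w c c₁ ∧ σ w c₁ c')
  | alt {ρ σ : Rl1 α Γ} : Real1 ρ → Real1 σ → Real1 (fun w c c' => ρ w c c' ∨ σ w c c')
  | star {ρ : Rl1 α Γ} : Real1 ρ → Real1 (fun w => ReflTransGen (ρ w))

/-- One-head programs keep the head on the tape. -/
theorem Real1.val {α Γ : Type} {ρ : Rl1 α Γ} (h : Real1 ρ) :
    ∀ w c c', ρ w c c' → c.1 ≤ w.length + 1 → c'.1 ≤ w.length + 1 := by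
  induction h with
  | act G d o =>
    rintro w c c' ⟨h1, -, rfl⟩ -
    exact move_le _ _ _ h1
  | seq _ _ ih1 ih2 =>
    rintro w c c' ⟨c₁, h1, h2⟩ hv
    exact ih2 w c₁ c' h2 (ih1 w c c₁ h1 hv)
  | alt _ _ ih1 ih2 =>
    rintro w c c' (h1 | h1) hv
    · exact ih1 w c c' h1 hv
    · exact ih2 w c c' h1 hv
  | star _ ih =>
    intro w c c' h hv
    induction h with
    | refl => exact hv
    | tail _ h2 ih' => exact ih w _ _ h2 ih'

/-- LIF (110 lines): a one-head program for head `i`. No hypotheses.

Proof. Induction on `Real1 τ`. `act G d o`: `act (fun s g => G (s i) g) (fun j => if j = i then d else S) o`.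
`seq`: the intermediate configuration is `(Function.update c.1 i y.1, y.2)`, it satisfies `Val` by
`Real1.val`. `star`: both directions by induction on the chain, with `Val`. -/
def LIF_Stmt : Prop := ∀ (α : Type) (k : ℕ) (Γ : Type) (τ : Rl1 α Γ), Real1 τ → ∀ i : Fin k,
  ∃ ρ : Rl α k Γ, Real ρ ∧ ∀ w c c', Val w c →
    (ρ w c c' ↔ τ w (c.1 i, c.2) (c'.1 i, c'.2) ∧ ∀ j, j ≠ i → c'.1 j = c.1 j)

/-- INI (80 lines): moving the heads from the left end to given cells. No hypotheses.

Proof. For all `m`: a program for the positions `min m (q i)`; induction on `m`. `m = 0`: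
`act (fun _ _ => True) (fun _ => S) none`. Step: compose with `act (fun _ _ => True) d none`, `d i = R` if
`m < q i`, `S` otherwise. Finally `m` is larger than all `q i`. -/
def INI_Stmt : Prop := ∀ (α : Type) (k : ℕ) (Γ : Type) (q : Fin k → ℕ),
  ∃ ρ : Rl α k Γ, Real ρ ∧ ∀ w s c', (∀ i, q i ≤ w.length + 1) →
    (ρ w (fun _ => 0, s) c' ↔ c' = (q, s))

/-! ## 2. Padded words and one-head programs -/

/-- The cell with offset `P` behind the letter number `j` of `⊢ x ⊣` in the padded word. -/
def cel (M j P : ℕ) : ℕ := 1 + j * M + P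

/-- PAD (90 lines): the padded word. No hypotheses.

Proof. `pad M x` is the concatenation of the blocks `some s :: replicate (M - 1) none` of length `M`, `s` in
`brk x`, of length `|x| + 2`; `brk x` has the letter number `j` equal to `tape x j` for `j ≤ |x| + 1`. The entry
number `j * M + P` of a `flatMap` with blocks of the same length `M` is the entry number `P` of the
block `j` (induction on the list). -/
def PAD_Stmt : Prop := ∀ (Λ : Type) (M : ℕ) (x : List Λ), 1 ≤ M →
  (pad M x).length = (x.length + 2) * M ∧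
  (∀ j P, j ≤ x.length + 1 → P < M → tape (pad M x) (cel M j P) =
    Sym.letter (if P = 0 then some (tape x j) else none)) ∧
  tape (pad M x) (cel M (x.length + 2) 0) = Sym.right

/-- The stack does not begin with a scratch symbol. -/
def Cln {H : Type} (s : List (Bool ⊕ H)) : Prop := ∀ b : Bool, s.head? ≠ some (Sum.inl b)

/-- POP (70 lines): move right one cell for each scratch symbol. No hypotheses.

Proof. Star of `act (top is some (inl _)) R pop`, then `act (top is not some (inl _)) S none`. From
`(p, l.map inl ++ s)` the star reaches exactly the `(p + t, (l.drop t).map inl ++ s)`, `t ≤ |l|`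
(induction on `l`), and the last test leaves only `t = |l|`, because `s` is clean. -/
def POP_Stmt : Prop := ∀ α H : Type, ∃ τ : Rl1 α (Bool ⊕ H), Real1 τ ∧
  ∀ (w : List α) (p : ℕ) (l : List Bool) (s : List (Bool ⊕ H)) (c' : ℕ × List (Bool ⊕ H)),
    Cln s → p + l.length ≤ w.length + 1 →
    (τ w (p, l.map Sum.inl ++ s) c' ↔ c' = (p + l.length, s))

/-- GOL (100 lines): go left to the letter, (1) with the scratch symbol `false` for each cell,
(2) without. Hypothesis `PAD_Stmt`.

Proof. Star of `act (scanned symbol = letter none) L (push (inl false))` (or `none`), then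
`act (scanned symbol = letter (some _)) S none`. Induction on `P`: on a cell with offset `P > 0` the
scanned symbol is `letter none`, on the letter it is `letter (some _)`. -/
def GOL_Stmt : Prop := ∀ Λ H : Type,
  (∃ τ : Rl1 (Option (Sym Λ)) (Bool ⊕ H), Real1 τ ∧ ∀ (M : ℕ) (x : List Λ) (j P : ℕ)
    (s : List (Bool ⊕ H)) (c' : ℕ × List (Bool ⊕ H)), 1 ≤ M → j ≤ x.length + 1 → P < M →
    (τ (pad M x) (cel M j P, s) c' ↔
      c' = (cel M j 0, (List.replicate P false).map Sum.inl ++ s))) ∧
  (∃ τ : Rl1 (Option (Sym Λ)) (Bool ⊕ H), Real1 τ ∧ ∀ (M : ℕ) (x : List Λ) (j P : ℕ)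
    (s : List (Bool ⊕ H)) (c' : ℕ × List (Bool ⊕ H)), 1 ≤ M → j ≤ x.length + 1 → P < M →
    (τ (pad M x) (cel M j P, s) c' ↔ c' = (cel M j 0, s)))

/-- RDM (50 lines): read the letter. Hypotheses `PAD_Stmt`, `POP_Stmt`, `GOL_Stmt`.

Proof. `GOL` (1); `act (scanned symbol = letter (some a)) S none`; `POP` with `l = replicate P false`
(`cel M j 0 + P = cel M j P` is at most the length of the padded word). -/
def RDM_Stmt : Prop := ∀ (Λ H : Type) (a : Sym Λ),
  ∃ τ : Rl1 (Option (Sym Λ)) (Bool ⊕ H), Real1 τ ∧ ∀ (M : ℕ) (x : List Λ) (j P : ℕ)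
    (s : List (Bool ⊕ H)) (c' : ℕ × List (Bool ⊕ H)), 1 ≤ M → j ≤ x.length + 1 → P < M → Cln s →
    (τ (pad M x) (cel M j P, s) c' ↔ tape x j = a ∧ c' = (cel M j P, s))

/-- MVM (170 lines): a step of the reading head, the offset does not change. Hypotheses `PAD_Stmt`,
`POP_Stmt`, `GOL_Stmt`.

Proof. `d = S`: `act (fun _ _ => True) S none`. `d = R`: `GOL` (1); then either
`act (scanned symbol = letter (some Sym.right)) S none` (this is the case `j = |x| + 1`), or
`act (scanned symbol = letter (some a) with a ≠ Sym.right) R none`, star of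
`act (scanned symbol = letter none) R none`, `act (scanned symbol = letter (some _)) S none`, which leads from
`cel M j 0` to `cel M (j + 1) 0` (induction); then `POP`. `d = L`: `GOL` (1); then either
`act (scanned symbol = letter (some Sym.left)) S none` (`j = 0`), or
`act (scanned symbol = letter (some a) with a ≠ Sym.left) L none` and `GOL` (2) (from
`cel M j 0 - 1 = cel M (j - 1) (M - 1)` to `cel M (j - 1) 0`); then `POP`. -/
def MVM_Stmt : Prop := ∀ (Λ H : Type) (d : Dir),
  ∃ τ : Rl1 (Option (Sym Λ)) (Bool ⊕ H), Real1 τ ∧ ∀ (M : ℕ) (x : List Λ) (j P : ℕ)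
    (s : List (Bool ⊕ H)) (c' : ℕ × List (Bool ⊕ H)), 1 ≤ M → j ≤ x.length + 1 → P < M → Cln s →
    (τ (pad M x) (cel M j P, s) c' ↔ c' = (cel M (move (x.length + 1) j d) P, s))

/-- RRL (120 lines): division by `β`. Hypothesis `PAD_Stmt`.

Proof. (a) For every `n` there is a program `W n` which relates `(cel M j P, s)` to `c'` iff `n ≤ P` and
`c' = (cel M j (P - n), s)`: `act (fun _ _ => True) S none` for `n = 0`, and `W n` followed by
`act (scanned symbol = letter none) L none`. (b) The program: star of (`W β` followed by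
`act (fun _ _ => True) S (push (inl false))`), then `W σ`, then `act (scanned symbol = letter (some _)) S none`.
After `t` rounds of the star the offset is `P - β t`, `β t ≤ P`; the rest demands `P - β t = σ < β`. -/
def RRL_Stmt : Prop := ∀ (Λ H : Type) (β σ : ℕ), σ < β →
  ∃ τ : Rl1 (Option (Sym Λ)) (Bool ⊕ H), Real1 τ ∧ ∀ (M : ℕ) (x : List Λ) (j P : ℕ)
    (s : List (Bool ⊕ H)) (c' : ℕ × List (Bool ⊕ H)), 1 ≤ M → j ≤ x.length + 1 → P < M →
    (τ (pad M x) (cel M j P, s) c' ↔
      P % β = σ ∧ c' = (cel M j 0, (List.replicate (P / β) false).map Sum.inl ++ s))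

/-- RRR (170 lines): write `σ' * (M / β)` scratch symbols `true`. Hypotheses `PAD_Stmt`, `GOL_Stmt`.

Proof. Blocks of `β` cells to the right: `B` = `act (fun _ _ => True) R none`, then `β - 1` times
`act (scanned symbol = letter none) R none`, then `σ'` times `act (fun _ _ => True) S (push (inl true))`. The
program: `B`; star of (`act (scanned symbol = letter none) S none` and `B`); `act (scanned symbol is
different from letter none) S none`; `act (fun _ _ => True) L none`; `GOL` (2). From `cel M j 0` after `t + 1`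
blocks the head is on `cel M j (β (t + 1))`, `β (t + 1) ≤ M`, with `σ' (t + 1)` new symbols; the symbol there is
`letter none` if `β (t + 1) < M`; if `β (t + 1) = M` it is the next letter or, for `j = |x| + 1`, the right
endmarker (`cel M j M = cel M (j + 1) 0`). So the star ends exactly after `M / β` blocks. Then one step left
to `cel M j (M - 1)` and back to the letter. (Prove by induction on `n` the program for `n` steps
`act (scanned symbol = letter none) R none` and for `n` times push.) -/
def RRR_Stmt : Prop := ∀ (Λ H : Type) (β σ' : ℕ), 1 ≤ β →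
  ∃ τ : Rl1 (Option (Sym Λ)) (Bool ⊕ H), Real1 τ ∧ ∀ (M : ℕ) (x : List Λ) (j : ℕ)
    (s : List (Bool ⊕ H)) (c' : ℕ × List (Bool ⊕ H)), 1 ≤ M → β ∣ M → j ≤ x.length + 1 →
    (τ (pad M x) (cel M j 0, s) c' ↔
      c' = (cel M j 0, (List.replicate (σ' * (M / β)) true).map Sum.inl ++ s))

/-- The actions of a history letter on a pair (position of the reading head, register). `rr σ σ'`: the
lowest digit of the register is `σ`; it is removed, and `σ'` becomes the highest digit. `hd a d`: the
reading head sees `a` and makes the step `d`. -/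
inductive Ac (Λ : Type) where
  | rr (σ σ' : ℕ) : Ac Λ
  | hd (a : Sym Λ) (d : Dir) : Ac Λ

/-- The digits of the action are smaller than `β`. -/
def Ac.ok {Λ : Type} (β : ℕ) : Ac Λ → Prop
  | .rr σ σ' => σ < β ∧ σ' < β
  | .hd _ _ => True

/-- The effect of an action. -/
def AcR {Λ : Type} (β M : ℕ) (x : List Λ) : Ac Λ → ℕ × ℕ → ℕ × ℕ → Prop
  | .rr σ σ', y, y' => y.2 % β = σ ∧ y' = (y.1, y.2 / β + σ' * (M / β))
  | .hd a d, y, y' => tape x y.1 = a ∧ y' = (move (x.length + 1) y.1 d, y.2)

/-- The pair is in the range. -/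
def Inr {Λ : Type} (M : ℕ) (x : List Λ) (y : ℕ × ℕ) : Prop := y.1 ≤ x.length + 1 ∧ y.2 < M

theorem AcR.inr {Λ : Type} {β M : ℕ} {x : List Λ} {a : Ac Λ} {y y' : ℕ × ℕ}
    (h : AcR β M x a y y') (ha : a.ok β) (hM : β ∣ M) (hy : Inr M x y) : Inr M x y' := by
  obtain ⟨m, rfl⟩ := hM
  cases a with
  | rr σ σ' =>
    obtain ⟨-, rfl⟩ := h
    obtain ⟨-, h2⟩ := ha
    obtain ⟨h3, h4⟩ := hy
    have hβ : 0 < β := by omega
    refine ⟨h3, ?_⟩
    have h5 : y.2 / β < m := Nat.div_lt_of_lt_mul h4
    have h6 : (β * m) / β = m := Nat.mul_div_cancel_left m hβ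
    show y.2 / β + σ' * (β * m / β) < β * m
    rw [h6]
    calc y.2 / β + σ' * m < m + σ' * m := by omega
      _ = (σ' + 1) * m := by ring
      _ ≤ β * m := Nat.mul_le_mul_right m h2
  | hd a d =>
    obtain ⟨-, rfl⟩ := h
    exact ⟨move_le _ _ _ hy.1, hy.2⟩

/-- ACT (90 lines): the actions are computed by one-head programs. Hypotheses `PAD_Stmt`, `POP_Stmt`,
`RDM_Stmt`, `MVM_Stmt`, `RRL_Stmt`, `RRR_Stmt`.

Proof. `hd a d`: `RDM` for `a`, then `MVM` for `d`. `rr σ σ'`: `RRL`, `RRR`, and `POP` with
`l = replicate (σ' * (M / β)) true ++ replicate (P / β) false`; the new offset is below `M` (`AcR.inr`), so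
`POP` stays on the tape. -/
def ACT_Stmt : Prop := ∀ (Λ H : Type) (β : ℕ) (a : Ac Λ), 1 ≤ β → a.ok β →
  ∃ τ : Rl1 (Option (Sym Λ)) (Bool ⊕ H), Real1 τ ∧ ∀ (M : ℕ) (x : List Λ) (y : ℕ × ℕ)
    (s : List (Bool ⊕ H)) (c' : ℕ × List (Bool ⊕ H)), 1 ≤ M → β ∣ M → Inr M x y → Cln s →
    (τ (pad M x) (cel M y.1 y.2, s) c' ↔
      ∃ y', AcR β M x a y y' ∧ c' = (cel M y'.1 y'.2, s))

/-- HDS (130 lines): the actions of all heads, one after the other. Hypotheses `PAD_Stmt`,
`LIF_Stmt`, `ACT_Stmt`.

Proof. For all `m ≤ k` a program for the heads `i < m`: it relates the configuration to `c'` iff there is `y'`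
with `AcR … (a i) (y i) (y' i)` for `i < m` and `y' i = y i` for the other `i`, and `c'` as in the statement.
Induction on `m`: compose with `LIF` of `ACT` for the head `m`. `m = 0`: `act (fun _ _ => True) (fun _ => S)
none`. All pairs stay in the range (`AcR.inr`), so `Val` holds: `cel M j P ≤ |pad M x|` for pairs in
the range (`PAD`). -/
def HDS_Stmt : Prop := ∀ (Λ H : Type) (k β : ℕ) (a : Fin k → Ac Λ), 1 ≤ β → (∀ i, (a i).ok β) →
  ∃ ρ : Rl (Option (Sym Λ)) k (Bool ⊕ H), Real ρ ∧ ∀ (M : ℕ) (x : List Λ)
    (y : Fin k → ℕ × ℕ) (s : List (Bool ⊕ H)) (c' : Cf k (Bool ⊕ H)), 1 ≤ M → β ∣ M →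
    (∀ i, Inr M x (y i)) → Cln s →
    (ρ (pad M x) (fun i => cel M (y i).1 (y i).2, s) c' ↔
      ∃ y' : Fin k → ℕ × ℕ, (∀ i, AcR β M x (a i) (y i) (y' i)) ∧
        c' = (fun i => cel M (y' i).1 (y' i).2, s))

/-! ## 3. Passes -/

/-- Histories: `C (some b) a` means that the letter `a` may follow `b`, `C none a` that it may be the first
one. The head of the list is the LAST letter. -/
def Chn {H : Type} (C : Option H → H → Prop) : List H → Prop
  | [] => True
  | a :: l => C l.head? a ∧ Chn C l

/-- `Run A y₀ h y`: the actions of the letters of the history `h` lead from `y₀` to `y`. -/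
def Run {H Y : Type} (A : H → Y → Y → Prop) (y₀ : Y) : List H → Y → Prop
  | [], y => y = y₀
  | a :: l, y => ∃ y', Run A y₀ l y' ∧ A a y' y

/-- PAS (160 lines): one pass. Hypotheses `PAD_Stmt`, `UNI_Stmt`, `INI_Stmt`, `HDS_Stmt`.

Proof. `INI` with `q i = 1 + P₀ i = cel M 0 (P₀ i)`; then the star of the union (`UNI` (1), `H` is finite) over
the letters `η` of: `act G (fun _ => S) (push (inr η))`, where `G` demands `C none η` if the stack is empty and
`C (some b) η` if the top is `inr b` (and is false if the top is `inl _`), followed by `HDS` for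
`a η`. From `(fun i => cel M (y i).1 (y i).2, h.map inr)` with all `y i` in the range one round leads
exactly to the configurations of the same form for `η :: h`, `C h.head? η`, `y'`. The pairs of a `Run`
are in the range (`AcR.inr`; `P₀ i < β ≤ M`). Induction on the star, from the back; conversely induction
on `h`. -/
def PAS_Stmt : Prop := ∀ (Λ H : Type) [Finite H] (k β : ℕ) (C : Option H → H → Prop)
  (a : H → Fin k → Ac Λ) (P₀ : Fin k → ℕ), 1 ≤ β → (∀ η i, (a η i).ok β) → (∀ i, P₀ i < β) →
  ∃ ρ : Rl (Option (Sym Λ)) k (Bool ⊕ H), Real ρ ∧ ∀ (M : ℕ) (x : List Λ)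
    (c' : Cf k (Bool ⊕ H)), 1 ≤ M → β ∣ M →
    (ρ (pad M x) (fun _ => 0, []) c' ↔ ∃ (h : List H) (y : Fin k → ℕ × ℕ), Chn C h ∧
      (∀ i, Run (fun η => AcR β M x (a η i)) (0, P₀ i) h (y i)) ∧
      c' = (fun i => cel M (y i).1 (y i).2, h.map Sum.inr))

/-- TWO (120 lines): two passes. Hypotheses `LNG_Stmt`, `UNI_Stmt`, `CNV_Stmt`, `PAS_Stmt`.

Proof. `PAS` for the actions number `0, …, k - 1` gives `ρ`, for the actions number `k, …, 2 k - 1` it gives `ρ'`.
The program: `ρ`; `act` (the top is `inr η` with `η ∈ E`, nothing changes); all heads anywhere (`UNI` (2)); the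
converse of `ρ'` (`CNV`); `act` (all heads see `⊢`, the stack is empty, nothing changes). The last action
is possible exactly in the configuration `(fun _ => 0, [])`. The configurations reached from
`(fun _ => 0, [])` by `ρ'` satisfy `Val` (`Real.val`). `LNG`. The stack is the same history in both passes:
`List.map inr` is injective. -/
def TWO_Stmt : Prop := ∀ (Λ H : Type) [Finite H] (k β : ℕ) (C : Option H → H → Prop) (E : Set H)
  (a : H → Fin (2 * k) → Ac Λ) (P₀ : Fin (2 * k) → ℕ), 1 ≤ β → (∀ η i, (a η i).ok β) →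
  (∀ i, P₀ i < β) → ∃ A : PDA (Option (Sym Λ)) k, ∀ (M : ℕ) (x : List Λ), 1 ≤ M → β ∣ M →
    (pad M x ∈ A.lang ↔ ∃ h : List H, Chn C h ∧ (∃ η ∈ E, h.head? = some η) ∧
      ∀ i, ∃ y, Run (fun η => AcR β M x (a η i)) (0, P₀ i) h y)

/-! ## 4. Histories of machines -/

/-- Letters of histories: `sw μ p a p' a'`: the sweep replaces the letter `a` by `a'` and goes from the state
`p` to `p'`; `μ = true` for the first cell of the memory word. `hd p s p' d`: the step of the reading
heads, which see `s`. `ck p a`: the end; the memory word is complete and its first letter is `a`. -/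
inductive Ev (Λ Q : Type) (r S : ℕ) where
  | sw (μ : Bool) (p : Q) (a : Fin S) (p' : Q) (a' : Fin S) : Ev Λ Q r S
  | hd (p : Q) (s : Fin r → Sym Λ) (p' : Q) (d : Fin r → Dir) : Ev Λ Q r S
  | ck (p : Q) (a : Fin S) : Ev Λ Q r S

/-- FIN (60 lines): the finite types. No hypotheses.

Proof. Injections into sums and products of finite types (`Finite.of_injective`). -/
def FIN_Stmt : Prop := (∀ (α : Type) [Finite α], Finite (Sym α)) ∧ Finite Dir ∧
  ∀ (Λ Q : Type) [Finite Λ] [Finite Q] (r S : ℕ), Finite (Ev Λ Q r S)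

/-- The letter `η` may follow the letter `o` (or be the first one). -/
def EvC {Λ : Type} {r S : ℕ} (T : RM Λ r S) : Option (Ev Λ T.Q r S) → Ev Λ T.Q r S → Prop
  | none, .sw μ p a p' a' => (p', a') ∈ T.sw p a ∧ μ = true ∧ p = T.start
  | some (.sw _ _ _ q _), .sw μ p a p' a' => (p', a') ∈ T.sw p a ∧ μ = false ∧ p = q
  | some (.hd _ _ q _), .sw μ p a p' a' => (p', a') ∈ T.sw p a ∧ μ = true ∧ p = q
  | some (.sw _ _ _ q _), .hd p s p' d => (p', d) ∈ T.hd p s ∧ p = q
  | none, .ck p _ => p = T.start
  | some (.hd _ _ q _), .ck p _ => p = q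
  | _, _ => False

/-- The action of a letter on the pair (marked memory word, positions of the reading heads). The memory word
is rotated: the first cell is treated and goes to the end. -/
def EvA {Λ Q : Type} {r S : ℕ} (x : List Λ) : Ev Λ Q r S →
    List (Fin S × Bool) × (Fin r → ℕ) → List (Fin S × Bool) × (Fin r → ℕ) → Prop
  | .sw μ _ a _ a', y, y' => ∃ u, y.1 = (a, μ) :: u ∧ y' = (u ++ [(a', μ)], y.2)
  | .hd _ s _ d, y, y' => (∀ i, tape x (y.2 i) = s i) ∧
      y' = (y.1, fun i => move (x.length + 1) (y.2 i) (d i))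
  | .ck _ a, y, y' => ∃ u, y.1 = (a, true) :: u ∧ y' = (u ++ [(a, true)], y.2)

/-- The memory word with the first cell marked. -/
def mrk {S : ℕ} : List (Fin S) → List (Fin S × Bool)
  | [] => []
  | a :: u => (a, true) :: u.map fun b => (b, false)

/-- The history `h` is at the beginning of a round, in the state `p`. -/
def Beg {Λ : Type} {r S : ℕ} (T : RM Λ r S) (h : List (Ev Λ T.Q r S)) (p : T.Q) : Prop :=
  (h = [] ∧ p = T.start) ∨ ∃ q s d l, h = .hd q s p d :: l

/-- HIA (150 lines): machines have histories. No hypotheses.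

Proof. Let `Y = (mrk (replicate (|x| + 1) T.blank), fun _ => 0)`. (a) One sweep: let `Sweep T.sw p u p' v`,
`u ≠ []`, `Chn h`, `Run h (mrk u, pos)`, `Beg T h p`; then there is `h' ≠ []` with `Chn h'`, whose last letter is
`sw _ _ _ p' _`, and `Run h' (mrk v, pos)`. The first letter of the sweep is `sw true …`, the others are
`sw false …`: induction on the remaining part: from `(u₂.map (·, false) ++ mrk v₁, pos)`, `v₁ ≠ []`, last letter
`sw … q …`, and `Sweep T.sw q u₂ p' v₂` to `(mrk (v₁ ++ v₂), pos)`. (b) `ReflTransGen (T.Round x) (T.init x)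
(p, pos, v)` implies: `|v| = |x| + 1`, and there is `h` with `Chn h`, `Beg T h p`, `Run h (mrk v, pos)`: induction;
a round is a sweep (a) followed by the letter `hd`. (c) If `p` is accepting, add `ck p a`, `a` the first
letter of `v`. -/
def HIA_Stmt : Prop := ∀ (Λ : Type) (r S : ℕ) (T : RM Λ r S) (x : List Λ), x ∈ T.lang →
  ∃ h : List (Ev Λ T.Q r S), Chn (EvC T) h ∧
    (∃ p ∈ T.accept, ∃ a l, h = .ck p a :: l) ∧
    ∃ y, Run (EvA x) (mrk (List.replicate (x.length + 1) T.blank), fun _ => 0) h y

/-- HIB (180 lines): histories come from machines. No hypotheses.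

Proof. Call `(p, pos, v)` reached if `ReflTransGen (T.Round x) (T.init x) (p, pos, v)`; then
`|v| = |x| + 1`. Let `Chn h`, `Run h y`. Claim, by induction on `h`:
(i) if `Beg T h p`, then either `y.1 = mrk v` with `(p, y.2, v)` reached, or `y.1` begins with an unmarked
letter `(a, false)`; (ii) if the last letter of `h` is `sw _ _ _ q _`, then there are `p₀`, `u₁`, `u₂`, `v₁`, `v₁ ≠ []`,
with `(p₀, y.2, u₁ ++ u₂)` reached, `Sweep T.sw p₀ u₁ q v₁`, `y.1 = u₂.map (·, false) ++ mrk v₁`.
Steps. After (i) the letter `sw true`: the word begins with a marked letter, so `y.1 = mrk v`, `v = a :: u₂`,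
and (ii) holds with `u₁ = [a]`, `v₁ = [a']`. After (ii) the letter `sw false`: the word begins with an
unmarked letter, so `u₂ = a :: u₂'` (as `mrk v₁` begins with a marked one) and (ii) holds with `u₁ ++ [a]`,
`v₁ ++ [a']`. After (ii) the letter `hd`: if `u₂ = []`, then this is a round (a sweep from `u₁` to `v₁` and a
head step) and the new triple is reached; otherwise the word begins with an unmarked letter. Lengths: a
sweep keeps the length. Finally the letter `ck p a` with `p` accepting: before it the word begins with a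
marked letter, so the triple `(p, pos, v)` is reached. (Sweeps can be extended at the end: a lemma
`Sweep (u₁ ++ [a])`.) -/
def HIB_Stmt : Prop := ∀ (Λ : Type) (r S : ℕ) (T : RM Λ r S) (x : List Λ)
  (h : List (Ev Λ T.Q r S)), Chn (EvC T) h → (∃ p ∈ T.accept, ∃ a l, h = .ck p a :: l) →
    (∃ y, Run (EvA x) (mrk (List.replicate (x.length + 1) T.blank), fun _ => 0) h y) →
    x ∈ T.lang

/-- The actions of a letter on the pairs (position of the reading head `i`, register number `i`);
`e b i` is the digit number `i` of the marked letter `b`. -/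
def evAc {Λ Q : Type} {r S : ℕ} (e : Fin S × Bool → Fin r → ℕ) : Ev Λ Q r S → Fin r → Ac Λ
  | .sw μ _ a _ a', i => .rr (e (a, μ) i) (e (a', μ) i)
  | .hd _ s _ d, i => .hd (s i) (d i)
  | .ck _ a, i => .rr (e (a, true) i) (e (a, true) i)

/-- DGT (160 lines): the rotating word and its registers. No hypotheses.

Proof. The register of a marked word `W` is `R i W = Nat.ofDigits β (W.map (fun b => e b i))` (the head of `W`
is the lowest digit); `|W| = n = |x| + 1`, `M = β ^ n`, `M / β = β ^ (n - 1)`. Claim, by induction on `h`: `Run (EvA x)` from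
the initial pair to `(W, pos)` implies `|W| = n` and for all `i` the `Run` of the registers to
`(pos i, R i W)`; conversely, if for all `i` the `Run` leads to `y i`, then there are `W, pos` with the first
`Run` and `y i = (pos i, R i W)` for all `i`. `h = []`: `R i (mrk (replicate n blank)) = e (blank, true) i` because
`e (blank, false) i = 0`. Letter `sw μ p a p' a'`: `W = b :: u` (`n ≥ 1`), `R i W = e b i + β * R i u`, so the lowest
digit is `e b i` and `R i W / β = R i u` (digits below `β`); all digits agree with those of `(a, μ)` iff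
`b = (a, μ)` (injectivity); `R i (u ++ [(a', μ)]) = R i u + β ^ (n - 1) * e (a', μ) i`
(`Nat.ofDigits_append`). `hd`: clear. `ck`: as `sw`. -/
def DGT_Stmt : Prop := ∀ (Λ : Type) (r S β : ℕ) (T : RM Λ r S) (e : Fin S × Bool → Fin r → ℕ),
  1 ≤ β → (∀ b i, e b i < β) → (∀ b b', (∀ i, e b i = e b' i) → b = b') →
  (∀ i, e (T.blank, false) i = 0) → ∀ (x : List Λ) (h : List (Ev Λ T.Q r S)),
    (∃ y, Run (EvA x) (mrk (List.replicate (x.length + 1) T.blank), fun _ => 0) h y) ↔
    ∀ i, ∃ y, Run (fun η => AcR β (β ^ (x.length + 1)) x (evAc e η i))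
      (0, e (T.blank, true) i) h y

/-- ENC (70 lines): the digits. No hypotheses.

Proof. `Fin S × Bool` has `2 S ≤ β ^ r` elements, so it embeds into `Fin r → Fin β`
(`Function.Embedding.nonempty_of_card_le`); `S ≥ 1`, so `β ^ r ≥ 2`, `r ≥ 1`, `β ≥ 2`; compose with the transposition
(`Equiv.swap`) of the image of `(b, false)` and the zero function. -/
def ENC_Stmt : Prop := ∀ (r β S : ℕ) (b : Fin S), 2 * S ≤ β ^ r →
  ∃ e : Fin S × Bool → Fin r → ℕ, (∀ c i, e c i < β) ∧
    (∀ c c', (∀ i, e c i = e c' i) → c = c') ∧ ∀ i, e (b, false) i = 0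

/-- UPA (80 lines): the assembly `UPPER_Stmt`. Hypotheses `FIN_Stmt`, `TWO_Stmt`, `HIA_Stmt`, `HIB_Stmt`,
`DGT_Stmt`, `ENC_Stmt`.

Proof. Let `T.lang = L`, `T : RM Λ (2 k) S`, `e` from `ENC` (`r = 2 k`, `b = T.blank`). `TWO` for `H = Ev Λ T.Q (2 k) S`
(finite), `C = EvC T`, `E` = the set of the `ck p a` with `p ∈ T.accept`, `a = evAc e`, `P₀ i = e (T.blank, true) i`.
`M = β ^ (|x| + 1)` is divisible by `β` and positive (`β ≥ 1` because `β ^ (2 k) ≥ 4 S > 0`, `k ≥ 1`). `DGT`,
`HIA`, `HIB`. -/
def UPA_Stmt : Prop := UPPER_Stmt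

end Pool.Agent.NPH
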