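import Pool.Agent.NPH.St0

/-!
# Project NPH, part D: the binary alphabet
-/

set_option autoImplicit false

namespace Pool.Agent.NPH

open Pool.Agent.Heads Relation

/-- BPD: a pushdown automaton on binary codewords.

Proof. `enc c` has length `m ≥ 1`. Cells: cell `0` ↔ cell `0`, cell `p`, `1 ≤ p ≤ |w|`, ↔ the first cell
`1 + (p - 1) m` of its block, cell `|w| + 1` ↔ cell `|w| m + 1`. `M'` simulates one step of `M` as follows, with
all heads at the same time. Reading: `m` steps in which every head that started on a letter
moves right and the bit that it leaves is recorded; heads that start on an endmarker stay; after these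
`m` steps the letters of all heads are known (`enc` is injective). Then the stack operation and the
state of `M` are executed (the top of the stack has not changed; one transition of `M`), and the moves:
for a head that read a letter (it is `m` cells further now): `R`: nothing; `S`: `m` moves to the left;
`L`: `2 m` moves to the left, except that the head stays on the left endmarker once it is there (this
happens only for `p = 1`). For a head on the left endmarker: `R`: one move to the right; `L`, `S`: nothing.
For a head on the right endmarker: `L`: `m` moves to the left (staying on the left endmarker, for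
`w = []`), `R`, `S`: nothing. This takes a fixed number `2 m` of steps of `M'` (a head that is ready stays). The
states of `M'`: state of `M`, phase counter `0 … 3 m`, recorded bits, remaining moves. `M'` accepts in the
accepting states of `M` at the beginning of a simulation (phase `0`). By induction, the configurations of `M'` on
`w.flatMap enc` in phase `0` are the images of the configurations of `M` on `w`. -/
def BPD_Stmt : Prop :=
  ∀ (α : Type) [Finite α] (m : ℕ) (enc : α → List (Fin 2)), 1 ≤ m → (∀ c, (enc c).length = m) →
    Function.Injective enc → ∀ (k : ℕ) (M : PDA α k), ∃ M' : PDA (Fin 2) k,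
      ∀ w : List α, w.flatMap enc ∈ M'.lang ↔ w ∈ M.lang

/-- BFA: a finite automaton on binary codewords, simulated on the words themselves.

Proof. A head of `A'` on the binary word at cell `1 + (p - 1) m + o`, `0 ≤ o < m`, `1 ≤ p ≤ |w|`, is represented by a
head on cell `p` and the number `o` in the state; cell `0` by cell `0` (`o = 0`), cell `|w| m + 1` by cell
`|w| + 1` (`o = 0`). The scanned bit is bit `o` of `enc` of the scanned letter. Moves: change `o`, or pass
to the neighbouring cell: right from `o = m - 1`: cell `p + 1`, `o = 0` (also if that is the right
endmarker); left from `o = 0`: cell `p - 1` with `o = m - 1`, or `o = 0` if that is the left endmarker: this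
has to be known: let the automaton make a second step in which it looks at the new symbols and
corrects `o` (to `0` if it scans the left endmarker). From the right endmarker to the left: cell `|w|`,
`o = m - 1` (correction for `w = []`). One step of `A'` is two steps of `A`: states are the states of
`A'` with `o : Fin k → Fin m` and a phase. Acceptance: the state of `A'` in phase `0`. -/
def BFA_Stmt : Prop :=
  ∀ (α : Type) [Finite α] (m : ℕ) (enc : α → List (Fin 2)), 1 ≤ m → (∀ c, (enc c).length = m) →
    ∀ (k : ℕ) (A' : FA (Fin 2) k), ∃ A : FA α k, ∀ w : List α, w ∈ A.lang ↔ w.flatMap enc ∈ A'.lang

/-- **T1 over the binary alphabet.** -/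
def T1B_Stmt : Prop :=
  ∀ k : ℕ, 1 ≤ k → ∃ M : PDA (Fin 2) k, ∀ A : FA (Fin 2) (2 * k), A.lang ≠ M.lang

/-- BIN: T1 over the binary alphabet.

Proof. Take `a`, `M` from T1, `m = a + 1` and an injection `enc : Fin a → List (Fin 2)` with words of length
`m` (for example `List.ofFn fun i => if i = c then 1 else 0`). If an `A'` accepts the language of the `M'` of
`BPD`, the `A` of `BFA` accepts the language of `M`. -/
def BIN_Stmt : Prop := BPD_Stmt → BFA_Stmt → T1_Stmt → T1B_Stmt

end Pool.Agent.NPH
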