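import Pool.Agent.NPH.StB

/-!
# Project NPH, part S: sensing heads

The lower bound of T1 for `2k`-head nondeterministic finite automata whose heads sense each other: a
step may depend on which heads are on the same cell. The proof is that of `StB.lean`; the new point: in
the blind phases the offsets also keep their order and pairwise distances, and a configuration
with two offsets (of any two heads) near each other is also stored with one register less.
`4 N + 1` takes the place of `2 N + 1`, `N` the number of states.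
-/

set_option autoImplicit false

namespace Pool.Agent.NPH

open Pool.Agent.Heads Relation

/-- A two-way nondeterministic finite automaton with `k` sensing heads: a step depends on the state,
on the scanned symbols and on which heads are on the same cell. -/
structure SFA (α : Type) (k : ℕ) where
  Q : Type
  finQ : Finite Q
  start : Q
  accept : Set Q
  δ : Q → (Fin k → Sym α) → (Fin k → Fin k → Bool) → Set (Q × (Fin k → Dir))

namespace SFA

variable {α : Type} {k : ℕ} (M : SFA α k)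

/-- One step on input `w`, between pairs (state, head positions). -/
def Step (w : List α) (c c' : M.Q × (Fin k → ℕ)) : Prop :=
  ∃ t ∈ M.δ c.1 (fun i => tape w (c.2 i)) (fun i j => decide (c.2 i = c.2 j)),
    c' = (t.1, fun i => move (w.length + 1) (c.2 i) (t.2 i))

/-- The language accepted by `M`. -/
def lang : Set (List α) :=
  {w | ∃ c, ReflTransGen (M.Step w) (M.start, fun _ => 0) c ∧ c.1 ∈ M.accept}

end SFA

/-- `LOWER` for sensing heads. -/
def LOWERS_Stmt : Prop :=
  ∀ (Λ : Type) [Finite Λ] (D β : ℕ), 1 ≤ D → 2 ≤ β → ∀ A : SFA (Option (Sym Λ)) D,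
    InT Λ D (2 ^ D * β ^ (D - 1)) {x | pad (β ^ (x.length + 1)) x ∈ A.lang}

/-- COLS: the collapse.

Proof. As `COL`, with `S₀ = (2 * (4 ^ (k + 1) + 1)) ^ (2 k)`: `InT Λ (2 k) S L` gives
`InT Λ (2 k) (2 ^ (2 k) * β ^ (2 k - 1)) L` if `β ≥ 2` is even and `4 * S ≤ β ^ (2 k)`. For `S > S₀` let `j` be
minimal with `4 S ≤ (2 j) ^ (2 k)`; `j ≥ 4 ^ (k + 1) + 2 ≥ 4 k + 2`. It is enough that
`4 * 4 ^ k * (2 j) ^ (2 k - 1) ≤ (2 j - 2) ^ (2 k)`, i.e. `4 ^ (k + 1) * j ^ (2 k - 1) ≤ 2 (j - 1) ^ (2 k)`, which follows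
from `j ^ (2 k - 1) ≤ 2 (j - 1) ^ (2 k - 1)` (Bernoulli) and `4 ^ (k + 1) ≤ j - 1`. -/
def COLS_Stmt : Prop :=
  UPPER_Stmt → LOWERS_Stmt → MONO_Stmt → ∀ k : ℕ, 1 ≤ k →
    (∀ (α : Type) [Finite α] (M : PDA α k), ∃ A : SFA α (2 * k), A.lang = M.lang) →
    ∃ S₀ : ℕ, ∀ (Λ : Type) [Finite Λ] (S : ℕ) (L : Set (List Λ)),
      InT Λ (2 * k) S L → InT Λ (2 * k) S₀ L

/-- BFAS: as `BFA` (see `StD.lean`), for sensing heads.

A head of `A'` on the binary word at cell `1 + (p - 1) m + o`, `0 ≤ o < m`, `1 ≤ p ≤ |w|`, is represented by a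
head on cell `p` and the number `o` in the state; cell `0` by cell `0` (`o = 0`), cell `|w| m + 1` by cell
`|w| + 1` (`o = 0`). Two heads of `A'` are on the same cell iff the heads of `A` are on the same cell and
have the same `o`. Moves: change `o`, or pass to the neighbouring cell: right from `o = m - 1`: cell `p + 1`,
`o = 0` (also if that is the right endmarker); left from `o = 0`: cell `p - 1` with `o = m - 1`, or `o = 0` if
that is the left endmarker: let the automaton make a second step in which it looks at the new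
symbols and corrects `o` (to `0` if it scans the left endmarker). One step of `A'` is two steps of
`A`. -/
def BFAS_Stmt : Prop :=
  ∀ (α : Type) [Finite α] (m : ℕ) (enc : α → List (Fin 2)), 1 ≤ m → (∀ c, (enc c).length = m) →
    ∀ (k : ℕ) (A' : SFA (Fin 2) k), ∃ A : SFA α k, ∀ w : List α, w ∈ A.lang ↔ w.flatMap enc ∈ A'.lang

/-- **T1 for sensing heads, over the binary alphabet.** -/
def T1S_Stmt : Prop :=
  ∀ k : ℕ, 1 ≤ k → ∃ M : PDA (Fin 2) k, ∀ A : SFA (Fin 2) (2 * k), A.lang ≠ M.lang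

/-- TOPS: the assembly. The second hypothesis is `BPD` of `StD.lean`.

Proof. Suppose that for some `k ≥ 1` every `M : PDA (Fin 2) k` has a sensing `A` with the same language.
Then the hypothesis of `COLS` holds: let `α` be finite, `M : PDA α k`, `enc` an injection of `α` into the
binary words of length `m = card α + 1`, `M'` from `BPD`, `A'` a sensing automaton with
`A'.lang = M'.lang`, `A` from `BFAS`: `w ∈ A.lang ↔ w.flatMap enc ∈ A'.lang ↔ w ∈ M.lang`. `HIER` for `r = 2 k`,
`S = S₀` contradicts `COLS`. -/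
def TOPS_Stmt : Prop := COLS_Stmt →
  (∀ (α : Type) [Finite α] (m : ℕ) (enc : α → List (Fin 2)), 1 ≤ m → (∀ c, (enc c).length = m) →
    Function.Injective enc → ∀ (k : ℕ) (M : PDA α k), ∃ M' : PDA (Fin 2) k,
      ∀ w : List α, w.flatMap enc ∈ M'.lang ↔ w ∈ M.lang) →
  BFAS_Stmt → UPPER_Stmt → LOWERS_Stmt → MONO_Stmt → HIER_Stmt → T1S_Stmt

/-- ACCS: acceptance with head `0` on the left endmarker. Proof: as `ACC`. -/
def ACCS_Stmt : Prop :=
  ∀ (α : Type) (D : ℕ) (A : SFA α (D + 1)), ∃ A' : SFA α (D + 1), A'.lang = A.lang ∧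
    ∀ w c, ReflTransGen (A'.Step w) (A'.start, fun _ => 0) c → c.1 ∈ A'.accept → c.2 0 = 0

/-! ## 1. Walks in a box, with an order of the coordinates -/

section Walks

variable {V : Type} {D : ℕ} (E : V → V → (Fin D → ℤ) → Prop)

/-- The box; `o i j` requires that coordinate `i` is smaller than coordinate `j` by at least `lo`. -/
def SBx (lo M : ℕ) (o : Fin D → Fin D → Prop) (X : Fin D → ℤ) : Prop :=
  Bx lo M X ∧ ∀ i j, o i j → X i + lo ≤ X j

/-- Pieces: chains of at most `m` items with all vertices in the box. -/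
def PieceS (N M lo m : ℕ) (o : Fin D → Fin D → Prop) (c c' : V × (Fin D → ℤ)) : Prop :=
  ∃ (l : ℕ) (s : ℕ → V × (Fin D → ℤ)), l ≤ m ∧ s 0 = c ∧ s l = c' ∧
    (∀ t ≤ l, SBx lo M o (s t).2) ∧ ∀ t < l, ItE E (s t) (s (t + 1)) ∨ ItP E N M (s t) (s (t + 1))

end Walks

/-- STRS: walks in a box as chains of pieces.

Proof: as `STR`, with `lo = 2N + 1`, and near: some coordinate is `< 4N + 1` or `> M - (4N + 1)`, or for some
`o i j` the difference `X j - X i` is `< 4N + 1`. A shift by `d`, `|d i| ≤ N`, changes the coordinates by at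
most `N` and the differences by at most `2N`, so a vertex that is not near stays in the box. `m₀` does not
depend on `o` and `M`. -/
def STRS_Stmt : Prop :=
  ∀ (V : Type) [Finite V] (D : ℕ) (E : V → V → (Fin D → ℤ) → Prop), Unit1 E →
    ∃ m₀ : ℕ, ∀ (M : ℕ) (o : Fin D → Fin D → Prop) (c c' : V × (Fin D → ℤ)),
      SBx (2 * Nat.card V + 1) M o c.2 →
      ReflTransGen (fun a b => ItE E a b ∧ SBx (2 * Nat.card V + 1) M o b.2) c c' →
      ReflTransGen (fun a b => PieceS E (Nat.card V) M (2 * Nat.card V + 1) m₀ o a b ∧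
        ((∃ i, b.2 i < 4 * Nat.card V + 1 ∨ (M : ℤ) - (4 * Nat.card V + 1) < b.2 i) ∨
          (∃ i j, o i j ∧ b.2 j - b.2 i < 4 * Nat.card V + 1) ∨ b = c')) c c'

/-- SNDS: pieces are walks inside.

Proof: as `SND`: the points between `X + t d` and `X + (t + 1) d` differ from the first one by at most `N` in
each coordinate, and by at most `2N` in each difference. -/
def SNDS_Stmt : Prop :=
  ∀ (V : Type) (D : ℕ) (E : V → V → (Fin D → ℤ) → Prop), Unit1 E →
    ∀ (N M m : ℕ) (o : Fin D → Fin D → Prop) (c c' : V × (Fin D → ℤ)),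
      PieceS E N M (2 * N + 1) m o c c' →
      ReflTransGen (fun a b => ItE E a b ∧ SBx 1 M o a.2 ∧ SBx 1 M o b.2) c c'

/-- PCAS: pieces are recognised digit by digit. Proof: as `PCA`; `X i + lo ≤ X j` is
`∃ w < β ^ L, X i + lo + w = X j`. -/
def PCAS_Stmt : Prop := AUL_Stmt → AUC_Stmt → AUF_Stmt →
  ∀ (β : ℕ), 2 ≤ β → ∀ (V : Type) [Finite V] (D : ℕ) (E : V → V → (Fin D → ℤ) → Prop), Unit1 E →
    ∀ (N m : ℕ) (o : Fin D → Fin D → Prop) (v v' : V), Au β (Fin D ⊕ Fin D) (fun L X =>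
      PieceS E N (β ^ L) (2 * N + 1) m o (v, fun i => (X (Sum.inl i) : ℤ))
        (v', fun i => (X (Sum.inr i) : ℤ)))

/-! ## 2. The automaton on padded words -/

section Heads

variable {Λ : Type} {D : ℕ} (A : SFA (Option (Sym Λ)) D)

/-- Configurations: state, zones, offsets. -/
abbrev FCS : Type := A.Q × (Fin D → ℕ) × (Fin D → ℤ)

/-- The blind moves of the automaton: all heads scan blanks and are on different cells. -/
def BlS (q q' : A.Q) (d : Fin D → ℤ) : Prop :=
  ∃ t ∈ A.δ q (fun _ => Sym.letter none) (fun i j => decide (i = j)), t.1 = q' ∧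
    ∀ i, d i = dz (t.2 i)

/-- One step of the automaton, in terms of zones and offsets. -/
def SLS (M : ℕ) (x : List Λ) (c c' : FCS A) : Prop :=
  ∃ t ∈ A.δ c.1 (fun i => lsym M (tape x (c.2.1 i)) (c.2.2 i))
      (fun i j => decide (c.2.1 i = c.2.1 j ∧ c.2.2 i = c.2.2 j)), c'.1 = t.1 ∧
    (∀ i, c'.2.1 i = move (x.length + 1) (c.2.1 i) (lmv M (tape x (c.2.1 i)) (c.2.2 i) (t.2 i)).1) ∧
    ∀ i, c'.2.2 i = (lmv M (tape x (c.2.1 i)) (c.2.2 i) (t.2 i)).2

/-- Some offset is near `0` or `M`, or two offsets are near each other. -/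
def StorS (M : ℕ) (P : Fin D → ℤ) : Prop :=
  (∃ i, P i ≤ 4 * Nat.card A.Q + 1 ∨ (M : ℤ) - (4 * Nat.card A.Q + 1) ≤ P i) ∨
    ∃ i j, i ≠ j ∧ |P i - P j| ≤ 4 * Nat.card A.Q + 1

/-- Links between configurations that are stored: a step or a piece. -/
def LKS (M m : ℕ) (x : List Λ) (c c' : FCS A) : Prop :=
  StorS A M c.2.2 ∧ StorS A M c'.2.2 ∧ (SLS A M x c c' ∨ (c'.2.1 = c.2.1 ∧
    ∃ o : Fin D → Fin D → Prop, (∀ i j, i ≠ j → o i j ∨ o j i) ∧
      PieceS (BlS A) (Nat.card A.Q) M (2 * Nat.card A.Q + 1) m o (c.1, c.2.2) (c'.1, c'.2.2)))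

end Heads

/-- GLOS: acceptance by chains of links.

Proof: as `GLO`, `B = 4N + 1`. (←) In a piece all offsets are between `1` and `M - 1` and pairwise different
(`SNDS`, every pair `i ≠ j` is related by `o`), so all heads scan blanks and no two heads are on the
same cell: every edge is an `SLS` step. (→) Between two consecutive stored configurations `c₀`, `c_t` (`t > 1`) the
offsets of `c₁, …, c_(t-1)` are strictly between `B` and `M - B` and pairwise differ by more than `B`; a
move changes an offset by at most one, so the order of the offsets is the same at the times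
`1, …, t - 1` (a difference changes by at most `2` in a step, `B ≥ 5`), and at the times `0` and `t` the offsets
are between `B` and `M - B` and their differences are at least `B - 1 = 4N`, with the same order. As
`4N ≥ 2N + 1`, all these configurations are in `SBx (2N + 1) M o` with `o i j := P i < P j` (at time `1`).
`STRS`: the joints are stored. In `c₀` all heads scan blanks and are on different cells. -/
def GLOS_Stmt : Prop := HMV_Stmt → STRS_Stmt → SNDS_Stmt →
  ∀ (Λ : Type) (D : ℕ) (A : SFA (Option (Sym Λ)) (D + 1)),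
    (∀ w c, ReflTransGen (A.Step w) (A.start, fun _ => 0) c → c.1 ∈ A.accept → c.2 0 = 0) →
    ∃ m : ℕ, ∀ (M : ℕ), 2 ≤ M → ∀ (x : List Λ),
      (pad M x ∈ A.lang ↔ ∃ c : FCS A, ReflTransGen (LKS A M m x) (A.start, fun _ => 0, fun _ => -1) c ∧
        c.1 ∈ A.accept) ∧
      ∀ c : FCS A, ReflTransGen (LKS A M m x) (A.start, fun _ => 0, fun _ => -1) c →
        ∀ i, VP M (x.length + 1) (c.2.1 i) (c.2.2 i)

/-! ## 3. The machine -/

/-- STPS: single steps are recognised digit by digit; `z i j`: the zones of the heads `i` and `j` are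
equal. Proof: as `STP`; the equality of two offsets `pv …` is a finite case distinction on the flags
and a linear equation (`0 ≤ X < M`; `-1` and `M` are different from all offsets with flag `0`). Its negation:
`X < Y` or `Y < X`, i.e. `∃ w < β ^ L, X + w + 1 = Y`. Finite disjunction over the matrices of coincidences. -/
def STPS_Stmt : Prop := AUL_Stmt → AUC_Stmt → AUF_Stmt →
  ∀ (β : ℕ), 2 ≤ β → ∀ (Λ : Type) [Finite Λ] (D : ℕ) (A : SFA (Option (Sym Λ)) D) (q q' : A.Q)
    (f f' : Fin D → Fin 3) (s : Fin D → Sym Λ) (z : Fin D → Fin D → Bool) (m : Fin D → Dir),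
    Au β (Fin D ⊕ Fin D) (fun L X => 1 ≤ L ∧
      ∃ t ∈ A.δ q (fun i => lsym (β ^ L) (s i) (pv (β ^ L) (f i) (X (Sum.inl i))))
          (fun i j => decide (z i j = true ∧
            pv (β ^ L) (f i) (X (Sum.inl i)) = pv (β ^ L) (f j) (X (Sum.inl j)))), q' = t.1 ∧
        ∀ i, (m i, pv (β ^ L) (f' i) (X (Sum.inr i))) =
          lmv (β ^ L) (s i) (pv (β ^ L) (f i) (X (Sum.inl i))) (t.2 i))

/-- A link system whose reading heads sense each other. -/
structure LSysS (Λ : Type) (r : ℕ) (W : Type) where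
  N : Type
  H : Type
  finN : Finite N
  finH : Finite H
  start : N
  accept : Set N
  blank : W
  src : H → N
  tgt : H → N
  rd : H → Set ((Fin r → Sym Λ) × (Fin r → Fin r → Bool))
  mv : H → Fin r → Dir
  rel : H → List (W × W) → Prop
  hrel : ∀ h, Rec (rel h)

/-- One link of a link system, between triples (node, positions of the reading heads, memory). -/
def LSysS.Link {Λ : Type} {r : ℕ} {W : Type} (T : LSysS Λ r W) (x : List Λ)
    (c c' : T.N × (Fin r → ℕ) × List W) : Prop :=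
  ∃ h : T.H, T.src h = c.1 ∧ T.tgt h = c'.1 ∧
    ((fun i => tape x (c.2.1 i)), fun i j => decide (c.2.1 i = c.2.1 j)) ∈ T.rd h ∧
    c'.2.1 = (fun i => move (x.length + 1) (c.2.1 i) (T.mv h i)) ∧
    c'.2.2.length = c.2.2.length ∧ T.rel h (c.2.2.zip c'.2.2)

/-- The language of a link system. -/
def LSysS.lang {Λ : Type} {r : ℕ} {W : Type} (T : LSysS Λ r W) : Set (List Λ) :=
  {x | ∃ c, ReflTransGen (T.Link x) (T.start, fun _ => 0, List.replicate (x.length + 1) T.blank) c ∧
    c.1 ∈ T.accept}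

/-- LSYS: link systems are machines.

Proof. Memory letters: `W × (Fin r → Bool)`, injected into `Fin S` (blank ↦ `(blank, 0)`): a mark for every
reading head. The head `i` at position `p ≤ |x| + 1` has its mark exactly on the memory cell `p - 1` if
`1 ≤ p`, and no mark at all if `p = 0` (the memory has the cells `0, …, |x|`). A link is simulated by
one round: the sweep, started in a node `n`, chooses a shape `h` with `src h = n` and a matrix of
coincidences and scanned symbols `s` with `(s, z) ∈ rd h`, runs the automaton of `rel h` on the pairs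
(old letter, new letter) of `W`, checks that the marks have the coincidences `z` (for each pair
`i, j`: `z i j` iff the marks of `i` and `j` are on the same cells), and moves the marks by `mv h`: `S`: the
same; `R`: one cell to the right, or onto cell `0` if there was none, and the mark on cell `|x|` (position `|x| + 1`) stays; `L`:
one cell to the left, the mark on cell `0` disappears: the new marks are guessed and the sweep checks
them (it remembers for each head whether the previous old cell and the previous new cell had the mark,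
and guesses which letter is the last one: after the guess no further letter may come). In the head
step the scanned symbols must be `s`, move by `mv h`, new state `tgt h`. (Position `0` moved to
the left stays: no mark; position `|x| + 1` moved to the right stays: the mark on cell `|x|` stays.) -/
def LSYS_Stmt : Prop :=
  ∀ (Λ : Type) [Finite Λ] (r S : ℕ) (W : Type) [Finite W] (T : LSysS Λ r W),
    2 ^ r * Nat.card W ≤ S → InT Λ r S T.lang

section Low

variable {Λ : Type} {D : ℕ} (A : SFA (Option (Sym Λ)) (D + 1))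

/-- Node types: state, flags of the heads, the head `i₀` whose offset is not in the memory, the kind
(`0`: near `0`; `1`: near `M`; `2`, `3`: near the offset of the head `j₀`, above or below), `j₀`, and the
distance. -/
abbrev NdS : Type :=
  A.Q × (Fin (D + 1) → Fin 3) × Fin (D + 1) × Fin 4 × Fin (D + 1) × Fin (4 * Nat.card A.Q + 2)

/-- The numbers `X` given by a node and a memory word `u` (`M = β ^ L`). -/
def DecS (β : ℕ) (ν : NdS A) (u : List (Fin D → Fin β)) (X : Fin (D + 1) → ℕ) : Prop :=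
  (∀ t : Fin D, X (ν.2.2.1.succAbove t) = dval β u t) ∧ X ν.2.2.1 < β ^ u.length ∧
    ((ν.2.1 ν.2.2.1 ≠ 0 ∧ X ν.2.2.1 = 0) ∨
      (ν.2.1 ν.2.2.1 = 0 ∧ ν.2.2.2.1 = 0 ∧ X ν.2.2.1 = ν.2.2.2.2.2) ∨
      (ν.2.1 ν.2.2.1 = 0 ∧ ν.2.2.2.1 = 1 ∧ X ν.2.2.1 + ν.2.2.2.2.2 = β ^ u.length) ∨
      (ν.2.1 ν.2.2.1 = 0 ∧ ν.2.1 ν.2.2.2.2.1 = 0 ∧ ν.2.2.2.2.1 ≠ ν.2.2.1 ∧ ν.2.2.2.1 = 2 ∧
        X ν.2.2.1 = X ν.2.2.2.2.1 + ν.2.2.2.2.2) ∨
      (ν.2.1 ν.2.2.1 = 0 ∧ ν.2.1 ν.2.2.2.2.1 = 0 ∧ ν.2.2.2.2.1 ≠ ν.2.2.1 ∧ ν.2.2.2.1 = 3 ∧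
        X ν.2.2.1 + ν.2.2.2.2.2 = X ν.2.2.2.2.1))

/-- The relation of a step between memory words (`v` is the word of pairs of letters). -/
def RStepS (β : ℕ) (ν ν' : NdS A) (s : Fin (D + 1) → Sym Λ) (z : Fin (D + 1) → Fin (D + 1) → Bool)
    (m : Fin (D + 1) → Dir) (v : List ((Fin D → Fin β) × (Fin D → Fin β))) : Prop :=
  ∃ X X' : Fin (D + 1) → ℕ, DecS A β ν (v.map Prod.fst) X ∧ DecS A β ν' (v.map Prod.snd) X' ∧
    1 ≤ v.length ∧ ∃ t ∈ A.δ ν.1 (fun i => lsym (β ^ v.length) (s i) (pv (β ^ v.length) (ν.2.1 i) (X i)))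
        (fun i j => decide (z i j = true ∧
          pv (β ^ v.length) (ν.2.1 i) (X i) = pv (β ^ v.length) (ν.2.1 j) (X j))),
      ν'.1 = t.1 ∧ ∀ i, (m i, pv (β ^ v.length) (ν'.2.1 i) (X' i)) =
        lmv (β ^ v.length) (s i) (pv (β ^ v.length) (ν.2.1 i) (X i)) (t.2 i)

/-- The relation of a piece between memory words. -/
def RPieceS (β m₀ : ℕ) (ν ν' : NdS A) (v : List ((Fin D → Fin β) × (Fin D → Fin β))) : Prop :=
  (∀ i, ν.2.1 i = 0) ∧ (∀ i, ν'.2.1 i = 0) ∧
    ∃ X X' : Fin (D + 1) → ℕ, DecS A β ν (v.map Prod.fst) X ∧ DecS A β ν' (v.map Prod.snd) X' ∧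
      ∃ o : Fin (D + 1) → Fin (D + 1) → Prop, (∀ i j, i ≠ j → o i j ∨ o j i) ∧
        PieceS (BlS A) (Nat.card A.Q) (β ^ v.length) (2 * Nat.card A.Q + 1) m₀ o
          (ν.1, fun i => (X i : ℤ)) (ν'.1, fun i => (X' i : ℤ))

/-- The link system. -/
noncomputable def lowSysS (β m₀ : ℕ) (hβ : 0 < β) [Finite Λ]
    (h1 : ∀ ν ν' s z m, Rec (RStepS A β ν ν' s z m)) (h2 : ∀ ν ν', Rec (RPieceS A β m₀ ν ν')) :
    LSysS Λ (D + 1) (Fin D → Fin β) where
  N := NdS A
  H := (NdS A × NdS A) × (((Fin (D + 1) → Sym Λ) × (Fin (D + 1) → Fin (D + 1) → Bool)) ×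
    (Fin (D + 1) → Dir)) × Bool
  finN := by
    have := A.finQ
    infer_instance
  finH := by
    have := A.finQ
    have h3 : Finite Dir := Finite.of_surjective
      (fun i : Fin 3 => if i = 0 then Dir.L else if i = 1 then Dir.S else Dir.R)
      (by rintro (_ | _ | _); exacts [⟨0, rfl⟩, ⟨1, rfl⟩, ⟨2, rfl⟩])
    have h4 : Finite (Sym Λ) := Finite.of_surjective
      (fun i : Option (Option Λ) => match i with
        | none => Sym.left
        | some none => Sym.right
        | some (some a) => Sym.letter a)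
      (by rintro (_ | a | _); exacts [⟨none, rfl⟩, ⟨some (some a), rfl⟩, ⟨some none, rfl⟩])
    infer_instance
  start := (A.start, fun _ => 1, 0, 0, 0, 0)
  accept := {ν | ν.1 ∈ A.accept}
  blank := fun _ => ⟨0, hβ⟩
  src := fun h => h.1.1
  tgt := fun h => h.1.2
  rd := fun h => {s | s = h.2.1.1}
  mv := fun h => h.2.1.2
  rel := fun h v => if h.2.2 then RStepS A β h.1.1 h.1.2 h.2.1.1.1 h.2.1.1.2 h.2.1.2 v
    else RPieceS A β m₀ h.1.1 h.1.2 v ∧ ∀ i, h.2.1.2 i = Dir.S
  hrel := by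
    intro h
    by_cases h3 : h.2.2
    · simpa [h3] using h1 h.1.1 h.1.2 h.2.1.1.1 h.2.1.1.2 h.2.1.2
    · by_cases h4 : ∀ i, h.2.1.2 i = Dir.S
      · simpa [h3, h4] using h2 h.1.1 h.1.2
      · refine ⟨Unit, inferInstance, (), ∅, fun _ _ => ∅, fun v => ?_⟩
        simp [h3, h4]

end Low

/-- LWRS: the relations of the link system are recognisable. Proof: as `LWR` (finite disjunction over
the `2 ^ ((D + 1) ^ 2)` relations `o`). -/
def LWRS_Stmt : Prop := AUL_Stmt → AUC_Stmt → AUF_Stmt →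
  (∀ (β : ℕ), 2 ≤ β → ∀ (V : Type) [Finite V] (D : ℕ) (E : V → V → (Fin D → ℤ) → Prop), Unit1 E →
    ∀ (N m : ℕ) (o : Fin D → Fin D → Prop) (v v' : V), Au β (Fin D ⊕ Fin D) (fun L X =>
      PieceS E N (β ^ L) (2 * N + 1) m o (v, fun i => (X (Sum.inl i) : ℤ))
        (v', fun i => (X (Sum.inr i) : ℤ)))) →
  (∀ (β : ℕ), 2 ≤ β → ∀ (Λ : Type) [Finite Λ] (D : ℕ) (A : SFA (Option (Sym Λ)) D) (q q' : A.Q)
    (f f' : Fin D → Fin 3) (s : Fin D → Sym Λ) (z : Fin D → Fin D → Bool) (m : Fin D → Dir),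
    Au β (Fin D ⊕ Fin D) (fun L X => 1 ≤ L ∧
      ∃ t ∈ A.δ q (fun i => lsym (β ^ L) (s i) (pv (β ^ L) (f i) (X (Sum.inl i))))
          (fun i j => decide (z i j = true ∧
            pv (β ^ L) (f i) (X (Sum.inl i)) = pv (β ^ L) (f j) (X (Sum.inl j)))), q' = t.1 ∧
        ∀ i, (m i, pv (β ^ L) (f' i) (X (Sum.inr i))) =
          lmv (β ^ L) (s i) (pv (β ^ L) (f i) (X (Sum.inl i))) (t.2 i))) →
  ∀ (Λ : Type) [Finite Λ] (D β : ℕ), 2 ≤ β → ∀ (A : SFA (Option (Sym Λ)) (D + 1)),
    (∀ ν ν' s z m, Rec (RStepS A β ν ν' s z m)) ∧ ∀ m₀ ν ν', Rec (RPieceS A β m₀ ν ν')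

/-- LWES: the link system accepts the language.

Proof: as `LWE`, `B = 4N + 1`. A valid configuration with `StorS` in which no offset is `≤ B` or `≥ M - B` has
two heads `i ≠ j` with `|P i - P j| ≤ B`, all flags are `0`: `i₀ = i`, `j₀ = j`, kind `2` if `P i ≥ P j`, kind
`3` otherwise. The matrix of the zones is `z i j = decide (j i = j j)`, sensed by the reading heads. -/
def LWES_Stmt : Prop :=
  ∀ (Λ : Type) [Finite Λ] (D β : ℕ) (hβ : 2 ≤ β) (A : SFA (Option (Sym Λ)) (D + 1)) (m₀ : ℕ)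
    (h1 : ∀ ν ν' s z m, Rec (RStepS A β ν ν' s z m)) (h2 : ∀ ν ν', Rec (RPieceS A β m₀ ν ν')),
    (∀ (M : ℕ), 2 ≤ M → ∀ (x : List Λ),
      (pad M x ∈ A.lang ↔ ∃ c : FCS A, ReflTransGen (LKS A M m₀ x) (A.start, fun _ => 0, fun _ => -1) c ∧
        c.1 ∈ A.accept) ∧
      ∀ c : FCS A, ReflTransGen (LKS A M m₀ x) (A.start, fun _ => 0, fun _ => -1) c →
        ∀ i, VP M (x.length + 1) (c.2.1 i) (c.2.2 i)) →
    (lowSysS A β m₀ (by omega) h1 h2).lang = {x | pad (β ^ (x.length + 1)) x ∈ A.lang}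

/-- LOWS: `LOWERS`. Proof: as `LOW`. -/
def LOWS_Stmt : Prop := ACCS_Stmt → LSYS_Stmt → LWES_Stmt →
  (∀ (Λ : Type) (D : ℕ) (A : SFA (Option (Sym Λ)) (D + 1)),
    (∀ w c, ReflTransGen (A.Step w) (A.start, fun _ => 0) c → c.1 ∈ A.accept → c.2 0 = 0) →
    ∃ m : ℕ, ∀ (M : ℕ), 2 ≤ M → ∀ (x : List Λ),
      (pad M x ∈ A.lang ↔ ∃ c : FCS A, ReflTransGen (LKS A M m x) (A.start, fun _ => 0, fun _ => -1) c ∧
        c.1 ∈ A.accept) ∧
      ∀ c : FCS A, ReflTransGen (LKS A M m x) (A.start, fun _ => 0, fun _ => -1) c →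
        ∀ i, VP M (x.length + 1) (c.2.1 i) (c.2.2 i)) →
  (∀ (Λ : Type) [Finite Λ] (D β : ℕ), 2 ≤ β → ∀ (A : SFA (Option (Sym Λ)) (D + 1)),
    (∀ ν ν' s z m, Rec (RStepS A β ν ν' s z m)) ∧ ∀ m₀ ν ν', Rec (RPieceS A β m₀ ν ν')) →
  LOWERS_Stmt

end Pool.Agent.NPH
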