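import Pool.Agent.NPH.StU

/-!
# Project NPH: addition and order are definable
-/

set_option autoImplicit false

namespace Pool.Agent.NPH

open Pool.Agent.Heads Relation

namespace ADD

/-- the step `(i, u) → (i + 1, u + 1)` -/
def P (Γ : Type) : PP (Γ × (Unit × Unit)) (Empty ⊕ (Fin 2 ⊕ Fin 2)) := fun _ _ v =>
  v (Sum.inr (Sum.inr 0)) = v (Sum.inr (Sum.inl 0)) + 1 ∧
    v (Sum.inr (Sum.inr 1)) = v (Sum.inr (Sum.inl 1)) + 1

theorem dnP (hL : LCL_Stmt) (hC : Calc) (hD : DC) (hA : ARI_Stmt) (Γ : Type) [Finite Γ] :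
    Dn (P Γ) := by
  have h2 := (hA hL hC hD (Γ × (Unit × Unit))).2.1
  have a1 := hD.map (Γ × (Unit × Unit)) (Γ × (Unit × Unit)) (Fin 2)
    (Empty ⊕ (Fin 2 ⊕ Fin 2)) id ![Sum.inr (Sum.inl 0), Sum.inr (Sum.inr 0)] _ h2
  have a2 := hD.map (Γ × (Unit × Unit)) (Γ × (Unit × Unit)) (Fin 2)
    (Empty ⊕ (Fin 2 ⊕ Fin 2)) id ![Sum.inr (Sum.inl 1), Sum.inr (Sum.inr 1)] _ h2
  refine Dn.congr (hD.and _ _ _ _ a1 a2) ?_
  intro n a v _
  exact Iff.rfl

/-- the invariant of the chains -/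
theorem inv {Γ : Type} (n : ℕ) (a : Fin (n + 1) → Γ) (w : Empty → ℕ)
    (c c' : (Fin (n + 1) → Unit) × (Fin 2 → ℕ))
    (h : ReflTransGen (StepOf (P Γ) n a w) c c') : c'.2 1 + c.2 0 = c.2 1 + c'.2 0 := by
  induction h with
  | refl => omega
  | tail _ hs ih =>
    obtain ⟨-, -, h1, h2⟩ := hs
    simp only [Sum.elim_inr, Sum.elim_inl] at h1 h2
    omega

/-- the chains -/
theorem chain {Γ : Type} (n : ℕ) (a : Fin (n + 1) → Γ) (w : Empty → ℕ)
    (b : Fin (n + 1) → Unit) (x : ℕ) : ∀ i : ℕ, x + i ≤ n + 1 →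
    ReflTransGen (StepOf (P Γ) n a w) (b, ![0, x]) (b, ![i, x + i]) := by
  intro i
  induction i with
  | zero => intro _; exact ReflTransGen.refl
  | succ i ih =>
    intro hi
    refine ReflTransGen.tail (ih (by omega)) ⟨?_, ?_, ?_⟩
    · intro j
      fin_cases j
      · change i ≤ n + 1
        omega
      · change x + i ≤ n + 1
        omega
    · intro j
      fin_cases j
      · change i + 1 ≤ n + 1
        omega
      · change x + (i + 1) ≤ n + 1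
        omega
    · exact ⟨rfl, rfl⟩

theorem add (hL : LCL_Stmt) (hC : Calc) (hD : DC) (hA : ARI_Stmt) (Γ : Type) [Finite Γ] :
    Dn (fun (n : ℕ) (_ : Fin (n + 1) → Γ) (v : Fin 3 → ℕ) => v 0 + v 1 = v 2) := by
  have hT := hD.tc Γ Unit Empty (Fin 2) (P Γ) (dnP hL hC hD hA Γ)
  have hM := hD.map (Γ × (Unit × Unit)) Γ (Empty ⊕ (Fin 2 ⊕ Fin 2)) (Fin 3 ⊕ Fin 1)
    (fun x => (x, ((), ())))
    (Sum.elim Empty.elim (Sum.elim ![Sum.inr 0, Sum.inl 0] ![Sum.inl 1, Sum.inl 2])) _ hT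
  have hZ := hD.map Γ Γ (Fin 1) (Fin 3 ⊕ Fin 1) id (fun _ => Sum.inr 0) _
    ((hA hL hC hD Γ).2.2.1 0)
  have hE := hD.exn Γ (Fin 3) (Fin 1) _ (hD.and _ _ _ _ hM hZ)
  refine Dn.congr hE ?_
  intro n a v hv
  constructor
  · rintro ⟨u, -, h1, h2⟩
    have h3 := inv n _ _ _ _ h1
    simp only [Function.comp, Sum.elim_inr, Sum.elim_inl] at h3
    change u 0 = 0 at h2
    change v 2 + u 0 = v 0 + v 1 at h3
    omega
  · intro h
    refine ⟨fun _ => 0, fun _ => Nat.zero_le _, ?_, rfl⟩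
    have h1 := chain n a
      ((Sum.elim v (fun _ : Fin 1 => 0) ∘ (Sum.elim Empty.elim
        (Sum.elim ![Sum.inr 0, Sum.inl 0] ![Sum.inl 1, Sum.inl 2]) :
          Empty ⊕ (Fin 2 ⊕ Fin 2) → Fin 3 ⊕ Fin 1)) ∘ Sum.inl)
      (fun _ => ()) (v 0) (v 1) (by have := hv 2; omega)
    have h2 : ∀ s e : Fin 2 → ℕ, s = ![0, v 0] → e = ![v 1, v 0 + v 1] →
        ReflTransGen (StepOf (P Γ) n a
          ((Sum.elim v (fun _ : Fin 1 => 0) ∘ (Sum.elim Empty.elim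
            (Sum.elim ![Sum.inr 0, Sum.inl 0] ![Sum.inl 1, Sum.inl 2]) :
              Empty ⊕ (Fin 2 ⊕ Fin 2) → Fin 3 ⊕ Fin 1)) ∘ Sum.inl))
          (fun _ => (), s) (fun _ => (), e) := by
      rintro _ _ rfl rfl
      exact h1
    refine h2 _ _ ?_ ?_
    · funext j
      fin_cases j <;> rfl
    · funext j
      fin_cases j
      · rfl
      · exact h.symm

end ADD

theorem t_ADD : ADD_Stmt := by
  intro hL hC hD hA Γ _
  refine ⟨ADD.add hL hC hD hA Γ, ?_⟩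
  have h1 := hD.map Γ Γ (Fin 3) (Fin 2 ⊕ Fin 2) id ![Sum.inl 0, Sum.inr 0, Sum.inr 1] _
    (ADD.add hL hC hD hA Γ)
  have h2 := hD.map Γ Γ (Fin 2) (Fin 2 ⊕ Fin 2) id ![Sum.inr 1, Sum.inl 1] _
    (hA hL hC hD Γ).2.1
  refine Dn.congr (hD.exn Γ (Fin 2) (Fin 2) _ (hD.and _ _ _ _ h1 h2)) ?_
  intro n a v hv
  constructor
  · rintro ⟨u, -, h3, h4⟩
    change v 0 + u 0 = u 1 at h3
    change v 1 = u 1 + 1 at h4
    omega
  · intro h
    have hv1 := hv 1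
    refine ⟨![v 1 - 1 - v 0, v 1 - 1], ?_, ?_, ?_⟩
    · intro j
      fin_cases j
      · change v 1 - 1 - v 0 ≤ n + 1
        omega
      · change v 1 - 1 ≤ n + 1
        omega
    · change v 0 + (v 1 - 1 - v 0) = v 1 - 1
      omega
    · change v 1 = (v 1 - 1) + 1
      omega

end Pool.Agent.NPH
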