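import Pool.Agent.NPH.StU

/-!
# NPH, ARI: basic predicates on numbers
-/

set_option autoImplicit false

namespace Pool.Agent.NPH

namespace ARI

theorem mk {n : ℕ} {J : Type} (v : J → ℕ) (i : Fin (n + 1)) (j : J) :
    marks v i j = true ↔ v j = i.val + 1 := by
  simp [marks]

theorem mkf {n : ℕ} {J : Type} (v : J → ℕ) (i : Fin (n + 1)) (j : J) :
    marks v i j = false ↔ v j ≠ i.val + 1 := by
  simp [marks]

theorem eqn (h1 : LCL_Stmt) (hC : Calc) (hD : DC) (Γ : Type) [Finite Γ] :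
    Dn (fun (n : ℕ) (_ : Fin (n + 1) → Γ) (v : Fin 2 → ℕ) => v 0 = v 1) := by
  obtain ⟨-, -, l3, -, -, -⟩ := h1
  have h := hD.base Γ (Fin 2) _
    (hC.loc _ _ (l3 (Γ × (Fin 2 → Bool)) {x | x.2 0 = true ↔ x.2 1 = true}))
  refine h.congr fun n a v hv => ⟨fun h => ?_, fun h i => ?_⟩
  · have h0 := hv 0
    have h1 := hv 1
    have key : ∀ i : Fin (n + 1), v 0 = i.val + 1 ↔ v 1 = i.val + 1 := fun i =>
      ((mk v i 0).symm.trans (h i)).trans (mk v i 1)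
    by_cases h2 : v 0 = 0
    · by_cases h3 : v 1 = 0
      · omega
      · have := (key ⟨v 1 - 1, by omega⟩).2 (by simp only; omega)
        simp only at this
        omega
    · have := (key ⟨v 0 - 1, by omega⟩).1 (by simp only; omega)
      simp only at this
      omega
  · show marks v i 0 = true ↔ marks v i 1 = true
    rw [mk, mk, h]

theorem zer (h1 : LCL_Stmt) (hC : Calc) (hD : DC) (Γ : Type) [Finite Γ] :
    Dn (fun (n : ℕ) (_ : Fin (n + 1) → Γ) (v : Fin 1 → ℕ) => v 0 = 0) := by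
  obtain ⟨-, -, l3, -, -, -⟩ := h1
  have h := hD.base Γ (Fin 1) _
    (hC.loc _ _ (l3 (Γ × (Fin 1 → Bool)) {x | x.2 0 = false}))
  refine h.congr fun n a v hv => ⟨fun h => ?_, fun h i => ?_⟩
  · have h0 := hv 0
    by_contra h2
    have := (mkf v (⟨v 0 - 1, by omega⟩ : Fin (n + 1)) 0).1 (h _)
    simp only at this
    omega
  · show marks v i 0 = false
    rw [mkf]
    omega

theorem las (h1 : LCL_Stmt) (hC : Calc) (hD : DC) (Γ : Type) [Finite Γ] :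
    Dn (fun (n : ℕ) (_ : Fin (n + 1) → Γ) (v : Fin 1 → ℕ) => v 0 = n + 1) := by
  obtain ⟨-, -, -, -, l5, -⟩ := h1
  have h := hD.base Γ (Fin 1) _
    (hC.loc _ _ (l5 (Γ × (Fin 1 → Bool)) {x | x.2 0 = true}))
  refine h.congr fun n a v hv => ?_
  show marks v (Fin.last n) 0 = true ↔ _
  rw [mk]
  simp

theorem let_ (h1 : LCL_Stmt) (hC : Calc) (hD : DC) (Γ : Type) [Finite Γ] (X : Set Γ) :
    Dn (fun (n : ℕ) (a : Fin (n + 1) → Γ) (v : Fin 1 → ℕ) =>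
      ∃ i : Fin (n + 1), v 0 = i.val + 1 ∧ a i ∈ X) := by
  obtain ⟨-, -, l3, -, -, -⟩ := h1
  have h := hD.base Γ (Fin 1) _
    (hC.not _ _ (hC.loc _ _ (l3 (Γ × (Fin 1 → Bool)) {x | x.2 0 = true → x.1 ∉ X})))
  refine h.congr fun n a v hv => ?_
  show (¬ ∀ i : Fin (n + 1), marks v i 0 = true → a i ∉ X) ↔ _
  constructor
  · intro h
    by_contra h'
    refine h fun i h2 h3 => h' ⟨i, (mk v i 0).1 h2, h3⟩
  · rintro ⟨i, h2, h3⟩ h4
    exact h4 i ((mk v i 0).2 h2) h3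

theorem wor (hC : Calc) (hD : DC) (Γ : Type) (J : Type) [Finite J] (P : WP Γ) (h : Cc P) :
    Dn (fun (n : ℕ) (a : Fin (n + 1) → Γ) (_ : J → ℕ) => P n a) :=
  hD.base Γ J _ (hC.map Γ (Γ × (J → Bool)) Prod.fst P h)

theorem suc (h1 : LCL_Stmt) (hC : Calc) (hD : DC) (Γ : Type) [Finite Γ] :
    Dn (fun (n : ℕ) (_ : Fin (n + 1) → Γ) (v : Fin 2 → ℕ) => v 1 = v 0 + 1) := by
  obtain ⟨-, -, l3, l4, l5, l6⟩ := h1
  have c0 := hC.loc _ _ (l3 (Γ × (Fin 2 → Bool)) {x | x.2 0 = false})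
  have c1 := hC.loc _ _ (l4 (Γ × (Fin 2 → Bool)) {x | x.2 1 = true})
  have c2 := hC.loc _ _ (l4 (Γ × (Fin 2 → Bool)) {x | x.2 1 = false})
  have c3 := hC.loc _ _ (l5 (Γ × (Fin 2 → Bool)) {x | x.2 0 = false})
  have c4 := hC.loc _ _ (l6 (Γ × (Fin 2 → Bool)) {x | x.1.2 0 = true ↔ x.2.2 1 = true})
  have h := hD.base Γ (Fin 2) _
    (hC.or _ _ _ (hC.and _ _ _ c0 c1) (hC.and _ _ _ (hC.not _ _ c0) (hC.and _ _ _ c2
      (hC.and _ _ _ c3 c4))))
  refine h.congr fun n a v hv => ?_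
  show (((∀ i : Fin (n + 1), marks v i 0 = false) ∧ marks v (0 : Fin (n + 1)) 1 = true) ∨
    ((¬ ∀ i : Fin (n + 1), marks v i 0 = false) ∧ marks v (0 : Fin (n + 1)) 1 = false ∧
      marks v (Fin.last n) 0 = false ∧ ∀ i : Fin n,
        (marks v i.castSucc 0 = true ↔ marks v i.succ 1 = true))) ↔ _
  simp only [mk, mkf, Fin.val_zero, Fin.val_last, Fin.val_castSucc, Fin.val_succ]
  have h0 := hv 0
  have h1 := hv 1
  constructor
  · rintro (⟨h2, h3⟩ | ⟨h2, h3, h4, h5⟩)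
    · have h6 : v 0 = 0 := by
        by_contra h7
        exact h2 ⟨v 0 - 1, by omega⟩ (by simp only; omega)
      omega
    · have h6 : v 0 ≠ 0 := fun h7 => h2 fun i => by omega
      have := (h5 ⟨v 0 - 1, by omega⟩).1 (by simp only; omega)
      simp only at this
      omega
  · intro h2
    by_cases h3 : v 0 = 0
    · exact Or.inl ⟨fun i => by omega, by omega⟩
    · refine Or.inr ⟨fun h4 => h4 ⟨v 0 - 1, by omega⟩ (by simp only; omega), by omega, by omega,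
        fun i => by omega⟩

theorem cst (h1 : LCL_Stmt) (hC : Calc) (hD : DC) (Γ : Type) [Finite Γ] (c : ℕ) :
    Dn (fun (n : ℕ) (_ : Fin (n + 1) → Γ) (v : Fin 1 → ℕ) => v 0 = c) := by
  induction c with
  | zero => exact zer h1 hC hD Γ
  | succ c ih =>
    have a1 := hD.map Γ Γ (Fin 1) (Fin 1 ⊕ Fin 1) id (fun _ => Sum.inr 0) _ ih
    have a2 := hD.map Γ Γ (Fin 2) (Fin 1 ⊕ Fin 1) id ![Sum.inr 0, Sum.inl 0] _ (suc h1 hC hD Γ)
    have a3 := hD.exn Γ (Fin 1) (Fin 1) _ (hD.and _ _ _ _ a1 a2)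
    refine a3.congr fun n a v hv => ?_
    show (∃ u : Fin 1 → ℕ, (∀ j, u j ≤ n + 1) ∧ u 0 = c ∧ v 0 = u 0 + 1) ↔ _
    constructor
    · rintro ⟨u, -, h2, h3⟩
      omega
    · intro h2
      have h3 := hv 0
      have h4 : c ≤ n + 1 := by omega
      exact ⟨fun _ => c, fun _ => h4, rfl, h2⟩

end ARI

open ARI in
/-- ARI -/
theorem t_ARI : ARI_Stmt := fun h1 hC hD Γ _ =>
  ⟨eqn h1 hC hD Γ, suc h1 hC hD Γ, cst h1 hC hD Γ, las h1 hC hD Γ, let_ h1 hC hD Γ,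
    fun J _ P h => wor hC hD Γ J P h⟩

end Pool.Agent.NPH
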