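import Pool.Agent.NPH.StB

/-!
# Linear equations are checked digit by digit

The states of the automaton are the carries.
-/

set_option autoImplicit false

namespace Pool.Agent.NPH

namespace AULx

variable {ι : Type}

lemma dval_nil (β : ℕ) (i : ι) : dval β ([] : List (ι → Fin β)) i = 0 := rfl

lemma dval_cons (β : ℕ) (d : ι → Fin β) (u : List (ι → Fin β)) (i : ι) :
    dval β (d :: u) i = (d i : ℕ) + β * dval β u i := by
  unfold dval
  rw [List.map_cons, Nat.ofDigits_cons]

/-- The transitions of the carries. -/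
def dl [Fintype ι] (β : ℕ) (a : ι → ℤ) (C : ℤ) (c : Set.Icc (-C) C) (d : ι → Fin β) :
    Set (Set.Icc (-C) C) :=
  {c' | (c : ℤ) + ∑ i, a i * ((d i : ℕ) : ℤ) = β * (c' : ℤ)}

lemma main [Fintype ι] (β : ℕ) (hβ : 2 ≤ β) (a : ι → ℤ) (C : ℤ) (hC : β * ∑ i, |a i| ≤ C)
    (h : Set.Icc (-C) C) (v : List (ι → Fin β)) : ∀ c : Set.Icc (-C) C,
    (∑ i, a i * (dval β v i : ℤ) + (c : ℤ) = (h : ℤ) * (β : ℤ) ^ v.length) ↔
      Runs (dl β a C) c v h := by
  have hβ' : (2 : ℤ) ≤ β := by exact_mod_cast hβ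
  induction v with
  | nil =>
    intro c
    show _ ↔ c = h
    simp only [dval_nil, Nat.cast_zero, mul_zero, Finset.sum_const_zero, zero_add,
      List.length_nil, pow_zero, mul_one]
    exact ⟨fun e => Subtype.ext e, fun e => congrArg Subtype.val e⟩
  | cons d u ih =>
    intro c
    have hsum : ∑ i, a i * (dval β (d :: u) i : ℤ) =
        ∑ i, a i * ((d i : ℕ) : ℤ) + β * ∑ i, a i * (dval β u i : ℤ) := by
      rw [Finset.mul_sum, ← Finset.sum_add_distrib]
      refine Finset.sum_congr rfl fun i _ => ?_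
      rw [dval_cons]
      push_cast
      ring
    rw [hsum, List.length_cons]
    show _ ↔ ∃ p ∈ dl β a C c d, Runs (dl β a C) p u h
    constructor
    · intro e
      set c' : ℤ := (h : ℤ) * (β : ℤ) ^ u.length - ∑ i, a i * (dval β u i : ℤ) with hc'
      have e1 : (c : ℤ) + ∑ i, a i * ((d i : ℕ) : ℤ) = β * c' := by
        rw [hc', mul_sub]
        rw [pow_succ] at e
        linear_combination e
      have hd : |∑ i, a i * ((d i : ℕ) : ℤ)| ≤ β * ∑ i, |a i| := by
        refine (Finset.abs_sum_le_sum_abs _ _).trans ?_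
        rw [Finset.mul_sum]
        refine Finset.sum_le_sum fun i _ => ?_
        rw [abs_mul, mul_comm]
        have h1 : |(((d i : ℕ) : ℤ))| ≤ β := by
          rw [abs_of_nonneg (Nat.cast_nonneg _)]
          exact_mod_cast (d i).2.le
        exact mul_le_mul_of_nonneg_right h1 (abs_nonneg _)
      have hcabs : |(c : ℤ)| ≤ C := abs_le.mpr c.2
      have hC0 : 0 ≤ C := (abs_nonneg _).trans hcabs
      have h2 : β * |c'| ≤ C + C := by
        calc (β : ℤ) * |c'| = |(β : ℤ) * c'| := by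
              rw [abs_mul, abs_of_nonneg (by linarith : (0 : ℤ) ≤ β)]
          _ = |(c : ℤ) + ∑ i, a i * ((d i : ℕ) : ℤ)| := by rw [e1]
          _ ≤ |(c : ℤ)| + |∑ i, a i * ((d i : ℕ) : ℤ)| := abs_add_le _ _
          _ ≤ C + C := by linarith
      have h3 : |c'| ≤ C := by
        by_contra hcon
        have h4 : C + 1 ≤ |c'| := by omega
        nlinarith
      refine ⟨⟨c', abs_le.mp h3⟩, e1, ?_⟩
      rw [← ih]
      show ∑ i, a i * (dval β u i : ℤ) + c' = _
      rw [hc']
      ring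
    · rintro ⟨p, hp, hr⟩
      rw [← ih] at hr
      have hp' : (c : ℤ) + ∑ i, a i * ((d i : ℕ) : ℤ) = β * (p : ℤ) := hp
      rw [pow_succ]
      linear_combination hp' + (β : ℤ) * hr

end AULx

open AULx in
/-- `AUL`: linear equations. -/
theorem t_AUL : AUL_Stmt := by
  intro β hβ ι _ a g h
  set C : ℤ := |g| + |h| + β * ∑ i, |a i| with hC
  have h0 : 0 ≤ (β : ℤ) * ∑ i, |a i| :=
    mul_nonneg (Nat.cast_nonneg _) (Finset.sum_nonneg fun i _ => abs_nonneg _)
  have hg : g ∈ Set.Icc (-C) C := by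
    apply abs_le.mp
    have := abs_nonneg h
    linarith
  have hh : h ∈ Set.Icc (-C) C := by
    apply abs_le.mp
    have := abs_nonneg g
    linarith
  refine ⟨Set.Icc (-C) C, (Set.finite_Icc (-C) C).to_subtype, ⟨g, hg⟩, {⟨h, hh⟩}, dl β a C, ?_⟩
  intro v
  have hCb : β * ∑ i, |a i| ≤ C := by
    have := abs_nonneg g
    have := abs_nonneg h
    linarith
  have key := main β hβ a C hCb ⟨h, hh⟩ v ⟨g, hg⟩
  constructor
  · intro e
    exact ⟨⟨h, hh⟩, Set.mem_singleton _, key.mp e⟩
  · rintro ⟨q, hq, hr⟩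
    rw [Set.mem_singleton_iff] at hq
    subst hq
    exact key.mpr hr

end Pool.Agent.NPH
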