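import Pool.Agent.NPH.StC

/-!
# NPH: closure properties (module CLB, MP_5e85fc_lc, helper54)
-/

set_option autoImplicit false

namespace Pool.Agent.NPH

open Pool.Agent.Heads Relation

namespace CLB

theorem loc_comp {Γ Γ' : Type} (f : Γ' → Γ) {P : WP Γ} (h : Loc P) :
    Loc (fun n a => P n (f ∘ a)) := by
  obtain ⟨A, B, C, h⟩ := h
  exact ⟨f ⁻¹' A, f ⁻¹' B, (Prod.map f f) ⁻¹' C, fun n a => h n (f ∘ a)⟩

theorem loc_and {Γ : Type} {P P' : WP Γ} (h : Loc P) (h' : Loc P') :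
    Loc (fun n a => P n a ∧ P' n a) := by
  obtain ⟨A, B, C, h⟩ := h
  obtain ⟨A', B', C', h'⟩ := h'
  refine ⟨A ∩ A', B ∩ B', C ∩ C', fun n a => ?_⟩
  show (P n a ∧ P' n a) ↔ _
  rw [h, h']
  constructor
  · rintro ⟨⟨a1, a2, a3⟩, ⟨b1, b2, b3⟩⟩
    exact ⟨⟨a1, b1⟩, ⟨a2, b2⟩, fun i => ⟨a3 i, b3 i⟩⟩
  · rintro ⟨⟨a1, b1⟩, ⟨a2, b2⟩, h3⟩
    exact ⟨⟨a1, a2, fun i => (h3 i).1⟩, ⟨b1, b2, fun i => (h3 i).2⟩⟩

theorem loc_all {Γ : Type} (X : Set Γ) :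
    Loc (fun n (a : Fin (n + 1) → Γ) => ∀ i, a i ∈ X) := by
  refine ⟨X, X, X ×ˢ X, fun n a => ?_⟩
  constructor
  · intro h
    exact ⟨h _, h _, fun i => ⟨h _, h _⟩⟩
  · rintro ⟨h1, -, h3⟩ i
    induction i using Fin.cases with
    | zero => exact h1
    | succ j => exact (h3 j).2

theorem loc_true {Γ : Type} : Loc (fun n (_ : Fin (n + 1) → Γ) => True) :=
  ⟨Set.univ, Set.univ, Set.univ, fun _ _ =>
    ⟨fun _ => ⟨trivial, trivial, fun _ => trivial⟩, fun _ => trivial⟩⟩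

/-- two local predicates, distinguished by the tags of the letters -/
theorem loc_tag {Γ : Type} (τ : Γ → Bool) {P P' : WP Γ} (h : Loc P) (h' : Loc P') :
    Loc (fun n a => ((∀ i, τ (a i) = false) ∧ P n a) ∨ ((∀ i, τ (a i) = true) ∧ P' n a)) := by
  obtain ⟨A, B, C, h⟩ := h
  obtain ⟨A', B', C', h'⟩ := h'
  refine ⟨{g | (τ g = false ∧ g ∈ A) ∨ (τ g = true ∧ g ∈ A')},
    {g | (τ g = false ∧ g ∈ B) ∨ (τ g = true ∧ g ∈ B')},
    {g | (τ g.1 = false ∧ τ g.2 = false ∧ g ∈ C) ∨ (τ g.1 = true ∧ τ g.2 = true ∧ g ∈ C')},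
    fun n a => ?_⟩
  constructor
  · rintro (⟨h1, h2⟩ | ⟨h1, h2⟩)
    · obtain ⟨a1, a2, a3⟩ := (h n a).1 h2
      exact ⟨Or.inl ⟨h1 _, a1⟩, Or.inl ⟨h1 _, a2⟩, fun i => Or.inl ⟨h1 _, h1 _, a3 i⟩⟩
    · obtain ⟨a1, a2, a3⟩ := (h' n a).1 h2
      exact ⟨Or.inr ⟨h1 _, a1⟩, Or.inr ⟨h1 _, a2⟩, fun i => Or.inr ⟨h1 _, h1 _, a3 i⟩⟩
  · rintro ⟨h1, h2, h3⟩
    have ne : ∀ g, τ g = false → τ g = true → False := by
      intro g e1 e2
      rw [e1] at e2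
      exact Bool.noConfusion e2
    rcases h1 with ⟨t0, a1⟩ | ⟨t0, a1⟩
    · left
      have ht : ∀ i, τ (a i) = false := by
        intro i
        induction i using Fin.induction with
        | zero => exact t0
        | succ i ih =>
          rcases h3 i with ⟨-, e, -⟩ | ⟨e, -, -⟩
          · exact e
          · exact (ne _ ih e).elim
      refine ⟨ht, (h n a).2 ⟨a1, ?_, fun i => ?_⟩⟩
      · rcases h2 with ⟨-, e⟩ | ⟨e, -⟩
        · exact e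
        · exact (ne _ (ht _) e).elim
      · rcases h3 i with ⟨-, -, e⟩ | ⟨e, -, -⟩
        · exact e
        · exact (ne _ (ht _) e).elim
    · right
      have ht : ∀ i, τ (a i) = true := by
        intro i
        induction i using Fin.induction with
        | zero => exact t0
        | succ i ih =>
          rcases h3 i with ⟨e, -, -⟩ | ⟨-, e, -⟩
          · exact (ne _ e ih).elim
          · exact e
      refine ⟨ht, (h' n a).2 ⟨a1, ?_, fun i => ?_⟩⟩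
      · rcases h2 with ⟨e, -⟩ | ⟨-, e⟩
        · exact (ne _ e (ht _)).elim
        · exact e
      · rcases h3 i with ⟨e, -, -⟩ | ⟨-, -, e⟩
        · exact (ne _ e (ht _)).elim
        · exact e

theorem cc_loc {Γ : Type} {P : WP Γ} (h : Loc P) : Cc P := by
  refine ⟨Unit, inferInstance, fun n w => P n (Prod.fst ∘ w), fun _ _ => True, fun _ _ => True,
    loc_comp _ h, loc_true, loc_true, fun n a => ?_⟩
  constructor
  · intro h1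
    exact ⟨fun _ => (), fun _ => (), h1, ReflTransGen.refl, trivial⟩
  · rintro ⟨b, c, h1, -, -⟩
    exact h1

theorem cc_map {Γ Γ' : Type} (f : Γ' → Γ) {P : WP Γ} (h : Cc P) :
    Cc (fun n a => P n (f ∘ a)) := by
  obtain ⟨Δ, hΔ, I, R, F, hI, hR, hF, h⟩ := h
  exact ⟨Δ, hΔ, fun n w => I n ((Prod.map f id) ∘ w), R, F, loc_comp _ hI, hR, hF,
    fun n a => h n (f ∘ a)⟩

theorem lift {α β : Type} {r : α → α → Prop} {p : β → β → Prop} (f : α → β)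
    (h : ∀ a b, r a b → p (f a) (f b)) {a b : α} (hab : ReflTransGen r a b) :
    ReflTransGen p (f a) (f b) := by
  induction hab with
  | refl => exact ReflTransGen.refl
  | tail _ h1 ih => exact ih.tail (h _ _ h1)

theorem cc_ex {Γ Γ' : Type} [Finite Γ'] {P : WP (Γ × Γ')} (h : Cc P) :
    Cc (fun n a => ∃ b : Fin (n + 1) → Γ', P n (zp a b)) := by
  obtain ⟨Δ, hΔ, I, R, F, hI, hR, hF, h⟩ := h
  refine ⟨Γ' × Δ, inferInstance,
    fun n w => I n ((fun y : Γ × (Γ' × Δ) => ((y.1, y.2.1), y.2.2)) ∘ w),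
    fun n w => R n ((fun y : (Γ' × Δ) × (Γ' × Δ) => (y.1.2, y.2.2)) ∘ w),
    fun n c => F n (Prod.snd ∘ c), loc_comp _ hI, loc_comp _ hR, loc_comp _ hF, fun n a => ?_⟩
  constructor
  · rintro ⟨b, hb⟩
    obtain ⟨d, e, h1, h2, h3⟩ := (h n (zp a b)).1 hb
    refine ⟨zp b d, zp b e, h1, ?_, h3⟩
    exact lift (fun u : Fin (n + 1) → Δ => zp b u) (fun u v huv => huv) h2
  · rintro ⟨b', c', h1, h2, h3⟩
    refine ⟨Prod.fst ∘ b', (h n _).2 ⟨Prod.snd ∘ b', Prod.snd ∘ c', h1, ?_, h3⟩⟩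
    exact lift (fun u : Fin (n + 1) → Γ' × Δ => Prod.snd ∘ u) (fun u v huv => huv) h2

section And

variable {Δ₁ Δ₂ : Type}

/-- three words as one word -/
def mk {n : ℕ} (u : Fin (n + 1) → Δ₁) (v : Fin (n + 1) → Δ₂) (t : Fin (n + 1) → Bool) :
    Fin (n + 1) → Δ₁ × (Δ₂ × Bool) := fun i => (u i, (v i, t i))

/-- the steps of the product -/
def St (R₁ : WP (Δ₁ × Δ₁)) (R₂ : WP (Δ₂ × Δ₂)) :
    WP ((Δ₁ × (Δ₂ × Bool)) × (Δ₁ × (Δ₂ × Bool))) := fun n w =>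
  ((∀ i, (w i).2.2.2 = false) ∧
      (R₁ n ((fun y : (Δ₁ × (Δ₂ × Bool)) × (Δ₁ × (Δ₂ × Bool)) => (y.1.1, y.2.1)) ∘ w) ∧
        ∀ i, w i ∈ {y : (Δ₁ × (Δ₂ × Bool)) × (Δ₁ × (Δ₂ × Bool)) | y.1.2.1 = y.2.2.1})) ∨
  ((∀ i, (w i).2.2.2 = true) ∧
      (R₂ n ((fun y : (Δ₁ × (Δ₂ × Bool)) × (Δ₁ × (Δ₂ × Bool)) => (y.1.2.1, y.2.2.1)) ∘ w) ∧
        ∀ i, w i ∈ {y : (Δ₁ × (Δ₂ × Bool)) × (Δ₁ × (Δ₂ × Bool)) | y.1.1 = y.2.1}))

theorem loc_St {R₁ : WP (Δ₁ × Δ₁)} {R₂ : WP (Δ₂ × Δ₂)} (h₁ : Loc R₁) (h₂ : Loc R₂) :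
    Loc (St R₁ R₂) :=
  loc_tag (fun y : (Δ₁ × (Δ₂ × Bool)) × (Δ₁ × (Δ₂ × Bool)) => y.2.2.2)
    (loc_and (loc_comp _ h₁) (loc_all _)) (loc_and (loc_comp _ h₂) (loc_all _))

theorem chain1 {R₁ : WP (Δ₁ × Δ₁)} {R₂ : WP (Δ₂ × Δ₂)} {n : ℕ} {b c : Fin (n + 1) → Δ₁}
    (h : ReflTransGen (fun u v => R₁ n (zp u v)) b c) (d : Fin (n + 1) → Δ₂)
    (t : Fin (n + 1) → Bool) :
    ∃ t', ReflTransGen (fun u v => St R₁ R₂ n (zp u v)) (mk b d t) (mk c d t') := by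
  induction h with
  | refl => exact ⟨t, ReflTransGen.refl⟩
  | tail _ h ih =>
    obtain ⟨t', ht'⟩ := ih
    refine ⟨fun _ => false, ht'.tail ?_⟩
    exact Or.inl ⟨fun _ => rfl, h, fun _ => rfl⟩

theorem chain2 {R₁ : WP (Δ₁ × Δ₁)} {R₂ : WP (Δ₂ × Δ₂)} {n : ℕ} {b c : Fin (n + 1) → Δ₂}
    (h : ReflTransGen (fun u v => R₂ n (zp u v)) b c) (d : Fin (n + 1) → Δ₁)
    (t : Fin (n + 1) → Bool) :
    ∃ t', ReflTransGen (fun u v => St R₁ R₂ n (zp u v)) (mk d b t) (mk d c t') := by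
  induction h with
  | refl => exact ⟨t, ReflTransGen.refl⟩
  | tail _ h ih =>
    obtain ⟨t', ht'⟩ := ih
    refine ⟨fun _ => true, ht'.tail ?_⟩
    exact Or.inr ⟨fun _ => rfl, h, fun _ => rfl⟩

theorem proj {R₁ : WP (Δ₁ × Δ₁)} {R₂ : WP (Δ₂ × Δ₂)} {n : ℕ}
    {b c : Fin (n + 1) → Δ₁ × (Δ₂ × Bool)}
    (h : ReflTransGen (fun u v => St R₁ R₂ n (zp u v)) b c) :
    ReflTransGen (fun u v => R₁ n (zp u v)) (fun i => (b i).1) (fun i => (c i).1) ∧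
      ReflTransGen (fun u v => R₂ n (zp u v)) (fun i => (b i).2.1) (fun i => (c i).2.1) := by
  induction h with
  | refl => exact ⟨ReflTransGen.refl, ReflTransGen.refl⟩
  | @tail u v _ h ih =>
    rcases h with ⟨-, h1, h2⟩ | ⟨-, h1, h2⟩
    · refine ⟨ih.1.tail h1, ?_⟩
      have e : (fun i => (v i).2.1) = fun i => (u i).2.1 := funext fun i => (h2 i).symm
      rw [e]
      exact ih.2
    · refine ⟨?_, ih.2.tail h1⟩
      have e : (fun i => (v i).1) = fun i => (u i).1 := funext fun i => (h2 i).symm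
      rw [e]
      exact ih.1

end And

theorem cc_and {Γ : Type} {P P' : WP Γ} (h : Cc P) (h' : Cc P') :
    Cc (fun n a => P n a ∧ P' n a) := by
  obtain ⟨Δ, hΔ, I, R, F, hI, hR, hF, h⟩ := h
  obtain ⟨Δ', hΔ', I', R', F', hI', hR', hF', h'⟩ := h'
  refine ⟨Δ × (Δ' × Bool), inferInstance,
    fun n w => I n ((fun y : Γ × (Δ × (Δ' × Bool)) => (y.1, y.2.1)) ∘ w) ∧
      I' n ((fun y : Γ × (Δ × (Δ' × Bool)) => (y.1, y.2.2.1)) ∘ w),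
    St R R',
    fun n c => F n ((fun y : Δ × (Δ' × Bool) => y.1) ∘ c) ∧
      F' n ((fun y : Δ × (Δ' × Bool) => y.2.1) ∘ c),
    loc_and (loc_comp _ hI) (loc_comp _ hI'), loc_St hR hR',
    loc_and (loc_comp _ hF) (loc_comp _ hF'), fun n a => ?_⟩
  constructor
  · rintro ⟨p, p'⟩
    obtain ⟨b, c, h1, h2, h3⟩ := (h n a).1 p
    obtain ⟨b', c', h1', h2', h3'⟩ := (h' n a).1 p'
    obtain ⟨t, ht⟩ := chain1 (R₂ := R') h2 b' (fun _ => false)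
    obtain ⟨t', ht'⟩ := chain2 (R₁ := R) h2' c t
    exact ⟨mk b b' fun _ => false, mk c c' t', ⟨h1, h1'⟩, ht.trans ht', h3, h3'⟩
  · rintro ⟨b, c, ⟨h1, h1'⟩, h2, h3, h3'⟩
    obtain ⟨k1, k2⟩ := proj h2
    exact ⟨(h n a).2 ⟨_, _, h1, k1, h3⟩, (h' n a).2 ⟨_, _, h1', k2, h3'⟩⟩

end CLB

theorem t_CLB : CLB_Stmt :=
  ⟨fun _ _ h => CLB.cc_loc h, fun _ _ f _ h => CLB.cc_map f h,
    fun _ _ _ h h' => CLB.cc_and h h', fun _ _ _ _ h => CLB.cc_ex h⟩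

end Pool.Agent.NPH
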