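import Pool.Agent.NPH.StC

/-!
# Project NPH, module CLO: disjunction
-/

set_option autoImplicit false

namespace Pool.Agent.NPH

open Pool.Agent.Heads Relation

namespace CLOx

/-- a word of the first kind with `P₁`, or a word of the second kind with `P₂` -/
def Qs {Γ₁ Γ₂ Γ : Type} (f₁ : Γ₁ → Γ) (f₂ : Γ₂ → Γ) (P₁ : WP Γ₁) (P₂ : WP Γ₂) : WP Γ :=
  fun n a => (∃ a₁ : Fin (n + 1) → Γ₁, a = f₁ ∘ a₁ ∧ P₁ n a₁) ∨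
    ∃ a₂ : Fin (n + 1) → Γ₂, a = f₂ ∘ a₂ ∧ P₂ n a₂

theorem Qs_comm {Γ₁ Γ₂ Γ : Type} (f₁ : Γ₁ → Γ) (f₂ : Γ₂ → Γ) (P₁ : WP Γ₁) (P₂ : WP Γ₂) (n : ℕ)
    (a : Fin (n + 1) → Γ) : Qs f₁ f₂ P₁ P₂ n a ↔ Qs f₂ f₁ P₂ P₁ n a := Or.comm

section

variable {Γ₁ Γ₂ Γ : Type} (f₁ : Γ₁ → Γ) (f₂ : Γ₂ → Γ)

theorem half (h₁ : Function.Injective f₁) (hd : ∀ x y, f₁ x ≠ f₂ y)
    (A₁ B₁ : Set Γ₁) (C₁ : Set (Γ₁ × Γ₁)) (B₂ : Set Γ₂) (C₂ : Set (Γ₂ × Γ₂)) (n : ℕ)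
    (a : Fin (n + 1) → Γ) (h0 : a 0 ∈ f₁ '' A₁) (hl : a (Fin.last n) ∈ f₁ '' B₁ ∪ f₂ '' B₂)
    (hC : ∀ i : Fin n, (a i.castSucc, a i.succ) ∈ Prod.map f₁ f₁ '' C₁ ∪ Prod.map f₂ f₂ '' C₂) :
    ∃ a₁ : Fin (n + 1) → Γ₁, a = f₁ ∘ a₁ ∧ a₁ 0 ∈ A₁ ∧ a₁ (Fin.last n) ∈ B₁ ∧
      ∀ i : Fin n, (a₁ i.castSucc, a₁ i.succ) ∈ C₁ := by
  have hall : ∀ i : Fin (n + 1), ∃ x, a i = f₁ x := by
    intro i
    induction i using Fin.induction with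
    | zero =>
      obtain ⟨x, -, hx⟩ := h0
      exact ⟨x, hx.symm⟩
    | succ i ih =>
      obtain ⟨x, hx⟩ := ih
      rcases hC i with ⟨⟨y, z⟩, -, h⟩ | ⟨⟨y, z⟩, -, h⟩
      · exact ⟨z, (congrArg Prod.snd h).symm⟩
      · exact absurd (hx.symm.trans (congrArg Prod.fst h).symm) (hd x y)
  choose a₁ ha using hall
  refine ⟨a₁, funext ha, ?_, ?_, fun i => ?_⟩
  · obtain ⟨x, hx, h⟩ := h0
    rw [ha 0] at h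
    rwa [← h₁ h]
  · rcases hl with ⟨x, hx, h⟩ | ⟨x, hx, h⟩
    · rw [ha (Fin.last n)] at h
      rwa [← h₁ h]
    · rw [ha (Fin.last n)] at h
      exact absurd h.symm (hd _ _)
  · rcases hC i with ⟨⟨y, z⟩, hyz, h⟩ | ⟨⟨y, z⟩, -, h⟩
    · have e1 : f₁ y = a i.castSucc := congrArg Prod.fst h
      have e2 : f₁ z = a i.succ := congrArg Prod.snd h
      rw [ha] at e1 e2
      rwa [← h₁ e1, ← h₁ e2]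
    · have e1 : f₂ y = a i.castSucc := congrArg Prod.fst h
      rw [ha] at e1
      exact absurd e1.symm (hd _ _)

theorem loc (h₁ : Function.Injective f₁) (h₂ : Function.Injective f₂) (hd : ∀ x y, f₁ x ≠ f₂ y)
    (P₁ : WP Γ₁) (P₂ : WP Γ₂) (hP₁ : Loc P₁) (hP₂ : Loc P₂) : Loc (Qs f₁ f₂ P₁ P₂) := by
  obtain ⟨A₁, B₁, C₁, e₁⟩ := hP₁
  obtain ⟨A₂, B₂, C₂, e₂⟩ := hP₂
  refine ⟨f₁ '' A₁ ∪ f₂ '' A₂, f₁ '' B₁ ∪ f₂ '' B₂,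
    Prod.map f₁ f₁ '' C₁ ∪ Prod.map f₂ f₂ '' C₂, fun n a => ⟨?_, ?_⟩⟩
  · rintro (⟨a₁, rfl, h⟩ | ⟨a₂, rfl, h⟩)
    · obtain ⟨h0, hl, hC⟩ := (e₁ n a₁).1 h
      exact ⟨Or.inl ⟨_, h0, rfl⟩, Or.inl ⟨_, hl, rfl⟩, fun i => Or.inl ⟨_, hC i, rfl⟩⟩
    · obtain ⟨h0, hl, hC⟩ := (e₂ n a₂).1 h
      exact ⟨Or.inr ⟨_, h0, rfl⟩, Or.inr ⟨_, hl, rfl⟩, fun i => Or.inr ⟨_, hC i, rfl⟩⟩
  · rintro ⟨h0 | h0, hl, hC⟩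
    · obtain ⟨a₁, ha, h⟩ := half f₁ f₂ h₁ hd A₁ B₁ C₁ B₂ C₂ n a h0 hl hC
      exact Or.inl ⟨a₁, ha, (e₁ n a₁).2 h⟩
    · obtain ⟨a₂, ha, h⟩ := half f₂ f₁ h₂ (fun x y h => hd y x h.symm) A₂ B₂ C₂ B₁ C₁ n a h0
        hl.symm (fun i => (hC i).symm)
      exact Or.inr ⟨a₂, ha, (e₂ n a₂).2 h⟩

end

/-- chains do not change the kind -/
theorem back {Δ₁ Δ : Type} (j : Δ₁ → Δ) (n : ℕ) (R₁ : WP (Δ₁ × Δ₁)) (R : WP (Δ × Δ))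
    (h : ∀ (u₁ : Fin (n + 1) → Δ₁) (v : Fin (n + 1) → Δ), R n (zp (j ∘ u₁) v) →
      ∃ v₁ : Fin (n + 1) → Δ₁, v = j ∘ v₁ ∧ R₁ n (zp u₁ v₁))
    (b₁ : Fin (n + 1) → Δ₁) (c : Fin (n + 1) → Δ)
    (hr : ReflTransGen (fun u v => R n (zp u v)) (j ∘ b₁) c) :
    ∃ c₁ : Fin (n + 1) → Δ₁, c = j ∘ c₁ ∧ ReflTransGen (fun u v => R₁ n (zp u v)) b₁ c₁ := by
  induction hr with
  | refl => exact ⟨b₁, rfl, ReflTransGen.refl⟩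
  | tail _ hs ih =>
    obtain ⟨u₁, rfl, h1⟩ := ih
    obtain ⟨v₁, rfl, h2⟩ := h u₁ _ hs
    exact ⟨v₁, rfl, h1.tail h2⟩

section

variable {Γ Δ₁ Δ₂ Δ : Type} (j₁ : Δ₁ → Δ) (j₂ : Δ₂ → Δ)

/-- one direction -/
theorem fwd (n : ℕ) (a : Fin (n + 1) → Γ) (I₁ : WP (Γ × Δ₁)) (R₁ : WP (Δ₁ × Δ₁)) (F₁ : WP Δ₁)
    (I₂ : WP (Γ × Δ₂)) (R₂ : WP (Δ₂ × Δ₂)) (F₂ : WP Δ₂)
    (h : ∃ b c : Fin (n + 1) → Δ₁, I₁ n (zp a b) ∧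
      ReflTransGen (fun u v => R₁ n (zp u v)) b c ∧ F₁ n c) :
    ∃ b c : Fin (n + 1) → Δ, Qs (Prod.map id j₁) (Prod.map id j₂) I₁ I₂ n (zp a b) ∧
      ReflTransGen (fun u v => Qs (Prod.map j₁ j₁) (Prod.map j₂ j₂) R₁ R₂ n (zp u v)) b c ∧
      Qs j₁ j₂ F₁ F₂ n c := by
  obtain ⟨b, c, hI, hR, hF⟩ := h
  refine ⟨j₁ ∘ b, j₁ ∘ c, Or.inl ⟨zp a b, rfl, hI⟩, ?_, Or.inl ⟨c, rfl, hF⟩⟩
  exact ReflTransGen.lift (r := fun u v => R₁ n (zp u v))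
    (p := fun u v => Qs (Prod.map j₁ j₁) (Prod.map j₂ j₂) R₁ R₂ n (zp u v))
    (fun u : Fin (n + 1) → Δ₁ => j₁ ∘ u)
    (fun u v huv => Or.inl ⟨zp u v, rfl, huv⟩) _ _ hR

/-- the other direction -/
theorem bwd (h₁ : Function.Injective j₁) (hd : ∀ x y, j₁ x ≠ j₂ y) (n : ℕ)
    (a : Fin (n + 1) → Γ) (I₁ : WP (Γ × Δ₁)) (R₁ : WP (Δ₁ × Δ₁)) (F₁ : WP Δ₁)
    (R₂ : WP (Δ₂ × Δ₂)) (F₂ : WP Δ₂) (b c : Fin (n + 1) → Δ)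
    (w : Fin (n + 1) → Γ × Δ₁) (hw : zp a b = Prod.map id j₁ ∘ w) (hI : I₁ n w)
    (hR : ReflTransGen (fun u v => Qs (Prod.map j₁ j₁) (Prod.map j₂ j₂) R₁ R₂ n (zp u v)) b c)
    (hF : Qs j₁ j₂ F₁ F₂ n c) :
    ∃ b c : Fin (n + 1) → Δ₁, I₁ n (zp a b) ∧
      ReflTransGen (fun u v => R₁ n (zp u v)) b c ∧ F₁ n c := by
  obtain ⟨b₁, hb₁⟩ : ∃ b₁ : Fin (n + 1) → Δ₁, b₁ = fun i => (w i).2 := ⟨_, rfl⟩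
  have hb : b = j₁ ∘ b₁ := by
    funext i
    rw [hb₁]
    exact congrArg Prod.snd (congrFun hw i)
  have hwe : w = zp a b₁ := by
    funext i
    have h3 : a i = (w i).1 := congrArg Prod.fst (congrFun hw i)
    rw [hb₁]
    exact Prod.ext h3.symm rfl
  rw [hb] at hR
  obtain ⟨c₁, hc, hR₁⟩ := back j₁ n R₁ (Qs (Prod.map j₁ j₁) (Prod.map j₂ j₂) R₁ R₂) (by
    rintro u₁ v (⟨x, hx, h⟩ | ⟨x, hx, -⟩)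
    · refine ⟨fun i => (x i).2, ?_, ?_⟩
      · funext i
        exact congrArg Prod.snd (congrFun hx i)
      · have h3 : zp u₁ (fun i => (x i).2) = x := by
          funext i
          have h4 : j₁ (u₁ i) = j₁ (x i).1 := congrArg Prod.fst (congrFun hx i)
          exact Prod.ext (h₁ h4) rfl
        rw [h3]
        exact h
    · have h4 : j₁ (u₁ 0) = j₂ (x 0).1 := congrArg Prod.fst (congrFun hx 0)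
      exact absurd h4 (hd _ _)) b₁ c hR
  refine ⟨b₁, c₁, hwe ▸ hI, hR₁, ?_⟩
  rw [hc] at hF
  rcases hF with ⟨x, hx, h⟩ | ⟨x, hx, -⟩
  · have h3 : c₁ = x := by
      funext i
      exact h₁ (congrFun hx i)
    rw [h3]
    exact h
  · exact absurd (congrFun hx 0) (hd _ _)

end

end CLOx

open CLOx in
theorem t_CLO : CLO_Stmt := by
  intro Γ P P' hP hP'
  obtain ⟨Δ₁, hfin₁, I₁, R₁, F₁, hI₁, hR₁, hF₁, e₁⟩ := hP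
  obtain ⟨Δ₂, hfin₂, I₂, R₂, F₂, hI₂, hR₂, hF₂, e₂⟩ := hP'
  have i1 : Function.Injective (Sum.inl : Δ₁ → Δ₁ ⊕ Δ₂) := Sum.inl_injective
  have i2 : Function.Injective (Sum.inr : Δ₂ → Δ₁ ⊕ Δ₂) := Sum.inr_injective
  have hd : ∀ (x : Δ₁) (y : Δ₂), (Sum.inl x : Δ₁ ⊕ Δ₂) ≠ Sum.inr y := fun x y => Sum.inl_ne_inr
  refine ⟨Δ₁ ⊕ Δ₂, inferInstance,
    Qs (Prod.map id Sum.inl) (Prod.map id Sum.inr) I₁ I₂,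
    Qs (Prod.map Sum.inl Sum.inl) (Prod.map Sum.inr Sum.inr) R₁ R₂,
    Qs Sum.inl Sum.inr F₁ F₂, ?_, ?_, ?_, fun n a => ⟨?_, ?_⟩⟩
  · exact loc _ _ (Function.injective_id.prodMap i1) (Function.injective_id.prodMap i2)
      (fun x y h => hd x.2 y.2 (congrArg Prod.snd h)) I₁ I₂ hI₁ hI₂
  · exact loc _ _ (i1.prodMap i1) (i2.prodMap i2)
      (fun x y h => hd x.2 y.2 (congrArg Prod.snd h)) R₁ R₂ hR₁ hR₂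
  · exact loc _ _ i1 i2 hd F₁ F₂ hF₁ hF₂
  · rintro (h | h)
    · exact fwd Sum.inl Sum.inr n a I₁ R₁ F₁ I₂ R₂ F₂ ((e₁ n a).1 h)
    · obtain ⟨b, c, h1, h2, h3⟩ := fwd Sum.inr Sum.inl n a I₂ R₂ F₂ I₁ R₁ F₁ ((e₂ n a).1 h)
      exact ⟨b, c, h1.symm, ReflTransGen.mono (fun u v huv => huv.symm) _ _ h2, h3.symm⟩
  · rintro ⟨b, c, ⟨w, hw, hI⟩ | ⟨w, hw, hI⟩, hR, hF⟩
    · exact Or.inl ((e₁ n a).2 (bwd Sum.inl Sum.inr i1 hd n a I₁ R₁ F₁ R₂ F₂ b c w hw hI hR hF))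
    · exact Or.inr ((e₂ n a).2 (bwd Sum.inr Sum.inl i2 (fun x y h => hd y x h.symm) n a I₂ R₂ F₂
        R₁ F₁ b c w hw hI (ReflTransGen.mono (fun u v huv => huv.symm) _ _ hR) hF.symm))

end Pool.Agent.NPH
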