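import Pool.Agent.NPH.StC

/-!
# CLT: transitive closure with a parameter
-/

set_option autoImplicit false

namespace Pool.Agent.NPH

open Pool.Agent.Heads Relation

namespace CLT

/-- all letters in `X` -/
theorem loc_all {Γ : Type} (X : Set Γ) : Loc (fun n (a : Fin (n + 1) → Γ) => ∀ i, a i ∈ X) := by
  refine ⟨X, X, X ×ˢ X, fun n a => ⟨fun h => ⟨h 0, h _, fun i => ⟨h _, h _⟩⟩, ?_⟩⟩
  rintro ⟨h0, -, h2⟩ i
  induction i using Fin.cases with
  | zero => exact h0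
  | succ j => exact (h2 j).2

/-- the union of two local predicates on disjoint parts of the alphabet -/
theorem loc_or {Γ : Type} (κ : Γ → Bool) {L L' : WP Γ} (hL : Loc L) (hL' : Loc L')
    (h : ∀ n a, L n a → ∀ i, κ (a i) = true) (h' : ∀ n a, L' n a → ∀ i, κ (a i) = false) :
    Loc (fun n a => L n a ∨ L' n a) := by
  obtain ⟨A, B, C, e⟩ := hL
  obtain ⟨A', B', C', e'⟩ := hL'
  refine ⟨{x | (κ x = true ∧ x ∈ A) ∨ (κ x = false ∧ x ∈ A')},
    {x | (κ x = true ∧ x ∈ B) ∨ (κ x = false ∧ x ∈ B')},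
    {x | (κ x.1 = true ∧ κ x.2 = true ∧ x ∈ C) ∨ (κ x.1 = false ∧ κ x.2 = false ∧ x ∈ C')},
    fun n a => ⟨?_, ?_⟩⟩
  · rintro (h1 | h1)
    · have h2 := h n a h1
      obtain ⟨h3, h4, h5⟩ := (e n a).1 h1
      exact ⟨Or.inl ⟨h2 _, h3⟩, Or.inl ⟨h2 _, h4⟩, fun i => Or.inl ⟨h2 _, h2 _, h5 i⟩⟩
    · have h2 := h' n a h1
      obtain ⟨h3, h4, h5⟩ := (e' n a).1 h1
      exact ⟨Or.inr ⟨h2 _, h3⟩, Or.inr ⟨h2 _, h4⟩, fun i => Or.inr ⟨h2 _, h2 _, h5 i⟩⟩
  · rintro ⟨hA, hB, hC⟩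
    rcases hA with ⟨k0, hA⟩ | ⟨k0, hA⟩
    · have hk : ∀ i, κ (a i) = true := by
        intro i
        induction i using Fin.induction with
        | zero => exact k0
        | succ j ih =>
          rcases hC j with ⟨-, h2, -⟩ | ⟨h1, -, -⟩
          · exact h2
          · exact absurd (ih.symm.trans h1) (by simp)
      refine Or.inl ((e n a).2 ⟨hA, ?_, fun i => ?_⟩)
      · rcases hB with ⟨-, h1⟩ | ⟨h1, -⟩
        · exact h1
        · exact absurd ((hk _).symm.trans h1) (by simp)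
      · rcases hC i with ⟨-, -, h1⟩ | ⟨h1, -, -⟩
        · exact h1
        · exact absurd ((hk _).symm.trans h1) (by simp)
    · have hk : ∀ i, κ (a i) = false := by
        intro i
        induction i using Fin.induction with
        | zero => exact k0
        | succ j ih =>
          rcases hC j with ⟨h1, -, -⟩ | ⟨-, h2, -⟩
          · exact absurd (ih.symm.trans h1) (by simp)
          · exact h2
      refine Or.inr ((e' n a).2 ⟨hA, ?_, fun i => ?_⟩)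
      · rcases hB with ⟨h1, -⟩ | ⟨-, h1⟩
        · exact absurd ((hk _).symm.trans h1) (by simp)
        · exact h1
      · rcases hC i with ⟨h1, -, -⟩ | ⟨-, -, h1⟩
        · exact absurd ((hk _).symm.trans h1) (by simp)
        · exact h1

/-- preimage of a local predicate under a functional relation of letters -/
theorem loc_pull {Γ Δ : Type} (T : Γ → Δ → Prop) (hT : ∀ x y y', T x y → T x y' → y = y')
    {L : WP Δ} (hL : Loc L) :
    Loc (fun n (a : Fin (n + 1) → Γ) => ∃ b : Fin (n + 1) → Δ, (∀ i, T (a i) (b i)) ∧ L n b) := by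
  obtain ⟨A, B, C, e⟩ := hL
  refine ⟨{x | ∃ y, T x y ∧ y ∈ A}, {x | ∃ y, T x y ∧ y ∈ B},
    {x | ∃ y y', T x.1 y ∧ T x.2 y' ∧ (y, y') ∈ C}, fun n a => ⟨?_, ?_⟩⟩
  · rintro ⟨b, hb, hL⟩
    obtain ⟨h1, h2, h3⟩ := (e n b).1 hL
    exact ⟨⟨_, hb _, h1⟩, ⟨_, hb _, h2⟩, fun i => ⟨_, _, hb _, hb _, h3 i⟩⟩
  · rintro ⟨⟨y0, t0, hA⟩, ⟨y1, t1, hB⟩, hC⟩
    have hex : ∀ i, ∃ y, T (a i) y := by
      intro i
      induction i using Fin.cases with
      | zero => exact ⟨y0, t0⟩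
      | succ j =>
        obtain ⟨-, y', -, h, -⟩ := hC j
        exact ⟨y', h⟩
    choose b hb using hex
    refine ⟨b, hb, (e n b).2 ⟨?_, ?_, fun i => ?_⟩⟩
    · rw [hT _ _ _ (hb 0) t0]; exact hA
    · rw [hT _ _ _ (hb _) t1]; exact hB
    · obtain ⟨y, y', h1, h2, h3⟩ := hC i
      rw [hT _ _ _ (hb i.castSucc) h1, hT _ _ _ (hb i.succ) h2]
      exact h3

variable {Γ Γ' Δ : Type}

/-- state letters: `inl (parameter, (current, final))` or
`inr ((parameter, (current, final)), (next, work))` -/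
abbrev K (Γ Γ' Δ : Type) : Type := (Γ × (Γ' × Γ')) ⊕ ((Γ × (Γ' × Γ')) × (Γ' × Δ))

def T1 (w : K Γ Γ' Δ × K Γ Γ' Δ) (b : (Γ × (Γ' × Γ')) × Δ) : Prop :=
  ∃ z, w = (Sum.inl (b.1.1, (b.1.2.1, z)), Sum.inr ((b.1.1, (b.1.2.1, z)), (b.1.2.2, b.2)))

def T2 (w : K Γ Γ' Δ × K Γ Γ' Δ) (b : Δ × Δ) : Prop :=
  ∃ q y, w = (Sum.inr (q, (y, b.1)), Sum.inr (q, (y, b.2)))

def T3 (w : K Γ Γ' Δ × K Γ Γ' Δ) (b : Δ) : Prop :=
  ∃ p x z y, w = (Sum.inr ((p, (x, z)), (y, b)), Sum.inl (p, (y, z)))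

/-- the step relation -/
def St (I : WP ((Γ × (Γ' × Γ')) × Δ)) (R : WP (Δ × Δ)) (F : WP Δ) :
    WP (K Γ Γ' Δ × K Γ Γ' Δ) := fun n w =>
  (∃ b, (∀ i, T1 (w i) (b i)) ∧ I n b) ∨
    ((∃ b, (∀ i, T2 (w i) (b i)) ∧ R n b) ∨ ∃ b, (∀ i, T3 (w i) (b i)) ∧ F n b)

theorem loc_St {I : WP ((Γ × (Γ' × Γ')) × Δ)} {R : WP (Δ × Δ)} {F : WP Δ} (hI : Loc I)
    (hR : Loc R) (hF : Loc F) : Loc (St I R F) := by
  have h1 : Loc (fun n (w : Fin (n + 1) → K Γ Γ' Δ × K Γ Γ' Δ) =>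
      ∃ b, (∀ i, T1 (w i) (b i)) ∧ I n b) := by
    apply loc_pull _ _ hI
    rintro w ⟨⟨p, x, y⟩, d⟩ ⟨⟨p', x', y'⟩, d'⟩ ⟨z, rfl⟩ ⟨z', h⟩
    simp only [Prod.mk.injEq, Sum.inl.injEq, Sum.inr.injEq] at h ⊢
    tauto
  have h2 : Loc (fun n (w : Fin (n + 1) → K Γ Γ' Δ × K Γ Γ' Δ) =>
      ∃ b, (∀ i, T2 (w i) (b i)) ∧ R n b) := by
    apply loc_pull _ _ hR
    rintro w ⟨d, d'⟩ ⟨e, e'⟩ ⟨q, y, rfl⟩ ⟨q', y', h⟩
    simp only [Prod.mk.injEq, Sum.inr.injEq] at h ⊢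
    tauto
  have h3 : Loc (fun n (w : Fin (n + 1) → K Γ Γ' Δ × K Γ Γ' Δ) =>
      ∃ b, (∀ i, T3 (w i) (b i)) ∧ F n b) := by
    apply loc_pull _ _ hF
    rintro w d d' ⟨p, x, z, y, rfl⟩ ⟨p', x', z', y', h⟩
    simp only [Prod.mk.injEq, Sum.inl.injEq, Sum.inr.injEq] at h ⊢
    tauto
  refine loc_or (fun w => w.1.isLeft) h1 (loc_or (fun w => w.2.isRight) h2 h3 ?_ ?_) ?_ ?_
  · rintro n a ⟨b, hb, -⟩ i
    obtain ⟨q, y, h⟩ := hb i
    simp [h]
  · rintro n a ⟨b, hb, -⟩ i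
    obtain ⟨p, x, z, y, h⟩ := hb i
    simp [h]
  · rintro n a ⟨b, hb, -⟩ i
    obtain ⟨z, h⟩ := hb i
    simp [h]
  · rintro n a (⟨b, hb, -⟩ | ⟨b, hb, -⟩) i
    · obtain ⟨q, y, h⟩ := hb i
      simp [h]
    · obtain ⟨p, x, z, y, h⟩ := hb i
      simp [h]

/-- waiting words -/
def W {n : ℕ} (α : Fin (n + 1) → Γ) (z x : Fin (n + 1) → Γ') : Fin (n + 1) → K Γ Γ' Δ :=
  fun i => Sum.inl (α i, (x i, z i))

/-- working words -/
def V {n : ℕ} (α : Fin (n + 1) → Γ) (z x y : Fin (n + 1) → Γ') (d : Fin (n + 1) → Δ) :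
    Fin (n + 1) → K Γ Γ' Δ :=
  fun i => Sum.inr ((α i, (x i, z i)), (y i, d i))

variable {I : WP ((Γ × (Γ' × Γ')) × Δ)} {R : WP (Δ × Δ)} {F : WP Δ}

theorem step_W {n : ℕ} {α : Fin (n + 1) → Γ} {z x : Fin (n + 1) → Γ'}
    {v : Fin (n + 1) → K Γ Γ' Δ} :
    St I R F n (zp (W α z x) v) ↔ ∃ y d, v = V α z x y d ∧ I n (zp (zp α (zp x y)) d) := by
  constructor
  · rintro (⟨b, hb, hI⟩ | ⟨b, hb, -⟩ | ⟨b, hb, -⟩)
    · have hb' : b = zp (zp α (zp x (fun i => (b i).1.2.2))) (fun i => (b i).2) := by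
        funext i
        obtain ⟨z', h⟩ := hb i
        simp only [zp, W, Prod.mk.injEq, Sum.inl.injEq] at h
        obtain ⟨⟨h1, h2, h3⟩, h4⟩ := h
        ext <;> simp [zp, h1, h2]
      refine ⟨fun i => (b i).1.2.2, fun i => (b i).2, ?_, ?_⟩
      · funext i
        obtain ⟨z', h⟩ := hb i
        simp only [zp, W, Prod.mk.injEq, Sum.inl.injEq] at h
        obtain ⟨⟨h1, h2, h3⟩, h4⟩ := h
        rw [h4]
        simp [V, h1, h2, h3]
      · rw [← hb']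
        exact hI
    · obtain ⟨q, y, h⟩ := hb 0
      simp [zp, W] at h
    · obtain ⟨p, x', z', y, h⟩ := hb 0
      simp [zp, W] at h
  · rintro ⟨y, d, rfl, hI⟩
    exact Or.inl ⟨_, fun i => ⟨z i, rfl⟩, hI⟩

theorem step_V {n : ℕ} {α : Fin (n + 1) → Γ} {z x y : Fin (n + 1) → Γ'} {d : Fin (n + 1) → Δ}
    {v : Fin (n + 1) → K Γ Γ' Δ} :
    St I R F n (zp (V α z x y d) v) ↔
      (∃ d', v = V α z x y d' ∧ R n (zp d d')) ∨ (v = W α z y ∧ F n d) := by
  constructor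
  · rintro (⟨b, hb, -⟩ | ⟨b, hb, hR⟩ | ⟨b, hb, hF⟩)
    · obtain ⟨z', h⟩ := hb 0
      simp [zp, V] at h
    · refine Or.inl ⟨fun i => (b i).2, ?_, ?_⟩
      · funext i
        obtain ⟨q, y', h⟩ := hb i
        simp only [zp, V, Prod.mk.injEq, Sum.inr.injEq] at h
        obtain ⟨⟨h1, h2, h3⟩, h4⟩ := h
        rw [h4]
        simp [V, h1, h2]
      · have hb' : b = zp d (fun i => (b i).2) := by
          funext i
          obtain ⟨q, y', h⟩ := hb i
          simp only [zp, V, Prod.mk.injEq, Sum.inr.injEq] at h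
          obtain ⟨⟨h1, h2, h3⟩, h4⟩ := h
          ext <;> simp [zp, h3]
        rw [← hb']
        exact hR
    · refine Or.inr ⟨?_, ?_⟩
      · funext i
        obtain ⟨p, x', z', y', h⟩ := hb i
        simp only [zp, V, Prod.mk.injEq, Sum.inr.injEq] at h
        obtain ⟨⟨⟨h1, h2, h3⟩, h4, h5⟩, h6⟩ := h
        rw [h6]
        simp [W, h1, h3, h4]
      · have hb' : b = d := by
          funext i
          obtain ⟨p, x', z', y', h⟩ := hb i
          simp only [zp, V, Prod.mk.injEq, Sum.inr.injEq] at h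
          exact h.1.2.2.symm
        rw [← hb']
        exact hF
  · rintro (⟨d', rfl, hR⟩ | ⟨rfl, hF⟩)
    · exact Or.inr (Or.inl ⟨_, fun i => ⟨_, _, rfl⟩, hR⟩)
    · exact Or.inr (Or.inr ⟨d, fun i => ⟨_, _, _, _, rfl⟩, hF⟩)

end CLT

open CLT in
theorem t_CLT : CLT_Stmt := by
  rintro Γ Γ' _ _ P ⟨Δ, hΔ, I, R, F, hI, hR, hF, hP⟩
  refine ⟨K Γ Γ' Δ, inferInstance,
    fun n w => ∀ i, w i ∈ {x : (Γ × (Γ' × Γ')) × K Γ Γ' Δ | x.2 = Sum.inl x.1}, St I R F,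
    fun n w => ∀ i, w i ∈ {x : K Γ Γ' Δ | ∃ p y, x = Sum.inl (p, (y, y))}, loc_all _,
    loc_St hI hR hF, loc_all _, fun n a => ?_⟩
  set α : Fin (n + 1) → Γ := fun i => (a i).1 with hα
  set z : Fin (n + 1) → Γ' := fun i => (a i).2.2 with hz
  constructor
  · intro h
    have key : ∀ x, ReflTransGen (fun b b' : Fin (n + 1) → Γ' => P n (zp α (zp b b')))
        (fun i => (a i).2.1) x → ReflTransGen (fun u v => St I R F n (zp u v))
          (W α z (fun i => (a i).2.1)) (W α z x) := by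
      intro x hx
      induction hx with
      | refl => exact ReflTransGen.refl
      | tail _ hst ih =>
        rename_i b c _
        obtain ⟨d, e, h1, h2, h3⟩ := (hP n _).1 hst
        have s1 : St I R F n (zp (W α z b) (V α z b c d)) := step_W.2 ⟨c, d, rfl, h1⟩
        have s2 : ReflTransGen (fun u v => St I R F n (zp u v)) (V α z b c d) (V α z b c e) := by
          clear h3 s1 h1
          induction h2 with
          | refl => exact ReflTransGen.refl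
          | tail _ hr ih' => exact ih'.tail (step_V.2 (Or.inl ⟨_, rfl, hr⟩))
        have s3 : St I R F n (zp (V α z b c e) (W α z c)) := step_V.2 (Or.inr ⟨rfl, h3⟩)
        exact ((ih.tail s1).trans s2).tail s3
    refine ⟨W α z (fun i => (a i).2.1), W α z z, fun i => rfl, key _ h, fun i => ⟨_, _, rfl⟩⟩
  · rintro ⟨b, c, hb, hbc, hc⟩
    have hb' : b = W α z (fun i => (a i).2.1) := by
      funext i
      exact hb i
    subst hb'
    have key : ∀ c, ReflTransGen (fun u v => St I R F n (zp u v))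
        (W α z (fun i => (a i).2.1)) c →
        (∃ x, c = W α z x ∧ ReflTransGen (fun b b' : Fin (n + 1) → Γ' => P n (zp α (zp b b')))
          (fun i => (a i).2.1) x) ∨
        ∃ x y d, c = V α z x y d ∧
          ReflTransGen (fun b b' : Fin (n + 1) → Γ' => P n (zp α (zp b b')))
            (fun i => (a i).2.1) x ∧
          ∃ b, I n (zp (zp α (zp x y)) b) ∧ ReflTransGen (fun u v => R n (zp u v)) b d := by
      intro c hc
      induction hc with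
      | refl => exact Or.inl ⟨_, rfl, ReflTransGen.refl⟩
      | tail _ hst ih =>
        rcases ih with ⟨x, rfl, hx⟩ | ⟨x, y, d, rfl, hx, b, hb1, hb2⟩
        · obtain ⟨y, d, rfl, h1⟩ := step_W.1 hst
          exact Or.inr ⟨x, y, d, rfl, hx, d, h1, ReflTransGen.refl⟩
        · rcases step_V.1 hst with ⟨d', rfl, h1⟩ | ⟨rfl, h1⟩
          · exact Or.inr ⟨x, y, d', rfl, hx, b, hb1, hb2.tail h1⟩
          · exact Or.inl ⟨y, rfl, hx.tail ((hP n _).2 ⟨b, d, hb1, hb2, h1⟩)⟩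
    rcases key c hbc with ⟨x, rfl, hx⟩ | ⟨x, y, d, rfl, -, -⟩
    · have hxz : x = z := by
        funext i
        obtain ⟨p, y, h⟩ := hc i
        simp only [W, Sum.inl.injEq, Prod.mk.injEq] at h
        rw [h.2.1, h.2.2]
      rw [hxz] at hx
      exact hx
    · obtain ⟨p, y', h⟩ := hc 0
      simp [V] at h

end Pool.Agent.NPH
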