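import Pool.Agent.NPH.StC

/-!
# Project NPH, module CNL: the complement of a local predicate

A word violates a local condition iff its first letter is wrong, or its last letter is wrong, or some
adjacent pair is wrong; the third case is recognised with a word over `Bool` which changes once,
at the wrong pair.
-/

set_option autoImplicit false

namespace Pool.Agent.NPH

open Pool.Agent.Heads Relation

namespace CNL

/-- the local predicate on words over `Γ × Bool`: one change, at a pair which is not in `C` -/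
def Q {Γ : Type} (C : Set (Γ × Γ)) : WP (Γ × Bool) := fun n a =>
  a 0 ∈ {x : Γ × Bool | x.2 = false} ∧ a (Fin.last n) ∈ {x : Γ × Bool | x.2 = true} ∧
    ∀ i : Fin n, (a i.castSucc, a i.succ) ∈ {y : (Γ × Bool) × (Γ × Bool) |
      y.1.2 = y.2.2 ∨ (y.1.2 = false ∧ y.2.2 = true ∧ (y.1.1, y.2.1) ∉ C)}

lemma loc_Q {Γ : Type} (C : Set (Γ × Γ)) : Loc (Q C) :=
  ⟨_, _, _, fun _ _ => Iff.rfl⟩

/-- a word over `Bool` all of whose adjacent letters are equal is constant -/
lemma const_of_pairs {n : ℕ} (b : Fin (n + 1) → Bool) (h : ∀ i : Fin n, b i.castSucc = b i.succ) :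
    ∀ i : Fin (n + 1), b i = b 0 := by
  intro i
  induction i using Fin.induction with
  | zero => rfl
  | succ i ih => rw [← h i, ih]

lemma exists_Q {Γ : Type} (C : Set (Γ × Γ)) (n : ℕ) (a : Fin (n + 1) → Γ) :
    (∃ b : Fin (n + 1) → Bool, Q C n (zp a b)) ↔ ∃ i : Fin n, (a i.castSucc, a i.succ) ∉ C := by
  constructor
  · rintro ⟨b, h0, h1, h2⟩
    by_contra hcon
    push Not at hcon
    have hb : ∀ i : Fin n, b i.castSucc = b i.succ := by
      intro i
      rcases h2 i with h | h
      · exact h
      · exact absurd (hcon i) h.2.2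
    have h3 := const_of_pairs b hb (Fin.last n)
    have h0' : b 0 = false := h0
    have h1' : b (Fin.last n) = true := h1
    rw [h0', h1'] at h3
    exact Bool.noConfusion h3
  · rintro ⟨i, hi⟩
    refine ⟨fun j => decide (i.castSucc < j), ?_, ?_, ?_⟩
    · change decide (i.castSucc < 0) = false
      simp
    · change decide (i.castSucc < Fin.last n) = true
      simp [Fin.castSucc_lt_last]
    · intro k
      change decide (i.castSucc < k.castSucc) = decide (i.castSucc < k.succ) ∨
        (decide (i.castSucc < k.castSucc) = false ∧ decide (i.castSucc < k.succ) = true ∧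
          (a k.castSucc, a k.succ) ∉ C)
      rcases lt_trichotomy i k with h | h | h
      · left
        have h1 : i.castSucc < k.castSucc := by simpa using h
        have h2 : i.castSucc < k.succ := lt_trans h1 (Fin.castSucc_lt_succ)
        rw [decide_eq_true h1, decide_eq_true h2]
      · subst h
        right
        exact ⟨by simp, by simp, hi⟩
      · left
        have h1 : ¬ i.castSucc < k.castSucc := by
          simpa using h.le
        have h2 : ¬ i.castSucc < k.succ := by
          rw [Fin.lt_def] at h ⊢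
          simp only [Fin.val_castSucc, Fin.val_succ]
          omega
        rw [decide_eq_false h1, decide_eq_false h2]

end CNL

open CNL in
/-- module CNL -/
theorem t_CNL : CNL_Stmt := by
  intro hL hB hO Γ P hP
  obtain ⟨A, B, C, hABC⟩ := hP
  have h1 : Cc (fun n (a : Fin (n + 1) → Γ) => a 0 ∈ Aᶜ) := hB.1 _ _ (hL.2.2.2.1 Γ Aᶜ)
  have h2 : Cc (fun n (a : Fin (n + 1) → Γ) => a (Fin.last n) ∈ Bᶜ) := hB.1 _ _ (hL.2.2.2.2.1 Γ Bᶜ)
  have h3 : Cc (fun n (a : Fin (n + 1) → Γ) => ∃ b : Fin (n + 1) → Bool, Q C n (zp a b)) :=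
    hB.2.2.2 Γ Bool (Q C) (hB.1 _ _ (loc_Q C))
  have h4 := hO Γ _ _ (hO Γ _ _ h1 h2) h3
  have h5 : (fun n (a : Fin (n + 1) → Γ) => ¬ P n a) = (fun n (a : Fin (n + 1) → Γ) =>
      (a 0 ∈ Aᶜ ∨ a (Fin.last n) ∈ Bᶜ) ∨ ∃ b : Fin (n + 1) → Bool, Q C n (zp a b)) := by
    funext n a
    rw [exists_Q, hABC]
    apply propext
    simp only [Set.mem_compl_iff, not_and_or, not_forall]
    tauto
  rw [h5]
  exact h4

end Pool.Agent.NPH
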