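import Pool.Agent.NPH.StC

/-!
# Project NPH, module CNT: counting by paths
-/

set_option autoImplicit false

namespace Pool.Agent.NPH

open Relation

namespace CNT

lemma zero (θ θ' : ℕ → Prop) (m : ℕ) :
    ReflTransGen (CntStep θ θ') (0, 0) (0, m) ↔ m = 0 := by
  rw [ReflTransGen.cases_tail_iff]
  constructor
  · rintro (h | ⟨c, -, h⟩)
    · exact (Prod.ext_iff.1 h).2
    · exact absurd h.1 (Nat.succ_ne_zero _).symm
  · rintro rfl
    exact Or.inl rfl

lemma succ (θ θ' : ℕ → Prop) (p m : ℕ) :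
    ReflTransGen (CntStep θ θ') (0, 0) (p + 1, m) ↔
      (θ' p ∧ ReflTransGen (CntStep θ θ') (0, 0) (p, m)) ∨
        (θ p ∧ ∃ m', m = m' + 1 ∧ ReflTransGen (CntStep θ θ') (0, 0) (p, m')) := by
  rw [ReflTransGen.cases_tail_iff]
  constructor
  · rintro (h | ⟨⟨p', m'⟩, h1, h2, h3⟩)
    · exact absurd (Prod.ext_iff.1 h).1 (Nat.succ_ne_zero _)
    · simp only at h2 h3
      obtain rfl : p' = p := by omega
      rcases h3 with ⟨h3, h4⟩ | ⟨h3, h4⟩
      · subst h3
        exact Or.inl ⟨h4, h1⟩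
      · exact Or.inr ⟨h4, m', h3, h1⟩
  · rintro (⟨h1, h2⟩ | ⟨h1, m', rfl, h2⟩)
    · exact Or.inr ⟨(p, m), h2, rfl, Or.inl ⟨rfl, h1⟩⟩
    · exact Or.inr ⟨(p, m'), h2, rfl, Or.inr ⟨rfl, h1⟩⟩

open Classical in
lemma le (θ : ℕ → Prop) (p m : ℕ) :
    ReflTransGen (CntStep θ (fun _ => True)) (0, 0) (p, m) ↔ m ≤ Nat.count θ p := by
  induction p generalizing m with
  | zero => rw [zero, Nat.count_zero, Nat.le_zero]
  | succ p ih =>
    rw [succ, Nat.count_succ]
    simp only [ih]
    split_ifs with h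
    · constructor
      · rintro (⟨-, h1⟩ | ⟨-, m', rfl, h1⟩) <;> omega
      · intro h1
        rcases m with _ | m
        · exact Or.inl ⟨trivial, Nat.zero_le _⟩
        · exact Or.inr ⟨h, m, rfl, by omega⟩
    · constructor
      · rintro (⟨-, h1⟩ | ⟨h2, -⟩)
        · omega
        · exact absurd h2 h
      · intro h1
        exact Or.inl ⟨trivial, by omega⟩

open Classical in
lemma eq (θ : ℕ → Prop) (p m : ℕ) :
    ReflTransGen (CntStep θ (fun j => ¬ θ j)) (0, 0) (p, m) ↔ m = Nat.count θ p := by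
  induction p generalizing m with
  | zero => rw [zero, Nat.count_zero]
  | succ p ih =>
    rw [succ, Nat.count_succ]
    simp only [ih]
    split_ifs with h
    · constructor
      · rintro (⟨h2, -⟩ | ⟨-, m', rfl, h1⟩)
        · exact absurd h h2
        · omega
      · intro h1
        exact Or.inr ⟨h, _, h1, rfl⟩
    · constructor
      · rintro (⟨-, h1⟩ | ⟨h2, -⟩)
        · omega
        · exact absurd h2 h
      · intro h1
        exact Or.inl ⟨h, by omega⟩

end CNT

/-- **CNT** -/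
theorem t_CNT : CNT_Stmt := by
  classical
  intro θ p m
  have hc : Nat.card {j : ℕ // j < p ∧ θ j} = Nat.count θ p := by
    let _ := Nat.CountSet.fintype θ p
    rw [Nat.count_eq_card_fintype, Nat.card_eq_fintype_card]
  rw [hc]
  exact ⟨CNT.le θ p m, CNT.eq θ p m⟩

end Pool.Agent.NPH
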