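import Pool.Agent.NPH.StC

/-!
# CPE: the formula is the complement
-/

set_option autoImplicit false

namespace Pool.Agent.NPH

open Pool.Agent.Heads Relation

namespace CPE

/-- counting paths only see the conditions below the end -/
lemma cnt_congr {θ θ' τ τ' : ℕ → Prop} {V : ℕ} (h : ∀ j < V, θ j → τ j)
    (h' : ∀ j < V, θ' j → τ' j) {x : ℕ × ℕ}
    (hx : ReflTransGen (CntStep θ θ') (0, 0) x) (hV : x.1 ≤ V) :
    ReflTransGen (CntStep τ τ') (0, 0) x := by
  induction hx with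
  | refl => exact .refl
  | @tail y z _ hyz ih =>
    have h1 : y.1 < V := by
      have := hyz.1
      omega
    refine (ih h1.le).tail ⟨hyz.1, ?_⟩
    rcases hyz.2 with ⟨e, k⟩ | ⟨e, k⟩
    · exact Or.inl ⟨e, h' _ h1 k⟩
    · exact Or.inr ⟨e, h _ h1 k⟩

lemma cnt_iff {θ θ' τ τ' : ℕ → Prop} {V m : ℕ} (h : ∀ j < V, (θ j ↔ τ j))
    (h' : ∀ j < V, (θ' j ↔ τ' j)) :
    ReflTransGen (CntStep θ θ') (0, 0) (V, m) ↔ ReflTransGen (CntStep τ τ') (0, 0) (V, m) :=
  ⟨fun k => cnt_congr (fun j hj => (h j hj).1) (fun j hj => (h' j hj).1) k le_rfl,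
    fun k => cnt_congr (fun j hj => (h j hj).2) (fun j hj => (h' j hj).2) k le_rfl⟩

lemma cnt_le {θ θ' : ℕ → Prop} {x : ℕ × ℕ}
    (hx : ReflTransGen (CntStep θ θ') (0, 0) x) : x.2 ≤ x.1 := by
  induction hx with
  | refl => exact le_rfl
  | tail _ hyz ih =>
    have := hyz.1
    rcases hyz.2 with ⟨e, _⟩ | ⟨e, _⟩ <;> omega

lemma val_top {q n : ℕ} (hq : 2 ≤ q) {t : Fin (n + 1) → Fin q} (ht : ∀ i, (t i : ℕ) = q - 1) :
    val t = q ^ (n + 1) - 1 := by
  unfold val
  simp only [ht]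
  rw [← Finset.mul_sum, Fin.sum_univ_eq_sum_range (fun i => q ^ i) (n + 1)]
  have h := geom_sum_mul_add (q - 1) (n + 1)
  rw [show q - 1 + 1 = q by omega] at h
  rw [← h, mul_comm]
  simp

lemma val_zero {q n : ℕ} {t : Fin (n + 1) → Fin q} (ht : ∀ i, (t i : ℕ) = 0) : val t = 0 := by
  unfold val
  simp [ht]

section

variable {q n : ℕ} (hq : 2 ≤ q) (hinj : Function.Injective (val : (Fin (n + 1) → Fin q) → ℕ))
  (hsur : ∀ m : ℕ, m < q ^ (n + 1) ↔ ∃ a : Fin (n + 1) → Fin q, val a = m)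

include hq hinj hsur

lemma lt_V {b : Fin (n + 1) → Fin q} (h : ∃ i, (b i : ℕ) < q - 1) :
    val b < q ^ (n + 1) - 1 := by
  have h1 : val b < q ^ (n + 1) := (hsur _).2 ⟨b, rfl⟩
  have h2 : val b ≠ q ^ (n + 1) - 1 := by
    intro he
    have h3 := val_top hq (t := fun _ : Fin (n + 1) => (⟨q - 1, by omega⟩ : Fin q)) (fun _ => rfl)
    have h4 := hinj (he.trans h3.symm)
    obtain ⟨i, hi⟩ := h
    rw [h4] at hi
    exact absurd hi (lt_irrefl _)
  omega

omit hq in
/-- the number of the words and of the numbers with a property -/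
lemma card_eq (p : (Fin (n + 1) → Fin q) → Prop) (p' : ℕ → Prop)
    (h : ∀ b, p b ↔ p' (val b)) :
    Nat.card {b : Fin (n + 1) → Fin q // val b < q ^ (n + 1) - 1 ∧ p b}
      = Nat.card {u : ℕ // u < q ^ (n + 1) - 1 ∧ p' u} := by
  refine Nat.card_congr (Equiv.ofBijective
    (fun b => ⟨val b.1, b.2.1, (h _).1 b.2.2⟩) ⟨fun b c e => ?_, fun u => ?_⟩)
  · exact Subtype.ext (hinj (congrArg Subtype.val e))
  · obtain ⟨b, hb⟩ := (hsur u.1).1 (by have := u.2.1; omega)
    refine ⟨⟨b, by rw [hb]; exact u.2.1, (h _).2 (by rw [hb]; exact u.2.2)⟩, Subtype.ext hb⟩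

end

end CPE

open CPE in
/-- **CPE** -/
theorem t_CPE : CPE_Stmt := by
  intro hS hC hISA Γ q hq I R F D hI hR hD n a
  obtain ⟨hv, -⟩ := hS q hq
  obtain ⟨hinj, hsur⟩ := hv n
  set V := q ^ (n + 1) - 1 with hV
  have hN : 0 < q ^ (n + 1) := by positivity
  have hex : ∀ m ≤ V, ∃ b : Fin (n + 1) → Fin q, val b = m := fun m hm =>
    (hsur m).1 (by omega)
  -- the translation
  set src : ℕ → Prop := fun j => ∃ b : Fin (n + 1) → Fin q, val b = j ∧ I n (zp a b) with hsrc
  set fin : ℕ → Prop := fun j => ∃ b : Fin (n + 1) → Fin q, val b = j ∧ F n b with hfin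
  set R' : ℕ → ℕ → Prop := fun j j' => ∃ u v : Fin (n + 1) → Fin q,
    val u = j ∧ val v = j' ∧ R n (zp u v) with hR'
  set D' : ℕ → ℕ → Prop := fun l j => ∃ u : Fin (n + 1) → Fin q, val u = j ∧
    ∃ b : Fin (n + 1) → Fin q, I n (zp a b) ∧
      ∃ w : ℕ → (Fin (n + 1) → Fin q), w 0 = b ∧ w l = u ∧
        ∀ j < l, w (j + 1) = w j ∨ R n (zp (w j) (w (j + 1))) with hD'
  have eR : ∀ u v : Fin (n + 1) → Fin q, R n (zp u v) ↔ R' (val u) (val v) := by
    intro u v
    refine ⟨fun h => ⟨u, v, rfl, rfl, h⟩, ?_⟩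
    rintro ⟨u', v', h1, h2, h3⟩
    rwa [hinj h1, hinj h2] at h3
  have eI : ∀ u : Fin (n + 1) → Fin q, I n (zp a u) ↔ src (val u) := by
    intro u
    refine ⟨fun h => ⟨u, rfl, h⟩, ?_⟩
    rintro ⟨u', h1, h3⟩
    rwa [hinj h1] at h3
  have eF : ∀ u : Fin (n + 1) → Fin q, F n u ↔ fin (val u) := by
    intro u
    refine ⟨fun h => ⟨u, rfl, h⟩, ?_⟩
    rintro ⟨u', h1, h3⟩
    rwa [hinj h1] at h3
  have eD : ∀ l u : Fin (n + 1) → Fin q, D n (zp a (zp l u)) ↔ D' (val l) (val u) := by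
    intro l u
    rw [hD n a l u]
    refine ⟨fun h => ⟨u, rfl, h⟩, ?_⟩
    rintro ⟨u', h1, h3⟩
    rwa [hinj h1] at h3
  have d0 : ∀ u, D' 0 u ↔ src u := by
    intro u
    constructor
    · rintro ⟨u', h1, b, h2, w, h3, h4, -⟩
      exact ⟨u', h1, by rw [← h4, h3]; exact h2⟩
    · rintro ⟨b, h1, h2⟩
      exact ⟨b, h1, b, h2, fun _ => b, rfl, rfl, fun j hj => absurd hj (Nat.not_lt_zero _)⟩
  have d1 : ∀ l v, D' (l + 1) v ↔ ∃ u, D' l u ∧ (u = v ∨ R' u v) := by
    intro l v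
    constructor
    · rintro ⟨v', h1, b, h2, w, h3, h4, h5⟩
      refine ⟨val (w l), ⟨w l, rfl, b, h2, w, h3, rfl, fun j hj => h5 j (by omega)⟩, ?_⟩
      rcases h5 l (by omega) with h | h
      · left
        rw [← h1, ← h4, h]
      · right
        refine ⟨w l, w (l + 1), rfl, ?_, h⟩
        rw [h4, h1]
    · rintro ⟨u, ⟨u', h1, b, h2, w, h3, h4, h5⟩, h⟩
      obtain ⟨v', g1, g2⟩ : ∃ v', val v' = v ∧ (v' = u' ∨ R n (zp u' v')) := by
        rcases h with h | ⟨x, y, e1, e2, e3⟩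
        · exact ⟨u', h1.trans h, Or.inl rfl⟩
        · refine ⟨y, e2, Or.inr ?_⟩
          rwa [hinj (e1.trans h1.symm)] at e3
      refine ⟨v', g1, b, h2, fun j => if j ≤ l then w j else v', by simp [h3], by simp,
        fun j hj => ?_⟩
      by_cases hjl : j < l
      · have e1 : j ≤ l := hjl.le
        have e2 : j + 1 ≤ l := hjl
        simp only [e1, e2, if_true]
        exact h5 j hjl
      · have e0 : j = l := by omega
        subst e0
        simp only [le_refl, if_true]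
        rw [if_neg (by omega), h4]
        exact g2
  have sV : ∀ u, src u → u < V := by
    rintro u ⟨b, h1, h2⟩
    obtain ⟨i, hi⟩ := hI n _ h2
    rw [← h1]
    exact lt_V hq hinj hsur ⟨i, hi⟩
  have rV : ∀ u v, R' u v → v < V := by
    rintro u v ⟨x, y, h1, h2, h3⟩
    obtain ⟨i, hi⟩ := hR n _ h3
    rw [← h2]
    exact lt_V hq hinj hsur ⟨i, hi⟩
  set NX : ℕ → ℕ → ℕ → Prop := fun l c v =>
    c ≤ Nat.card {u : ℕ // u < V ∧ D' l u ∧ u ≠ v ∧ ¬ R' u v} with hNX
  have key := hISA hC V src fin R' D' sV rV d0 d1 NX (fun l c v => Iff.rfl)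
  -- the left side
  have left : (∃ b c : Fin (n + 1) → Fin q, I n (zp a b) ∧
        ReflTransGen (fun u v => R n (zp u v)) b c ∧ F n c)
      ↔ ∃ u v, src u ∧ ReflTransGen R' u v ∧ fin v := by
    constructor
    · rintro ⟨b, c, h1, h2, h3⟩
      exact ⟨val b, val c, (eI b).1 h1, h2.lift val (fun u v h => (eR u v).1 h), (eF c).1 h3⟩
    · rintro ⟨u, v, ⟨b, h0, h1⟩, h2, h3⟩
      have : ∃ c : Fin (n + 1) → Fin q, val c = v ∧
          ReflTransGen (fun u v => R n (zp u v)) b c := by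
        clear h3
        induction h2 with
        | refl => exact ⟨b, h0, .refl⟩
        | @tail y z _ hyz ih =>
          obtain ⟨c, hc, hbc⟩ := ih
          obtain ⟨x, y', e1, e2, e3⟩ := hyz
          rw [hinj (e1.trans hc.symm)] at e3
          exact ⟨y', e2, hbc.tail e3⟩
      obtain ⟨c, hc, hbc⟩ := this
      rw [← hc] at h3
      exact ⟨b, c, h1, hbc, (eF c).2 h3⟩
  rw [left, key]
  -- the pieces of the formula
  have eNX : ∀ l c v : Fin (n + 1) → Fin q,
      NXW q R D n (fun i => ((a i, (l i, c i)), v i)) ↔ NX (val l) (val c) (val v) := by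
    intro l c v
    show val c ≤ Nat.card {b : Fin (n + 1) → Fin q // val b < q ^ (n + 1) - 1 ∧
        (D n (zp a (zp l b)) ∧ b ≠ v ∧ ¬ R n (zp b v))} ↔ _
    rw [card_eq hinj hsur (fun b => D n (zp a (zp l b)) ∧ b ≠ v ∧ ¬ R n (zp b v))
      (fun u => D' (val l) u ∧ u ≠ val v ∧ ¬ R' u (val v))
      (fun b => by rw [eD, eR]; simp only [ne_eq, hinj.eq_iff])]
  have eCTS : ∀ l c l' c' : Fin (n + 1) → Fin q,
      CTS q R D n (fun i => (a i, ((l i, c i), (l' i, c' i)))) ↔
        val l' = val l + 1 ∧ ReflTransGen (CntStep (D' (val l + 1)) (NX (val l) (val c))) (0, 0)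
          (V, val c') := by
    intro l c l' c'
    show (val l' = val l + 1 ∧ ReflTransGen (CntStep
      (fun j => ∃ b : Fin (n + 1) → Fin q, val b = j ∧ D n (zp a (zp l' b)))
      (fun j => ∃ b : Fin (n + 1) → Fin q, val b = j ∧
        NXW q R D n (fun i => ((a i, (l i, c i)), b i)))) (0, 0)
        (q ^ (n + 1) - 1, val c')) ↔ _
    refine and_congr_right fun hl => ?_
    refine cnt_iff (fun j hj => ?_) (fun j hj => ?_)
    · constructor
      · rintro ⟨b, h1, h2⟩
        rw [← h1, ← hl]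
        exact (eD l' b).1 h2
      · intro h
        obtain ⟨b, hb⟩ := hex j (by omega)
        refine ⟨b, hb, (eD l' b).2 ?_⟩
        rw [hb, hl]
        exact h
    · constructor
      · rintro ⟨b, h1, h2⟩
        rw [← h1]
        exact (eNX l c b).1 h2
      · intro h
        obtain ⟨b, hb⟩ := hex j (by omega)
        refine ⟨b, hb, (eNX l c b).2 ?_⟩
        rw [hb]
        exact h
  have eEX : ∀ c : Fin (n + 1) → Fin q, EX q I (fun n y => ¬ I n y) n (zp a c) ↔
      ReflTransGen (CntStep src (fun j => ¬ src j)) (0, 0) (V, val c) := by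
    intro c
    show ReflTransGen (CntStep src
      (fun j => ∃ b : Fin (n + 1) → Fin q, val b = j ∧ ¬ I n (zp a b))) (0, 0)
        (q ^ (n + 1) - 1, val c) ↔ _
    refine cnt_iff (fun j hj => Iff.rfl) (fun j hj => ?_)
    constructor
    · rintro ⟨b, h1, h2⟩ h
      exact h2 ((eI b).2 (by rwa [h1]))
    · intro h
      obtain ⟨b, hb⟩ := hex j (by omega)
      exact ⟨b, hb, fun hh => h (by rw [← hb]; exact (eI b).1 hh)⟩
  have eLST : ∀ c : Fin (n + 1) → Fin q, LST q F D n (zp a c) ↔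
      val c ≤ Nat.card {u : ℕ // u < V ∧ D' V u ∧ ¬ fin u} := by
    intro c
    show val c ≤ Nat.card {b : Fin (n + 1) → Fin q // val b < q ^ (n + 1) - 1 ∧
        ((∃ t : Fin (n + 1) → Fin q, (∀ i, (t i : ℕ) = q - 1) ∧ D n (zp a (zp t b))) ∧
          ¬ F n b)} ↔ _
    rw [card_eq hinj hsur (fun b => (∃ t : Fin (n + 1) → Fin q, (∀ i, (t i : ℕ) = q - 1) ∧
        D n (zp a (zp t b))) ∧ ¬ F n b) (fun u => D' V u ∧ ¬ fin u) (fun b => ?_)]
    rw [eF]
    refine and_congr_left fun _ => ?_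
    constructor
    · rintro ⟨t, ht, h⟩
      have := (eD t b).1 h
      rwa [val_top hq ht] at this
    · intro h
      refine ⟨fun _ => ⟨q - 1, by omega⟩, fun _ => rfl, (eD _ b).2 ?_⟩
      rwa [val_top hq (t := fun _ : Fin (n + 1) => (⟨q - 1, by omega⟩ : Fin q)) (fun _ => rfl)]
  -- the formula
  set St : ℕ × ℕ → ℕ × ℕ → Prop := fun s s' => s'.1 = s.1 + 1 ∧
    ReflTransGen (CntStep (D' (s.1 + 1)) (NX s.1 s.2)) (0, 0) (V, s'.2) with hSt
  have eSt : ∀ b b' : Fin (n + 1) → Fin q × Fin q, CTS q R D n (zp a (zp b b')) ↔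
      St (val (fun i => (b i).1), val (fun i => (b i).2))
        (val (fun i => (b' i).1), val (fun i => (b' i).2)) := fun b b' =>
    eCTS (fun i => (b i).1) (fun i => (b i).2) (fun i => (b' i).1) (fun i => (b' i).2)
  constructor
  · rintro ⟨s, e, hs, he, h1, h2, h3⟩
    refine ⟨val (fun i => (s i).2), val (fun i => (e i).2), (eEX _).1 h1, ?_, (eLST _).1 h3⟩
    have h4 : ReflTransGen St (val (fun i => (s i).1), val (fun i => (s i).2))
        (val (fun i => (e i).1), val (fun i => (e i).2)) :=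
      h2.lift (fun b : Fin (n + 1) → Fin q × Fin q =>
        ((val (fun i => (b i).1), val (fun i => (b i).2)) : ℕ × ℕ)) (p := St)
        (fun b b' h => (eSt b b').1 h)
    have e1 : val (fun i => (s i).1) = 0 := val_zero hs
    have e2 : val (fun i => (e i).1) = V := val_top hq he
    rw [e1, e2] at h4
    exact h4
  · rintro ⟨c₀, c, h1, h2, h3⟩
    obtain ⟨w₀, hw₀⟩ := hex c₀ (cnt_le h1)
    have hzero : (0 : ℕ) < q := by omega
    set s : Fin (n + 1) → Fin q × Fin q := fun i => (⟨0, hzero⟩, w₀ i) with hs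
    have hs1 : val (fun i => (s i).1) = 0 := val_zero (fun i => rfl)
    have hs2 : val (fun i => (s i).2) = c₀ := hw₀
    have main : ∀ y : ℕ × ℕ, ReflTransGen St (0, c₀) y → y.1 ≤ V →
        ∃ e : Fin (n + 1) → Fin q × Fin q, (val (fun i => (e i).1), val (fun i => (e i).2)) = y ∧
          ReflTransGen (fun b b' : Fin (n + 1) → Fin q × Fin q => CTS q R D n (zp a (zp b b')))
            s e := by
      intro y hy
      induction hy with
      | refl => exact fun _ => ⟨s, by rw [hs1, hs2], .refl⟩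
      | @tail y z _ hyz ih =>
        intro hz
        obtain ⟨g1, g2⟩ := hyz
        obtain ⟨e, he, hse⟩ := ih (by omega)
        obtain ⟨l', hl'⟩ := hex z.1 hz
        obtain ⟨c', hc'⟩ := hex z.2 (cnt_le g2)
        refine ⟨fun i => (l' i, c' i), Prod.ext hl' hc', hse.tail ((eSt _ _).2 ?_)⟩
        show St _ (val l', val c')
        rw [he, hl', hc']
        exact ⟨g1, g2⟩
    obtain ⟨e, he, hse⟩ := main (V, c) h2 le_rfl
    have he1 : val (fun i => (e i).1) = V := congrArg Prod.fst he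
    have he2 : val (fun i => (e i).2) = c := congrArg Prod.snd he
    have htop : (fun i => (e i).1) = fun _ : Fin (n + 1) => (⟨q - 1, by omega⟩ : Fin q) :=
      hinj (he1.trans (val_top hq (fun _ => rfl)).symm)
    refine ⟨s, e, fun i => rfl, fun i => ?_, (eEX _).2 ?_, hse, (eLST _).2 ?_⟩
    · have := congrFun htop i
      exact congrArg Fin.val this
    · rw [hs2]
      exact h1
    · rw [he2]
      exact h3

end Pool.Agent.NPH
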