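import Pool.Agent.NPH.StC

/-!
# Project NPH, module CPI: the formula of the complement is in the class (helper10)
-/

set_option autoImplicit false

namespace Pool.Agent.NPH

open Pool.Agent.Heads Relation

namespace CPIAux

variable {Γ : Type}

lemma congr {P P' : WP Γ} (h : Cc P) (hP : ∀ n a, P n a ↔ P' n a) : Cc P' := by
  have h1 : P = P' := by
    funext n a
    exact propext (hP n a)
  rw [← h1]
  exact h

/-- the condition under the counting operator in `NXW` -/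
def Th (q : ℕ) (R : WP (Fin q × Fin q)) (D : WP (Γ × (Fin q × Fin q))) :
    WP ((Γ × (Fin q × Fin q)) × Fin q) := fun n y =>
  D n (fun i => ((y i).1.1, ((y i).1.2.1, (y i).2))) ∧
      (fun i => (y i).2) ≠ (fun i => (y i).1.2.2) ∧
      ¬ R n (fun i => ((y i).2, (y i).1.2.2))

/-- the condition under the counting operator in `LST` -/
def Tl (q : ℕ) (F : WP (Fin q)) (D : WP (Γ × (Fin q × Fin q))) : WP (Γ × Fin q) := fun n y =>
  (∃ t : Fin (n + 1) → Fin q, (∀ i, (t i : ℕ) = q - 1) ∧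
        D n (fun i => ((y i).1, (t i, (y i).2)))) ∧ ¬ F n (fun i => (y i).2)

/-- the number of the `j < p` with `θ j` -/
noncomputable def Nn (θ : ℕ → Prop) (p : ℕ) : ℕ := Nat.card {j : ℕ // j < p ∧ θ j}

open Classical in
lemma Nn_eq (θ : ℕ → Prop) (p : ℕ) : Nn θ p = ((Finset.range p).filter θ).card := by
  unfold Nn
  refine Nat.subtype_card _ fun x => ?_
  simp

lemma Nn_zero (θ : ℕ → Prop) : Nn θ 0 = 0 := by
  rw [Nn_eq]
  simp

lemma Nn_pos {θ : ℕ → Prop} {p : ℕ} (h : θ p) : Nn θ (p + 1) = Nn θ p + 1 := by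
  rw [Nn_eq, Nn_eq, Finset.range_add_one, Finset.filter_insert, if_pos h,
    Finset.card_insert_of_notMem (by simp)]

lemma Nn_neg {θ : ℕ → Prop} {p : ℕ} (h : ¬ θ p) : Nn θ (p + 1) = Nn θ p := by
  rw [Nn_eq, Nn_eq, Finset.range_add_one, Finset.filter_insert, if_neg h]

/-- counting by paths -/
lemma cnt : CNT_Stmt := by
  intro θ p m
  change (ReflTransGen (CntStep θ (fun _ => True)) (0, 0) (p, m) ↔ m ≤ Nn θ p) ∧
    (ReflTransGen (CntStep θ (fun j => ¬ θ j)) (0, 0) (p, m) ↔ m = Nn θ p)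
  have hle : ∀ p, Nn θ p ≤ Nn θ (p + 1) := by
    intro p
    by_cases h : θ p
    · rw [Nn_pos h]
      exact Nat.le_succ _
    · rw [Nn_neg h]
  refine ⟨⟨fun h => ?_, fun h => ?_⟩, ⟨fun h => ?_, fun h => ?_⟩⟩
  · have h1 : ∀ c : ℕ × ℕ, ReflTransGen (CntStep θ (fun _ => True)) (0, 0) c →
        c.2 ≤ Nn θ c.1 := by
      intro c hc
      induction hc with
      | refl => exact Nat.zero_le _
      | tail _ hs ih =>
        obtain ⟨e1, ⟨e2, -⟩ | ⟨e2, e3⟩⟩ := hs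
        · rw [e1, e2]
          exact ih.trans (hle _)
        · rw [e1, e2, Nn_pos e3]
          exact Nat.succ_le_succ ih
    exact h1 _ h
  · induction p generalizing m with
    | zero =>
      rw [Nn_zero] at h
      rw [Nat.le_zero.1 h]
    | succ p ih =>
      by_cases hm : m ≤ Nn θ p
      · exact (ih m hm).tail ⟨rfl, Or.inl ⟨rfl, trivial⟩⟩
      · by_cases hp : θ p
        · rw [Nn_pos hp] at h
          obtain ⟨m', rfl⟩ : ∃ m', m = m' + 1 := ⟨m - 1, by omega⟩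
          exact (ih m' (by omega)).tail ⟨rfl, Or.inr ⟨rfl, hp⟩⟩
        · rw [Nn_neg hp] at h
          exact absurd h hm
  · have h1 : ∀ c : ℕ × ℕ, ReflTransGen (CntStep θ (fun j => ¬ θ j)) (0, 0) c →
        c.2 = Nn θ c.1 := by
      intro c hc
      induction hc with
      | refl => exact (Nn_zero θ).symm
      | tail _ hs ih =>
        obtain ⟨e1, ⟨e2, e3⟩ | ⟨e2, e3⟩⟩ := hs
        · rw [e1, e2, Nn_neg e3]
          exact ih
        · rw [e1, e2, Nn_pos e3, ih]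
    exact h1 _ h
  · subst h
    induction p with
    | zero => rw [Nn_zero]
    | succ p ih =>
      by_cases hp : θ p
      · rw [Nn_pos hp]
        exact ih.tail ⟨rfl, Or.inr ⟨rfl, hp⟩⟩
      · rw [Nn_neg hp]
        exact ih.tail ⟨rfl, Or.inl ⟨rfl, hp⟩⟩

end CPIAux

open CPIAux in
theorem t_CPI : CPI_Stmt := by
  intro hL hB hO hT hN hS hG hE Γ _ q hq I R F D hI hR hF hD
  have hL' := hL
  have hB' := hB
  obtain ⟨hL1, hL2, hL3, hL4, hL5, hL6⟩ := hL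
  obtain ⟨hB1, hB2, hB3, hB4⟩ := hB
  have hN' := hN hL' hB' hO
  have hG2 := hG hL' hB' hO hT hS cnt
  have hE' := hE hL' hB' hO hT hS
  have hsuc := (hS q hq).2
  -- NXW
  have hTh : Cc (Th q R D) := by
    refine hB3 _ _ _ (hB2 _ _ (fun x : (Γ × (Fin q × Fin q)) × Fin q => (x.1.1, (x.1.2.1, x.2))) D
      hD) (hB3 _ _ _ ?_ ?_)
    · refine congr (hN' _ _ (hL3 ((Γ × (Fin q × Fin q)) × Fin q) {x | x.2 = x.1.2.2})) ?_
      intro n a
      rw [not_iff_not]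
      constructor
      · intro h
        funext i
        exact h i
      · intro h i
        exact congrFun h i
    · exact hN' _ _ (hL1 _ _ (fun x : (Γ × (Fin q × Fin q)) × Fin q => (x.2, x.1.2.2)) R hR)
  have hNXW : Cc (NXW q R D) :=
    hB2 _ _ (fun x : (Γ × (Fin q × Fin q)) × Fin q => ((x.1.1, (x.1.2.1, x.2)), x.1.2.2)) _
      (hG2 _ q hq _ hTh)
  -- CTS
  have hEX : Cc (EX q (fun n (y : Fin (n + 1) → (Γ × (Fin q × (Fin q × Fin q))) × Fin q) =>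
      D n (fun i => ((y i).1.1, ((y i).1.2.1, (y i).2))))
    (fun n (y : Fin (n + 1) → (Γ × (Fin q × (Fin q × Fin q))) × Fin q) =>
      NXW q R D n (fun i => (((y i).1.1, (y i).1.2.2), (y i).2)))) := by
    refine hE' _ q hq _ _ ?_ ?_
    · exact hB2 _ _ (fun x : (Γ × (Fin q × (Fin q × Fin q))) × Fin q => (x.1.1, (x.1.2.1, x.2))) D hD
    · exact hB2 _ _ (fun x : (Γ × (Fin q × (Fin q × Fin q))) × Fin q => ((x.1.1, x.1.2.2), x.2)) _
        hNXW
  have hCTS : Cc (CTS q R D) := by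
    refine hB3 _ _ _ ?_ ?_
    · exact hB1 _ _ (hL1 _ _ (fun x : Γ × ((Fin q × Fin q) × (Fin q × Fin q)) =>
        (x.2.1.1, x.2.2.1)) _ hsuc)
    · exact hB2 _ _ (fun x : Γ × ((Fin q × Fin q) × (Fin q × Fin q)) =>
        ((x.1, (x.2.2.1, x.2.1)), x.2.2.2)) _ hEX
  -- LST
  have hTl : Cc (Tl q F D) := by
    refine hB3 _ _ _ ?_ ?_
    · refine hB4 (Γ × Fin q) (Fin q) (fun n z => (∀ i, ((z i).2 : ℕ) = q - 1) ∧
        D n (fun i => ((z i).1.1, ((z i).2, (z i).1.2)))) (hB3 _ _ _ ?_ ?_)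
      · exact hB1 _ _ (hL3 ((Γ × Fin q) × Fin q) {x | (x.2 : ℕ) = q - 1})
      · exact hB2 _ _ (fun x : (Γ × Fin q) × Fin q => (x.1.1, (x.2, x.1.2))) D hD
    · exact hN' _ _ (hL1 _ _ (fun x : Γ × Fin q => x.2) F hF)
  have hLST : Cc (LST q F D) := hG2 _ q hq _ hTl
  -- the formula
  refine hB4 Γ (Fin q × Fin q) (fun n z => ∃ e : Fin (n + 1) → Fin q × Fin q,
    (∀ i, ((z i).2.1 : ℕ) = 0) ∧ (∀ i, ((e i).1 : ℕ) = q - 1) ∧
    EX q I (fun n y => ¬ I n y) n (fun i => ((z i).1, (z i).2.2)) ∧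
    ReflTransGen (fun b b' : Fin (n + 1) → Fin q × Fin q =>
      CTS q R D n (zp (fun i => (z i).1) (zp b b'))) (fun i => (z i).2) e ∧
    LST q F D n (fun i => ((z i).1, (e i).2))) ?_
  refine hB4 (Γ × (Fin q × Fin q)) (Fin q × Fin q) (fun n z =>
    (∀ i, ((z i).1.2.1 : ℕ) = 0) ∧ (∀ i, ((z i).2.1 : ℕ) = q - 1) ∧
    EX q I (fun n y => ¬ I n y) n (fun i => ((z i).1.1, (z i).1.2.2)) ∧
    ReflTransGen (fun b b' : Fin (n + 1) → Fin q × Fin q =>
      CTS q R D n (zp (fun i => (z i).1.1) (zp b b'))) (fun i => (z i).1.2) (fun i => (z i).2) ∧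
    LST q F D n (fun i => ((z i).1.1, (z i).2.2))) ?_
  refine hB3 _ _ _ ?_ (hB3 _ _ _ ?_ (hB3 _ _ _ ?_ (hB3 _ _ _ ?_ ?_)))
  · exact hB1 _ _ (hL3 ((Γ × (Fin q × Fin q)) × (Fin q × Fin q)) {x | (x.1.2.1 : ℕ) = 0})
  · exact hB1 _ _ (hL3 ((Γ × (Fin q × Fin q)) × (Fin q × Fin q)) {x | (x.2.1 : ℕ) = q - 1})
  · exact hB2 _ _ (fun x : (Γ × (Fin q × Fin q)) × (Fin q × Fin q) => (x.1.1, x.1.2.2)) _
      (hE' _ q hq _ _ (hB1 _ _ hI) (hN' _ _ hI))
  · exact hB2 _ _ (fun x : (Γ × (Fin q × Fin q)) × (Fin q × Fin q) => (x.1.1, (x.1.2, x.2))) _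
      (hT Γ (Fin q × Fin q) (CTS q R D) hCTS)
  · exact hB2 _ _ (fun x : (Γ × (Fin q × Fin q)) × (Fin q × Fin q) => (x.1.1, x.2.2)) _ hLST

end Pool.Agent.NPH
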