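import Pool.Agent.NPH.StC

/-!
# NPH, module DIN: bounded reachability is in the class (helper31)
-/

set_option autoImplicit false

namespace Pool.Agent.NPH

open Relation

namespace DINAux

section

variable {Γ : Type} (q : ℕ) (I : WP (Γ × Fin q)) (R : WP (Fin q × Fin q))

/-- one step on the pairs (counter, vertex) -/
def St : WP (Unit × ((Fin q × Fin q) × (Fin q × Fin q))) := fun n y =>
  Suc q n (fun i => ((y i).2.1.1, (y i).2.2.1)) ∧
    ((∀ i, y i ∈ {z : Unit × ((Fin q × Fin q) × (Fin q × Fin q)) | z.2.1.2 = z.2.2.2}) ∨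
      R n (fun i => ((y i).2.1.2, (y i).2.2.2)))

/-- paths -/
def Pth : WP (Unit × ((Fin q × Fin q) × (Fin q × Fin q))) := fun n a =>
  ReflTransGen (fun b b' : Fin (n + 1) → Fin q × Fin q => St q R n (zp (fun i => (a i).1) (zp b b')))
    (fun i => (a i).2.1) (fun i => (a i).2.2)

/-- the body of the formula -/
def Body : WP ((Γ × (Fin q × Fin q)) × (Fin q × Fin q)) := fun n w =>
  (∀ i, w i ∈ {z : (Γ × (Fin q × Fin q)) × (Fin q × Fin q) | (z.2.1 : ℕ) = 0}) ∧
    (I n (fun i => ((w i).1.1, (w i).2.2)) ∧ Pth q R n (fun i => ((), ((w i).2, (w i).1.2))))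

end

lemma cc_st (hL : LCL_Stmt) (hB : CLB_Stmt) (hO : CLO_Stmt) (hS : SUC_Stmt) (q : ℕ) (hq : 2 ≤ q)
    (R : WP (Fin q × Fin q)) (hR : Loc R) : Cc (St q R) := by
  obtain ⟨l1, l2, l3, l4, l5, l6⟩ := hL
  obtain ⟨b1, b2, b3, b4⟩ := hB
  refine b3 _ _ _ ?_ (hO _ _ _ ?_ ?_)
  · exact b1 _ _ (l1 (Fin q × Fin q) (Unit × ((Fin q × Fin q) × (Fin q × Fin q)))
      (fun z => (z.2.1.1, z.2.2.1)) (Suc q) (hS q hq).2)
  · exact b1 _ _ (l3 _ _)
  · exact b1 _ _ (l1 (Fin q × Fin q) (Unit × ((Fin q × Fin q) × (Fin q × Fin q)))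
      (fun z => (z.2.1.2, z.2.2.2)) R hR)

/-- the meaning of the paths -/
lemma path_iff (hS : SUC_Stmt) (q : ℕ) (hq : 2 ≤ q) (R : WP (Fin q × Fin q)) (n : ℕ)
    (b : Fin (n + 1) → Fin q) (z : Fin (n + 1) → Fin q) (hz : ∀ i, (z i : ℕ) = 0)
    (l u : Fin (n + 1) → Fin q) :
    ReflTransGen (fun c c' : Fin (n + 1) → Fin q × Fin q =>
        St q R n (zp (fun _ => ()) (zp c c'))) (fun i => (z i, b i)) (fun i => (l i, u i)) ↔
      ∃ w : ℕ → (Fin (n + 1) → Fin q), w 0 = b ∧ w (val l) = u ∧
        ∀ j < val l, w (j + 1) = w j ∨ R n (zp (w j) (w (j + 1))) := by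
  have vz : val z = 0 := by
    unfold val
    exact Finset.sum_eq_zero fun i _ => by rw [hz i, zero_mul]
  constructor
  · intro h
    have key : ∀ c : Fin (n + 1) → Fin q × Fin q, ReflTransGen
        (fun c c' : Fin (n + 1) → Fin q × Fin q => St q R n (zp (fun _ => ()) (zp c c')))
        (fun i => (z i, b i)) c →
        ∃ w : ℕ → (Fin (n + 1) → Fin q), w 0 = b ∧ w (val fun i => (c i).1) = (fun i => (c i).2) ∧
          ∀ j < val (fun i => (c i).1), w (j + 1) = w j ∨ R n (zp (w j) (w (j + 1))) := by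
      intro c hc
      induction hc with
      | refl =>
        refine ⟨fun _ => b, rfl, rfl, ?_⟩
        intro j hj
        exact Or.inl rfl
      | @tail c c' hc hs ih =>
        obtain ⟨w, h0, h1, h2⟩ := ih
        obtain ⟨s1, s2⟩ := hs
        have s1' : val (fun i => (c' i).1) = val (fun i => (c i).1) + 1 := s1
        refine ⟨fun j => if j ≤ val (fun i => (c i).1) then w j else fun i => (c' i).2, ?_, ?_, ?_⟩
        · simp only [Nat.zero_le, if_true]
          exact h0
        · rw [s1']
          simp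
        · intro j hj
          rw [s1'] at hj
          rcases Nat.lt_or_ge j (val fun i => (c i).1) with hlt | hge
          · have e1 : j ≤ val fun i => (c i).1 := hlt.le
            have e2 : j + 1 ≤ val fun i => (c i).1 := hlt
            simp only [e1, e2, if_true]
            exact h2 j hlt
          · have e0 : j = val fun i => (c i).1 := by omega
            subst e0
            have e2 : ¬ (val (fun i => (c i).1) + 1 ≤ val fun i => (c i).1) := by omega
            simp only [le_refl, if_true, e2, if_false]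
            rw [h1]
            rcases s2 with s2 | s2
            · left
              funext i
              exact (s2 i).symm
            · right
              exact s2
    exact key _ h
  · rintro ⟨w, h0, h1, h2⟩
    have key : ∀ j : ℕ, j ≤ val l → ∀ c : Fin (n + 1) → Fin q, val c = j →
        ReflTransGen (fun c c' : Fin (n + 1) → Fin q × Fin q =>
          St q R n (zp (fun _ => ()) (zp c c'))) (fun i => (z i, b i)) (fun i => (c i, w j i)) := by
      intro j
      induction j with
      | zero =>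
        intro _ c hc
        have hcz : c = z := ((hS q hq).1 n).1 (by rw [hc, vz])
        rw [hcz, h0]
      | succ j ih =>
        intro hj c hc
        have hlt : j < q ^ (n + 1) := by
          have := (((hS q hq).1 n).2 (j + 1)).2 ⟨c, hc⟩
          omega
        obtain ⟨c', hc'⟩ := (((hS q hq).1 n).2 j).1 hlt
        refine ReflTransGen.tail (ih (by omega) c' hc') ⟨?_, ?_⟩
        · show val c = val c' + 1
          rw [hc, hc']
        · rcases h2 j (by omega) with h | h
          · left
            intro i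
            show w j i = w (j + 1) i
            rw [h]
          · right
            exact h
    have := key (val l) le_rfl l rfl
    rw [h1] at this
    exact this

end DINAux

open DINAux in
theorem t_DIN : DIN_Stmt := by
  intro hL hB hO hT hS Γ _ q hq I R hI hR
  have hq0 : 0 < q := by omega
  have hSt := cc_st hL hB hO hS q hq R hR
  have hPth : Cc (Pth q R) := hT Unit (Fin q × Fin q) (St q R) hSt
  have hBody : Cc (Body q I R) := by
    obtain ⟨l1, l2, l3, l4, l5, l6⟩ := hL
    obtain ⟨b1, b2, b3, b4⟩ := hB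
    refine b3 _ _ _ (b1 _ _ (l3 _ _)) (b3 _ _ _ ?_ ?_)
    · exact b1 _ _ (l1 (Γ × Fin q) ((Γ × (Fin q × Fin q)) × (Fin q × Fin q))
        (fun z => (z.1.1, z.2.2)) I hI)
    · exact b2 (Unit × ((Fin q × Fin q) × (Fin q × Fin q)))
        ((Γ × (Fin q × Fin q)) × (Fin q × Fin q)) (fun z => ((), (z.2, z.1.2))) (Pth q R) hPth
  refine ⟨fun n a => ∃ b : Fin (n + 1) → Fin q × Fin q, Body q I R n (zp a b),
    hB.2.2.2 _ _ _ hBody, ?_⟩
  intro n a l u
  constructor
  · rintro ⟨b, h1, h2, h3⟩
    exact ⟨fun i => (b i).2, h2,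
      (path_iff hS q hq R n (fun i => (b i).2) (fun i => (b i).1) h1 l u).1 h3⟩
  · rintro ⟨b, h2, h3⟩
    exact ⟨fun i => (⟨0, hq0⟩, b i), fun _ => rfl, h2,
      (path_iff hS q hq R n b (fun _ => ⟨0, hq0⟩) (fun _ => rfl) l u).2 h3⟩

end Pool.Agent.NPH
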