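import Pool.Agent.NPH.StC

/-!
# NPH, module EXC: closure under exact counting paths
-/

set_option autoImplicit false

namespace Pool.Agent.NPH

open Pool.Agent.Heads Relation

namespace EXC

theorem congr_iff {Γ : Type} {P P' : WP Γ} (h : ∀ n a, P n a ↔ P' n a) (hP' : Cc P') : Cc P := by
  obtain ⟨Δ, fin, I, R, F, hI, hR, hF, h'⟩ := hP'
  exact ⟨Δ, fin, I, R, F, hI, hR, hF, fun n a => (h n a).trans (h' n a)⟩

theorem val_zero {q n : ℕ} {p : Fin (n + 1) → Fin q} (h : ∀ i, (p i : ℕ) = 0) : val p = 0 := by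
  unfold val
  refine Finset.sum_eq_zero fun i _ => ?_
  rw [h i, Nat.zero_mul]

theorem val_top {q n : ℕ} (hq : 2 ≤ q) {p : Fin (n + 1) → Fin q} (h : ∀ i, (p i : ℕ) = q - 1) :
    val p = q ^ (n + 1) - 1 := by
  unfold val
  obtain ⟨x, rfl⟩ : ∃ x, q = x + 1 := ⟨q - 1, by omega⟩
  have h1 : ∀ i : Fin (n + 1), (p i : ℕ) * (x + 1) ^ (i : ℕ) = (x + 1) ^ (i : ℕ) * x := by
    intro i
    rw [h i, Nat.add_sub_cancel, Nat.mul_comm]
  rw [Finset.sum_congr rfl fun i _ => h1 i, ← Finset.sum_mul,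
    Fin.sum_univ_eq_sum_range fun i => (x + 1) ^ i]
  have h2 := geom_sum_mul_add x (n + 1)
  omega

variable {Γ : Type} (q : ℕ) (θ θ' : WP (Γ × Fin q))

/-- the step of the graph on pairs of words -/
def Stp : WP (Γ × ((Fin q × Fin q) × (Fin q × Fin q))) := fun n a =>
  Suc q n (fun i => ((a i).2.1.1, (a i).2.2.1)) ∧
    (((∀ i, a i ∈ {x : Γ × ((Fin q × Fin q) × (Fin q × Fin q)) | x.2.2.2 = x.2.1.2}) ∧
        θ' n (fun i => ((a i).1, (a i).2.1.1))) ∨
      (Suc q n (fun i => ((a i).2.1.2, (a i).2.2.2)) ∧ θ n (fun i => ((a i).1, (a i).2.1.1))))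

/-- the condition on the ends -/
def Ends : Set ((Γ × Fin q) × ((Fin q × Fin q) × (Fin q × Fin q))) :=
  {x | (x.2.1.1 : ℕ) = 0 ∧ (x.2.1.2 : ℕ) = 0 ∧ (x.2.2.1 : ℕ) = q - 1 ∧ x.2.2.2 = x.1.2}

variable {q θ θ'}

theorem lift_step {n : ℕ} {A : Fin (n + 1) → Γ} {b b' : Fin (n + 1) → Fin q × Fin q}
    (h : Stp q θ θ' n (zp A (zp b b'))) :
    CntStep (fun j => ∃ c : Fin (n + 1) → Fin q, val c = j ∧ θ n (zp A c))
      (fun j => ∃ c : Fin (n + 1) → Fin q, val c = j ∧ θ' n (zp A c))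
      (val fun i => (b i).1, val fun i => (b i).2) (val fun i => (b' i).1, val fun i => (b' i).2) := by
  obtain ⟨h1, h2⟩ := h
  refine ⟨h1, ?_⟩
  rcases h2 with ⟨h3, h4⟩ | ⟨h3, h4⟩
  · refine Or.inl ⟨?_, fun i => (b i).1, rfl, h4⟩
    have h5 : (fun i => (b' i).2) = fun i => (b i).2 := funext fun i => h3 i
    show val (fun i => (b' i).2) = val fun i => (b i).2
    rw [h5]
  · exact Or.inr ⟨h3, fun i => (b i).1, rfl, h4⟩

theorem path_back {n : ℕ} (hval : Function.Injective (val : (Fin (n + 1) → Fin q) → ℕ) ∧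
      ∀ m : ℕ, m < q ^ (n + 1) ↔ ∃ a : Fin (n + 1) → Fin q, val a = m)
    {A : Fin (n + 1) → Γ} {t m : Fin (n + 1) → Fin q} {c : ℕ × ℕ}
    (h : ReflTransGen (CntStep (fun j => ∃ c : Fin (n + 1) → Fin q, val c = j ∧ θ n (zp A c))
      (fun j => ∃ c : Fin (n + 1) → Fin q, val c = j ∧ θ' n (zp A c))) c (val t, val m)) :
    c.1 ≤ val t ∧ c.2 ≤ val m ∧ ∀ b : Fin (n + 1) → Fin q × Fin q,
      (val fun i => (b i).1) = c.1 → (val fun i => (b i).2) = c.2 →
      ReflTransGen (fun u u' : Fin (n + 1) → Fin q × Fin q => Stp q θ θ' n (zp A (zp u u'))) b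
        (zp t m) := by
  obtain ⟨hinj, hsur⟩ := hval
  have ht : val t < q ^ (n + 1) := (hsur _).2 ⟨t, rfl⟩
  have hm : val m < q ^ (n + 1) := (hsur _).2 ⟨m, rfl⟩
  induction h using ReflTransGen.head_induction_on with
  | refl =>
    refine ⟨le_rfl, le_rfl, fun b h1 h2 => ?_⟩
    have e1 := hinj h1
    have e2 := hinj h2
    have e3 : b = zp t m := by
      funext i
      exact Prod.ext (congrFun e1 i) (congrFun e2 i)
    rw [e3]
  | @head c c' hs hr ih =>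
    obtain ⟨g1, g2, g3⟩ := ih
    obtain ⟨k1, k2⟩ := hs
    have k3 : c.2 ≤ c'.2 := by
      rcases k2 with ⟨k2, -⟩ | ⟨k2, -⟩ <;> omega
    refine ⟨by omega, by omega, fun b h1 h2 => ?_⟩
    obtain ⟨p', hp'⟩ := (hsur c'.1).1 (by omega)
    obtain ⟨m', hm'⟩ := (hsur c'.2).1 (by omega)
    refine ReflTransGen.head (b := zp p' m') ?_ (g3 (zp p' m') hp' hm')
    refine ⟨?_, ?_⟩
    · show val p' = (val fun i => (b i).1) + 1
      rw [hp', h1, k1]
    · rcases k2 with ⟨k2, w, hw1, hw2⟩ | ⟨k2, w, hw1, hw2⟩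
      · have e1 : w = fun i => (b i).1 := hinj (hw1.trans h1.symm)
        have e2 : m' = fun i => (b i).2 := hinj (by rw [hm', k2]; exact h2.symm)
        rw [e1] at hw2
        exact Or.inl ⟨fun i => congrFun e2 i, hw2⟩
      · have e1 : w = fun i => (b i).1 := hinj (hw1.trans h1.symm)
        rw [e1] at hw2
        refine Or.inr ⟨?_, hw2⟩
        show val m' = (val fun i => (b i).2) + 1
        rw [hm', h2, k2]

end EXC

open EXC in
theorem t_EXC : EXC_Stmt := by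
  intro hLCL hCLB hCLO hCLT hSUC Γ _ q hq θ θ' hθ hθ'
  obtain ⟨-, -, l3, -, -, -⟩ := hLCL
  obtain ⟨b1, b2, b3, b4⟩ := hCLB
  obtain ⟨hval, hSucLoc⟩ := hSUC q hq
  have hSuc : Cc (Suc q) := b1 _ _ hSucLoc
  have hP : Cc (Stp q θ θ') :=
    b3 _ _ _ (b2 _ (Γ × ((Fin q × Fin q) × (Fin q × Fin q))) (fun x => (x.2.1.1, x.2.2.1)) _ hSuc)
      (hCLO _ _ _
        (b3 _ _ _ (b1 _ _ (l3 (Γ × ((Fin q × Fin q) × (Fin q × Fin q))) {x | x.2.2.2 = x.2.1.2}))
          (b2 _ (Γ × ((Fin q × Fin q) × (Fin q × Fin q))) (fun x => (x.1, x.2.1.1)) _ hθ'))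
        (b3 _ _ _
          (b2 _ (Γ × ((Fin q × Fin q) × (Fin q × Fin q))) (fun x => (x.2.1.2, x.2.2.2)) _ hSuc)
          (b2 _ (Γ × ((Fin q × Fin q) × (Fin q × Fin q))) (fun x => (x.1, x.2.1.1)) _ hθ)))
  have hTC := hCLT Γ (Fin q × Fin q) (Stp q θ θ') hP
  have hTC' := b2 _ ((Γ × Fin q) × ((Fin q × Fin q) × (Fin q × Fin q))) (fun x => (x.1.1, x.2)) _
    hTC
  have hQ := b3 _ _ _ (b1 _ _ (l3 _ (Ends q (Γ := Γ)))) hTC'
  have hE := b4 (Γ × Fin q) ((Fin q × Fin q) × (Fin q × Fin q)) _ hQ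
  refine congr_iff (fun n a => ?_) hE
  have hq0 : 0 < q := by omega
  constructor
  · intro h
    have h0 : val (fun _ : Fin (n + 1) => (⟨0, hq0⟩ : Fin q)) = 0 := val_zero fun _ => rfl
    have ht : val (fun _ : Fin (n + 1) => (⟨q - 1, by omega⟩ : Fin q)) = q ^ (n + 1) - 1 :=
      val_top hq fun _ => rfl
    unfold EX at h
    rw [← ht] at h
    obtain ⟨-, -, h1⟩ := path_back (hval n) h
    refine ⟨fun i => ((⟨0, hq0⟩, ⟨0, hq0⟩), (⟨q - 1, by omega⟩, (a i).2)), ?_, ?_⟩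
    · exact fun i => ⟨rfl, rfl, rfl, rfl⟩
    · exact h1 (fun _ => (⟨0, hq0⟩, ⟨0, hq0⟩)) h0 h0
  · rintro ⟨b, hb, h⟩
    unfold EX
    have h1 := ReflTransGen.lift (r := fun u u' : Fin (n + 1) → Fin q × Fin q =>
        Stp q θ θ' n (zp (fun i => (a i).1) (zp u u')))
      (p := CntStep (fun j => ∃ c : Fin (n + 1) → Fin q, val c = j ∧
          θ n (zp (fun i => (a i).1) c))
        (fun j => ∃ c : Fin (n + 1) → Fin q, val c = j ∧ θ' n (zp (fun i => (a i).1) c)))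
      (fun u : Fin (n + 1) → Fin q × Fin q => (val fun i => (u i).1, val fun i => (u i).2))
      (fun _ _ hs => lift_step hs) _ _ h
    have e1 : (val fun i => (b i).1.1) = 0 := val_zero fun i => (hb i).1
    have e2 : (val fun i => (b i).1.2) = 0 := val_zero fun i => (hb i).2.1
    have e3 : (val fun i => (b i).2.1) = q ^ (n + 1) - 1 := val_top hq fun i => (hb i).2.2.1
    have e4 : (fun i => (b i).2.2) = fun i => (a i).2 := funext fun i => (hb i).2.2.2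
    have e5 : (val fun i => (b i).2.2) = val fun i => (a i).2 := by rw [e4]
    rw [← e3, ← e5]
    have h2 : ((0, 0) : ℕ × ℕ) = (val fun i => (b i).1.1, val fun i => (b i).1.2) := by
      rw [e1, e2]
    rw [h2]
    exact h1

end Pool.Agent.NPH
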