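import Pool.Agent.NPH.StC

/-!
# Project NPH, module GEC: closure under counting from below
-/

set_option autoImplicit false

namespace Pool.Agent.NPH

open Relation

namespace GEC

variable {Γ : Type} {q : ℕ}

/-- the conditions on one step of the counting path, as a predicate on words -/
def Q (q : ℕ) (θ : WP (Γ × Fin q)) : WP (Γ × ((Fin q × Fin q) × (Fin q × Fin q))) := fun n a =>
  Suc q n (fun i => ((a i).2.1.1, (a i).2.2.1)) ∧
    ((∀ i, (a i).2.2.2 = (a i).2.1.2) ∨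
      (Suc q n (fun i => ((a i).2.1.2, (a i).2.2.2)) ∧ θ n (fun i => ((a i).1, (a i).2.1.1))))

lemma cc_Q (hL : LCL_Stmt) (hB : CLB_Stmt) (hO : CLO_Stmt) (hS : Loc (Suc q))
    {θ : WP (Γ × Fin q)} (hθ : Cc θ) : Cc (Q q θ) := by
  obtain ⟨b1, b2, b3, -⟩ := hB
  have h1 := b2 _ _ (fun x : Γ × ((Fin q × Fin q) × (Fin q × Fin q)) => (x.2.1.1, x.2.2.1)) _
    (b1 _ _ hS)
  have h2 := b2 _ _ (fun x : Γ × ((Fin q × Fin q) × (Fin q × Fin q)) => (x.2.1.2, x.2.2.2)) _
    (b1 _ _ hS)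
  have h3 := b2 _ _ (fun x : Γ × ((Fin q × Fin q) × (Fin q × Fin q)) => (x.1, x.2.1.1)) _ hθ
  have h4 := b1 _ _ (hL.2.2.1 (Γ × ((Fin q × Fin q) × (Fin q × Fin q)))
    {x | x.2.2.2 = x.2.1.2})
  exact b3 _ _ _ h1 (hO _ _ _ h4 (b3 _ _ _ h2 h3))

lemma val_zero (hq : 2 ≤ q) (n : ℕ) : val (fun _ : Fin (n + 1) => (⟨0, by omega⟩ : Fin q)) = 0 := by
  simp [val]

lemma val_top (hq : 2 ≤ q)
    (hs : ∀ n : ℕ, Function.Injective (val : (Fin (n + 1) → Fin q) → ℕ) ∧
      ∀ m : ℕ, m < q ^ (n + 1) ↔ ∃ a : Fin (n + 1) → Fin q, val a = m) (n : ℕ)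
    (p : Fin (n + 1) → Fin q) : (∀ i, (p i : ℕ) = q - 1) ↔ val p = q ^ (n + 1) - 1 := by
  have hpos : 0 < q ^ (n + 1) := pow_pos (by omega) _
  obtain ⟨t, ht⟩ := ((hs n).2 (q ^ (n + 1) - 1)).1 (by omega)
  have key : ∀ p : Fin (n + 1) → Fin q, (∀ i, (p i : ℕ) = q - 1) → val p = q ^ (n + 1) - 1 := by
    intro p hp
    have h1 : val t ≤ val p := by
      unfold val
      refine Finset.sum_le_sum fun i _ => Nat.mul_le_mul_right _ ?_
      rw [hp i]
      have := (t i).isLt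
      omega
    have h2 := ((hs n).2 (val p)).2 ⟨p, rfl⟩
    omega
  refine ⟨key p, fun h i => ?_⟩
  have h1 := key (fun _ => ⟨q - 1, by omega⟩) (fun _ => rfl)
  have h2 := (hs n).1 (h.trans h1.symm)
  rw [h2]

/-- from words to numbers and back -/
lemma path_iff (hq : 2 ≤ q)
    (hs : ∀ n : ℕ, Function.Injective (val : (Fin (n + 1) → Fin q) → ℕ) ∧
      ∀ m : ℕ, m < q ^ (n + 1) ↔ ∃ a : Fin (n + 1) → Fin q, val a = m)
    (θ : WP (Γ × Fin q)) (n : ℕ) (g : Fin (n + 1) → Γ) (p m : Fin (n + 1) → Fin q) :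
    ReflTransGen (CntStep (fun j => ∃ b : Fin (n + 1) → Fin q, val b = j ∧ θ n (zp g b))
      (fun _ => True)) (0, 0) (val p, val m) ↔
    ReflTransGen (fun b b' : Fin (n + 1) → Fin q × Fin q => Q q θ n (zp g (zp b b')))
      (fun _ => (⟨0, by omega⟩, ⟨0, by omega⟩)) (zp p m) := by
  constructor
  · intro h
    obtain ⟨c, hc⟩ : ∃ c, c = (val p, val m) := ⟨_, rfl⟩
    rw [← hc] at h
    induction h generalizing p m with
    | refl =>
      have h1 : val p = 0 := (congrArg Prod.fst hc).symm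
      have h2 : val m = 0 := (congrArg Prod.snd hc).symm
      have e1 := (hs n).1 (h1.trans (val_zero hq n).symm)
      have e2 := (hs n).1 (h2.trans (val_zero hq n).symm)
      rw [e1, e2]
      exact ReflTransGen.refl
    | @tail d c _ hstep ih =>
      subst hc
      obtain ⟨s1, s2⟩ := hstep
      simp only at s1 s2
      have l1 := ((hs n).2 (val p)).2 ⟨p, rfl⟩
      have l2 := ((hs n).2 (val m)).2 ⟨m, rfl⟩
      obtain ⟨p0, hp0⟩ := ((hs n).2 d.1).1 (by omega)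
      obtain ⟨m0, hm0⟩ := ((hs n).2 d.2).1 (by omega)
      refine ReflTransGen.tail (ih p0 m0 (by rw [hp0, hm0])) ⟨?_, ?_⟩
      · change val p = val p0 + 1
        omega
      · rcases s2 with ⟨s2, -⟩ | ⟨s2, b, hb, hθ⟩
        · left
          intro i
          have : m = m0 := (hs n).1 (by omega)
          rw [this]
          rfl
        · right
          refine ⟨?_, ?_⟩
          · change val m = val m0 + 1
            omega
          · have : b = p0 := (hs n).1 (by omega)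
            rw [this] at hθ
            exact hθ
  · intro h
    have h1 := ReflTransGen.lift (p := CntStep (fun j => ∃ b : Fin (n + 1) → Fin q,
      val b = j ∧ θ n (zp g b)) (fun _ => True))
      (fun w : Fin (n + 1) → Fin q × Fin q => (val (fun i => (w i).1), val (fun i => (w i).2)))
      (fun b b' hb => ?_) _ _ h
    · have e : ((val (fun i : Fin (n + 1) => (⟨0, by omega⟩ : Fin q)),
          val (fun i : Fin (n + 1) => (⟨0, by omega⟩ : Fin q))) : ℕ × ℕ) = (0, 0) := by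
        rw [val_zero hq n]
      rw [← e]
      exact h1
    · obtain ⟨s1, s2⟩ := hb
      refine ⟨s1, ?_⟩
      rcases s2 with s2 | ⟨s2, s3⟩
      · left
        refine ⟨?_, trivial⟩
        exact congrArg val (funext s2)
      · right
        exact ⟨s2, _, rfl, s3⟩

end GEC

open GEC in
theorem t_GEC : GEC_Stmt := by
  intro hL hB hO hT hS hC Γ _ q hq θ hθ
  obtain ⟨hs, hsl⟩ := hS q hq
  have hQ := cc_Q hL hB hO hsl hθ
  have h1 := hT Γ (Fin q × Fin q) _ hQ
  have h2 := hB.2.1 _ _ (fun x : (Γ × Fin q) × ((Fin q × Fin q) × (Fin q × Fin q)) =>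
    (x.1.1, x.2)) _ h1
  have h3 := hB.1 _ _ (hL.2.2.1 ((Γ × Fin q) × ((Fin q × Fin q) × (Fin q × Fin q)))
    {x | ((x.2.1.1 : ℕ) = 0 ∧ (x.2.1.2 : ℕ) = 0) ∧ (x.2.2.1 : ℕ) = q - 1 ∧ x.2.2.2 = x.1.2})
  have h4 := hB.2.2.2 _ _ _ (hB.2.2.1 _ _ _ h3 h2)
  refine cast (congrArg Cc ?_) h4
  funext n a
  apply propext
  have hpos : 0 < q ^ (n + 1) := pow_pos (by omega) _
  obtain ⟨t, ht⟩ := ((hs n).2 (q ^ (n + 1) - 1)).1 (by omega)
  have hcard : Nat.card {b : Fin (n + 1) → Fin q //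
      val b < q ^ (n + 1) - 1 ∧ θ n (zp (fun i => (a i).1) b)} =
      Nat.card {j : ℕ // j < q ^ (n + 1) - 1 ∧
        ∃ b : Fin (n + 1) → Fin q, val b = j ∧ θ n (zp (fun i => (a i).1) b)} := by
    refine Nat.card_congr (Equiv.ofBijective
      (fun b => ⟨val b.1, b.2.1, b.1, rfl, b.2.2⟩) ⟨?_, ?_⟩)
    · intro b b' hbb
      exact Subtype.ext ((hs n).1 (congrArg Subtype.val hbb))
    · rintro ⟨j, hj, b, rfl, hb⟩
      exact ⟨⟨b, hj, hb⟩, rfl⟩
  have hGE : GE q θ n a ↔ ReflTransGen (CntStep (fun j => ∃ b : Fin (n + 1) → Fin q,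
      val b = j ∧ θ n (zp (fun i => (a i).1) b)) (fun _ => True)) (0, 0)
      (val t, val (fun i => (a i).2)) := by
    rw [(hC _ _ _).1, ht, ← hcard]
    rfl
  rw [hGE, path_iff hq hs]
  constructor
  · rintro ⟨b, hb1, hb2⟩
    have e1 : (fun i => (b i).1) = fun _ : Fin (n + 1) =>
        ((⟨0, by omega⟩, ⟨0, by omega⟩) : Fin q × Fin q) := by
      funext i
      exact Prod.ext (Fin.ext (hb1 i).1.1) (Fin.ext (hb1 i).1.2)
    have e2 : (fun i => (b i).2) = zp t (fun i => (a i).2) := by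
      funext i
      refine Prod.ext ?_ (hb1 i).2.2
      have h5 : (fun i => (b i).2.1) = t := by
        refine (hs n).1 (Eq.trans ?_ ht.symm)
        exact (val_top hq hs n _).1 fun i => (hb1 i).2.1
      exact congrFun h5 i
    rw [← e1, ← e2]
    exact hb2
  · intro h
    refine ⟨zp (fun _ => (⟨0, by omega⟩, ⟨0, by omega⟩)) (zp t (fun i => (a i).2)), ?_, h⟩
    intro i
    exact ⟨⟨rfl, rfl⟩, (val_top hq hs n t).2 ht i, rfl⟩

end Pool.Agent.NPH
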