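import Pool.Agent.NPH.StC

/-! # NPH, HIE: the hierarchy theorem (helper23) -/

set_option autoImplicit false

namespace Pool.Agent.NPH

theorem t_HIE : HIE_Stmt := by
  intro hU hL hC r S hr
  obtain ⟨U, hUc, hT⟩ := hU r S
  obtain ⟨S', hS'⟩ := hL Lam r hr (fun n a => ¬ U n a) (hC.not (Option Lam) U hUc)
  refine ⟨Lam, inferInstance, S', _, hS', ?_⟩
  rintro ⟨T, hTL⟩
  obtain ⟨x, hx⟩ := hT T
  rw [hTL] at hx
  have h1 : (x ∈ {x : List Lam | ¬ U x.length (fun i => x[(i : ℕ)]?)}) ↔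
      ¬ U x.length (fun i => x[(i : ℕ)]?) := Iff.rfl
  rw [h1] at hx
  exact iff_not_self hx

end Pool.Agent.NPH
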