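import Pool.Agent.NPH.StC

/-!
# ISA: the abstract form of the theorem of Immerman and Szelepcsenyi
-/

set_option autoImplicit false

namespace Pool.Agent.NPH

open Pool.Agent.Heads Relation

namespace ISA

open Classical in
theorem card_eq (V : ℕ) (P : ℕ → Prop) :
    Nat.card {u : ℕ // u < V ∧ P u} = ((Finset.range V).filter P).card :=
  Nat.subtype_card _ (by intro x; simp)

theorem card_le (V : ℕ) (P : ℕ → Prop) : Nat.card {u : ℕ // u < V ∧ P u} ≤ V := by
  classical
  rw [card_eq]
  exact (Finset.card_filter_le _ _).trans (by simp)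

/-- a subset with at least as many elements is everything -/
theorem card_imp {V : ℕ} {P Q : ℕ → Prop} (h : ∀ u, u < V → Q u → P u) :
    Nat.card {u : ℕ // u < V ∧ P u} ≤ Nat.card {u : ℕ // u < V ∧ Q u} ↔
      ∀ u, u < V → P u → Q u := by
  classical
  rw [card_eq, card_eq]
  constructor
  · intro hc u hu hp
    have hs : (Finset.range V).filter Q ⊆ (Finset.range V).filter P := by
      intro x hx
      simp only [Finset.mem_filter, Finset.mem_range] at hx ⊢
      exact ⟨hx.1, h x hx.1 hx.2⟩
    have he := Finset.eq_of_subset_of_card_le hs hc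
    have h1 : u ∈ (Finset.range V).filter P := by
      simp only [Finset.mem_filter, Finset.mem_range]
      exact ⟨hu, hp⟩
    rw [← he] at h1
    exact (Finset.mem_filter.1 h1).2
  · intro hall
    refine Finset.card_le_card ?_
    intro x hx
    simp only [Finset.mem_filter, Finset.mem_range] at hx ⊢
    exact ⟨hx.1, hall x hx.1 hx.2⟩

/-- an increasing sequence of sets of numbers below `V` which stops as soon as it pauses is
constant from the index `V` on -/
theorem sat {V : ℕ} {D : ℕ → ℕ → Prop} (hV : ∀ l u, D l u → u < V)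
    (hm : ∀ l u, D l u → D (l + 1) u)
    (hs : ∀ l, (∀ u, D (l + 1) u → D l u) → ∀ u, D (l + 2) u → D (l + 1) u) :
    ∀ u, D (V + 1) u → D V u := by
  by_contra hne
  have h1 : ∀ l ≤ V, ¬ ∀ u, D (l + 1) u → D l u := by
    intro l hl h
    have h2 : ∀ k, ∀ u, D (l + k + 1) u → D (l + k) u := by
      intro k
      induction k with
      | zero => exact h
      | succ k ih => exact hs (l + k) ih
    have h3 := h2 (V - l)
    rw [show l + (V - l) = V by omega] at h3
    exact hne h3
  have h2 : ∀ l ≤ V + 1, l ≤ Nat.card {u : ℕ // u < V ∧ D l u} := by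
    intro l
    induction l with
    | zero => intro _; exact Nat.zero_le _
    | succ l ih =>
      intro hl
      have h3 := ih (by omega)
      have h4 : ¬ Nat.card {u : ℕ // u < V ∧ D (l + 1) u} ≤ Nat.card {u : ℕ // u < V ∧ D l u} := by
        intro hc
        exact h1 l (by omega) fun u hu =>
          (card_imp (fun u _ h => hm l u h)).1 hc u (hV _ _ hu) hu
      omega
  have h5 := h2 (V + 1) le_rfl
  have h6 := card_le V (D (V + 1))
  omega

end ISA

open ISA in
theorem t_ISA : ISA_Stmt := by
  intro hC V src fin R D hsV hRV h0 hD NX hNX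
  have hV : ∀ l u, D l u → u < V := by
    intro l
    induction l with
    | zero => intro u hu; exact hsV u ((h0 u).1 hu)
    | succ l ih =>
      intro v hv
      obtain ⟨u, hu, h | h⟩ := (hD l v).1 hv
      · exact h ▸ ih u hu
      · exact hRV u v h
  have hm : ∀ l u, D l u → D (l + 1) u := fun l u hu => (hD l u).2 ⟨u, hu, Or.inl rfl⟩
  have hs : ∀ l, (∀ u, D (l + 1) u → D l u) → ∀ u, D (l + 2) u → D (l + 1) u := by
    intro l h v hv
    obtain ⟨u, hu, h'⟩ := (hD (l + 1) v).1 hv
    exact (hD l v).2 ⟨u, h u hu, h'⟩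
  have hst := sat hV hm hs
  have hmono : ∀ k u, D 0 u → D k u := by
    intro k
    induction k with
    | zero => exact fun u hu => hu
    | succ k ih => exact fun u hu => hm k u (ih u hu)
  -- the elements that are reached
  have hr : (¬ ∃ u v, src u ∧ ReflTransGen R u v ∧ fin v) ↔ ∀ v, D V v → ¬ fin v := by
    constructor
    · intro h v hv hf
      have h1 : ∀ l v, D l v → ∃ s, src s ∧ ReflTransGen R s v := by
        intro l
        induction l with
        | zero => intro v hv; exact ⟨v, (h0 v).1 hv, ReflTransGen.refl⟩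
        | succ l ih =>
          intro v hv
          obtain ⟨u, hu, h | h⟩ := (hD l v).1 hv
          · exact h ▸ ih u hu
          · obtain ⟨s, hs, hr⟩ := ih u hu
            exact ⟨s, hs, hr.tail h⟩
      obtain ⟨s, hs, hr⟩ := h1 V v hv
      exact h ⟨s, v, hs, hr, hf⟩
    · rintro h ⟨u, v, hu, huv, hf⟩
      have h1 : ∀ w, ReflTransGen R u w → D V w := by
        intro w hw
        induction hw with
        | refl => exact hmono V u ((h0 u).2 hu)
        | tail _ hbc ih => exact hst _ ((hD V _).2 ⟨_, ih, Or.inr hbc⟩)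
      exact h v (h1 v huv) hf
  -- the numbers of elements
  obtain ⟨dl, hdl⟩ : ∃ dl : ℕ → ℕ, ∀ l, dl l = Nat.card {u : ℕ // u < V ∧ D l u} :=
    ⟨_, fun _ => rfl⟩
  have hsrc : ∀ m, ReflTransGen (CntStep src (fun j => ¬ src j)) (0, 0) (V, m) ↔ m = dl 0 := by
    intro m
    rw [(hC src V m).2, hdl]
    simp only [h0]
  have hstep : ∀ l m, ReflTransGen (CntStep (D (l + 1)) (NX l (dl l))) (0, 0) (V, m) ↔
      m = dl (l + 1) := by
    intro l m
    have h1 : NX l (dl l) = fun j => ¬ D (l + 1) j := by
      funext v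
      refine propext ?_
      rw [hNX, hD, hdl]
      have h2 := card_imp (V := V) (P := fun u => D l u)
        (Q := fun u => D l u ∧ u ≠ v ∧ ¬ R u v) (fun u _ h => h.1)
      refine h2.trans ?_
      constructor
      · rintro h ⟨u, hu, he⟩
        obtain ⟨-, h3, h4⟩ := h u (hV l u hu) hu
        rcases he with he | he
        · exact h3 he
        · exact h4 he
      · intro h u _ hu
        exact ⟨hu, fun he => h ⟨u, hu, Or.inl he⟩, fun he => h ⟨u, hu, Or.inr he⟩⟩
    rw [h1, hdl]
    exact (hC (D (l + 1)) V m).2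
  have hout : ∀ s : ℕ × ℕ, ReflTransGen (fun s s' : ℕ × ℕ => s'.1 = s.1 + 1 ∧
      ReflTransGen (CntStep (D (s.1 + 1)) (NX s.1 s.2)) (0, 0) (V, s'.2)) (0, dl 0) s ↔
      s.2 = dl s.1 := by
    intro s
    constructor
    · intro h
      induction h with
      | refl => rfl
      | tail _ hbc ih =>
        obtain ⟨h1, h2⟩ := hbc
        rw [ih] at h2
        rw [h1]
        exact (hstep _ _).1 h2
    · obtain ⟨l, c⟩ := s
      intro h
      dsimp only at h
      subst h
      induction l with
      | zero => exact ReflTransGen.refl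
      | succ l ih => exact ih.tail ⟨rfl, (hstep l _).2 rfl⟩
  rw [hr]
  constructor
  · intro h
    refine ⟨dl 0, dl V, (hsrc _).2 rfl, (hout (V, dl V)).2 rfl, ?_⟩
    rw [hdl]
    exact (card_imp (fun u _ h => h.1)).2 fun u _ hu => ⟨hu, h u hu⟩
  · rintro ⟨c₀, c, h1, h2, h3⟩ v hv
    have h5 : c₀ = dl 0 := (hsrc _).1 h1
    subst h5
    have h4 : c = dl V := (hout (V, c)).1 h2
    rw [h4, hdl] at h3
    exact ((card_imp (fun u _ h => h.1)).1 h3 v (hV V v hv) hv).2

end Pool.Agent.NPH
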