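import Pool.Agent.NPH.StC

/-!
# Project NPH: the class is closed under complement
-/

set_option autoImplicit false

namespace Pool.Agent.NPH

open Pool.Agent.Heads Relation

namespace ISZ

/-- The image of a local predicate under an injective map of the letters is local. -/
theorem loc_image {X Y : Type} (e : X → Y) (he : Function.Injective e) (P : WP X) (hP : Loc P) :
    Loc (fun n (w : Fin (n + 1) → Y) => ∃ u : Fin (n + 1) → X, e ∘ u = w ∧ P n u) := by
  obtain ⟨A, B, C, h⟩ := hP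
  refine ⟨e '' A, e '' B, Prod.map e e '' C, fun n w => ⟨?_, ?_⟩⟩
  · rintro ⟨u, rfl, hu⟩
    obtain ⟨h1, h2, h3⟩ := (h n u).1 hu
    exact ⟨⟨_, h1, rfl⟩, ⟨_, h2, rfl⟩, fun i => ⟨_, h3 i, rfl⟩⟩
  · rintro ⟨⟨x, hx, hx'⟩, ⟨y, hy, hy'⟩, h3⟩
    have hr : ∀ i, ∃ z, e z = w i := by
      intro i
      refine Fin.cases ⟨x, hx'⟩ (fun j => ?_) i
      obtain ⟨p, _, hp⟩ := h3 j
      exact ⟨p.2, congrArg Prod.snd hp⟩
    choose u hu using hr
    refine ⟨u, funext hu, (h n u).2 ⟨?_, ?_, fun i => ?_⟩⟩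
    · have : u 0 = x := he ((hu 0).trans hx'.symm)
      rw [this]
      exact hx
    · have : u (Fin.last n) = y := he ((hu _).trans hy'.symm)
      rw [this]
      exact hy
    · obtain ⟨p, hp, hp'⟩ := h3 i
      have h1 : u i.castSucc = p.1 := he ((hu _).trans (congrArg Prod.fst hp').symm)
      have h2 : u i.succ = p.2 := he ((hu _).trans (congrArg Prod.snd hp').symm)
      rw [h1, h2]
      exact hp

end ISZ

open ISZ in
theorem t_ISZ : ISZ_Stmt := by
  intro hLCL hCLB hCLO hCLT hSUC hDIN hCPI hCPE Γ _ P hP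
  obtain ⟨Δ, hΔ, I, R, F, hI, hR, hF, hPd⟩ := hP
  obtain ⟨q, hq⟩ : ∃ q, q = Nat.card Δ + 2 := ⟨_, rfl⟩
  have hq2 : 2 ≤ q := by omega
  obtain ⟨e, he, hev⟩ : ∃ e : Δ → Fin q, Function.Injective e ∧ ∀ d, (e d : ℕ) < q - 1 := by
    refine ⟨fun d => ⟨(Finite.equivFin Δ d : ℕ), ?_⟩, ?_, ?_⟩
    · have := (Finite.equivFin Δ d).2
      omega
    · intro d d' h
      have h1 := congrArg Fin.val h
      exact (Finite.equivFin Δ).injective (Fin.ext h1)
    · intro d
      have := (Finite.equivFin Δ d).2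
      show (Finite.equivFin Δ d : ℕ) < q - 1
      omega
  have heI : Function.Injective (Prod.map id e : Γ × Δ → Γ × Fin q) :=
    Function.injective_id.prodMap he
  have heR : Function.Injective (Prod.map e e : Δ × Δ → Fin q × Fin q) := he.prodMap he
  obtain ⟨I', hI'd⟩ : ∃ I' : WP (Γ × Fin q), I' = fun n w =>
    ∃ u : Fin (n + 1) → Γ × Δ, (Prod.map id e : Γ × Δ → Γ × Fin q) ∘ u = w ∧ I n u := ⟨_, rfl⟩
  obtain ⟨R', hR'd⟩ : ∃ R' : WP (Fin q × Fin q), R' = fun n w =>
    ∃ u : Fin (n + 1) → Δ × Δ, (Prod.map e e : Δ × Δ → Fin q × Fin q) ∘ u = w ∧ R n u :=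
    ⟨_, rfl⟩
  obtain ⟨F', hF'd⟩ : ∃ F' : WP (Fin q), F' = fun n w =>
    ∃ u : Fin (n + 1) → Δ, e ∘ u = w ∧ F n u := ⟨_, rfl⟩
  have hI' : Loc I' := by
    rw [hI'd]
    exact loc_image _ heI I hI
  have hR' : Loc R' := by
    rw [hR'd]
    exact loc_image _ heR R hR
  have hF' : Loc F' := by
    rw [hF'd]
    exact loc_image _ he F hF
  obtain ⟨D, hD, hDs⟩ := hDIN hLCL hCLB hCLO hCLT hSUC Γ q hq2 I' R' hI' hR'
  have hC := hCPI Γ q hq2 I' R' F' D hI' hR' hF' hD
  have hE := hCPE Γ q hq2 I' R' F' D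
    (by
      intro n w hw
      rw [hI'd] at hw
      obtain ⟨u, rfl, _⟩ := hw
      exact ⟨0, hev _⟩)
    (by
      intro n w hw
      rw [hR'd] at hw
      obtain ⟨u, rfl, _⟩ := hw
      exact ⟨0, hev _⟩)
    hDs
  have hEq : (fun n (a : Fin (n + 1) → Γ) => ¬ P n a) = CPL q I' R' F' D := by
    funext n a
    apply propext
    rw [hE n a, hPd n a, not_iff_not]
    constructor
    · rintro ⟨b, c, h1, h2, h3⟩
      refine ⟨e ∘ b, e ∘ c, ?_, ?_, ?_⟩
      · rw [hI'd]
        exact ⟨zp a b, rfl, h1⟩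
      · refine h2.lift (fun b : Fin (n + 1) → Δ => e ∘ b) ?_
        intro u v huv
        rw [hR'd]
        exact ⟨zp u v, rfl, huv⟩
      · rw [hF'd]
        exact ⟨c, rfl, h3⟩
    · rintro ⟨b', c', h1, h2, h3⟩
      rw [hI'd] at h1
      obtain ⟨u, hu, h1⟩ := h1
      have hu1 : ∀ i, (u i).1 = a i := fun i => congrArg Prod.fst (congrFun hu i)
      have hu2 : ∀ i, e (u i).2 = b' i := fun i => congrArg Prod.snd (congrFun hu i)
      have hb : (e ∘ fun i => (u i).2) = b' := funext hu2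
      have hub : u = zp a (fun i => (u i).2) := by
        funext i
        exact Prod.ext (hu1 i) rfl
      have key : ∀ c'' : Fin (n + 1) → Fin q,
          ReflTransGen (fun u v => R' n (zp u v)) b' c'' → ∃ c : Fin (n + 1) → Δ, e ∘ c = c'' ∧
          ReflTransGen (fun u v => R n (zp u v)) (fun i => (u i).2) c := by
        intro c'' h
        induction h with
        | refl => exact ⟨_, hb, ReflTransGen.refl⟩
        | tail _ hs ih =>
          obtain ⟨d, hd, hbd⟩ := ih
          rw [hR'd] at hs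
          obtain ⟨v, hv, hRv⟩ := hs
          have hv1 : ∀ i, (v i).1 = d i := fun i =>
            he ((congrArg Prod.fst (congrFun hv i)).trans (congrFun hd i).symm)
          have hv2 : ∀ i, e (v i).2 = _ := fun i => congrArg Prod.snd (congrFun hv i)
          refine ⟨fun i => (v i).2, funext hv2, hbd.tail ?_⟩
          have hvz : v = zp d (fun i => (v i).2) := by
            funext i
            exact Prod.ext (hv1 i) rfl
          rw [← hvz]
          exact hRv
      obtain ⟨c, hc, hbc⟩ := key c' h2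
      rw [hF'd] at h3
      obtain ⟨w, hw, h3⟩ := h3
      have hwc : w = c := he.comp_left (hw.trans hc.symm)
      refine ⟨fun i => (u i).2, c, ?_, hbc, ?_⟩
      · rw [← hub]
        exact h1
      · rw [← hwc]
        exact h3
  rw [hEq]
  exact hC

end Pool.Agent.NPH
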