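import Pool.Agent.NPH.StC

/-!
# NPH, module LOD: the predicates of the class are accepted by machines (helper37)
-/

set_option autoImplicit false

namespace Pool.Agent.NPH

open Pool.Agent.Heads Relation

namespace LOD

/-! ### Machines with one moving head and any memory alphabet -/

/-- a machine with one moving head -/
structure GM (Λ Q M : Type) where
  start : Q
  accept : Set Q
  blank : M
  sw : Q → M → Set (Q × M)
  hd : Q → Sym Λ → Set (Q × Dir)

section GM

variable {Λ Q M : Type}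

/-- one round -/
def GM.Round (T : GM Λ Q M) (x : List Λ) (c c' : Q × ℕ × List M) : Prop :=
  ∃ p, Sweep T.sw c.1 c.2.2 p c'.2.2 ∧ ∃ t ∈ T.hd p (tape x c.2.1),
    c'.1 = t.1 ∧ c'.2.1 = move (x.length + 1) c.2.1 t.2

/-- acceptance -/
def GM.Acc (T : GM Λ Q M) (x : List Λ) : Prop :=
  ∃ c, ReflTransGen (T.Round x) (T.start, 0, List.replicate (x.length + 1) T.blank) c ∧
    c.1 ∈ T.accept

/-- the machine with `r` heads over `Fin S` -/
def GM.toRM (T : GM Λ Q M) [hQ : Finite Q] (r : ℕ) (hr : 0 < r) {S : ℕ} (e : M ≃ Fin S) :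
    RM Λ r S where
  Q := Q
  finQ := hQ
  start := T.start
  accept := T.accept
  blank := e T.blank
  sw := fun q s => {t | (t.1, e.symm t.2) ∈ T.sw q (e.symm s)}
  hd := fun q f => {t | ∃ d, (t.1, d) ∈ T.hd q (f ⟨0, hr⟩) ∧
    t.2 = fun i => if i = ⟨0, hr⟩ then d else Dir.S}

theorem sweep_map {S : ℕ} (e : M ≃ Fin S) (sw : Q → M → Set (Q × M)) :
    ∀ (u : List M) (q q' : Q) (v' : List (Fin S)),
      Sweep (fun q s => {t : Q × Fin S | (t.1, e.symm t.2) ∈ sw q (e.symm s)}) q (u.map e) q' v' ↔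
        ∃ v, v' = v.map e ∧ Sweep sw q u q' v
  | [], q, q', v' => by
    simp only [List.map_nil, Sweep]
    constructor
    · rintro ⟨h1, h2⟩
      exact ⟨[], h2, h1, rfl⟩
    · rintro ⟨v, h1, h2, h3⟩
      subst h3
      exact ⟨h2, h1⟩
  | a :: u, q, q', v' => by
    simp only [List.map_cons, Sweep, Set.mem_ofPred_eq, Equiv.symm_apply_apply]
    constructor
    · rintro ⟨p, b, v1, h1, h2, h3⟩
      obtain ⟨v, h4, hv⟩ := (sweep_map e sw u p q' v1).1 h3
      refine ⟨e.symm b :: v, ?_, p, e.symm b, v, h1, rfl, hv⟩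
      rw [h2, h4, List.map_cons, Equiv.apply_symm_apply]
    · rintro ⟨v, h0, p, b, v1, h1, h2, h3⟩
      refine ⟨p, e b, v1.map e, ?_, ?_, (sweep_map e sw u p q' _).2 ⟨v1, rfl, h3⟩⟩
      · rw [Equiv.symm_apply_apply]
        exact h1
      · rw [h0, h2, List.map_cons]

/-- the embedding of the configurations -/
def emb (r : ℕ) (hr : 0 < r) {S : ℕ} (e : M ≃ Fin S) (c : Q × ℕ × List M) :
    Q × (Fin r → ℕ) × List (Fin S) :=
  (c.1, fun i => if i = ⟨0, hr⟩ then c.2.1 else 0, c.2.2.map e)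

theorem round_iff (T : GM Λ Q M) [Finite Q] (r : ℕ) (hr : 0 < r) {S : ℕ} (e : M ≃ Fin S)
    (x : List Λ) (c : Q × ℕ × List M) (d : (T.toRM r hr e).Conf) :
    (T.toRM r hr e).Round x (emb r hr e c) d ↔
      ∃ c' : Q × ℕ × List M, d = emb r hr e c' ∧ T.Round x c c' := by
  constructor
  · rintro ⟨p, h1, t, ⟨dd, h2, h3⟩, h4, h5⟩
    obtain ⟨v, hv, h6⟩ := (sweep_map e T.sw c.2.2 c.1 p d.2.2).1 h1
    have h2' : (t.1, dd) ∈ T.hd p (tape x c.2.1) := by
      have e1 : (if (⟨0, hr⟩ : Fin r) = ⟨0, hr⟩ then c.2.1 else 0) = c.2.1 := if_pos rfl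
      have h7 : (t.1, dd) ∈ T.hd p (tape x
          (if (⟨0, hr⟩ : Fin r) = ⟨0, hr⟩ then c.2.1 else 0)) := h2
      rw [e1] at h7
      exact h7
    refine ⟨(t.1, move (x.length + 1) c.2.1 dd, v), ?_, p, h6, (t.1, dd), h2', rfl, rfl⟩
    have e2 : d.2.1 = fun i => if i = ⟨0, hr⟩ then move (x.length + 1) c.2.1 dd else 0 := by
      rw [h5]
      funext i
      rw [h3]
      simp only [emb]
      split_ifs with hi
      · rfl
      · rfl
    calc d = (d.1, d.2.1, d.2.2) := rfl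
      _ = _ := by
        rw [h4, e2, hv]
        rfl
  · rintro ⟨c', rfl, p, h1, t, h2, h3, h4⟩
    refine ⟨p, (sweep_map e T.sw c.2.2 c.1 p _).2 ⟨c'.2.2, rfl, h1⟩,
      (t.1, fun i => if i = ⟨0, hr⟩ then t.2 else Dir.S), ⟨t.2, ?_, rfl⟩, h3, ?_⟩
    · have e1 : (if (⟨0, hr⟩ : Fin r) = ⟨0, hr⟩ then c.2.1 else 0) = c.2.1 := if_pos rfl
      show (t.1, t.2) ∈ T.hd p (tape x
          (if (⟨0, hr⟩ : Fin r) = ⟨0, hr⟩ then c.2.1 else 0))
      rw [e1]
      exact h2
    · funext i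
      simp only [emb]
      split_ifs with hi
      · exact h4
      · rfl

theorem toRM_lang (T : GM Λ Q M) [Finite Q] (r : ℕ) (hr : 0 < r) {S : ℕ} (e : M ≃ Fin S)
    (x : List Λ) : x ∈ (T.toRM r hr e).lang ↔ T.Acc x := by
  have h0 : (T.toRM r hr e).init x =
      emb r hr e (T.start, 0, List.replicate (x.length + 1) T.blank) := by
    show ((T.start, fun _ => 0, List.replicate (x.length + 1) (e T.blank)) :
      Q × (Fin r → ℕ) × List (Fin S)) = _
    simp only [emb, ite_self, List.map_replicate]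
  constructor
  · rintro ⟨d, h1, h2⟩
    rw [h0] at h1
    have h3 : ∃ c, d = emb r hr e c ∧
        ReflTransGen (T.Round x) (T.start, 0, List.replicate (x.length + 1) T.blank) c := by
      clear h2
      induction h1 with
      | refl => exact ⟨_, rfl, ReflTransGen.refl⟩
      | tail _ hs ih =>
        obtain ⟨c, rfl, hc⟩ := ih
        obtain ⟨c', rfl, hr'⟩ := (round_iff T r hr e x c _).1 hs
        exact ⟨c', rfl, hc.tail hr'⟩
    obtain ⟨c, rfl, hc⟩ := h3
    exact ⟨c, hc, h2⟩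
  · rintro ⟨c, h1, h2⟩
    refine ⟨emb r hr e c, ?_, h2⟩
    rw [h0]
    exact h1.lift (emb r hr e) fun a b hab => (round_iff T r hr e x a _).2 ⟨b, rfl, hab⟩

end GM

/-! ### Checking a local predicate in a sweep -/

section Chk

variable {X Q M : Type}

/-- the local condition on a letter and its predecessor -/
def ok (A : Set X) (C : Set (X × X)) : Option X → X → Prop
  | none, y => y ∈ A
  | some y', y => (y', y) ∈ C

/-- the local conditions along a list -/
def chn (A : Set X) (C : Set (X × X)) : Option X → List X → Prop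
  | _, [] => True
  | s, y :: ys => ok A C s y ∧ chn A C (some y) ys

/-- the last letter -/
def lst : Option X → List X → Option X
  | s, [] => s
  | _, y :: ys => lst (some y) ys

theorem sweep_chk (sw : Q → M → Set (Q × M)) (k : Option X → Q) (rd wr : X → M) (A : Set X)
    (C : Set (X × X))
    (h : ∀ s m, sw (k s) m = {t | ∃ y, m = rd y ∧ ok A C s y ∧ t = (k (some y), wr y)}) :
    ∀ (u : List M) (s : Option X) (q' : Q) (v : List M), Sweep sw (k s) u q' v ↔
      ∃ ys : List X, u = ys.map rd ∧ v = ys.map wr ∧ chn A C s ys ∧ q' = k (lst s ys)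
  | [], s, q', v => by
    simp only [Sweep]
    constructor
    · rintro ⟨h1, h2⟩
      exact ⟨[], rfl, h2, trivial, h1.symm⟩
    · rintro ⟨ys, h1, h2, h3, h4⟩
      have h5 : ys = [] := List.map_eq_nil_iff.1 h1.symm
      subst h5
      exact ⟨h4.symm, h2⟩
  | a :: u, s, q', v => by
    simp only [Sweep, h]
    constructor
    · rintro ⟨p, b, v1, ⟨y, h1, h2, h3⟩, h4, h5⟩
      obtain ⟨hp, hb⟩ := Prod.mk.inj h3
      subst hp
      subst hb
      obtain ⟨ys, h6, h7, h8, h9⟩ := (sweep_chk sw k rd wr A C h u (some y) q' v1).1 h5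
      exact ⟨y :: ys, by rw [h1, h6, List.map_cons], by rw [h4, h7, List.map_cons], ⟨h2, h8⟩, h9⟩
    · rintro ⟨ys, h1, h2, h3, h4⟩
      cases ys with
      | nil => simp at h1
      | cons y ys =>
        rw [List.map_cons] at h1 h2
        obtain ⟨h5, h6⟩ := List.cons.inj h1
        exact ⟨k (some y), wr y, ys.map wr, ⟨y, h5, h3.1, rfl⟩, h2,
          (sweep_chk sw k rd wr A C h u (some y) q' _).2 ⟨ys, h6, rfl, h3.2, h4⟩⟩

theorem chn_ofFn (A : Set X) (C : Set (X × X)) : ∀ (n : ℕ) (y : Fin (n + 1) → X) (s : Option X),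
    chn A C s (List.ofFn y) ↔ ok A C s (y 0) ∧ ∀ i : Fin n, (y i.castSucc, y i.succ) ∈ C
  | 0, y, s => by
    simp [List.ofFn_succ, chn]
  | n + 1, y, s => by
    rw [List.ofFn_succ]
    simp only [chn]
    rw [chn_ofFn A C n (fun i => y i.succ) (some (y 0)), Fin.forall_fin_succ]
    rfl

theorem lst_ofFn : ∀ (n : ℕ) (y : Fin (n + 1) → X) (s : Option X),
    lst s (List.ofFn y) = some (y (Fin.last n))
  | 0, y, s => by
    simp [List.ofFn_succ, lst]
  | n + 1, y, s => by
    rw [List.ofFn_succ]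
    simp only [lst]
    rw [lst_ofFn n (fun i => y i.succ) (some (y 0)), Fin.succ_last]

theorem sweep_loc (sw : Q → M → Set (Q × M)) (k : Option X → Q) (rd wr : X → M) (A : Set X)
    (C : Set (X × X))
    (h : ∀ s m, sw (k s) m = {t | ∃ y, m = rd y ∧ ok A C s y ∧ t = (k (some y), wr y)})
    (n : ℕ) (u : Fin (n + 1) → M) (q' : Q) (v : List M) :
    Sweep sw (k none) (List.ofFn u) q' v ↔
      ∃ y : Fin (n + 1) → X, (∀ i, u i = rd (y i)) ∧ v = List.ofFn (fun i => wr (y i)) ∧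
        (y 0 ∈ A ∧ ∀ i : Fin n, (y i.castSucc, y i.succ) ∈ C) ∧ q' = k (some (y (Fin.last n))) := by
  rw [sweep_chk sw k rd wr A C h]
  constructor
  · rintro ⟨ys, h1, h2, h3, h4⟩
    have hlen : ys.length = n + 1 := by
      have := congrArg List.length h1
      rw [List.length_ofFn, List.length_map] at this
      exact this.symm
    obtain ⟨y, rfl⟩ : ∃ y : Fin (n + 1) → X, ys = List.ofFn y := by
      refine ⟨fun i => ys[(i : ℕ)]'(by omega), ?_⟩
      apply List.ext_getElem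
      · rw [List.length_ofFn, hlen]
      · intro i h5 h6
        rw [List.getElem_ofFn]
    rw [List.map_ofFn] at h1 h2
    refine ⟨y, fun i => ?_, h2, (chn_ofFn A C n y none).1 h3, by rw [h4, lst_ofFn]⟩
    exact congrFun (List.ofFn_injective h1) i
  · rintro ⟨y, h1, h2, h3, h4⟩
    refine ⟨List.ofFn y, ?_, ?_, (chn_ofFn A C n y none).2 h3, by rw [h4, lst_ofFn]⟩
    · rw [List.map_ofFn]
      congr 1
      funext i
      exact h1 i
    · rw [List.map_ofFn, h2]
      rfl

end Chk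

/-! ### The machine -/

/-- memory letters -/
abbrev Mem (Λ Δ : Type) : Type := Option (Option Λ ⊕ Δ)

/-- states -/
inductive St (Λ Δ : Type) where
  | go : St Λ Δ
  | car : Mem Λ Δ → St Λ Δ
  | c3 : Option (Option Λ × Δ) → St Λ Δ
  | c4 : Option (Δ × Δ) → St Λ Δ
  | c5 : Option Δ → St Λ Δ
  | acc : St Λ Δ

variable {Λ Δ : Type}

/-- the states as a sum -/
def stf : St Λ Δ → Bool ⊕ (Mem Λ Δ ⊕ (Option (Option Λ × Δ) ⊕ (Option (Δ × Δ) ⊕ Option Δ)))
  | .go => Sum.inl true
  | .acc => Sum.inl false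
  | .car m => Sum.inr (Sum.inl m)
  | .c3 s => Sum.inr (Sum.inr (Sum.inl s))
  | .c4 s => Sum.inr (Sum.inr (Sum.inr (Sum.inl s)))
  | .c5 s => Sum.inr (Sum.inr (Sum.inr (Sum.inr s)))

theorem stf_inj : Function.Injective (stf (Λ := Λ) (Δ := Δ)) := by
  intro a b h
  cases a <;> cases b <;> simp_all [stf]

theorem finSt [Finite Λ] [Finite Δ] : Finite (St Λ Δ) := Finite.of_injective stf stf_inj

/-- the local data -/
structure Dat (Λ Δ : Type) where
  AI : Set (Option Λ × Δ)
  BI : Set (Option Λ × Δ)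
  CI : Set ((Option Λ × Δ) × (Option Λ × Δ))
  AR : Set (Δ × Δ)
  BR : Set (Δ × Δ)
  CR : Set ((Δ × Δ) × (Δ × Δ))
  AF : Set Δ
  BF : Set Δ
  CF : Set (Δ × Δ)

/-- the sweeps -/
def msw (D : Dat Λ Δ) : St Λ Δ → Mem Λ Δ → Set (St Λ Δ × Mem Λ Δ)
  | .go, m => {(.go, m)}
  | .car m, m' => {(.car m', m)}
  | .c3 s, m => {t | ∃ y : Option Λ × Δ, m = some (.inl y.1) ∧ ok D.AI D.CI s y ∧
      t = (.c3 (some y), some (.inr y.2))}
  | .c4 s, m => {t | ∃ y : Δ × Δ, m = some (.inr y.1) ∧ ok D.AR D.CR s y ∧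
      t = (.c4 (some y), some (.inr y.2))}
  | .c5 s, m => {t | ∃ y : Δ, m = some (.inr y) ∧ ok D.AF D.CF s y ∧
      t = (.c5 (some y), some (.inr y))}
  | .acc, _ => ∅

/-- the steps of the head -/
def mhd (D : Dat Λ Δ) : St Λ Δ → Sym Λ → Set (St Λ Δ × Dir)
  | .go, .left => {(.go, .R)}
  | .go, .letter _ => {(.go, .R)}
  | .go, .right => {(.car (some (.inl none)), .L)}
  | .car _, .letter l => {(.car (some (.inl (some l))), .L)}
  | .car _, .left => {(.c3 none, .S)}
  | .car _, .right => ∅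
  | .c3 s, _ => {t | ∃ y ∈ D.BI, s = some y ∧ (t = (.c4 none, .S) ∨ t = (.c5 none, .S))}
  | .c4 s, _ => {t | ∃ y ∈ D.BR, s = some y ∧ (t = (.c4 none, .S) ∨ t = (.c5 none, .S))}
  | .c5 s, _ => {t | ∃ y ∈ D.BF, s = some y ∧ t = (.acc, .S)}
  | .acc, _ => ∅

/-- the machine -/
def mac (D : Dat Λ Δ) : GM Λ (St Λ Δ) (Mem Λ Δ) where
  start := .go
  accept := {.acc}
  blank := none
  sw := msw D
  hd := mhd D

theorem sweep_go (D : Dat Λ Δ) : ∀ (u : List (Mem Λ Δ)) (q' : St Λ Δ) (v : List (Mem Λ Δ)),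
    Sweep (msw D) .go u q' v ↔ q' = .go ∧ v = u
  | [], q', v => by
    simp only [Sweep]
    exact ⟨fun h => ⟨h.1.symm, h.2⟩, fun h => ⟨h.1.symm, h.2⟩⟩
  | a :: u, q', v => by
    simp only [Sweep, msw]
    constructor
    · rintro ⟨p, b, v1, h1, h2, h3⟩
      obtain ⟨hp, hb⟩ := Prod.mk.inj (Set.mem_singleton_iff.1 h1)
      subst hp
      subst hb
      obtain ⟨h4, h5⟩ := (sweep_go D u q' v1).1 h3
      exact ⟨h4, by rw [h2, h5]⟩
    · rintro ⟨h1, h2⟩
      exact ⟨.go, a, u, rfl, h2, (sweep_go D u q' u).2 ⟨h1, rfl⟩⟩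

theorem sweep_car (D : Dat Λ Δ) : ∀ (u : List (Mem Λ Δ)) (m : Mem Λ Δ) (q' : St Λ Δ)
    (v : List (Mem Λ Δ)), Sweep (msw D) (.car m) u q' v ↔ ∃ l, m :: u = v ++ [l] ∧ q' = .car l
  | [], m, q', v => by
    simp only [Sweep]
    constructor
    · rintro ⟨h1, h2⟩
      exact ⟨m, by rw [h2, List.nil_append], h1.symm⟩
    · rintro ⟨l, h1, h2⟩
      cases v with
      | nil =>
        rw [List.nil_append] at h1
        obtain ⟨h3, -⟩ := List.cons.inj h1
        exact ⟨by rw [h2, h3], rfl⟩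
      | cons b v =>
        rw [List.cons_append] at h1
        obtain ⟨-, h3⟩ := List.cons.inj h1
        exact absurd h3.symm (by simp)
  | a :: u, m, q', v => by
    simp only [Sweep, msw]
    constructor
    · rintro ⟨p, b, v1, h1, h2, h3⟩
      obtain ⟨hp, hb⟩ := Prod.mk.inj (Set.mem_singleton_iff.1 h1)
      subst hp
      subst hb
      obtain ⟨l, h4, h5⟩ := (sweep_car D u a q' v1).1 h3
      exact ⟨l, by rw [h2, h4, List.cons_append], h5⟩
    · rintro ⟨l, h1, h2⟩
      cases v with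
      | nil =>
        rw [List.nil_append] at h1
        obtain ⟨-, h3⟩ := List.cons.inj h1
        exact absurd h3 (by simp)
      | cons b v =>
        rw [List.cons_append] at h1
        obtain ⟨h3, h4⟩ := List.cons.inj h1
        exact ⟨.car a, m, v, rfl, by rw [h3], (sweep_car D u a q' v).2 ⟨l, h4, h2⟩⟩

section Run

variable (D : Dat Λ Δ) (x : List Λ)

/-- the input word -/
def inp : Fin (x.length + 1) → Option Λ := fun i => x[(i : ℕ)]?

/-- the input word in the memory -/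
def inpM : List (Mem Λ Δ) := List.ofFn (fun i => some (.inl (inp x i)))

/-- a work word in the memory -/
def wrk (c : Fin (x.length + 1) → Δ) : List (Mem Λ Δ) := List.ofFn (fun i => some (.inr (c i)))

/-- the predicates given by the data -/
def PI (b : Fin (x.length + 1) → Δ) : Prop :=
  zp (inp x) b 0 ∈ D.AI ∧ zp (inp x) b (Fin.last _) ∈ D.BI ∧
    ∀ i : Fin x.length, (zp (inp x) b i.castSucc, zp (inp x) b i.succ) ∈ D.CI

def PR (u v : Fin (x.length + 1) → Δ) : Prop :=
  zp u v 0 ∈ D.AR ∧ zp u v (Fin.last _) ∈ D.BR ∧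
    ∀ i : Fin x.length, (zp u v i.castSucc, zp u v i.succ) ∈ D.CR

def PF (c : Fin (x.length + 1) → Δ) : Prop :=
  c 0 ∈ D.AF ∧ c (Fin.last _) ∈ D.BF ∧ ∀ i : Fin x.length, (c i.castSucc, c i.succ) ∈ D.CF

/-- the words that are reached -/
def Rch (c : Fin (x.length + 1) → Δ) : Prop := ∃ b, PI D x b ∧ ReflTransGen (PR D x) b c

/-- the memory while loading, before the letter `j` is written -/
def ldm (j : ℕ) : List (Mem Λ Δ) := (inpM x).drop (j + 1) ++ List.replicate (j + 1) none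

theorem len_inpM : (inpM (Δ := Δ) x).length = x.length + 1 := List.length_ofFn

theorem tape_succ (j : ℕ) (hj : j < x.length) : tape x (j + 1) = Sym.letter x[j] := by
  unfold tape
  simp only [List.getElem?_eq_getElem hj]

theorem tape_right (p : ℕ) (hp : x.length < p) : tape x p = Sym.right := by
  obtain ⟨j, rfl⟩ := Nat.exists_eq_succ_of_ne_zero (by omega : p ≠ 0)
  unfold tape
  simp only [List.getElem?_eq_none (by omega : x.length ≤ j)]

/-- writing the letter `j` -/
theorem write (j : ℕ) (hj : j ≤ x.length) (v : List (Mem Λ Δ)) (l : Mem Λ Δ) :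
    (some (.inl (x[j]?)) : Mem Λ Δ) :: ldm x j = v ++ [l] ↔
      v = (inpM x).drop j ++ List.replicate j none ∧ l = none := by
  have h1 : (some (.inl (x[j]?)) : Mem Λ Δ) :: ldm x j =
      ((inpM x).drop j ++ List.replicate j none) ++ [none] := by
    have hj' : j < (inpM (Δ := Δ) x).length := by rw [len_inpM]; omega
    have h2 : (inpM (Δ := Δ) x).drop j = (inpM (Δ := Δ) x)[j] :: (inpM x).drop (j + 1) :=
      List.drop_eq_getElem_cons hj'
    have h3 : (inpM (Δ := Δ) x)[j] = some (.inl (x[j]?)) := by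
      unfold inpM
      rw [List.getElem_ofFn]
      rfl
    rw [h2, h3, List.append_assoc]
    unfold ldm
    rw [List.replicate_succ', List.cons_append]
  rw [h1]
  constructor
  · intro h
    obtain ⟨h4, h5⟩ := List.append_inj' h rfl
    exact ⟨h4.symm, (List.cons.inj h5).1.symm⟩
  · rintro ⟨rfl, rfl⟩
    rfl

/-- the invariant -/
def Inv : St Λ Δ × ℕ × List (Mem Λ Δ) → Prop
  | (.go, p, u) => p ≤ x.length + 1 ∧ u = List.replicate (x.length + 1) none
  | (.car m, p, u) => p ≤ x.length ∧ m = some (.inl (x[p]?)) ∧ u = ldm x p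
  | (.c3 s, _, u) => s = none ∧ u = inpM x
  | (.c4 s, _, u) => s = none ∧ ∃ c, Rch D x c ∧ u = wrk x c
  | (.c5 s, _, u) => s = none ∧ ∃ c, Rch D x c ∧ u = wrk x c
  | (.acc, _, _) => ∃ c, Rch D x c ∧ PF D x c

theorem ldm_last : ldm (Δ := Δ) x x.length = List.replicate (x.length + 1) none := by
  unfold ldm
  rw [List.drop_eq_nil_of_le (by rw [len_inpM]), List.nil_append]

theorem sw3 (u : Fin (x.length + 1) → Mem Λ Δ) (q' : St Λ Δ) (v : List (Mem Λ Δ)) :
    Sweep (msw D) (.c3 none) (List.ofFn u) q' v ↔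
      ∃ y : Fin (x.length + 1) → Option Λ × Δ, (∀ i, u i = some (.inl (y i).1)) ∧
        v = List.ofFn (fun i => some (.inr (y i).2)) ∧
        (y 0 ∈ D.AI ∧ ∀ i : Fin x.length, (y i.castSucc, y i.succ) ∈ D.CI) ∧
        q' = .c3 (some (y (Fin.last _))) :=
  sweep_loc (msw D) .c3 (fun y => some (.inl y.1)) (fun y => some (.inr y.2)) D.AI D.CI
    (fun _ _ => rfl) x.length u q' v

theorem sw4 (u : Fin (x.length + 1) → Mem Λ Δ) (q' : St Λ Δ) (v : List (Mem Λ Δ)) :
    Sweep (msw D) (.c4 none) (List.ofFn u) q' v ↔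
      ∃ y : Fin (x.length + 1) → Δ × Δ, (∀ i, u i = some (.inr (y i).1)) ∧
        v = List.ofFn (fun i => some (.inr (y i).2)) ∧
        (y 0 ∈ D.AR ∧ ∀ i : Fin x.length, (y i.castSucc, y i.succ) ∈ D.CR) ∧
        q' = .c4 (some (y (Fin.last _))) :=
  sweep_loc (msw D) .c4 (fun y => some (.inr y.1)) (fun y => some (.inr y.2)) D.AR D.CR
    (fun _ _ => rfl) x.length u q' v

theorem sw5 (u : Fin (x.length + 1) → Mem Λ Δ) (q' : St Λ Δ) (v : List (Mem Λ Δ)) :
    Sweep (msw D) (.c5 none) (List.ofFn u) q' v ↔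
      ∃ y : Fin (x.length + 1) → Δ, (∀ i, u i = some (.inr (y i))) ∧
        v = List.ofFn (fun i => some (.inr (y i))) ∧
        (y 0 ∈ D.AF ∧ ∀ i : Fin x.length, (y i.castSucc, y i.succ) ∈ D.CF) ∧
        q' = .c5 (some (y (Fin.last _))) :=
  sweep_loc (msw D) .c5 (fun y => some (.inr y)) (fun y => some (.inr y)) D.AF D.CF
    (fun _ _ => rfl) x.length u q' v

theorem inv_step (c c' : St Λ Δ × ℕ × List (Mem Λ Δ)) (hc : Inv D x c)
    (h : (mac D).Round x c c') : Inv D x c' := by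
  obtain ⟨q, p, u⟩ := c
  obtain ⟨q', p', u'⟩ := c'
  obtain ⟨s, h1, t, h2, h3, h4⟩ := h
  simp only at h1 h2 h3 h4
  cases q with
  | go =>
    obtain ⟨h5, h6⟩ := hc
    obtain ⟨rfl, rfl⟩ := (sweep_go D u s u').1 h1
    by_cases hp : x.length < p
    · rw [tape_right x p hp] at h2
      have h7 := Set.mem_singleton_iff.1 h2
      subst h7
      subst h3
      have hp' : p' = x.length := by
        rw [h4]
        show p - 1 = x.length
        omega
      subst hp'
      refine ⟨le_rfl, ?_, ?_⟩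
      · rw [List.getElem?_eq_none le_rfl]
      · rw [h6, ldm_last]
    · have h7 : t = (.go, .R) := by
        rcases Nat.eq_zero_or_pos p with h8 | h8
        · subst h8
          exact Set.mem_singleton_iff.1 h2
        · obtain ⟨j, rfl⟩ := Nat.exists_eq_succ_of_ne_zero (by omega : p ≠ 0)
          rw [Nat.succ_eq_add_one, tape_succ x j (by omega)] at h2
          exact Set.mem_singleton_iff.1 h2
      subst h7
      subst h3
      refine ⟨?_, h6⟩
      rw [h4]
      show min (p + 1) (x.length + 1) ≤ _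
      omega
  | car m =>
    obtain ⟨h5, h6, h7⟩ := hc
    obtain ⟨l, h8, rfl⟩ := (sweep_car D u m s u').1 h1
    rw [h6, h7] at h8
    obtain ⟨h9, rfl⟩ := (write x p h5 u' l).1 h8
    rcases Nat.eq_zero_or_pos p with h10 | h10
    · subst h10
      have h11 := Set.mem_singleton_iff.1 h2
      subst h11
      subst h3
      refine ⟨rfl, ?_⟩
      rw [h9, List.drop_zero, List.replicate_zero, List.append_nil]
    · obtain ⟨j, hj⟩ : ∃ j, p = j + 1 := ⟨p - 1, by omega⟩
      subst hj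
      rw [tape_succ x j (by omega)] at h2
      have h11 : t = (.car (some (.inl (some x[j]))), .L) := Set.mem_singleton_iff.1 h2
      rw [h11] at h3 h4
      have h3' : q' = .car (some (.inl (some x[j]))) := h3
      have h4' : p' = j := h4
      rw [h3', h4']
      refine ⟨by omega, ?_, h9⟩
      rw [List.getElem?_eq_getElem (by omega)]
  | c3 s0 =>
    obtain ⟨rfl, rfl⟩ := hc
    obtain ⟨y, h5, h6, h7, rfl⟩ := (sw3 D x _ s u').1 h1
    obtain ⟨z, hz, hz2, ht⟩ := h2
    have hz3 : z = y (Fin.last _) := (Option.some.inj hz2).symm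
    subst hz3
    have hy : zp (inp x) (fun i => (y i).2) = y := by
      funext i
      have h8 : inp x i = (y i).1 := by
        have := h5 i
        simpa using this
      unfold zp
      rw [h8]
    have hR : Rch D x (fun i => (y i).2) := by
      refine ⟨_, ⟨?_, ?_, ?_⟩, ReflTransGen.refl⟩
      · rw [hy]; exact h7.1
      · rw [hy]; exact hz
      · rw [hy]; exact h7.2
    rcases ht with rfl | rfl
    · subst h3
      exact ⟨rfl, _, hR, h6⟩
    · subst h3
      exact ⟨rfl, _, hR, h6⟩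
  | c4 s0 =>
    obtain ⟨rfl, c, ⟨b, hb1, hb2⟩, rfl⟩ := hc
    obtain ⟨y, h5, h6, h7, rfl⟩ := (sw4 D x _ s u').1 h1
    obtain ⟨z, hz, hz2, ht⟩ := h2
    have hz3 : z = y (Fin.last _) := (Option.some.inj hz2).symm
    subst hz3
    have hy : zp c (fun i => (y i).2) = y := by
      funext i
      have h8 : c i = (y i).1 := by
        have := h5 i
        simpa using this
      unfold zp
      rw [h8]
    have hR : Rch D x (fun i => (y i).2) := by
      refine ⟨b, hb1, hb2.tail ⟨?_, ?_, ?_⟩⟩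
      · rw [hy]; exact h7.1
      · rw [hy]; exact hz
      · rw [hy]; exact h7.2
    rcases ht with rfl | rfl
    · subst h3
      exact ⟨rfl, _, hR, h6⟩
    · subst h3
      exact ⟨rfl, _, hR, h6⟩
  | c5 s0 =>
    obtain ⟨rfl, c, hb, rfl⟩ := hc
    obtain ⟨y, h5, h6, h7, rfl⟩ := (sw5 D x _ s u').1 h1
    obtain ⟨z, hz, hz2, rfl⟩ := h2
    have hz3 : z = y (Fin.last _) := (Option.some.inj hz2).symm
    subst hz3
    subst h3
    have hy : c = y := by
      funext i
      have := h5 i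
      simpa using this
    subst hy
    exact ⟨c, hb, h7.1, hz, h7.2⟩
  | acc =>
    exfalso
    cases u with
    | nil =>
      simp only [Sweep] at h1
      obtain ⟨h5, -⟩ := h1
      subst h5
      exact h2
    | cons a u =>
      simp only [mac, Sweep] at h1
      obtain ⟨_, _, _, h5, -⟩ := h1
      exact h5

theorem sound (h : (mac D).Acc x) : ∃ c, Rch D x c ∧ PF D x c := by
  obtain ⟨c, h1, h2⟩ := h
  have h3 : Inv D x c := by
    clear h2
    induction h1 with
    | refl => exact ⟨Nat.zero_le _, rfl⟩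
    | tail _ hs ih => exact inv_step D x _ _ ih hs
  obtain ⟨q, p, u⟩ := c
  have h4 : q = .acc := h2
  subst h4
  exact h3

/-- reachability -/
abbrev RR (c : St Λ Δ × ℕ × List (Mem Λ Δ)) : Prop :=
  ReflTransGen ((mac D).Round x) (.go, 0, List.replicate (x.length + 1) none) c

theorem run_go (p : ℕ) (hp : p ≤ x.length + 1) :
    RR D x (.go, p, List.replicate (x.length + 1) none) := by
  induction p with
  | zero => exact ReflTransGen.refl
  | succ p ih =>
    refine (ih (by omega)).tail ⟨.go, (sweep_go D _ _ _).2 ⟨rfl, rfl⟩, (.go, .R), ?_, rfl, ?_⟩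
    · show ((.go, .R) : St Λ Δ × Dir) ∈ mhd D .go (tape x p)
      rcases Nat.eq_zero_or_pos p with h8 | h8
      · subst h8
        exact rfl
      · obtain ⟨j, rfl⟩ := Nat.exists_eq_succ_of_ne_zero (by omega : p ≠ 0)
        rw [Nat.succ_eq_add_one, tape_succ x j (by omega)]
        exact rfl
    · show p + 1 = min (p + 1) (x.length + 1)
      omega

theorem run_car (k : ℕ) (hk : k ≤ x.length) :
    RR D x (.car (some (.inl (x[x.length - k]?))), x.length - k, ldm x (x.length - k)) := by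
  induction k with
  | zero =>
    refine (run_go D x (x.length + 1) le_rfl).tail
      ⟨.go, (sweep_go D _ _ _).2 ⟨rfl, ?_⟩, (.car (some (.inl none)), .L), ?_, ?_, rfl⟩
    · show ldm x (x.length - 0) = _
      rw [Nat.sub_zero, ldm_last]
    · show _ ∈ mhd D .go (tape x (x.length + 1))
      rw [tape_right x _ (by omega)]
      exact rfl
    · show St.car (some (.inl (x[x.length - 0]?))) = _
      rw [Nat.sub_zero, List.getElem?_eq_none le_rfl]
  | succ k ih =>
    obtain ⟨j, hj⟩ : ∃ j, x.length - k = j + 1 := ⟨x.length - k - 1, by omega⟩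
    have hj2 : x.length - (k + 1) = j := by omega
    have ih' := ih (by omega)
    rw [hj] at ih'
    rw [hj2]
    refine ih'.tail ⟨.car none, (sweep_car D _ _ _ _).2 ⟨none, ?_, rfl⟩,
      (.car (some (.inl (some x[j]))), .L), ?_, ?_, ?_⟩
    · exact (write x (j + 1) (by omega) _ none).2 ⟨rfl, rfl⟩
    · show _ ∈ mhd D (.car none) (tape x (j + 1))
      rw [tape_succ x j (by omega)]
      exact rfl
    · show St.car (some (.inl (x[j]?))) = _
      rw [List.getElem?_eq_getElem (by omega)]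
    · show j = j + 1 - 1
      omega

theorem run_c3 : RR D x (.c3 none, 0, inpM x) := by
  have h := run_car D x x.length le_rfl
  rw [Nat.sub_self] at h
  refine h.tail ⟨.car none, (sweep_car D _ _ _ _).2 ⟨none, ?_, rfl⟩, (.c3 none, .S), rfl, rfl, rfl⟩
  refine (write x 0 (by omega) _ none).2 ⟨?_, rfl⟩
  show inpM x = _
  rw [List.drop_zero, List.replicate_zero, List.append_nil]

theorem run_mid (c : Fin (x.length + 1) → Δ) (h : Rch D x c) :
    RR D x (.c4 none, 0, wrk x c) ∧ RR D x (.c5 none, 0, wrk x c) := by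
  obtain ⟨b, hb, hc⟩ := h
  induction hc with
  | refl =>
    have hs : Sweep (msw D) (.c3 none) (inpM x) (.c3 (some (zp (inp x) b (Fin.last _)))) (wrk x b) :=
      (sw3 D x _ _ _).2 ⟨zp (inp x) b, fun _ => rfl, rfl, ⟨hb.1, hb.2.2⟩, rfl⟩
    exact ⟨(run_c3 D x).tail ⟨_, hs, (.c4 none, .S), ⟨_, hb.2.1, rfl, Or.inl rfl⟩, rfl, rfl⟩,
      (run_c3 D x).tail ⟨_, hs, (.c5 none, .S), ⟨_, hb.2.1, rfl, Or.inr rfl⟩, rfl, rfl⟩⟩
  | @tail c d _ hr ih =>
    have hs : Sweep (msw D) (.c4 none) (wrk x c) (.c4 (some (zp c d (Fin.last _)))) (wrk x d) :=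
      (sw4 D x _ _ _).2 ⟨zp c d, fun _ => rfl, rfl, ⟨hr.1, hr.2.2⟩, rfl⟩
    exact ⟨ih.1.tail ⟨_, hs, (.c4 none, .S), ⟨_, hr.2.1, rfl, Or.inl rfl⟩, rfl, rfl⟩,
      ih.1.tail ⟨_, hs, (.c5 none, .S), ⟨_, hr.2.1, rfl, Or.inr rfl⟩, rfl, rfl⟩⟩

theorem complete (h : ∃ c, Rch D x c ∧ PF D x c) : (mac D).Acc x := by
  obtain ⟨c, h1, h2⟩ := h
  have hs : Sweep (msw D) (.c5 none) (wrk x c) (.c5 (some (c (Fin.last _)))) (wrk x c) :=
    (sw5 D x _ _ _).2 ⟨c, fun _ => rfl, rfl, ⟨h2.1, h2.2.2⟩, rfl⟩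
  exact ⟨(.acc, 0, wrk x c), (run_mid D x c h1).2.tail
    ⟨_, hs, (.acc, .S), ⟨_, h2.2.1, rfl, rfl⟩, rfl, rfl⟩, rfl⟩

end Run

end LOD

open LOD in
theorem t_LOD : LOD_Stmt := by
  intro Λ _ r hr P hP
  obtain ⟨Δ, hΔ, I, R, F, ⟨AI, BI, CI, hI⟩, ⟨AR, BR, CR, hR⟩, ⟨AF, BF, CF, hF⟩, h⟩ := hP
  let D : Dat Λ Δ := ⟨AI, BI, CI, AR, BR, CR, AF, BF, CF⟩
  have : Finite (St Λ Δ) := finSt
  have e : Mem Λ Δ ≃ Fin (Nat.card (Mem Λ Δ)) := Finite.equivFin _
  refine ⟨Nat.card (Mem Λ Δ), (mac D).toRM r hr e, ?_⟩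
  ext x
  rw [toRM_lang, Set.mem_ofPred_eq, h]
  have hIx : ∀ b : Fin (x.length + 1) → Δ, I x.length (zp (fun i => x[(i : ℕ)]?) b) ↔ PI D x b :=
    fun b => hI _ _
  have hRx : (fun u v : Fin (x.length + 1) → Δ => R x.length (zp u v)) = PR D x := by
    funext u v
    exact propext (hR _ _)
  have hFx : ∀ c : Fin (x.length + 1) → Δ, F x.length c ↔ PF D x c := fun c => hF _ _
  rw [hRx]
  constructor
  · intro ha
    obtain ⟨c, ⟨b, hb, hbc⟩, hc⟩ := sound D x ha
    exact ⟨b, c, (hIx b).2 hb, hbc, (hFx c).2 hc⟩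
  · rintro ⟨b, c, hb, hbc, hc⟩
    exact complete D x ⟨c, ⟨b, (hIx b).1 hb, hbc⟩, (hFx c).1 hc⟩

end Pool.Agent.NPH
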