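import Pool.Agent.NPH.StC

/-!
# Project NPH, module SUC (helper33): words over `Fin q` as numbers, the successor is local
-/

set_option autoImplicit false

namespace Pool.Agent.NPH

open Pool.Agent.Heads Relation

namespace SUC

theorem val_eq {q n : ℕ} (a : Fin (n + 1) → Fin q) :
    val a = ((finFunctionFinEquiv a : Fin (q ^ (n + 1))) : ℕ) := by
  rw [finFunctionFinEquiv_apply]
  rfl

theorem val_inj {q n : ℕ} : Function.Injective (val : (Fin (n + 1) → Fin q) → ℕ) := by
  intro a b h
  rw [val_eq, val_eq] at h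
  exact finFunctionFinEquiv.injective (Fin.ext h)

theorem val_surj {q n : ℕ} (m : ℕ) :
    m < q ^ (n + 1) ↔ ∃ a : Fin (n + 1) → Fin q, val a = m := by
  constructor
  · intro h
    refine ⟨finFunctionFinEquiv.symm ⟨m, h⟩, ?_⟩
    rw [val_eq, Equiv.apply_symm_apply]
  · rintro ⟨a, rfl⟩
    rw [val_eq]
    exact Fin.isLt _

theorem val_succ {q n : ℕ} (a : Fin (n + 1 + 1) → Fin q) :
    val a = (a 0 : ℕ) + q * val (fun i : Fin (n + 1) => a i.succ) := by
  unfold val
  rw [Fin.sum_univ_succ, Finset.mul_sum]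
  congr 1
  · simp
  · refine Finset.sum_congr rfl fun i _ => ?_
    rw [Fin.val_succ, pow_succ]
    ring

variable {q : ℕ}

/-- carry -/
def tc (x : Fin q × Fin q) : Prop := (x.1 : ℕ) + 1 = q ∧ (x.2 : ℕ) = 0

/-- increment -/
def ti (x : Fin q × Fin q) : Prop := (x.2 : ℕ) = x.1 + 1

/-- same -/
def ts (x : Fin q × Fin q) : Prop := x.1 = x.2

/-- adjacent letters -/
def adj (x y : Fin q × Fin q) : Prop :=
  (tc x ∧ tc y) ∨ (tc x ∧ ti y) ∨ (ti x ∧ ts y) ∨ (ts x ∧ ts y)

/-- the local condition -/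
def Pc (n : ℕ) (w : Fin (n + 1) → Fin q × Fin q) : Prop :=
  (tc (w 0) ∨ ti (w 0)) ∧ (ti (w (Fin.last n)) ∨ ts (w (Fin.last n))) ∧
    ∀ i : Fin n, adj (w i.castSucc) (w i.succ)

theorem not_ci {x : Fin q × Fin q} (h1 : tc x) (h2 : ti x) : False := by
  unfold tc at h1
  unfold ti at h2
  omega

theorem not_cs (hq : 2 ≤ q) {x : Fin q × Fin q} (h1 : tc x) (h2 : ts x) : False := by
  unfold tc at h1
  unfold ts at h2
  rw [← h2] at h1
  omega

theorem not_is {x : Fin q × Fin q} (h1 : ti x) (h2 : ts x) : False := by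
  unfold ti at h1
  unfold ts at h2
  rw [← h2] at h1
  omega

theorem all_s (hq : 2 ≤ q) : ∀ (n : ℕ) (w : Fin (n + 1) → Fin q × Fin q),
    (∀ i : Fin n, adj (w i.castSucc) (w i.succ)) → ts (w 0) → ∀ j, ts (w j) := by
  intro n
  induction n with
  | zero =>
    intro w _ h0 j
    rw [show j = 0 from Fin.ext (by omega)]
    exact h0
  | succ n ih =>
    intro w hw h0
    have h1 : ts (w 1) := by
      rcases hw 0 with ⟨h, -⟩ | ⟨h, -⟩ | ⟨h, -⟩ | ⟨-, h⟩
      · exact (not_cs hq h h0).elim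
      · exact (not_cs hq h h0).elim
      · exact (not_is h h0).elim
      · exact h
    have h2 := ih (fun i => w i.succ) (fun i => hw i.succ) h1
    intro j
    refine Fin.cases h0 (fun i => ?_) j
    exact h2 i

theorem Pc_succ (hq : 2 ≤ q) (n : ℕ) (w : Fin (n + 1 + 1) → Fin q × Fin q) :
    Pc (n + 1) w ↔ (tc (w 0) ∧ Pc n (fun i => w i.succ)) ∨
      (ti (w 0) ∧ ∀ j : Fin (n + 1), ts (w j.succ)) := by
  constructor
  · rintro ⟨h0, hl, hw⟩
    have hw' : ∀ i : Fin n, adj (w i.succ.castSucc) (w i.succ.succ) := fun i => hw i.succ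
    rcases h0 with h0 | h0
    · left
      refine ⟨h0, ?_, hl, hw'⟩
      rcases hw 0 with ⟨-, h⟩ | ⟨-, h⟩ | ⟨h, -⟩ | ⟨h, -⟩
      · exact Or.inl h
      · exact Or.inr h
      · exact (not_ci h0 h).elim
      · exact (not_cs hq h0 h).elim
    · right
      refine ⟨h0, ?_⟩
      have h1 : ts (w 1) := by
        rcases hw 0 with ⟨h, -⟩ | ⟨h, -⟩ | ⟨-, h⟩ | ⟨-, h⟩
        · exact (not_ci h h0).elim
        · exact (not_ci h h0).elim
        · exact h
        · exact h
      exact all_s hq n (fun i => w i.succ) hw' h1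
  · rintro (⟨h0, h1, hl, hw⟩ | ⟨h0, h1⟩)
    · refine ⟨Or.inl h0, hl, fun i => ?_⟩
      refine Fin.cases ?_ (fun j => ?_) i
      · rcases h1 with h | h
        · exact Or.inl ⟨h0, h⟩
        · exact Or.inr (Or.inl ⟨h0, h⟩)
      · exact hw j
    · refine ⟨Or.inr h0, Or.inr (h1 (Fin.last n)), fun i => ?_⟩
      refine Fin.cases ?_ (fun j => ?_) i
      · exact Or.inr (Or.inr (Or.inl ⟨h0, h1 0⟩))
      · exact Or.inr (Or.inr (Or.inr ⟨h1 j.castSucc, h1 j.succ⟩))

theorem Pc_iff (hq : 2 ≤ q) : ∀ (n : ℕ) (w : Fin (n + 1) → Fin q × Fin q),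
    Suc q n w ↔ Pc n w := by
  intro n
  induction n with
  | zero =>
    intro w
    have e : ∀ a : Fin (0 + 1) → Fin q, val a = (a 0 : ℕ) := by
      intro a
      unfold val
      simp
    unfold Suc Pc
    rw [e, e]
    constructor
    · intro h
      exact ⟨Or.inr h, Or.inl h, fun i => i.elim0⟩
    · rintro ⟨h0, hl, -⟩
      have hl' : ti (w 0) ∨ ts (w 0) := hl
      rcases hl' with hl' | hl'
      · exact hl'
      · rcases h0 with h0 | h0
        · exact (not_cs hq h0 hl').elim
        · exact h0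
  | succ n ih =>
    intro w
    rw [Pc_succ hq, ← ih]
    unfold Suc
    rw [val_succ, val_succ]
    set v1 := val (fun i : Fin (n + 1) => (w i.succ).1) with hv1
    set v2 := val (fun i : Fin (n + 1) => (w i.succ).2) with hv2
    have b1 : ((w 0).1 : ℕ) < q := (w 0).1.isLt
    have b2 : ((w 0).2 : ℕ) < q := (w 0).2.isLt
    have hs : (∀ j : Fin (n + 1), ts (w j.succ)) ↔ v2 = v1 := by
      constructor
      · intro h
        rw [hv1, hv2]
        congr 1
        funext j
        exact (h j).symm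
      · intro h j
        have h1 := val_inj h
        exact (congrFun h1 j).symm
    rw [hs]
    unfold tc ti
    constructor
    · intro h
      rcases Nat.lt_or_ge (((w 0).1 : ℕ) + 1) q with h1 | h1
      · right
        have h2 := congrArg (fun z => z / q) h
        have h3 := congrArg (fun z => z % q) h
        have e1 : ((w 0).1 : ℕ) + q * v1 + 1 = (((w 0).1 : ℕ) + 1) + q * v1 := by ring
        simp only [e1] at h2 h3
        rw [Nat.add_mul_div_left _ _ (by omega), Nat.add_mul_div_left _ _ (by omega),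
          Nat.div_eq_of_lt b2, Nat.div_eq_of_lt h1] at h2
        rw [Nat.add_mul_mod_self_left, Nat.add_mul_mod_self_left, Nat.mod_eq_of_lt b2,
          Nat.mod_eq_of_lt h1] at h3
        omega
      · left
        have hq1 : ((w 0).1 : ℕ) + 1 = q := by omega
        have h2 := congrArg (fun z => z / q) h
        have h3 := congrArg (fun z => z % q) h
        have e1 : ((w 0).1 : ℕ) + q * v1 + 1 = 0 + q * (v1 + 1) := by
          rw [mul_add, mul_one]
          omega
        simp only [e1] at h2 h3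
        rw [Nat.add_mul_div_left _ _ (by omega), Nat.add_mul_div_left _ _ (by omega),
          Nat.div_eq_of_lt b2, Nat.zero_div] at h2
        rw [Nat.add_mul_mod_self_left, Nat.add_mul_mod_self_left, Nat.mod_eq_of_lt b2,
          Nat.zero_mod] at h3
        exact ⟨⟨hq1, h3⟩, by omega⟩
    · rintro (⟨⟨h1, h2⟩, h3⟩ | ⟨h1, h3⟩)
      · rw [h2, h3, mul_add, mul_one]
        omega
      · rw [h1, h3]
        ring

end SUC

/-- SUC: words over `Fin q` are the numbers below `q ^ (n + 1)`, and the successor is local. -/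
theorem t_SUC : SUC_Stmt := by
  intro q hq
  refine ⟨fun n => ⟨SUC.val_inj, SUC.val_surj⟩, {x | SUC.tc x ∨ SUC.ti x}, {x | SUC.ti x ∨ SUC.ts x},
    {x | SUC.adj x.1 x.2}, fun n w => ?_⟩
  exact SUC.Pc_iff hq n w

end Pool.Agent.NPH
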