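import Pool.Agent.NPH.StU

/-!
# Project NPH, module BIT: the transition table is definable (helper10)
-/

set_option autoImplicit false

namespace Pool.Agent.NPH

open Pool.Agent.Heads Relation

namespace BIT

section

variable {Γ : Type} {J : Type} [Finite J]

lemma bin (hD : DC) (P : ℕ → ℕ → Prop)
    (h : Dn (fun (n : ℕ) (_ : Fin (n + 1) → Γ) (v : Fin 2 → ℕ) => P (v 0) (v 1))) (x y : J) :
    Dn (fun (n : ℕ) (_ : Fin (n + 1) → Γ) (v : J → ℕ) => P (v x) (v y)) :=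
  hD.map Γ Γ (Fin 2) J id ![x, y] _ h

lemma ter (hD : DC) (P : ℕ → ℕ → ℕ → Prop)
    (h : Dn (fun (n : ℕ) (_ : Fin (n + 1) → Γ) (v : Fin 3 → ℕ) => P (v 0) (v 1) (v 2)))
    (x y z : J) : Dn (fun (n : ℕ) (_ : Fin (n + 1) → Γ) (v : J → ℕ) => P (v x) (v y) (v z)) :=
  hD.map Γ Γ (Fin 3) J id ![x, y, z] _ h

lemma un (hD : DC) (P : (n : ℕ) → (Fin (n + 1) → Γ) → ℕ → Prop)
    (h : Dn (fun (n : ℕ) (a : Fin (n + 1) → Γ) (v : Fin 1 → ℕ) => P n a (v 0))) (x : J) :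
    Dn (fun (n : ℕ) (a : Fin (n + 1) → Γ) (v : J → ℕ) => P n a (v x)) :=
  hD.map Γ Γ (Fin 1) J id ![x] _ h

end

end BIT

open BIT in
theorem t_BIT : BIT_Stmt := by
  intro hL hC hD hAri hAdd hMul Γ _ ω l X hω
  obtain ⟨-, a2, a3, a4, a5, -⟩ := hAri hL hC hD Γ
  obtain ⟨b1, b2⟩ := hAdd hL hC hD hAri Γ
  have m1 := hMul hL hC hD hAri hAdd Γ
  have sucD : ∀ x y : Fin 2 ⊕ Fin 11, Dn (fun (n : ℕ) (_ : Fin (n + 1) → Γ)
      (v : Fin 2 ⊕ Fin 11 → ℕ) => v y = v x + 1) := fun x y => bin hD (fun p q => q = p + 1) a2 x y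
  have ltD : ∀ x y : Fin 2 ⊕ Fin 11, Dn (fun (n : ℕ) (_ : Fin (n + 1) → Γ)
      (v : Fin 2 ⊕ Fin 11 → ℕ) => v x < v y) := fun x y => bin hD (fun p q => p < q) b2 x y
  have addD : ∀ x y z : Fin 2 ⊕ Fin 11, Dn (fun (n : ℕ) (_ : Fin (n + 1) → Γ)
      (v : Fin 2 ⊕ Fin 11 → ℕ) => v x + v y = v z) :=
    fun x y z => ter hD (fun p q r => p + q = r) b1 x y z
  have mulD : ∀ x y z : Fin 2 ⊕ Fin 11, Dn (fun (n : ℕ) (_ : Fin (n + 1) → Γ)
      (v : Fin 2 ⊕ Fin 11 → ℕ) => v x * v y = v z) :=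
    fun x y z => ter hD (fun p q r => p * q = r) m1 x y z
  have conD : ∀ (c : ℕ) (x : Fin 2 ⊕ Fin 11), Dn (fun (n : ℕ) (_ : Fin (n + 1) → Γ)
      (v : Fin 2 ⊕ Fin 11 → ℕ) => v x = c) := fun c x => un hD (fun _ _ p => p = c) (a3 c) x
  have topD : ∀ (x : Fin 2 ⊕ Fin 11), Dn (fun (n : ℕ) (_ : Fin (n + 1) → Γ)
      (v : Fin 2 ⊕ Fin 11 → ℕ) => v x = n + 1) := fun x => un hD (fun n _ p => p = n + 1) a4 x
  have letD : ∀ (x : Fin 2 ⊕ Fin 11), Dn (fun (n : ℕ) (a : Fin (n + 1) → Γ)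
      (v : Fin 2 ⊕ Fin 11 → ℕ) => ∃ i : Fin (n + 1), v x = i.val + 1 ∧ a i ∈ X) :=
    fun x => un hD (fun n a p => ∃ i : Fin (n + 1), p = i.val + 1 ∧ a i ∈ X) (a5 X) x
  have hP : Dn (fun (n : ℕ) (a : Fin (n + 1) → Γ) (v : Fin 2 ⊕ Fin 11 → ℕ) =>
      v (Sum.inr 0) * v (Sum.inr 0) = v (Sum.inr 1) ∧ v (Sum.inr 2) = ω ∧
      v (Sum.inr 1) * v (Sum.inr 2) = v (Sum.inr 3) ∧ v (Sum.inr 4) = v (Sum.inr 3) + 1 ∧
      v (Sum.inr 4) = n + 1 ∧ v (Sum.inl 0) < v (Sum.inr 0) ∧ v (Sum.inl 1) < v (Sum.inr 0) ∧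
      v (Sum.inl 0) * v (Sum.inr 0) = v (Sum.inr 5) ∧
      v (Sum.inr 5) + v (Sum.inl 1) = v (Sum.inr 6) ∧
      v (Sum.inr 6) * v (Sum.inr 2) = v (Sum.inr 7) ∧ v (Sum.inr 8) = l ∧
      v (Sum.inr 7) + v (Sum.inr 8) = v (Sum.inr 9) ∧ v (Sum.inr 10) = v (Sum.inr 9) + 1 ∧
      ∃ i : Fin (n + 1), v (Sum.inr 10) = i.val + 1 ∧ a i ∈ X) := by
    refine hD.and _ _ _ _ (mulD _ _ _) ?_
    refine hD.and _ _ _ _ (conD _ _) ?_
    refine hD.and _ _ _ _ (mulD _ _ _) ?_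
    refine hD.and _ _ _ _ (sucD _ _) ?_
    refine hD.and _ _ _ _ (topD _) ?_
    refine hD.and _ _ _ _ (ltD _ _) ?_
    refine hD.and _ _ _ _ (ltD _ _) ?_
    refine hD.and _ _ _ _ (mulD _ _ _) ?_
    refine hD.and _ _ _ _ (addD _ _ _) ?_
    refine hD.and _ _ _ _ (mulD _ _ _) ?_
    refine hD.and _ _ _ _ (conD _ _) ?_
    refine hD.and _ _ _ _ (addD _ _ _) ?_
    exact hD.and _ _ _ _ (sucD _ _) (letD _)
  refine (hD.exn Γ (Fin 2) (Fin 11) _ hP).congr fun n a v hv => ⟨?_, ?_⟩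
  · rintro ⟨u, -, h⟩
    simp only [Sum.elim_inl, Sum.elim_inr] at h
    obtain ⟨h1, h2, h3, h4, h5, h6, h7, h8, h9, h10, h11, h12, h13, i, h14, h15⟩ := h
    refine ⟨u 0, ?_, h6, h7, i, ?_, h15⟩
    · rw [h1, ← h2, h3]
      omega
    · rw [h8, h9, ← h2, h10, ← h11, h12]
      omega
  · rintro ⟨s, hs, h0, h1, i, hi, hX⟩
    have hin := i.isLt
    have hs1 : 1 ≤ s := by omega
    have e1 : s ≤ s * s := Nat.le_mul_of_pos_right _ hs1
    have e2 : s * s ≤ s * s * ω := Nat.le_mul_of_pos_right _ hω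
    have e3 : ω ≤ s * s * ω := Nat.le_mul_of_pos_left _ (by positivity)
    have e4 : v 0 * s + v 1 ≤ (v 0 * s + v 1) * ω := Nat.le_mul_of_pos_right _ hω
    refine ⟨![s, s * s, ω, s * s * ω, n + 1, v 0 * s, v 0 * s + v 1, (v 0 * s + v 1) * ω, l,
      i.val, i.val + 1], ?_, ?_⟩
    · intro j
      fin_cases j
      · show s ≤ n + 1
        omega
      · show s * s ≤ n + 1
        omega
      · show ω ≤ n + 1
        omega
      · show s * s * ω ≤ n + 1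
        omega
      · show n + 1 ≤ n + 1
        exact le_refl _
      · show v 0 * s ≤ n + 1
        omega
      · show v 0 * s + v 1 ≤ n + 1
        omega
      · show (v 0 * s + v 1) * ω ≤ n + 1
        omega
      · show l ≤ n + 1
        omega
      · show i.val ≤ n + 1
        omega
      · show i.val + 1 ≤ n + 1
        omega
    · simp only [Sum.elim_inl, Sum.elim_inr]
      refine ⟨rfl, rfl, rfl, ?_, rfl, h0, h1, rfl, rfl, rfl, rfl, ?_, rfl, i, rfl, hX⟩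
      · show n + 1 = s * s * ω + 1
        rw [hs]
      · show (v 0 * s + v 1) * ω + l = i.val
        exact hi.symm

end Pool.Agent.NPH
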