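import Pool.Agent.NPH.StU

/-!
# Project NPH, part U: reading the code word
-/

set_option autoImplicit false

namespace Pool.Agent.NPH

open Pool.Agent.Heads Relation

namespace COD

theorem div_mod (s ω p p' l : ℕ) (hp : p' < s) (hl : l < ω) :
    ((p * s + p') * ω + l) / ω = p * s + p' ∧ ((p * s + p') * ω + l) % ω = l ∧
      (p * s + p') / s = p ∧ (p * s + p') % s = p' := by
  have hω : 0 < ω := by omega
  have hs : 0 < s := by omega
  refine ⟨?_, ?_, ?_, ?_⟩
  · rw [Nat.mul_comm, Nat.mul_add_div hω, Nat.div_eq_of_lt hl, Nat.add_zero]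
  · rw [Nat.mul_comm, Nat.mul_add_mod, Nat.mod_eq_of_lt hl]
  · rw [Nat.mul_comm, Nat.mul_add_div hs, Nat.div_eq_of_lt hp, Nat.add_zero]
  · rw [Nat.mul_comm, Nat.mul_add_mod, Nat.mod_eq_of_lt hp]

theorem bound (s ω p p' l : ℕ) (hp : p < s) (hp' : p' < s) (hl : l < ω) :
    (p * s + p') * ω + l < s * s * ω := by
  have h1 : p * s + p' + 1 ≤ s * s := by
    have h2 : (p + 1) * s ≤ s * s := Nat.mul_le_mul_right s hp
    have h3 : (p + 1) * s = p * s + s := Nat.succ_mul p s
    omega
  have h4 : (p * s + p' + 1) * ω ≤ s * s * ω := Nat.mul_le_mul_right ω h1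
  have h5 : (p * s + p' + 1) * ω = (p * s + p') * ω + ω := Nat.succ_mul _ ω
  omega

theorem length (s ω : ℕ) (R : ℕ → ℕ → ℕ → Prop) : (code s ω R).length = s * s * ω := by
  unfold code
  rw [List.length_map, List.length_range]

open Classical in
theorem get (s ω : ℕ) (R : ℕ → ℕ → ℕ → Prop) (p p' l : ℕ) (hp : p < s) (hp' : p' < s)
    (hl : l < ω) : (code s ω R)[(p * s + p') * ω + l]? = some (decide (R p p' l), 0) := by
  have hb := bound s ω p p' l hp hp' hl
  obtain ⟨h1, h2, h3, h4⟩ := div_mod s ω p p' l hp' hl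
  unfold code
  rw [List.getElem?_map, List.getElem?_range hb, Option.map_some, h1, h2, h3, h4]

end COD

open COD in
theorem t_COD : COD_Stmt := by
  intro s ω R l v hl
  have hω : 0 < ω := by omega
  constructor
  · rintro ⟨s', hs', h0, h1, i, hi, ha⟩
    rw [length] at hs'
    have hss : s' = s := Nat.mul_self_inj.1 (Nat.eq_of_mul_eq_mul_right hω hs')
    subst hss
    refine ⟨h0, h1, ?_⟩
    have h2 : (code s' ω R)[(i : ℕ)]? = some (true, 0) := ha
    rw [hi, get s' ω R (v 0) (v 1) l h0 h1 hl] at h2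
    have h3 := congrArg Prod.fst (Option.some.inj h2)
    simpa using h3
  · rintro ⟨h0, h1, hR⟩
    have hb := bound s ω (v 0) (v 1) l h0 h1 hl
    refine ⟨s, (length s ω R).symm, h0, h1, ⟨(v 0 * s + v 1) * ω + l, ?_⟩, rfl, ?_⟩
    · rw [length]
      omega
    · show (code s ω R)[(v 0 * s + v 1) * ω + l]? = some (true, 0)
      rw [get s ω R (v 0) (v 1) l h0 h1 hl]
      simp [hR]

end Pool.Agent.NPH
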