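import Pool.Agent.NPH.StU

/-!
# Project NPH, module DNA: Boolean operations for definable predicates
-/

set_option autoImplicit false

namespace Pool.Agent.NPH

theorem t_DNA : DNA_Stmt := by
  intro hC h1
  refine ⟨?_, ?_, ?_⟩
  · intro Γ J P P' hP hP'
    unfold Dn at hP hP' ⊢
    refine cast (congrArg Cc ?_) (hC.and _ _ _ hP hP')
    funext n w
    apply propext
    constructor
    · rintro ⟨⟨v, hv, hp⟩, v', hv', hp'⟩
      have e := IsM.inj hv' hv
      rw [e] at hp'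
      exact ⟨v, hv, hp, hp'⟩
    · rintro ⟨v, hv, hp, hp'⟩
      exact ⟨⟨v, hv, hp⟩, v, hv, hp'⟩
  · intro Γ J P P' hP hP'
    unfold Dn at hP hP' ⊢
    refine cast (congrArg Cc ?_) (hC.or _ _ _ hP hP')
    funext n w
    apply propext
    constructor
    · rintro (⟨v, hv, hp⟩ | ⟨v, hv, hp⟩)
      · exact ⟨v, hv, Or.inl hp⟩
      · exact ⟨v, hv, Or.inr hp⟩
    · rintro ⟨v, hv, hp | hp⟩
      · exact Or.inl ⟨v, hv, hp⟩
      · exact Or.inr ⟨v, hv, hp⟩
  · intro Γ J _ _ P hP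
    unfold Dn at hP ⊢
    refine cast (congrArg Cc ?_) (hC.and _ _ _ ((h1 hC).1 Γ J) (hC.not _ _ hP))
    funext n w
    apply propext
    constructor
    · rintro ⟨⟨v, hv⟩, hn⟩
      exact ⟨v, hv, fun hp => hn ⟨v, hv, hp⟩⟩
    · rintro ⟨v, hv, hp⟩
      refine ⟨⟨v, hv⟩, ?_⟩
      rintro ⟨v', hv', hp'⟩
      have e := IsM.inj hv' hv
      rw [e] at hp'
      exact hp hp'

end Pool.Agent.NPH
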