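import Pool.Agent.NPH.StU

/-!
# Module NPH_DNB: change of variables and quantifiers
-/

set_option autoImplicit false

namespace Pool.Agent.NPH

open Pool.Agent.Heads Relation

namespace DNB

/-- the marks of some of the numbers -/
theorem isM_comp {n : ℕ} {J J' : Type} (f : J → J') {w : Fin (n + 1) → (J' → Bool)} {v : J' → ℕ}
    (h : IsM w v) : IsM (fun i => w i ∘ f) (v ∘ f) := by
  refine ⟨fun j => h.1 (f j), ?_⟩
  funext i j
  exact congrFun (congrFun h.2 i) (f j)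

/-- the marks of two families of numbers -/
theorem isM_elim {n : ℕ} {J J' : Type} {w : Fin (n + 1) → (J → Bool)}
    {b : Fin (n + 1) → (J' → Bool)} {v : J → ℕ} {u : J' → ℕ} (h : IsM w v) (h' : IsM b u) :
    IsM (fun i => Sum.elim (w i) (b i)) (Sum.elim v u) := by
  refine ⟨?_, ?_⟩
  · rintro (j | j)
    · exact h.1 j
    · exact h'.1 j
  · funext i j
    rcases j with j | j
    · exact congrFun (congrFun h.2 i) j
    · exact congrFun (congrFun h'.2 i) j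

end DNB

open DNB in
theorem t_DNB : DNB_Stmt := by
  intro hC h1
  refine ⟨?_, ?_, ?_⟩
  · intro Γ Γ' J J' _ g f P hP
    have h := hC.and _ _ _ ((h1 hC).1 Γ' J')
      (hC.map (Γ × (J → Bool)) (Γ' × (J' → Bool)) (fun x => (g x.1, x.2 ∘ f)) _ hP)
    refine (congrArg (Cc (Γ := Γ' × (J' → Bool))) ?_).mp h
    funext n w
    refine propext ⟨?_, ?_⟩
    · rintro ⟨⟨v, hv⟩, u, hu, hPu⟩
      have e : u = v ∘ f := IsM.inj hu (isM_comp f hv)
      subst e
      exact ⟨v, hv, hPu⟩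
    · rintro ⟨v, hv, hPv⟩
      exact ⟨⟨v, hv⟩, v ∘ f, isM_comp f hv, hPv⟩
  · intro Γ J J' _ P hP
    have h := hC.ex (Γ × (J → Bool)) (J' → Bool) _
      (hC.map (Γ × (J ⊕ J' → Bool)) ((Γ × (J → Bool)) × (J' → Bool))
        (fun x => (x.1.1, Sum.elim x.1.2 x.2)) _ hP)
    refine (congrArg (Cc (Γ := Γ × (J → Bool))) ?_).mp h
    funext n w
    refine propext ⟨?_, ?_⟩
    · rintro ⟨b, v', hv', hPv⟩
      have e1 : IsM (fun i => (w i).2) (v' ∘ Sum.inl) := isM_comp Sum.inl hv'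
      refine ⟨v' ∘ Sum.inl, e1, v' ∘ Sum.inr, fun j => hv'.1 _, ?_⟩
      rw [Sum.elim_comp_inl_inr]
      exact hPv
    · rintro ⟨v, hv, u, hu, hPu⟩
      exact ⟨marks u, Sum.elim v u, isM_elim hv ⟨hu, rfl⟩, hPu⟩
  · intro Γ Γ' J _ P hP
    have h := hC.ex (Γ × (J → Bool)) Γ' _
      (hC.map ((Γ × Γ') × (J → Bool)) ((Γ × (J → Bool)) × Γ')
        (fun x => ((x.1.1, x.2), x.1.2)) _ hP)
    refine (congrArg (Cc (Γ := Γ × (J → Bool))) ?_).mp h
    funext n w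
    refine propext ⟨?_, ?_⟩
    · rintro ⟨b, v, hv, hPv⟩
      exact ⟨v, hv, b, hPv⟩
    · rintro ⟨v, hv, b, hPv⟩
      exact ⟨b, v, hv, hPv⟩

end Pool.Agent.NPH
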