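import Pool.Agent.NPH.StU

/-!
# Project NPH, module DNF: finite disjunctions and conjunctions of definable predicates
-/

set_option autoImplicit false

namespace Pool.Agent.NPH

open Pool.Agent.Heads Relation

namespace DNF

theorem dn_false (hC : Calc) (h1 : ONE_Stmt) (Γ J : Type) [Finite J] :
    Dn (Γ := Γ) (J := J) fun _ _ _ => False := by
  refine (h1 hC).2 Γ J (fun _ _ => False) (hC.loc _ _ ?_)
  refine ⟨∅, Set.univ, Set.univ, fun n a => ?_⟩
  simp

theorem dn_true (hC : Calc) (h1 : ONE_Stmt) (Γ J : Type) [Finite J] :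
    Dn (Γ := Γ) (J := J) fun _ _ _ => True := by
  refine (h1 hC).2 Γ J (fun _ _ => True) (hC.loc _ _ ?_)
  refine ⟨Set.univ, Set.univ, Set.univ, fun n a => ?_⟩
  simp

end DNF

open DNF in
theorem t_DNF : DNF_Stmt := by
  intro hC h1 h2
  obtain ⟨hand, hor, -⟩ := h2 hC h1
  refine ⟨fun Γ J ι _ _ => ?_, fun Γ J ι _ _ => ?_⟩
  · refine Finite.induction_empty_option
      (P := fun ι : Type => ∀ P : ι → PP Γ J, (∀ i, Dn (P i)) → Dn fun n a v => ∃ i, P i n a v)
      ?_ ?_ ?_ ι
    · intro α β e ih P hP
      refine (ih (fun i => P (e i)) fun i => hP _).congr fun n a v _ => ?_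
      exact ⟨fun ⟨i, h⟩ => ⟨e i, h⟩, fun ⟨j, h⟩ => ⟨e.symm j, by rwa [e.apply_symm_apply]⟩⟩
    · intro P _
      refine (dn_false hC h1 Γ J).congr fun n a v _ => ?_
      simp
    · intro α _ ih P hP
      refine (hor Γ J (P none) _ (hP none) (ih (fun i => P (some i)) fun i => hP _)).congr
        fun n a v _ => ?_
      constructor
      · rintro (h | ⟨i, h⟩)
        · exact ⟨none, h⟩
        · exact ⟨some i, h⟩
      · rintro ⟨i, h⟩
        cases i with
        | none => exact Or.inl h
        | some i => exact Or.inr ⟨i, h⟩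
  · refine Finite.induction_empty_option
      (P := fun ι : Type => ∀ P : ι → PP Γ J, (∀ i, Dn (P i)) → Dn fun n a v => ∀ i, P i n a v)
      ?_ ?_ ?_ ι
    · intro α β e ih P hP
      refine (ih (fun i => P (e i)) fun i => hP _).congr fun n a v _ => ?_
      exact ⟨fun h j => by simpa using h (e.symm j), fun h i => h _⟩
    · intro P _
      refine (dn_true hC h1 Γ J).congr fun n a v _ => ?_
      simp
    · intro α _ ih P hP
      refine (hand Γ J (P none) _ (hP none) (ih (fun i => P (some i)) fun i => hP _)).congr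
        fun n a v _ => ?_
      constructor
      · rintro ⟨h, h'⟩ i
        cases i with
        | none => exact h
        | some i => exact h' i
      · exact fun h => ⟨h none, fun i => h (some i)⟩

end Pool.Agent.NPH
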