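import Pool.Agent.NPH.StU

/-!
# Module NPH_DNT: transitive closure of definable predicates
-/

set_option autoImplicit false

namespace Pool.Agent.NPH

open Pool.Agent.Heads Relation

namespace DNT

/-- The word of a pair (word, numbers). -/
def enc {n : ℕ} {Γ' J' : Type} (c : (Fin (n + 1) → Γ') × (J' → ℕ)) :
    Fin (n + 1) → Γ' × (J' → Bool) :=
  zp c.1 (marks c.2)

theorem enc_inj {n : ℕ} {Γ' J' : Type} {c c' : (Fin (n + 1) → Γ') × (J' → ℕ)}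
    (h : ∀ j, c.2 j ≤ n + 1) (h' : ∀ j, c'.2 j ≤ n + 1) (e : enc c = enc c') : c = c' := by
  refine Prod.ext ?_ ?_
  · funext i
    exact congrArg Prod.fst (congrFun e i)
  · refine IsM.inj (w := marks c.2) ⟨h, rfl⟩ ⟨h', ?_⟩
    funext i
    exact congrArg Prod.snd (congrFun e i)

/-- The marks of numbers given by cases. -/
theorem marks_elim {n : ℕ} {J K : Type} (v : J → ℕ) (u : K → ℕ) (i : Fin (n + 1)) :
    marks (Sum.elim v u) i = Sum.elim (marks v i) (marks u i) := by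
  funext j
  cases j <;> rfl

/-- A step between two words. -/
def Q {Γ Γ' J J' : Type} (P : PP (Γ × (Γ' × Γ')) (J ⊕ (J' ⊕ J'))) :
    WP ((Γ × (J → Bool)) × ((Γ' × (J' → Bool)) × (Γ' × (J' → Bool)))) := fun n w =>
  ∃ v : J ⊕ (J' ⊕ J') → ℕ,
    IsM (fun i => Sum.elim (w i).1.2 (Sum.elim (w i).2.1.2 (w i).2.2.2)) v ∧
    P n (fun i => ((w i).1.1, ((w i).2.1.1, (w i).2.2.1))) v

theorem cc_Q (hC : Calc) {Γ Γ' J J' : Type} {P : PP (Γ × (Γ' × Γ')) (J ⊕ (J' ⊕ J'))}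
    (h : Dn P) : Cc (Q P) :=
  hC.map ((Γ × (Γ' × Γ')) × (J ⊕ (J' ⊕ J') → Bool))
    ((Γ × (J → Bool)) × ((Γ' × (J' → Bool)) × (Γ' × (J' → Bool))))
    (fun x => ((x.1.1, (x.2.1.1, x.2.2.1)), Sum.elim x.1.2 (Sum.elim x.2.1.2 x.2.2.2))) _ h

theorem step_Q {Γ Γ' J J' : Type} {P : PP (Γ × (Γ' × Γ')) (J ⊕ (J' ⊕ J'))} {n : ℕ}
    {a : Fin (n + 1) → Γ} {v : J → ℕ} (hv : ∀ j, v j ≤ n + 1)
    {c c' : (Fin (n + 1) → Γ') × (J' → ℕ)} (h : StepOf P n a v c c') :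
    Q P n (zp (zp a (marks v)) (zp (enc c) (enc c'))) := by
  obtain ⟨h1, h2, h3⟩ := h
  refine ⟨Sum.elim v (Sum.elim c.2 c'.2), ⟨?_, ?_⟩, h3⟩
  · rintro (j | j | j)
    · exact hv j
    · exact h1 j
    · exact h2 j
  · funext i
    rw [marks_elim, marks_elim]
    rfl

theorem Q_step {Γ Γ' J J' : Type} {P : PP (Γ × (Γ' × Γ')) (J ⊕ (J' ⊕ J'))} {n : ℕ}
    {a : Fin (n + 1) → Γ} {v : J → ℕ} (hv : ∀ j, v j ≤ n + 1)
    {b b' : Fin (n + 1) → Γ' × (J' → Bool)} (h : Q P n (zp (zp a (marks v)) (zp b b'))) :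
    ∃ c c' : (Fin (n + 1) → Γ') × (J' → ℕ), b = enc c ∧ b' = enc c' ∧ StepOf P n a v c c' := by
  obtain ⟨u, hu, hP⟩ := h
  have hm : ∀ i, Sum.elim (marks v i) (Sum.elim (b i).2 (b' i).2) = marks u i := fun i =>
    congrFun hu.2 i
  have e1 : v = u ∘ Sum.inl := by
    refine IsM.inj (w := marks v) ⟨hv, rfl⟩ ⟨fun j => hu.1 _, ?_⟩
    funext i j
    exact congrFun (hm i) (Sum.inl j)
  refine ⟨(fun i => (b i).1, u ∘ Sum.inr ∘ Sum.inl), (fun i => (b' i).1, u ∘ Sum.inr ∘ Sum.inr),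
    ?_, ?_, fun j => hu.1 _, fun j => hu.1 _, ?_⟩
  · funext i
    refine Prod.ext rfl ?_
    funext j
    exact congrFun (hm i) (Sum.inr (Sum.inl j))
  · funext i
    refine Prod.ext rfl ?_
    funext j
    exact congrFun (hm i) (Sum.inr (Sum.inr j))
  · have e2 : Sum.elim v (Sum.elim (u ∘ Sum.inr ∘ Sum.inl) (u ∘ Sum.inr ∘ Sum.inr)) = u := by
      rw [e1]
      funext j
      rcases j with j | j | j <;> rfl
    show P n _ (Sum.elim v (Sum.elim (u ∘ Sum.inr ∘ Sum.inl) (u ∘ Sum.inr ∘ Sum.inr)))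
    rw [e2]
    exact hP

theorem chain {Γ Γ' J J' : Type} {P : PP (Γ × (Γ' × Γ')) (J ⊕ (J' ⊕ J'))} {n : ℕ}
    {a : Fin (n + 1) → Γ} {v : J → ℕ} (hv : ∀ j, v j ≤ n + 1)
    {c c' : (Fin (n + 1) → Γ') × (J' → ℕ)} (h0 : ∀ j, c.2 j ≤ n + 1) (h1 : ∀ j, c'.2 j ≤ n + 1) :
    ReflTransGen (StepOf P n a v) c c' ↔
      ReflTransGen (fun b b' => Q P n (zp (zp a (marks v)) (zp b b'))) (enc c) (enc c') := by
  constructor
  · intro h
    exact h.lift enc fun x y hxy => step_Q hv hxy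
  · intro h
    have key : ∀ B, ReflTransGen (fun b b' => Q P n (zp (zp a (marks v)) (zp b b'))) (enc c) B →
        ∀ d : (Fin (n + 1) → Γ') × (J' → ℕ), (∀ j, d.2 j ≤ n + 1) → B = enc d →
        ReflTransGen (StepOf P n a v) c d := by
      intro B hB
      induction hB with
      | refl =>
        intro d hd e
        rw [enc_inj h0 hd e]
      | tail _ hs ih =>
        intro d hd e
        obtain ⟨x, y, ex, ey, hxy⟩ := Q_step hv hs
        have : d = y := enc_inj hd hxy.2.1 (e.symm.trans ey)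
        subst this
        exact (ih x hxy.1 ex).tail hxy
    exact key _ h c' h1 rfl

end DNT

/-- DNT: transitive closure of definable predicates. -/
theorem t_DNT : DNT_Stmt := by
  intro hC hO Γ Γ' J J' _ _ _ _ P hP
  have h1 := DNT.cc_Q hC hP
  have h2 := hC.tc (Γ × (J → Bool)) (Γ' × (J' → Bool)) _ h1
  have h3 := hC.map _ ((Γ × (Γ' × Γ')) × (J ⊕ (J' ⊕ J') → Bool))
    (fun y => ((y.1.1, y.2 ∘ Sum.inl),
      ((y.1.2.1, y.2 ∘ Sum.inr ∘ Sum.inl), (y.1.2.2, y.2 ∘ Sum.inr ∘ Sum.inr)))) _ h2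
  have h4 := hC.and _ _ _ (hO hC |>.1 (Γ × (Γ' × Γ')) (J ⊕ (J' ⊕ J'))) h3
  unfold Dn
  have e : ∀ (n : ℕ) (w : Fin (n + 1) → (Γ × (Γ' × Γ')) × (J ⊕ (J' ⊕ J') → Bool))
      (v : J ⊕ (J' ⊕ J') → ℕ), IsM (fun i => (w i).2) v →
      (ReflTransGen (StepOf P n (fun i => (w i).1.1) (v ∘ Sum.inl))
        (fun i => (w i).1.2.1, v ∘ Sum.inr ∘ Sum.inl)
        (fun i => (w i).1.2.2, v ∘ Sum.inr ∘ Sum.inr) ↔
      ReflTransGen (fun b b' => DNT.Q P n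
          (zp (fun i => ((w i).1.1, (w i).2 ∘ Sum.inl)) (zp b b')))
        (fun i => ((w i).1.2.1, (w i).2 ∘ Sum.inr ∘ Sum.inl))
        (fun i => ((w i).1.2.2, (w i).2 ∘ Sum.inr ∘ Sum.inr))) := by
    intro n w v hv
    have hm : ∀ i, (w i).2 = marks v i := fun i => congrFun hv.2 i
    have e1 : (fun i => ((w i).1.1, (w i).2 ∘ Sum.inl)) =
        zp (fun i => (w i).1.1) (marks (v ∘ Sum.inl)) := by
      funext i
      rw [hm i]
      rfl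
    have e2 : (fun i => ((w i).1.2.1, (w i).2 ∘ Sum.inr ∘ Sum.inl)) =
        DNT.enc ((fun i => (w i).1.2.1), v ∘ Sum.inr ∘ Sum.inl) := by
      funext i
      rw [hm i]
      rfl
    have e3 : (fun i => ((w i).1.2.2, (w i).2 ∘ Sum.inr ∘ Sum.inr)) =
        DNT.enc ((fun i => (w i).1.2.2), v ∘ Sum.inr ∘ Sum.inr) := by
      funext i
      rw [hm i]
      rfl
    rw [e1, e2, e3]
    exact DNT.chain (fun j => hv.1 _) (fun j => hv.1 _) (fun j => hv.1 _)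
  have e' : (fun n (w : Fin (n + 1) → (Γ × (Γ' × Γ')) × (J ⊕ (J' ⊕ J') → Bool)) =>
      ∃ v : J ⊕ (J' ⊕ J') → ℕ, IsM (fun i => (w i).2) v ∧
      ReflTransGen (StepOf P n (fun i => (w i).1.1) (v ∘ Sum.inl))
        (fun i => (w i).1.2.1, v ∘ Sum.inr ∘ Sum.inl)
        (fun i => (w i).1.2.2, v ∘ Sum.inr ∘ Sum.inr)) = fun n w =>
      (∃ v : J ⊕ (J' ⊕ J') → ℕ, IsM (fun i => (w i).2) v) ∧
      ReflTransGen (fun b b' => DNT.Q P n
          (zp (fun i => ((w i).1.1, (w i).2 ∘ Sum.inl)) (zp b b')))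
        (fun i => ((w i).1.2.1, (w i).2 ∘ Sum.inr ∘ Sum.inl))
        (fun i => ((w i).1.2.2, (w i).2 ∘ Sum.inr ∘ Sum.inr)) := by
    funext n w
    refine propext ⟨?_, ?_⟩
    · rintro ⟨v, hv, h⟩
      exact ⟨⟨v, hv⟩, (e n w v hv).1 h⟩
    · rintro ⟨⟨v, hv⟩, h⟩
      exact ⟨v, hv, (e n w v hv).2 h⟩
  show Cc _
  rw [e']
  exact h4

end Pool.Agent.NPH
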