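import Pool.Agent.NPH.StU

/-!
# Project NPH, module MIC (helper85): micro steps are equivalent to rounds
-/

set_option autoImplicit false

namespace Pool.Agent.NPH

open Pool.Agent.Heads Relation

namespace MIC

variable {Λ : Type} {r S : ℕ} (T : RM Λ r S) (x : List Λ)

/-- the micro steps of a sweep -/
theorem sweep_mic (mem w : Fin (x.length + 1) → Fin S) (h : Fin r → ℕ)
    (P : Fin (x.length + 1 + 1) → T.Q)
    (hP : ∀ k : Fin (x.length + 1), (P k.succ, w k) ∈ T.sw (P k.castSucc) (mem k)) :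
    ∀ (k : ℕ) (hk : k < x.length + 1 + 1), ReflTransGen (Mic T x) (P 0, 0, mem, h)
      (P ⟨k, hk⟩, k, (fun i => if i.val < k then w i else mem i), h) := by
  intro k
  induction k with
  | zero =>
    intro hk
    have h1 : (fun i : Fin (x.length + 1) => if i.val < 0 then w i else mem i) = mem := by
      funext i
      simp
    rw [h1]
    exact ReflTransGen.refl
  | succ k ih =>
    intro hk
    refine (ih (by omega)).tail (Or.inl ⟨rfl, by simpa using Nat.le_of_lt_succ hk, rfl,
      (mem ⟨k, by omega⟩, w ⟨k, by omega⟩), hP ⟨k, by omega⟩, fun i => ⟨fun hi => ?_, fun hi => ?_⟩⟩)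
    · have hi' : k + 1 = i.val + 1 := hi
      have h2 : i = ⟨k, by omega⟩ := Fin.ext (by simp; omega)
      rw [h2]
      simp
    · have hi' : k + 1 ≠ i.val + 1 := hi
      by_cases h3 : i.val < k
      · simp [h3, Nat.lt_succ_of_lt h3]
      · have h4 : ¬ i.val < k + 1 := by omega
        simp [h3, h4]

/-- from rounds to micro steps -/
theorem to_mic (hS : SWP_Stmt) (c : T.Conf) (hc : ReflTransGen (T.Round x) (T.init x) c) :
    ∃ mem : Fin (x.length + 1) → Fin S, c.2.2 = List.ofFn mem ∧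
      ReflTransGen (Mic T x) (T.start, 0, (fun _ => T.blank), fun _ => 0) (c.1, 0, mem, c.2.1) := by
  induction hc with
  | refl =>
    exact ⟨fun _ => T.blank, (List.ofFn_const (x.length + 1) T.blank).symm, ReflTransGen.refl⟩
  | @tail c c' _ hr ih =>
    obtain ⟨mem, hm, hR⟩ := ih
    obtain ⟨p, hs, t, ht, h1, h2⟩ := hr
    rw [hm, hS] at hs
    obtain ⟨w, P, hw, hP0, hPl, hP⟩ := hs
    refine ⟨w, hw, ?_⟩
    have h3 := sweep_mic T x mem w c.2.1 P hP (x.length + 1) (by omega)
    rw [hP0] at h3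
    refine (hR.trans h3).tail (Or.inr ⟨rfl, rfl, ?_, t.2, ?_, h2⟩)
    · funext i
      simp [i.isLt]
    · have h4 : (⟨x.length + 1, by omega⟩ : Fin (x.length + 1 + 1)) = Fin.last (x.length + 1) := rfl
      show (c'.1, t.2) ∈ T.hd (P ⟨x.length + 1, by omega⟩) (fun j => tape x (c.2.1 j))
      rw [h4, hPl, h1]
      exact ht

/-- from micro steps to rounds -/
theorem of_mic (hS : SWP_Stmt)
    (d : T.Q × ℕ × (Fin (x.length + 1) → Fin S) × (Fin r → ℕ))
    (hd : ReflTransGen (Mic T x) (T.start, 0, (fun _ => T.blank), fun _ => 0) d) :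
    ∃ (q : T.Q) (u : Fin (x.length + 1) → Fin S) (P : ℕ → T.Q),
      ReflTransGen (T.Round x) (T.init x) (q, d.2.2.2, List.ofFn u) ∧ P 0 = q ∧ P d.2.1 = d.1 ∧
      d.2.1 ≤ x.length + 1 ∧
      (∀ i : Fin (x.length + 1), i.val < d.2.1 →
        (P (i.val + 1), d.2.2.1 i) ∈ T.sw (P i.val) (u i)) ∧
      ∀ i : Fin (x.length + 1), d.2.1 ≤ i.val → d.2.2.1 i = u i := by
  induction hd with
  | refl =>
    refine ⟨T.start, fun _ => T.blank, fun _ => T.start, ?_, rfl, rfl, Nat.zero_le _,
      fun i hi => absurd hi (Nat.not_lt_zero _), fun i _ => rfl⟩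
    have h1 : T.init x = (T.start, (fun _ => 0), List.ofFn fun _ : Fin (x.length + 1) => T.blank) := by
      rw [List.ofFn_const]
      rfl
    rw [h1]
  | @tail d d' _ hr ih =>
    obtain ⟨q, u, P, hR, hP0, hPk, hk, hP, hu⟩ := ih
    rcases hr with ⟨h1, h2, h3, m, h4, h5⟩ | ⟨h1, h2, h3, e, h4, h5⟩
    · refine ⟨q, u, Function.update P (d.2.1 + 1) d'.1, ?_, ?_, ?_, h2, ?_, ?_⟩
      · rw [h3]
        exact hR
      · rw [Function.update_of_ne (by omega)]
        exact hP0
      · rw [h1, Function.update_self]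
      · intro i hi
        rw [h1] at hi
        rw [Function.update_of_ne (a := i.val) (by omega)]
        by_cases h6 : i.val = d.2.1
        · have h7 := (h5 i).1 (by omega)
          have h8 : d.2.2.1 i = m.1 := congrArg Prod.fst h7
          have h9 : d'.2.2.1 i = m.2 := congrArg Prod.snd h7
          rw [h6, Function.update_self, hPk, h9, ← hu i (by omega), h8]
          exact h4
        · rw [Function.update_of_ne (by omega), (h5 i).2 (by omega)]
          exact hP i (by omega)
      · intro i hi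
        rw [h1] at hi
        rw [(h5 i).2 (by omega)]
        exact hu i (by omega)
    · refine ⟨d'.1, d.2.2.1, fun _ => d'.1, ?_, rfl, rfl, by omega, fun i hi => by omega, fun i _ => by
        rw [h3]⟩
      refine hR.tail ⟨d.1, ?_, (d'.1, e), h4, rfl, h5⟩
      rw [hS]
      refine ⟨d.2.2.1, fun k => P k.val, rfl, hP0, ?_, fun k => ?_⟩
      · have h6 : P (x.length + 1) = d.1 := by
          rw [← hPk, h1]
        exact h6
      · exact hP k (by omega)

end MIC

theorem t_MIC : MIC_Stmt := by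
  intro hS Λ r S T x
  constructor
  · rintro ⟨c, hc, ha⟩
    obtain ⟨mem, _, h⟩ := MIC.to_mic T x hS c hc
    exact ⟨c.1, mem, c.2.1, h, ha⟩
  · rintro ⟨p, mem, h, hR, ha⟩
    obtain ⟨q, u, P, h1, h2, h3, _, _, _⟩ := MIC.of_mic T x hS _ hR
    refine ⟨_, h1, ?_⟩
    have h4 : q = p := h2.symm.trans h3
    show q ∈ T.accept
    rw [h4]
    exact ha

end Pool.Agent.NPH
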