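import Pool.Agent.NPH.StU

/-!
# NPH, module MUL: multiplication is definable (helper31)
-/

set_option autoImplicit false

namespace Pool.Agent.NPH

open Relation

namespace MUL

/-- one step `(i, u) → (i + 1, u + y)` -/
def P (Γ : Type) : PP (Γ × (Unit × Unit)) (Fin 1 ⊕ (Fin 2 ⊕ Fin 2)) := fun _ _ v =>
  v (Sum.inr (Sum.inr 0)) = v (Sum.inr (Sum.inl 0)) + 1 ∧
    v (Sum.inr (Sum.inl 1)) + v (Sum.inl 0) = v (Sum.inr (Sum.inr 1))

/-- the variables of the first condition -/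
def f1 : Fin 2 → Fin 1 ⊕ (Fin 2 ⊕ Fin 2) := fun j =>
  if j = 0 then Sum.inr (Sum.inl 0) else Sum.inr (Sum.inr 0)

/-- the variables of the second condition -/
def f2 : Fin 3 → Fin 1 ⊕ (Fin 2 ⊕ Fin 2) := fun j =>
  if j = 0 then Sum.inr (Sum.inl 1) else if j = 1 then Sum.inl 0 else Sum.inr (Sum.inr 1)

/-- the variables of the path -/
def f3 : Fin 1 ⊕ (Fin 2 ⊕ Fin 2) → Fin 3 ⊕ Fin 1 :=
  Sum.elim (fun _ => Sum.inl 1) (Sum.elim (fun _ => Sum.inr 0)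
    fun j => if j = 0 then Sum.inl 0 else Sum.inl 2)

/-- the formula -/
def Q (Γ : Type) : PP Γ (Fin 3 ⊕ Fin 1) := fun n a v =>
  v (Sum.inr 0) = 0 ∧ ReflTransGen (StepOf (P Γ) n a (fun _ : Fin 1 => v (Sum.inl 1)))
    (fun _ => (), fun _ : Fin 2 => v (Sum.inr 0))
    (fun _ => (), fun j : Fin 2 => if j = 0 then v (Sum.inl 0) else v (Sum.inl 2))

lemma path_of {Γ : Type} {n : ℕ} {a : Fin (n + 1) → Γ} {y : Fin 1 → ℕ}
    {s c : (Fin (n + 1) → Unit) × (Fin 2 → ℕ)} (hs : ∀ j, s.2 j = 0)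
    (h : ReflTransGen (StepOf (P Γ) n a y) s c) : c.2 0 * y 0 = c.2 1 := by
  induction h with
  | refl => rw [hs, hs, zero_mul]
  | @tail b c _ hbc ih =>
    obtain ⟨-, -, h1, h2⟩ := hbc
    have h1' : c.2 0 = b.2 0 + 1 := h1
    have h2' : b.2 1 + y 0 = c.2 1 := h2
    rw [h1', ← h2', ← ih]
    ring

lemma path_to {Γ : Type} {n : ℕ} (a : Fin (n + 1) → Γ) (y : Fin 1 → ℕ) (i : ℕ)
    (hi : i ≤ n + 1) (hy : i * y 0 ≤ n + 1) :
    ReflTransGen (StepOf (P Γ) n a y) (fun _ => (), fun _ => 0)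
      (fun _ => (), fun j : Fin 2 => if j = 0 then i else i * y 0) := by
  induction i with
  | zero =>
    have e : (fun j : Fin 2 => if j = 0 then 0 else 0 * y 0) = fun _ => 0 := by
      funext j
      simp
    rw [e]
  | succ i ih =>
    have e0 : (i + 1) * y 0 = i * y 0 + y 0 := by ring
    refine ReflTransGen.tail (ih (by omega) (by omega)) ⟨?_, ?_, ?_, ?_⟩
    · intro j
      show (if j = 0 then i else i * y 0) ≤ n + 1
      split_ifs <;> omega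
    · intro j
      show (if j = 0 then i + 1 else (i + 1) * y 0) ≤ n + 1
      split_ifs <;> omega
    · simp
    · simp [e0]

lemma dn_P {Γ : Type} [Finite Γ] (hL : LCL_Stmt) (hC : Calc) (hD : DC) (hA : ARI_Stmt)
    (hS : ADD_Stmt) : Dn (P Γ) := by
  have h1 := (hA hL hC hD (Γ × (Unit × Unit))).2.1
  have h2 := (hS hL hC hD hA (Γ × (Unit × Unit))).1
  exact hD.and _ _ _ _ (hD.map _ _ _ _ id f1 _ h1) (hD.map _ _ _ _ id f2 _ h2)

lemma dn_Q {Γ : Type} [Finite Γ] (hL : LCL_Stmt) (hC : Calc) (hD : DC) (hA : ARI_Stmt)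
    (hS : ADD_Stmt) : Dn (Q Γ) := by
  have h0 := (hA hL hC hD Γ).2.2.1 0
  have hT := hD.tc Γ Unit (Fin 1) (Fin 2) (P Γ) (dn_P hL hC hD hA hS)
  have h1 : Dn (fun (n : ℕ) (_ : Fin (n + 1) → Γ) (v : Fin 3 ⊕ Fin 1 → ℕ) => v (Sum.inr 0) = 0) :=
    hD.map _ _ _ _ id (fun _ => Sum.inr 0) _ h0
  have h2 := hD.map (Γ × (Unit × Unit)) Γ _ (Fin 3 ⊕ Fin 1) (fun x => (x, ((), ()))) f3 _ hT
  refine hD.and _ _ _ _ h1 (Dn.congr h2 fun n a v _ => ?_)
  have e : ((v ∘ f3) ∘ Sum.inr ∘ Sum.inr : Fin 2 → ℕ) =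
      fun j : Fin 2 => if j = 0 then v (Sum.inl 0) else v (Sum.inl 2) := by
    funext j
    simp only [f3, Function.comp, Sum.elim_inr]
    split_ifs <;> rfl
  rw [e]
  exact Iff.rfl

end MUL

open MUL in
theorem t_MUL : MUL_Stmt := by
  intro hL hC hD hA hS Γ _
  refine Dn.congr (hD.exn Γ (Fin 3) (Fin 1) (Q Γ) (dn_Q hL hC hD hA hS)) fun n a v hv => ?_
  constructor
  · rintro ⟨u, -, h1, h2⟩
    have h1' : u 0 = 0 := h1
    exact path_of (fun _ => h1') h2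
  · intro h
    refine ⟨fun _ => 0, fun _ => Nat.zero_le _, rfl, ?_⟩
    have := path_to a (fun _ : Fin 1 => v 1) (v 0) (hv 0) (by show v 0 * v 1 ≤ n + 1; rw [h]; exact hv 2)
    have h' : v 0 * v 1 = v 2 := h
    simp only [h'] at this
    exact this

end Pool.Agent.NPH
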