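import Pool.Agent.NPH.StU

/-!
# SCM: the symbols that are scanned and the moves of the heads are definable
-/

set_option autoImplicit false

namespace Pool.Agent.NPH

open Pool.Agent.Heads Relation

namespace SCM

lemma finDir : Finite Dir :=
  Finite.of_surjective (fun i : Fin 3 => if i = 0 then Dir.L else if i = 1 then Dir.S else Dir.R)
    (by rintro (_ | _ | _); exacts [⟨0, rfl⟩, ⟨1, rfl⟩, ⟨2, rfl⟩])

lemma finSym {Λ : Type} [Finite Λ] : Finite (Sym Λ) :=
  Finite.of_surjective
    (fun i : Option (Option Λ) => match i with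
      | none => Sym.left
      | some none => Sym.right
      | some (some a) => Sym.letter a)
    (by rintro (_ | a | _); exacts [⟨none, rfl⟩, ⟨some (some a), rfl⟩, ⟨some none, rfl⟩])

/-- a predicate on one of two numbers -/
lemma one (hD : DC) {Γ : Type} {P : PP Γ (Fin 1)} (h : Dn P) (j : Fin 2) :
    Dn (fun (n : ℕ) (a : Fin (n + 1) → Γ) (v : Fin 2 → ℕ) => P n a (fun _ => v j)) := by
  have := hD.map Γ Γ (Fin 1) (Fin 2) id (fun _ => j) P h
  exact this

/-- exchange of two numbers -/
lemma swap (hD : DC) {Γ : Type} {P : PP Γ (Fin 2)} (h : Dn P) :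
    Dn (fun (n : ℕ) (a : Fin (n + 1) → Γ) (v : Fin 2 → ℕ) => P n a (v ∘ ![1, 0])) :=
  hD.map Γ Γ (Fin 2) (Fin 2) id ![1, 0] P h

end SCM

open SCM in
theorem t_SCM : SCM_Stmt := by
  intro hL hC hD hA
  have hDir := finDir
  have hLam : Finite Lam := inferInstance
  have hO : Finite (Option Lam) := inferInstance
  refine ⟨?_, ?_, finDir, finSym⟩
  · intro σ
    obtain ⟨_, _, a3, _, a5, _⟩ := hA hL hC hD (Option Lam)
    cases σ with
    | left =>
      refine (a3 0).congr ?_
      intro n a v _
      unfold Scan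
      simp
    | letter b =>
      refine (a5 {some b}).congr ?_
      intro n a v _
      unfold Scan
      constructor
      · rintro ⟨i, h1, h2⟩
        exact Or.inr ⟨i, h1, Or.inl ⟨b, h2, rfl⟩⟩
      · rintro (⟨_, h⟩ | ⟨i, h1, ⟨b', h2, h3⟩ | ⟨_, h3⟩⟩)
        · exact absurd h (by simp)
        · refine ⟨i, h1, ?_⟩
          have : b = b' := by injection h3
          rw [this]
          exact h2
        · exact absurd h3 (by simp)
    | right =>
      refine (a5 {none}).congr ?_
      intro n a v _
      unfold Scan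
      constructor
      · rintro ⟨i, h1, h2⟩
        exact Or.inr ⟨i, h1, Or.inr ⟨h2, rfl⟩⟩
      · rintro (⟨_, h⟩ | ⟨i, h1, ⟨b', _, h3⟩ | ⟨h2, _⟩⟩)
        · exact absurd h (by simp)
        · exact absurd h3 (by simp)
        · exact ⟨i, h1, h2⟩
  · intro Γ _ d
    obtain ⟨a1, a2, a3, a4, _, _⟩ := hA hL hC hD Γ
    cases d with
    | L =>
      refine (hD.or _ _ _ _ (swap hD a2)
        (hD.and _ _ _ _ (one hD (a3 0) 0) (one hD (a3 0) 1))).congr ?_
      intro n a v _
      simp only [Function.comp_apply, Matrix.cons_val_zero, Matrix.cons_val_one, move]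
      omega
    | S =>
      refine a1.congr ?_
      intro n a v _
      simp only [move]
      exact eq_comm
    | R =>
      refine (hD.or _ _ _ _ a2 (hD.and _ _ _ _ (one hD a4 0) (one hD a4 1))).congr ?_
      intro n a v hv
      have h0 := hv 0
      have h1 := hv 1
      simp only [move]
      omega

end Pool.Agent.NPH
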