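import Pool.Agent.NPH.StU

/-!
# Project NPH, part U, module SCN: the scanned symbol (helper9)
-/

set_option autoImplicit false

namespace Pool.Agent.NPH

open Pool.Agent.Heads Relation

theorem t_SCN : SCN_Stmt := by
  intro x σ v hv
  rcases Nat.eq_zero_or_pos (v 0) with h0 | h0
  · rw [h0]
    constructor
    · rintro (⟨-, h⟩ | ⟨i, hi, -⟩)
      · simpa [tape] using h
      · omega
    · intro h
      exact Or.inl ⟨h0, by simpa [tape] using h⟩
  · obtain ⟨p, hp⟩ : ∃ p, v 0 = p + 1 := ⟨v 0 - 1, by omega⟩
    have hpn : p ≤ x.length := by omega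
    rw [hp]
    constructor
    · rintro (⟨h, -⟩ | ⟨i, hi, h⟩)
      · omega
      · have hip : (i : ℕ) = p := by omega
        simp only [hip] at h
        rcases h with ⟨b, hb, rfl⟩ | ⟨hb, rfl⟩
        · simp [tape, hb]
        · simp [tape, hb]
    · intro h
      refine Or.inr ⟨⟨p, by omega⟩, by simpa using hp, ?_⟩
      cases hx : x[p]? with
      | none => exact Or.inr ⟨hx, by simpa [tape, hx] using h⟩
      | some b => exact Or.inl ⟨b, hx, by simpa [tape, hx] using h⟩

end Pool.Agent.NPH
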