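import Pool.Agent.NPH.StU

/-!
# NPH, module SIM: the universal predicate simulates the machine (helper34)
-/

set_option autoImplicit false

namespace Pool.Agent.NPH

open Pool.Agent.Heads Relation

namespace SIM

section

variable {r S s ω : ℕ} (T : RM Lam r S) (q : T.Q ≃ Fin s) (e : Lab r S ≃ Fin ω)

/-- the image of a configuration -/
def Im {N : ℕ} (c : T.Q × ℕ × (Fin N → Fin S) × (Fin r → ℕ)) : (Fin N → Fin S) × (Nu r → ℕ) :=
  (c.2.2.1, Sum.elim ![(q c.1).val, c.2.1] c.2.2.2)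

/-- cursor and heads on the tape -/
def Ok {N : ℕ} (M : ℕ) (c : T.Q × ℕ × (Fin N → Fin S) × (Fin r → ℕ)) : Prop :=
  c.2.1 ≤ M ∧ ∀ j, c.2.2.2 j ≤ M

theorem move_le {N p : ℕ} (h : p ≤ N) (d : Dir) : move N p d ≤ N := by
  cases d <;> simp only [move] <;> omega

theorem im_le {N M : ℕ} {c : T.Q × ℕ × (Fin N → Fin S) × (Fin r → ℕ)} (h : Ok T M c) (hs : s ≤ M)
    (j : Nu r) : (Im T q c).2 j ≤ M := by
  rcases j with j | j
  · fin_cases j
    · show (q c.1).val ≤ M
      have := (q c.1).2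
      omega
    · exact h.1
  · exact h.2 j

theorem ok_mic {x : List Lam} {c c' : T.Q × ℕ × (Fin (x.length + 1) → Fin S) × (Fin r → ℕ)}
    (h : Ok T (x.length + 1) c) (h2 : Mic T x c c') : Ok T (x.length + 1) c' := by
  obtain ⟨hk, hh⟩ := h
  rcases h2 with ⟨h1, h2, h3, -⟩ | ⟨h1, h2, -, d, -, h5⟩
  · exact ⟨h2, fun j => by rw [h3]; exact hh j⟩
  · exact ⟨by rw [h2]; exact Nat.zero_le _, fun j => by rw [h5]; exact move_le (hh j) _⟩

theorem ok_chain {x : List Lam} {c c' : T.Q × ℕ × (Fin (x.length + 1) → Fin S) × (Fin r → ℕ)}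
    (h : Ok T (x.length + 1) c) (h2 : ReflTransGen (Mic T x) c c') : Ok T (x.length + 1) c' := by
  induction h2 with
  | refl => exact h
  | tail _ h3 ih => exact ok_mic T ih h3

theorem step_iff (hN : SCN_Stmt) {x : List Lam}
    (hb : ∀ (L : Lab r S) (v : Fin 2 → ℕ), Bit ω (e L).val onL x.length (fun i => x[(i : ℕ)]?) v ↔
      ∃ P P' : T.Q, (q P).val = v 0 ∧ (q P').val = v 1 ∧ trn T P P' L) (hs : s ≤ x.length)
    (c : T.Q × ℕ × (Fin (x.length + 1) → Fin S) × (Fin r → ℕ)) (hc : Ok T (x.length + 1) c)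
    (y : (Fin (x.length + 1) → Fin S) × (Nu r → ℕ)) :
    StepOf (USt ω fun l => (e l).val) x.length (fun i => x[(i : ℕ)]?) Empty.elim (Im T q c) y ↔
      ∃ c', y = Im T q c' ∧ Ok T (x.length + 1) c' ∧ Mic T x c c' := by
  obtain ⟨P, k, mem, h⟩ := c
  obtain ⟨hk, hh⟩ := hc
  obtain ⟨w, v⟩ := y
  simp only at hk hh
  constructor
  · rintro ⟨-, hv, (⟨h1, h2, m, h3, h4⟩ | ⟨h1, h2, h3, l, h4, h5⟩)⟩
    · obtain ⟨P0, P', e1, e2, e3⟩ := (hb (Sum.inl m) _).1 h3
      have e1' : (q P0).val = (q P).val := e1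
      have e2' : (q P').val = v (Sum.inl 0) := e2
      have h1' : v (Sum.inl 1) = k + 1 := h1
      have h2' : ∀ j, v (Sum.inr j) = h j := h2
      obtain rfl : P0 = P := q.injective (Fin.ext e1')
      refine ⟨(P', k + 1, w, h), ?_, ⟨?_, hh⟩, Or.inl ⟨rfl, ?_, rfl, m, e3, ?_⟩⟩
      · refine Prod.ext rfl (funext fun j => ?_)
        rcases j with j | j
        · fin_cases j
          · exact e2'.symm
          · exact h1'
        · exact h2' j
      · have := hv (Sum.inl 1)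
        simp only at this ⊢
        omega
      · have := hv (Sum.inl 1)
        simp only at this ⊢
        omega
      · intro i
        have := h4 i
        refine ⟨fun h6 => this.1 ?_, fun h6 => this.2 ?_⟩
        · show v (Sum.inl 1) = i.val + 1
          rw [h1']
          exact h6
        · show v (Sum.inl 1) ≠ i.val + 1
          rw [h1']
          exact h6
    · obtain ⟨P0, P', e1, e2, e3⟩ := (hb (Sum.inr (Sum.inl l)) _).1 h4
      have e1' : (q P0).val = (q P).val := e1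
      have e2' : (q P').val = v (Sum.inl 0) := e2
      have h1' : k = x.length + 1 := h1
      have h2' : v (Sum.inl 1) = 0 := h2
      have h3' : w = mem := funext h3
      obtain rfl : P0 = P := q.injective (Fin.ext e1')
      have h6 : ∀ j, l.1 j = tape x (h j) := fun j => (hN x (l.1 j) _ (hh j)).1 (h5 j).1
      have h7 : ∀ j, v (Sum.inr j) = move (x.length + 1) (h j) (l.2 j) := fun j => (h5 j).2
      refine ⟨(P', 0, mem, fun j => move (x.length + 1) (h j) (l.2 j)), ?_, ⟨Nat.zero_le _,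
        fun j => move_le (hh j) _⟩, Or.inr ⟨h1', rfl, rfl, l.2, ?_, rfl⟩⟩
      · refine Prod.ext h3' (funext fun j => ?_)
        rcases j with j | j
        · fin_cases j
          · exact e2'.symm
          · exact h2'
        · exact h7 j
      · have h8 : (fun j => tape x (h j)) = l.1 := funext fun j => (h6 j).symm
        show (P', l.2) ∈ T.hd P0 fun j => tape x (h j)
        rw [h8]
        exact e3
  · rintro ⟨⟨P', k', mem', h'⟩, hy, ⟨hk', hh'⟩, hm⟩
    rw [hy]
    simp only at hk' hh'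
    refine ⟨im_le T q ⟨hk, hh⟩ (by omega), im_le T q ⟨hk', hh'⟩ (by omega), ?_⟩
    · rcases hm with ⟨h1, h2, h3, m, h4, h5⟩ | ⟨h1, h2, h3, d, h4, h5⟩
      · left
        refine ⟨h1, fun j => congrFun h3 j, m, (hb (Sum.inl m) _).2 ⟨P, P', rfl, rfl, h4⟩, ?_⟩
        intro i
        exact h5 i
      · right
        refine ⟨h1, h2, fun i => congrFun h3 i, ((fun j => tape x (h j)), d),
          (hb (Sum.inr (Sum.inl _)) _).2 ⟨P, P', rfl, rfl, h4⟩, ?_⟩
        intro j
        exact ⟨(hN x _ _ (hh j)).2 rfl, congrFun h5 j⟩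

theorem chain_iff (hN : SCN_Stmt) {x : List Lam}
    (hb : ∀ (L : Lab r S) (v : Fin 2 → ℕ), Bit ω (e L).val onL x.length (fun i => x[(i : ℕ)]?) v ↔
      ∃ P P' : T.Q, (q P).val = v 0 ∧ (q P').val = v 1 ∧ trn T P P' L) (hs : s ≤ x.length)
    (c : T.Q × ℕ × (Fin (x.length + 1) → Fin S) × (Fin r → ℕ)) (hc : Ok T (x.length + 1) c)
    (y : (Fin (x.length + 1) → Fin S) × (Nu r → ℕ)) :
    ReflTransGen (StepOf (USt ω fun l => (e l).val) x.length (fun i => x[(i : ℕ)]?) Empty.elim)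
      (Im T q c) y ↔
      ∃ c', y = Im T q c' ∧ ReflTransGen (Mic T x) c c' := by
  constructor
  · intro h
    induction h with
    | refl => exact ⟨c, rfl, ReflTransGen.refl⟩
    | tail _ h2 ih =>
      obtain ⟨c', rfl, h4⟩ := ih
      obtain ⟨c'', h5, h6, h7⟩ := (step_iff T q e hN hb hs c' (ok_chain T hc h4) _).1 h2
      exact ⟨c'', h5, h4.tail h7⟩
  · rintro ⟨c', rfl, h⟩
    induction h with
    | refl => exact ReflTransGen.refl
    | @tail c₁ c₂ h1 h2 ih =>
      have hok := ok_chain T hc h1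
      exact ih.tail ((step_iff T q e hN hb hs c₁ hok _).2 ⟨c₂, rfl, ok_mic T hok h2, h2⟩)

theorem main (hN : SCN_Stmt) (hW : SWP_Stmt) (hM : MIC_Stmt) {x : List Lam}
    (hb : ∀ (L : Lab r S) (v : Fin 2 → ℕ), Bit ω (e L).val onL x.length (fun i => x[(i : ℕ)]?) v ↔
      ∃ P P' : T.Q, (q P).val = v 0 ∧ (q P').val = v 1 ∧ trn T P P' L) (hs : s ≤ x.length)
    (h0 : (q T.start).val = 0) :
    Uni ω (fun l => (e l).val) x.length (fun i => x[(i : ℕ)]?) ↔ x ∈ T.lang := by
  rw [hM hW Lam r S T x]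
  have hok : Ok T (x.length + 1) (T.start, 0, (fun _ : Fin (x.length + 1) => T.blank),
      fun _ : Fin r => 0) := ⟨Nat.zero_le _, fun _ => Nat.zero_le _⟩
  constructor
  · rintro ⟨c, c', -, -, ⟨h1, b, h2, h3⟩, h4, h5, h6⟩
    obtain ⟨_, _, _, _, h7⟩ := (hb (Sum.inr (Sum.inr (Sum.inr b))) _).1 h3
    have h8 : b = T.blank := h7
    have h9 : c = Im T q (T.start, 0, (fun _ : Fin (x.length + 1) => T.blank),
        fun _ : Fin r => 0) := by
      refine Prod.ext (funext fun i => (h2 i).trans h8) (funext fun j => ?_)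
      rw [h1 j]
      rcases j with j | j
      · fin_cases j
        · exact h0.symm
        · rfl
      · rfl
    rw [h9] at h4
    obtain ⟨⟨P, k, mem, h⟩, h10, h12⟩ := (chain_iff T q e hN hb hs _ hok c').1 h4
    rw [h10] at h5 h6
    obtain ⟨P0, P1, e1, _, e3⟩ := (hb (Sum.inr (Sum.inr (Sum.inl ()))) _).1 h6
    have e1' : (q P0).val = (q P).val := e1
    obtain rfl : P0 = P := q.injective (Fin.ext e1')
    have h5' : k = 0 := h5
    subst h5'
    exact ⟨P0, mem, h, h12, e3⟩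
  · rintro ⟨P, mem, h, h1, h2⟩
    have h3 := (chain_iff T q e hN hb hs _ hok (Im T q (P, 0, mem, h))).2 ⟨_, rfl, h1⟩
    refine ⟨_, _, im_le T q hok (by omega), im_le T q (ok_chain T hok h1) (by omega), ⟨?_, T.blank,
      fun _ => rfl, (hb (Sum.inr (Sum.inr (Sum.inr T.blank))) _).2
        ⟨T.start, T.start, rfl, rfl, rfl⟩⟩, h3, rfl,
      (hb (Sum.inr (Sum.inr (Sum.inl ()))) _).2 ⟨P, P, rfl, rfl, h2⟩⟩
    intro j
    rcases j with j | j
    · fin_cases j
      · exact h0
      · rfl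
    · rfl

end

end SIM

theorem t_SIM : SIM_Stmt := by
  intro hD hN hW hM r S s ω T q e h0
  have hω : 1 ≤ ω := by
    have := (e (Sum.inr (Sum.inr (Sum.inl ())))).2
    omega
  have hlen : (code s ω (Rel T q e)).length = s * s * ω := by
    simp [code]
  refine SIM.main T q e hN hW hM ?_ ?_ h0
  · intro L v
    rw [hD s ω (Rel T q e) (e L).val v (e L).2]
    constructor
    · rintro ⟨-, -, P, P', L', h1, h2, h3, h4⟩
      obtain rfl : L' = L := e.injective (Fin.ext h3)
      exact ⟨P, P', h1, h2, h4⟩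
    · rintro ⟨P, P', h1, h2, h4⟩
      exact ⟨h1 ▸ (q P).2, h2 ▸ (q P').2, P, P', L, h1, h2, rfl, h4⟩
  · rw [hlen]
    rcases Nat.eq_zero_or_pos s with h | h
    · omega
    · calc s = s * 1 * 1 := by ring
        _ ≤ s * s * ω := Nat.mul_le_mul (Nat.mul_le_mul le_rfl h) hω

end Pool.Agent.NPH
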