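import Pool.Agent.NPH.StU

/-!
# Project NPH, module UNF: assembly of the universal predicate
-/

set_option autoImplicit false

namespace Pool.Agent.NPH

open Pool.Agent.Heads Relation

theorem t_UNF : UNF_Stmt := by
  intro hLCL hC hDC hARI hADD hMUL hBIT hSCM hUSD hUDF hCOD hSCN hSWP hMIC hSIM r S
  obtain ⟨-, -, hD, hSym⟩ := hSCM hLCL hC hDC hARI
  have hfin : Finite (Lab r S) := inferInstance
  obtain ⟨ω, ⟨e⟩⟩ := Finite.exists_equiv_fin (Lab r S)
  have hω : 1 ≤ ω := Fin.pos (e (Sum.inr (Sum.inr (Sum.inl ()))))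
  refine ⟨Uni ω (fun l => (e l).val),
    hUDF hLCL hC hDC hARI hBIT hSCM hADD hMUL hUSD r S ω _ hω, fun T => ?_⟩
  have hQ := T.finQ
  obtain ⟨s, ⟨q₀⟩⟩ := Finite.exists_equiv_fin T.Q
  have hs : 0 < s := Fin.pos (q₀ T.start)
  have hq : ((q₀.trans (Equiv.swap (q₀ T.start) ⟨0, hs⟩)) T.start).val = 0 := by
    rw [Equiv.trans_apply, Equiv.swap_apply_left]
  exact ⟨_, hSIM hCOD hSCN hSWP hMIC r S s ω T _ e hq⟩

end Pool.Agent.NPH
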