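import Pool.Agent.NPH.StU

/-!
# Project NPH, part U: the step relation of the universal predicate is definable
-/

set_option autoImplicit false

namespace Pool.Agent.NPH

open Pool.Agent.Heads Relation

namespace USD

theorem pair_eq {J : Type} (v : J → ℕ) (j j' : J) : v ∘ ![j, j'] = ![v j, v j'] := by
  funext i
  fin_cases i <;> rfl

theorem sing_eq {J : Type} (v : J → ℕ) (j : J) : v ∘ ![j] = ![v j] := by
  funext i
  fin_cases i
  rfl

end USD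

theorem t_USD : USD_Stmt := by
  intro hL hC hD hA hB hS _ _ r S ω e hω
  obtain ⟨hS1, hS2, hS3, hS4⟩ := hS hL hC hD hA
  have hB' := hB hL hC hD hA ‹_› ‹_›
  have := hS3
  have := hS4
  -- predicates on numbers
  have eqN : ∀ (Γ J : Type) [Finite Γ] [Finite J] (j j' : J),
      Dn (fun (n : ℕ) (_ : Fin (n + 1) → Γ) (v : J → ℕ) => v j = v j') := fun Γ J _ _ j j' =>
    hD.map Γ Γ (Fin 2) J id ![j, j'] _ (hA hL hC hD Γ).1
  have sucN : ∀ (Γ J : Type) [Finite Γ] [Finite J] (j j' : J),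
      Dn (fun (n : ℕ) (_ : Fin (n + 1) → Γ) (v : J → ℕ) => v j' = v j + 1) := fun Γ J _ _ j j' =>
    hD.map Γ Γ (Fin 2) J id ![j, j'] _ (hA hL hC hD Γ).2.1
  have conN : ∀ (Γ J : Type) [Finite Γ] [Finite J] (j : J) (c : ℕ),
      Dn (fun (n : ℕ) (_ : Fin (n + 1) → Γ) (v : J → ℕ) => v j = c) := fun Γ J _ _ j c =>
    hD.map Γ Γ (Fin 1) J id ![j] _ ((hA hL hC hD Γ).2.2.1 c)
  have lasN : ∀ (Γ J : Type) [Finite Γ] [Finite J] (j : J),
      Dn (fun (n : ℕ) (_ : Fin (n + 1) → Γ) (v : J → ℕ) => v j = n + 1) := fun Γ J _ _ j =>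
    hD.map Γ Γ (Fin 1) J id ![j] _ (hA hL hC hD Γ).2.2.2.1
  have movN : ∀ (Γ J : Type) [Finite Γ] [Finite J] (d : Dir) (j j' : J),
      Dn (fun (n : ℕ) (_ : Fin (n + 1) → Γ) (v : J → ℕ) => v j' = move (n + 1) (v j) d) :=
    fun Γ J _ _ d j j' => hD.map Γ Γ (Fin 2) J id ![j, j'] _ (hS2 Γ d)
  have bitN : ∀ (Γ J : Type) [Finite J] (l : ℕ) (j j' : J),
      Dn (fun (n : ℕ) (a : Fin (n + 1) → Option Lam × Γ) (v : J → ℕ) =>
        Bit ω l onL n (fun i => (a i).1) ![v j, v j']) := by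
    intro Γ J _ l j j'
    refine (hD.map (Option Lam) (Option Lam × Γ) (Fin 2) J Prod.fst ![j, j'] _
      (hB' (Option Lam) ω l onL hω)).congr fun n a v _ => ?_
    rw [USD.pair_eq]
    rfl
  have scaN : ∀ (Γ J : Type) [Finite J] (σ : Sym Lam) (j : J),
      Dn (fun (n : ℕ) (a : Fin (n + 1) → Option Lam × Γ) (v : J → ℕ) =>
        Scan σ n (fun i => (a i).1) ![v j]) := by
    intro Γ J _ σ j
    refine (hD.map (Option Lam) (Option Lam × Γ) (Fin 1) J Prod.fst ![j] _ (hS1 σ)).congr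
      fun n a v _ => ?_
    rw [USD.sing_eq]
    rfl
  -- the sweep
  have h1 : Dn (USw (r := r) (S := S) ω e) := by
    refine hD.and _ _ _ _ (sucN _ _ _ _) (hD.and _ _ _ _ (hD.andf _ _ _ _ fun j => eqN _ _ _ _)
      (hD.orf _ _ _ _ fun m => hD.and _ _ _ _ (bitN _ _ _ _ _) ?_))
    refine (hD.base (Option Lam × (Fin S × Fin S)) (Nu r ⊕ Nu r)
      (fun n a => ∀ i, a i ∈ {x : (Option Lam × (Fin S × Fin S)) × (Nu r ⊕ Nu r → Bool) |
        (x.2 (Sum.inr (Sum.inl 1)) = true → x.1.2 = m) ∧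
        (x.2 (Sum.inr (Sum.inl 1)) ≠ true → x.1.2.2 = x.1.2.1)})
      (hC.loc _ _ (hL.2.2.1 _ _))).congr fun n a v _ => ?_
    refine forall_congr' fun i => ?_
    show ((decide (v (Sum.inr (Sum.inl 1)) = i.val + 1) = true → (a i).2 = m) ∧
      (decide (v (Sum.inr (Sum.inl 1)) = i.val + 1) ≠ true → (a i).2.2 = (a i).2.1)) ↔ _
    rw [decide_eq_true_iff, Ne, decide_eq_true_iff]
  -- the step of the heads
  have h2 : Dn (UHd (r := r) (S := S) ω e) := by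
    refine hD.and _ _ _ _ (lasN _ _ _) (hD.and _ _ _ _ (conN _ _ _ _) (hD.and _ _ _ _ ?_
      (hD.orf _ _ _ _ fun l => hD.and _ _ _ _ (bitN _ _ _ _ _)
        (hD.andf _ _ _ _ fun j => hD.and _ _ _ _ (scaN _ _ _ _) (movN _ _ _ _ _)))))
    exact (hA hL hC hD (Option Lam × (Fin S × Fin S))).2.2.2.2.2 (Nu r ⊕ Nu r)
      (fun n a => ∀ i, a i ∈ {x : Option Lam × (Fin S × Fin S) | x.2.2 = x.2.1})
      (hC.loc _ _ (hL.2.2.1 _ _))
  refine ⟨h1, h2, ?_⟩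
  exact hD.or _ _ _ _
    (hD.map _ _ (Nu r ⊕ Nu r) (Empty ⊕ (Nu r ⊕ Nu r)) id Sum.inr _ h1)
    (hD.map _ _ (Nu r ⊕ Nu r) (Empty ⊕ (Nu r ⊕ Nu r)) id Sum.inr _ h2)

end Pool.Agent.NPH
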