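import Pool.Agent.NPH.ONE
import Pool.Agent.NPH.DNA
import Pool.Agent.NPH.DNB
import Pool.Agent.NPH.DNT
import Pool.Agent.NPH.DNF
import Pool.Agent.NPH.ARI
import Pool.Agent.NPH.ADD
import Pool.Agent.NPH.MUL
import Pool.Agent.NPH.BIT
import Pool.Agent.NPH.SCM
import Pool.Agent.NPH.USD
import Pool.Agent.NPH.UDF
import Pool.Agent.NPH.COD
import Pool.Agent.NPH.SCN
import Pool.Agent.NPH.SWP
import Pool.Agent.NPH.MIC
import Pool.Agent.NPH.SIM
import Pool.Agent.NPH.UNF

/-!
# Project NPH, part U: the universal predicate exists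
-/

set_option autoImplicit false

namespace Pool.Agent.NPH

/-- The calculus of definable predicates. -/
theorem dcU (hC : Calc) : DC := dc hC t_ONE t_DNA t_DNB t_DNT t_DNF

/-- The universal predicate. -/
theorem univU (hL : LCL_Stmt) (hC : Calc) : UNIV_Stmt :=
  t_UNF hL hC (dcU hC) t_ARI t_ADD t_MUL t_BIT t_SCM t_USD t_UDF t_COD t_SCN t_SWP t_MIC t_SIM

end Pool.Agent.NPH
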