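import Pool.Agent.NPH.LCL
import Pool.Agent.NPH.CLB
import Pool.Agent.NPH.CLO
import Pool.Agent.NPH.CLT
import Pool.Agent.NPH.CNL
import Pool.Agent.NPH.SUC
import Pool.Agent.NPH.CNT
import Pool.Agent.NPH.GEC
import Pool.Agent.NPH.EXC
import Pool.Agent.NPH.ISA
import Pool.Agent.NPH.DIN
import Pool.Agent.NPH.CPI
import Pool.Agent.NPH.CPE
import Pool.Agent.NPH.ISZ
import Pool.Agent.NPH.LOD
import Pool.Agent.NPH.HIE
import Pool.Agent.NPH.UnivU

/-! Project NPH: assembly of the calculus and of the hierarchy theorem. -/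

set_option autoImplicit false

namespace Pool.Agent.NPH

theorem calcAll : Calc where
  loc := t_CLB.1
  map := t_CLB.2.1
  and := t_CLB.2.2.1
  or := t_CLO
  not := t_ISZ t_LCL t_CLB t_CLO t_CLT t_SUC t_DIN
    (t_CPI t_LCL t_CLB t_CLO t_CLT t_CNL t_SUC t_GEC t_EXC) (t_CPE t_SUC t_CNT t_ISA)
  ex := t_CLB.2.2.2
  tc := t_CLT

theorem hier : HIER_Stmt := t_HIE (univU t_LCL calcAll) t_LOD calcAll

end Pool.Agent.NPH
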