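import Pool.Agent.NPH.StB

/-!
Project NPH, module LWE: the link system accepts the language.
-/

set_option autoImplicit false

namespace Pool.Agent.NPH

open Pool.Agent.Heads Relation

namespace LWEx

theorem dval_cons {ι : Type} (β : ℕ) (d : ι → Fin β) (u : List (ι → Fin β)) (i : ι) :
    dval β (d :: u) i = (d i : ℕ) + β * dval β u i := by
  simp [dval, Nat.ofDigits_cons]

theorem exists_digits {ι : Type} (β : ℕ) (hβ : 2 ≤ β) (L : ℕ) : ∀ Y : ι → ℕ,
    (∀ t, Y t < β ^ L) → ∃ u : List (ι → Fin β), u.length = L ∧ ∀ t, dval β u t = Y t := by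
  induction L with
  | zero =>
    intro Y hY
    refine ⟨[], rfl, fun t => ?_⟩
    have h := hY t
    rw [pow_zero] at h
    have h2 : Y t = 0 := by omega
    rw [h2]
    simp [dval]
  | succ L ih =>
    intro Y hY
    obtain ⟨u, hu, hu'⟩ := ih (fun t => Y t / β) (fun t => by
      have h := hY t
      rw [Nat.div_lt_iff_lt_mul (by omega)]
      rwa [pow_succ] at h)
    refine ⟨(fun t => ⟨Y t % β, Nat.mod_lt _ (by omega)⟩) :: u, by simp [hu], fun t => ?_⟩
    rw [dval_cons, hu' t]
    exact Nat.mod_add_div _ _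

theorem dval_replicate {ι : Type} (β : ℕ) (hβ : 0 < β) (L : ℕ) (i : ι) :
    dval β (List.replicate L (fun _ : ι => (⟨0, hβ⟩ : Fin β))) i = 0 := by
  induction L with
  | zero => simp [dval]
  | succ L ih => rw [List.replicate_succ, dval_cons, ih]; simp

variable {Λ : Type} {D : ℕ} (A : FA (Option (Sym Λ)) (D + 1))

theorem dec_unique (β : ℕ) (ν : Nd A) (u : List (Fin D → Fin β)) (X X' : Fin (D + 1) → ℕ)
    (h : Dec A β ν u X) (h' : Dec A β ν u X') : X = X' := by
  obtain ⟨h1, h2, h3⟩ := h
  obtain ⟨h1', h2', h3'⟩ := h'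
  have key : X ν.2.2.1 = X' ν.2.2.1 := by
    rcases h3 with ⟨a, b⟩ | ⟨a, b, c⟩ | ⟨a, b, c⟩ <;>
      rcases h3' with ⟨a', b'⟩ | ⟨a', b', c'⟩ | ⟨a', b', c'⟩
    · omega
    · exact absurd a' a
    · exact absurd a' a
    · exact absurd a a'
    · omega
    · rw [b] at b'; exact absurd b' (by simp)
    · exact absurd a a'
    · rw [b] at b'; exact absurd b' (by simp)
    · omega
  funext i
  by_cases hi : i = ν.2.2.1
  · rw [hi]; exact key
  · obtain ⟨t, rfl⟩ := Fin.exists_succAbove_eq hi
    rw [h1, h1']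

/-- The triple `τ` represents the configuration `c`. -/
def Rep (β : ℕ) (x : List Λ) (c : FC A)
    (τ : Nd A × (Fin (D + 1) → ℕ) × List (Fin D → Fin β)) : Prop :=
  τ.2.2.length = x.length + 1 ∧ τ.1.1 = c.1 ∧ τ.2.1 = c.2.1 ∧
    ∃ X, Dec A β τ.1 τ.2.2 X ∧ ∀ i, c.2.2 i = pv (β ^ (x.length + 1)) (τ.1.2.1 i) (X i)

theorem pv_zero (M X : ℕ) : pv M 0 X = X := by simp [pv]

theorem pv_ne (M : ℕ) (f : Fin 3) (X : ℕ) (hf : f ≠ 0) : pv M f X = -1 ∨ pv M f X = M := by
  unfold pv
  rw [if_neg hf]
  by_cases h : f = 1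
  · left; rw [if_pos h]
  · right; rw [if_neg h]

theorem rep_stor (β : ℕ) (x : List Λ) (c : FC A)
    (τ : Nd A × (Fin (D + 1) → ℕ) × List (Fin D → Fin β)) (h : Rep A β x c τ) :
    Stor A (β ^ (x.length + 1)) c.2.2 := by
  obtain ⟨h1, h2, h3, X, h4, h5⟩ := h
  refine ⟨τ.1.2.2.1, ?_⟩
  have h6 := h5 τ.1.2.2.1
  have hd := τ.1.2.2.2.2.2
  rcases h4.2.2 with ⟨a, b⟩ | ⟨a, b, c⟩ | ⟨a, b, c⟩
  · rcases pv_ne (β ^ (x.length + 1)) (τ.1.2.1 τ.1.2.2.1) (X τ.1.2.2.1) a with h7 | h7
    · left; rw [h6, h7]; omega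
    · right; rw [h6, h7]; omega
  · left
    rw [h6, a, pv_zero, c]
    omega
  · right
    rw [h6, a, pv_zero]
    rw [h1] at c
    rw [← c]
    push_cast
    omega

theorem rep_exists (β : ℕ) (hβ : 2 ≤ β) (x : List Λ) (c : FC A)
    (hV : ∀ i, VP (β ^ (x.length + 1)) (x.length + 1) (c.2.1 i) (c.2.2 i))
    (hS : Stor A (β ^ (x.length + 1)) c.2.2) :
    ∃ τ : Nd A × (Fin (D + 1) → ℕ) × List (Fin D → Fin β), Rep A β x c τ := by
  classical
  set M := β ^ (x.length + 1) with hM
  have hMpos : 0 < M := by rw [hM]; positivity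
  obtain ⟨i0, hi0⟩ := hS
  -- flags and numbers
  let f : Fin (D + 1) → Fin 3 := fun i => if c.2.2 i = -1 then 1 else if c.2.2 i = M then 2 else 0
  let X : Fin (D + 1) → ℕ := fun i => if f i = 0 then (c.2.2 i).toNat else 0
  have hf0 : ∀ i, f i = 0 → 0 ≤ c.2.2 i ∧ c.2.2 i < M := by
    intro i hi
    have h1 : c.2.2 i ≠ -1 := by
      intro h
      simp [f, h] at hi
    have h2 : c.2.2 i ≠ M := by
      intro h
      by_cases h3 : c.2.2 i = -1
      · exact h1 h3
      · simp only [f, if_neg h3, if_pos h] at hi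
        exact absurd hi (by decide)
    rcases hV i with h | h | h
    · exact ⟨h.1, h.2.1⟩
    · exact absurd h.1 h1
    · exact absurd h.1 h2
  have hX0 : ∀ i, f i = 0 → ((X i : ℕ) : ℤ) = c.2.2 i := by
    intro i hi
    simp only [X, if_pos hi]
    exact Int.toNat_of_nonneg (hf0 i hi).1
  have hX1 : ∀ i, f i ≠ 0 → X i = 0 := by
    intro i hi
    simp only [X, if_neg hi]
  have hXM : ∀ i, X i < M := by
    intro i
    by_cases hi : f i = 0
    · have h1 := hX0 i hi
      have h2 := (hf0 i hi).2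
      omega
    · rw [hX1 i hi]; exact hMpos
  have hpv : ∀ i, c.2.2 i = pv M (f i) (X i) := by
    intro i
    by_cases hi : f i = 0
    · rw [hi, pv_zero, hX0 i hi]
    · by_cases h1 : c.2.2 i = -1
      · have h2 : f i = 1 := by simp only [f, if_pos h1]
        rw [h2, h1]
        simp [pv]
      · by_cases h2 : c.2.2 i = M
        · have h3 : f i = 2 := by simp only [f, if_neg h1, if_pos h2]
          rw [h3, h2]
          simp [pv]
        · exact absurd (by simp only [f, if_neg h1, if_neg h2]) hi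
  obtain ⟨u, hu1, hu2⟩ := exists_digits β hβ (x.length + 1) (fun t => X (i0.succAbove t))
    (fun t => hXM _)
  -- the distance
  by_cases hi : f i0 = 0
  · have h1 := hX0 i0 hi
    have h2 := hf0 i0 hi
    by_cases h3 : c.2.2 i0 ≤ 2 * Nat.card A.Q + 1
    · refine ⟨((c.1, f, i0, false, ⟨X i0, by omega⟩), c.2.1, u), hu1, rfl, rfl, X,
        ⟨fun t => (hu2 t).symm, ?_, Or.inr (Or.inl ⟨hi, rfl, rfl⟩)⟩, hpv⟩
      show X i0 < β ^ u.length
      rw [hu1]
      exact hXM i0
    · have h4 : (M : ℤ) - (2 * Nat.card A.Q + 1) ≤ c.2.2 i0 := by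
        rcases hi0 with h | h
        · exact absurd h h3
        · exact h
      refine ⟨((c.1, f, i0, true, ⟨M - X i0, by omega⟩), c.2.1, u), hu1, rfl, rfl, X,
        ⟨fun t => (hu2 t).symm, ?_, Or.inr (Or.inr ⟨hi, rfl, ?_⟩)⟩, hpv⟩
      · show X i0 < β ^ u.length
        rw [hu1]
        exact hXM i0
      · show X i0 + (M - X i0) = β ^ u.length
        rw [hu1, ← hM]
        have := hXM i0
        omega
  · refine ⟨((c.1, f, i0, false, ⟨0, by omega⟩), c.2.1, u), hu1, rfl, rfl, X,
        ⟨fun t => (hu2 t).symm, ?_, Or.inl ⟨hi, hX1 i0 hi⟩⟩, hpv⟩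
    show X i0 < β ^ u.length
    rw [hu1]
    exact hXM i0

theorem piece_box {V : Type} {D : ℕ} (E : V → V → (Fin D → ℤ) → Prop) (N M lo m : ℕ)
    (c c' : V × (Fin D → ℤ)) (h : Piece E N M lo m c c') : Bx lo M c.2 ∧ Bx lo M c'.2 := by
  obtain ⟨l, s, h1, h2, h3, h4, h5⟩ := h
  constructor
  · rw [← h2]; exact h4 0 (by omega)
  · rw [← h3]; exact h4 l le_rfl

end LWEx

open LWEx in
theorem t_LWE : LWE_Stmt := by
  intro Λ _ D β hβ A m₀ h1 h2 hG
  ext x
  have hβ0 : 0 < β := by omega
  set M := β ^ (x.length + 1) with hM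
  have hM2 : 2 ≤ M := by
    rw [hM]
    calc 2 ≤ β := hβ
      _ = β ^ 1 := (pow_one β).symm
      _ ≤ β ^ (x.length + 1) := Nat.pow_le_pow_right hβ0 (by omega)
  obtain ⟨hacc, hval⟩ := hG M hM2 x
  change _ ↔ pad M x ∈ A.lang
  rw [hacc]
  constructor
  · rintro ⟨τ, hτ, hτa⟩
    have key : ∃ c : FC A, ReflTransGen (LK A M m₀ x) (A.start, fun _ => 0, fun _ => -1) c ∧
        Rep A β x c τ := by
      clear hτa
      induction hτ with
      | refl =>
        refine ⟨_, ReflTransGen.refl, ?_, rfl, rfl, fun _ => 0, ⟨fun t => ?_, ?_, ?_⟩, fun i => ?_⟩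
        · exact List.length_replicate
        · exact (dval_replicate β hβ0 _ t).symm
        · show 0 < β ^ _
          positivity
        · left
          exact ⟨by show (1 : Fin 3) ≠ 0; decide, rfl⟩
        · show (-1 : ℤ) = pv _ 1 0
          simp [pv]
      | @tail τ τ' _ hL ih =>
        obtain ⟨c, hc, hR⟩ := ih
        obtain ⟨⟨⟨ν, ν'⟩, ⟨⟨s, m⟩, b⟩⟩, e1, e2, e3, e4, e5, e6⟩ := hL
        have g1 : ν = τ.1 := e1
        have g2 : ν' = τ'.1 := e2
        have g3 : (fun i => tape x (τ.2.1 i)) = s := e3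
        have g4 : τ'.2.1 = (fun i => move (x.length + 1) (τ.2.1 i) (m i)) := e4
        obtain ⟨r1, r2, r3, X0, r4, r5⟩ := hR
        have hlen' : τ'.2.2.length = x.length + 1 := by rw [e5, r1]
        have hfst : (τ.2.2.zip τ'.2.2).map Prod.fst = τ.2.2 :=
          List.map_fst_zip (by omega)
        have hsnd : (τ.2.2.zip τ'.2.2).map Prod.snd = τ'.2.2 :=
          List.map_snd_zip (by omega)
        have hzl : (τ.2.2.zip τ'.2.2).length = x.length + 1 := by
          rw [List.length_zip]; omega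
        have hS : Stor A M c.2.2 := rep_stor A β x c τ ⟨r1, r2, r3, X0, r4, r5⟩
        cases b with
        | true =>
          have g6 : RStep A β ν ν' s m (τ.2.2.zip τ'.2.2) := e6
          obtain ⟨X, X', d1, d2, d3, t, ht, d4, d5⟩ := g6
          rw [hfst] at d1
          rw [hsnd] at d2
          rw [hzl, ← hM] at ht d5
          rw [g1] at d1 ht d5
          rw [g2] at d2 d4 d5
          have hX : X0 = X := dec_unique A β _ _ _ _ r4 d1
          subst hX
          refine ⟨(τ'.1.1, τ'.2.1, fun i => pv M (τ'.1.2.1 i) (X' i)), ?_, ?_⟩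
          · have hR' : Rep A β x (τ'.1.1, τ'.2.1, fun i => pv M (τ'.1.2.1 i) (X' i)) τ' :=
              ⟨hlen', rfl, rfl, X', d2, fun i => rfl⟩
            refine ReflTransGen.tail hc ⟨hS, rep_stor A β x _ τ' hR', Or.inl ⟨t, ?_, d4, ?_, ?_⟩⟩
            · rw [← r2]
              have hh : (fun i => lsym M (tape x (c.2.1 i)) (c.2.2 i)) =
                  fun i => lsym M (s i) (pv M (τ.1.2.1 i) (X0 i)) := by
                funext i
                rw [← g3, r3, r5 i]
              rw [hh]
              exact ht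
            · intro i
              show τ'.2.1 i = _
              rw [g4, r5 i, ← r3]
              have := congrArg Prod.fst (d5 i)
              rw [← g3] at this
              simp only at this ⊢
              rw [this]
            · intro i
              show pv M (τ'.1.2.1 i) (X' i) = _
              rw [r5 i, ← r3]
              have := congrArg Prod.snd (d5 i)
              rw [← g3] at this
              simp only at this ⊢
              rw [this]
          · exact ⟨hlen', rfl, rfl, X', d2, fun i => rfl⟩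
        | false =>
          have g6 : RPiece A β m₀ ν ν' (τ.2.2.zip τ'.2.2) ∧ ∀ i, m i = Dir.S := e6
          obtain ⟨⟨f1, f2, X, X', d1, d2, d3⟩, hm⟩ := g6
          rw [hfst] at d1
          rw [hsnd] at d2
          rw [hzl, ← hM] at d3
          rw [g1] at d1 d3 f1
          rw [g2] at d2 d3 f2
          have hX : X0 = X := dec_unique A β _ _ _ _ r4 d1
          subst hX
          have hR' : Rep A β x (τ'.1.1, τ'.2.1, fun i => pv M (τ'.1.2.1 i) (X' i)) τ' :=
            ⟨hlen', rfl, rfl, X', d2, fun i => rfl⟩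
          refine ⟨(τ'.1.1, τ'.2.1, fun i => pv M (τ'.1.2.1 i) (X' i)), ?_, hR'⟩
          refine ReflTransGen.tail hc ⟨hS, rep_stor A β x _ τ' hR', Or.inr ⟨?_, ?_⟩⟩
          · show τ'.2.1 = c.2.1
            rw [g4, ← r3]
            funext i
            rw [hm i]
            rfl
          · have hh : c.2.2 = fun i => ((X0 i : ℕ) : ℤ) := by
              funext i
              rw [r5 i, f1 i, pv_zero]
            have hh' : (fun i => pv M (τ'.1.2.1 i) (X' i)) = fun i => ((X' i : ℕ) : ℤ) := by
              funext i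
              rw [f2 i, pv_zero]
            show Piece (Bl A) (Nat.card A.Q) M (Nat.card A.Q + 1) m₀ (c.1, c.2.2)
              (τ'.1.1, fun i => pv M (τ'.1.2.1 i) (X' i))
            rw [hh, hh', ← r2]
            exact d3
    obtain ⟨c, hc, hR⟩ := key
    refine ⟨c, hc, ?_⟩
    have h3 : τ.1.1 ∈ A.accept := hτa
    rwa [hR.2.1] at h3
  · rintro ⟨c, hc, hca⟩
    have key : ∃ τ : Nd A × (Fin (D + 1) → ℕ) × List (Fin D → Fin β),
        ReflTransGen ((lowSys A β m₀ (by omega) h1 h2).Link x)
          ((lowSys A β m₀ (by omega) h1 h2).start, fun _ => 0,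
            List.replicate (x.length + 1) (lowSys A β m₀ (by omega) h1 h2).blank) τ ∧
        Rep A β x c τ := by
      clear hca
      induction hc with
      | refl =>
        refine ⟨_, ReflTransGen.refl, ?_, rfl, rfl, fun _ => 0, ⟨fun t => ?_, ?_, ?_⟩, fun i => ?_⟩
        · exact List.length_replicate
        · exact (dval_replicate β hβ0 _ t).symm
        · show 0 < β ^ _
          positivity
        · left
          exact ⟨by show (1 : Fin 3) ≠ 0; decide, rfl⟩
        · show (-1 : ℤ) = pv _ 1 0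
          simp [pv]
      | @tail c c' hcc hL ih =>
        obtain ⟨τ, hτ, hR⟩ := ih
        have hV' := hval c' (ReflTransGen.tail hcc hL)
        obtain ⟨hS, hS', hk⟩ := hL
        obtain ⟨τ', hR'⟩ := rep_exists A β hβ x c' hV' hS'
        refine ⟨τ', ReflTransGen.tail hτ ?_, hR'⟩
        obtain ⟨r1, r2, r3, X, r4, r5⟩ := hR
        obtain ⟨r1', r2', r3', X', r4', r5'⟩ := hR'
        have hfst : (τ.2.2.zip τ'.2.2).map Prod.fst = τ.2.2 :=
          List.map_fst_zip (by omega)
        have hsnd : (τ.2.2.zip τ'.2.2).map Prod.snd = τ'.2.2 :=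
          List.map_snd_zip (by omega)
        have hzl : (τ.2.2.zip τ'.2.2).length = x.length + 1 := by
          rw [List.length_zip]; omega
        rcases hk with ⟨t, ht, k1, k2, k3⟩ | ⟨k1, k2⟩
        · refine ⟨((τ.1, τ'.1), ((fun i => tape x (τ.2.1 i)),
            fun i => (lmv M (tape x (c.2.1 i)) (c.2.2 i) (t.2 i)).1), true), rfl, rfl, rfl,
            ?_, by rw [r1, r1'], ?_⟩
          · show τ'.2.1 = fun i => move (x.length + 1) (τ.2.1 i)
              (lmv M (tape x (c.2.1 i)) (c.2.2 i) (t.2 i)).1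
            rw [r3', r3]
            funext i
            exact k2 i
          · show RStep A β τ.1 τ'.1 (fun i => tape x (τ.2.1 i))
              (fun i => (lmv M (tape x (c.2.1 i)) (c.2.2 i) (t.2 i)).1) (τ.2.2.zip τ'.2.2)
            refine ⟨X, X', by rw [hfst]; exact r4, by rw [hsnd]; exact r4', by omega, t, ?_, ?_, ?_⟩
            · rw [hzl, ← hM, r2]
              have hh : (fun i => lsym M (tape x (c.2.1 i)) (c.2.2 i)) =
                  fun i => lsym M (tape x (τ.2.1 i)) (pv M (τ.1.2.1 i) (X i)) := by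
                funext i
                rw [r3, r5 i]
              rw [← hh]
              exact ht
            · rw [r2', k1]
            · intro i
              rw [hzl, ← hM, ← r5 i, ← r5' i, r3, k3 i]
        · obtain ⟨b1, b2⟩ := piece_box _ _ _ _ _ _ _ k2
          have hf : ∀ i, τ.1.2.1 i = 0 := by
            intro i
            by_contra hne
            have h3 := b1 i
            have h4 := r5 i
            have h3' : ((Nat.card A.Q + 1 : ℕ) : ℤ) ≤ c.2.2 i ∧
              c.2.2 i ≤ (M : ℤ) - (Nat.card A.Q + 1 : ℕ) := h3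
            rcases pv_ne M (τ.1.2.1 i) (X i) hne with h5 | h5
            · rw [h4, h5] at h3'; omega
            · rw [h4, h5] at h3'; omega
          have hf' : ∀ i, τ'.1.2.1 i = 0 := by
            intro i
            by_contra hne
            have h3 := b2 i
            have h4 := r5' i
            have h3' : ((Nat.card A.Q + 1 : ℕ) : ℤ) ≤ c'.2.2 i ∧
              c'.2.2 i ≤ (M : ℤ) - (Nat.card A.Q + 1 : ℕ) := h3
            rcases pv_ne M (τ'.1.2.1 i) (X' i) hne with h5 | h5
            · rw [h4, h5] at h3'; omega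
            · rw [h4, h5] at h3'; omega
          refine ⟨((τ.1, τ'.1), ((fun i => tape x (τ.2.1 i)), fun _ => Dir.S), false),
            rfl, rfl, rfl, ?_, by rw [r1, r1'], ?_⟩
          · show τ'.2.1 = fun i => move (x.length + 1) (τ.2.1 i) Dir.S
            rw [r3', r3, k1]
            rfl
          · show RPiece A β m₀ τ.1 τ'.1 (τ.2.2.zip τ'.2.2) ∧ ∀ i : Fin (D + 1), Dir.S = Dir.S
            refine ⟨⟨hf, hf', X, X', by rw [hfst]; exact r4, by rw [hsnd]; exact r4', ?_⟩,
              fun _ => rfl⟩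
            have hh : c.2.2 = fun i => ((X i : ℕ) : ℤ) := by
              funext i
              rw [r5 i, hf i, pv_zero]
            have hh' : c'.2.2 = fun i => ((X' i : ℕ) : ℤ) := by
              funext i
              rw [r5' i, hf' i, pv_zero]
            rw [hzl, ← hM, r2, r2', ← hh, ← hh']
            exact k2
    obtain ⟨τ, hτ, hR⟩ := key
    refine ⟨τ, hτ, ?_⟩
    show τ.1.1 ∈ A.accept
    rwa [hR.2.1]

end Pool.Agent.NPH
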