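import Pool.Agent.NPH.StB

/-!
# The relations of the link system are recognisable (module LWR)
-/

set_option autoImplicit false

namespace Pool.Agent.NPH

open Pool.Agent.Heads Relation

namespace LWR

/-- runs along a map of letters -/
lemma runs_map {Q A B : Type} (δ : Q → B → Set Q) (g : A → B) :
    ∀ (v : List A) (q q' : Q), Runs δ q (v.map g) q' ↔ Runs (fun q a => δ q (g a)) q v q'
  | [], _, _ => Iff.rfl
  | a :: u, q, q' => by
    simp only [List.map_cons, Runs, runs_map δ g u]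

/-- recognisable sets are transported by maps of letters -/
lemma rec_map {A B : Type} (g : A → B) {P : List B → Prop} (h : Rec P) :
    Rec (fun v : List A => P (v.map g)) := by
  obtain ⟨Q, hQ, s, F, δ, h⟩ := h
  refine ⟨Q, hQ, s, F, fun q a => δ q (g a), fun v => ?_⟩
  simp only [h, runs_map]

lemma rec_congr {A : Type} {P P' : List A → Prop} (h : ∀ v, P v ↔ P' v) (hP : Rec P) : Rec P' := by
  have h1 : P = P' := funext fun v => propext (h v)
  rwa [← h1]

lemma rec_false {A : Type} : Rec (fun _ : List A => False) :=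
  ⟨Unit, inferInstance, (), ∅, fun _ _ => ∅, fun v => by simp⟩

lemma au_congr {β : ℕ} {ι : Type} {P P' : ℕ → (ι → ℕ) → Prop} (h : ∀ L X, P L X ↔ P' L X)
    (hP : Au β ι P) : Au β ι P' := rec_congr (fun v => h v.length (dval β v)) hP

/-- the linear condition on the hidden number -/
def side (fl : Fin 3) (sd : Bool) (dist β L x : ℕ) : Prop :=
  (fl ≠ 0 ∧ x = 0) ∨ (fl = 0 ∧ sd = false ∧ x = dist) ∨ (fl = 0 ∧ sd = true ∧ x + dist = β ^ L)

/-- one variable -/
lemma au_one (h1 : AUL_Stmt) (β : ℕ) (hβ : 2 ≤ β) (ι : Type) [Fintype ι] (i : ι) (g h : ℤ) :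
    Au β ι (fun L X => (X i : ℤ) + g = h * (β : ℤ) ^ L) := by
  classical
  refine au_congr (fun L X => ?_) (h1 β hβ ι (fun j => if j = i then 1 else 0) g h)
  simp

/-- the condition on the hidden number is recognisable -/
lemma au_side (h1 : AUL_Stmt) (β : ℕ) (hβ : 2 ≤ β) (ι : Type) [Fintype ι] (i : ι)
    (fl : Fin 3) (sd : Bool) (dist : ℕ) :
    Au β ι (fun L X => side fl sd dist β L (X i)) := by
  by_cases h0 : fl = 0
  · subst h0
    cases sd
    · refine au_congr (fun L X => ?_) (au_one h1 β hβ ι i (-(dist : ℤ)) 0)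
      constructor
      · intro h
        exact Or.inr (Or.inl ⟨rfl, rfl, by omega⟩)
      · rintro (⟨h, _⟩ | ⟨_, _, h⟩ | ⟨_, h, _⟩)
        · exact absurd rfl h
        · omega
        · exact absurd h (by decide)
    · refine au_congr (fun L X => ?_) (au_one h1 β hβ ι i (dist : ℤ) 1)
      constructor
      · intro h
        refine Or.inr (Or.inr ⟨rfl, rfl, ?_⟩)
        rw [one_mul] at h
        exact_mod_cast h
      · rintro (⟨h, _⟩ | ⟨_, h, _⟩ | ⟨_, _, h⟩)
        · exact absurd rfl h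
        · exact absurd h (by decide)
        · rw [one_mul]
          exact_mod_cast h
  · refine au_congr (fun L X => ?_) (au_one h1 β hβ ι i 0 0)
    constructor
    · intro h
      exact Or.inl ⟨h0, by omega⟩
    · rintro (⟨_, h⟩ | ⟨h, _⟩ | ⟨h, _⟩)
      · omega
      · exact absurd h h0
      · exact absurd h h0

/-- the numbers of a word of pairs, first component -/
lemma dval_inl {D β : ℕ} (v : List ((Fin D → Fin β) × (Fin D → Fin β))) (t : Fin D) :
    dval β (v.map fun p => Sum.elim p.1 p.2) (Sum.inl t) = dval β (v.map Prod.fst) t := by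
  simp only [dval, List.map_map]
  rfl

/-- the numbers of a word of pairs, second component -/
lemma dval_inr {D β : ℕ} (v : List ((Fin D → Fin β) × (Fin D → Fin β))) (t : Fin D) :
    dval β (v.map fun p => Sum.elim p.1 p.2) (Sum.inr t) = dval β (v.map Prod.snd) t := by
  simp only [dval, List.map_map]
  rfl

/-- **the main lemma**: hiding the two numbers that are not in the memory -/
lemma rec_join (h1 : AUL_Stmt) (h2 : AUC_Stmt) (β : ℕ) (hβ : 2 ≤ β) {Λ : Type} {D : ℕ}
    (A : FA (Option (Sym Λ)) (D + 1)) (ν ν' : Nd A)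
    (P : ℕ → (Fin (D + 1) ⊕ Fin (D + 1) → ℕ) → Prop) (hP : Au β (Fin (D + 1) ⊕ Fin (D + 1)) P) :
    Rec (fun v : List ((Fin D → Fin β) × (Fin D → Fin β)) =>
      ∃ X X' : Fin (D + 1) → ℕ, Dec A β ν (v.map Prod.fst) X ∧ Dec A β ν' (v.map Prod.snd) X' ∧
        P v.length (Sum.elim X X')) := by
  let f : Fin (D + 1) ⊕ Fin (D + 1) → (Fin D ⊕ Fin D) ⊕ Bool :=
    Sum.elim (ν.2.2.1.insertNth (Sum.inr false) (fun t => Sum.inl (Sum.inl t)))
      (ν'.2.2.1.insertNth (Sum.inr true) (fun t => Sum.inl (Sum.inr t)))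
  obtain ⟨hand, _, _, _, _, _⟩ := h2 β hβ ((Fin D ⊕ Fin D) ⊕ Bool)
  obtain ⟨_, _, _, _, hmap, _⟩ := h2 β hβ (Fin (D + 1) ⊕ Fin (D + 1))
  obtain ⟨_, _, _, _, _, hex⟩ := h2 β hβ (Fin D ⊕ Fin D)
  have hQ := hex Bool _ (hand _ _ (hand _ _
    (au_side h1 β hβ ((Fin D ⊕ Fin D) ⊕ Bool) (Sum.inr false) (ν.2.1 ν.2.2.1) ν.2.2.2.1
      (ν.2.2.2.2 : ℕ))
    (au_side h1 β hβ ((Fin D ⊕ Fin D) ⊕ Bool) (Sum.inr true) (ν'.2.1 ν'.2.2.1) ν'.2.2.2.1
      (ν'.2.2.2.2 : ℕ)))
    (hmap _ f P hP))
  refine rec_congr (fun v => ?_) (rec_map (fun p : (Fin D → Fin β) × (Fin D → Fin β) =>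
    (Sum.elim p.1 p.2 : Fin D ⊕ Fin D → Fin β)) hQ)
  simp only [List.length_map, Sum.elim_inr]
  constructor
  · rintro ⟨w, hw, ⟨hs, hs'⟩, hP'⟩
    have e1 : (fun i => Sum.elim (dval β (v.map fun p => Sum.elim p.1 p.2)) w (f (Sum.inl i)))
        = ν.2.2.1.insertNth (w false) (dval β (v.map Prod.fst)) := by
      funext i
      rcases Fin.eq_self_or_eq_succAbove ν.2.2.1 i with rfl | ⟨t, rfl⟩
      · simp [f]
      · simp [f, dval_inl]
    have e2 : (fun i => Sum.elim (dval β (v.map fun p => Sum.elim p.1 p.2)) w (f (Sum.inr i)))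
        = ν'.2.2.1.insertNth (w true) (dval β (v.map Prod.snd)) := by
      funext i
      rcases Fin.eq_self_or_eq_succAbove ν'.2.2.1 i with rfl | ⟨t, rfl⟩
      · simp [f]
      · simp [f, dval_inr]
    refine ⟨ν.2.2.1.insertNth (w false) (dval β (v.map Prod.fst)),
      ν'.2.2.1.insertNth (w true) (dval β (v.map Prod.snd)), ⟨fun t => ?_, ?_, ?_⟩,
      ⟨fun t => ?_, ?_, ?_⟩, ?_⟩
    · rw [Fin.insertNth_apply_succAbove]
    · rw [Fin.insertNth_apply_same, List.length_map]
      exact hw false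
    · rw [Fin.insertNth_apply_same, List.length_map]
      exact hs
    · rw [Fin.insertNth_apply_succAbove]
    · rw [Fin.insertNth_apply_same, List.length_map]
      exact hw true
    · rw [Fin.insertNth_apply_same, List.length_map]
      exact hs'
    · rw [← e1, ← e2]
      have e3 : Sum.elim (fun i => Sum.elim (dval β (v.map fun p => Sum.elim p.1 p.2)) w
            (f (Sum.inl i)))
          (fun i => Sum.elim (dval β (v.map fun p => Sum.elim p.1 p.2)) w (f (Sum.inr i)))
          = (Sum.elim (dval β (v.map fun p => Sum.elim p.1 p.2)) w) ∘ f := by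
        funext i
        cases i <;> rfl
      rw [e3]
      exact hP'
  · rintro ⟨X, X', ⟨ha, hb, hc⟩, ⟨ha', hb', hc'⟩, hP'⟩
    rw [List.length_map] at hb hc hb' hc'
    refine ⟨fun b => if b then X' ν'.2.2.1 else X ν.2.2.1, ?_, ⟨?_, ?_⟩, ?_⟩
    · rintro (_ | _)
      · simpa using hb
      · simpa using hb'
    · simpa [side] using hc
    · simpa [side] using hc'
    · have e3 : (Sum.elim (dval β (v.map fun p => Sum.elim p.1 p.2))
          (fun b => if b then X' ν'.2.2.1 else X ν.2.2.1)) ∘ f = Sum.elim X X' := by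
        funext i
        rcases i with i | i
        · rcases Fin.eq_self_or_eq_succAbove ν.2.2.1 i with rfl | ⟨t, rfl⟩
          · simp [f]
          · simp [f, dval_inl, ha]
        · rcases Fin.eq_self_or_eq_succAbove ν'.2.2.1 i with rfl | ⟨t, rfl⟩
          · simp [f]
          · simp [f, dval_inr, ha']
      rw [e3]
      exact hP'

end LWR

open LWR in
/-- LWR: the relations of the link system are recognisable. -/
theorem t_LWR : LWR_Stmt := by
  intro h1 h2 _ hPC hST Λ _ D β hβ A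
  refine ⟨fun ν ν' s m => ?_, fun m₀ ν ν' => ?_⟩
  · exact rec_join h1 h2 β hβ A ν ν' _ (hST β hβ Λ (D + 1) A ν.1 ν'.1 ν.2.1 ν'.2.1 s m)
  · by_cases h : (∀ i, ν.2.1 i = 0) ∧ (∀ i, ν'.2.1 i = 0)
    · have := A.finQ
      have hU : Unit1 (Bl A) := by
        rintro q q' d ⟨t, _, _, ht⟩ i
        rw [ht i]
        cases t.2 i <;> simp [dz]
      refine rec_congr (fun v => ?_) (rec_join h1 h2 β hβ A ν ν' _
        (hPC β hβ A.Q (D + 1) (Bl A) hU (Nat.card A.Q) m₀ ν.1 ν'.1))
      simp only [RPiece, Sum.elim_inl, Sum.elim_inr]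
      exact ⟨fun h' => ⟨h.1, h.2, h'⟩, fun h' => h'.2.2⟩
    · exact rec_congr (fun v => ⟨fun h' => h'.elim, fun h' => h ⟨h'.1, h'.2.1⟩⟩) rec_false

end Pool.Agent.NPH
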