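import Pool.Agent.NPH.StB

/-!
# NPH, module PCA: pieces are recognised digit by digit (helper34)
-/

set_option autoImplicit false

namespace Pool.Agent.NPH

open Pool.Agent.Heads Relation

namespace PCAx

/-! ### tools -/

theorem dval_lt {β : ℕ} (hβ : 2 ≤ β) {ι : Type} (v : List (ι → Fin β)) (i : ι) :
    dval β v i < β ^ v.length := by
  unfold dval
  have h := Nat.ofDigits_lt_base_pow_length (b := β) (l := v.map fun d => (d i : ℕ)) (by omega)
    (by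
      intro x hx
      obtain ⟨d, -, rfl⟩ := List.mem_map.1 hx
      exact (d i).2)
  rwa [List.length_map] at h

theorem congr {β : ℕ} (hβ : 2 ≤ β) {ι : Type} {P P' : ℕ → (ι → ℕ) → Prop}
    (h : ∀ L X, (∀ i, X i < β ^ L) → (P L X ↔ P' L X)) (hP : Au β ι P) : Au β ι P' := by
  obtain ⟨Q, hQ, s, F, δ, hv⟩ := hP
  exact ⟨Q, hQ, s, F, δ, fun v => (h _ _ (dval_lt hβ v)).symm.trans (hv v)⟩

variable {β : ℕ} {ι : Type}

theorem cst (hC : AUC_Stmt) (hβ : 2 ≤ β) (p : Prop) : Au β ι (fun _ _ => p) := by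
  obtain ⟨-, -, hf, ht, -, -⟩ := hC β hβ ι
  by_cases hp : p
  · exact congr hβ (fun _ _ _ => by simp [hp]) ht
  · exact congr hβ (fun _ _ _ => by simp [hp]) hf

theorem and (hC : AUC_Stmt) (hβ : 2 ≤ β) {P P' : ℕ → (ι → ℕ) → Prop} (h : Au β ι P)
    (h' : Au β ι P') : Au β ι (fun L X => P L X ∧ P' L X) := (hC β hβ ι).1 P P' h h'

theorem or (hC : AUC_Stmt) (hβ : 2 ≤ β) {P P' : ℕ → (ι → ℕ) → Prop} (h : Au β ι P)
    (h' : Au β ι P') : Au β ι (fun L X => P L X ∨ P' L X) := (hC β hβ ι).2.1 P P' h h'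

theorem all (hC : AUC_Stmt) (hF : AUF_Stmt) (hβ : 2 ≤ β) {κ : Type} [Finite κ]
    {P : κ → ℕ → (ι → ℕ) → Prop} (h : ∀ t, Au β ι (P t)) : Au β ι (fun L X => ∀ t, P t L X) :=
  (hF hC β hβ ι κ P h).1

theorem ex (hC : AUC_Stmt) (hF : AUF_Stmt) (hβ : 2 ≤ β) {κ : Type} [Finite κ]
    {P : κ → ℕ → (ι → ℕ) → Prop} (h : ∀ t, Au β ι (P t)) : Au β ι (fun L X => ∃ t, P t L X) :=
  (hF hC β hβ ι κ P h).2

theorem hid (hC : AUC_Stmt) (hβ : 2 ≤ β) {κ : Type} [Finite κ] {P : ℕ → (ι ⊕ κ → ℕ) → Prop}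
    (h : Au β (ι ⊕ κ) P) :
    Au β ι (fun L X => ∃ w : κ → ℕ, (∀ t, w t < β ^ L) ∧ P L (Sum.elim X w)) :=
  (hC β hβ ι).2.2.2.2.2 κ P h

/-- linear terms -/
def Lin (β : ℕ) (ι : Type) [Fintype ι] (T : ℕ → (ι → ℕ) → ℤ) : Prop :=
  ∃ (a : ι → ℤ) (g h : ℤ), ∀ L X, T L X = ∑ i, a i * (X i : ℤ) + g + h * (β : ℤ) ^ L

section lin

variable [Fintype ι]

theorem Lin.var (i : ι) : Lin β ι (fun _ X => (X i : ℤ)) := by
  classical
  refine ⟨Pi.single i 1, 0, 0, fun L X => ?_⟩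
  simp [Pi.single_apply]

theorem Lin.const (c : ℤ) : Lin β ι (fun _ _ => c) := ⟨0, c, 0, fun L X => by simp⟩

theorem Lin.top : Lin β ι (fun L _ => (β : ℤ) ^ L) := ⟨0, 0, 1, fun L X => by simp⟩

theorem Lin.add {T T' : ℕ → (ι → ℕ) → ℤ} (h : Lin β ι T) (h' : Lin β ι T') :
    Lin β ι (fun L X => T L X + T' L X) := by
  obtain ⟨a, g, k, h⟩ := h
  obtain ⟨a', g', k', h'⟩ := h'
  refine ⟨a + a', g + g', k + k', fun L X => ?_⟩
  show T L X + T' L X = _
  rw [h, h']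
  simp only [Pi.add_apply, add_mul, Finset.sum_add_distrib]
  ring

theorem Lin.cmul {T : ℕ → (ι → ℕ) → ℤ} (c : ℤ) (h : Lin β ι T) :
    Lin β ι (fun L X => c * T L X) := by
  obtain ⟨a, g, k, h⟩ := h
  refine ⟨c • a, c * g, c * k, fun L X => ?_⟩
  show c * T L X = _
  rw [h]
  simp only [Pi.smul_apply, smul_eq_mul, mul_assoc, ← Finset.mul_sum]
  ring

theorem eq (hL : AUL_Stmt) (hβ : 2 ≤ β) {T T' : ℕ → (ι → ℕ) → ℤ} (h : Lin β ι T)
    (h' : Lin β ι T') : Au β ι (fun L X => T L X = T' L X) := by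
  obtain ⟨a, g, k, h⟩ := h.add (h'.cmul (-1))
  refine congr hβ (fun L X _ => ?_) (hL β hβ ι a g (-k))
  have h1 := h L X
  simp only at h1
  constructor <;> intro h2 <;> linarith

/-- a lower bound -/
theorem low (hL : AUL_Stmt) (hC : AUC_Stmt) (hβ : 2 ≤ β) (i : ι) (c : ℕ) :
    Au β ι (fun _ X => (c : ℤ) ≤ (X i : ℤ)) := by
  refine congr hβ (fun L X hX => ?_) (hid (κ := Unit) hC hβ
    (eq hL hβ (Lin.var (Sum.inl i)) ((Lin.var (Sum.inr ())).add (Lin.const (c : ℤ)))))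
  constructor
  · rintro ⟨w, -, h⟩
    simp only [Sum.elim_inl, Sum.elim_inr] at h
    omega
  · intro h
    refine ⟨fun _ => X i - c, fun _ => ?_, ?_⟩
    · have := hX i
      show X i - c < β ^ L
      omega
    · simp only [Sum.elim_inl, Sum.elim_inr]
      omega

/-- an upper bound -/
theorem upp (hL : AUL_Stmt) (hC : AUC_Stmt) (hβ : 2 ≤ β) (i : ι) (c : ℕ) (hc : 1 ≤ c) :
    Au β ι (fun L X => (X i : ℤ) ≤ ((β ^ L : ℕ) : ℤ) - (c : ℤ)) := by
  refine congr hβ (fun L X hX => ?_) (hid (κ := Unit) hC hβ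
    (eq hL hβ (((Lin.var (Sum.inl i)).add (Lin.const (c : ℤ))).add (Lin.var (Sum.inr ())))
      Lin.top))
  have hcast : (β : ℤ) ^ L = ((β ^ L : ℕ) : ℤ) := by push_cast; rfl
  rw [hcast]
  constructor
  · rintro ⟨w, -, h⟩
    simp only [Sum.elim_inl, Sum.elim_inr] at h
    omega
  · intro h
    have hpos : 0 < β ^ L := pow_pos (by omega) L
    refine ⟨fun _ => β ^ L - X i - c, fun _ => ?_, ?_⟩
    · show β ^ L - X i - c < β ^ L
      omega
    · simp only [Sum.elim_inl, Sum.elim_inr]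
      omega

theorem box (hL : AUL_Stmt) (hC : AUC_Stmt) (hβ : 2 ≤ β) (i : ι) (c : ℕ) (hc : 1 ≤ c) :
    Au β ι (fun L X => (c : ℤ) ≤ (X i : ℤ) ∧ (X i : ℤ) ≤ ((β ^ L : ℕ) : ℤ) - (c : ℤ)) :=
  and hC hβ (low hL hC hβ i c) (upp hL hC hβ i c hc)

end lin

/-! ### walks and pieces -/

section walks

variable {V : Type} {D : ℕ} {E : V → V → (Fin D → ℤ) → Prop}

theorem wk_le (hU : Unit1 E) {l : ℕ} {v v' : V} {c : Fin D → ℤ} (h : Wk E l v v' c) :
    ∀ i, |c i| ≤ (l : ℤ) := by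
  induction h with
  | nil v => intro i; simp
  | cons he _ ih =>
    intro i
    have h1 := hU _ _ _ he i
    have h2 := ih i
    rw [Pi.add_apply]
    push_cast
    exact (abs_add_le _ _).trans (by linarith)

theorem piece_zero (N M lo : ℕ) (c c' : V × (Fin D → ℤ)) :
    Piece E N M lo 0 c c' ↔ c = c' ∧ Bx lo M c.2 := by
  constructor
  · rintro ⟨l, s, hl, h0, h1, hb, -⟩
    obtain rfl : l = 0 := by omega
    refine ⟨h0.symm.trans h1, ?_⟩
    have := hb 0 le_rfl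
    rwa [h0] at this
  · rintro ⟨rfl, hb⟩
    exact ⟨0, fun _ => c, le_rfl, rfl, rfl, fun t _ => hb, fun t ht => absurd ht (by omega)⟩

theorem piece_succ (N M lo m : ℕ) (c c' : V × (Fin D → ℤ)) :
    Piece E N M lo (m + 1) c c' ↔ Piece E N M lo m c c' ∨
      ∃ c₁, Piece E N M lo m c c₁ ∧ Bx lo M c'.2 ∧ (ItE E c₁ c' ∨ ItP E N M c₁ c') := by
  constructor
  · rintro ⟨l, s, hl, h0, h1, hb, hs⟩
    rcases Nat.lt_or_ge m l with h2 | h2
    · obtain rfl : l = m + 1 := by omega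
      right
      refine ⟨s m, ⟨m, s, le_rfl, h0, rfl, fun t ht => hb t (by omega),
        fun t ht => hs t (by omega)⟩, ?_, ?_⟩
      · have := hb (m + 1) le_rfl
        rwa [h1] at this
      · have := hs m (by omega)
        rwa [h1] at this
    · left
      exact ⟨l, s, h2, h0, h1, hb, hs⟩
  · rintro (⟨l, s, hl, h⟩ | ⟨c₁, ⟨l, s, hl, h0, h1, hb, hs⟩, hbx, hit⟩)
    · exact ⟨l, s, by omega, h⟩
    · refine ⟨l + 1, fun t => if t ≤ l then s t else c', by omega, ?_, ?_, ?_, ?_⟩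
      · simpa using h0
      · simp
      · intro t ht
        by_cases h2 : t ≤ l
        · simp only [h2, if_true]
          exact hb t h2
        · simp only [h2, if_false]
          exact hbx
      · intro t ht
        by_cases h2 : t < l
        · have h3 : t ≤ l := h2.le
          have h4 : t + 1 ≤ l := h2
          simp only [h3, h4, if_true]
          exact hs t h2
        · obtain rfl : t = l := by omega
          have h3 : ¬ t + 1 ≤ t := by omega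
          simp only [le_refl, if_true, h3, if_false]
          rw [h1]
          exact hit

theorem piece_box {N M lo m : ℕ} {c c' : V × (Fin D → ℤ)} (h : Piece E N M lo m c c') :
    Bx lo M c'.2 := by
  obtain ⟨l, s, -, -, h1, hb, -⟩ := h
  have := hb l le_rfl
  rwa [h1] at this

/-- the displacements of edges -/
def d3 (d : Fin D → Fin 3) (i : Fin D) : ℤ := (d i : ℤ) - 1

/-- the displacements of short closed walks -/
def dN (N : ℕ) (d : Fin D → Fin (2 * N + 1)) (i : Fin D) : ℤ := (d i : ℤ) - N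

theorem ex_d3 (c : Fin D → ℤ) (h : ∀ i, |c i| ≤ 1) : ∃ d : Fin D → Fin 3, d3 d = c := by
  refine ⟨fun i => ⟨(c i + 1).toNat, ?_⟩, ?_⟩
  · have := abs_le.1 (h i)
    omega
  · funext i
    have := abs_le.1 (h i)
    simp only [d3]
    omega

theorem ex_dN (N : ℕ) (c : Fin D → ℤ) (h : ∀ i, |c i| ≤ (N : ℤ)) :
    ∃ d : Fin D → Fin (2 * N + 1), dN N d = c := by
  refine ⟨fun i => ⟨(c i + N).toNat, ?_⟩, ?_⟩
  · have := abs_le.1 (h i)
    omega
  · funext i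
    have := abs_le.1 (h i)
    simp only [dN]
    omega

/-- the items as systems of linear equations -/
theorem item_iff (hU : Unit1 E) (N M : ℕ) (v₁ v' : V) (y x : Fin D → ℕ) :
    (ItE E (v₁, fun i => (y i : ℤ)) (v', fun i => (x i : ℤ)) ∨
      ItP E N M (v₁, fun i => (y i : ℤ)) (v', fun i => (x i : ℤ))) ↔
    (∃ d : Fin D → Fin 3, E v₁ v' (d3 d) ∧ ∀ i, (x i : ℤ) = y i + d3 d i) ∨
    (∃ d : Fin D → Fin (2 * N + 1), (v' = v₁ ∧ (∃ l, 1 ≤ l ∧ l ≤ N ∧ Wk E l v₁ v₁ (dN N d)) ∧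
      dN N d ≠ 0) ∧ ∃ w : Unit → ℕ, (∀ t, w t < M) ∧ (((1 : ℕ) : ℤ) ≤ (w () : ℤ) ∧
        ∀ i, (x i : ℤ) = y i + dN N d i * (w () : ℤ))) := by
  constructor
  · rintro (h | ⟨hv, l, n, d, h1, h2, h3, h4, h5, h6, h7⟩)
    · left
      unfold ItE at h
      obtain ⟨d, hd⟩ := ex_d3 _ (hU _ _ _ h)
      refine ⟨d, by rw [hd]; exact h, fun i => ?_⟩
      rw [hd]
      simp
    · right
      have h8 : ∀ i, |d i| ≤ (N : ℤ) := fun i => (wk_le hU h3 i).trans (by exact_mod_cast h2)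
      obtain ⟨d', rfl⟩ := ex_dN N d h8
      refine ⟨d', ⟨hv, ⟨l, h1, h2, h3⟩, h4⟩, fun _ => n, fun _ => h6, by exact_mod_cast h5,
        fun i => ?_⟩
      have h9 : (x i : ℤ) = (y i : ℤ) + n • dN N d' i := congrFun h7 i
      rw [nsmul_eq_mul] at h9
      rw [h9]
      ring
  · rintro (⟨d, h1, h2⟩ | ⟨d, ⟨hv, ⟨l, h1, h2, h3⟩, h4⟩, w, hw, hw1, hx⟩)
    · left
      unfold ItE
      have : ((fun i => (x i : ℤ)) - fun i => (y i : ℤ)) = d3 d := by
        funext i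
        rw [Pi.sub_apply, h2 i]
        ring
      simp only
      rw [this]
      exact h1
    · right
      refine ⟨hv, l, w (), dN N d, h1, h2, h3, h4, by exact_mod_cast hw1, hw (), ?_⟩
      funext i
      show (x i : ℤ) = (y i : ℤ) + w () • dN N d i
      rw [nsmul_eq_mul, hx i]
      ring

theorem main (hL : AUL_Stmt) (hC : AUC_Stmt) (hF : AUF_Stmt) (hβ : 2 ≤ β) [Finite V]
    (hU : Unit1 E) (N : ℕ) (m : ℕ) : ∀ v v' : V, Au β (Fin D ⊕ Fin D) (fun L X =>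
      Piece E N (β ^ L) (N + 1) m (v, fun i => (X (Sum.inl i) : ℤ))
        (v', fun i => (X (Sum.inr i) : ℤ))) := by
  induction m with
  | zero =>
    intro v v'
    refine congr hβ (fun L X _ => ?_) (and hC hβ (cst hC hβ (v = v')) (and hC hβ
      (all hC hF hβ (fun i : Fin D => eq hL hβ (Lin.var (Sum.inl i)) (Lin.var (Sum.inr i))))
      (all hC hF hβ (fun i : Fin D => box hL hC hβ (ι := Fin D ⊕ Fin D) (Sum.inl i) (N + 1)
        (by omega)))))
    rw [piece_zero, Prod.mk.injEq]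
    unfold Bx
    constructor
    · rintro ⟨h1, h2, h3⟩
      exact ⟨⟨h1, funext h2⟩, h3⟩
    · rintro ⟨⟨h1, h2⟩, h3⟩
      exact ⟨h1, fun i => congrFun h2 i, h3⟩
  | succ m ih =>
    intro v v'
    refine congr hβ (fun L X hX => ?_) (or hC hβ (ih v v') (ex hC hF hβ (fun v₁ : V =>
      hid (κ := Fin D) hC hβ (P := fun L (Z : (Fin D ⊕ Fin D) ⊕ Fin D → ℕ) =>
        Piece E N (β ^ L) (N + 1) m (v, fun i => (Z (Sum.inl (Sum.inl i)) : ℤ))
          (v₁, fun i => (Z (Sum.inr i) : ℤ)) ∧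
        (∀ i : Fin D, (((N + 1 : ℕ) : ℕ) : ℤ) ≤ (Z (Sum.inl (Sum.inr i)) : ℤ) ∧
          (Z (Sum.inl (Sum.inr i)) : ℤ) ≤ ((β ^ L : ℕ) : ℤ) - ((N + 1 : ℕ) : ℤ)) ∧
        ((∃ d : Fin D → Fin 3, E v₁ v' (d3 d) ∧
            ∀ i, (Z (Sum.inl (Sum.inr i)) : ℤ) = Z (Sum.inr i) + d3 d i) ∨
          (∃ d : Fin D → Fin (2 * N + 1), (v' = v₁ ∧ (∃ l, 1 ≤ l ∧ l ≤ N ∧
            Wk E l v₁ v₁ (dN N d)) ∧ dN N d ≠ 0) ∧ ∃ w : Unit → ℕ, (∀ t, w t < β ^ L) ∧
            (((1 : ℕ) : ℤ) ≤ (w () : ℤ) ∧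
              ∀ i, (Z (Sum.inl (Sum.inr i)) : ℤ) = Z (Sum.inr i) + dN N d i * (w () : ℤ)))))
        (and hC hβ ?_ (and hC hβ ?_ (or hC hβ ?_ ?_))))))
    · rw [piece_succ]
      refine or_congr Iff.rfl ?_
      constructor
      · rintro ⟨v₁, y, hy, h1, h2, h3⟩
        exact ⟨(v₁, fun i => (y i : ℤ)), h1, h2, (item_iff hU N (β ^ L) v₁ v' y
          (fun i => X (Sum.inr i))).2 h3⟩
      · rintro ⟨⟨v₁, Y⟩, h1, h2, h3⟩
        have hb := piece_box h1
        obtain ⟨y, rfl⟩ : ∃ y : Fin D → ℕ, (fun i => (y i : ℤ)) = Y := by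
          refine ⟨fun i => (Y i).toNat, funext fun i => ?_⟩
          have := (hb i).1
          simp only at this ⊢
          omega
        refine ⟨v₁, y, fun i => ?_, h1, h2, (item_iff hU N (β ^ L) v₁ v' y
          (fun i => X (Sum.inr i))).1 h3⟩
        have := (hb i).2
        simp only at this
        push_cast at this
        have h4 : (y i : ℤ) < (β : ℤ) ^ L := by linarith
        exact_mod_cast h4
    · exact (hC β hβ (Fin D ⊕ Fin D)).2.2.2.2.1 ((Fin D ⊕ Fin D) ⊕ Fin D)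
        (Sum.elim (fun i => Sum.inl (Sum.inl i)) Sum.inr) _ (ih v v₁)
    · exact all hC hF hβ (fun i : Fin D => box hL hC hβ (Sum.inl (Sum.inr i)) (N + 1) (by omega))
    · refine ex hC hF hβ fun d => and hC hβ (cst hC hβ _) (all hC hF hβ fun i => ?_)
      exact eq hL hβ (Lin.var (Sum.inl (Sum.inr i))) ((Lin.var (Sum.inr i)).add (Lin.const _))
    · refine ex hC hF hβ fun d => and hC hβ (cst hC hβ _) ?_
      exact hid (κ := Unit) hC hβ (P := fun L (Z : ((Fin D ⊕ Fin D) ⊕ Fin D) ⊕ Unit → ℕ) =>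
        ((1 : ℕ) : ℤ) ≤ (Z (Sum.inr ()) : ℤ) ∧ ∀ i, (Z (Sum.inl (Sum.inl (Sum.inr i))) : ℤ) =
          Z (Sum.inl (Sum.inr i)) + dN N d i * (Z (Sum.inr ()) : ℤ))
        (and hC hβ (low hL hC hβ _ 1) (all hC hF hβ fun i => eq hL hβ (Lin.var _)
          ((Lin.var _).add ((Lin.var _).cmul _))))

end walks

end PCAx

theorem t_PCA : PCA_Stmt := fun hL hC hF _β hβ _V _ _D _E hU N m v v' =>
  PCAx.main hL hC hF hβ hU N m v v'

end Pool.Agent.NPH
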