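import Pool.Agent.NPH.StB

/-!
# SND: pieces are walks inside
-/

set_option autoImplicit false

namespace Pool.Agent.NPH

open Pool.Agent.Heads Relation

namespace SND

variable {V : Type} {D : ℕ} {E : V → V → (Fin D → ℤ) → Prop}

lemma bx_mono {lo lo' M : ℕ} (h : lo' ≤ lo) {X : Fin D → ℤ} (hX : Bx lo M X) : Bx lo' M X := by
  intro i
  obtain ⟨h1, h2⟩ := hX i
  constructor <;> omega

lemma bx_add {lo M : ℕ} {X d : Fin D → ℤ} (hd : ∀ i, |d i| ≤ 1) (hX : Bx (lo + 1) M X) :
    Bx lo M (X + d) := by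
  intro i
  obtain ⟨h1, h2⟩ := hX i
  obtain ⟨h3, h4⟩ := abs_le.1 (hd i)
  rw [Pi.add_apply]
  push_cast at h1 h2
  constructor <;> omega

/-- a walk of `l` edges from a point of the inner box -/
lemma walk (hE : Unit1 E) (M : ℕ) {l : ℕ} {v v' : V} {c : Fin D → ℤ} (h : Wk E l v v' c) :
    ∀ X : Fin D → ℤ, Bx (l + 1) M X →
      ReflTransGen (fun a b => ItE E a b ∧ Bx 1 M a.2 ∧ Bx 1 M b.2) (v, X) (v', X + c) := by
  induction h with
  | nil v =>
    intro X _
    rw [add_zero]
  | @cons l v v' v'' d c he _ ih =>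
    intro X hX
    have h1 : Bx (l + 1) M (X + d) := bx_add (hE _ _ _ he) hX
    have h2 := ih (X + d) h1
    rw [add_assoc] at h2
    refine ReflTransGen.head ⟨?_, ?_, ?_⟩ h2
    · show E v v' (X + d - X)
      rw [add_sub_cancel_left]
      exact he
    · exact bx_mono (by omega) hX
    · exact bx_mono (by omega) h1

/-- the box is convex -/
lemma convex {lo M n t : ℕ} {X d : Fin D → ℤ} (ht : t ≤ n) (h0 : Bx lo M X)
    (h1 : Bx lo M (X + n • d)) : Bx lo M (X + t • d) := by
  intro i
  obtain ⟨a1, a2⟩ := h0 i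
  obtain ⟨b1, b2⟩ := h1 i
  have e1 : (X + n • d) i = X i + n * d i := by simp
  have e2 : (X + t • d) i = X i + t * d i := by simp
  rw [e1] at b1 b2
  rw [e2]
  have htn : (t : ℤ) ≤ n := by exact_mod_cast ht
  have ht0 : (0 : ℤ) ≤ t := Int.natCast_nonneg t
  rcases le_total 0 (d i) with hd | hd
  · have c1 : 0 ≤ (t : ℤ) * d i := mul_nonneg ht0 hd
    have c2 : (t : ℤ) * d i ≤ n * d i := mul_le_mul_of_nonneg_right htn hd
    constructor <;> omega
  · have c1 : (t : ℤ) * d i ≤ 0 := mul_nonpos_of_nonneg_of_nonpos ht0 hd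
    have c2 : (n : ℤ) * d i ≤ t * d i := mul_le_mul_of_nonpos_right htn hd
    constructor <;> omega

/-- a power of a closed walk -/
lemma power (hE : Unit1 E) {N M l n : ℕ} (hl : l ≤ N) {v : V} {X d : Fin D → ℤ}
    (hw : Wk E l v v d) (h0 : Bx (N + 1) M X) (h1 : Bx (N + 1) M (X + n • d)) :
    ∀ t ≤ n, ReflTransGen (fun a b => ItE E a b ∧ Bx 1 M a.2 ∧ Bx 1 M b.2) (v, X)
      (v, X + t • d) := by
  intro t
  induction t with
  | zero =>
    intro _
    rw [zero_smul, add_zero]
  | succ t ih =>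
    intro ht
    have h2 := ih (by omega)
    have h3 : Bx (l + 1) M (X + t • d) := bx_mono (by omega) (convex (by omega) h0 h1)
    have h4 := walk hE M hw (X + t • d) h3
    have e : X + t • d + d = X + (t + 1) • d := by
      rw [succ_nsmul, add_assoc]
    rw [e] at h4
    exact h2.trans h4

end SND

theorem t_SND : SND_Stmt := by
  intro V D E hE N M m c c' h
  obtain ⟨l, s, _, h0, hl, hbx, hst⟩ := h
  have key : ∀ t ≤ l, ReflTransGen (fun a b => ItE E a b ∧ Bx 1 M a.2 ∧ Bx 1 M b.2) c (s t) := by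
    intro t
    induction t with
    | zero =>
      intro _
      rw [h0]
    | succ t ih =>
      intro ht
      refine (ih (by omega)).trans ?_
      have b1 := hbx t (by omega)
      have b2 := hbx (t + 1) ht
      rcases hst t (by omega) with h1 | h1
      · exact ReflTransGen.single ⟨h1, SND.bx_mono (by omega) b1, SND.bx_mono (by omega) b2⟩
      · obtain ⟨e1, k, n, d, _, hk, hw, _, _, _, e2⟩ := h1
        rw [e2] at b2
        have h2 := SND.power hE hk hw b1 b2 n le_rfl
        have e3 : s (t + 1) = ((s t).1, (s t).2 + n • d) := Prod.ext e1 e2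
        rw [e3]
        exact h2
  have := key l le_rfl
  rwa [hl] at this

end Pool.Agent.NPH
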