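import Pool.Agent.NPH.AUL
import Pool.Agent.NPH.AUC
import Pool.Agent.NPH.AUF
import Pool.Agent.NPH.STR
import Pool.Agent.NPH.SND
import Pool.Agent.NPH.PCA
import Pool.Agent.NPH.HMV
import Pool.Agent.NPH.ACC
import Pool.Agent.NPH.GLO
import Pool.Agent.NPH.STP
import Pool.Agent.NPH.LSY
import Pool.Agent.NPH.LWR
import Pool.Agent.NPH.LWE
import Pool.Agent.NPH.LOW

/-! Project NPH: assembly of the lower part. -/

set_option autoImplicit false

namespace Pool.Agent.NPH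

theorem lower : LOWER_Stmt :=
  t_LOW t_ACC t_LSY t_LWE (t_GLO t_HMV t_STR t_SND)
    (t_LWR t_AUL t_AUC t_AUF (t_PCA t_AUL t_AUC t_AUF) (t_STP t_AUL t_AUC t_AUF))

end Pool.Agent.NPH
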