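import Pool.Agent.NPH.StC

/-!
# Module NPH_LCL: local predicates
-/

set_option autoImplicit false

namespace Pool.Agent.NPH

open Pool.Agent.Heads Relation

theorem t_LCL : LCL_Stmt := by
  refine ⟨?_, ?_, ?_, ?_, ?_, ?_⟩
  · rintro Γ Γ' f P ⟨A, B, C, h⟩
    exact ⟨f ⁻¹' A, f ⁻¹' B, {p | (f p.1, f p.2) ∈ C}, fun n a => h n (f ∘ a)⟩
  · rintro Γ P P' ⟨A, B, C, h⟩ ⟨A', B', C', h'⟩
    refine ⟨A ∩ A', B ∩ B', C ∩ C', fun n a => (and_congr (h n a) (h' n a)).trans ?_⟩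
    constructor
    · rintro ⟨⟨h1, h2, h3⟩, h4, h5, h6⟩
      exact ⟨⟨h1, h4⟩, ⟨h2, h5⟩, fun i => ⟨h3 i, h6 i⟩⟩
    · rintro ⟨⟨h1, h4⟩, ⟨h2, h5⟩, h3⟩
      exact ⟨⟨h1, h2, fun i => (h3 i).1⟩, h4, h5, fun i => (h3 i).2⟩
  · intro Γ X
    refine ⟨X, X, {p | p.1 ∈ X ∧ p.2 ∈ X}, fun n a => ?_⟩
    constructor
    · intro h
      exact ⟨h 0, h _, fun i => ⟨h _, h _⟩⟩
    · rintro ⟨h0, -, h2⟩ i
      refine Fin.cases h0 (fun j => (h2 j).2) i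
  · intro Γ X
    exact ⟨X, Set.univ, Set.univ, fun n a => ⟨fun h => ⟨h, Set.mem_univ _, fun _ => Set.mem_univ _⟩,
      fun h => h.1⟩⟩
  · intro Γ X
    exact ⟨Set.univ, X, Set.univ, fun n a => ⟨fun h => ⟨Set.mem_univ _, h, fun _ => Set.mem_univ _⟩,
      fun h => h.2.1⟩⟩
  · intro Γ C
    exact ⟨Set.univ, Set.univ, C, fun n a => ⟨fun h => ⟨Set.mem_univ _, Set.mem_univ _, h⟩,
      fun h => h.2.2⟩⟩

end Pool.Agent.NPH
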