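import Pool.Agent.NPH.StU

/-!
# NPH, module ONE: the words of marks are in the class
-/

set_option autoImplicit false

namespace Pool.Agent.NPH

open Pool.Agent.Heads Relation

namespace ONE

theorem congr_iff {Γ : Type} {P P' : WP Γ} (h : ∀ n a, P n a ↔ P' n a) (hP' : Cc P') : Cc P := by
  obtain ⟨Δ, fin, I, R, F, hI, hR, hF, h'⟩ := hP'
  exact ⟨Δ, fin, I, R, F, hI, hR, hF, fun n a => (h n a).trans (h' n a)⟩

/-- the local predicate -/
def Q (Γ J : Type) : WP ((Γ × (J → Bool)) × (J → Bool)) := fun n z =>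
  z 0 ∈ {x : (Γ × (J → Bool)) × (J → Bool) | ∀ j, x.1.2 j = x.2 j} ∧
  z (Fin.last n) ∈ (Set.univ : Set ((Γ × (J → Bool)) × (J → Bool))) ∧
  ∀ i : Fin n, (z i.castSucc, z i.succ) ∈
    {x : ((Γ × (J → Bool)) × (J → Bool)) × ((Γ × (J → Bool)) × (J → Bool)) | ∀ j,
      (x.1.2 j = true → x.2.2 j = true) ∧
        (x.2.1.2 j = true ↔ (x.2.2 j = true ∧ x.1.2 j = false))}

theorem loc_Q (Γ J : Type) : Loc (Q Γ J) := ⟨_, _, _, fun _ _ => Iff.rfl⟩

theorem ex_v {n : ℕ} {m b : Fin (n + 1) → Bool} (h0 : m 0 = b 0)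
    (h1 : ∀ i : Fin n, (b i.castSucc = true → b i.succ = true) ∧
      (m i.succ = true ↔ (b i.succ = true ∧ b i.castSucc = false))) :
    ∃ v ≤ n + 1, ∀ i : Fin (n + 1), m i = decide (v = i.val + 1) := by
  have hmono : Monotone b := by
    rw [Fin.monotone_iff_le_succ]
    intro i
    have := (h1 i).1
    cases h2 : b i.castSucc with
    | false => exact Bool.false_le _
    | true => rw [this h2]
  by_cases hb : ∃ i, b i = true
  · obtain ⟨i0, hi0, hmin⟩ := wellFounded_lt.has_min {i | b i = true} hb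
    refine ⟨i0.val + 1, by omega, fun i => ?_⟩
    rw [Bool.eq_iff_iff, decide_eq_true_iff]
    refine Fin.cases ?_ (fun k => ?_) i
    · rw [h0]
      constructor
      · intro h
        have h3 : ¬ (0 : Fin (n + 1)) < i0 := hmin 0 h
        rw [not_lt, Fin.le_zero_iff] at h3
        rw [h3]
      · intro h
        have h3 : i0 = 0 := Fin.ext (by simpa using h)
        rw [← h3]
        exact hi0
    · rw [(h1 k).2]
      constructor
      · rintro ⟨h3, h4⟩
        have h5 : ¬ k.succ < i0 := hmin k.succ h3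
        rw [not_lt] at h5
        rcases h5.lt_or_eq with h6 | h6
        · exfalso
          have h7 : i0 ≤ k.castSucc := by
            rw [Fin.le_def]
            rw [Fin.lt_def] at h6
            simp only [Fin.val_succ, Fin.val_castSucc] at h6 ⊢
            omega
          have h8 := hmono h7
          rw [show b i0 = true from hi0, h4] at h8
          exact absurd h8 (by decide)
        · rw [h6]
      · intro h
        have h3 : i0 = k.succ := Fin.ext (by omega)
        refine ⟨h3 ▸ hi0, ?_⟩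
        by_contra h4
        rw [Bool.not_eq_false] at h4
        refine hmin k.castSucc h4 ?_
        rw [h3]
        exact Fin.castSucc_lt_succ
  · have hb' : ∀ i, b i = false := fun i => by
      by_contra h
      rw [Bool.not_eq_false] at h
      exact hb ⟨i, h⟩
    refine ⟨0, by omega, fun i => ?_⟩
    rw [Bool.eq_iff_iff, decide_eq_true_iff]
    refine Fin.cases ?_ (fun k => ?_) i
    · rw [h0, hb']
      simp
    · rw [(h1 k).2, hb']
      simp

theorem iff_Q {n : ℕ} {Γ J : Type} (w : Fin (n + 1) → Γ × (J → Bool)) :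
    (∃ v : J → ℕ, IsM (fun i => (w i).2) v) ↔
      ∃ b : Fin (n + 1) → (J → Bool), Q Γ J n (zp w b) := by
  constructor
  · rintro ⟨v, -, hw⟩
    have hw' : ∀ i j, (w i).2 j = decide (v j = i.val + 1) := fun i j =>
      congrFun (congrFun hw i) j
    refine ⟨fun i j => decide (1 ≤ v j ∧ v j ≤ i.val + 1), fun j => ?_, trivial, fun i j => ?_⟩
    · show (w 0).2 j = decide (1 ≤ v j ∧ v j ≤ (0 : Fin (n + 1)).val + 1)
      rw [hw', Bool.eq_iff_iff, decide_eq_true_iff, decide_eq_true_iff]
      simp only [Fin.val_zero]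
      omega
    · show (decide (1 ≤ v j ∧ v j ≤ i.castSucc.val + 1) = true →
          decide (1 ≤ v j ∧ v j ≤ i.succ.val + 1) = true) ∧
        ((w i.succ).2 j = true ↔ (decide (1 ≤ v j ∧ v j ≤ i.succ.val + 1) = true ∧
          decide (1 ≤ v j ∧ v j ≤ i.castSucc.val + 1) = false))
      rw [hw', decide_eq_true_iff, decide_eq_true_iff, decide_eq_true_iff, decide_eq_false_iff_not]
      simp only [Fin.val_succ, Fin.val_castSucc]
      omega
  · rintro ⟨b, hA, -, hC⟩
    have key : ∀ j, ∃ v ≤ n + 1, ∀ i : Fin (n + 1), (w i).2 j = decide (v = i.val + 1) :=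
      fun j => ex_v (m := fun i => (w i).2 j) (b := fun i => b i j) (hA j) fun i => hC i j
    choose v hv1 hv2 using key
    refine ⟨v, hv1, ?_⟩
    funext i j
    exact hv2 j i

theorem one_one (hc : Calc) (Γ J : Type) [Finite J] : Cc (Γ := Γ × (J → Bool)) fun _ w =>
    ∃ v : J → ℕ, IsM (fun i => (w i).2) v :=
  congr_iff (fun _ w => iff_Q w) (hc.ex _ (J → Bool) _ (hc.loc _ _ (loc_Q Γ J)))

end ONE

open ONE in
theorem t_ONE : ONE_Stmt := by
  intro hc
  refine ⟨fun Γ J _ => one_one hc Γ J, fun Γ J _ P hP => ?_⟩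
  unfold Dn
  refine congr_iff (fun n w => ?_) (hc.and _ _ _ (one_one hc Γ J) hP)
  constructor
  · rintro ⟨v, h1, h2⟩
    refine ⟨⟨v, h1⟩, ?_⟩
    rw [← h1.2] at h2
    exact h2
  · rintro ⟨⟨v, h1⟩, h2⟩
    refine ⟨v, h1, ?_⟩
    show P n (zp (fun i => (w i).1) (marks v))
    rw [← h1.2]
    exact h2

end Pool.Agent.NPH
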