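import Pool.Agent.NPH.StA

/-!
# NPH, module RRL: division by `β` (helper37)
-/

set_option autoImplicit false

namespace Pool.Agent.NPH

open Pool.Agent.Heads Relation

namespace RRL

variable {Λ H : Type}

/-- an action of a one-head program -/
def A1 (G : Sym (Option (Sym Λ)) → Option (Bool ⊕ H) → Prop) (d : Dir) (o : Op (Bool ⊕ H)) :
    Rl1 (Option (Sym Λ)) (Bool ⊕ H) :=
  fun w c c' => c.1 ≤ w.length + 1 ∧ G (tape w c.1) c.2.head? ∧
    c' = (move (w.length + 1) c.1 d, o.apply c.2)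

theorem real_A1 (G : Sym (Option (Sym Λ)) → Option (Bool ⊕ H) → Prop) (d : Dir)
    (o : Op (Bool ⊕ H)) : Real1 (A1 G d o) := Real1.act G d o

/-- the program that moves `n` cells to the left -/
def W (Λ H : Type) : ℕ → Rl1 (Option (Sym Λ)) (Bool ⊕ H)
  | 0 => A1 (fun _ _ => True) .S .none
  | n + 1 => fun w c c' => ∃ c₁, W Λ H n w c c₁ ∧
      A1 (fun s _ => s = .letter none) .L .none w c₁ c'

theorem real_W : ∀ n, Real1 (W Λ H n)
  | 0 => real_A1 _ _ _
  | n + 1 => Real1.seq (real_W n) (real_A1 _ _ _)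

theorem cel_le (hp : PAD_Stmt) (M : ℕ) (x : List Λ) (j P : ℕ) (hM : 1 ≤ M)
    (hj : j ≤ x.length + 1) (hP : P < M) : cel M j P ≤ (pad M x).length + 1 := by
  rw [(hp Λ M x hM).1]
  unfold cel
  have h1 : (j + 1) * M ≤ (x.length + 2) * M := Nat.mul_le_mul_right M (by omega)
  rw [Nat.succ_mul] at h1
  omega

theorem W_iff (hp : PAD_Stmt) (M : ℕ) (x : List Λ) (j P : ℕ) (hM : 1 ≤ M)
    (hj : j ≤ x.length + 1) (hP : P < M) (s : List (Bool ⊕ H)) :
    ∀ (n : ℕ) (c' : ℕ × List (Bool ⊕ H)),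
      W Λ H n (pad M x) (cel M j P, s) c' ↔ n ≤ P ∧ c' = (cel M j (P - n), s)
  | 0, c' => ⟨fun h => ⟨Nat.zero_le _, h.2.2⟩,
      fun h => ⟨cel_le hp M x j P hM hj hP, trivial, h.2⟩⟩
  | n + 1, c' => by
    constructor
    · rintro ⟨c₁, h1, h2, h3, h4⟩
      obtain ⟨h5, rfl⟩ := (W_iff hp M x j P hM hj hP s n c₁).1 h1
      have h6 := (hp Λ M x hM).2.1 j (P - n) hj (by omega)
      simp only at h3
      rw [h6] at h3
      by_cases h7 : P - n = 0
      · rw [if_pos h7] at h3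
        simp at h3
      · refine ⟨by omega, ?_⟩
        rw [h4]
        refine Prod.ext ?_ rfl
        show cel M j (P - n) - 1 = cel M j (P - (n + 1))
        unfold cel
        omega
    · rintro ⟨h1, rfl⟩
      refine ⟨(cel M j (P - n), s), (W_iff hp M x j P hM hj hP s n _).2 ⟨by omega, rfl⟩,
        cel_le hp M x j _ hM hj (by omega), ?_, ?_⟩
      · show tape (pad M x) (cel M j (P - n)) = _
        rw [(hp Λ M x hM).2.1 j (P - n) hj (by omega), if_neg (by omega)]
      · refine Prod.ext ?_ rfl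
        show cel M j (P - (n + 1)) = cel M j (P - n) - 1
        unfold cel
        omega

/-- one round: `β` cells to the left and one scratch symbol -/
def B (Λ H : Type) (β : ℕ) : Rl1 (Option (Sym Λ)) (Bool ⊕ H) :=
  fun w c c' => ∃ c₁, W Λ H β w c c₁ ∧
    A1 (fun _ _ => True) .S (.push (.inl false)) w c₁ c'

theorem B_iff (hp : PAD_Stmt) (M : ℕ) (x : List Λ) (j P : ℕ) (hM : 1 ≤ M)
    (hj : j ≤ x.length + 1) (hP : P < M) (s : List (Bool ⊕ H)) (β : ℕ)
    (c' : ℕ × List (Bool ⊕ H)) :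
    B Λ H β (pad M x) (cel M j P, s) c' ↔ β ≤ P ∧ c' = (cel M j (P - β), .inl false :: s) := by
  constructor
  · rintro ⟨c₁, h1, h2, h3, h4⟩
    obtain ⟨h5, rfl⟩ := (W_iff hp M x j P hM hj hP s β c₁).1 h1
    exact ⟨h5, h4⟩
  · rintro ⟨h1, rfl⟩
    exact ⟨(cel M j (P - β), s), (W_iff hp M x j P hM hj hP s β _).2 ⟨h1, rfl⟩,
      cel_le hp M x j _ hM hj (by omega), trivial, rfl⟩

/-- the stack after `t` rounds -/
theorem stack_succ (t : ℕ) (s : List (Bool ⊕ H)) :
    (Sum.inl false : Bool ⊕ H) :: ((List.replicate t false).map Sum.inl ++ s) =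
      (List.replicate (t + 1) false).map Sum.inl ++ s := by
  rw [List.replicate_succ, List.map_cons, List.cons_append]

theorem star_iff (hp : PAD_Stmt) (M : ℕ) (x : List Λ) (j P : ℕ) (hM : 1 ≤ M)
    (hj : j ≤ x.length + 1) (hP : P < M) (s : List (Bool ⊕ H)) (β : ℕ)
    (c' : ℕ × List (Bool ⊕ H)) :
    ReflTransGen (B Λ H β (pad M x)) (cel M j P, s) c' ↔
      ∃ t, β * t ≤ P ∧
        c' = (cel M j (P - β * t), (List.replicate t false).map Sum.inl ++ s) := by
  constructor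
  · intro h
    induction h with
    | refl => exact ⟨0, by omega, rfl⟩
    | tail _ h2 ih =>
      obtain ⟨t, h3, rfl⟩ := ih
      obtain ⟨h4, rfl⟩ := (B_iff hp M x j (P - β * t) hM hj (by omega) _ β _).1 h2
      have h5 : β * (t + 1) = β * t + β := Nat.mul_succ _ _
      refine ⟨t + 1, by omega, ?_⟩
      rw [stack_succ, h5, Nat.sub_sub]
  · rintro ⟨t, h1, rfl⟩
    induction t with
    | zero => exact ReflTransGen.refl
    | succ t ih =>
      have h5 : β * (t + 1) = β * t + β := Nat.mul_succ _ _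
      refine (ih (by omega)).tail
        ((B_iff hp M x j (P - β * t) hM hj (by omega) _ β _).2 ⟨by omega, ?_⟩)
      rw [stack_succ, h5, Nat.sub_sub]

end RRL

open RRL in
theorem t_RRL (h1 : PAD_Stmt) : RRL_Stmt := by
  intro Λ H β σ hσ
  refine ⟨fun w c c' => ∃ c₁, (∃ c₂, ReflTransGen (B Λ H β w) c c₂ ∧ W Λ H σ w c₂ c₁) ∧
    A1 (fun s _ => ∃ a, s = .letter (some a)) .S .none w c₁ c',
    Real1.seq (Real1.seq (Real1.star (Real1.seq (real_W β) (real_A1 _ _ _))) (real_W σ))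
      (real_A1 _ _ _), ?_⟩
  intro M x j P s c' hM hj hP
  constructor
  · rintro ⟨c₁, ⟨c₂, h2, h3⟩, h4, ⟨a, h5⟩, h6⟩
    obtain ⟨t, h7, rfl⟩ := (star_iff h1 M x j P hM hj hP s β c₂).1 h2
    obtain ⟨h8, rfl⟩ := (W_iff h1 M x j (P - β * t) hM hj (by omega) _ σ c₁).1 h3
    simp only at h5
    rw [(h1 Λ M x hM).2.1 j (P - β * t - σ) hj (by omega)] at h5
    have h9 : P - β * t - σ = 0 := by
      by_contra h10
      rw [if_neg h10] at h5
      simp at h5
    have h10 : P = σ + β * t := by omega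
    have h11 : P % β = σ := by
      rw [h10, Nat.add_mul_mod_self_left, Nat.mod_eq_of_lt hσ]
    have h12 : P / β = t := by
      rw [h10, Nat.add_mul_div_left _ _ (by omega), Nat.div_eq_of_lt hσ, Nat.zero_add]
    refine ⟨h11, ?_⟩
    rw [h6, h12]
    simp only [h9]
    rfl
  · rintro ⟨h2, rfl⟩
    have h3 : P = β * (P / β) + P % β := (Nat.div_add_mod P β).symm
    refine ⟨(cel M j 0, (List.replicate (P / β) false).map Sum.inl ++ s),
      ⟨(cel M j (P - β * (P / β)), (List.replicate (P / β) false).map Sum.inl ++ s),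
        (star_iff h1 M x j P hM hj hP s β _).2 ⟨P / β, by omega, rfl⟩,
        (W_iff h1 M x j (P - β * (P / β)) hM hj (by omega) _ σ _).2 ⟨by omega, ?_⟩⟩,
      cel_le h1 M x j 0 hM hj (by omega), ⟨tape x j, ?_⟩, rfl⟩
    · rw [show P - β * (P / β) - σ = 0 by omega]
    · show tape (pad M x) (cel M j 0) = _
      rw [(h1 Λ M x hM).2.1 j 0 hj (by omega), if_pos rfl]

end Pool.Agent.NPH
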