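import Pool.Agent.Lib_helper16.Heads.Defs

/-!
# Project NPH (MP_5e85fc_lc, theorem T1): definitions and the main statements

Theorem T1: for every `k ≥ 1` some language of a two-way `k`-head nondeterministic pushdown automaton
is accepted by no two-way `2k`-head nondeterministic finite automaton.

## Overview of the proof

Everything is compared with one class `InT Λ r S` of languages over `Λ`: machines with `r` two-way
reading heads on the input `x` and a memory word of length `|x| + 1` over the alphabet `Fin S`.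
In a round the machine rewrites the memory word by a finite-state sweep (letter to letter, from left to
right, nondeterministic) and then makes a step of its heads.

`pad M x`: every letter of `⊢ x ⊣` is followed by `M - 1` blanks (`none`). We use
`M = β ^ (|x| + 1)`: the offset of a head behind a letter is a number below `M`, i.e. a word of
`|x| + 1` digits in base `β`.

* `UPPER`: a `k`-head NPDA contains (on padded words) `InT Λ (2 k) S` for `4 S ≤ β ^ (2 k)`, `β` even.
* `LOWER`: a `D`-head NFA on padded words is contained in `InT Λ D (β ^ (D - 1))`.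
* If every language of a `k`-head NPDA is accepted by a `2k`-head NFA, then
  `InT Λ (2 k) S ⊆ InT Λ (2 k) (β ^ (2 k - 1))` whenever `4 S ≤ β ^ (2 k)`, `β` even, so all `InT Λ (2 k) S`
  are contained in one `InT Λ (2 k) S₀` (`COL`).
* `HIER`: this is impossible.
-/

set_option autoImplicit false

namespace Pool.Agent.NPH

open Pool.Agent.Heads Relation

/-- A nondeterministic finite-state sweep over a word, from left to right, letter to letter:
`Sweep sw q u q' v`: started in state `q` on `u` it ends in state `q'` and has replaced `u` by `v`. -/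
def Sweep {Q A B : Type} (sw : Q → A → Set (Q × B)) : Q → List A → Q → List B → Prop
  | q, [], q', v => q = q' ∧ v = []
  | q, a :: u, q', v => ∃ (p : Q) (b : B) (v' : List B), (p, b) ∈ sw q a ∧ v = b :: v' ∧
      Sweep sw p u q' v'

/-- A machine with `r` two-way reading heads on the input and a memory word over `Fin S`. -/
structure RM (Λ : Type) (r S : ℕ) where
  Q : Type
  finQ : Finite Q
  start : Q
  accept : Set Q
  blank : Fin S
  sw : Q → Fin S → Set (Q × Fin S)
  hd : Q → (Fin r → Sym Λ) → Set (Q × (Fin r → Dir))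

/-- Configurations: state, positions of the reading heads, memory word. -/
abbrev RM.Conf {Λ : Type} {r S : ℕ} (T : RM Λ r S) : Type := T.Q × (Fin r → ℕ) × List (Fin S)

/-- One round: a sweep over the memory word, then a step of the reading heads. -/
def RM.Round {Λ : Type} {r S : ℕ} (T : RM Λ r S) (x : List Λ) (c c' : T.Conf) : Prop :=
  ∃ p, Sweep T.sw c.1 c.2.2 p c'.2.2 ∧ ∃ t ∈ T.hd p (fun i => tape x (c.2.1 i)),
    c'.1 = t.1 ∧ c'.2.1 = fun i => move (x.length + 1) (c.2.1 i) (t.2 i)

/-- The initial configuration: heads on the left endmarker, memory of length `|x| + 1` blank. -/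
def RM.init {Λ : Type} {r S : ℕ} (T : RM Λ r S) (x : List Λ) : T.Conf :=
  (T.start, fun _ => 0, List.replicate (x.length + 1) T.blank)

/-- The language accepted by the machine. -/
def RM.lang {Λ : Type} {r S : ℕ} (T : RM Λ r S) : Set (List Λ) :=
  {x | ∃ c, ReflTransGen (T.Round x) (T.init x) c ∧ c.1 ∈ T.accept}

/-- The class of languages of such machines. -/
def InT (Λ : Type) (r S : ℕ) (L : Set (List Λ)) : Prop := ∃ T : RM Λ r S, T.lang = L

/-- The word `⊢ x ⊣`. -/
def brk {Λ : Type} (x : List Λ) : List (Sym Λ) := Sym.left :: (x.map Sym.letter ++ [Sym.right])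

/-- The padded word: every letter of `⊢ x ⊣` is followed by `M - 1` blanks. -/
def pad {Λ : Type} (M : ℕ) (x : List Λ) : List (Option (Sym Λ)) :=
  (brk x).flatMap fun s => some s :: List.replicate (M - 1) none

/-! ## The main statements -/

/-- UPPER: `k`-head NPDAs on padded words. -/
def UPPER_Stmt : Prop :=
  ∀ (Λ : Type) [Finite Λ] (k β S : ℕ), 1 ≤ k → Even β → 4 * S ≤ β ^ (2 * k) →
    ∀ L : Set (List Λ), InT Λ (2 * k) S L →
      ∃ M : PDA (Option (Sym Λ)) k, ∀ x : List Λ, pad (β ^ (x.length + 1)) x ∈ M.lang ↔ x ∈ L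

/-- LOWER: `D`-head NFAs on padded words. -/
def LOWER_Stmt : Prop :=
  ∀ (Λ : Type) [Finite Λ] (D β : ℕ), 1 ≤ D → 2 ≤ β → ∀ A : FA (Option (Sym Λ)) D,
    InT Λ D (β ^ (D - 1)) {x | pad (β ^ (x.length + 1)) x ∈ A.lang}

/-- HIER: the hierarchy theorem. -/
def HIER_Stmt : Prop :=
  ∀ r S : ℕ, 1 ≤ r → ∃ (Λ : Type) (_ : Finite Λ) (S' : ℕ) (L : Set (List Λ)),
    InT Λ r S' L ∧ ¬ InT Λ r S L

/-- MONO: more letters.

Proof: `Fin S` as a subset of `Fin S'` (`Fin.castLE`); on other letters the sweep has no step. -/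
def MONO_Stmt : Prop :=
  ∀ (Λ : Type) (r S S' : ℕ) (L : Set (List Λ)), S ≤ S' → InT Λ r S L → InT Λ r S' L

/-- COL: the collapse.

Proof. Let `H` be the hypothesis that every language over a finite alphabet accepted by a `k`-head
NPDA is accepted by a `2k`-head NFA. By `UPPER`, `H`, `LOWER`: if `β ≥ 2` is even, `4 * S ≤ β ^ (2 k)` and
`InT Λ (2 k) S L`, then there is an NPDA `M` with `pad _ x ∈ M.lang ↔ x ∈ L`, an NFA `A` with the same
language as `M`, and `{x | pad _ x ∈ A.lang} = L` is in `InT Λ (2 k) (β ^ (2 k - 1))`.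
Numbers: `S₀ = (8 k + 2) ^ (2 k)`. Let `S > S₀`, and let `j` be minimal with `4 S ≤ (2 j) ^ (2 k)`. Then
`j ≥ 4 k + 2` (as `(8 k + 2) ^ (2 k) < 4 S`), and `(2 j - 2) ^ (2 k) < 4 S`. Claim
`(2 j) ^ (2 k - 1) < S`: it is enough that `4 (2 j) ^ (2 k - 1) ≤ (2 j - 2) ^ (2 k)`, i.e.
`2 j ^ (2 k - 1) ≤ (j - 1) ^ (2 k)`. By Bernoulli `(1 - 1 / j) ^ (2 k - 1) ≥ 1 - (2 k - 1) / j ≥ 1 / 2`, so
`j ^ (2 k - 1) ≤ 2 (j - 1) ^ (2 k - 1)`, and `j - 1 ≥ 4`.
So by strong induction on `S`: `InT Λ (2 k) S L → InT Λ (2 k) S₀ L` (`MONO` for `S ≤ S₀`; otherwise pass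
from `S` to `β ^ (2 k - 1) < S`, `β = 2 j`). -/
def COL_Stmt : Prop :=
  UPPER_Stmt → LOWER_Stmt → MONO_Stmt → ∀ k : ℕ, 1 ≤ k →
    (∀ (α : Type) [Finite α] (M : PDA α k), ∃ A : FA α (2 * k), A.lang = M.lang) →
    ∃ S₀ : ℕ, ∀ (Λ : Type) [Finite Λ] (S : ℕ) (L : Set (List Λ)),
      InT Λ (2 * k) S L → InT Λ (2 * k) S₀ L

/-- TRP: transport along a bijection of the alphabets.

Proof. `List.map e`; `tape (w.map e) p` is the image of `tape w p` under the bijection of `Sym`. The
automaton over `β'` has the same states, and `δ` is composed with the inverse bijection. The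
computations are the same. -/
def TRP_Stmt : Prop :=
  ∀ (α α' : Type) (e : α ≃ α') (k : ℕ),
    (∀ M : PDA α k, ∃ M' : PDA α' k, M'.lang = (List.map e) '' M.lang) ∧
    (∀ A : FA α' k, ∃ A' : FA α k, A'.lang = {w | w.map e ∈ A.lang})

/-- **T1.** -/
def T1_Stmt : Prop :=
  ∀ k : ℕ, 1 ≤ k → ∃ (a : ℕ) (M : PDA (Fin a) k), ∀ A : FA (Fin a) (2 * k), A.lang ≠ M.lang

/-- TOP: the assembly.

Proof. If T1 fails for `k`, then for all `a` every `M : PDA (Fin a) k` has an `A : FA (Fin a) (2 k)` with
the same language; by `TRP` (a finite type is equivalent to some `Fin a`) the hypothesis of `COL` holds.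
`HIER` for `r = 2 k`, `S = S₀` contradicts `COL`. -/
def TOP_Stmt : Prop := COL_Stmt → UPPER_Stmt → LOWER_Stmt → MONO_Stmt → HIER_Stmt → TRP_Stmt → T1_Stmt

end Pool.Agent.NPH
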