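import Pool.Agent.NPH.St0

/-!
# Project NPH, part B: `LOWER`, a `D`-head finite automaton on padded words needs `D - 1` registers

`D = E + 1`. A configuration of the automaton on `pad M x` is given by the zone `j i` (the letter of
`⊢ x ⊣` at or to the left of head `i`) and the offset `P i`, `0 ≤ P i < M`, of every head; the two
endmarkers of the tape are `(j, P) = (0, -1)` and `(|x| + 1, M)`.
If all offsets are between `1` and `M - 1`, all heads scan blanks: the automaton moves blindly.
`STR`: a blind walk in a box can be replaced by one that consists of pieces, each with a bounded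
number of items (an edge or a power of a short closed walk), all joints of pieces being near the
boundary of the box. So only configurations with one offset near `0` or `M` have to be stored: `E`
numbers below `M = β ^ L`, `L = |x| + 1`, i.e. one memory word over `Fin E → Fin β`. The relation
`piece from c to c'` is a finite disjunction of systems of linear equations and is checked digit by
digit (`AUL`, `AUC`, `PCA`).
-/

set_option autoImplicit false

namespace Pool.Agent.NPH

open Pool.Agent.Heads Relation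

/-! ## 1. Recognisable sets of words, numbers digit by digit -/

/-- Runs of a nondeterministic finite automaton. -/
def Runs {Q A : Type} (δ : Q → A → Set Q) : Q → List A → Q → Prop
  | q, [], q' => q = q'
  | q, a :: u, q' => ∃ p ∈ δ q a, Runs δ p u q'

/-- Recognisable sets of words. -/
def Rec {A : Type} (P : List A → Prop) : Prop :=
  ∃ (Q : Type) (_ : Finite Q) (s : Q) (F : Set Q) (δ : Q → A → Set Q),
    ∀ v, P v ↔ ∃ q ∈ F, Runs δ s v q

/-- The numbers with the digits `v` in base `β`, the first letter is the least significant digit. -/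
def dval {ι : Type} (β : ℕ) (v : List (ι → Fin β)) (i : ι) : ℕ :=
  Nat.ofDigits β (v.map fun d => (d i : ℕ))

/-- Relations between numbers below `β ^ L` (and `L`) that are checked digit by digit. -/
def Au (β : ℕ) (ι : Type) (P : ℕ → (ι → ℕ) → Prop) : Prop :=
  Rec (fun v : List (ι → Fin β) => P v.length (dval β v))

/-- AUL: linear equations.

Proof. The states are the carries: integers `c` with `|c| ≤ C`, `C = |g| + |h| + β * ∑ |a i|`, start `g`,
final state `h`; step `c → c'` with the digits `d` iff `c + ∑ a i * d i = β * c'`. Induction on `v`: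
`c` leads to `c'` along `v` iff `c + ∑ a i * dval β v i = c' * β ^ |v|`; and carries stay bounded:
`|c'| ≤ (|c| + β ∑ |a i|) / β ≤ C` as `β ≥ 2`. (Uniqueness: the carries are determined, and if the
equation holds for the whole word then at each step the sum is divisible by `β`: remainders.) -/
def AUL_Stmt : Prop :=
  ∀ (β : ℕ), 2 ≤ β → ∀ (ι : Type) [Fintype ι] (a : ι → ℤ) (g h : ℤ),
    Au β ι (fun L X => ∑ i, a i * (X i : ℤ) + g = h * (β : ℤ) ^ L)

/-- AUC: closure properties.

Proof. (1), (2) product automaton, disjoint union of automata (new start state, or a pair of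
runs). (3) no and all words. (4) relabelling of letters: `v.map (fun d => d ∘ f)`. (5) projection:
the automaton guesses the digits of the hidden number (`Nat.ofDigits` is a bijection from the lists of
`L` digits to the numbers below `β ^ L`, `β ≥ 2`). -/
def AUC_Stmt : Prop :=
  ∀ (β : ℕ), 2 ≤ β → ∀ (ι : Type),
    (∀ P P' : ℕ → (ι → ℕ) → Prop, Au β ι P → Au β ι P' → Au β ι (fun L X => P L X ∧ P' L X)) ∧
    (∀ P P' : ℕ → (ι → ℕ) → Prop, Au β ι P → Au β ι P' → Au β ι (fun L X => P L X ∨ P' L X)) ∧
    Au β ι (fun _ _ => False) ∧ Au β ι (fun _ _ => True) ∧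
    (∀ (ι' : Type) (f : ι → ι') (P : ℕ → (ι → ℕ) → Prop), Au β ι P →
      Au β ι' (fun L X => P L (X ∘ f))) ∧
    (∀ (κ : Type) [Finite κ] (P : ℕ → (ι ⊕ κ → ℕ) → Prop), Au β (ι ⊕ κ) P →
      Au β ι (fun L X => ∃ w : κ → ℕ, (∀ t, w t < β ^ L) ∧ P L (Sum.elim X w)))

/-- AUF: finite conjunctions and disjunctions. Proof: induction on the finite type (`AUC`). -/
def AUF_Stmt : Prop := AUC_Stmt →
  ∀ (β : ℕ), 2 ≤ β → ∀ (ι κ : Type) [Finite κ] (P : κ → ℕ → (ι → ℕ) → Prop),
    (∀ t, Au β ι (P t)) →
    Au β ι (fun L X => ∀ t, P t L X) ∧ Au β ι (fun L X => ∃ t, P t L X)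

/-! ## 2. Walks in a box -/

section Walks

variable {V : Type} {D : ℕ} (E : V → V → (Fin D → ℤ) → Prop)

/-- `Wk E l v v' c`: a walk of `l` edges from `v` to `v'` with sum of the displacements `c`. -/
inductive Wk : ℕ → V → V → (Fin D → ℤ) → Prop
  | nil (v : V) : Wk 0 v v 0
  | cons {l : ℕ} {v v' v'' : V} {d c : Fin D → ℤ} :
      E v v' d → Wk l v' v'' c → Wk (l + 1) v v'' (d + c)

/-- One edge. -/
def ItE (c c' : V × (Fin D → ℤ)) : Prop := E c.1 c'.1 (c'.2 - c.2)

/-- A power of a closed walk of length at most `N`. -/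
def ItP (N M : ℕ) (c c' : V × (Fin D → ℤ)) : Prop :=
  c'.1 = c.1 ∧ ∃ (l n : ℕ) (d : Fin D → ℤ), 1 ≤ l ∧ l ≤ N ∧ Wk E l c.1 c.1 d ∧ d ≠ 0 ∧
    1 ≤ n ∧ n < M ∧ c'.2 = c.2 + n • d

/-- The box. -/
def Bx (lo M : ℕ) (X : Fin D → ℤ) : Prop := ∀ i, (lo : ℤ) ≤ X i ∧ X i ≤ (M : ℤ) - lo

/-- Pieces: chains of at most `m` items with all vertices in the box. -/
def Piece (N M lo m : ℕ) (c c' : V × (Fin D → ℤ)) : Prop :=
  ∃ (l : ℕ) (s : ℕ → V × (Fin D → ℤ)), l ≤ m ∧ s 0 = c ∧ s l = c' ∧
    (∀ t ≤ l, Bx lo M (s t).2) ∧ ∀ t < l, ItE E (s t) (s (t + 1)) ∨ ItP E N M (s t) (s (t + 1))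

end Walks

/-- All displacements of edges have coordinates in `{-1, 0, 1}`. -/
def Unit1 {V : Type} {D : ℕ} (E : V → V → (Fin D → ℤ) → Prop) : Prop :=
  ∀ v v' d, E v v' d → ∀ i, |d i| ≤ 1

/-- STR: walks in a box as chains of pieces.

Proof. `N = card V`, `lo = N + 1`; a vertex is near if some coordinate is `< 2N + 1` or
`> M - (2N + 1)`. Representations of walks from `c` to `c'`: lists of items (edges `(v, d, v')`, powers
`(v, d) ^ n`, `n ≥ 1`, of closed walks of length `≤ N` at `v` with displacement `d ≠ 0`) with ALL vertices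
`X_0, X_1, …` in the box `Bx (N + 1) M`. The given walk is one. Choose a representation with
`(number of items, number of single edges, ∑ (index of the item) * n over the powers)` minimal in the
lexicographic order.
(a) Two powers `i < j` with the same `(v, d)` such that no vertex `X_i, …, X_(j-1)` between them (after
item `i`, before item `j`) is near: replace `n_i` by `n_i + 1` and `n_j` by `n_j - 1` (delete item `j` if
`n_j = 1`). The vertices between are moved by `d`, `|d| ≤ N`, and stay in the box; the others do not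
change. The measure decreases. Impossible.
(b) Consecutive single edges: if a state is repeated within `N` consecutive single edges
(pigeonhole: always if there are `N` of them in a row: `N + 1` states), the closed part between is a
closed walk of length `l ≤ N`: if its displacement is `0` delete it; otherwise replace it by the power
with exponent `1`. The number of items decreases, or (`l = 1`) it stays the same and the number of
single edges decreases. So there are at most `N - 1` consecutive single edges (the vertices kept are old vertices,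
they are in the box).
(c) Hence between two consecutive near vertices (or the ends) there are at most `F` powers, `F` = number
of pairs `(v, d)`, `|d i| ≤ N`, `F ≤ N * (2N + 1) ^ D`, and at most `(F + 1) * N` single edges:
`m₀ = (F + 1) * (N + 1)`.
(d) `n < M` : `d i ≠ 0` for some `i`, and `n ≤ |n d i| ≤ M - 2(N + 1) < M` because both vertices of the
power are in the box. (`M` can be so small that the box is empty: then there is nothing to prove; if
`M < 2(N+1)` the box is empty unless `D = 0`; for `D = 0` all `d = 0`, there are no powers.)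
Now cut at the near vertices. -/
def STR_Stmt : Prop :=
  ∀ (V : Type) [Finite V] (D : ℕ) (E : V → V → (Fin D → ℤ) → Prop), Unit1 E →
    ∃ m₀ : ℕ, ∀ (M : ℕ) (c c' : V × (Fin D → ℤ)), Bx (Nat.card V + 1) M c.2 →
      ReflTransGen (fun a b => ItE E a b ∧ Bx (Nat.card V + 1) M b.2) c c' →
      ReflTransGen (fun a b => Piece E (Nat.card V) M (Nat.card V + 1) m₀ a b ∧
        ((∃ i, b.2 i < 2 * Nat.card V + 1 ∨ (M : ℤ) - (2 * Nat.card V + 1) < b.2 i) ∨ b = c')) c c'

/-- SND: pieces are walks inside.

Proof. An edge between vertices of the box is a step. A power `(v, d) ^ n` from `X` to `X + n d`, both in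
`Bx (N + 1) M`: repeat the closed walk `n` times; the points `X + t d`, `0 ≤ t ≤ n`, are in the box
(convexity, coordinate by coordinate), and the points in between differ from one of them by at most
`l ≤ N` in each coordinate (unit steps), so they are in `Bx 1 M`. -/
def SND_Stmt : Prop :=
  ∀ (V : Type) (D : ℕ) (E : V → V → (Fin D → ℤ) → Prop), Unit1 E →
    ∀ (N M m : ℕ) (c c' : V × (Fin D → ℤ)), Piece E N M (N + 1) m c c' →
      ReflTransGen (fun a b => ItE E a b ∧ Bx 1 M a.2 ∧ Bx 1 M b.2) c c'

/-- PCA: pieces are recognised digit by digit.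

Proof. Induction on `m`. `m = 0`: `v = v'`, equality of the vectors and the box conditions: linear
(`X ≤ Y` is `∃ w < β ^ L, X + w = Y`; `lo ≤ X`: `∃ w, X = w + lo`, `X + lo ≤ β ^ L`:
`∃ w, X + lo + w = β ^ L`, with `w < β ^ L` if `lo ≥ 1`). `m + 1`: a piece with at most `m` items, or, for some state
`v₁`, there is a vector `Y : Fin D → ℕ` with entries below `β ^ L` (its integer coordinates are in the
box, so they are natural numbers `< β ^ L`) such that there is a piece with at most `m` items
from `(v, X)` to `(v₁, Y)` and an item from `(v₁, Y)` to `(v', X')`, `X'` in the box: for an edge one of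
finitely many displacements `d` with `E v₁ v' d` (`d i ∈ {-1, 0, 1}`) and `X' = Y + d`; for a power:
`v' = v₁`, one of finitely many `d ≠ 0` (`|d i| ≤ N`) with a closed walk of length `≤ N`, and a hidden number
`n < β ^ L`, `1 ≤ n`, `X' i = Y i + n * d i` (linear in the hidden `n` with the coefficient `d i`).
`AUL`, `AUC`, `AUF`. -/
def PCA_Stmt : Prop := AUL_Stmt → AUC_Stmt → AUF_Stmt →
  ∀ (β : ℕ), 2 ≤ β → ∀ (V : Type) [Finite V] (D : ℕ) (E : V → V → (Fin D → ℤ) → Prop), Unit1 E →
    ∀ (N m : ℕ) (v v' : V), Au β (Fin D ⊕ Fin D) (fun L X =>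
      Piece E N (β ^ L) (N + 1) m (v, fun i => (X (Sum.inl i) : ℤ)) (v', fun i => (X (Sum.inr i) : ℤ)))

/-! ## 3. The automaton on padded words -/

section Heads

variable {Λ : Type}

/-- The cell with offset `P` in zone `j`. -/
def ps (M j : ℕ) (P : ℤ) : ℕ := (1 + (j : ℤ) * M + P).toNat

/-- The valid pairs (zone, offset); `Z = |x| + 1` is the last zone. -/
def VP (M Z j : ℕ) (P : ℤ) : Prop :=
  (0 ≤ P ∧ P < M ∧ j ≤ Z) ∨ (P = -1 ∧ j = 0) ∨ (P = M ∧ j = Z)

open Classical in
/-- The symbol scanned with offset `P`, when the letter of the zone is `s`. -/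
noncomputable def lsym (M : ℕ) (s : Sym Λ) (P : ℤ) : Sym (Option (Sym Λ)) :=
  if P = -1 then Sym.left else if P = M then Sym.right
  else if P = 0 then Sym.letter (some s) else Sym.letter none

open Classical in
/-- The move of one head: the move of the zone and the new offset, when the letter of the zone is
`s`. -/
noncomputable def lmv (M : ℕ) (s : Sym Λ) (P : ℤ) : Dir → Dir × ℤ
  | Dir.S => (Dir.S, P)
  | Dir.L => if P = -1 then (Dir.S, P) else if P = 0 then
      (if s = Sym.left then (Dir.S, -1) else (Dir.L, M - 1)) else (Dir.S, P - 1)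
  | Dir.R => if P = M then (Dir.S, P) else if P = M - 1 then
      (if s = Sym.right then (Dir.S, (M : ℤ)) else (Dir.R, 0)) else (Dir.S, P + 1)

/-- HMV: one head on the padded word.

Proof. `pad M x` has length `(|x| + 2) * M`; its letter with index `j * M + P`, `0 ≤ P < M`, is
`some (tape x j)` for `P = 0` (the `j`-th letter of `brk x`) and `none` otherwise. Cell `0` is the left
endmarker, the cell `(|x| + 2) * M + 1 = ps M (|x| + 1) M` the right one. `tape x j` is `left` iff `j = 0`,
and for `j ≤ |x| + 1` it is `right` iff `j = |x| + 1`. Then case distinction. -/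
def HMV_Stmt : Prop :=
  ∀ (Λ : Type) (M : ℕ), 2 ≤ M → ∀ (x : List Λ),
    (∀ (j : ℕ) (P : ℤ), VP M (x.length + 1) j P →
      tape (pad M x) (ps M j P) = lsym M (tape x j) P ∧
      ∀ d : Dir, move ((pad M x).length + 1) (ps M j P) d =
          ps M (move (x.length + 1) j (lmv M (tape x j) P d).1) (lmv M (tape x j) P d).2 ∧
        VP M (x.length + 1) (move (x.length + 1) j (lmv M (tape x j) P d).1)
          (lmv M (tape x j) P d).2) ∧
    (∀ (j j' : ℕ) (P P' : ℤ), VP M (x.length + 1) j P → VP M (x.length + 1) j' P' →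
      ps M j P = ps M j' P' → j = j' ∧ P = P')

/-- ACC: acceptance with head `0` on the left endmarker.

Proof. New states: from an accepting state the automaton moves head `0` to the left until it scans
the left endmarker, and then enters the new accepting state. -/
def ACC_Stmt : Prop :=
  ∀ (α : Type) (D : ℕ) (A : FA α (D + 1)), ∃ A' : FA α (D + 1), A'.lang = A.lang ∧
    ∀ w c, ReflTransGen (A'.Step w) (A'.start, fun _ => 0) c → c.1 ∈ A'.accept → c.2 0 = 0

variable {D : ℕ} (A : FA (Option (Sym Λ)) D)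

/-- Configurations: state, zones, offsets. -/
abbrev FC : Type := A.Q × (Fin D → ℕ) × (Fin D → ℤ)

/-- The displacement of a move. -/
def dz : Dir → ℤ
  | Dir.L => -1
  | Dir.S => 0
  | Dir.R => 1

/-- The blind moves of the automaton. -/
def Bl (q q' : A.Q) (d : Fin D → ℤ) : Prop :=
  ∃ t ∈ A.δ q (fun _ => Sym.letter none), t.1 = q' ∧ ∀ i, d i = dz (t.2 i)

/-- One step of the automaton, in terms of zones and offsets. -/
def SL (M : ℕ) (x : List Λ) (c c' : FC A) : Prop :=
  ∃ t ∈ A.δ c.1 (fun i => lsym M (tape x (c.2.1 i)) (c.2.2 i)), c'.1 = t.1 ∧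
    (∀ i, c'.2.1 i = move (x.length + 1) (c.2.1 i) (lmv M (tape x (c.2.1 i)) (c.2.2 i) (t.2 i)).1) ∧
    ∀ i, c'.2.2 i = (lmv M (tape x (c.2.1 i)) (c.2.2 i) (t.2 i)).2

/-- Some offset is near `0` or `M`. -/
def Stor (M : ℕ) (P : Fin D → ℤ) : Prop :=
  ∃ i, P i ≤ 2 * Nat.card A.Q + 1 ∨ (M : ℤ) - (2 * Nat.card A.Q + 1) ≤ P i

/-- Links between configurations that are stored: a step or a piece. -/
def LK (M m : ℕ) (x : List Λ) (c c' : FC A) : Prop :=
  Stor A M c.2.2 ∧ Stor A M c'.2.2 ∧ (SL A M x c c' ∨ (c'.2.1 = c.2.1 ∧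
    Piece (Bl A) (Nat.card A.Q) M (Nat.card A.Q + 1) m (c.1, c.2.2) (c'.1, c'.2.2)))

end Heads

/-- GLO: acceptance by chains of links.

Proof. `B = 2N + 1`, `N = card Q`, `m = m₀` from `STR` for `V = A.Q`, `E = Bl A`. Let `real c` be the
configuration of `A` with the cells `ps M (j i) (P i)`; `real` of the start is the initial configuration
(`ps M 0 (-1) = 0`). For valid `c` (`VP` for every head), `SL c c'` iff `A.Step (real c) (real c')` with
`c'` valid (`HMV`).
(←) `SL` is a step. A piece is a walk of blind moves with all offsets between `1` and `M - 1`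
(`SND`, `c` and `c'` have offsets in the box): there `lsym = letter none` and, as the new offset is also
between `1` and `M - 1`, `lmv` is `(S, P + dz d)`: each edge is an `SL` step with the same zones.
(→) Let `c₀, …, c_T` be an accepting run, all valid; `c₀` and `c_T` are stored (`P 0 = -1`:
`hacc`; `ps M j P = 0` only for `(0, -1)`). Induction on `T`: let `t ≥ 1` be the first index with `c_t`
stored. If `t = 1` it is a link. If `t > 1`, the offsets of `c₁, …, c_(t-1)` are strictly between `B`
and `M - B`, so those of `c₀` and `c_t` are between `B` and `M - B` (a move changes an offset by at most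
one, there is no change of zone there), all heads scan blanks at the times `0, …, t - 1`
(`1 ≤ B`, `M - B ≤ M - 1`) and the
zones do not change: a walk of `Bl A` with all vertices in `Bx B M ⊆ Bx (N + 1) M`. By `STR` it is replaced
by a chain of pieces, whose joints are near, i.e. stored; `c_t` is stored. -/
def GLO_Stmt : Prop := HMV_Stmt → STR_Stmt → SND_Stmt →
  ∀ (Λ : Type) (D : ℕ) (A : FA (Option (Sym Λ)) (D + 1)),
    (∀ w c, ReflTransGen (A.Step w) (A.start, fun _ => 0) c → c.1 ∈ A.accept → c.2 0 = 0) →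
    ∃ m : ℕ, ∀ (M : ℕ), 2 ≤ M → ∀ (x : List Λ),
      (pad M x ∈ A.lang ↔ ∃ c : FC A, ReflTransGen (LK A M m x) (A.start, fun _ => 0, fun _ => -1) c ∧
        c.1 ∈ A.accept) ∧
      ∀ c : FC A, ReflTransGen (LK A M m x) (A.start, fun _ => 0, fun _ => -1) c →
        ∀ i, VP M (x.length + 1) (c.2.1 i) (c.2.2 i)

/-! ## 4. The machine -/

/-- The offset of a head with flag `f`: `0`: the number `X`; `1`: left endmarker; `2`: right
endmarker. -/
def pv (M : ℕ) (f : Fin 3) (X : ℕ) : ℤ := if f = 0 then (X : ℤ) else if f = 1 then -1 else M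

/-- STP: single steps are recognised digit by digit. `s i`: letter of the zone of head `i`, `m i` the
move of the zone.

Proof. Finite disjunction over the transitions `t` (a move `t.2` for every head: finitely many), and for
each head over the cases `X i = 0`, `1 ≤ X i ≤ M - 2`, `X i = M - 1` (if the flag is `0`): in each case
`lsym` is known and `lmv` gives `m i` and `X' i = X i + e`, `X' i = 0`, `X' i = M - 1` or a flag: linear
equations with `M = β ^ L` (`X + 1 = β ^ L`, and so on; `1 ≤ X` is `∃ w < β ^ L, X = w + 1`). `1 ≤ L` is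
`∃ w < β ^ L, w = 1`; it gives `M ≥ 2`. `AUL`, `AUC`, `AUF`. -/
def STP_Stmt : Prop := AUL_Stmt → AUC_Stmt → AUF_Stmt →
  ∀ (β : ℕ), 2 ≤ β → ∀ (Λ : Type) [Finite Λ] (D : ℕ) (A : FA (Option (Sym Λ)) D) (q q' : A.Q)
    (f f' : Fin D → Fin 3) (s : Fin D → Sym Λ) (m : Fin D → Dir),
    Au β (Fin D ⊕ Fin D) (fun L X => 1 ≤ L ∧
      ∃ t ∈ A.δ q (fun i => lsym (β ^ L) (s i) (pv (β ^ L) (f i) (X (Sum.inl i)))), q' = t.1 ∧
        ∀ i, (m i, pv (β ^ L) (f' i) (X (Sum.inr i))) =
          lmv (β ^ L) (s i) (pv (β ^ L) (f i) (X (Sum.inl i))) (t.2 i))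

/-- A link system: node types, shapes of links; the memory words are over `W`. -/
structure LSys (Λ : Type) (r : ℕ) (W : Type) where
  N : Type
  H : Type
  finN : Finite N
  finH : Finite H
  start : N
  accept : Set N
  blank : W
  src : H → N
  tgt : H → N
  rd : H → Set (Fin r → Sym Λ)
  mv : H → Fin r → Dir
  rel : H → List (W × W) → Prop
  hrel : ∀ h, Rec (rel h)

/-- One link of a link system, between triples (node, positions of the reading heads, memory). -/
def LSys.Link {Λ : Type} {r : ℕ} {W : Type} (T : LSys Λ r W) (x : List Λ)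
    (c c' : T.N × (Fin r → ℕ) × List W) : Prop :=
  ∃ h : T.H, T.src h = c.1 ∧ T.tgt h = c'.1 ∧ (fun i => tape x (c.2.1 i)) ∈ T.rd h ∧
    c'.2.1 = (fun i => move (x.length + 1) (c.2.1 i) (T.mv h i)) ∧
    c'.2.2.length = c.2.2.length ∧ T.rel h (c.2.2.zip c'.2.2)

/-- The language of a link system. -/
def LSys.lang {Λ : Type} {r : ℕ} {W : Type} (T : LSys Λ r W) : Set (List Λ) :=
  {x | ∃ c, ReflTransGen (T.Link x) (T.start, fun _ => 0, List.replicate (x.length + 1) T.blank) c ∧
    c.1 ∈ T.accept}

/-- LSY: link systems are machines.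

Proof. `W` is finite; an injection of `W` into `Fin S`. States: node types, and pairs (shape `h`, state of the
automaton of `rel h`). The sweep starts in a node `n`; with the first letter it chooses a shape
`h` with `src h = n` and makes the first step of the automaton of `rel h` on the pair (old letter, new
letter), and so on. At the end in the state `(h, q)`, `q` final, the head step: if the scanned symbols are
in `rd h`, move by `mv h`, new state `tgt h`. (The memory has `|x| + 1 ≥ 1` letters.) One round is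
one link. -/
def LSY_Stmt : Prop :=
  ∀ (Λ : Type) (r S : ℕ) (W : Type) [Finite W] (T : LSys Λ r W), Nat.card W ≤ S →
    InT Λ r S T.lang

section Low

variable {Λ : Type} {D : ℕ} (A : FA (Option (Sym Λ)) (D + 1))

/-- Node types: state, flags of the heads, the head whose offset is not in the memory, the side, and
its distance. -/
abbrev Nd : Type :=
  A.Q × (Fin (D + 1) → Fin 3) × Fin (D + 1) × Bool × Fin (2 * Nat.card A.Q + 2)

/-- The numbers `X` given by a node and a memory word `u` (`M = β ^ L`). -/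
def Dec (β : ℕ) (ν : Nd A) (u : List (Fin D → Fin β)) (X : Fin (D + 1) → ℕ) : Prop :=
  (∀ t : Fin D, X (ν.2.2.1.succAbove t) = dval β u t) ∧ X ν.2.2.1 < β ^ u.length ∧
    ((ν.2.1 ν.2.2.1 ≠ 0 ∧ X ν.2.2.1 = 0) ∨
      (ν.2.1 ν.2.2.1 = 0 ∧ ν.2.2.2.1 = false ∧ X ν.2.2.1 = ν.2.2.2.2) ∨
      (ν.2.1 ν.2.2.1 = 0 ∧ ν.2.2.2.1 = true ∧ X ν.2.2.1 + ν.2.2.2.2 = β ^ u.length))

/-- The relation of a step between memory words (`v` is the word of pairs of letters). -/
def RStep (β : ℕ) (ν ν' : Nd A) (s : Fin (D + 1) → Sym Λ) (m : Fin (D + 1) → Dir)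
    (v : List ((Fin D → Fin β) × (Fin D → Fin β))) : Prop :=
  ∃ X X' : Fin (D + 1) → ℕ, Dec A β ν (v.map Prod.fst) X ∧ Dec A β ν' (v.map Prod.snd) X' ∧
    1 ≤ v.length ∧ ∃ t ∈ A.δ ν.1 (fun i => lsym (β ^ v.length) (s i) (pv (β ^ v.length) (ν.2.1 i) (X i))),
      ν'.1 = t.1 ∧ ∀ i, (m i, pv (β ^ v.length) (ν'.2.1 i) (X' i)) =
        lmv (β ^ v.length) (s i) (pv (β ^ v.length) (ν.2.1 i) (X i)) (t.2 i)

/-- The relation of a piece between memory words. -/
def RPiece (β m₀ : ℕ) (ν ν' : Nd A) (v : List ((Fin D → Fin β) × (Fin D → Fin β))) : Prop :=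
  (∀ i, ν.2.1 i = 0) ∧ (∀ i, ν'.2.1 i = 0) ∧
    ∃ X X' : Fin (D + 1) → ℕ, Dec A β ν (v.map Prod.fst) X ∧ Dec A β ν' (v.map Prod.snd) X' ∧
      Piece (Bl A) (Nat.card A.Q) (β ^ v.length) (Nat.card A.Q + 1) m₀
        (ν.1, fun i => (X i : ℤ)) (ν'.1, fun i => (X' i : ℤ))

/-- The link system. -/
noncomputable def lowSys (β m₀ : ℕ) (hβ : 0 < β) [Finite Λ]
    (h1 : ∀ ν ν' s m, Rec (RStep A β ν ν' s m)) (h2 : ∀ ν ν', Rec (RPiece A β m₀ ν ν')) :
    LSys Λ (D + 1) (Fin D → Fin β) where
  N := Nd A
  H := (Nd A × Nd A) × (((Fin (D + 1) → Sym Λ) × (Fin (D + 1) → Dir)) × Bool)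
  finN := by
    have := A.finQ
    infer_instance
  finH := by
    have := A.finQ
    have h3 : Finite Dir := Finite.of_surjective
      (fun i : Fin 3 => if i = 0 then Dir.L else if i = 1 then Dir.S else Dir.R)
      (by rintro (_ | _ | _); exacts [⟨0, rfl⟩, ⟨1, rfl⟩, ⟨2, rfl⟩])
    have h4 : Finite (Sym Λ) := Finite.of_surjective
      (fun i : Option (Option Λ) => match i with
        | none => Sym.left
        | some none => Sym.right
        | some (some a) => Sym.letter a)
      (by rintro (_ | a | _); exacts [⟨none, rfl⟩, ⟨some (some a), rfl⟩, ⟨some none, rfl⟩])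
    infer_instance
  start := (A.start, fun _ => 1, 0, false, 0)
  accept := {ν | ν.1 ∈ A.accept}
  blank := fun _ => ⟨0, hβ⟩
  src := fun h => h.1.1
  tgt := fun h => h.1.2
  rd := fun h => {s | s = h.2.1.1}
  mv := fun h => h.2.1.2
  rel := fun h v => if h.2.2 then RStep A β h.1.1 h.1.2 h.2.1.1 h.2.1.2 v
    else RPiece A β m₀ h.1.1 h.1.2 v ∧ ∀ i, h.2.1.2 i = Dir.S
  hrel := by
    intro h
    by_cases h3 : h.2.2
    · simpa [h3] using h1 h.1.1 h.1.2 h.2.1.1 h.2.1.2
    · by_cases h4 : ∀ i, h.2.1.2 i = Dir.S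
      · simpa [h3, h4] using h2 h.1.1 h.1.2
      · refine ⟨Unit, inferInstance, (), ∅, fun _ _ => ∅, fun v => ?_⟩
        simp [h3, h4]

end Low

/-- LWR: the relations of the link system are recognisable.

Proof. `Dec`: the numbers `X i₀`, `X' i₀'` are hidden numbers `< β ^ L`, with one of three linear
equations (which one depends only on the node), the other `X i` are the numbers given by the
letters. So the relation is obtained from `STP`, resp. `PCA` (with all `D + 1` offsets of both sides as
variables) by a relabelling of the variables and `AUC` (5) with `κ` of two elements; the variables are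
`Fin D ⊕ Fin D`, and the letters `(d, d')` correspond to `Sum.elim d d'` (a `Rec` set is transported by a
map of letters: `fun v => P (v.map g)`). -/
def LWR_Stmt : Prop := AUL_Stmt → AUC_Stmt → AUF_Stmt →
  (∀ (β : ℕ), 2 ≤ β → ∀ (V : Type) [Finite V] (D : ℕ) (E : V → V → (Fin D → ℤ) → Prop), Unit1 E →
    ∀ (N m : ℕ) (v v' : V), Au β (Fin D ⊕ Fin D) (fun L X =>
      Piece E N (β ^ L) (N + 1) m (v, fun i => (X (Sum.inl i) : ℤ))
        (v', fun i => (X (Sum.inr i) : ℤ)))) →
  (∀ (β : ℕ), 2 ≤ β → ∀ (Λ : Type) [Finite Λ] (D : ℕ) (A : FA (Option (Sym Λ)) D) (q q' : A.Q)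
    (f f' : Fin D → Fin 3) (s : Fin D → Sym Λ) (m : Fin D → Dir),
    Au β (Fin D ⊕ Fin D) (fun L X => 1 ≤ L ∧
      ∃ t ∈ A.δ q (fun i => lsym (β ^ L) (s i) (pv (β ^ L) (f i) (X (Sum.inl i)))), q' = t.1 ∧
        ∀ i, (m i, pv (β ^ L) (f' i) (X (Sum.inr i))) =
          lmv (β ^ L) (s i) (pv (β ^ L) (f i) (X (Sum.inl i))) (t.2 i))) →
  ∀ (Λ : Type) [Finite Λ] (D β : ℕ), 2 ≤ β → ∀ (A : FA (Option (Sym Λ)) (D + 1)),
    (∀ ν ν' s m, Rec (RStep A β ν ν' s m)) ∧ ∀ m₀ ν ν', Rec (RPiece A β m₀ ν ν')

/-- LWE: the link system accepts the language.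

Proof. Let `c = (q, j, P)` be a configuration; a triple `(ν, h, u)` with `u.length = |x| + 1`
represents it if `q = ν.1`, `h = j` and for some `X` with `Dec A β ν u X`: `P i = pv M (f i) (X i)`,
`M = β ^ (|x| + 1) ≥ 2`. The start represents `(start, 0, -1)` (all flags `1`, `X = 0`).
(1) Every valid configuration (`VP`) with `Stor` is represented by some triple: choose `i₀` with
`P i₀ ≤ B` or `≥ M - B`, `B = 2 N + 1`: `P i₀ = -1` or `M`: flag `1` or `2`; `0 ≤ P i₀ ≤ B`: side `false`,
distance `P i₀`; `M - B ≤ P i₀ < M`: side `true`, distance `M - P i₀`; the digits of the other offsets, `0` for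
the heads with a flag. (2) A represented configuration has `Stor`. (3) If `(ν, h, u)` represents
`c`, a link `c → c'` between valid configurations gives a link to every triple that represents `c'`
(with memory of the same length): kind step with `s i = tape x (j i)` and `m i` the first component of
`lmv`; kind piece (all offsets of `c`, `c'` are in the box, in particular between `1` and `M - 1`, so all
flags are `0`; `m = S`). (4) Conversely a link from `(ν, h, u)` leads to a triple that represents a
configuration `c'` with `LK c c'`. `X` is determined by `ν, u`. Induction on chains, the configurations in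
chains of `LK` are valid by hypothesis. -/
def LWE_Stmt : Prop :=
  ∀ (Λ : Type) [Finite Λ] (D β : ℕ) (hβ : 2 ≤ β) (A : FA (Option (Sym Λ)) (D + 1)) (m₀ : ℕ)
    (h1 : ∀ ν ν' s m, Rec (RStep A β ν ν' s m)) (h2 : ∀ ν ν', Rec (RPiece A β m₀ ν ν')),
    (∀ (M : ℕ), 2 ≤ M → ∀ (x : List Λ),
      (pad M x ∈ A.lang ↔ ∃ c : FC A, ReflTransGen (LK A M m₀ x) (A.start, fun _ => 0, fun _ => -1) c ∧
        c.1 ∈ A.accept) ∧
      ∀ c : FC A, ReflTransGen (LK A M m₀ x) (A.start, fun _ => 0, fun _ => -1) c →
        ∀ i, VP M (x.length + 1) (c.2.1 i) (c.2.2 i)) →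
    (lowSys A β m₀ (by omega) h1 h2).lang = {x | pad (β ^ (x.length + 1)) x ∈ A.lang}

/-- LOW: `LOWER`.

Proof. `D = (D - 1) + 1`. `ACC` gives an automaton with the hypothesis of `GLO`; `GLO`, `LWR`, `LWE`, `LSY`
with `Nat.card (Fin D → Fin β) = β ^ D`. -/
def LOW_Stmt : Prop := ACC_Stmt → LSY_Stmt → LWE_Stmt →
  (∀ (Λ : Type) (D : ℕ) (A : FA (Option (Sym Λ)) (D + 1)),
    (∀ w c, ReflTransGen (A.Step w) (A.start, fun _ => 0) c → c.1 ∈ A.accept → c.2 0 = 0) →
    ∃ m : ℕ, ∀ (M : ℕ), 2 ≤ M → ∀ (x : List Λ),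
      (pad M x ∈ A.lang ↔ ∃ c : FC A, ReflTransGen (LK A M m x) (A.start, fun _ => 0, fun _ => -1) c ∧
        c.1 ∈ A.accept) ∧
      ∀ c : FC A, ReflTransGen (LK A M m x) (A.start, fun _ => 0, fun _ => -1) c →
        ∀ i, VP M (x.length + 1) (c.2.1 i) (c.2.2 i)) →
  (∀ (Λ : Type) [Finite Λ] (D β : ℕ), 2 ≤ β → ∀ (A : FA (Option (Sym Λ)) (D + 1)),
    (∀ ν ν' s m, Rec (RStep A β ν ν' s m)) ∧ ∀ m₀ ν ν', Rec (RPiece A β m₀ ν ν')) →
  LOWER_Stmt

end Pool.Agent.NPH
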