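import Pool.Agent.NPH.St0

/-!
# Project NPH, part C: the closure calculus and the hierarchy theorem

`WP Γ`: predicates on nonempty words over `Γ` (functions `Fin (n + 1) → Γ`). `Loc P`: `P` is given by
conditions on the first letter, the last letter and the pairs of adjacent letters. `Cc P`: `P` is
accepted by iterating a local relation between words of the same length (over some finite alphabet).
The class `Cc` is closed under `∧`, `∨`, `¬` (Immerman-Szelepcsenyi), quantification over words of the
same length, and transitive closure; so it can be used like a logic.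
-/

set_option autoImplicit false

namespace Pool.Agent.NPH

open Pool.Agent.Heads Relation

/-- Predicates on nonempty words over `Γ`. -/
abbrev WP (Γ : Type) : Type := (n : ℕ) → (Fin (n + 1) → Γ) → Prop

/-- Local predicates. -/
def Loc {Γ : Type} (P : WP Γ) : Prop :=
  ∃ (A B : Set Γ) (C : Set (Γ × Γ)), ∀ (n : ℕ) (a : Fin (n + 1) → Γ),
    P n a ↔ a 0 ∈ A ∧ a (Fin.last n) ∈ B ∧ ∀ i : Fin n, (a i.castSucc, a i.succ) ∈ C

/-- Two words over `Γ` and `Δ` as one word over `Γ × Δ`. -/
def zp {n : ℕ} {Γ Δ : Type} (a : Fin (n + 1) → Γ) (b : Fin (n + 1) → Δ) : Fin (n + 1) → Γ × Δ :=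
  fun i => (a i, b i)

/-- Predicates accepted by iterating a local relation. -/
def Cc {Γ : Type} (P : WP Γ) : Prop :=
  ∃ (Δ : Type) (_ : Finite Δ) (I : WP (Γ × Δ)) (R : WP (Δ × Δ)) (F : WP Δ),
    Loc I ∧ Loc R ∧ Loc F ∧ ∀ (n : ℕ) (a : Fin (n + 1) → Γ), P n a ↔
      ∃ b c : Fin (n + 1) → Δ, I n (zp a b) ∧ ReflTransGen (fun u v => R n (zp u v)) b c ∧ F n c

/-! ## 1. Closure properties (except the complement) -/

/-- LCL: local predicates.

Proof. (1) preimages of `A`, `B`, `C`. (2) intersections. (3) `A = B = X`,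
`C = X ×ˢ X`: the first and the last letter and both letters of each adjacent pair are in `X`; every
position is the first one or the second of a pair. (4) `A = X`, (5) `B = X`, everything else `univ`. -/
def LCL_Stmt : Prop :=
  (∀ (Γ Γ' : Type) (f : Γ' → Γ) (P : WP Γ), Loc P → Loc (fun n a => P n (f ∘ a))) ∧
  (∀ (Γ : Type) (P P' : WP Γ), Loc P → Loc P' → Loc (fun n a => P n a ∧ P' n a)) ∧
  (∀ (Γ : Type) (X : Set Γ), Loc (fun n (a : Fin (n + 1) → Γ) => ∀ i, a i ∈ X)) ∧
  (∀ (Γ : Type) (X : Set Γ), Loc (fun n (a : Fin (n + 1) → Γ) => a 0 ∈ X)) ∧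
  (∀ (Γ : Type) (X : Set Γ), Loc (fun n (a : Fin (n + 1) → Γ) => a (Fin.last n) ∈ X)) ∧
  (∀ (Γ : Type) (C : Set (Γ × Γ)),
    Loc (fun n (a : Fin (n + 1) → Γ) => ∀ i : Fin n, (a i.castSucc, a i.succ) ∈ C))

/-- CLB: local predicates are in the class; relabelling; conjunction; quantification.

Proof. (1) `Δ = Unit`, `I n w = P n (Prod.fst ∘ w)`, `R = F = ` true (local with `univ`; the chain can
be empty). (2) `I' n w = I n ((Prod.map f id) ∘ w)`. (3) `Δ₁ × Δ₂`;
`I = I₁ ∧ I₂` (relabelled); `R u v`: `R₁` on the first components and the second ones equal, or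
`R₂` on the second components and the first ones equal. To have ONE local relation use
`Δ₁ × Δ₂ × Bool × …`: simplest is a tag in the state: `Δ = Δ₁ × Δ₂ × Bool`, `R u v` :=
all tags of `v` are equal to each other (adjacent pairs) and, if the tag of `v` is `false`, the local
conditions of `R₁` hold for the first components and the second components are equal letter by letter; if
it is `true`, the same with exchanged roles. (Chains of the product project to chains of the
factors; conversely chains of the factors are performed one after the other; the tag of the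
source does not matter.) `I` puts no condition on the tags, `F` neither. (4) `I' n (zp a (b, d))` with
`Δ' = Γ' × Δ`: `I n (zp (a, b) d)`; `R'`: the `Γ'` component does not change and `R`; `F`. -/
def CLB_Stmt : Prop :=
  (∀ (Γ : Type) (P : WP Γ), Loc P → Cc P) ∧
  (∀ (Γ Γ' : Type) (f : Γ' → Γ) (P : WP Γ), Cc P → Cc (fun n a => P n (f ∘ a))) ∧
  (∀ (Γ : Type) (P P' : WP Γ), Cc P → Cc P' → Cc (fun n a => P n a ∧ P' n a)) ∧
  (∀ (Γ Γ' : Type) [Finite Γ'] (P : WP (Γ × Γ')), Cc P →
    Cc (fun n a => ∃ b : Fin (n + 1) → Γ', P n (zp a b)))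

/-- CLO: disjunction.

Proof. `Δ = Δ₁ ⊕ Δ₂`. `I` is local: first letter `(g, inl d)` with `(g, d) ∈ A₁` or `(g, inr d)` with
`(g, d) ∈ A₂`, last letter in the same way with `B₁`, `B₂`, adjacent pairs both `inl` and in `C₁` or both
`inr` and in `C₂`; as the kind does not change along the word, `I n (zp a b)` iff `b` is `inl` of a word
with `I₁` or `inr` of a word with `I₂`. `R` and `F` in the same way; a chain never changes the kind. -/
def CLO_Stmt : Prop :=
  ∀ (Γ : Type) (P P' : WP Γ), Cc P → Cc P' → Cc (fun n a => P n a ∨ P' n a)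

/-- CLT: transitive closure with a parameter.

Proof. Let `Δ, I, R, F` (`A_I, B_I, C_I, …`) be data for `P`. New state letters
`Γ × Γ' × Γ' × Γ' × Δ × Bool`: parameter, current, next, final, work, phase.
`I'` : parameter = parameter, current = source, final = target, phase `false` (all letterwise).
`R' u v` : the phases of all letters of `u` are equal, also of `v` (adjacent pairs), the parameter and
the final component do not change, and
(i) phases `false → true`: current equal, `I ((parameter, (current, next of v)), work of v)`; or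
(ii) `true → true`: current and next equal, `R (work u, work v)`; or
(iii) `true → false`: current of `v` = next of `u`, `F (work u)`.
As the pair of phases is the same along the word this is one local relation (first letter, last letter
and adjacent pairs: disjunction over the pair of phases). `F'`: phase `false`, current = final.
From a word of phase `false` with current `b` the words of phase `false` that can be reached have
current `b'` with `ReflTransGen (P (parameter, (·, ·))) b b'`, and all of these: one passage through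
phase `true` is one step of `P`. -/
def CLT_Stmt : Prop :=
  ∀ (Γ Γ' : Type) [Finite Γ] [Finite Γ'] (P : WP (Γ × (Γ' × Γ'))), Cc P →
    Cc (fun n (a : Fin (n + 1) → Γ × (Γ' × Γ')) =>
      ReflTransGen (fun b b' : Fin (n + 1) → Γ' => P n (zp (fun i => (a i).1) (zp b b')))
        (fun i => (a i).2.1) (fun i => (a i).2.2))

/-- CNL: the complement of a local predicate.

Proof. `¬ P` iff the first letter is not in `A`, or the last one is not in `B`, or some adjacent pair is
not in `C`. The first two are local (`LCL`). The third: there is a word `b` over `Bool` with first letter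
`false`, last letter `true` such that every adjacent pair `((g, s), (g', s'))` has `(s, s')` equal to
`(false, false)`, `(true, true)`, or to `(false, true)` and `(g, g') ∉ C` (so there is exactly one change; for
`n = 0` there is no such word). `CLB`, `CLO`. -/
def CNL_Stmt : Prop := LCL_Stmt → CLB_Stmt → CLO_Stmt → ∀ (Γ : Type) (P : WP Γ), Loc P →
  Cc (fun n a => ¬ P n a)

/-! ## 2. Counting and the complement -/

/-- The number of a word over `Fin q`, the first letter is the least significant digit. -/
def val {q n : ℕ} (a : Fin (n + 1) → Fin q) : ℕ := ∑ i, (a i : ℕ) * q ^ (i : ℕ)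

/-- The word `b` is the successor of the word `a`. -/
def Suc (q : ℕ) : WP (Fin q × Fin q) := fun n a =>
  val (fun i : Fin (n + 1) => (a i).2) = val (fun i : Fin (n + 1) => (a i).1) + 1

/-- SUC: words over `Fin q` are the numbers below `q ^ (n + 1)`, and the successor is local.

Proof. (1) induction on `n` (`Fin.sum_univ_castSucc` or `Fin.sum_univ_succ`; or
`Nat.ofDigits`, `finPiFinEquiv`). (2) Letter types: `c = (q - 1, 0)`, `i = (a, a + 1)`, `s = (a, a)`; as
`q ≥ 2` they exclude each other. `val b = val a + 1` iff the word of pairs has the form `c* i s*`: first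
letter of type `c` or `i`, last letter of type `i` or `s`, adjacent pairs `cc`, `ci`, `is`, `ss`
(the number `a` ends with some digits `q - 1`, which become `0`, the next digit is increased). -/
def SUC_Stmt : Prop :=
  ∀ q : ℕ, 2 ≤ q →
    (∀ n : ℕ, Function.Injective (val : (Fin (n + 1) → Fin q) → ℕ) ∧
      ∀ m : ℕ, m < q ^ (n + 1) ↔ ∃ a : Fin (n + 1) → Fin q, val a = m) ∧
    Loc (Suc q)

/-- Paths that count: `(p, m) → (p + 1, m)` or, if `θ p`, `(p, m) → (p + 1, m + 1)`. -/
def CntStep (θ θ' : ℕ → Prop) (c c' : ℕ × ℕ) : Prop :=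
  c'.1 = c.1 + 1 ∧ ((c'.2 = c.2 ∧ θ' c.1) ∨ (c'.2 = c.2 + 1 ∧ θ c.1))

/-- CNT: counting by paths.

Proof. (1) If `(p, m)` is reached from `(0, 0)` then `m ≤ #{j < p | θ j}`: induction on the path;
conversely: induction on `p`. (2) with `θ'` the complement of `θ` the path is unique: induction. -/
def CNT_Stmt : Prop :=
  ∀ (θ : ℕ → Prop) (p m : ℕ),
    (ReflTransGen (CntStep θ (fun _ => True)) (0, 0) (p, m) ↔
      m ≤ Nat.card {j : ℕ // j < p ∧ θ j}) ∧
    (ReflTransGen (CntStep θ (fun j => ¬ θ j)) (0, 0) (p, m) ↔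
      m = Nat.card {j : ℕ // j < p ∧ θ j})

/-- `GE θ`: the predicate `at least val m words over Fin q satisfy θ` (with parameter), where the word
`top` (all letters `q - 1`) is not counted. -/
def GE {Γ : Type} (q : ℕ) (θ : WP (Γ × Fin q)) : WP (Γ × Fin q) := fun n a =>
  val (fun i : Fin (n + 1) => (a i).2) ≤
    Nat.card {b : Fin (n + 1) → Fin q // val b < q ^ (n + 1) - 1 ∧ θ n (zp (fun i => (a i).1) b)}

/-- GEC: the class is closed under counting from below.

Proof. `GE` holds iff in the graph on pairs of words over `Fin q` (letters `Fin q × Fin q`) with the steps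
`(p, m) → (p', m')`, `Suc (p, p')`, and `m' = m` or (`Suc (m, m')` and `θ (p)`), one reaches `(top, m)`
from `(0, 0)`: translate by `val` into `CNT` (1) (`SUC`; `m ≤ q ^ (n + 1) - 1` because `val m < q ^ (n + 1)`,
so all numbers that occur are values of words). The step relation is in the class (`CLB`, `CLO`, equality
of words is letterwise), `CLT` gives the transitive closure with start and end as variables; the start
`(0, 0)` and `p = top` are local conditions on quantified words (`CLB` (4)), with `CLB` (2) for the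
relabellings. -/
def GEC_Stmt : Prop := LCL_Stmt → CLB_Stmt → CLO_Stmt → CLT_Stmt → SUC_Stmt → CNT_Stmt →
  ∀ (Γ : Type) [Finite Γ] (q : ℕ), 2 ≤ q → ∀ θ : WP (Γ × Fin q), Cc θ → Cc (GE q θ)

/-- `EX θ θ'`: the path of `CNT` with the two conditions `θ`, `θ'` (with parameter) from `(0, 0)` to
`(q ^ (n + 1) - 1, val m)`. -/
def EX {Γ : Type} (q : ℕ) (θ θ' : WP (Γ × Fin q)) : WP (Γ × Fin q) := fun n a =>
  ReflTransGen (CntStep
      (fun j => ∃ b : Fin (n + 1) → Fin q, val b = j ∧ θ n (zp (fun i => (a i).1) b))
      (fun j => ∃ b : Fin (n + 1) → Fin q, val b = j ∧ θ' n (zp (fun i => (a i).1) b)))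
    (0, 0) (q ^ (n + 1) - 1, val (fun i : Fin (n + 1) => (a i).2))

/-- EXC: the class is closed under this operation.

Proof. As `GEC`, without `CNT`: the steps are `Suc (p, p')` and (`m' = m` and `θ' (p)`, or `Suc (m, m')`
and `θ (p)`). -/
def EXC_Stmt : Prop := LCL_Stmt → CLB_Stmt → CLO_Stmt → CLT_Stmt → SUC_Stmt →
  ∀ (Γ : Type) [Finite Γ] (q : ℕ), 2 ≤ q → ∀ θ θ' : WP (Γ × Fin q), Cc θ → Cc θ' →
    Cc (EX q θ θ')

/-- ISA: the abstract form of the theorem of Immerman and Szelepcsenyi.

`D l` = the elements that are reached from the sources in at most `l` steps; `c l` their number.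
`NX l c v` (`v` is not reached in `l + 1` steps): at least `c` elements `u ∈ D l` have no step to `v`
and are different from `v`. `CT (l, c)`: reached from `(0, c 0)` by steps `(l, c) → (l + 1, c')` where the
counting path with `θ = D (l + 1)`, `θ' = NX l c` reaches `(V, c')`.

Proof. `v ∉ D (l + 1)` iff no `u ∈ D l` has a step to `v` or is equal to `v`, iff `NX l (c l) v`. So for
`c = c l` the path with `θ = D (l + 1)` and `θ' = NX l c` counts exactly (`CNT` (2)), `c' = c (l + 1)`;
hence `(l, c)` is reached iff `c = c l`, by induction. All elements are numbers below `V`. The sets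
`D l` increase, `D l = D (l + 1)` implies `D l = D (l + k)`, and there are at most `V` elements, so
`D V` is the set of all elements that are reached. No element of it is in `F` iff at least
`c V` elements of `D V` are not in `F`. -/
def ISA_Stmt : Prop := CNT_Stmt →
  ∀ (V : ℕ) (src fin : ℕ → Prop) (R : ℕ → ℕ → Prop) (D : ℕ → ℕ → Prop),
    (∀ u, src u → u < V) → (∀ u v, R u v → v < V) →
    (∀ u, D 0 u ↔ src u) → (∀ l v, D (l + 1) v ↔ ∃ u, D l u ∧ (u = v ∨ R u v)) →
    ∀ NX : ℕ → ℕ → ℕ → Prop,
    (∀ l c v, NX l c v ↔ c ≤ Nat.card {u : ℕ // u < V ∧ D l u ∧ u ≠ v ∧ ¬ R u v}) →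
    ((¬ ∃ u v, src u ∧ ReflTransGen R u v ∧ fin v) ↔
      ∃ c₀ c : ℕ, ReflTransGen (CntStep src (fun j => ¬ src j)) (0, 0) (V, c₀) ∧
        ReflTransGen (fun s s' : ℕ × ℕ => s'.1 = s.1 + 1 ∧
          ReflTransGen (CntStep (D (s.1 + 1)) (NX s.1 s.2)) (0, 0) (V, s'.2)) (0, c₀) (V, c) ∧
        c ≤ Nat.card {u : ℕ // u < V ∧ D V u ∧ ¬ fin u})

/-- DIN: bounded reachability is in the class.

Proof. `CLT` for words over `Fin q × Fin q` (counter, vertex): `(l, u) → (l', u')` iff `Suc (l, l')` and
(`u' = u` or `R (u, u')`); then `D l u` iff there are words `z` (all letters `0`) and `b` with `I (a, b)`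
such that `(z, b)` reaches `(l, u)`. -/
def DIN_Stmt : Prop := LCL_Stmt → CLB_Stmt → CLO_Stmt → CLT_Stmt → SUC_Stmt →
  ∀ (Γ : Type) [Finite Γ] (q : ℕ), 2 ≤ q → ∀ (I : WP (Γ × Fin q)) (R : WP (Fin q × Fin q)),
    Loc I → Loc R → ∃ D : WP (Γ × (Fin q × Fin q)), Cc D ∧
      ∀ (n : ℕ) (a : Fin (n + 1) → Γ) (l u : Fin (n + 1) → Fin q), D n (zp a (zp l u)) ↔
        ∃ b : Fin (n + 1) → Fin q, I n (zp a b) ∧
          ∃ w : ℕ → (Fin (n + 1) → Fin q), w 0 = b ∧ w (val l) = u ∧
            ∀ j < val l, w (j + 1) = w j ∨ R n (zp (w j) (w (j + 1)))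

section Words

variable {Γ : Type} (q : ℕ) (I : WP (Γ × Fin q)) (R : WP (Fin q × Fin q)) (F : WP (Fin q))
  (D : WP (Γ × (Fin q × Fin q)))

/-- `((a, (l, c)), v)`: at least `val c` words `u` with `D (a, l, u)` are different from `v` and have no
step to `v`. -/
def NXW : WP ((Γ × (Fin q × Fin q)) × Fin q) := fun n w =>
  GE q (fun n (y : Fin (n + 1) → (Γ × (Fin q × Fin q)) × Fin q) =>
      D n (fun i => ((y i).1.1, ((y i).1.2.1, (y i).2))) ∧
      (fun i => (y i).2) ≠ (fun i => (y i).1.2.2) ∧
      ¬ R n (fun i => ((y i).2, (y i).1.2.2)))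
    n (fun i => (((w i).1.1, ((w i).1.2.1, (w i).2)), (w i).1.2.2))

/-- `(a, ((l, c), (l', c')))`: `l' = l + 1`, and the counting path with the two conditions `D (a, l', ·)` and
`NXW ((a, (l, c)), ·)` ends with `c'`. -/
def CTS : WP (Γ × ((Fin q × Fin q) × (Fin q × Fin q))) := fun n w =>
  Suc q n (fun i => ((w i).2.1.1, (w i).2.2.1)) ∧
  EX q (fun n (y : Fin (n + 1) → (Γ × (Fin q × (Fin q × Fin q))) × Fin q) =>
      D n (fun i => ((y i).1.1, ((y i).1.2.1, (y i).2))))
    (fun n (y : Fin (n + 1) → (Γ × (Fin q × (Fin q × Fin q))) × Fin q) =>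
      NXW q R D n (fun i => (((y i).1.1, (y i).1.2.2), (y i).2)))
    n (fun i => (((w i).1, ((w i).2.2.1, (w i).2.1)), (w i).2.2.2))

/-- `(a, c)`: at least `val c` words `u` with `D (a, top, u)` are not in `F`. -/
def LST : WP (Γ × Fin q) := fun n w =>
  GE q (fun n (y : Fin (n + 1) → Γ × Fin q) =>
      (∃ t : Fin (n + 1) → Fin q, (∀ i, (t i : ℕ) = q - 1) ∧
        D n (fun i => ((y i).1, (t i, (y i).2)))) ∧ ¬ F n (fun i => (y i).2)) n w

/-- The formula for the complement. -/
def CPL : WP Γ := fun n a =>
  ∃ s e : Fin (n + 1) → Fin q × Fin q, (∀ i, ((s i).1 : ℕ) = 0) ∧ (∀ i, ((e i).1 : ℕ) = q - 1) ∧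
    EX q I (fun n y => ¬ I n y) n (zp a (fun i => (s i).2)) ∧
    ReflTransGen (fun b b' : Fin (n + 1) → Fin q × Fin q => CTS q R D n (zp a (zp b b'))) s e ∧
    LST q F D n (zp a (fun i => (e i).2))

end Words

/-- CPI: the formula is in the class.

Proof: the closure properties, with relabellings (`CLB` (2): every argument of the form
`fun i => f (w i)` is `f ∘ w`). `GEC`, `EXC`; `¬ R`, `¬ I`, `¬ F` by `CNL`; the inequality of two words is
the complement of a letterwise condition (`LCL` (3), `CNL`); `Suc` is local; the conditions on `s`, `e`,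
`t` are letterwise; `CLT` (its start and end are variables; then `CLB` (4) for the quantified words). -/
def CPI_Stmt : Prop := LCL_Stmt → CLB_Stmt → CLO_Stmt → CLT_Stmt → CNL_Stmt → SUC_Stmt →
  GEC_Stmt → EXC_Stmt → ∀ (Γ : Type) [Finite Γ] (q : ℕ), 2 ≤ q →
    ∀ (I : WP (Γ × Fin q)) (R : WP (Fin q × Fin q)) (F : WP (Fin q)) (D : WP (Γ × (Fin q × Fin q))),
      Loc I → Loc R → Loc F → Cc D → Cc (CPL q I R F D)

/-- CPE: the formula is the complement.

Proof. Fix `n`, `a`; `V = q ^ (n + 1) - 1`. Apply `ISA` to the numbers of the words: `src j`: some word `b`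
with `val b = j` and `I (a, b)`; `R' j j'`, `fin j` in the same way; `D' l j` for all `l : ℕ`: some
word `u` with `val u = j` is reached by a sequence `w 0, …, w l` as in the hypothesis on `D`; `NX l c v` := the
inequality of `ISA`. The vertices are below `V` (hypotheses `hI`, `hR`; every word with a value `≥ V` has
all letters `q - 1`). For words `l, u` one has `D (a, l, u) ↔ D' (val l) (val u)`. Dictionary (`SUC`:
`val` is a bijection to the numbers `≤ V`): `NXW ↔ NX (val l) (val c) (val v)`; `CTS` ↔ the step of `ISA`;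
`ReflTransGen` of `CTS` from `s` to `e` ↔ the path of `ISA` from `(0, val c₀)` to `(V, val c)`: all pairs
`(l, c)` on the path of `ISA` have `l ≤ V`, `c ≤ V` (`CNT` (2) and: a counting path that ends in
`(V, c)` has `c ≤ V`, whatever the conditions are), so they are pairs of values of words. `LST` ↔ the last
condition. -/
def CPE_Stmt : Prop := SUC_Stmt → CNT_Stmt → ISA_Stmt →
  ∀ (Γ : Type) (q : ℕ), 2 ≤ q → ∀ (I : WP (Γ × Fin q)) (R : WP (Fin q × Fin q)) (F : WP (Fin q))
    (D : WP (Γ × (Fin q × Fin q))),
    (∀ (n : ℕ) (w : Fin (n + 1) → Γ × Fin q), I n w → ∃ i, ((w i).2 : ℕ) < q - 1) →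
    (∀ (n : ℕ) (w : Fin (n + 1) → Fin q × Fin q), R n w → ∃ i, ((w i).2 : ℕ) < q - 1) →
    (∀ (n : ℕ) (a : Fin (n + 1) → Γ) (l u : Fin (n + 1) → Fin q), D n (zp a (zp l u)) ↔
        ∃ b : Fin (n + 1) → Fin q, I n (zp a b) ∧
          ∃ w : ℕ → (Fin (n + 1) → Fin q), w 0 = b ∧ w (val l) = u ∧
            ∀ j < val l, w (j + 1) = w j ∨ R n (zp (w j) (w (j + 1)))) →
    ∀ (n : ℕ) (a : Fin (n + 1) → Γ), CPL q I R F D n a ↔
      ¬ ∃ b c : Fin (n + 1) → Fin q, I n (zp a b) ∧
        ReflTransGen (fun u v => R n (zp u v)) b c ∧ F n c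

/-- ISZ: the class is closed under complement.

Proof. Let `Δ, I, R, F` be data for `P`; `q = card Δ + 2`, `e : Δ → Fin q` injective with values
different from `q - 1`. Let `I'`, `R'`, `F'` be `I`, `R`, `F` transported to words over `Fin q` (false if
some letter is not in the range of `e`): local, the sets `A, B, C` are the images. Then `P n a` iff there
are words `b, c` over `Fin q` with `I' (a, b)`, `ReflTransGen R' b c`, `F' c` (if `I' (a, b)` then `b` is a
word over the range, and steps stay there). Now `DIN`, `CPI`, `CPE`. -/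
def ISZ_Stmt : Prop := LCL_Stmt → CLB_Stmt → CLO_Stmt → CLT_Stmt → SUC_Stmt → DIN_Stmt →
  (∀ (Γ : Type) [Finite Γ] (q : ℕ), 2 ≤ q →
    ∀ (I : WP (Γ × Fin q)) (R : WP (Fin q × Fin q)) (F : WP (Fin q)) (D : WP (Γ × (Fin q × Fin q))),
      Loc I → Loc R → Loc F → Cc D → Cc (CPL q I R F D)) →
  (∀ (Γ : Type) (q : ℕ), 2 ≤ q → ∀ (I : WP (Γ × Fin q)) (R : WP (Fin q × Fin q)) (F : WP (Fin q))
    (D : WP (Γ × (Fin q × Fin q))),
    (∀ (n : ℕ) (w : Fin (n + 1) → Γ × Fin q), I n w → ∃ i, ((w i).2 : ℕ) < q - 1) →
    (∀ (n : ℕ) (w : Fin (n + 1) → Fin q × Fin q), R n w → ∃ i, ((w i).2 : ℕ) < q - 1) →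
    (∀ (n : ℕ) (a : Fin (n + 1) → Γ) (l u : Fin (n + 1) → Fin q), D n (zp a (zp l u)) ↔
        ∃ b : Fin (n + 1) → Fin q, I n (zp a b) ∧
          ∃ w : ℕ → (Fin (n + 1) → Fin q), w 0 = b ∧ w (val l) = u ∧
            ∀ j < val l, w (j + 1) = w j ∨ R n (zp (w j) (w (j + 1)))) →
    ∀ (n : ℕ) (a : Fin (n + 1) → Γ), CPL q I R F D n a ↔
      ¬ ∃ b c : Fin (n + 1) → Fin q, I n (zp a b) ∧
        ReflTransGen (fun u v => R n (zp u v)) b c ∧ F n c) →
  ∀ (Γ : Type) [Finite Γ] (P : WP Γ), Cc P → Cc (fun n a => ¬ P n a)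

/-- The closure properties as a calculus, for the definition of predicates. -/
structure Calc : Prop where
  loc : ∀ (Γ : Type) (P : WP Γ), Loc P → Cc P
  map : ∀ (Γ Γ' : Type) (f : Γ' → Γ) (P : WP Γ), Cc P → Cc (fun n a => P n (f ∘ a))
  and : ∀ (Γ : Type) (P P' : WP Γ), Cc P → Cc P' → Cc (fun n a => P n a ∧ P' n a)
  or : ∀ (Γ : Type) (P P' : WP Γ), Cc P → Cc P' → Cc (fun n a => P n a ∨ P' n a)
  not : ∀ (Γ : Type) [Finite Γ] (P : WP Γ), Cc P → Cc (fun n a => ¬ P n a)
  ex : ∀ (Γ Γ' : Type) [Finite Γ'] (P : WP (Γ × Γ')), Cc P →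
    Cc (fun n a => ∃ b : Fin (n + 1) → Γ', P n (zp a b))
  tc : ∀ (Γ Γ' : Type) [Finite Γ] [Finite Γ'] (P : WP (Γ × (Γ' × Γ'))), Cc P →
    Cc (fun n (a : Fin (n + 1) → Γ × (Γ' × Γ')) =>
      ReflTransGen (fun b b' : Fin (n + 1) → Γ' => P n (zp (fun i => (a i).1) (zp b b')))
        (fun i => (a i).2.1) (fun i => (a i).2.2))

/-! ## 3. From the class to machines -/

/-- LOD: predicates of the class are accepted by machines.

The input `x` is read as the word `x[0], …, x[|x| - 1], none` over `Option Λ`, of length `|x| + 1`.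

Proof. Let `Δ, I, R, F` be data for `P` (`Γ = Option Λ`). Memory letters: blank, or
`(g, s)` with `g : Option Λ` and a cursor mark `s : Bool`, or `(g, d)` with `d : Δ`; `S'` is their number.
Loading: the first sweep puts the cursor on the first cell (and `none` on all cells). The head goes to
cell `1`. In each of the following rounds the machine has the scanned symbol in its state (a step of the
head that only reads: the step `hd` depends on the symbol and can store it in the state): if it is a
letter `λ`, the sweep writes `some λ` on the cursor cell and moves the cursor one cell to the right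
(from left to right: the mark is passed on by the state of the sweep; the last cell is never
written), and the head moves right; if it is `⊣`, the loading is finished: the memory is
`x[0], …, none`. Then one sweep guesses `b` with `I (a, b)` (the sweep checks a local predicate: the
condition on the first letter, on adjacent letters by remembering the previous one, on the last letter
by guessing that the letter is the last one: the state says that no further letter may come)
and forgets `a`; then sweeps that check `R` (old letter, new letter) with the same method; finally a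
sweep that checks `F`, after which the state is accepting. Heads different from `0` do not move. -/
def LOD_Stmt : Prop :=
  ∀ (Λ : Type) [Finite Λ] (r : ℕ), 1 ≤ r → ∀ P : WP (Option Λ), Cc P →
    ∃ S' : ℕ, InT Λ r S' {x | P x.length (fun i => x[(i : ℕ)]?)}

/-- The input alphabet of the universal predicate. -/
abbrev Lam : Type := Bool × Fin 3

/-- UNIV: a universal predicate (see `StU.lean`). -/
def UNIV_Stmt : Prop :=
  ∀ r S : ℕ, ∃ U : WP (Option Lam), Cc U ∧ ∀ T : RM Lam r S, ∃ x : List Lam,
    (U x.length (fun i => x[(i : ℕ)]?) ↔ x ∈ T.lang)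

/-- HIE: the hierarchy theorem.

Proof. Let `U` be as in `UNIV`. By `ISZ` the complement of `U` is in the class, by `LOD` the language
`L = {x | ¬ U x}` is in `InT Lam r S'` for some `S'`. If `T : RM Lam r S` accepts `L`, take the `x` of
`UNIV` for `T`: `x ∈ L ↔ x ∈ T.lang ↔ U x ↔ x ∉ L`. -/
def HIE_Stmt : Prop := UNIV_Stmt → LOD_Stmt → Calc → HIER_Stmt

end Pool.Agent.NPH
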