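import Pool.Agent.NPH.StC

/-!
# Project NPH, part U: the universal predicate

The alphabet of the universal predicate must not depend on the machine, so a state is a NUMBER `p < s`,
and a number `p ≤ n + 1` is represented by a mark on the cell `p - 1` of the word (no mark if `p = 0`);
this is also the position of a reading head (cell `n` is the right endmarker, there `a n = none`).

1. `Dn P`: the predicate `P` on a word and numbers is definable, i.e. it is in the class `Cc` if the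
numbers are replaced by their marks. Definable predicates are closed under everything (`DC`).
2. Addition and multiplication are definable (transitive closure). The code word of a machine with `s`
states has length `n = s * s * ω`; the letter number `(p * s + p') * ω + l` tells if there is a transition
with the label `l` from the state `p` to the state `p'`. So `Bit` is definable.
3. The universal predicate iterates micro steps: one letter of a sweep, or a step of the heads.
4. Micro steps are equivalent to rounds.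

All modules: `theorem t_XXX : XXX_Stmt` in `Pool/Agent/NPH/XXX.lean`, auxiliary lemmas in namespace
`Pool.Agent.NPH.XXX`; `Calc` is the structure of `StC.lean`.
-/

set_option autoImplicit false

namespace Pool.Agent.NPH

open Pool.Agent.Heads Relation

/-! ## 1. Words and numbers -/

/-- Predicates on nonempty words over `Γ` and numbers `v j`, `j : J`. -/
abbrev PP (Γ J : Type) : Type := (n : ℕ) → (Fin (n + 1) → Γ) → (J → ℕ) → Prop

/-- The marks of the numbers `v`: the cell `i` has the mark `j` if `v j = i + 1`. -/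
def marks {n : ℕ} {J : Type} (v : J → ℕ) : Fin (n + 1) → (J → Bool) :=
  fun i j => decide (v j = i.val + 1)

/-- `w` consists of the marks of the numbers `v`, and they are at most `n + 1`. -/
def IsM {n : ℕ} {J : Type} (w : Fin (n + 1) → (J → Bool)) (v : J → ℕ) : Prop :=
  (∀ j, v j ≤ n + 1) ∧ w = marks v

/-- The predicate `P` is definable. -/
def Dn {Γ J : Type} (P : PP Γ J) : Prop :=
  Cc (Γ := Γ × (J → Bool)) fun n w =>
    ∃ v : J → ℕ, IsM (fun i => (w i).2) v ∧ P n (fun i => (w i).1) v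

/-- The numbers are determined by their marks. -/
theorem IsM.inj {n : ℕ} {J : Type} {w : Fin (n + 1) → (J → Bool)} {v v' : J → ℕ} (h : IsM w v)
    (h' : IsM w v') : v = v' := by
  funext j
  have key : ∀ i : Fin (n + 1), v j = i.val + 1 ↔ v' j = i.val + 1 := by
    intro i
    have := congrFun (congrFun (h.2.symm.trans h'.2) i) j
    simpa [marks] using this
  have h1 := h.1 j
  have h2 := h'.1 j
  rcases Nat.eq_zero_or_pos (v j) with h0 | h0
  · rcases Nat.eq_zero_or_pos (v' j) with h3 | h3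
    · omega
    · have := (key ⟨v' j - 1, by omega⟩).2 (by simp; omega)
      simp at this
      omega
  · have := (key ⟨v j - 1, by omega⟩).1 (by simp; omega)
    simp at this
    omega

/-- Only the numbers `≤ n + 1` matter. -/
theorem Dn.congr {Γ J : Type} {P P' : PP Γ J} (h : Dn P)
    (e : ∀ (n : ℕ) (a : Fin (n + 1) → Γ) (v : J → ℕ), (∀ j, v j ≤ n + 1) → (P n a v ↔ P' n a v)) :
    Dn P' := by
  have : (fun n (w : Fin (n + 1) → Γ × (J → Bool)) =>
      ∃ v : J → ℕ, IsM (fun i => (w i).2) v ∧ P n (fun i => (w i).1) v) = fun n w =>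
      ∃ v : J → ℕ, IsM (fun i => (w i).2) v ∧ P' n (fun i => (w i).1) v := by
    funext n w
    refine propext ⟨?_, ?_⟩
    · rintro ⟨v, h1, h2⟩
      exact ⟨v, h1, (e _ _ _ h1.1).1 h2⟩
    · rintro ⟨v, h1, h2⟩
      exact ⟨v, h1, (e _ _ _ h1.1).2 h2⟩
  unfold Dn at h ⊢
  rwa [this] at h

/-- The relation between pairs (word, numbers) given by a predicate with parameters. -/
def StepOf {Γ Γ' J J' : Type} (P : PP (Γ × (Γ' × Γ')) (J ⊕ (J' ⊕ J'))) (n : ℕ)
    (a : Fin (n + 1) → Γ) (v : J → ℕ) (c c' : (Fin (n + 1) → Γ') × (J' → ℕ)) : Prop :=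
  (∀ j, c.2 j ≤ n + 1) ∧ (∀ j, c'.2 j ≤ n + 1) ∧
    P n (zp a (zp c.1 c'.1)) (Sum.elim v (Sum.elim c.2 c'.2))

/-- ONE: the words of marks are in the class.

Proof. (1) `w` (with `w i = (g, m)`, `m : J → Bool`) consists of marks iff there is a word `b` over
`J → Bool` such that, for all `j`: `m j = b j` in the first cell, and in adjacent cells `b j` implies
`b' j` and `m' j` iff `b' j` and not `b j` (`m` marks the cell where `b j` becomes true). This is local in
`zp w b`; `Calc.loc`, `Calc.ex`. From `v`: `b i j` iff `1 ≤ v j ≤ i + 1`. From `b`: `v j` = `0` if `b` is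
never true, otherwise one plus the first cell where it is true. (2) `IsM` is satisfied, `IsM.inj` and (1):
the predicate is `(∃ v, IsM w v) ∧ P n w`; `Calc.and`. (3) is the case `P = ` true. -/
def ONE_Stmt : Prop := Calc →
  (∀ (Γ J : Type) [Finite J], Cc (Γ := Γ × (J → Bool)) fun _ w =>
    ∃ v : J → ℕ, IsM (fun i => (w i).2) v) ∧
  (∀ (Γ J : Type) [Finite J] (P : WP (Γ × (J → Bool))), Cc P → Dn fun n a v => P n (zp a (marks v)))

/-- DNA: Boolean operations.

Proof. `and`: `Calc.and`, `IsM.inj` (the two numbers `v` are equal). `or`: `Calc.or`. `not`: the predicate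
is `(∃ v, IsM w v) ∧ ¬ (∃ v, IsM w v ∧ P)` by `IsM.inj`; `Calc.and`, `Calc.not`, `ONE` (1). (For a letter
type that is empty or infinite nothing special happens.) -/
def DNA_Stmt : Prop := Calc → ONE_Stmt →
  (∀ (Γ J : Type) (P P' : PP Γ J), Dn P → Dn P' → Dn fun n a v => P n a v ∧ P' n a v) ∧
  (∀ (Γ J : Type) (P P' : PP Γ J), Dn P → Dn P' → Dn fun n a v => P n a v ∨ P' n a v) ∧
  (∀ (Γ J : Type) [Finite Γ] [Finite J] (P : PP Γ J), Dn P → Dn fun n a v => ¬ P n a v)

/-- DNB: change of variables and quantifiers.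

Proof. (1) the predicate is `(∃ v, IsM w v)` (for the new marks) and the old predicate for the word
`f' ∘ w`, `f' (x, m) = (g x, m ∘ f)` (`Calc.map`): if `w` has the marks of `v` then `f' ∘ w` has those of
`v ∘ f`; `IsM.inj`. (2) `∃ v, IsM ∧ ∃ u, …` iff there is a word `b` over `J' → Bool` such that the word with
the letters `(x, Sum.elim m (b i))` satisfies the old predicate: `Calc.ex` for a relabelling
(`Calc.map`). (3) the same with a word over `Γ'`. -/
def DNB_Stmt : Prop := Calc → ONE_Stmt →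
  (∀ (Γ Γ' J J' : Type) [Finite J'] (g : Γ' → Γ) (f : J → J') (P : PP Γ J), Dn P →
    Dn fun n (a : Fin (n + 1) → Γ') (v : J' → ℕ) => P n (g ∘ a) (v ∘ f)) ∧
  (∀ (Γ J J' : Type) [Finite J'] (P : PP Γ (J ⊕ J')), Dn P → Dn fun n a (v : J → ℕ) =>
    ∃ u : J' → ℕ, (∀ j, u j ≤ n + 1) ∧ P n a (Sum.elim v u)) ∧
  (∀ (Γ Γ' J : Type) [Finite Γ'] (P : PP (Γ × Γ') J), Dn P → Dn fun n (a : Fin (n + 1) → Γ) v =>
    ∃ b : Fin (n + 1) → Γ', P n (zp a b) v)

/-- DNT: transitive closure.

Proof. `Calc.tc` for the parameter letters `Γ × (J → Bool)`, the letters `Γ' × (J' → Bool)` and the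
predicate on `w : (Γ × (J → Bool)) × ((Γ' × (J' → Bool)) × (Γ' × (J' → Bool)))` which is the predicate of
`Dn P` after the evident relabelling (`Calc.map`; the marks are put together by `Sum.elim`). A step
between two words over `Γ' × (J' → Bool)` exists iff they are the words of pairs `c`, `c'` with
`StepOf P n a v c c'` (`IsM.inj`; the marks of `Sum.elim v v'` are the `Sum.elim` of the marks). So if the end
points are words of pairs, the chains correspond to each other. Finally add `∃ v, IsM w v` for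
`J ⊕ (J' ⊕ J')` (`ONE` (1), `Calc.and`), and relabel back. -/
def DNT_Stmt : Prop := Calc → ONE_Stmt →
  ∀ (Γ Γ' J J' : Type) [Finite Γ] [Finite Γ'] [Finite J] [Finite J']
    (P : PP (Γ × (Γ' × Γ')) (J ⊕ (J' ⊕ J'))), Dn P →
    Dn fun n (a : Fin (n + 1) → Γ × (Γ' × Γ')) (v : J ⊕ (J' ⊕ J') → ℕ) =>
      ReflTransGen (StepOf P n (fun i => (a i).1) (v ∘ Sum.inl))
        (fun i => (a i).2.1, v ∘ Sum.inr ∘ Sum.inl) (fun i => (a i).2.2, v ∘ Sum.inr ∘ Sum.inr)

/-- DNF: finite disjunctions and conjunctions.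

Proof. Induction on finite types (`Finite.induction_empty_option`), with `DNA`. For the empty type: the
predicates false and true are local (`A = ∅`, resp. everything `univ`); `Calc.loc`, `ONE` (2),
`Dn.congr`. -/
def DNF_Stmt : Prop := Calc → ONE_Stmt → DNA_Stmt →
  (∀ (Γ J ι : Type) [Finite J] [Finite ι] (P : ι → PP Γ J), (∀ i, Dn (P i)) →
    Dn fun n a v => ∃ i, P i n a v) ∧
  (∀ (Γ J ι : Type) [Finite J] [Finite ι] (P : ι → PP Γ J), (∀ i, Dn (P i)) →
    Dn fun n a v => ∀ i, P i n a v)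

/-- The calculus of definable predicates. -/
structure DC : Prop where
  base : ∀ (Γ J : Type) [Finite J] (P : WP (Γ × (J → Bool))), Cc P →
    Dn fun n a v => P n (zp a (marks v))
  and : ∀ (Γ J : Type) (P P' : PP Γ J), Dn P → Dn P' → Dn fun n a v => P n a v ∧ P' n a v
  or : ∀ (Γ J : Type) (P P' : PP Γ J), Dn P → Dn P' → Dn fun n a v => P n a v ∨ P' n a v
  not : ∀ (Γ J : Type) [Finite Γ] [Finite J] (P : PP Γ J), Dn P → Dn fun n a v => ¬ P n a v
  map : ∀ (Γ Γ' J J' : Type) [Finite J'] (g : Γ' → Γ) (f : J → J') (P : PP Γ J), Dn P →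
    Dn fun n (a : Fin (n + 1) → Γ') (v : J' → ℕ) => P n (g ∘ a) (v ∘ f)
  exn : ∀ (Γ J J' : Type) [Finite J'] (P : PP Γ (J ⊕ J')), Dn P → Dn fun n a (v : J → ℕ) =>
    ∃ u : J' → ℕ, (∀ j, u j ≤ n + 1) ∧ P n a (Sum.elim v u)
  exw : ∀ (Γ Γ' J : Type) [Finite Γ'] (P : PP (Γ × Γ') J), Dn P →
    Dn fun n (a : Fin (n + 1) → Γ) v => ∃ b : Fin (n + 1) → Γ', P n (zp a b) v
  tc : ∀ (Γ Γ' J J' : Type) [Finite Γ] [Finite Γ'] [Finite J] [Finite J']
    (P : PP (Γ × (Γ' × Γ')) (J ⊕ (J' ⊕ J'))), Dn P →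
    Dn fun n (a : Fin (n + 1) → Γ × (Γ' × Γ')) (v : J ⊕ (J' ⊕ J') → ℕ) =>
      ReflTransGen (StepOf P n (fun i => (a i).1) (v ∘ Sum.inl))
        (fun i => (a i).2.1, v ∘ Sum.inr ∘ Sum.inl) (fun i => (a i).2.2, v ∘ Sum.inr ∘ Sum.inr)
  orf : ∀ (Γ J ι : Type) [Finite J] [Finite ι] (P : ι → PP Γ J), (∀ i, Dn (P i)) →
    Dn fun n a v => ∃ i, P i n a v
  andf : ∀ (Γ J ι : Type) [Finite J] [Finite ι] (P : ι → PP Γ J), (∀ i, Dn (P i)) →
    Dn fun n a v => ∀ i, P i n a v

/-- DCC: the modules give the calculus (three lines each). -/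
theorem dc (hC : Calc) (h1 : ONE_Stmt) (h2 : DNA_Stmt) (h3 : DNB_Stmt) (h4 : DNT_Stmt)
    (h5 : DNF_Stmt) : DC where
  base := (h1 hC).2
  and := (h2 hC h1).1
  or := (h2 hC h1).2.1
  not := (h2 hC h1).2.2
  map := (h3 hC h1).1
  exn := (h3 hC h1).2.1
  exw := (h3 hC h1).2.2
  tc := h4 hC h1
  orf := (h5 hC h1 h2).1
  andf := (h5 hC h1 h2).2

/-! ## 2. Arithmetic -/

/-- ARI: basic predicates on numbers.

Proof. `DC.base` with the local predicates of `LCL`, `Calc.loc`, `Calc.not`, and `Dn.congr` (the numbers are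
`≤ n + 1`). (1) all letters satisfy: mark `0` iff mark `1` (if both numbers are `0` there are no marks).
(2) first cell: mark `1` iff `v 0 = 0`; so write it as: either (no cell has the mark `0` and the first cell
has the mark `1`), or (some cell has mark `0`, the first cell has not the mark `1`, the last cell has not
the mark `0`, and in adjacent cells: mark `0` in the first iff mark `1` in the second); by `DC.and`, `DC.or`,
`DC.not`. (3) induction on `c`: `v 0 = 0` iff no cell has the mark; `v 0 = c + 1` iff there is `u` with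
`u = c` and `v 0 = u + 1` (`DC.exn`, `DC.map`). (4) the last cell has the mark. (5) not all letters satisfy:
no mark or not in `X`. (6) local predicates on the word alone: `DC.base` for the relabelled predicate. -/
def ARI_Stmt : Prop := LCL_Stmt → Calc → DC → ∀ (Γ : Type) [Finite Γ],
  Dn (fun (n : ℕ) (_ : Fin (n + 1) → Γ) (v : Fin 2 → ℕ) => v 0 = v 1) ∧
  Dn (fun (n : ℕ) (_ : Fin (n + 1) → Γ) (v : Fin 2 → ℕ) => v 1 = v 0 + 1) ∧
  (∀ c : ℕ, Dn (fun (n : ℕ) (_ : Fin (n + 1) → Γ) (v : Fin 1 → ℕ) => v 0 = c)) ∧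
  Dn (fun (n : ℕ) (_ : Fin (n + 1) → Γ) (v : Fin 1 → ℕ) => v 0 = n + 1) ∧
  (∀ X : Set Γ, Dn (fun (n : ℕ) (a : Fin (n + 1) → Γ) (v : Fin 1 → ℕ) =>
    ∃ i : Fin (n + 1), v 0 = i.val + 1 ∧ a i ∈ X)) ∧
  (∀ (J : Type) [Finite J] (P : WP Γ), Cc P →
    Dn (fun (n : ℕ) (a : Fin (n + 1) → Γ) (_ : J → ℕ) => P n a))

/-- ADD: addition and order.

Proof. (1) In the graph on pairs of numbers `≤ n + 1` with the steps `(i, u) → (i + 1, u + 1)` one reaches
`(y, z)` from `(0, x)` iff `x + y = z` (for `x, y, z ≤ n + 1`): `DC.tc` with `Γ' = Unit`, `J = Empty` (or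
`Fin 0`), `J' = Fin 2`; the step is definable by `ARI` (2) and `DC.map`, `DC.and`; `∃` start, end
(`DC.exn`), which are fixed by `ARI` (1), (3). (2) `x < y` iff `x + u = y'`, `y = y' + 1` for some
`u, y' ≤ n + 1`. -/
def ADD_Stmt : Prop := LCL_Stmt → Calc → DC → ARI_Stmt → ∀ (Γ : Type) [Finite Γ],
  Dn (fun (n : ℕ) (_ : Fin (n + 1) → Γ) (v : Fin 3 → ℕ) => v 0 + v 1 = v 2) ∧
  Dn (fun (n : ℕ) (_ : Fin (n + 1) → Γ) (v : Fin 2 → ℕ) => v 0 < v 1)

/-- MUL: multiplication.

Proof. As `ADD` with the steps `(i, u) → (i + 1, u + y)` with the parameter `y` (`J = Fin 1`): `(x, z)` is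
reached from `(0, 0)` iff `x * y = z` (if `x * y = z` all numbers on the way are `≤ n + 1`). -/
def MUL_Stmt : Prop := LCL_Stmt → Calc → DC → ARI_Stmt → ADD_Stmt → ∀ (Γ : Type) [Finite Γ],
  Dn (fun (n : ℕ) (_ : Fin (n + 1) → Γ) (v : Fin 3 → ℕ) => v 0 * v 1 = v 2)

/-- The entry `l` of the table in the word `a`, for the states `p = v 0` and `p' = v 1`. -/
def Bit {Γ : Type} (ω l : ℕ) (X : Set Γ) : PP Γ (Fin 2) := fun n a v =>
  ∃ s : ℕ, s * s * ω = n ∧ v 0 < s ∧ v 1 < s ∧
    ∃ i : Fin (n + 1), i.val = (v 0 * s + v 1) * ω + l ∧ a i ∈ X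

/-- BIT: the table is definable.

Proof. There are numbers `s, t, m, t', y, z, w, j, k, c, o ≤ n + 1` with `t = s * s`, `o = ω`, `t * o = m`,
`t' = m + 1`, `t' = n + 1`, `v 0 < s`, `v 1 < s`, `y = v 0 * s`, `z = y + v 1`, `w = z * o`, `c = l`, `j = w + c`,
`k = j + 1`, and the letter at the mark of `k` is in `X` (`ARI` (5)). All of them are `≤ n + 1` because
`1 ≤ ω`, `s ≤ s * s * ω` and `y ≤ z ≤ w ≤ j = i ≤ n`; `l ≤ j`, `ω ≤ n` (`s ≥ 1`). `DC.exn` for `Fin 11` (or
several times), `DC.map`, `DC.and`. -/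
def BIT_Stmt : Prop := LCL_Stmt → Calc → DC → ARI_Stmt → ADD_Stmt → MUL_Stmt →
  ∀ (Γ : Type) [Finite Γ] (ω l : ℕ) (X : Set Γ), 1 ≤ ω → Dn (Bit ω l X)

/-! ## 3. The universal predicate -/

/-- The numbers of a configuration: state (`inl 0`), cursor (`inl 1`), heads (`inr j`). The cursor is the
number of the cells that the sweep has already rewritten. -/
abbrev Nu (r : ℕ) : Type := Fin 2 ⊕ Fin r

/-- The labels of transitions: letter `m` replaced by `m'`; scanned symbols and steps of the heads;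
accepting state; blank letter. -/
abbrev Lab (r S : ℕ) : Type :=
  (Fin S × Fin S) ⊕ (((Fin r → Sym Lam) × (Fin r → Dir)) ⊕ (Unit ⊕ Fin S))

/-- the letters that stand for the bit `1` -/
def onL : Set (Option Lam) := {some (true, 0)}

/-- `σ` is the symbol at the position `v 0` of a head. -/
def Scan (σ : Sym Lam) : PP (Option Lam) (Fin 1) := fun n a v =>
  (v 0 = 0 ∧ σ = Sym.left) ∨ ∃ i : Fin (n + 1), v 0 = i.val + 1 ∧
    ((∃ b, a i = some b ∧ σ = Sym.letter b) ∨ (a i = none ∧ σ = Sym.right))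

/-- one letter of a sweep -/
def USw {r S : ℕ} (ω : ℕ) (e : Lab r S → ℕ) :
    PP (Option Lam × (Fin S × Fin S)) (Nu r ⊕ Nu r) := fun n w v =>
  v (Sum.inr (Sum.inl 1)) = v (Sum.inl (Sum.inl 1)) + 1 ∧
  (∀ j, v (Sum.inr (Sum.inr j)) = v (Sum.inl (Sum.inr j))) ∧
  ∃ m : Fin S × Fin S,
    Bit ω (e (Sum.inl m)) onL n (fun i => (w i).1)
      ![v (Sum.inl (Sum.inl 0)), v (Sum.inr (Sum.inl 0))] ∧
    ∀ i : Fin (n + 1), (v (Sum.inr (Sum.inl 1)) = i.val + 1 → (w i).2 = m) ∧
      (v (Sum.inr (Sum.inl 1)) ≠ i.val + 1 → (w i).2.2 = (w i).2.1)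

/-- a step of the heads -/
def UHd {r S : ℕ} (ω : ℕ) (e : Lab r S → ℕ) :
    PP (Option Lam × (Fin S × Fin S)) (Nu r ⊕ Nu r) := fun n w v =>
  v (Sum.inl (Sum.inl 1)) = n + 1 ∧ v (Sum.inr (Sum.inl 1)) = 0 ∧
  (∀ i, (w i).2.2 = (w i).2.1) ∧
  ∃ l : (Fin r → Sym Lam) × (Fin r → Dir),
    Bit ω (e (Sum.inr (Sum.inl l))) onL n (fun i => (w i).1)
      ![v (Sum.inl (Sum.inl 0)), v (Sum.inr (Sum.inl 0))] ∧
    ∀ j, Scan (l.1 j) n (fun i => (w i).1) ![v (Sum.inl (Sum.inr j))] ∧
      v (Sum.inr (Sum.inr j)) = move (n + 1) (v (Sum.inl (Sum.inr j))) (l.2 j)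

/-- the step relation, in the form for `DC.tc` (no numbers as parameters) -/
def USt {r S : ℕ} (ω : ℕ) (e : Lab r S → ℕ) :
    PP (Option Lam × (Fin S × Fin S)) (Empty ⊕ (Nu r ⊕ Nu r)) := fun n w v =>
  USw ω e n w (v ∘ Sum.inr) ∨ UHd ω e n w (v ∘ Sum.inr)

/-- the initial configuration -/
def UIn {r S : ℕ} (ω : ℕ) (e : Lab r S → ℕ) : PP (Option Lam × Fin S) (Nu r) := fun n w v =>
  (∀ j, v j = 0) ∧ ∃ b : Fin S, (∀ i, (w i).2 = b) ∧
    Bit ω (e (Sum.inr (Sum.inr (Sum.inr b)))) onL n (fun i => (w i).1)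
      ![v (Sum.inl 0), v (Sum.inl 0)]

/-- accepting configurations -/
def UAc {r S : ℕ} (ω : ℕ) (e : Lab r S → ℕ) : PP (Option Lam × Fin S) (Nu r) := fun n w v =>
  v (Sum.inl 1) = 0 ∧ Bit ω (e (Sum.inr (Sum.inr (Sum.inl ())))) onL n (fun i => (w i).1)
      ![v (Sum.inl 0), v (Sum.inl 0)]

/-- **The universal predicate.** -/
def Uni {r S : ℕ} (ω : ℕ) (e : Lab r S → ℕ) : WP (Option Lam) := fun n a =>
  ∃ c c' : (Fin (n + 1) → Fin S) × (Nu r → ℕ), (∀ j, c.2 j ≤ n + 1) ∧ (∀ j, c'.2 j ≤ n + 1) ∧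
    UIn ω e n (zp a c.1) c.2 ∧ ReflTransGen (StepOf (USt ω e) n a Empty.elim) c c' ∧
    UAc ω e n (zp a c'.1) c'.2

/-- SCM: the symbols that are scanned and the moves of the heads.

Proof. (1) cases for `σ`; `ARI` (3), (5), `DC.or`, `Dn.congr` (for `σ` fixed, `Scan σ` is `v 0 = 0`, or the
letter at the mark is in `{some b}`, or in `{none}`). (2) `L`: `v 0 = v 1 + 1`, or `v 0 = 0` and `v 1 = 0`;
`S`: `v 1 = v 0`; `R`: `v 1 = v 0 + 1`, or both are `n + 1` (all numbers are `≤ n + 1`). (3) Finiteness of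
the types. -/
def SCM_Stmt : Prop := LCL_Stmt → Calc → DC → ARI_Stmt →
  (∀ σ : Sym Lam, Dn (Scan σ)) ∧
  (∀ (Γ : Type) [Finite Γ] (d : Dir),
    Dn (fun (n : ℕ) (_ : Fin (n + 1) → Γ) (v : Fin 2 → ℕ) => v 1 = move (n + 1) (v 0) d)) ∧
  Finite Dir ∧ Finite (Sym Lam)

/-- USD: the step relation is definable.

Proof. The calculus `DC`, `ARI`, `BIT`, `SCM`. (1) The last condition is the local predicate for all letters
(letter, mark of `v (inr (inl 1))`): `LCL` (3), `DC.base` for `J = Fin 1`, `DC.map`; `∃ m`: `DC.orf`; `∀ j`: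
`DC.andf`. (2) the same, `∃ l`: `DC.orf` (finite types by `SCM` (3)). (3) `DC.map` with `f = Sum.inr`,
`DC.or`. The relabelling of words: `DC.map` with `g = Prod.fst`. -/
def USD_Stmt : Prop := LCL_Stmt → Calc → DC → ARI_Stmt → BIT_Stmt → SCM_Stmt → ADD_Stmt →
  MUL_Stmt → ∀ (r S ω : ℕ) (e : Lab r S → ℕ), 1 ≤ ω →
    Dn (USw ω e) ∧ Dn (UHd ω e) ∧ Dn (USt ω e)

/-- UDF: the universal predicate is in the class.

Proof. `UIn`, `UAc` are definable as in `USD`. `DC.tc` for `USt` (`Γ = Option Lam`, `Γ' = Fin S`, `J = Empty`,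
`J' = Nu r`) and `DC.map` for `UIn`, `UAc` give that the matrix is definable as a predicate on words over
`Option Lam × (Fin S × Fin S)` and numbers `Empty ⊕ (Nu r ⊕ Nu r)`; `DC.exw`, `DC.exn`. There remains a
definable predicate with the numbers `Empty`: `Dn P → Cc (fun n a => P n a Empty.elim)` by `Calc.map` with
`x ↦ (x, Empty.elim)` (all functions on `Empty` are equal). -/
def UDF_Stmt : Prop := LCL_Stmt → Calc → DC → ARI_Stmt → BIT_Stmt → SCM_Stmt → ADD_Stmt →
  MUL_Stmt → USD_Stmt → ∀ (r S ω : ℕ) (e : Lab r S → ℕ), 1 ≤ ω → Cc (Uni ω e)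

/-! ## 4. Code words and the simulation -/

open Classical in
/-- The code word of the relation `R` (`R p p' l`: there is a transition with the label `l` from the
state `p` to the state `p'`). -/
noncomputable def code (s ω : ℕ) (R : ℕ → ℕ → ℕ → Prop) : List Lam :=
  (List.range (s * s * ω)).map fun j => (decide (R (j / ω / s) (j / ω % s) (j % ω)), 0)

/-- COD: reading the code word.

Proof. The length is `s * s * ω`, and `s' * s' * ω = s * s * ω` implies `s' = s` (`Nat.mul_self_inj`,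
`1 ≤ ω`). For `p, p' < s`, `l < ω` the number `j = (p * s + p') * ω + l` is `< s * s * ω`, with
`j / ω = p * s + p'`, `j % ω = l`, and then `/ s`, `% s`. -/
def COD_Stmt : Prop := ∀ (s ω : ℕ) (R : ℕ → ℕ → ℕ → Prop) (l : ℕ) (v : Fin 2 → ℕ), l < ω →
  (Bit ω l onL (code s ω R).length (fun i => (code s ω R)[(i : ℕ)]?) v ↔
    v 0 < s ∧ v 1 < s ∧ R (v 0) (v 1) l)

/-- SCN: the scanned symbol.

Proof. Definition of `tape`; cases `v 0 = 0` and `v 0 = i + 1`, `i ≤ n`; `x[n]? = none`. -/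
def SCN_Stmt : Prop := ∀ (x : List Lam) (σ : Sym Lam) (v : Fin 1 → ℕ), v 0 ≤ x.length + 1 →
  (Scan σ x.length (fun i => x[(i : ℕ)]?) v ↔ σ = tape x (v 0))

/-- The micro steps of a machine. Configurations: state, cursor, memory, heads. -/
def Mic {Λ : Type} {r S : ℕ} (T : RM Λ r S) (x : List Λ)
    (c c' : T.Q × ℕ × (Fin (x.length + 1) → Fin S) × (Fin r → ℕ)) : Prop :=
  (c'.2.1 = c.2.1 + 1 ∧ c'.2.1 ≤ x.length + 1 ∧ c'.2.2.2 = c.2.2.2 ∧
    ∃ m : Fin S × Fin S, (c'.1, m.2) ∈ T.sw c.1 m.1 ∧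
      ∀ i : Fin (x.length + 1), (c'.2.1 = i.val + 1 → (c.2.2.1 i, c'.2.2.1 i) = m) ∧
        (c'.2.1 ≠ i.val + 1 → c'.2.2.1 i = c.2.2.1 i)) ∨
  (c.2.1 = x.length + 1 ∧ c'.2.1 = 0 ∧ c'.2.2.1 = c.2.2.1 ∧
    ∃ d : Fin r → Dir, (c'.1, d) ∈ T.hd c.1 (fun j => tape x (c.2.2.2 j)) ∧
      c'.2.2.2 = fun j => move (x.length + 1) (c.2.2.2 j) (d j))

/-- SWP: sweeps by letters.

Proof. (1) induction on the list `u` (or on `k` from the end). (2) if `Sweep sw q (u₁ ++ u₂) q' v` then
split; from both one gets: a sweep over `u` of length `N` from `q` to `q'` with the result `v` exists iff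
there is a sequence of states `p 0 = q, …, p N = q'` with `(p (k + 1), v k) ∈ sw (p k) (u k)`. -/
def SWP_Stmt : Prop := ∀ (Q A B : Type) (sw : Q → A → Set (Q × B)) (N : ℕ) (u : Fin N → A)
  (v : List B) (q q' : Q),
    Sweep sw q (List.ofFn u) q' v ↔ ∃ (w : Fin N → B) (p : Fin (N + 1) → Q), v = List.ofFn w ∧
      p 0 = q ∧ p (Fin.last N) = q' ∧ ∀ k : Fin N, (p k.succ, w k) ∈ sw (p k.castSucc) (u k)

/-- MIC: micro steps are equivalent to rounds.

Proof. `n = |x|`. The memory words of all configurations reached by rounds have length `n + 1`, so they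
are `List.ofFn` of functions (`SWP`). (→) A round from `(q, h, u)` to `(q', h', w)` with the states
`p 0, …, p (n + 1)` of the sweep gives the micro steps through the configurations
`(p k, k, (w up to cell k - 1, then u), h)`, `k ≤ n + 1`, and then the step of the heads. (←) Invariant of
the configurations `(p, k, mem, h)` reached by micro steps: there are a configuration `(q, h, u)` reached
by rounds and states `p 0 = q, …, p k = p` with `(p (i + 1), mem i) ∈ sw (p i) (u i)` for `i < k` and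
`mem i = u i` for `i ≥ k` (and `k ≤ n + 1`). The first kind of step increases `k`; the second kind is
possible for `k = n + 1` only and completes a round. For `k = 0` the configuration itself is reached by
rounds. -/
def MIC_Stmt : Prop := SWP_Stmt → ∀ (Λ : Type) (r S : ℕ) (T : RM Λ r S) (x : List Λ),
  x ∈ T.lang ↔ ∃ (p : T.Q) (mem : Fin (x.length + 1) → Fin S) (h : Fin r → ℕ),
    ReflTransGen (Mic T x) (T.start, 0, (fun _ => T.blank), fun _ => 0) (p, 0, mem, h) ∧
      p ∈ T.accept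

/-- the transitions of the machine `T` -/
def trn {r S : ℕ} (T : RM Lam r S) (P P' : T.Q) : Lab r S → Prop
  | Sum.inl m => (P', m.2) ∈ T.sw P m.1
  | Sum.inr (Sum.inl l) => (P', l.2) ∈ T.hd P l.1
  | Sum.inr (Sum.inr (Sum.inl _)) => P ∈ T.accept
  | Sum.inr (Sum.inr (Sum.inr b)) => b = T.blank

/-- the relation on numbers, for numberings `q` of the states and `e` of the labels -/
def Rel {r S s ω : ℕ} (T : RM Lam r S) (q : T.Q ≃ Fin s) (e : Lab r S ≃ Fin ω)
    (p p' l : ℕ) : Prop :=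
  ∃ (P P' : T.Q) (L : Lab r S), (q P).val = p ∧ (q P').val = p' ∧ (e L).val = l ∧ trn T P P' L

/-- SIM: the universal predicate simulates the machine, for its code word.

Proof. `x` = the code word, `n = |x|`, `e' l = (e l).val`. By `COD`, for states `P`, `P'` with the numbers
`p`, `p'`: `Bit ω (e' L) onL …` holds for `p, p'` iff `trn T P P' L`; if it holds for numbers `v 0, v 1`
then both are `< s`, so numbers of states. Let `Φ (P, k, mem, h) = (mem, v)` with `v (inl 0) = q P`,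
`v (inl 1) = k`, `v (inr j) = h j`. For `c` with cursor and heads `≤ n + 1`: `Mic T x c c'` implies that
`c'` has this property and `StepOf (USt ω e') n a Empty.elim (Φ c) (Φ c')` (numbers of states are `< s ≤ n`, as
`n = s * s * ω`, `ω ≥ 1` as `Lab` has an element), and if `StepOf … (Φ c) y` then `y = Φ c'` for some `c'` with
`Mic T x c c'` (`SCN` for the scanned symbols). So the chains correspond. `UIn` holds for
`(mem, v)` iff it is `Φ` of the initial configuration (`q start = 0`); `UAc` holds for `Φ (P, k, mem, h)` iff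
`k = 0` and `P ∈ T.accept`. Now `MIC`. -/
def SIM_Stmt : Prop := COD_Stmt → SCN_Stmt → SWP_Stmt → MIC_Stmt →
  ∀ (r S s ω : ℕ) (T : RM Lam r S) (q : T.Q ≃ Fin s) (e : Lab r S ≃ Fin ω),
    (q T.start).val = 0 →
    (Uni ω (fun l => (e l).val) (code s ω (Rel T q e)).length
        (fun i => (code s ω (Rel T q e))[(i : ℕ)]?) ↔ code s ω (Rel T q e) ∈ T.lang)

/-- UNF: the assembly.

Proof. `Lab r S` is finite (`SCM` (3)) and has an element (`inr (inr (inl ()))`), so `e : Lab r S ≃ Fin ω`,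
`1 ≤ ω`. `U = Uni ω e` (`UDF`). For `T` take `q₀ : T.Q ≃ Fin s` and compose it with the transposition of
`q₀ start` and `0` (`s ≥ 1`); `SIM`. -/
def UNF_Stmt : Prop := LCL_Stmt → Calc → DC → ARI_Stmt → ADD_Stmt → MUL_Stmt → BIT_Stmt →
  SCM_Stmt → USD_Stmt → UDF_Stmt → COD_Stmt → SCN_Stmt → SWP_Stmt → MIC_Stmt → SIM_Stmt →
  UNIV_Stmt

end Pool.Agent.NPH
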