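import Pool.Agent.NPH.StA

/-!
# Project NPH, module UPA: assembly of the simulation of the machines by pushdown automata
-/

set_option autoImplicit false

namespace Pool.Agent.NPH

open Pool.Agent.Heads Relation

theorem t_UPA (h1 : FIN_Stmt) (h2 : TWO_Stmt) (h3 : HIA_Stmt) (h4 : HIB_Stmt) (h5 : DGT_Stmt)
    (h6 : ENC_Stmt) : UPA_Stmt := by
  intro Λ _ k β S hk _ hS L hL
  obtain ⟨T, rfl⟩ := hL
  have hQ := T.finQ
  have hS2 : 2 * S ≤ β ^ (2 * k) := by omega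
  obtain ⟨e, he1, he2, he3⟩ := h6 (2 * k) β S T.blank hS2
  have hSpos : 0 < S := Fin.pos T.blank
  have hβ : 1 ≤ β := by
    by_contra h
    have h0 : β = 0 := by omega
    rw [h0, zero_pow (by omega)] at hS
    omega
  have hH : Finite (Ev Λ T.Q (2 * k) S) := h1.2.2 Λ T.Q (2 * k) S
  have hok : ∀ (η : Ev Λ T.Q (2 * k) S) (i : Fin (2 * k)), (evAc e η i).ok β := by
    intro η i
    cases η with
    | sw μ p a p' a' => exact ⟨he1 _ _, he1 _ _⟩
    | hd p s p' d => exact trivial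
    | ck p a => exact ⟨he1 _ _, he1 _ _⟩
  obtain ⟨A, hA⟩ := h2 Λ (Ev Λ T.Q (2 * k) S) k β (EvC T)
    {η | ∃ p ∈ T.accept, ∃ a, η = .ck p a} (evAc e) (fun i => e (T.blank, true) i) hβ hok
    (fun i => he1 _ _)
  refine ⟨A, fun x => ?_⟩
  have hM : 1 ≤ β ^ (x.length + 1) := Nat.one_le_pow _ _ hβ
  have hd : β ∣ β ^ (x.length + 1) := dvd_pow_self _ (Nat.succ_ne_zero _)
  rw [hA _ x hM hd]
  constructor
  · rintro ⟨h, hC, ⟨η, ⟨p, hp, a, rfl⟩, hh⟩, hr⟩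
    obtain ⟨l, rfl⟩ : ∃ l, h = .ck p a :: l := by
      cases h with
      | nil => exact absurd hh (by simp)
      | cons b l =>
        have h7 : b = .ck p a := by simpa using hh
        exact ⟨l, by rw [h7]⟩
    exact h4 Λ (2 * k) S T x _ hC ⟨p, hp, a, l, rfl⟩
      ((h5 Λ (2 * k) S β T e hβ he1 he2 he3 x _).2 hr)
  · intro hx
    obtain ⟨h, hC, ⟨p, hp, a, l, rfl⟩, hr⟩ := h3 Λ (2 * k) S T x hx
    exact ⟨_, hC, ⟨_, ⟨p, hp, a, rfl⟩, rfl⟩, (h5 Λ (2 * k) S β T e hβ he1 he2 he3 x _).1 hr⟩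

end Pool.Agent.NPH
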